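import Mathlib

set_option autoImplicit false

namespace Pool.Agent.H17.Adic3

/-- parity of the 3-adic valuation -/
def lab (u : ℤ) : ℤ := (padicValInt 3 u : ℤ) % 2

/-- last three nonzero ternary digits -/
def dig (u : ℤ) : ℤ := (u / 3 ^ padicValInt 3 u) % 27

theorem dig_zero : dig 0 = 0 := by simp [dig]

theorem decomp (u : ℤ) (hu : u ≠ 0) :
    ∃ (a : ℕ) (u' : ℤ), u = 3 ^ a * u' ∧ u' % 3 ≠ 0 ∧ lab u = (a : ℤ) % 2 ∧ dig u = u' % 27 := by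
  have : Fact (Nat.Prime 3) := ⟨by norm_num⟩
  have h1 : ((3 : ℕ) : ℤ) ^ padicValInt 3 u ∣ u := padicValInt_dvd u
  obtain ⟨u', hu'⟩ := h1
  have h3 : ((3 : ℕ) : ℤ) = 3 := by norm_num
  rw [h3] at hu'
  refine ⟨padicValInt 3 u, u', hu', ?_, rfl, ?_⟩
  · intro h
    have : ((3 : ℕ) : ℤ) ^ (padicValInt 3 u + 1) ∣ u := by
      rw [h3, pow_succ]
      obtain ⟨k, hk⟩ := Int.dvd_of_emod_eq_zero h
      exact ⟨k, by rw [mul_assoc, ← hk]; exact hu'⟩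
    rw [padicValInt_dvd_iff] at this
    rcases this with h | h
    · exact hu h
    · omega
  · unfold dig
    congr 1
    have hp : (3 : ℤ) ^ padicValInt 3 u ≠ 0 := by positivity
    exact Int.ediv_eq_of_eq_mul_right hp hu'

theorem unit_case (u : ℤ) (hu : u % 3 ≠ 0) : lab u = 0 ∧ dig u = u % 27 := by
  have h0 : u ≠ 0 := by rintro rfl; simp at hu
  obtain ⟨a, u', h1, h2, h3, h4⟩ := decomp u h0
  cases a with
  | zero => simp at h1; subst h1; simpa using ⟨h3, h4⟩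
  | succ a =>
    exfalso
    apply hu
    rw [h1, pow_succ, mul_comm _ (3 : ℤ), mul_assoc]
    simp

theorem pw (e : ℕ) (u : ℤ) : ∃ y : ℤ, (e = 0 ∧ 3 ^ e * u = u) ∨ (e = 1 ∧ 3 ^ e * u = 3 * u) ∨
    (e = 2 ∧ 3 ^ e * u = 9 * u) ∨ (3 ≤ e ∧ 3 ^ e * u = 27 * y) := by
  match e with
  | 0 => exact ⟨0, Or.inl ⟨rfl, by ring⟩⟩
  | 1 => exact ⟨0, Or.inr (Or.inl ⟨rfl, by ring⟩)⟩
  | 2 => exact ⟨0, Or.inr (Or.inr (Or.inl ⟨rfl, by ring⟩))⟩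
  | e + 3 => exact ⟨3 ^ e * u, Or.inr (Or.inr (Or.inr ⟨by omega, by ring⟩))⟩

theorem core (a b c : ℕ) (u v w : ℤ) (h : 3 ^ a * u + 3 ^ b * v + 3 ^ c * w = 0) :
    ∃ t e1 e2 e3 : ℕ, a = t + e1 ∧ b = t + e2 ∧ c = t + e3 ∧ (e1 = 0 ∨ e2 = 0 ∨ e3 = 0) ∧
      3 ^ e1 * u + 3 ^ e2 * v + 3 ^ e3 * w = 0 := by
  refine ⟨min a (min b c), a - min a (min b c), b - min a (min b c), c - min a (min b c),
    by omega, by omega, by omega, by omega, ?_⟩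
  set t := min a (min b c) with ht
  have hp : (3 : ℤ) ^ t ≠ 0 := by positivity
  apply mul_left_cancel₀ hp
  have ha : (3 : ℤ) ^ a = 3 ^ t * 3 ^ (a - t) := by rw [← pow_add]; congr 1; omega
  have hb : (3 : ℤ) ^ b = 3 ^ t * 3 ^ (b - t) := by rw [← pow_add]; congr 1; omega
  have hc : (3 : ℤ) ^ c = 3 ^ t * 3 ^ (c - t) := by rw [← pow_add]; congr 1; omega
  rw [ha, hb, hc] at h
  linear_combination h

theorem lemA (u v w : ℤ) (h : u + v + w = 0) (h1 : dig u % 3 ≠ 0) (h2 : dig v % 3 = dig u % 3)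
    (h3 : dig w % 3 = dig u % 3) : (dig u + dig v + dig w) % 27 = 0 := by
  have hu : u ≠ 0 := by rintro rfl; simp [dig_zero] at h1
  have hv : v ≠ 0 := by rintro rfl; rw [dig_zero] at h2; omega
  have hw : w ≠ 0 := by rintro rfl; rw [dig_zero] at h3; omega
  obtain ⟨a, u', ha1, ha2, ha3, ha4⟩ := decomp u hu
  obtain ⟨b, v', hb1, hb2, hb3, hb4⟩ := decomp v hv
  obtain ⟨c, w', hc1, hc2, hc3, hc4⟩ := decomp w hw
  rw [ha1, hb1, hc1] at h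
  obtain ⟨t, e1, e2, e3, -, -, -, h0, hs⟩ := core a b c u' v' w' h
  obtain ⟨y1, k1⟩ := pw e1 u'
  obtain ⟨y2, k2⟩ := pw e2 v'
  obtain ⟨y3, k3⟩ := pw e3 w'
  rw [ha4] at h1 h2 h3
  rw [hb4] at h2
  rw [hc4] at h3
  rw [ha4, hb4, hc4]
  generalize 3 ^ e1 * u' = A at *
  generalize 3 ^ e2 * v' = B at *
  generalize 3 ^ e3 * w' = C at *
  clear ha1 hb1 hc1 h ha3 hb3 hc3 ha4 hb4 hc4 hu hv hw
  rcases k1 with k1 | k1 | k1 | k1 <;> rcases k2 with k2 | k2 | k2 | k2 <;>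
    rcases k3 with k3 | k3 | k3 | k3 <;> omega

theorem lemB (u v w : ℤ) (h : u + v + w = 0) (hl : lab u = lab v) (h1 : dig u % 3 ≠ 0)
    (h2 : (dig u + dig v) % 3 = 0) (h3 : (dig u + dig v) % 9 ≠ 0) :
    (lab w = (lab u + 1) % 2 ∧ (dig u + dig v + 3 * dig w) % 27 = 0) ∨
      (dig w + dig u) % 9 = 0 ∨ (dig w + dig v) % 9 = 0 := by
  have hu : u ≠ 0 := by rintro rfl; simp [dig_zero] at h1
  have hv : v ≠ 0 := by rintro rfl; rw [dig_zero] at h2; omega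
  obtain ⟨a, u', ha1, ha2, ha3, ha4⟩ := decomp u hu
  obtain ⟨b, v', hb1, hb2, hb3, hb4⟩ := decomp v hv
  by_cases hw : w = 0
  · exfalso
    have h' : 3 ^ a * u' + 3 ^ b * v' + 3 ^ (a + b) * (0 : ℤ) = 0 := by
      rw [← ha1, ← hb1]; rw [hw] at h; linear_combination h
    obtain ⟨t, e1, e2, e3, q1, q2, q3, h0, hs⟩ := core a b (a + b) u' v' 0 h'
    obtain ⟨y1, k1⟩ := pw e1 u'
    obtain ⟨y2, k2⟩ := pw e2 v'
    rw [ha4] at h1 h2 h3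
    rw [hb4] at h2 h3
    rw [ha3, hb3] at hl
    rw [mul_zero] at hs
    generalize 3 ^ e1 * u' = A at *
    generalize 3 ^ e2 * v' = B at *
    clear ha1 hb1 h h' ha3 hb3 ha4 hb4 hu hv hw
    rcases k1 with k1 | k1 | k1 | k1 <;> rcases k2 with k2 | k2 | k2 | k2 <;> omega
  obtain ⟨c, w', hc1, hc2, hc3, hc4⟩ := decomp w hw
  rw [ha1, hb1, hc1] at h
  obtain ⟨t, e1, e2, e3, q1, q2, q3, h0, hs⟩ := core a b c u' v' w' h
  obtain ⟨y1, k1⟩ := pw e1 u'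
  obtain ⟨y2, k2⟩ := pw e2 v'
  obtain ⟨y3, k3⟩ := pw e3 w'
  rw [ha4] at h1 h2 h3
  rw [hb4] at h2 h3
  rw [ha3, hb3] at hl
  rw [ha4, hb4, hc4, ha3, hc3]
  generalize 3 ^ e1 * u' = A at *
  generalize 3 ^ e2 * v' = B at *
  generalize 3 ^ e3 * w' = C at *
  clear ha1 hb1 hc1 h ha3 hb3 hc3 ha4 hb4 hc4 hu hv hw
  rcases k1 with k1 | k1 | k1 | k1 <;> rcases k2 with k2 | k2 | k2 | k2 <;>
    rcases k3 with k3 | k3 | k3 | k3 <;> omega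

end Pool.Agent.H17.Adic3
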