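import Pool.Agent.H17.Adic3

set_option autoImplicit false

namespace Pool.Agent.H17.Adic3

/-- the relation on coloured triples -/
def T (p q r : ℤ × ℤ) : Prop :=
  ∃ u v w : ℤ, u + v + w = 0 ∧ p = (lab u, dig u) ∧ q = (lab v, dig v) ∧ r = (lab w, dig w)

theorem T.rot {p q r : ℤ × ℤ} (h : T p q r) : T q r p := by
  obtain ⟨u, v, w, h0, h1, h2, h3⟩ := h
  exact ⟨v, w, u, by linarith, h2, h3, h1⟩

theorem T.A {p q r : ℤ × ℤ} (h : T p q r) (h1 : p.2 % 3 ≠ 0) (h2 : q.2 % 3 = p.2 % 3)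
    (h3 : r.2 % 3 = p.2 % 3) : (p.2 + q.2 + r.2) % 27 = 0 := by
  obtain ⟨u, v, w, h0, rfl, rfl, rfl⟩ := h
  exact lemA u v w h0 h1 h2 h3

theorem T.B {p q r : ℤ × ℤ} (h : T p q r) (hl : p.1 = q.1) (h1 : p.2 % 3 ≠ 0)
    (h2 : (p.2 + q.2) % 3 = 0) (h3 : (p.2 + q.2) % 9 ≠ 0) :
    (r.1 = (p.1 + 1) % 2 ∧ (p.2 + q.2 + 3 * r.2) % 27 = 0) ∨
      (r.2 + p.2) % 9 = 0 ∨ (r.2 + q.2) % 9 = 0 := by
  obtain ⟨u, v, w, h0, rfl, rfl, rfl⟩ := h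
  exact lemB u v w h0 hl h1 h2 h3

theorem dvd_of {N a b : ℤ} (h : N ∣ a) (e : a = b) : N ∣ b := e ▸ h

theorem lin (N P : ℤ) (f : ℤ → ℤ) (h : ∀ k, N ∣ f (k + 1) - f k - P) (k : ℤ) :
    N ∣ f k - (P * k + f 0) := by
  induction k using Int.induction_on with
  | zero => simp
  | succ k ih =>
    have := Int.dvd_add ih (h k)
    exact dvd_of this (by ring)
  | pred k ih =>
    have := Int.dvd_sub ih (h (-(k : ℤ) - 1))
    rw [show -(k : ℤ) - 1 + 1 = -k by ring] at this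
    exact dvd_of this (by ring)

theorem affine (N κ c : ℤ) (f1 f2 f3 : ℤ → ℤ)
    (h : ∀ a b d, a + b + d = κ → N ∣ f1 a + f2 b + f3 d - c) :
    ∃ P : ℤ, (∀ k, N ∣ f1 k - (P * k + f1 0)) ∧ (∀ k, N ∣ f2 k - (P * k + f2 0)) ∧
      (∀ k, N ∣ f3 k - (P * k + f3 0)) := by
  have e1 : ∀ k, N ∣ f1 (k + 1) - f1 k - (f2 1 - f2 0) := fun k => by
    have := dvd_sub (h (k + 1) 0 (κ - k - 1) (by ring)) (h k 1 (κ - k - 1) (by ring))
    exact dvd_of this (by ring)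
  have e2 : ∀ k, N ∣ f2 (k + 1) - f2 k - (f2 1 - f2 0) := fun k => by
    have := dvd_sub (h 0 (k + 1) (κ - k - 1) (by ring)) (h 1 k (κ - k - 1) (by ring))
    have h2 := e1 0
    rw [zero_add] at h2
    have := dvd_add this h2
    exact dvd_of this (by ring)
  have e3 : ∀ k, N ∣ f3 (k + 1) - f3 k - (f2 1 - f2 0) := fun k => by
    have := dvd_sub (h (κ - k - 1) 0 (k + 1) (by ring)) (h (κ - k - 1) 1 k (by ring))
    exact dvd_of this (by ring)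
  exact ⟨f2 1 - f2 0, lin N _ f1 e1, lin N _ f2 e2, lin N _ f3 e3⟩

theorem step3 (g1 g2 g3 : ℤ → ℤ × ℤ) (m : ℤ)
    (hT : ∀ u v w, u + v + w = 0 → T (g1 u) (g2 v) (g3 w))
    (h1 : ∀ u, u % 3 ≠ 0 → (g1 u).1 = m ∧ ((g1 u).2 - u) % 9 = 0)
    (h2 : ∀ u, u % 3 ≠ 0 → (g2 u).1 = m ∧ ((g2 u).2 - u) % 9 = 0)
    (P Q a b : ℤ) (hP : ∀ k, (27 : ℤ) ∣ (g1 (1 + 3 * k)).2 - (P * k + a))
    (hQ : ∀ k, (27 : ℤ) ∣ (g2 (-1 + 3 * k)).2 - (Q * k + b)) :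
    (27 : ℤ) ∣ P - Q ∧ ∀ z, z % 3 ≠ 0 → (g3 (3 * z)).1 = (m + 1) % 2 ∧
      (27 : ℤ) ∣ 3 * (g3 (3 * z)).2 - (Q * z - a - b) := by
  have key : ∀ z k, z % 3 ≠ 0 → ((g3 (3 * z)).1 = (m + 1) % 2 ∧
      (27 : ℤ) ∣ 3 * (g3 (3 * z)).2 + (P * k + a) + (Q * (-k - z) + b)) ∨
      ((g3 (3 * z)).2 + 1 + 3 * k) % 9 = 0 ∨ ((g3 (3 * z)).2 - 1 - 3 * k - 3 * z) % 9 = 0 := by
    intro z k hz
    have t := hT (1 + 3 * k) (-1 + 3 * (-k - z)) (3 * z) (by ring)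
    have a1 := h1 (1 + 3 * k) (by omega)
    have a2 := h2 (-1 + 3 * (-k - z)) (by omega)
    have b1 := hP k
    have b2 := hQ (-k - z)
    have := t.B (by rw [a1.1, a2.1]) (by omega) (by omega) (by omega)
    rw [a1.1] at this
    generalize P * k = A at *
    generalize Q * (-k - z) = B at *
    omega
  have hPQ : (27 : ℤ) ∣ P - Q := by
    have k0 := key 1 0 (by norm_num)
    have k1 := key 1 1 (by norm_num)
    have k2 := key 1 2 (by norm_num)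
    have p0 := hP 0
    have p1 := hP 1
    have q0 := hQ 0
    have q1 := hQ 1
    have r0 := h1 (1 + 3 * 0) (by norm_num)
    have r1 := h1 (1 + 3 * 1) (by norm_num)
    have s0 := h2 (-1 + 3 * 0) (by norm_num)
    have s1 := h2 (-1 + 3 * 1) (by norm_num)
    omega
  refine ⟨hPQ, fun z hz => ?_⟩
  have k0 := key z 0 hz
  have k1 := key z 1 hz
  rw [show Q * (-0 - z) = -(Q * z) by ring] at k0
  rw [show Q * (-1 - z) = -Q - (Q * z) by ring] at k1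
  generalize Q * z = B at *
  omega

theorem descent (n : ℕ) : ∀ (m : ℤ) (g1 g2 g3 : ℤ → ℤ × ℤ),
    (∀ u k, g1 (u + 3 ^ n * k) = g1 u) → (∀ u k, g2 (u + 3 ^ n * k) = g2 u) →
    (∀ u k, g3 (u + 3 ^ n * k) = g3 u) →
    (∀ u v w, u + v + w = 0 → T (g1 u) (g2 v) (g3 w)) →
    (∀ u, u % 3 ≠ 0 → (g1 u).1 = m ∧ ((g1 u).2 - u) % 9 = 0) →
    (∀ u, u % 3 ≠ 0 → (g2 u).1 = m ∧ ((g2 u).2 - u) % 9 = 0) →
    (∀ u, u % 3 ≠ 0 → (g3 u).1 = m ∧ ((g3 u).2 - u) % 9 = 0) → False := by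
  induction n with
  | zero =>
    intro m g1 g2 g3 p1 _ _ _ h1 _ _
    have a := h1 1 (by norm_num)
    have b := h1 4 (by norm_num)
    have c := p1 1 3
    norm_num at c
    rw [c] at b
    omega
  | succ n ih =>
    intro m g1 g2 g3 p1 p2 p3 hT h1 h2 h3
    have cP : ∀ a b d : ℤ, a + b + d = -1 →
        (27 : ℤ) ∣ (g1 (1 + 3 * a)).2 + (g2 (1 + 3 * b)).2 + (g3 (1 + 3 * d)).2 - 0 := by
      intro a b d habd
      have t := hT (1 + 3 * a) (1 + 3 * b) (1 + 3 * d) (by linarith)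
      have a1 := h1 (1 + 3 * a) (by omega)
      have a2 := h2 (1 + 3 * b) (by omega)
      have a3 := h3 (1 + 3 * d) (by omega)
      have := t.A (by omega) (by omega) (by omega)
      omega
    have cQ : ∀ a b d : ℤ, a + b + d = 1 →
        (27 : ℤ) ∣ (g1 (-1 + 3 * a)).2 + (g2 (-1 + 3 * b)).2 + (g3 (-1 + 3 * d)).2 - 0 := by
      intro a b d habd
      have t := hT (-1 + 3 * a) (-1 + 3 * b) (-1 + 3 * d) (by linarith)
      have a1 := h1 (-1 + 3 * a) (by omega)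
      have a2 := h2 (-1 + 3 * b) (by omega)
      have a3 := h3 (-1 + 3 * d) (by omega)
      have := t.A (by omega) (by omega) (by omega)
      omega
    obtain ⟨P, P1, P2, P3⟩ := affine 27 (-1) 0 (fun k => (g1 (1 + 3 * k)).2)
      (fun k => (g2 (1 + 3 * k)).2) (fun k => (g3 (1 + 3 * k)).2) cP
    obtain ⟨Q, Q1, Q2, Q3⟩ := affine 27 1 0 (fun k => (g1 (-1 + 3 * k)).2)
      (fun k => (g2 (-1 + 3 * k)).2) (fun k => (g3 (-1 + 3 * k)).2) cQ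
    have hT2 : ∀ u v w, u + v + w = 0 → T (g2 u) (g3 v) (g1 w) :=
      fun u v w h => (hT w u v (by linarith)).rot
    have hT3 : ∀ u v w, u + v + w = 0 → T (g3 u) (g1 v) (g2 w) :=
      fun u v w h => (hT2 w u v (by linarith)).rot
    obtain ⟨hPQ, s3⟩ := step3 g1 g2 g3 m hT h1 h2 P Q _ _ P1 Q2
    obtain ⟨-, s1⟩ := step3 g2 g3 g1 m hT2 h2 h3 P Q _ _ P2 Q3
    obtain ⟨-, s2⟩ := step3 g3 g1 g2 m hT3 h3 h1 P Q _ _ P3 Q1
    have sP := cP (-1) 0 0 (by norm_num)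
    have sQ := cQ 1 0 0 (by norm_num)
    have P1' := P1 (-1)
    have Q1' := Q1 1
    have u1 := h1 (1 + 3 * 0) (by norm_num)
    have u2 := h2 (1 + 3 * 0) (by norm_num)
    have u3 := h3 (1 + 3 * 0) (by norm_num)
    have v1 := h1 (-1 + 3 * 0) (by norm_num)
    have v2 := h2 (-1 + 3 * 0) (by norm_num)
    have v3 := h3 (-1 + 3 * 0) (by norm_num)
    have v4 := h1 (-1 + 3 * 1) (by norm_num)
    generalize (g1 (1 + 3 * 0)).2 = a1 at *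
    generalize (g2 (1 + 3 * 0)).2 = a2 at *
    generalize (g3 (1 + 3 * 0)).2 = a3 at *
    generalize (g1 (-1 + 3 * 0)).2 = b1 at *
    generalize (g2 (-1 + 3 * 0)).2 = b2 at *
    generalize (g3 (-1 + 3 * 0)).2 = b3 at *
    obtain ⟨χ, hχ⟩ : ∃ χ : ℤ, Q = 3 + 9 * χ := ⟨(Q - 3) / 9, by omega⟩
    obtain ⟨r1, hr1⟩ : ∃ r : ℤ, a2 + b3 = 9 * r := ⟨(a2 + b3) / 9, by omega⟩
    obtain ⟨r2, hr2⟩ : ∃ r : ℤ, a3 + b1 = 9 * r := ⟨(a3 + b1) / 9, by omega⟩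
    have hr3 : (27 : ℤ) ∣ a1 + b2 - 9 * (-r1 - r2) := by omega
    have fin : ∀ (g : ℤ → ℤ × ℤ) (a b r : ℤ), (27 : ℤ) ∣ a + b - 9 * r →
        (∀ z, z % 3 ≠ 0 → (g (3 * z)).1 = (m + 1) % 2 ∧
          (27 : ℤ) ∣ 3 * (g (3 * z)).2 - (Q * z - a - b)) →
        ∀ u, u % 3 ≠ 0 → (g (3 * ((1 - 3 * χ) * u + 3 * r))).1 = (m + 1) % 2 ∧
          ((g (3 * ((1 - 3 * χ) * u + 3 * r))).2 - u) % 9 = 0 := by
      intro g a b r hr s u hu
      have e1 : (1 - 3 * χ) * u + 3 * r = u - 3 * (χ * u) + 3 * r := by ring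
      have e2 : Q * ((1 - 3 * χ) * u + 3 * r) =
          3 * u + 9 * r + 27 * (χ * r - χ * χ * u) := by rw [hχ]; ring
      have := s ((1 - 3 * χ) * u + 3 * r) (by rw [e1]; omega)
      rw [e2] at this
      refine ⟨this.1, ?_⟩
      have h2 := this.2
      omega
    have per : ∀ (g : ℤ → ℤ × ℤ) (r : ℤ), (∀ u k, g (u + 3 ^ (n + 1) * k) = g u) →
        ∀ u k, g (3 * ((1 - 3 * χ) * (u + 3 ^ n * k) + 3 * r)) =
          g (3 * ((1 - 3 * χ) * u + 3 * r)) := by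
      intro g r hp u k
      rw [← hp (3 * ((1 - 3 * χ) * u + 3 * r)) ((1 - 3 * χ) * k)]
      congr 1
      ring
    refine ih ((m + 1) % 2) (fun u => g1 (3 * ((1 - 3 * χ) * u + 3 * r1)))
      (fun u => g2 (3 * ((1 - 3 * χ) * u + 3 * r2)))
      (fun u => g3 (3 * ((1 - 3 * χ) * u + 3 * (-r1 - r2)))) (per g1 _ p1) (per g2 _ p2)
      (per g3 _ p3) (fun u v w h => hT _ _ _ (by linear_combination 3 * (1 - 3 * χ) * h))
      (fin g1 a2 b3 r1 (by omega) s1) (fin g2 a3 b1 r2 (by omega) s2) (fin g3 a1 b2 _ hr3 s3)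

end Pool.Agent.H17.Adic3
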