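import Mathlib

namespace Pool.Agent.H17.Alpha

open scoped ENNReal

variable {K : Type} [RCLike K]

/-- basis vectors of the space of summable families -/
noncomputable def e {I : Type} (i : I) : lp (fun _ : I => K) 1 := by
  classical exact lp.single 1 i (1 : K)

lemma norm_e {I : Type} (i : I) : ‖(e i : lp (fun _ : I => K) 1)‖ = 1 := by
  classical
  unfold e
  rw [lp.norm_single (by norm_num)]
  simp

lemma hasSum_e {I : Type} (v : lp (fun _ : I => K) 1) : HasSum (fun i => v i • (e i : lp (fun _ : I => K) 1)) v := by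
  classical
  have h := lp.hasSum_single (E := fun _ : I => K) (p := 1) (by norm_num) v
  convert h using 2 with i
  unfold e
  rw [← lp.single_smul]
  congr
  simp

lemma hasSum_norm' {I : Type} (v : lp (fun _ : I => K) 1) : HasSum (fun i => ‖v i‖) ‖v‖ := by
  have h := lp.hasSum_norm (E := fun _ : I => K) (p := 1) (by norm_num) v
  simpa using h

lemma bound {I F : Type} [NormedAddCommGroup F] [NormedSpace K F]
    (T : lp (fun _ : I => K) 1 →L[K] F) (M : ℝ) (h : ∀ i, ‖T (e i)‖ ≤ M)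
    (v : lp (fun _ : I => K) 1) : ‖T v‖ ≤ M * ‖v‖ := by
  have h1 := (hasSum_e v).mapL T
  have h2 := (hasSum_norm' v).mul_left M
  refine h1.norm_le_of_bounded h2 fun i => ?_
  rw [map_smul, norm_smul, mul_comm]
  exact mul_le_mul_of_nonneg_right (h i) (norm_nonneg _)

lemma ext' {I F : Type} [NormedAddCommGroup F] [NormedSpace K F]
    (T S : lp (fun _ : I => K) 1 →L[K] F) (h : ∀ i, T (e i) = S (e i)) : T = S := by
  ext v
  have := bound (T - S) 0 (fun i => by simp [h i]) v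
  simpa [sub_eq_zero] using this

lemma exists_lift {I F : Type} [NormedAddCommGroup F] [NormedSpace K F] [CompleteSpace F]
    (y : I → F) (M : ℝ) (hM : 0 ≤ M) (h : ∀ i, ‖y i‖ ≤ M) :
    ∃ T : lp (fun _ : I => K) 1 →L[K] F, ∀ i, T (e i) = y i := by
  classical
  refine ⟨(lp.tsumCLM K I F) ∘L lp.mapCLM (E := fun _ : I => K) (F := fun _ : I => F) 1
    (fun i => ContinuousLinearMap.toSpanSingleton K (y i)) hM (fun i => by simpa using h i), fun i => ?_⟩
  simp only [ContinuousLinearMap.comp_apply, lp.tsumCLM_apply, lp.mapCLM_apply_coe,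
    ContinuousLinearMap.toSpanSingleton_apply]
  rw [tsum_eq_single i]
  · unfold e; simp
  · intro j hj
    unfold e
    rw [lp.single_apply_ne _ _ _ hj]; simp

/-- operators on a quotient are bounded by their values at the images of the basis -/
lemma quot_bound {I F : Type} [NormedAddCommGroup F] [NormedSpace K F]
    (N : Submodule K (lp (fun _ : I => K) 1))
    (T : (lp (fun _ : I => K) 1 ⧸ N) →L[K] F) (M : ℝ) (hM : 0 ≤ M)
    (h : ∀ i, ‖T (N.mkQL (e i))‖ ≤ M) : ‖T‖ ≤ M := by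
  refine T.opNorm_le_bound hM fun x => ?_
  refine le_of_forall_pos_le_add fun ε hε => ?_
  obtain ⟨v, rfl, hv⟩ := Submodule.Quotient.norm_mk_lt x (ε := ε / (M + 1)) (by positivity)
  have h1 := bound (T ∘L N.mkQL) M h v
  have h2 : M * (ε / (M + 1)) ≤ ε := by
    rw [mul_div_assoc', div_le_iff₀ (by positivity)]; nlinarith
  have h3 := mul_le_mul_of_nonneg_left hv.le hM
  calc _ = ‖(T ∘L N.mkQL) v‖ := rfl
    _ ≤ _ := by nlinarith

/-- property alpha gives density of norm attaining operators -/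
lemma dense_of_alpha {I X Y : Type} [NormedAddCommGroup X] [NormedSpace K X]
    [NormedAddCommGroup Y] [NormedSpace K Y] (g : I → X) (f : I → X →L[K] K) (i0 : I)
    (hg : ∀ i, ‖g i‖ = 1) (hf : ∀ i, ‖f i‖ ≤ 1) (h1 : ∀ i, f i (g i) = 1)
    (h2 : ∀ i j, j ≠ i → ‖f i (g j)‖ ≤ 1 / 2)
    (hb : ∀ (T : X →L[K] Y) (M : ℝ), 0 ≤ M → (∀ i, ‖T (g i)‖ ≤ M) → ‖T‖ ≤ M) :
    Dense {T : X →L[K] Y | ∃ x, ‖x‖ = 1 ∧ ‖T x‖ = ‖T‖} := by
  intro T
  rw [Metric.mem_closure_iff]
  intro ε hε
  by_cases hT : T = 0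
  · exact ⟨T, ⟨g i0, hg _, by simp [hT]⟩, by simpa using hε⟩
  have hT' : 0 < ‖T‖ := norm_pos_iff.2 hT
  obtain ⟨i, hi⟩ : ∃ i, max 0 (‖T‖ - ε / 4) < ‖T (g i)‖ := by
    by_contra hc
    push Not at hc
    have := hb T _ (le_max_left _ _) hc
    rcases le_max_iff.1 this with h | h <;> linarith
  have hp : 0 < ‖T (g i)‖ := lt_of_le_of_lt (le_max_left _ _) hi
  have hq : ‖T‖ - ε / 4 < ‖T (g i)‖ := lt_of_le_of_lt (le_max_right _ _) hi
  set c : ℝ := ε / 2 / ‖T (g i)‖ with hc
  have hc0 : 0 < c := by positivity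
  have hcn : c * ‖T (g i)‖ = ε / 2 := by rw [hc]; field_simp
  set y : Y := (c : K) • T (g i) with hy
  have hyn : ‖y‖ = ε / 2 := by
    rw [hy, norm_smul, RCLike.norm_ofReal, abs_of_pos hc0, hcn]
  set S : X →L[K] Y := T + (f i).smulRight y with hS
  have hSi : ‖S (g i)‖ = ‖T (g i)‖ + ε / 2 := by
    have : S (g i) = ((1 + c : ℝ) : K) • T (g i) := by
      simp [hS, h1, hy, add_smul]
    rw [this, norm_smul, RCLike.norm_ofReal, abs_of_pos (by positivity), add_mul, hcn, one_mul]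
  have hSj : ∀ j, ‖S (g j)‖ ≤ ‖S (g i)‖ := by
    intro j
    by_cases hj : j = i
    · rw [hj]
    have a1 : ‖T (g j)‖ ≤ ‖T‖ := by simpa [hg] using T.le_opNorm (g j)
    have a2 : ‖f i (g j) • y‖ ≤ 1 / 2 * (ε / 2) := by
      rw [norm_smul, hyn]
      exact mul_le_mul_of_nonneg_right (h2 i j hj) (by positivity)
    have a3 : ‖S (g j)‖ ≤ ‖T (g j)‖ + ‖f i (g j) • y‖ := by
      simpa [hS] using norm_add_le (T (g j)) (f i (g j) • y)
    linarith
  refine ⟨S, ⟨g i, hg i, le_antisymm (by simpa [hg] using S.le_opNorm (g i))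
    (hb S _ (norm_nonneg _) hSj)⟩, ?_⟩
  rw [dist_eq_norm, hS, sub_add_cancel_left, norm_neg, ContinuousLinearMap.norm_smulRight_apply, hyn]
  nlinarith [hf i, norm_nonneg (f i)]

end Pool.Agent.H17.Alpha
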