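import Mathlib
import Pool.Agent.H17.Alpha

namespace Pool.Agent.H17.Alpha

open scoped ENNReal

variable {K : Type} [RCLike K]

/-- Every nonzero Banach space is isometric to a one-complemented subspace of a space from which
norm attaining operators are always dense. -/
lemma exists_alpha (E : Type) [NormedAddCommGroup E] [NormedSpace K E] [CompleteSpace E]
    (x0 : E) (hx0 : ‖x0‖ = 1) :
    ∃ (X : Type) (_ : NormedAddCommGroup X) (_ : NormedSpace K X) (_ : CompleteSpace X)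
      (P : X →L[K] X) (J : X →L[K] E), P ∘L P = P ∧ ‖P‖ ≤ 1 ∧
      (∀ x, ‖J (P x)‖ = ‖P x‖) ∧ (∀ y, ∃ x, J (P x) = y) ∧
      ∀ (Y : Type) [NormedAddCommGroup Y] [NormedSpace K Y],
        Dense {T : X →L[K] Y | ∃ x, ‖x‖ = 1 ∧ ‖T x‖ = ‖T‖} := by
  classical
  set G := {x : E // ‖x‖ = 1}
  set I := G × Bool
  set V := lp (fun _ : I => K) 1
  obtain ⟨J, hJ⟩ := exists_lift (K := K) (fun i : I => (i.1 : E)) 1 zero_le_one (fun i => i.1.2.le)
  have half : ‖(1 / 2 : K)‖ = 1 / 2 := by simp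
  have hn : ∀ a : G, ‖(1 / 2 : K) • ((e (a, true) : V) + e (a, false))‖ ≤ 1 := by
    intro a
    rw [norm_smul, half]
    have := norm_add_le (e (a, true) : V) (e (a, false))
    rw [norm_e, norm_e] at this
    linarith
  obtain ⟨s, hs⟩ := exists_lift (K := K)
    (fun i : I => (1 / 2 : K) • ((e (i.1, true) : V) + e (i.1, false))) 1 zero_le_one
    (fun i => hn i.1)
  have two : (1 / 2 : K) + 1 / 2 = 1 := by norm_num
  have hss : s ∘L s = s := ext' _ _ fun i => by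
    simp only [ContinuousLinearMap.comp_apply, hs, map_smul, map_add]
    rw [smul_add (1 / 2 : K) ((1 / 2 : K) • _), ← add_smul, two, one_smul]
  have hJs : J ∘L s = J := ext' _ _ fun i => by
    simp only [ContinuousLinearMap.comp_apply, hs, map_smul, map_add, hJ]
    rw [smul_add, ← add_smul, two, one_smul]
  have hd : ∀ a : G, ∃ d : V →L[K] K, ∀ i : I,
      d (e i) = if i.1 = a then (if i.2 then 1 else -1) else 0 := fun a =>
    exists_lift (K := K) _ 1 zero_le_one (fun i => by split_ifs <;> simp)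
  choose d hd using hd
  have hds : ∀ a, d a ∘L s = 0 := fun a => ext' _ _ fun i => by
    simp only [ContinuousLinearMap.comp_apply, hs, map_smul, map_add, hd]
    split_ifs <;> simp_all
  set N : Submodule K V := (J.ker) ⊓ ((s - ContinuousLinearMap.id K V).ker) with hN
  have hmem : ∀ v : V, v ∈ N ↔ J v = 0 ∧ s v = v := by
    intro v
    simp [hN, sub_eq_zero]
  have hcl : IsClosed (N : Set V) := by
    rw [hN]
    exact J.isClosed_ker.inter (s - ContinuousLinearMap.id K V).isClosed_ker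
  have hmk : ∀ v : V, N.mkQL v = 0 ↔ v ∈ N := fun v => Submodule.Quotient.mk_eq_zero N
  have hmkn : ∀ v : V, ‖N.mkQL v‖ ≤ ‖v‖ := fun v => Submodule.Quotient.norm_mk_le N v
  have hsurj : ∀ x : V ⧸ N, ∃ v, N.mkQL v = x := fun x => N.mkQ_surjective x
  set P : (V ⧸ N) →L[K] (V ⧸ N) := N.liftQL (N.mkQL ∘L s) (fun v hv => by
    have := (hmem v).1 hv
    show N.mkQL (s v) = 0
    rw [this.2, hmk]; exact hv)
  have hP : ∀ v, P (N.mkQL v) = N.mkQL (s v) := fun v => rfl
  set J' : (V ⧸ N) →L[K] E := N.liftQL J (fun v hv => ((hmem v).1 hv).1)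
  have hJ' : ∀ v, J' (N.mkQL v) = J v := fun v => rfl
  have hD : ∀ a : G, ∃ D : (V ⧸ N) →L[K] K, ∀ v, D (N.mkQL v) = d a v := fun a =>
    ⟨N.liftQL (d a) (fun v hv => by
      have h1 := (hmem v).1 hv
      have h2 := congrArg (fun L : V →L[K] K => L v) (hds a)
      simp only [ContinuousLinearMap.comp_apply, h1.2] at h2
      exact h2), fun v => rfl⟩
  choose D hD using hD
  have hJn : ‖J'‖ ≤ 1 := quot_bound N J' 1 zero_le_one fun i => by
    rw [hJ', hJ]; exact i.1.2.le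
  have hss' : ∀ v, s (s v) = s v := fun v => congrArg (fun L : V →L[K] V => L v) hss
  have hJs' : ∀ v, J (s v) = J v := fun v => congrArg (fun L : V →L[K] E => L v) hJs
  have hsec : ∀ y : E, ∃ w : V, J w = y ∧ s w = w ∧ ‖w‖ ≤ ‖y‖ := by
    intro y
    by_cases hy : y = 0
    · exact ⟨0, by simp [hy]⟩
    have hy' : (‖y‖ : K) ≠ 0 := by simpa using hy
    have hy2 : ‖y‖ ≠ 0 := by simpa using hy
    let a : G := ⟨(‖y‖ : K)⁻¹ • y, by rw [norm_smul]; simp [hy2]⟩
    refine ⟨(‖y‖ : K) • s (e (a, true)), ?_, by rw [map_smul, hss'], ?_⟩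
    · rw [map_smul, hJs', hJ]
      simp only [a]
      rw [smul_smul, mul_inv_cancel₀ hy', one_smul]
    · rw [norm_smul, hs]
      have := hn a
      simp only [RCLike.norm_ofReal, abs_norm]
      nlinarith [norm_nonneg y]
  have hφ : ∀ a : G, ∃ φ : E →L[K] K, ‖φ‖ = 1 ∧ φ a = 1 := fun a => by
    obtain ⟨φ, h1, h2⟩ := exists_dual_vector K (a : E) (by rw [a.2]; simp)
    exact ⟨φ, h1, by rw [h2, a.2]; simp⟩
  choose φ hφ1 hφ2 using hφ
  set f : I → (V ⧸ N) →L[K] K := fun i =>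
    (1 / 2 : K) • (φ i.1 ∘L J') + (if i.2 then (1 / 2 : K) else -(1 / 2)) • D i.1 with hf
  have hfe : ∀ i j : I, f i (N.mkQL (e j)) = 1 / 2 * φ i.1 j.1 +
      (if i.2 then (1 / 2 : K) else -(1 / 2)) *
        (if j.1 = i.1 then (if j.2 then 1 else -1) else 0) := by
    intro i j
    simp only [hf, add_apply, smul_apply,
      ContinuousLinearMap.comp_apply, hJ', hJ, hD, hd, smul_eq_mul]
  have h1 : ∀ i : I, f i (N.mkQL (e i)) = 1 := by
    rintro ⟨a, b⟩
    rw [hfe, hφ2]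
    cases b <;> simp <;> norm_num
  have h2 : ∀ i j : I, j ≠ i → ‖f i (N.mkQL (e j))‖ ≤ 1 / 2 := by
    rintro ⟨a, b⟩ ⟨a', b'⟩ hne
    rw [hfe]
    by_cases ha : a' = a
    · subst ha
      have hb : b' ≠ b := fun h => hne (by rw [h])
      rw [hφ2]
      cases b <;> cases b' <;> simp_all
    · have := (φ a).le_opNorm a'
      rw [hφ1, a'.2] at this
      simp only [ha, if_false, mul_zero, add_zero, norm_mul, half]
      linarith
  have hfn : ∀ i, ‖f i‖ ≤ 1 := fun i => quot_bound N _ 1 zero_le_one fun j => by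
    by_cases hj : j = i
    · rw [hj, h1]; simp
    · linarith [h2 i j hj]
  refine ⟨V ⧸ N, inferInstance, inferInstance, inferInstance, P, J', ?_, ?_, ?_, ?_, ?_⟩
  · ext1 x
    obtain ⟨v, rfl⟩ := hsurj x
    simp only [ContinuousLinearMap.comp_apply, hP, hss']
  · refine quot_bound N P 1 zero_le_one fun i => ?_
    rw [hP, hs]
    exact (hmkn _).trans (hn _)
  · intro x
    obtain ⟨v, rfl⟩ := hsurj x
    refine le_antisymm (by simpa using J'.le_of_opNorm_le hJn _) ?_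
    obtain ⟨w, hw1, hw2, hw3⟩ := hsec (J v)
    have : N.mkQL (s v) = N.mkQL w := by
      rw [← sub_eq_zero, ← map_sub, hmk, hmem]
      simp [hJs', hw1, hss', hw2]
    rw [hP, hJ', hJs', this]
    exact (hmkn _).trans hw3
  · intro y
    obtain ⟨w, hw1, hw2, -⟩ := hsec y
    exact ⟨N.mkQL w, by rw [hP, hJ', hw2, hw1]⟩
  · intro Y _ _
    refine dense_of_alpha (fun i : I => N.mkQL (e i)) f (⟨x0, hx0⟩, true) (fun i => ?_) hfn h1 h2
      (fun T M hM h => quot_bound N T M hM h)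
    refine le_antisymm ((hmkn _).trans (norm_e i).le) ?_
    have := (f i).le_of_opNorm_le (hfn i) (N.mkQL (e i))
    rw [h1] at this
    simpa using this

lemma near {Z Y : Type} [NormedAddCommGroup Z] [NormedSpace K Z]
    [NormedAddCommGroup Y] [NormedSpace K Y] {s : Set (Z →L[K] Y)} (hd : Dense s)
    (T : Z →L[K] Y) : ∃ S ∈ s, ∀ z, ‖T z - S z‖ ≤ 1 / 2 * ‖z‖ := by
  obtain ⟨S, h, hS⟩ := Metric.mem_closure_iff.1 (hd T) (1 / 2) (by norm_num)
  rw [dist_eq_norm] at hS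
  exact ⟨S, h, fun z => (T - S).le_of_opNorm_le hS.le z⟩

/-- If the unit sphere has no extreme point and the space injects into an inner product space,
norm attaining operators into the graph are not dense. -/
lemma not_dense {E H Z : Type} [NormedAddCommGroup E] [NormedSpace K E]
    [NormedAddCommGroup Z] [NormedSpace K Z]
    [NormedAddCommGroup H] [InnerProductSpace K H] (D : E →L[K] H) (hD : Function.Injective D)
    (A : Z →L[K] E) (hA : ∀ z, ‖A z‖ = ‖z‖)
    (hZ : ∀ u : Z, ‖u‖ = 1 → ∃ z, z ≠ 0 ∧ ‖u + z‖ ≤ 1 ∧ ‖u - z‖ ≤ 1)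
    (Y : Submodule K (WithLp 2 (E × H))) (hY : ∀ y, y ∈ Y ↔ y.snd = D y.fst) :
    ¬ Dense {T : Z →L[K] Y | ∃ x, ‖x‖ = 1 ∧ ‖T x‖ = ‖T‖} := by
  intro hd
  let B : Z →L[K] WithLp 2 (E × H) :=
    (WithLp.prodContinuousLinearEquiv 2 K E H).symm.toContinuousLinearMap ∘L (A.prod (D ∘L A))
  let T0 : Z →L[K] Y := B.codRestrict Y (fun z => (hY _).2 rfl)
  have hT0 : ∀ z, ‖z‖ ≤ ‖T0 z‖ := by
    intro z
    rw [← hA z]
    exact WithLp.norm_fst_le (p := 2) E (B z)
  obtain ⟨S, ⟨u, hu, hSu⟩, hS⟩ := near (Y := Y) hd T0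
  obtain ⟨z, hz, h1, h2⟩ := hZ u hu
  have a1 : ‖S u + S z‖ ≤ ‖S u‖ := by
    rw [← map_add, hSu]; exact S.unit_le_opNorm _ h1
  have a2 : ‖S u - S z‖ ≤ ‖S u‖ := by
    rw [← map_sub, hSu]; exact S.unit_le_opNorm _ h2
  have sq : ∀ y : Y, ‖y‖ ^ 2 = ‖y.1.fst‖ ^ 2 + ‖y.1.snd‖ ^ 2 := fun y =>
    WithLp.prod_norm_sq_eq_of_L2 y.1
  have b1 := pow_le_pow_left₀ (norm_nonneg _) a1 2
  have b2 := pow_le_pow_left₀ (norm_nonneg _) a2 2
  rw [sq, sq] at b1 b2
  simp only [Submodule.coe_add, Submodule.coe_sub, WithLp.add_fst, WithLp.add_snd,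
    WithLp.sub_fst, WithLp.sub_snd] at b1 b2
  have c1 := parallelogram_law_with_norm K (S u).1.snd (S z).1.snd
  have c2 : 2 * ‖(S u).1.fst‖ ≤ ‖(S u).1.fst + (S z).1.fst‖ + ‖(S u).1.fst - (S z).1.fst‖ := by
    have := norm_add_le ((S u).1.fst + (S z).1.fst) ((S u).1.fst - (S z).1.fst)
    rwa [add_add_sub_cancel, ← two_smul K, norm_smul, RCLike.norm_two] at this
  have c3 : ‖(S z).1.snd‖ ^ 2 ≤ 0 := by
    nlinarith [sq_nonneg (‖(S u).1.fst + (S z).1.fst‖ - ‖(S u).1.fst - (S z).1.fst‖),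
      norm_nonneg (S u).1.fst, mul_self_le_mul_self (by positivity) c2]
  have c4 : (S z).1.snd = 0 := by
    rw [← norm_eq_zero]; nlinarith [norm_nonneg (S z).1.snd]
  have c5 : (S z).1.fst = 0 := hD (by rw [← (hY _).1 (S z).2, c4, map_zero])
  have c6 : ‖S z‖ = 0 := by
    have := sq (S z)
    rw [c4, c5] at this
    simpa using this
  have c7 : ‖T0 z‖ ≤ 1 / 2 * ‖z‖ := by
    have := hS z
    rwa [norm_eq_zero.1 c6, sub_zero] at this
  have := hT0 z
  have : 0 < ‖z‖ := norm_pos_iff.2 hz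
  linarith

end Pool.Agent.H17.Alpha
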