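import Mathlib

namespace Pool.Agent.H17.Asc1

open Set Filter Topology

noncomputable def ph (u : ℝ) : ℝ := max 0 (min 1 (2 - u))

lemma ph_cont : Continuous ph := by unfold ph; fun_prop
lemma ph_nonneg (u : ℝ) : 0 ≤ ph u := le_max_left _ _
lemma ph_anti {u v : ℝ} (h : u ≤ v) : ph v ≤ ph u :=
  max_le_max le_rfl (min_le_min le_rfl (by linarith))
lemma ph_one {u : ℝ} (h : u ≤ 1) : ph u = 1 := by
  unfold ph; rw [min_eq_left (by linarith), max_eq_right zero_le_one]
lemma ph_zero {u : ℝ} (h : 2 ≤ u) : ph u = 0 := by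
  unfold ph; exact max_eq_left ((min_le_right _ _).trans (by linarith))
lemma ph_ne {u : ℝ} (h : ph u ≠ 0) : u < 2 := by
  by_contra h'; exact h (ph_zero (not_lt.1 h'))

noncomputable def dd (n : ℕ) (t s : ℕ → ℝ) : ℝ := 2 ^ n * ∑ m ∈ Finset.range (n + 1), |t m - s m|

noncomputable def aa (n : ℕ) (t s : ℕ → ℝ) : ℝ := ph (dd n t s)

noncomputable def PP (n : ℕ) (t s : ℕ → ℝ) : ℝ :=
  ∑ m ∈ Finset.range n, (aa m t s - aa (m + 1) t s) * s m + aa n t s * s n

noncomputable def Ph (t s : ℕ → ℝ) : ℝ := limUnder atTop (fun n => PP n t s)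

lemma dd_mono (t s : ℕ → ℝ) : Monotone fun n => dd n t s := by
  refine monotone_nat_of_le_succ fun n => ?_
  unfold dd
  have h0 : 0 ≤ ∑ m ∈ Finset.range (n + 1), |t m - s m| :=
    Finset.sum_nonneg fun _ _ => abs_nonneg _
  rw [Finset.sum_range_succ _ (n + 1), pow_succ]
  have h1 : (0 : ℝ) < 2 ^ n := by positivity
  have h2 := abs_nonneg (t (n + 1) - s (n + 1))
  nlinarith

lemma aa_anti (t s : ℕ → ℝ) {m n : ℕ} (h : m ≤ n) : aa n t s ≤ aa m t s :=
  ph_anti (dd_mono t s h)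

lemma aa_ne {n : ℕ} {t s : ℕ → ℝ} (h : aa n t s ≠ 0) : 2 ^ n * |t n - s n| < 2 := by
  have h1 := ph_ne h
  unfold dd at h1
  have h2 : |t n - s n| ≤ ∑ m ∈ Finset.range (n + 1), |t m - s m| :=
    Finset.single_le_sum (f := fun m => |t m - s m|) (fun _ _ => abs_nonneg _)
      (Finset.mem_range.2 (Nat.lt_succ_self n))
  have h3 : (0 : ℝ) < 2 ^ n := by positivity
  nlinarith

lemma dd_self (n : ℕ) (t : ℕ → ℝ) : dd n t t = 0 := by simp [dd]

lemma aa_self (n : ℕ) (t : ℕ → ℝ) : aa n t t = 1 := ph_one (by rw [dd_self]; exact zero_le_one)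

lemma PP_self (n : ℕ) (t : ℕ → ℝ) : PP n t t = t n := by simp [PP, aa_self]

lemma dd_big {t s : ℕ → ℝ} (h : t ≠ s) : ∃ n, 2 < dd n t s := by
  obtain ⟨k, hk⟩ := Function.ne_iff.1 h
  have hp : 0 < |t k - s k| := abs_pos.2 (sub_ne_zero.2 hk)
  obtain ⟨n, hn⟩ := pow_unbounded_of_one_lt (2 / |t k - s k|) (one_lt_two (α := ℝ))
  refine ⟨max n k, ?_⟩
  unfold dd
  have h2 : |t k - s k| ≤ ∑ m ∈ Finset.range (max n k + 1), |t m - s m| :=
    Finset.single_le_sum (f := fun m => |t m - s m|) (fun _ _ => abs_nonneg _)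
      (Finset.mem_range.2 (Nat.lt_succ_of_le (le_max_right _ _)))
  have h3 : (2 : ℝ) ^ n ≤ 2 ^ max n k := pow_le_pow_right₀ one_le_two (le_max_left _ _)
  rw [div_lt_iff₀ hp] at hn
  have h4 : (0 : ℝ) < 2 ^ n := by positivity
  nlinarith

lemma PP_stab {N : ℕ} {t s : ℕ → ℝ} (h : 2 ≤ dd N t s) {n : ℕ} (hn : N ≤ n) :
    PP n t s = PP N t s := by
  have hz : ∀ m, N ≤ m → aa m t s = 0 := fun m hm => ph_zero (h.trans (dd_mono t s hm))
  induction n, hn using Nat.le_induction with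
  | base => rfl
  | succ n hn ih =>
    rw [← ih]
    unfold PP
    rw [Finset.sum_range_succ, hz n hn, hz (n + 1) (Nat.le_succ_of_le hn)]
    ring

lemma tend_stab {N : ℕ} {t s : ℕ → ℝ} (h : 2 ≤ dd N t s) :
    Tendsto (fun n => PP n t s) atTop (𝓝 (PP N t s)) :=
  tendsto_const_nhds.congr' ((eventually_ge_atTop N).mono fun _ hn => (PP_stab h hn).symm)

lemma Ph_stab {N : ℕ} {t s : ℕ → ℝ} (h : 2 ≤ dd N t s) : Ph t s = PP N t s :=
  (tend_stab h).limUnder_eq

lemma Ph_self {t : ℕ → ℝ} {c : ℝ} (h : Tendsto t atTop (𝓝 c)) : Ph t t = c := by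
  have : Tendsto (fun n => PP n t t) atTop (𝓝 c) := by simpa only [PP_self] using h
  exact this.limUnder_eq

lemma tend_Ph (t : ℕ → ℝ) {s : ℕ → ℝ} {c : ℝ} (h : Tendsto s atTop (𝓝 c)) :
    Tendsto (fun n => PP n t s) atTop (𝓝 (Ph t s)) := by
  by_cases hts : t = s
  · subst hts
    rw [Ph_self h]; simpa only [PP_self] using h
  · obtain ⟨n, hn⟩ := dd_big hts
    rw [Ph_stab hn.le]; exact tend_stab hn.le

lemma est {N : ℕ} {t s : ℕ → ℝ} {c e : ℝ} (he : 0 ≤ e) (h1 : dd N t s ≤ 1)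
    (h2 : ∀ m, N ≤ m → aa m t s ≠ 0 → |s m - c| ≤ e) {n : ℕ} (hn : N ≤ n) :
    |PP n t s - c| ≤ e := by
  have ho : ∀ m, m ≤ N → aa m t s = 1 := fun m hm => ph_one ((dd_mono t s hm).trans h1)
  have key : ∀ m, N ≤ m → ∀ w, 0 ≤ w → w ≤ aa m t s → |w * (s m - c)| ≤ w * e := by
    intro m hm w hw hwa
    by_cases h0 : aa m t s = 0
    · have : w = 0 := le_antisymm (h0 ▸ hwa) hw
      simp [this]
    · rw [abs_mul, abs_of_nonneg hw]
      exact mul_le_mul_of_nonneg_left (h2 m hm h0) hw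
  have A : ∀ n, N ≤ n → |∑ m ∈ Finset.range n, (aa m t s - aa (m + 1) t s) * s m
      - (1 - aa n t s) * c| ≤ (1 - aa n t s) * e := by
    intro n hn
    induction n, hn using Nat.le_induction with
    | base =>
      rw [Finset.sum_eq_zero, ho N le_rfl]
      · simp
      · intro m hm
        have := Finset.mem_range.1 hm
        rw [ho m this.le, ho (m + 1) this]; ring
    | succ n hn ih =>
      rw [Finset.sum_range_succ]
      have h3 := key n hn (aa n t s - aa (n + 1) t s)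
        (sub_nonneg.2 (aa_anti t s (Nat.le_succ n))) (by linarith [ph_nonneg (dd (n + 1) t s), show aa (n + 1) t s = ph (dd (n + 1) t s) from rfl])
      rw [abs_le] at ih h3 ⊢
      constructor <;> nlinarith [ih.1, ih.2, h3.1, h3.2]
  have h4 := A n hn
  have h5 := key n hn (aa n t s) (ph_nonneg _) le_rfl
  unfold PP
  rw [abs_le] at h4 h5 ⊢
  constructor <;> nlinarith [h4.1, h4.2, h5.1, h5.2]

lemma dd_cont (n : ℕ) : Continuous fun p : (ℕ → ℝ) × (ℕ → ℝ) => dd n p.1 p.2 := by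
  unfold dd; fun_prop

lemma PP_cont (n : ℕ) : Continuous fun p : (ℕ → ℝ) × (ℕ → ℝ) => PP n p.1 p.2 := by
  have ha : ∀ n, Continuous fun p : (ℕ → ℝ) × (ℕ → ℝ) => aa n p.1 p.2 :=
    fun n => ph_cont.comp (dd_cont n)
  unfold PP
  refine Continuous.add (continuous_finsetSum _ fun m _ => ((ha m).sub (ha (m + 1))).mul ?_)
    ((ha n).mul ?_) <;> fun_prop

lemma contAt {Y : Type*} [TopologicalSpace Y] (t s : Y → ℕ → ℝ) (ht : Continuous t)
    (hs : Continuous s) (F : Y → ℝ) (hF : ∀ y, Tendsto (s y) atTop (𝓝 (F y))) (y0 : Y)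
    (H : t y0 = s y0 → ∀ e, 0 < e → ∃ N, ∀ᶠ y in 𝓝 y0, ∀ m, N ≤ m → aa m (t y) (s y) ≠ 0 →
      |s y m - F y0| ≤ e) :
    ContinuousAt (fun y => Ph (t y) (s y)) y0 := by
  have hd : ∀ n, Continuous fun y => dd n (t y) (s y) :=
    fun n => (dd_cont n).comp (ht.prodMk hs)
  by_cases h0 : t y0 = s y0
  · have hv : Ph (t y0) (s y0) = F y0 := by rw [h0]; exact Ph_self (hF y0)
    rw [ContinuousAt, hv, Metric.tendsto_nhds]
    intro e he
    obtain ⟨N, hN⟩ := H h0 (e / 2) (half_pos he)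
    have h1 : ∀ᶠ y in 𝓝 y0, dd N (t y) (s y) < 1 :=
      (hd N).continuousAt.eventually_lt continuousAt_const (by rw [h0, dd_self]; exact one_pos)
    filter_upwards [hN, h1] with y hy hy1
    have h2 : |Ph (t y) (s y) - F y0| ≤ e / 2 := by
      refine le_of_tendsto (((tend_Ph (t y) (hF y)).sub_const (F y0)).abs) ?_
      exact (eventually_ge_atTop N).mono fun n hn => est (half_pos he).le hy1.le hy hn
    rw [Real.dist_eq]; linarith
  · obtain ⟨n, hn⟩ := dd_big h0
    have h1 : ∀ᶠ y in 𝓝 y0, 2 < dd n (t y) (s y) :=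
      continuousAt_const.eventually_lt (hd n).continuousAt hn
    have h2 : ContinuousAt (fun y => PP n (t y) (s y)) y0 :=
      ((PP_cont n).comp (ht.prodMk hs)).continuousAt
    exact h2.congr (h1.mono fun y hy => (Ph_stab hy.le).symm)

/-- In an Ascoli space a bounded sequence of continuous functions that converges uniformly on
compact sets has a continuous limit. -/
theorem lemB {X : Type*} [TopologicalSpace X]
    (hA : ∀ 𝒦 : Set C(X, ℝ), IsCompact 𝒦 → Continuous fun p : X × 𝒦 => (p.2 : C(X, ℝ)) p.1)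
    (G : ℕ → C(X, ℝ)) (b : ℝ) (hb : ∀ n x, G n x ∈ Icc (-b) b) (f : X → ℝ)
    (hf : ∀ K, IsCompact K → ContinuousOn f K)
    (hG : ∀ K, IsCompact K → ∀ e, 0 < e → ∃ N, ∀ n, N ≤ n → ∀ x ∈ K, |G n x - f x| ≤ e) :
    Continuous f := by
  set i : X → ℕ → ℝ := fun x n => G n x with hi
  have ic : Continuous i := continuous_pi fun n => (G n).continuous
  have il : ∀ x, Tendsto (i x) atTop (𝓝 (f x)) := by
    intro x
    rw [Metric.tendsto_atTop]
    intro e he
    obtain ⟨N, hN⟩ := hG {x} isCompact_singleton (e / 2) (half_pos he)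
    refine ⟨N, fun n hn => ?_⟩
    have := hN n hn x rfl
    rw [Real.dist_eq]; linarith
  have c1 : ∀ t : ℕ → ℝ, Continuous fun x => Ph t (i x) := by
    intro t
    refine continuous_iff_continuousAt.2 fun x0 => ?_
    refine contAt (fun _ => t) i continuous_const ic f il x0 fun h0 e he => ?_
    obtain ⟨N1, h1⟩ := hG {x0} isCompact_singleton (e / 2) (half_pos he)
    obtain ⟨N2, h2⟩ := pow_unbounded_of_one_lt (4 / e) (one_lt_two (α := ℝ))
    refine ⟨max N1 N2, Eventually.of_forall fun y m hm ha => ?_⟩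
    have h3 := aa_ne ha
    have h4 := h1 m (le_of_max_le_left hm) x0 rfl
    have h5 : (2 : ℝ) ^ N2 ≤ 2 ^ m := pow_le_pow_right₀ one_le_two (le_of_max_le_right hm)
    have h6 : t m = G m x0 := congrFun h0 m
    rw [div_lt_iff₀ he] at h2
    have h7 : |t m - i y m| ≤ e / 2 := by
      by_contra h
      push Not at h
      have : (0 : ℝ) < 2 ^ m := by positivity
      nlinarith
    rw [h6] at h7
    rw [abs_le] at h4 h7 ⊢
    constructor <;> linarith [h4.1, h4.2, h7.1, h7.2]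
  let F : (ℕ → ℝ) → C(X, ℝ) := fun t => ⟨fun x => Ph t (i x), c1 t⟩
  have c2 : ∀ K : Set X, IsCompact K → Continuous fun t => (F t).restrict K := by
    intro K hK
    refine ContinuousMap.continuous_of_continuous_uncurry _ ?_
    refine continuous_iff_continuousAt.2 fun y0 => ?_
    have fK : Continuous fun y : (ℕ → ℝ) × K => f y.2 :=
      (continuousOn_iff_continuous_restrict.1 (hf K hK)).comp continuous_snd
    refine contAt (fun y : (ℕ → ℝ) × K => y.1) (fun y => i y.2) continuous_fst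
      (ic.comp (continuous_subtype_val.comp continuous_snd)) (fun y => f y.2)
      (fun y => il y.2) y0 fun _ e he => ?_
    obtain ⟨N, hN⟩ := hG K hK (e / 2) (half_pos he)
    have h1 := Metric.tendsto_nhds.1 (fK.tendsto y0) (e / 2) (half_pos he)
    refine ⟨N, h1.mono fun y hy m hm _ => ?_⟩
    have h2 := hN m hm y.2 y.2.2
    rw [Real.dist_eq, abs_lt] at hy
    rw [abs_le] at h2 ⊢
    constructor <;> linarith [h2.1, h2.2, hy.1, hy.2]
  have c3 : Continuous F := continuous_iff_continuousAt.2 fun t =>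
    (ContinuousMap.tendsto_compactOpen_iff_forall F (F t)).2 fun K hK => (c2 K hK).tendsto t
  have cT : IsCompact (univ.pi fun _ : ℕ => Icc (-b) b) := isCompact_univ_pi fun _ => isCompact_Icc
  have h := hA _ (cT.image c3)
  have hm : ∀ x, F (i x) ∈ F '' (univ.pi fun _ : ℕ => Icc (-b) b) :=
    fun x => ⟨i x, fun n _ => hb n x, rfl⟩
  have c4 : Continuous fun x => ((x, ⟨F (i x), hm x⟩) :
      X × ↥(F '' (univ.pi fun _ : ℕ => Icc (-b) b))) :=
    continuous_id.prodMk ((c3.comp ic).subtype_mk _)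
  have c5 := h.comp c4
  refine c5.congr fun x => ?_
  exact Ph_self (il x)

end Pool.Agent.H17.Asc1
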