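import Mathlib
import Pool.Agent.H17.Asc1

namespace Pool.Agent.H17.Asc2

open Set Filter Topology

universe u

theorem para (X : Type u) [TopologicalSpace X] [RegularSpace X] [LindelofSpace X] :
    ParacompactSpace X := by
  classical
  refine ⟨fun α s so sc => ?_⟩
  rcases isEmpty_or_nonempty X with hX | hX
  · exact ⟨PEmpty, fun e => e.elim, fun e => e.elim, by
      rw [eq_univ_iff_forall]; intro x; exact (IsEmpty.false x).elim, locallyFinite_of_finite _,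
      fun e => e.elim⟩
  have h1 : ∀ x : X, ∃ a, ∃ U : Set X, IsOpen U ∧ x ∈ U ∧ closure U ⊆ s a := by
    intro x
    have : x ∈ ⋃ a, s a := sc ▸ mem_univ x
    obtain ⟨a, ha⟩ := mem_iUnion.1 this
    obtain ⟨t, ht, htc, hts⟩ := exists_mem_nhds_isClosed_subset ((so a).mem_nhds ha)
    refine ⟨a, interior t, isOpen_interior, mem_interior_iff_mem_nhds.2 ht, ?_⟩
    exact (closure_minimal interior_subset htc).trans hts
  choose a U Uo xU Uc using h1
  obtain ⟨r, rc, hr⟩ := isLindelof_univ.elim_countable_subcover U Uo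
    (fun x _ => mem_iUnion.2 ⟨x, xU x⟩)
  have rne : r.Nonempty := by
    obtain ⟨x⟩ := hX
    obtain ⟨y, hy, -⟩ := mem_iUnion₂.1 (hr (mem_univ x))
    exact ⟨y, hy⟩
  obtain ⟨p, hp⟩ := rc.exists_eq_range rne
  have hc : ∀ x, ∃ n, x ∈ U (p n) := by
    intro x
    obtain ⟨y, hy, hx⟩ := mem_iUnion₂.1 (hr (mem_univ x))
    rw [hp] at hy
    obtain ⟨n, rfl⟩ := hy
    exact ⟨n, hx⟩
  refine ⟨ULift ℕ, fun n => s (a (p n.down)) \ ⋃ m ∈ Finset.range n.down, closure (U (p m)),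
    fun n => (so _).sdiff (isClosed_biUnion_finset fun _ _ => isClosed_closure), ?_, ?_,
    fun n => ⟨_, diff_subset⟩⟩
  · rw [eq_univ_iff_forall]
    intro x
    have hx : ∃ n, x ∈ closure (U (p n)) := (hc x).imp fun n hn => subset_closure hn
    refine mem_iUnion.2 ⟨⟨Nat.find hx⟩, Uc _ (Nat.find_spec hx), fun h => ?_⟩
    obtain ⟨m, hm, hxm⟩ := mem_iUnion₂.1 h
    exact Nat.find_min hx (Finset.mem_range.1 hm) hxm
  · intro x
    obtain ⟨n, hn⟩ := hc x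
    refine ⟨U (p n), (Uo _).mem_nhds hn, ((finite_Iic n).image ULift.up).subset ?_⟩
    rintro ⟨m⟩ ⟨y, hy, hyU⟩
    refine ⟨m, ?_, rfl⟩
    by_contra h
    exact hy.2 (mem_iUnion₂.2 ⟨n, Finset.mem_range.2 (not_le.1 h), subset_closure hyU⟩)

variable {X : Type u} [TopologicalSpace X]

/-- Michael's argument. -/
theorem michael [T2Space X] (N : ℕ → Set X)
    (hN : ∀ K U : Set X, IsCompact K → IsOpen U → K ⊆ U → ∃ j, K ⊆ N j ∧ N j ⊆ U)
    (h : X → ℝ) (hh : ∀ K, IsCompact K → ContinuousOn h K) (K : Set X) (hK : IsCompact K)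
    (e : ℝ) (h0 : ∀ x ∈ K, h x < e) :
    ∃ s : Finset ℕ, K ⊆ ⋂ j ∈ s, N j ∧ ∀ x ∈ ⋂ j ∈ s, N j, h x < e := by
  classical
  by_contra hc
  push Not at hc
  have h1 : ∀ n, ∃ x ∈ ⋂ j ∈ (Finset.range (n + 1)).filter fun j => K ⊆ N j, N j, e ≤ h x :=
    fun n => hc _ (subset_iInter₂ fun j hj => (Finset.mem_filter.1 hj).2)
  choose x hx hxe using h1
  have h2 : ∀ U, IsOpen U → K ⊆ U → ∃ j, ∀ n, j ≤ n → x n ∈ U := by
    intro U Uo KU
    obtain ⟨j, j1, j2⟩ := hN K U hK Uo KU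
    exact ⟨j, fun n hn => j2 (mem_iInter₂.1 (hx n) j
      (Finset.mem_filter.2 ⟨Finset.mem_range.2 (Nat.lt_succ_of_le hn), j1⟩))⟩
  have hL : IsCompact (K ∪ range x) := by
    refine isCompact_of_finite_subcover fun {ι} U Uo hU => ?_
    obtain ⟨t, ht⟩ := hK.elim_finite_subcover U Uo (subset_union_left.trans hU)
    obtain ⟨j, hj⟩ := h2 _ (isOpen_biUnion fun i _ => Uo i) ht
    obtain ⟨t', ht'⟩ := ((finite_Iio j).image x).isCompact.elim_finite_subcover U Uo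
      (((image_subset_range _ _).trans subset_union_right).trans hU)
    refine ⟨t ∪ t', ?_⟩
    rw [Finset.set_biUnion_union]
    rintro y (hy | ⟨n, rfl⟩)
    · exact Or.inl (ht hy)
    · rcases le_or_gt j n with hn | hn
      · exact Or.inl (hj n hn)
      · exact Or.inr (ht' ⟨n, hn, rfl⟩)
  have hC : IsClosed ((K ∪ range x) ∩ h ⁻¹' Ici e) :=
    (hh _ hL).preimage_isClosed_of_isClosed hL.isClosed isClosed_Ici
  obtain ⟨j, hj⟩ := h2 _ hC.isOpen_compl fun y hy hy' => absurd (h0 y hy) (not_lt.2 hy'.2)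
  exact hj j le_rfl ⟨Or.inr ⟨j, rfl⟩, hxe j⟩

theorem approx [T2Space X] [NormalSpace X] [ParacompactSpace X] (N : ℕ → Set X)
    (Nc : ∀ j, IsClosed (N j))
    (hN : ∀ K U : Set X, IsCompact K → IsOpen U → K ⊆ U → ∃ j, K ⊆ N j ∧ N j ⊆ U)
    (f : X → ℝ) (hf : ∀ K, IsCompact K → ContinuousOn f K) (b : ℝ) (hb : ∀ x, f x ∈ Icc (-b) b) :
    ∃ G : ℕ → C(X, ℝ), (∀ n x, G n x ∈ Icc (-b) b) ∧
      ∀ K, IsCompact K → ∀ e, 0 < e → ∃ N, ∀ n, N ≤ n → ∀ x ∈ K, |G n x - f x| ≤ e := by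
  classical
  obtain ⟨en, hen⟩ := exists_surjective_nat (Finset ℕ × ℕ)
  let M : ℕ → Set X := fun j => ⋂ i ∈ (en j).1, N i
  have Mc : ∀ j, IsClosed (M j) := fun j => isClosed_biInter fun i _ => Nc i
  let r : ℕ → ℝ := fun j => 1 / (((en j).2 : ℝ) + 1)
  have r0 : ∀ j, 0 < r j := fun j => Nat.one_div_pos_of_nat
  let good : ℕ → Prop := fun j => ∃ g : C(X, ℝ), ∀ x ∈ M j, |f x - g x| < r j
  have h1 : ∀ n, ∃ G : C(X, ℝ), ∀ x, G x ∈ Icc (-b) b ∩
      ⋂ j ∈ {j | j ≤ n ∧ good j ∧ x ∈ M j}, Icc (f x - 3 * r j) (f x + 3 * r j) := by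
    intro n
    refine exists_continuous_forall_mem_convex_of_local_const
      (fun x => (convex_Icc _ _).inter (convex_iInter₂ fun _ _ => convex_Icc _ _)) fun x => ?_
    refine ⟨f x, ?_⟩
    have h2 : ∀ j ∈ Iic n, ∀ᶠ y in 𝓝 x, good j → y ∈ M j →
        f x ∈ Icc (f y - 3 * r j) (f y + 3 * r j) := by
      intro j _
      by_cases hx : x ∈ M j
      · by_cases hg : good j
        · obtain ⟨g, hg⟩ := hg
          filter_upwards [Metric.tendsto_nhds.1 (g.continuous.tendsto x) (r j) (r0 j)]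
            with y hy _ hyM
          have a1 := hg x hx
          have a2 := hg y hyM
          rw [Real.dist_eq] at hy
          rw [abs_lt] at a1 a2 hy
          constructor <;> linarith [a1.1, a1.2, a2.1, a2.2, hy.1, hy.2]
        · exact Eventually.of_forall fun y h => absurd h hg
      · filter_upwards [(Mc j).isOpen_compl.mem_nhds hx] with y hy _ h using absurd h hy
    filter_upwards [(eventually_all_finite (finite_Iic n)).2 h2] with y hy
    exact ⟨hb x, mem_iInter₂.2 fun j hj => hy j hj.1 hj.2.1 hj.2.2⟩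
  choose G hG using h1
  refine ⟨G, fun n x => (hG n x).1, fun K hK e he => ?_⟩
  obtain ⟨k, hk⟩ := exists_nat_one_div_lt (show 0 < e / 3 by linarith)
  obtain ⟨g, hg⟩ := ContinuousMap.exists_restrict_eq hK.isClosed
    (⟨K.domRestrict f, continuousOn_iff_continuous_domRestrict.1 (hf K hK)⟩ : C(K, ℝ))
  obtain ⟨s, s1, s2⟩ := michael N hN (fun x => |f x - g x|)
    (fun L hL => ((hf L hL).sub g.continuous.continuousOn).abs) K hK (1 / ((k : ℝ) + 1)) (by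
      intro x hx
      have : g x = f x := congrArg (fun u : C(K, ℝ) => u ⟨x, hx⟩) hg
      rw [this, sub_self, abs_zero]; exact Nat.one_div_pos_of_nat)
  obtain ⟨j, hj⟩ := hen (s, k)
  have e1 : M j = ⋂ i ∈ s, N i := by simp only [M, hj]
  have e2 : r j = 1 / ((k : ℝ) + 1) := by simp only [r, hj]
  refine ⟨j, fun n hn x hx => ?_⟩
  have h3 := mem_iInter₂.1 (hG n x).2 j ⟨hn, ⟨g, by rw [e1, e2]; exact s2⟩, e1 ▸ s1 hx⟩
  rw [e2] at h3
  rw [abs_le]
  constructor <;> linarith [h3.1, h3.2]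

theorem main [T3Space X] (𝒩 : Set (Set X)) (hc : 𝒩.Countable)
    (h𝒩 : ∀ K U : Set X, IsCompact K → IsOpen U → K ⊆ U →
      ∃ ℱ : Set (Set X), ℱ.Finite ∧ ℱ ⊆ 𝒩 ∧ K ⊆ ⋃₀ ℱ ∧ ⋃₀ ℱ ⊆ U)
    (hA : ∀ 𝒦 : Set C(X, ℝ), IsCompact 𝒦 → Continuous fun p : X × 𝒦 => (p.2 : C(X, ℝ)) p.1)
    (f : X → ℝ) (hf : ∀ K, IsCompact K → ContinuousOn f K) : Continuous f := by
  have hL : LindelofSpace X := by
    refine ⟨isLindelof_of_countable_subcover fun {ι} U Uo hU => ?_⟩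
    have h1 : ∀ S : {S // S ∈ 𝒩 ∧ ∃ i, S ⊆ U i}, ∃ i, S.1 ⊆ U i := fun S => S.2.2
    choose c hcS using h1
    have : Countable {S // S ∈ 𝒩 ∧ ∃ i, S ⊆ U i} :=
      (hc.mono (fun S hS => hS.1) : {S | S ∈ 𝒩 ∧ ∃ i, S ⊆ U i}.Countable).to_subtype
    refine ⟨range c, countable_range c, fun x _ => ?_⟩
    obtain ⟨i, hi⟩ := mem_iUnion.1 (hU (mem_univ x))
    obtain ⟨ℱ, -, F2, F3, F4⟩ := h𝒩 {x} (U i) isCompact_singleton (Uo i)
      (singleton_subset_iff.2 hi)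
    obtain ⟨S, hS, hxS⟩ := F3 rfl
    exact mem_iUnion₂.2 ⟨c ⟨S, F2 hS, i, (subset_sUnion_of_mem hS).trans F4⟩, ⟨_, rfl⟩,
      hcS ⟨S, F2 hS, i, (subset_sUnion_of_mem hS).trans F4⟩ hxS⟩
  have hP := para X
  obtain ⟨P, hPr⟩ := (countable_ofPred_finite_subset hc).exists_eq_range
    ⟨∅, finite_empty, empty_subset _⟩
  have hN : ∀ K U : Set X, IsCompact K → IsOpen U → K ⊆ U →
      ∃ j, K ⊆ closure (⋃₀ P j) ∧ closure (⋃₀ P j) ⊆ U := by
    intro K U hK hU hKU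
    obtain ⟨V, Vo, KV, VU⟩ := normal_exists_closure_subset hK.isClosed hU hKU
    obtain ⟨ℱ, F1, F2, F3, F4⟩ := h𝒩 K V hK Vo KV
    have : ℱ ∈ range P := hPr ▸ ⟨F1, F2⟩
    obtain ⟨j, rfl⟩ := this
    exact ⟨j, F3.trans subset_closure, (closure_mono F4).trans VU⟩
  have hf' : ∀ K, IsCompact K → ContinuousOn (fun x => Real.arctan (f x)) K :=
    fun K hK => Real.continuous_arctan.comp_continuousOn (hf K hK)
  obtain ⟨G, G1, G2⟩ := approx _ (fun _ => isClosed_closure) hN _ hf' (Real.pi / 2)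
    fun x => ⟨(Real.neg_pi_div_two_lt_arctan _).le, (Real.arctan_lt_pi_div_two _).le⟩
  have h2 := Asc1.lemB hA G _ G1 _ hf' G2
  have h3 := Real.continuousOn_tan_Ioo.comp_continuous h2
    fun x => ⟨Real.neg_pi_div_two_lt_arctan _, Real.arctan_lt_pi_div_two _⟩
  exact h3.congr fun x => Real.tan_arctan _

end Pool.Agent.H17.Asc2
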