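import Pool.Agent.H17.BADefs

namespace Pool.Agent.H17.BA

open Set Cardinal TopologicalSpace Heyting

lemma mhom_of_finite (m : Cardinal) {A B : Type} [BooleanAlgebra A] [BooleanAlgebra B] [Finite A]
    (h : BoundedLatticeHom A B) : MHom m h := by
  intro S _ a
  obtain ⟨s, rfl⟩ := S.toFinite.exists_finset_coe
  constructor
  · intro ha
    rw [ha.unique Finset.isLUB_sup_id, map_finset_sup]
    exact Finset.isLUB_sup
  · intro ha
    rw [ha.unique Finset.isGLB_inf_id, map_finset_inf]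
    exact Finset.isGLB_inf

lemma mgen_of_dense {m : Cardinal} {B : Type} [BooleanAlgebra B] (hm : #B ≤ m) {G : Set B}
    (hd : ∀ b ≠ (⊥ : B), ∃ S ⊆ G, ∃ c ≠ ⊥, IsGLB S c ∧ c ≤ b) : MGen m G := by
  intro C hG hC
  refine top_le_iff.1 fun b _ => hC {c | c ∈ C ∧ c ≤ b} (fun c h => h.1) ((mk_set_le _).trans hm) b
    (.inl ⟨fun c h => h.2, fun u hu => ?_⟩)
  by_contra h
  obtain ⟨S, hS, c, h0, h1, h2⟩ := hd (b \ u) (fun e => h (sdiff_eq_bot_iff.1 e))
  have := hu ⟨hC S (hS.trans hG) ((mk_set_le _).trans hm) c (.inr h1), h2.trans sdiff_le⟩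
  exact h0 (le_bot_iff.1 ((le_inf this h2).trans (by simp)))

lemma malg_set (m : Cardinal) (X : Type) : MAlg m (Set X) :=
  fun S _ => ⟨⟨_, isLUB_sSup S⟩, _, isGLB_sInf S⟩

section top
variable (X : Type) [TopologicalSpace X]

lemma malg_reg (m : Cardinal) : MAlg m (Regular (Opens X)) := fun _ _ =>
  ⟨⟨_, Regular.gi.isLUB_of_u_image (isLUB_sSup _)⟩, _, Regular.gi.isGLB_of_u_image (isGLB_sInf _)⟩

variable {X}
lemma reg (U : Clopens X) : Heyting.IsRegular (⟨U, U.isClopen.isOpen⟩ : Opens X) := by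
  have h : IsCompl (⟨U, U.isClopen.isOpen⟩ : Opens X) ⟨Uᶜ, U.isClopen.compl.isOpen⟩ :=
    ⟨disjoint_iff.2 (Opens.ext (by simp)), codisjoint_iff.2 (Opens.ext (by simp))⟩
  rw [Heyting.IsRegular, h.compl_eq, h.symm.compl_eq]

/-- Clopen sets as regular open sets. -/
def cr : BoundedLatticeHom (Clopens X) (Regular (Opens X)) where
  toFun U := ⟨_, reg U⟩
  map_sup' U V := Regular.coe_injective ((reg (U ⊔ V)).eq.symm)
  map_inf' _ _ := rfl
  map_top' := rfl
  map_bot' := rfl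

lemma card_reg : #(Regular (Opens X)) ≤ #(Set X) :=
  mk_le_of_injective (f := fun U => ((U : Opens X) : Set X))
    (SetLike.coe_injective.comp Regular.coe_injective)

lemma reg_ne_bot {U : Regular (Opens X)} : U ≠ ⊥ ↔ ((U : Opens X) : Set X).Nonempty := by
  rw [nonempty_iff_ne_empty]
  exact not_congr ⟨fun h => by rw [h]; rfl, fun h => Regular.coe_injective (Opens.ext h)⟩

end top

variable {T : Type}

/-- Cylinders as sets. -/
def cyl (t : T) : BoundedLatticeHom (Set Bool) (Set (T → Bool)) where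
  toFun a := {x | x t ∈ a}
  map_sup' _ _ := rfl
  map_inf' _ _ := rfl
  map_top' := rfl
  map_bot' := rfl

lemma box_nonempty (T' : Set T) (a : T → Set Bool) (h : ∀ t ∈ T', a t ≠ ⊥) :
    ∃ x : T → Bool, ∀ t ∈ T', x t ∈ a t := by
  choose! x hx using fun t ht => nonempty_iff_ne_empty.2 (h t ht)
  exact ⟨x, hx⟩

lemma cyl_inj (t : T) : Function.Injective (cyl t) := fun _ _ h =>
  Set.ext fun v => Set.ext_iff.1 h fun _ => v

lemma cyl_indep (small : Set T → Prop) : Indep small (cyl (T := T)) := fun T' _ a h => by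
  obtain ⟨x, hx⟩ := box_nonempty T' a h
  exact ⟨_, nonempty_iff_ne_empty.1 ⟨x, mem_sInter.2 (forall_mem_image.2 hx)⟩, isGLB_sInf _⟩

lemma cyl_glb (x : T → Bool) : IsGLB (range fun t => cyl t {x t}) {x} :=
  ⟨forall_mem_range.2 fun _ => singleton_subset_iff.2 rfl, fun _ hu _ hy =>
    funext fun t => hu (mem_range_self t) hy⟩

lemma cyl_prod {m : Cardinal} (hm : #(Set (T → Bool)) ≤ m) : Prod0 m (cyl (T := T)) :=
  ⟨malg_set _ _, fun t => ⟨mhom_of_finite _ _, cyl_inj t⟩, cyl_indep _, mgen_of_dense hm fun b hb => by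
    obtain ⟨x, hx⟩ := nonempty_iff_ne_empty.2 hb
    exact ⟨_, range_subset_iff.2 fun t => mem_iUnion.2 ⟨t, _, rfl⟩, {x}, singleton_ne_empty x,
      cyl_glb x, singleton_subset_iff.2 hx⟩⟩

variable {small : Set T → Prop} (h1 : ∀ s t, small s → small (insert t s))
  (h2 : ∀ s, small s → s ≠ Set.univ)

include h1 h2 in
lemma atomless {M : Type} [BooleanAlgebra M] {j : T → BoundedLatticeHom (Set Bool) M}
    (hi : Indep (A := fun _ => Set Bool) small j) (hd : DenseMeets (A := fun _ => Set Bool) small j)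
    (x : T → Bool) (b : M) (hb : ∀ t, b ≤ j t {x t}) : b = ⊥ := by
  classical
  by_contra h
  obtain ⟨T', hs, a, c, h0, hc, hcb⟩ := hd b h
  obtain ⟨t, ht⟩ := (ne_univ_iff_exists_notMem _).1 (h2 _ hs)
  obtain ⟨d, hd0, hd⟩ := hi _ (h1 _ t hs) (Function.update a t {x t}ᶜ) (by
    rintro u (rfl | hu)
    · rw [Function.update_self]
      exact nonempty_iff_ne_empty.1 ⟨!x u, by simp⟩
    · rw [Function.update_of_ne (ne_of_mem_of_not_mem hu ht)]
      exact fun e => h0 (le_bot_iff.1 ((hc.1 (mem_image_of_mem _ hu)).trans (by simp only [e, map_bot, le_refl]))))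
  have e1 : d ≤ c := hc.2 (forall_mem_image.2 fun u hu => by
    have := hd.1 (mem_image_of_mem _ (mem_insert_of_mem t hu))
    simpa [Function.update_of_ne (ne_of_mem_of_not_mem hu ht)] using this)
  have e2 := hd.1 (mem_image_of_mem _ (mem_insert t T'))
  simp only [Function.update_self, map_compl'] at e2
  exact hd0 (le_bot_iff.1 ((le_inf (e1.trans (hcb.trans (hb t))) e2).trans (by simp)))

lemma nontriv {M : Type} [BooleanAlgebra M] {j : T → BoundedLatticeHom (Set Bool) M}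
    (hi : Indep (A := fun _ => Set Bool) Set.Finite j) : (⊤ : M) ≠ ⊥ := by
  obtain ⟨b, hb, -⟩ := hi ∅ finite_empty (fun _ => ⊤) (by simp)
  exact fun h => hb (le_bot_iff.1 (h ▸ le_top))

lemma no_hom {m : Cardinal} {X M : Type} [BooleanAlgebra M] (hm : #(Set X) ≤ m) (h0 : (⊤ : M) ≠ ⊥)
    (h : BoundedLatticeHom (Set X) M) (hh : MHom m h) (hx : ∀ x, h {x} = ⊥) : False := by
  have := (hh (range singleton) ((mk_set_le _).trans hm) ⊤).1
    ⟨fun _ _ => le_top, fun u hu x _ => hu (mem_range_self x) rfl⟩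
  rw [map_top] at this
  exact h0 (le_bot_iff.1 (this.2 (by rintro _ ⟨_, ⟨x, rfl⟩, rfl⟩; exact (hx x).le)))

lemma exists_min {m : Cardinal} (hm : #(Set (T → Bool)) ≤ m) (h0 : small ∅)
    (hs : ∀ t, small {t}) (hU : ∀ s t, small s → small t → small (s ∪ t))
    (hf : ∀ s : Set T, s.Finite → small s) :
    ∃ (M : Type) (_ : BooleanAlgebra M) (j : T → BoundedLatticeHom (Set Bool) M),
      Prod0 (A := fun _ => Set Bool) m j ∧ Indep (A := fun _ => Set Bool) small j ∧
        DenseMeets (A := fun _ => Set Bool) small j := by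
  let τ : TopologicalSpace (T → Bool) :=
    { IsOpen U := ∀ x ∈ U, ∃ s, small s ∧ ∀ y, (∀ t ∈ s, y t = x t) → y ∈ U
      isOpen_univ _ _ := ⟨∅, h0, fun _ _ => trivial⟩
      isOpen_inter U V hU' hV x hx := by
        obtain ⟨s, a, b⟩ := hU' x hx.1
        obtain ⟨t, c, d⟩ := hV x hx.2
        exact ⟨s ∪ t, hU _ _ a c, fun y hy => ⟨b y fun u h => hy u (.inl h), d y fun u h => hy u (.inr h)⟩⟩
      isOpen_sUnion S hS x := by
        rintro ⟨U, hU, hx⟩
        obtain ⟨s, a, b⟩ := hS U hU x hx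
        exact ⟨s, a, fun y hy => ⟨U, hU, b y hy⟩⟩ }
  have box : ∀ s, small s → ∀ a : T → Set Bool, @IsClopen _ τ {x | ∀ t ∈ s, x t ∈ a t} := fun s h a =>
    ⟨⟨fun x hx => ⟨s, h, fun y hy e => hx fun t ht => hy t ht ▸ e t ht⟩⟩,
      fun x hx => ⟨s, h, fun y hy t ht => (hy t ht).symm ▸ hx t ht⟩⟩
  have cl : ∀ t (a : Set Bool), @IsClopen _ τ {x | x t ∈ a} := fun t a => by
    simpa using box {t} (hs t) fun _ => a
  let c : T → BoundedLatticeHom (Set Bool) (@Clopens _ τ) := fun t =>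
    { toFun a := ⟨_, cl t a⟩
      map_sup' _ _ := rfl
      map_inf' _ _ := rfl
      map_top' := rfl
      map_bot' := rfl }
  let j := fun t => (@cr _ τ).comp (c t)
  have glb : ∀ s (h : small s) (a : T → Set Bool),
      IsGLB ((fun t => j t (a t)) '' s) (@cr _ τ ⟨_, box s h a⟩) := fun s h a =>
    ⟨forall_mem_image.2 fun t ht x hx => hx t ht, fun u hu x hx t ht => hu (mem_image_of_mem _ ht) hx⟩
  have ind : Indep (A := fun _ => Set Bool) small j := fun s h a ha =>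
    ⟨@cr _ τ ⟨_, box s h a⟩, reg_ne_bot.2 (box_nonempty s a ha), glb s h a⟩
  have den : DenseMeets (A := fun _ => Set Bool) small j := fun b hb => by
    obtain ⟨x, hx⟩ := reg_ne_bot.1 hb
    obtain ⟨s, h, h'⟩ := (b : @Opens _ τ).isOpen x hx
    exact ⟨s, h, fun t => {x t}, @cr _ τ ⟨_, box s h fun t => {x t}⟩, reg_ne_bot.2 ⟨x, fun _ _ => rfl⟩,
      glb s h _, fun y hy => h' y hy⟩
  refine ⟨_, inferInstance, j, ⟨@malg_reg _ τ m, fun t => ⟨mhom_of_finite _ _, fun a b h =>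
    cyl_inj t (congrArg (fun U : Regular (@Opens _ τ) => ((U : @Opens _ τ) : Set (T → Bool))) h)⟩,
    fun s h => ind s (hf s h), mgen_of_dense ((@card_reg _ τ).trans hm) fun b hb => ?_⟩, ind, den⟩
  obtain ⟨s, -, a, c, h1, h2, h3⟩ := den b hb
  exact ⟨(fun t => j t (a t)) '' s, image_subset_iff.2 fun t _ => mem_iUnion.2 ⟨t, _, rfl⟩, c, h1, h2, h3⟩

end Pool.Agent.H17.BA
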