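import Mathlib

namespace Pool.Agent.H17.BA

open Set Cardinal

/-- Boolean `m`-algebras. -/
def MAlg (m : Cardinal) (B : Type) [BooleanAlgebra B] : Prop :=
  ∀ S : Set B, #S ≤ m → (∃ a, IsLUB S a) ∧ ∃ a, IsGLB S a

/-- `m`-homomorphisms. -/
def MHom (m : Cardinal) {A B : Type} [BooleanAlgebra A] [BooleanAlgebra B]
    (h : BoundedLatticeHom A B) : Prop :=
  ∀ S : Set A, #S ≤ m → ∀ a, (IsLUB S a → IsLUB (h '' S) (h a)) ∧ (IsGLB S a → IsGLB (h '' S) (h a))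

/-- `G` generates `B` as an `m`-algebra. -/
def MGen (m : Cardinal) {B : Type} [BooleanAlgebra B] (G : Set B) : Prop :=
  ∀ C : BooleanSubalgebra B, G ⊆ C →
    (∀ S : Set B, S ⊆ C → #S ≤ m → ∀ a, IsLUB S a ∨ IsGLB S a → a ∈ C) → C = ⊤

variable {T : Type} {A : T → Type} [∀ t, BooleanAlgebra (A t)] {B : Type} [BooleanAlgebra B]

/-- Independence for the index sets satisfying `small`. -/
def Indep (small : Set T → Prop) (i : ∀ t, BoundedLatticeHom (A t) B) : Prop :=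
  ∀ T' : Set T, small T' → ∀ a : ∀ t, A t, (∀ t ∈ T', a t ≠ ⊥) →
    ∃ b ≠ ⊥, IsGLB ((fun t => i t (a t)) '' T') b

/-- Boolean `(m,0)`-products. -/
def Prod0 (m : Cardinal) (i : ∀ t, BoundedLatticeHom (A t) B) : Prop :=
  MAlg m B ∧ (∀ t, MHom m (i t) ∧ Function.Injective (i t)) ∧ Indep Set.Finite i ∧
    MGen m (⋃ t, range (i t))

/-- The meets over index sets satisfying `small` are dense. -/
def DenseMeets (small : Set T → Prop) (i : ∀ t, BoundedLatticeHom (A t) B) : Prop :=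
  ∀ b ≠ (⊥ : B), ∃ T' : Set T, small T' ∧ ∃ a : ∀ t, A t, ∃ c ≠ ⊥,
    IsGLB ((fun t => i t (a t)) '' T') c ∧ c ≤ b

end Pool.Agent.H17.BA
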