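import Mathlib

set_option autoImplicit false
open Set Topology Filter Cardinal OnePoint

namespace Pool.Agent.H17.Beth

def T : ℕ → Type
  | 0 => ℝ
  | n + 1 => Set (Ultrafilter (T n))

abbrev J : Type := Σ n, T n
abbrev L : Type := Σ n, Ultrafilter (T n)

instance : WeaklyLocallyCompactSpace L := ⟨fun x =>
  ⟨range (Sigma.mk x.1), isCompact_range continuous_sigmaMk,
    isOpen_range_sigmaMk.mem_nhds ⟨x.2, rfl⟩⟩⟩

abbrev K : Type := OnePoint L

theorem unc : ℵ₀ < #J := by
  have : #ℝ ≤ #J := mk_le_of_injective (f := fun x : T 0 => (⟨0, x⟩ : J)) sigma_mk_injective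
  rw [mk_real] at this
  exact aleph0_lt_continuum.trans_le this

theorem small (n : ℕ) : #(Ultrafilter (T n)) < #J := by
  have : #(Set (Ultrafilter (T n))) ≤ #J :=
    mk_le_of_injective (f := fun x : T (n + 1) => (⟨n + 1, x⟩ : J)) sigma_mk_injective
  rw [mk_set] at this
  exact (cantor _).trans_le this

theorem small' (N : ℕ) : #{x : K | ∀ y : L, x = y → y.1 < N} < #J := by
  induction N with
  | zero =>
    refine lt_of_le_of_lt (mk_le_mk_of_subset (t := {∞}) fun x hx => ?_) ?_
    · induction x using OnePoint.rec with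
      | infty => rfl
      | coe y => exact absurd (hx y rfl) (Nat.not_lt_zero _)
    · rw [mk_singleton]; exact one_lt_aleph0.trans unc
  | succ N ih =>
    refine lt_of_le_of_lt (mk_le_mk_of_subset (t := {x : K | ∀ y : L, x = y → y.1 < N} ∪
      range fun u : Ultrafilter (T N) => ((⟨N, u⟩ : L) : K)) fun x hx => ?_) ?_
    · by_cases h : ∀ y : L, x = y → y.1 < N
      · exact Or.inl h
      · push Not at h
        obtain ⟨⟨n, u⟩, rfl, hy⟩ := h
        obtain rfl : n = N := le_antisymm (Nat.lt_succ_iff.1 (hx _ rfl)) hy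
        exact Or.inr ⟨u, rfl⟩
    · exact (mk_union_le _ _).trans_lt (add_lt_of_lt unc.le ih (mk_range_le.trans_lt (small N)))

theorem onto : ∃ φ : {f : K → ℝ // Continuous f} → (J → unitInterval),
    Continuous φ ∧ Function.Surjective φ := by
  refine ⟨fun f j => projIcc 0 1 zero_le_one ((j.1 + 1) * (f.1 ((⟨j.1, pure j.2⟩ : L) : K))),
    continuous_pi fun j => continuous_projIcc.comp (continuous_const.mul
      ((continuous_apply _).comp continuous_subtype_val)), fun τ => ?_⟩
  let g : L → unitInterval := fun y => Ultrafilter.extend (fun a => τ ⟨y.1, a⟩) y.2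
  have hg : Continuous g := continuous_sigma fun n =>
    continuous_ultrafilter_extend fun a => τ ⟨n, a⟩
  have hl : Continuous (Sigma.fst : L → ℕ) := continuous_sigma fun n => continuous_const (y := n)
  let f : K → ℝ := fun x => OnePoint.elim x 0 (fun y => (g y : ℝ) / ((y.1 : ℝ) + 1))
  have hf : Continuous f := by
    refine (OnePoint.continuous_iff f).2 ⟨?_, ?_⟩
    · have h1 : Tendsto (Sigma.fst : L → ℕ) (coclosedCompact L) atTop := by
        refine tendsto_atTop.2 fun N => hasBasis_coclosedCompact.mem_iff.2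
          ⟨⋃ n ∈ Iio N, range (Sigma.mk n), ⟨?_, ?_⟩, ?_⟩
        · exact (finite_Iio N).isClosed_biUnion fun n _ => isClosed_range_sigmaMk
        · exact (finite_Iio N).isCompact_biUnion fun n _ => isCompact_range continuous_sigmaMk
        · intro y hy
          by_contra h
          exact hy (mem_biUnion (show y.1 ∈ Iio N from mem_Iio.2 (not_le.1 h)) ⟨y.2, rfl⟩)
      refine squeeze_zero (g := fun y : L => 1 / ((y.1 : ℝ) + 1)) (fun y => ?_) (fun y => ?_)
        (tendsto_one_div_add_atTop_nhds_zero_nat.comp h1)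
      · exact div_nonneg (g y).2.1 (by positivity)
      · exact div_le_div_of_nonneg_right (g y).2.2 (by positivity)
    · exact (continuous_subtype_val.comp hg).div
        (((continuous_of_discreteTopology (f := fun n : ℕ => (n : ℝ))).comp hl).add
          continuous_const) fun y => by positivity
  refine ⟨⟨f, hf⟩, funext fun j => ?_⟩
  have e : g ⟨j.1, pure j.2⟩ = τ j := congrFun (ultrafilter_extend_extends fun a => τ ⟨j.1, a⟩) j.2
  show projIcc 0 1 zero_le_one (((j.1 : ℝ) + 1) * (g ⟨j.1, pure j.2⟩ / (j.1 + 1))) = τ j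
  rw [e, mul_div_cancel₀ _ (by positivity), projIcc_val]

theorem noD (D : Set K) [DiscreteTopology D] (hD : #D = #J) :
    ¬ ∀ g : D → ℝ, Continuous g → (∃ M : ℝ, ∀ x : D, |g x| ≤ M) →
      ∃ G : K → ℝ, Continuous G ∧ ∀ x : D, G (x : K) = g x := by
  classical
  intro h
  have hfr : ∃ᶠ n in atTop, ∃ u : Ultrafilter (T n), ((⟨n, u⟩ : L) : K) ∈ D := by
    refine frequently_atTop.2 fun N => ?_
    by_contra hn
    push Not at hn
    refine absurd (small' N) (not_lt.2 (hD ▸ mk_le_mk_of_subset fun x hx y hy => ?_))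
    by_contra hy'
    exact hn y.1 (not_lt.1 hy') y.2 (hy ▸ hx)
  obtain ⟨s, hs, hu⟩ := extraction_of_frequently_atTop hfr
  choose u hu using hu
  obtain ⟨G, hG, he⟩ := h (fun x => if ∃ j, x.1 = ((⟨s (2 * j), u _⟩ : L) : K) then 1 else 0)
    continuous_of_discreteTopology ⟨1, fun x => by split_ifs <;> simp⟩
  have hl : Continuous (Sigma.fst : L → ℕ) := continuous_sigma fun n => continuous_const (y := n)
  have ht : Tendsto (fun j => (⟨s j, u j⟩ : L)) atTop (coclosedCompact L) := by
    intro A hA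
    obtain ⟨C, ⟨-, hC⟩, hA⟩ := hasBasis_coclosedCompact.mem_iff.1 hA
    obtain ⟨N, hN⟩ := (hC.image hl).finite_of_discrete.bddAbove
    refine mem_map.2 (mem_of_superset (hs.tendsto_atTop (eventually_gt_atTop N)) fun j hj => ?_)
    exact hA fun hc => absurd (hN ⟨_, hc, rfl⟩) (not_le.2 hj)
  have h0 := ((OnePoint.continuous_iff G).1 hG).1.comp ht
  have h1 := h0.comp (tendsto_atTop_mono (f := id) (g := fun j : ℕ => 2 * j)
    (fun j => by simp only [id]; omega) tendsto_id)
  have h2 := h0.comp (tendsto_atTop_mono (f := id) (g := fun j : ℕ => 2 * j + 1)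
    (fun j => by simp only [id]; omega) tendsto_id)
  have e1 : ∀ j, G ((⟨s (2 * j), u _⟩ : L) : K) = 1 := fun j => by
    rw [he ⟨_, hu _⟩, if_pos ⟨j, rfl⟩]
  have e2 : ∀ j, G ((⟨s (2 * j + 1), u _⟩ : L) : K) = 0 := fun j => by
    rw [he ⟨_, hu _⟩, if_neg]
    rintro ⟨i, hi⟩
    have := hs.injective (congrArg Sigma.fst (OnePoint.coe_injective hi))
    omega
  have a := tendsto_nhds_unique (h1.congr e1) tendsto_const_nhds
  have b := tendsto_nhds_unique (h2.congr e2) tendsto_const_nhds
  exact zero_ne_one (b.symm.trans a)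

end Pool.Agent.H17.Beth
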