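import Mathlib

set_option autoImplicit false
open Set Topology Filter Cardinal

namespace Pool.Agent.H17.Big

def G : Type := Set (Set ℕ)

theorem mkG : #G = 2 ^ 𝔠 := by simp [G]

instance : Uncountable G := by
  rw [← aleph0_lt_mk_iff, mkG]; exact aleph0_le_continuum.trans_lt (cantor _)

abbrev Sg := (ℕ → Finset G) × G

theorem exE : Nonempty (Sg × ℕ ≃ G) := by
  have h : ℵ₀ ≤ (2 : Cardinal.{0}) ^ 𝔠 := (aleph0_le_continuum.trans (cantor _).le)
  rw [← Cardinal.eq]
  simp [mk_finset_of_infinite, mkG, ← power_mul, mul_eq_self h, mul_aleph0_eq h]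

noncomputable def c (σ : Sg) (k : ℕ) : G := Classical.choice exE (σ, k)
noncomputable def st (β : G) : Sg := ((Classical.choice exE).symm β).1
noncomputable def lv (β : G) : ℕ := ((Classical.choice exE).symm β).2

@[simp] theorem st_c (σ : Sg) (k : ℕ) : st (c σ k) = σ := by simp [st, c]
@[simp] theorem lv_c (σ : Sg) (k : ℕ) : lv (c σ k) = k := by simp [lv, c]
theorem c_st (β : G) : c (st β) (lv β) = β := by simp [lv, st, c]

theorem c_inf (σ : Sg) {A : Set G} (hA : A.Finite) : ∃ k, c σ k ∉ A := by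
  by_contra h
  push Not at h
  exact infinite_range_of_injective (f := c σ) (fun a b e => by simpa using congrArg lv e)
    (hA.subset (range_subset_iff.2 h))

def lim (σ : Sg) : Set G := {β | ∀ᶠ n in atTop, β ∈ σ.1 n}

def Val (σ : Sg) : Prop :=
  (∀ β ∉ lim σ, ∀ᶠ n in atTop, β ∉ σ.1 n) ∧ ∀ τ, ∃ k, c τ k ∉ lim σ

/-- finite sets built in at most `s` stages -/
inductive Gd : ℕ → Set G → Prop
  | nil (s : ℕ) : Gd s ∅
  | step (s : ℕ) (σ : Sg) (n : ℕ) (A : Set G) : Val σ → Gd s {β ∈ A | st β ≠ σ} →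
      (∀ β ∈ A, st β ≠ σ → β ∈ σ.1 n) → (∀ β ∈ A, st β = σ → lv β ≤ n) → Gd (s + 1) A

theorem Gd.sub {s : ℕ} {A : Set G} (h : Gd s A) : ∀ B ⊆ A, Gd s B := by
  induction h with
  | nil s => intro B hB; rw [subset_eq_empty hB rfl]; exact .nil s
  | step s σ n A hv _ h1 h2 ih =>
    exact fun B hB => .step s σ n B hv (ih _ fun β hβ => ⟨hB hβ.1, hβ.2⟩)
      (fun β hβ => h1 β (hB hβ)) fun β hβ => h2 β (hB hβ)

theorem Gd.succ {s : ℕ} {A : Set G} (h : Gd s A) : Gd (s + 1) A := by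
  induction h with
  | nil s => exact .nil _
  | step s σ n A hv _ h1 h2 ih => exact .step _ σ n A hv ih h1 h2

theorem Gd.lev {s : ℕ} {A : Set G} (h : Gd s A) (k : ℕ) : {β ∈ A | lv β = k}.encard ≤ s := by
  induction h with
  | nil s => simp
  | step s σ n A hv _ h1 h2 ih =>
    refine le_trans (encard_le_encard (t := insert (c σ k) {β ∈ {β ∈ A | st β ≠ σ} | lv β = k})
      fun β hβ => ?_) ((encard_insert_le _ _).trans (by push_cast; gcongr))
    by_cases e : st β = σ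
    · exact Or.inl (by rw [← e, ← hβ.2, c_st])
    · exact Or.inr ⟨⟨hβ.1, e⟩, hβ.2⟩

theorem Gd.val {s : ℕ} {A : Set G} (h : Gd s A) {β : G} (hβ : β ∈ A) : Val (st β) := by
  induction h with
  | nil s => exact absurd hβ (notMem_empty _)
  | step s σ n A hv _ h1 h2 ih =>
    by_cases e : st β = σ
    · rwa [e]
    · exact ih ⟨hβ, e⟩

theorem Gd.top {s : ℕ} {A : Set G} (h : Gd s A) {β : G} {σ : Sg} {k : ℕ} (hβ : β ∈ A)
    (hk : c σ k ∈ A) (e : st β ≠ σ) :
    (∃ n, k ≤ n ∧ β ∈ σ.1 n) ∨ ∃ n, ∀ j, c σ j ∈ A → c σ j ∈ (st β).1 n := by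
  induction h with
  | nil s => exact absurd hβ (notMem_empty _)
  | step s τ n A hv _ h1 h2 ih =>
    by_cases e1 : σ = τ
    · subst e1
      exact Or.inl ⟨n, by simpa using h2 _ hk (by simp), h1 β hβ e⟩
    · by_cases e2 : st β = τ
      · exact Or.inr ⟨n, fun j hj => e2 ▸ h1 _ hj (by simpa using e1)⟩
      · exact (ih ⟨hβ, e2⟩ ⟨hk, by simpa using e1⟩).imp_right fun ⟨m, hm⟩ =>
          ⟨m, fun j hj => hm j ⟨hj, by simpa using e1⟩⟩

theorem far {β : G} {σ : Sg} (hv : Val σ) (e : st β ≠ σ) (h : β ∉ lim σ) :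
    ∃ k, ∀ s A, Gd s A → β ∈ A → ¬∀ j ≤ k, c σ j ∈ A := by
  classical
  by_contra hc
  push Not at hc
  obtain ⟨N, hN⟩ := eventually_atTop.1 (hv.1 β h)
  obtain ⟨_, _, h0, h0', -⟩ := hc 0
  obtain ⟨j0, hj0⟩ := (h0.val h0').2 σ
  obtain ⟨N', hN'⟩ := eventually_atTop.1 ((h0.val h0').1 _ hj0)
  obtain ⟨j, hj⟩ := c_inf σ ((Finset.range N').biUnion (st β).1).finite_toSet
  obtain ⟨s, A, h1, h2, h3⟩ := hc (N + j0 + j)
  rcases h1.top h2 (h3 _ le_rfl) e with ⟨n, a, b⟩ | ⟨n, a⟩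
  · exact hN n (by omega) b
  · refine hj (Finset.mem_biUnion.2 ⟨n, Finset.mem_range.2 ?_, a j (h3 j (by omega))⟩)
    by_contra hn
    exact hN' n (not_lt.1 hn) (a j0 (h3 j0 (by omega)))

theorem opn (β : G) (b : Bool) : IsOpen {y : G → Bool | y β = b} :=
  (isOpen_discrete ({b} : Set Bool)).preimage (f := fun y : G → Bool => y β) (continuous_apply β)

def Y (s : ℕ) : Set (G → Bool) := {y | ∀ A : Set G, A.Finite → (∀ β ∈ A, y β = true) → Gd s A}

theorem Y_closed (s : ℕ) : IsClosed (Y s) := by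
  have : Y s = ⋂ (A : Set G) (_ : A.Finite) (_ : ¬Gd s A), (⋂ β ∈ A, {y | y β = true})ᶜ := by
    ext y
    simp only [Y, mem_ofPred_eq, mem_iInter, mem_compl_iff]
    exact forall₂_congr fun A _ => ⟨fun h a b => a (h b), fun h b => by_contra fun a => h a b⟩
  rw [this]
  refine isClosed_iInter fun A => isClosed_iInter fun hA => isClosed_iInter fun _ =>
    (hA.isOpen_biInter fun β _ => ?_).isClosed_compl
  exact opn β true

theorem Y_mono {s t : ℕ} (h : s ≤ t) : Y s ⊆ Y t :=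
  monotone_nat_of_le_succ (f := Y) (fun _ _ hy A a b => (hy A a b).succ) h

theorem levfin {s : ℕ} {y : G → Bool} (hy : y ∈ Y s) (a : ℕ) :
    {β | y β = true ∧ lv β ≤ a}.Finite := by
  refine ((finite_le_nat a).biUnion (t := fun k => {β | y β = true ∧ lv β = k})
    fun k _ => ?_).subset fun β hβ => mem_biUnion hβ.2 ⟨hβ.1, rfl⟩
  by_contra h
  obtain ⟨t, h1, h2⟩ := exists_subset_encard_eq (s := {β | y β = true ∧ lv β = k})
    (k := (s + 1 : ℕ)) (by rw [Infinite.encard_eq h]; exact le_top)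
  have h3 := (hy t (finite_of_encard_eq_coe h2) fun β hβ => (h1 hβ).1).lev k
  rw [sep_eq_self_iff_mem_true.2 fun β hβ => (h1 hβ).2, h2] at h3
  have : s + 1 ≤ s := by exact_mod_cast h3
  omega

def XX : Set (G → Bool) := {x | (∃ s, x ∈ Y s) ∧ ∃ σ, ∀ k, x (c σ k) = true}

instance : FirstCountableTopology XX := by
  refine ⟨fun x => ?_⟩
  obtain ⟨⟨s, hs⟩, σ, hσ⟩ := x.2
  have hv : Val σ := by
    simpa using (hs {c σ 0} (finite_singleton _) (by simpa using hσ 0)).val (mem_singleton _)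
  have hC : (lim σ ∪ range (c σ)).Countable :=
    ((countable_iUnion fun n => (σ.1 n).countable_toSet).mono fun β hβ => by
      obtain ⟨n, hn⟩ := hβ.exists; exact mem_iUnion.2 ⟨n, hn⟩).union (countable_range _)
  have := hC.to_subtype
  let r : XX → ↥(lim σ ∪ range (c σ)) → Bool := fun z b => z.1 b
  have hr : Continuous r := continuous_pi fun b => (continuous_apply _).comp continuous_subtype_val
  have h1 : ∀ b ∈ lim σ ∪ range (c σ), ∀ᶠ z in comap r (𝓝 (r x)), z.1 b = x.1 b := fun b hb =>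
    tendsto_pure.1 (by
      rw [← nhds_discrete]; exact tendsto_pi_nhds.1 (tendsto_comap (f := r)) ⟨b, hb⟩)
  have e : 𝓝 x = comap r (𝓝 (r x)) := by
    refine le_antisymm (hr.tendsto x).le_comap (tendsto_id'.1 (tendsto_subtype_rng.2
      (tendsto_pi_nhds.2 fun β => tendsto_const_nhds.congr' ?_)))
    by_cases hb : β ∈ lim σ ∪ range (c σ)
    · exact (h1 β hb).mono fun z hz => hz.symm
    · obtain ⟨k, hk⟩ := far hv (fun e => hb (Or.inr ⟨lv β, by rw [← e, c_st]⟩))
        fun h => hb (Or.inl h)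
      have h2 : ∀ z : XX, (∀ j ≤ k, z.1 (c σ j) = true) → z.1 β = false := by
        intro z hz
        by_contra hc
        obtain ⟨t, ht⟩ := z.2.1
        refine hk t (insert β (c σ '' {j | j ≤ k})) (ht _ (((finite_le_nat k).image _).insert _) ?_)
          (Or.inl rfl) fun j hj => Or.inr ⟨j, hj, rfl⟩
        rintro _ (rfl | ⟨j, hj, rfl⟩)
        · simpa using hc
        · exact hz j hj
      filter_upwards [(eventually_all_finite (finite_le_nat k)).2
        fun j _ => h1 (c σ j) (Or.inr ⟨j, rfl⟩)] with z hz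
      exact (h2 x fun j _ => hσ j).trans (h2 z fun j hj => (hz j hj).trans (hσ j)).symm
  rw [e]
  infer_instance

theorem nb {f : XX → ℝ} (hf : Continuous f) (x : XX) {δ : ℝ} (hδ : 0 < δ) :
    ∃ D : Finset G, ∀ z : XX, (∀ β ∈ D, z.1 β = x.1 β) → |f z - f x| < δ := by
  obtain ⟨V, hV, e⟩ := isOpen_induced_iff.1
    (isOpen_lt (hf.sub (continuous_const (y := f x))).abs (continuous_const (y := δ)))
  have hx : x.1 ∈ V := by
    have : x ∈ Subtype.val ⁻¹' V := by rw [e]; simpa using hδ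
    exact this
  obtain ⟨D, u, hu, hD⟩ := isOpen_pi_iff.1 hV x.1 hx
  refine ⟨D, fun z hz => ?_⟩
  have : z ∈ Subtype.val ⁻¹' V := hD fun β hβ => by rw [hz β hβ]; exact (hu β hβ).2
  rwa [e] at this

theorem mkB {σ : Sg} {s : ℕ} (hv : Val σ) (h : ∀ A ⊆ lim σ, A.Finite → Gd s A) :
    ∃ w : XX, ∀ β, w.1 β = true ↔ β ∈ lim σ ∨ st β = σ := by
  classical
  refine ⟨⟨fun β => decide (β ∈ lim σ ∨ st β = σ), ⟨s + 1, fun A hA hA' => ?_⟩, σ,
    fun k => by simp⟩, fun β => by simp⟩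
  have h1 : ∀ β ∈ A, st β ≠ σ → β ∈ lim σ := fun β hβ e =>
    (of_decide_eq_true (hA' β hβ)).resolve_right e
  obtain ⟨n, hn⟩ := ((eventually_all_finite hA).2 fun β hβ =>
    ((eventually_imp_distrib_left.2 (h1 β hβ)).and (eventually_ge_atTop (lv β)))).exists
  exact .step s σ n A hv (h _ (fun β hβ => h1 β hβ.1 hβ.2) (hA.subset (sep_subset _ _)))
    (fun β hβ => (hn β hβ).1) fun β hβ _ => (hn β hβ).2

theorem tag (F : ℕ → Finset G) {C : Set G} (hC : C.Countable) : ∃ t, ∀ β ∈ C, st β ≠ (F, t) := by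
  obtain ⟨t, ht⟩ : ∃ t, t ∉ (fun β => (st β).2) '' C := by
    by_contra h
    push Not at h
    exact not_countable_univ ((hC.image _).mono fun t _ => h t)
  exact ⟨t, fun β hβ e => ht ⟨β, hβ, by simp [e]⟩⟩

theorem lim_const (A : Finset G) (t : G) : lim (fun _ => A, t) = A := by
  ext β; exact eventually_const (f := (atTop : Filter ℕ)) (p := β ∈ A)

theorem val_const (A : Finset G) (t : G) : Val (fun _ => A, t) := by
  refine ⟨fun β hβ => Eventually.of_forall fun _ => ?_, fun τ => ?_⟩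
  · rwa [lim_const] at hβ
  · rw [lim_const]; exact c_inf τ A.finite_toSet

theorem dens {s : ℕ} {A : Finset G} (h : Gd s A) (D : Finset G) :
    ∃ w : XX, ∀ β ∈ D, (w.1 β = true ↔ β ∈ A) := by
  obtain ⟨t, ht⟩ := tag (fun _ => A) D.countable_toSet
  obtain ⟨w, hw⟩ := mkB (s := s) (val_const A t) fun B hB _ => h.sub B (by rwa [lim_const] at hB)
  exact ⟨w, fun β hβ => by rw [hw, lim_const]; simp [ht β hβ]⟩

theorem acc {f : XX → ℝ} (hf : Continuous f) {s : ℕ} {y : G → Bool} (hy : y ∈ Y s) {ε : ℝ}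
    (hε : 0 < ε) : ∃ H : Finset G, ∀ x x' : XX, (∀ β ∈ H, x.1 β = y β) →
      (∀ β ∈ H, x'.1 β = y β) → |f x - f x'| ≤ ε := by
  classical
  by_cases hX : ∃ σ, ∀ k, y (c σ k) = true
  · obtain ⟨D, hD⟩ := nb hf ⟨y, ⟨s, hy⟩, hX⟩ (half_pos hε)
    refine ⟨D, fun x x' h h' => ?_⟩
    have a := abs_lt.1 (hD x h)
    have b := abs_lt.1 (hD x' h')
    rw [abs_le]; constructor <;> linarith
  by_contra hc
  push Not at hc hX
  have hδ : 0 < ε / 4 := by positivity
  choose D hD using fun x => nb hf x hδ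
  choose p q hp hq hpq using hc
  let H : ℕ → Finset G := fun n => Nat.rec ∅
    (fun n K => K ∪ D (p K) ∪ D (q K) ∪ (levfin hy n).toFinset) n
  have hH : ∀ n, H (n + 1) = H n ∪ D (p (H n)) ∪ D (q (H n)) ∪ (levfin hy n).toFinset :=
    fun _ => rfl
  have hm : Monotone H := monotone_nat_of_le_succ fun n β hβ => by simp [hH, hβ]
  let u : ℕ → XX := fun m => if m % 2 = 0 then p (H (m / 2)) else q (H (m / 2))
  have hu1 : ∀ m, ∀ β ∈ H (m / 2), (u m).1 β = y β := fun m => by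
    simp only [u]; split_ifs
    · exact hp _
    · exact hq _
  have hu2 : ∀ m, D (u m) ⊆ H (m / 2 + 1) := fun m β hβ => by
    simp only [u] at hβ; split_ifs at hβ <;> simp [hH, hβ]
  let F : ℕ → Finset G := fun m => (H (m / 2 + 1)).filter fun β => (u m).1 β = true
  obtain ⟨t, ht⟩ := tag F (countable_iUnion fun n => (H n).countable_toSet)
  have hev : ∀ β n, β ∈ H n → ∀ᶠ m in atTop, (β ∈ F m ↔ y β = true) := fun β n hβ => by
    filter_upwards [eventually_ge_atTop (2 * n)] with m hm'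
    have h1 : β ∈ H (m / 2) := hm (by omega) hβ
    simp only [F, Finset.mem_filter, hu1 m β h1, hm (Nat.le_succ _) h1, true_and]
  have hev' : ∀ β, ∀ᶠ m in atTop, (β ∈ F m ↔ y β = true) := fun β => by
    by_cases h : ∃ n, β ∈ H n
    · obtain ⟨n, hn⟩ := h; exact hev β n hn
    · refine Eventually.of_forall fun m => ⟨fun a => absurd ⟨m / 2 + 1, (Finset.mem_filter.1 a).1⟩ h,
        fun a => absurd ⟨lv β + 1, ?_⟩ h⟩
      simp [hH, a]
  have hl : ∀ β, β ∈ lim (F, t) ↔ y β = true := fun β =>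
    ⟨fun h => ((hev' β).and h).exists.elim fun _ a => a.1.1 a.2,
      fun h => (hev' β).mono fun _ a => a.2 h⟩
  have hv : Val (F, t) := ⟨fun β hβ => (hev' β).mono fun m a b => hβ ((hl β).2 (a.1 b)),
    fun τ => (hX τ).imp fun k hk h => hk ((hl _).1 h)⟩
  obtain ⟨B, hB⟩ := mkB (s := s) hv fun A hA hA' => hy A hA' fun β hβ => (hl β).1 (hA hβ)
  have key : ∀ᶠ m in atTop, |f (u m) - f B| < ε / 2 := by
    filter_upwards [(eventually_all_finset (D B)).2 fun β _ =>
      (hev' β).and (eventually_ge_atTop (lv β))] with m hm'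
    obtain ⟨s', hs'⟩ := (u m).2.1
    have hF : ∀ β ∈ F m, st β ≠ (F, t) := fun β hβ =>
      ht β (mem_iUnion.2 ⟨m / 2 + 1, (Finset.mem_filter.1 hβ).1⟩)
    have hg : Gd (s' + 1) ↑(F m ∪ (Finset.range (m + 1)).image (c (F, t))) := by
      have h1 : ∀ β ∈ F m ∪ (Finset.range (m + 1)).image (c (F, t)), st β ≠ (F, t) → β ∈ F m := by
        intro β hβ e
        refine (Finset.mem_union.1 hβ).resolve_right fun h => ?_
        obtain ⟨k, -, rfl⟩ := Finset.mem_image.1 h
        exact e (st_c _ _)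
      refine .step s' (F, t) m _ hv ((hs' (F m) (F m).finite_toSet
        fun β hβ => (Finset.mem_filter.1 hβ).2).sub _ fun β hβ => h1 β hβ.1 hβ.2) h1
        fun β hβ e => ?_
      obtain ⟨k, hk, rfl⟩ := Finset.mem_image.1
        ((Finset.mem_union.1 hβ).resolve_left fun h => hF β h e)
      have := Finset.mem_range.1 hk
      simp only [lv_c]; omega
    obtain ⟨w, hw⟩ := dens hg (D (u m) ∪ D B)
    have him : ∀ β, β ∈ (Finset.range (m + 1)).image (c (F, t)) ↔ st β = (F, t) ∧ lv β ≤ m := by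
      intro β
      rw [Finset.mem_image]
      constructor
      · rintro ⟨k, hk, rfl⟩
        exact ⟨st_c _ _, by have := Finset.mem_range.1 hk; simp only [lv_c]; omega⟩
      · rintro ⟨a, b⟩
        exact ⟨lv β, Finset.mem_range.2 (by omega), by rw [← a, c_st]⟩
    have a := abs_lt.1 (hD (u m) w fun β hβ => by
      rw [Bool.eq_iff_iff, hw β (Finset.mem_union_left _ hβ), Finset.mem_union, him]
      have := ht β (mem_iUnion.2 ⟨m / 2 + 1, hu2 m hβ⟩)
      simp [F, hu2 m hβ, this])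
    have b := abs_lt.1 (hD B w fun β hβ => by
      rw [Bool.eq_iff_iff, hw β (Finset.mem_union_right _ hβ), Finset.mem_union, him, hB, hl,
        (hm' β hβ).1]
      simp [(hm' β hβ).2])
    rw [abs_lt]; constructor <;> linarith
  obtain ⟨N, hN⟩ := eventually_atTop.1 key
  have a := abs_lt.1 (hN (2 * N) (by omega))
  have b := abs_lt.1 (hN (2 * N + 1) (by omega))
  have e1 : u (2 * N) = p (H N) := by simp [u]
  have e2 : u (2 * N + 1) = q (H N) := by
    simp only [u]; rw [if_neg (by omega), show (2 * N + 1) / 2 = N by omega]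
  rw [e1] at a
  rw [e2] at b
  refine absurd (hpq (H N)) (not_lt.2 ?_)
  rw [abs_le]; constructor <;> linarith

theorem unif {f : XX → ℝ} (hf : Continuous f) (s : ℕ) {ε : ℝ} (hε : 0 < ε) :
    ∃ H : Finset G, ∀ x x' : XX, x.1 ∈ Y s → (∀ β ∈ H, x.1 β = x'.1 β) → |f x - f x'| ≤ ε := by
  by_contra hc
  push Not at hc
  choose p q hp hpq h using hc
  obtain ⟨y, hy, hy'⟩ := (Y_closed s).isCompact.exists_mapClusterPt (f := atTop)
    (u := fun H => (p H).1) (tendsto_principal.2 (Eventually.of_forall hp))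
  obtain ⟨D, hD⟩ := acc hf hy hε
  have hn : (⋂ β ∈ D, {z : G → Bool | z β = y β}) ∈ 𝓝 y := (biInter_finset_mem D).2 fun β _ =>
    (opn β (y β)).mem_nhds rfl
  obtain ⟨H, h1, h2⟩ := ((mapClusterPt_iff_frequently.1 hy' _ hn).and_eventually
    (eventually_ge_atTop D)).exists
  have h3 : ∀ β ∈ D, (p H).1 β = y β := fun β hβ => mem_iInter₂.1 h1 β hβ
  exact absurd (h H) (not_lt.2 (hD _ _ h3 fun β hβ => (hpq H β (h2 hβ)).symm.trans (h3 β hβ)))

theorem bdd {f : XX → ℝ} (hf : Continuous f) (s : ℕ) :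
    ∃ M : ℝ, ∀ x : XX, x.1 ∈ Y s → |f x| ≤ M := by
  classical
  obtain ⟨H, hH⟩ := unif hf s one_pos
  let r : XX → H → Bool := fun x β => x.1 β
  have h : ∀ v : H → Bool, ∃ M : ℝ, ∀ x : XX, x.1 ∈ Y s → r x = v → |f x| ≤ M := fun v => by
    by_cases h : ∃ z, r z = v
    · obtain ⟨z, rfl⟩ := h
      refine ⟨|f z| + 1, fun x hx e => ?_⟩
      have := hH x z hx fun β hβ => congrFun e ⟨β, hβ⟩
      have := abs_sub_abs_le_abs_sub (f x) (f z)
      linarith
    · exact ⟨0, fun x _ e => absurd ⟨x, e⟩ h⟩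
  choose M hM using h
  obtain ⟨b, hb⟩ := (finite_range M).bddAbove
  exact ⟨b, fun x hx => (hM _ x hx rfl).trans (hb ⟨_, rfl⟩)⟩

theorem card : 𝔠 < #XX := by
  choose w hw using fun t : G => mkB (s := 0) (val_const ∅ t) fun A hA _ => by
    rw [lim_const] at hA
    rw [subset_eq_empty hA (by simp)]; exact .nil 0
  refine (cantor _).trans_le (mkG ▸ mk_le_of_injective (f := w) fun a b e => ?_)
  have := (hw b (c (fun _ => ∅, a) 0)).1 (e ▸ (hw a _).2 (Or.inr (st_c _ _)))
  rw [lim_const] at this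
  simpa using this

instance : TopologicalSpace G := ⊥
instance : DiscreteTopology G := ⟨rfl⟩

theorem agree_open {x x' : XX} (a : ℕ) :
    IsOpen {z : OnePoint G | ∀ β : G, z = β → lv β ≤ a → x.1 β = x'.1 β} := by
  obtain ⟨s, hs⟩ := x.2.1
  obtain ⟨s', hs'⟩ := x'.2.1
  rw [← isClosed_compl_iff]
  refine Finite.isClosed ((((levfin hs a).union (levfin hs' a)).image (↑)).subset fun z hz => ?_)
  simp only [mem_compl_iff, mem_ofPred_eq] at hz
  push Not at hz
  obtain ⟨β, rfl, h1, h2⟩ := hz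
  refine ⟨β, ?_, rfl⟩
  by_cases h : x.1 β = true
  · exact Or.inl ⟨h, h1⟩
  · refine Or.inr ⟨?_, h1⟩
    revert h h2
    cases x.1 β <;> cases x'.1 β <;> simp

abbrev K := (XX → Icc (-1 : ℝ) 1) × (ℕ → ℕ → OnePoint G)

noncomputable def sx (x : XX) : ℕ := x.2.1.choose

noncomputable def val (p : K × (ℕ → ℕ)) (x : XX) : ℝ := p.2 (sx x) * p.1.1 x

theorem val_cont (x : XX) : Continuous fun p => val p x := by
  unfold val
  exact ((continuous_of_discreteTopology (f := fun n : ℕ => (n : ℝ))).comp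
    ((continuous_apply _).comp continuous_snd)).mul (by fun_prop)

def FF : Set (K × (ℕ → ℕ)) := {p | ∀ (s : ℕ) (x x' : XX), x.1 ∈ Y s →
  (∀ i < p.2 s, ∀ β : G, p.1.2 s i = β → lv β ≤ p.2 s → x.1 β = x'.1 β) →
    |val p x - val p x'| ≤ 1 / (s + 1)}

theorem FF_closed : IsClosed FF := by
  simp only [FF, ofPred_forall]
  refine isClosed_iInter fun s => isClosed_iInter fun x => isClosed_iInter fun x' =>
    isClosed_iInter fun _ => ?_
  refine isClosed_imp ?_ (isClosed_le ((val_cont x).sub (val_cont x')).abs continuous_const)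
  have e : {p : K × (ℕ → ℕ) | ∀ i < p.2 s, ∀ β : G, p.1.2 s i = β → lv β ≤ p.2 s →
      x.1 β = x'.1 β} = ⋃ a : ℕ, ({p | p.2 s = a} ∩ ⋂ i ∈ {i | i < a},
        {p : K × (ℕ → ℕ) | ∀ β : G, p.1.2 s i = β → lv β ≤ a → x.1 β = x'.1 β}) := by
    ext p; simp
  rw [e]
  refine isOpen_iUnion fun a => IsOpen.inter ?_ ((finite_lt_nat a).isOpen_biInter fun i _ => ?_)
  · exact (isOpen_discrete ({a} : Set ℕ)).preimage (f := fun p : K × (ℕ → ℕ) => p.2 s)
      (by fun_prop)
  · exact (agree_open a).preimage (f := fun p : K × (ℕ → ℕ) => p.1.2 s i) (by fun_prop)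

theorem FF_cont {p : K × (ℕ → ℕ)} (hp : p ∈ FF) : Continuous (val p) := by
  refine continuous_iff_continuousAt.2 fun x => Metric.tendsto_nhds.2 fun ε hε => ?_
  obtain ⟨s, hs⟩ := x.2.1
  obtain ⟨t, h1, h2⟩ := ((eventually_ge_atTop s).and
    ((tendsto_one_div_add_atTop_nhds_zero_nat (𝕜 := ℝ)).eventually (gt_mem_nhds hε))).exists
  have : ∀ᶠ z : XX in 𝓝 x, ∀ i < p.2 t, ∀ β : G, p.1.2 t i = β → x.1 β = z.1 β := by
    refine (eventually_all_finite (finite_lt_nat (p.2 t))).2 fun i _ => ?_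
    induction p.1.2 t i using OnePoint.rec with
    | infty => exact Eventually.of_forall fun z β h => absurd h (OnePoint.infty_ne_coe β)
    | coe b =>
      filter_upwards [((opn b (x.1 b)).preimage continuous_subtype_val).mem_nhds
        (show x.1 b = x.1 b from rfl)] with z hz β h
      rw [← OnePoint.coe_injective h]; exact hz.symm
  filter_upwards [this] with z hz
  rw [dist_comm, Real.dist_eq]
  exact (hp t x z (Y_mono h1 hs) fun i hi β e _ => hz i hi β e).trans_lt h2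

theorem FF_surj {f : XX → ℝ} (hf : Continuous f) : ∃ p ∈ FF, val p = f := by
  choose H hH using fun s : ℕ => unif hf s (Nat.one_div_pos_of_nat (n := s))
  choose M hM using bdd hf
  have h : ∀ s, ∃ a : ℕ, 0 < a ∧ M s ≤ a ∧ (H s).card ≤ a ∧ ∀ β ∈ H s, lv β ≤ a := fun s =>
    ((eventually_gt_atTop 0).and ((tendsto_natCast_atTop_atTop.eventually_ge_atTop (M s)).and
      ((eventually_ge_atTop _).and
        ((eventually_all_finset _).2 fun β _ => eventually_ge_atTop (lv β))))).exists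
  choose a a0 a1 a2 a3 using h
  have hg : ∀ x, f x / a (sx x) ∈ Icc (-1 : ℝ) 1 := fun x => by
    have h0 : (0 : ℝ) < a (sx x) := by exact_mod_cast a0 _
    rw [mem_Icc, ← abs_le, abs_div, abs_of_pos h0, div_le_one h0]
    exact (hM _ x x.2.1.choose_spec).trans (a1 _)
  let z : ℕ → ℕ → OnePoint G := fun s i =>
    if h : i < (H s).card then ↑((H s).equivFin.symm ⟨i, h⟩).1 else OnePoint.infty
  have e : val ((fun x => ⟨_, hg x⟩, z), a) = f := funext fun x =>
    mul_div_cancel₀ _ (by exact_mod_cast (a0 _).ne')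
  refine ⟨_, fun s x x' hx h => ?_, e⟩
  rw [e]
  refine hH s x x' hx fun β hβ => h ((H s).equivFin ⟨β, hβ⟩)
    (((H s).equivFin ⟨β, hβ⟩).2.trans_le (a2 s)) β ?_ (a3 s β hβ)
  simp [z]

end Pool.Agent.H17.Big
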