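import Mathlib

set_option autoImplicit false

namespace Pool.Agent.H17

open Polynomial

/-- evaluate the binary digits of a number as a polynomial -/
noncomputable def ev {R : Type} [CommRing R] (r : R) (x : ℕ) : R :=
  Nat.binaryRec 0 (fun b _ e => (if b then 1 else 0) + r * e) x

section
variable {R : Type} [CommRing R] (r : R)

theorem ev_zero : ev r 0 = 0 := by simp [ev]

theorem ev_bit (b : Bool) (n : ℕ) : ev r (Nat.bit b n) = (if b then 1 else 0) + r * ev r n := by
  unfold ev
  rw [Nat.binaryRec_eq]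
  left
  simp

theorem ev_one : ev r 1 = 1 := by
  have := ev_bit r true 0
  simpa [ev_zero] using this

theorem ev_two_mul (n : ℕ) : ev r (2 * n) = r * ev r n := by
  have := ev_bit r false n
  simpa [Nat.bit] using this

theorem ev_two : ev r 2 = r := by
  have := ev_two_mul r 1
  simpa [ev_one] using this

theorem ev_split (n : ℕ) : ev r n = (if n % 2 = 1 then 1 else 0) + r * ev r (n / 2) := by
  induction n using Nat.bitCasesOn with
  | bit b n =>
    rw [ev_bit]
    cases b
    · simp [Nat.bit]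
    · have h1 : (2 * n + 1) % 2 = 1 := by omega
      have h2 : (2 * n + 1) / 2 = n := by omega
      simp [Nat.bit, h1, h2]

theorem ev_xor (h2 : (2 : R) = 0) (x y : ℕ) : ev r (x ^^^ y) = ev r x + ev r y := by
  induction x using Nat.binaryRec generalizing y with
  | zero => simp [ev_zero]
  | bit a m ih =>
    induction y using Nat.bitCasesOn with
    | bit b n =>
      rw [Nat.xor_bit, ev_bit, ev_bit, ev_bit, ih]
      cases a <;> cases b <;> simp
      · ring
      · ring
      · ring
      · linear_combination (-1 : R) * h2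

theorem ev_shift (x k : ℕ) : ev r (x <<< k) = r ^ k * ev r x := by
  induction k with
  | zero => simp
  | succ k ih => rw [Nat.shiftLeft_succ, ev_two_mul, ih]; ring

theorem ev_map {S : Type} [CommRing S] (φ : R →+* S) (x : ℕ) : φ (ev r x) = ev (φ r) x := by
  induction x using Nat.binaryRec with
  | zero => simp [ev_zero]
  | bit b n ih =>
    rw [ev_bit, ev_bit, map_add, map_mul, ih]
    cases b <;> simp

end

/-- carry-less product -/
def pmul : ℕ → ℕ → ℕ → ℕ
  | 0, _, _ => 0
  | k + 1, a, b => (if b % 2 = 1 then a else 0) ^^^ pmul k (2 * a) (b / 2)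

theorem ev_pmul {R : Type} [CommRing R] (r : R) (h2 : (2 : R) = 0) (k : ℕ) :
    ∀ a b, b < 2 ^ k → ev r (pmul k a b) = ev r a * ev r b := by
  induction k with
  | zero =>
    intro a b hb
    have : b = 0 := by omega
    simp [pmul, this, ev_zero]
  | succ k ih =>
    intro a b hb
    rw [pmul, ev_xor r h2, ih _ _ (by omega), ev_two_mul, ev_split r b]
    split_ifs
    · ring
    · rw [ev_zero]; ring

/-- reduction modulo a polynomial of degree d -/
def pmod (f d : ℕ) : ℕ → ℕ → ℕ
  | 0, x => x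
  | i + 1, x => pmod f d i (if (x >>> (d + i)) % 2 = 1 then x ^^^ (f <<< i) else x)

theorem ev_pmod {R : Type} [CommRing R] (r : R) (h2 : (2 : R) = 0) (f d : ℕ) (hf : ev r f = 0)
    (i : ℕ) : ∀ x, ev r (pmod f d i x) = ev r x := by
  induction i with
  | zero => intro x; rfl
  | succ i ih =>
    intro x
    rw [pmod, ih]
    split_ifs
    · rw [ev_xor r h2, ev_shift, hf]; ring
    · rfl

/-- product modulo f -/
def mm (f d a b : ℕ) : ℕ := pmod f d 16 (pmul 16 a (b % 65536))

theorem ev_mm {R : Type} [CommRing R] (r : R) (h2 : (2 : R) = 0) (f d : ℕ) (hf : ev r f = 0)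
    (a b : ℕ) (hb : b < 65536) : ev r (mm f d a b) = ev r a * ev r b := by
  rw [mm, ev_pmod r h2 f d hf, Nat.mod_eq_of_lt hb, ev_pmul r h2 16 _ _ (by omega)]

theorem coeff_ev (x : ℕ) : ∀ i, (ev (X : (ZMod 2)[X]) x).coeff i =
    if x.testBit i then 1 else 0 := by
  induction x using Nat.binaryRec with
  | zero => intro i; simp [ev_zero]
  | bit b n ih =>
    intro i
    rw [ev_bit]
    cases i with
    | zero => cases b <;> simp
    | succ i =>
      rw [coeff_add, coeff_X_mul, ih, Nat.testBit_bit_succ]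
      cases b <;> simp [coeff_one]

theorem evX_ne (x : ℕ) (hx : x ≠ 0) : ev (X : (ZMod 2)[X]) x ≠ 0 := by
  intro h
  apply hx
  apply Nat.zero_of_testBit_eq_false
  intro i
  have := coeff_ev x i
  rw [h] at this
  by_contra hc
  simp only [Bool.not_eq_false] at hc
  simp [hc] at this

theorem evX_deg (x n : ℕ) (hx : x < 2 ^ n) : (ev (X : (ZMod 2)[X]) x).degree < n := by
  rw [degree_lt_iff_coeff_zero]
  intro m hm
  rw [coeff_ev, Nat.testBit_lt_two_pow (lt_of_lt_of_le hx (Nat.pow_le_pow_right two_pos hm))]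
  simp

theorem aeval_ev {K : Type} [CommRing K] [Algebra (ZMod 2) K] (s : K) (x : ℕ) :
    aeval s (ev (X : (ZMod 2)[X]) x) = ev s x := by
  have := ev_map (X : (ZMod 2)[X]) (aeval s : (ZMod 2)[X] →ₐ[ZMod 2] K).toRingHom x
  simpa using this

theorem two_eq {K : Type} [CommRing K] [Algebra (ZMod 2) K] : (2 : K) = 0 := by
  have : algebraMap (ZMod 2) K 2 = 2 := map_ofNat _ 2
  rw [← this]
  have h : (2 : ZMod 2) = 0 := rfl
  rw [h, map_zero]

theorem ev_ne_of_minpoly {K : Type} [Field K] [Algebra (ZMod 2) K] (s : K) (n : ℕ)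
    (hn : (minpoly (ZMod 2) s).natDegree = n) (x : ℕ) (h0 : x ≠ 0) (hx : x < 2 ^ n) :
    ev s x ≠ 0 := by
  intro h
  have h1 := minpoly.degree_le_of_ne_zero (ZMod 2) s (evX_ne x h0) (by rw [aeval_ev, h])
  have h3 := evX_deg x n hx
  by_cases hi : minpoly (ZMod 2) s = 0
  · rw [hi] at hn
    simp only [natDegree_zero] at hn
    subst hn
    omega
  · rw [degree_eq_natDegree hi, hn] at h1
    exact absurd h3 (not_lt.2 h1)

/-- iterated squaring of the variable -/
def frob (f d : ℕ) : ℕ → ℕ
  | 0 => 2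
  | e + 1 => mm f d (frob f d e) (frob f d e)

theorem exists_field (f d : ℕ) (inv : ℕ → ℕ) (hf : f.testBit d = true) (hd : 0 < d)
    (hf2 : f < 2 ^ (d + 1)) (h1 : ∀ e, e < d → frob f d e < 65536)
    (h2 : ∀ e, e < d → e ≠ 0 → inv e < 65536 ∧ mm f d (frob f d e ^^^ 2) (inv e) = 1) :
    ∃ (K : Type) (_ : Field K) (_ : Algebra (ZMod 2) K) (α : K),
      Module.finrank (ZMod 2) K = d ∧ ev α f = 0 ∧ ∀ x, x ≠ 0 → x < 2 ^ d → ev α x ≠ 0 := by
  have hf0 : f ≠ 0 := by
    rintro rfl
    simp at hf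
  have hdeg : 0 < (ev (X : (ZMod 2)[X]) f).degree := by
    refine lt_of_lt_of_le (b := (d : WithBot ℕ)) (by exact_mod_cast hd) ?_
    apply le_degree_of_ne_zero
    rw [coeff_ev, hf]
    simp
  obtain ⟨q, hqm, hq, hqd⟩ := exists_monic_irreducible_factor _
    (not_isUnit_of_degree_pos _ hdeg)
  haveI : Fact (Irreducible q) := ⟨hq⟩
  have hfin : Module.finrank (ZMod 2) (AdjoinRoot q) = q.natDegree :=
    (AdjoinRoot.powerBasis hq.ne_zero).finrank
  haveI : Module.Finite (ZMod 2) (AdjoinRoot q) := (AdjoinRoot.powerBasis hq.ne_zero).finite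
  have hroot : ev (AdjoinRoot.root q) f = 0 := by
    rw [← aeval_ev, AdjoinRoot.aeval_eq, AdjoinRoot.mk_eq_zero]
    exact hqd
  have hle : q.natDegree ≤ d := by
    have h3 := natDegree_le_of_dvd hqd (evX_ne f hf0)
    have h4 := (natDegree_lt_iff_degree_lt (evX_ne f hf0)).2 (evX_deg f (d + 1) hf2)
    omega
  have hfr : ∀ e, e ≤ d → ev (AdjoinRoot.root q) (frob f d e) = AdjoinRoot.root q ^ (2 ^ e) := by
    intro e
    induction e with
    | zero => intro _; simp [frob, ev_two]
    | succ e ih =>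
      intro he
      rw [frob, ev_mm _ two_eq f d hroot _ _ (h1 e (by omega)), ih (by omega), pow_succ 2,
        pow_mul, sq]
  have hqd' : q.natDegree = d := by
    by_contra hne
    have hpos : 0 < q.natDegree := hq.natDegree_pos
    obtain ⟨h3, h4⟩ := h2 q.natDegree (by omega) (by omega)
    have h5 := ev_mm _ two_eq f d hroot (frob f d q.natDegree ^^^ 2) _ h3
    haveI : Finite (AdjoinRoot q) := Module.finite_of_finite (ZMod 2)
    letI : Fintype (AdjoinRoot q) := Fintype.ofFinite _
    have hc : Fintype.card (AdjoinRoot q) = 2 ^ q.natDegree := by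
      rw [Module.card_eq_pow_finrank (K := ZMod 2), hfin, ZMod.card]
    have h6 := FiniteField.pow_card (AdjoinRoot.root q)
    rw [hc] at h6
    rw [h4, ev_one, ev_xor _ two_eq, hfr _ hle, h6, ev_two, ← two_mul, two_eq] at h5
    simp at h5
  refine ⟨AdjoinRoot q, inferInstance, inferInstance, AdjoinRoot.root q, hfin.trans hqd', hroot,
    fun x h0 hx => ev_ne_of_minpoly _ d ?_ x h0 hx⟩
  rw [AdjoinRoot.minpoly_root hq.ne_zero, hqm.leadingCoeff, inv_one, C_1, mul_one, hqd']

theorem ev_ne_prime {K : Type} [Field K] [Algebra (ZMod 2) K] (m : ℕ) (hm : m.Prime)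
    (hK : Module.finrank (ZMod 2) K = m) (s : K) (h0 : s ≠ 0) (h1 : s ≠ 1) (x : ℕ) (hx0 : x ≠ 0)
    (hx : x < 2 ^ m) : ev s x ≠ 0 := by
  haveI : Module.Finite (ZMod 2) K := Module.finite_of_finrank_pos (hK ▸ hm.pos)
  have hi : IsIntegral (ZMod 2) s := Algebra.IsIntegral.isIntegral s
  have hd := minpoly.degree_dvd hi
  rw [hK] at hd
  rcases (Nat.dvd_prime hm).1 hd with h | h
  · rw [minpoly.natDegree_eq_one_iff] at h
    obtain ⟨c, rfl⟩ := h
    fin_cases c
    · exact absurd (map_zero _) h0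
    · exact absurd (map_one _) h1
  · exact ev_ne_of_minpoly s m h x hx0 hx

end Pool.Agent.H17
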