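import Mathlib

namespace Pool.Agent.H17.CCB

open Set Cardinal Function Topology

universe u

/-- Every continuous real function is bounded. -/
def Pseudocompact (Y : Type u) [TopologicalSpace Y] : Prop :=
  ∀ f : C(Y, ℝ), ∃ M, ∀ y, |f y| ≤ M

/-- Every point has an open neighbourhood with pseudocompact closure. -/
def LocPseudocompact (X : Type u) [TopologicalSpace X] : Prop :=
  ∀ x : X, ∃ W, IsOpen W ∧ x ∈ W ∧ Pseudocompact (closure W)

/-- Countably compact families of sets. -/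
def CCFamily {X : Type u} (𝓕 : Set (Set X)) : Prop :=
  ∀ F : ℕ → Set X, (∀ n, F n ∈ 𝓕) → (∀ n, F (n + 1) ⊆ F n) → (⋂ n, F n).Nonempty

theorem exists_avoid {ι : Type u} [LinearOrder ι] [WellFoundedLT ι]
    (h : ∀ i : ι, #(Iio i) < 𝔠) (θ : ι → ι → ℝ → ℝ) :
    ∃ t : ι → ℝ, ∀ i, t i ∈ Ioo (0 : ℝ) 1 ∧ ∀ j < i, t i ≠ θ i j (t j) := by
  have key : ∀ (i : ι) (p : ∀ j, j < i → ℝ), ∃ s ∈ Ioo (0 : ℝ) 1, ∀ j (hj : j < i),
      s ≠ θ i j (p j hj) := fun i p => by
    by_contra hc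
    push Not at hc
    have : Ioo (0 : ℝ) 1 ⊆ range fun j : Iio i => θ i j (p j j.2) := fun s hs => by
      obtain ⟨j, hj, e⟩ := hc s hs
      exact ⟨⟨j, hj⟩, e.symm⟩
    have h1 := lift_mk_le_lift_mk_of_surjective
      (rangeFactorization_surjective (f := fun j : Iio i => θ i j (p j j.2)))
    have h2 := lift_le.{u}.2 (mk_le_mk_of_subset this)
    rw [mk_Ioo_real one_pos, lift_continuum] at h2
    rw [lift_uzero] at h1
    exact absurd (h2.trans h1) (h i).not_ge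
  choose g hg1 hg2 using key
  let t : ι → ℝ := wellFounded_lt.fix g
  have e : ∀ i, t i = g i fun j _ => t j := fun i => wellFounded_lt.fix_eq g i
  exact ⟨t, fun i => ⟨e i ▸ hg1 _ _, fun j hj => by
    conv_lhs => rw [e i]
    exact hg2 i (fun j _ => t j) j hj⟩⟩

variable {X : Type u} [TopologicalSpace X]

theorem inter_closure {W : Set X} (hW : Pseudocompact (closure W)) (g : ℕ → C(X, ℝ))
    (x : ℕ → X) (hx : ∀ n, 0 < g n (x n)) (hxW : ∀ n, x n ∈ W)
    (ha : Antitone fun n => {y | 0 < g n y}) : ∃ z, ∀ n, z ∈ closure {y | 0 < g n y} := by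
  by_contra hc
  push Not at hc
  let G : ℕ → X → ℝ := fun n y => n / g n (x n) * max (g n y) 0
  have hs : ∀ n, support (G n) ⊆ {y | 0 < g n y} := fun n y hy => by
    by_contra e
    have e' : g n y ≤ 0 := not_lt.1 e
    exact hy (by simp [G, max_eq_right e'])
  have lf : LocallyFinite fun n => support (G n) := fun z => by
    obtain ⟨n, hn⟩ := hc z
    refine ⟨_, isClosed_closure.isOpen_compl.mem_nhds hn, (finite_lt_nat n).subset ?_⟩
    rintro m ⟨y, h1, h2⟩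
    by_contra e
    exact h2 (subset_closure (ha (not_lt.1 e) (hs m h1)))
  have hG : Continuous fun y => ∑ᶠ n, G n y := continuous_finsum (fun n => by fun_prop) lf
  obtain ⟨M, hM⟩ := hW ⟨fun y => ∑ᶠ n, G n y, hG.comp continuous_subtype_val⟩
  obtain ⟨n, hn⟩ := exists_nat_gt M
  have h1 := hM ⟨x n, subset_closure (hxW n)⟩
  have h2 : G n (x n) ≤ ∑ᶠ m, G m (x n) := single_le_finsum n (lf.point_finite (x n))
    fun m => mul_nonneg (div_nonneg (Nat.cast_nonneg _) (hx m).le) (le_max_right _ _)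
  have h3 : G n (x n) = n := by
    simp only [G, max_eq_left (hx n).le]
    exact div_mul_cancel₀ _ (hx n).ne'
  have := le_abs_self (∑ᶠ m, G m (x n))
  simp only [ContinuousMap.coe_mk] at h1
  linarith

theorem exists_levels {ι : Type u} (hι : #ι ≤ 𝔠) (f : ι → C(X, ℝ)) (h1 : ∀ i, ∃ x, 1 ≤ f i x)
    (h2 : ∀ i, ∃ W, Pseudocompact (closure W) ∧ {y | 0 < f i y} ⊆ W) :
    ∃ t : ι → ℝ, (∀ i, t i ∈ Ioo (0 : ℝ) 1) ∧ CCFamily (range fun i => {y | t i < f i y}) := by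
  obtain ⟨_, _, hord⟩ := exists_ord_eq_type_lt ι
  obtain ⟨t, ht⟩ := exists_avoid (fun i : ι => (mk_Iio_lt i hord).trans_le hι)
    fun i j s => sInf {u | {y | u < f i y} ⊆ {y | s < f j y}}
  have cl : ∀ i j, j < i → {y | t i < f i y} ⊆ {y | t j < f j y} →
      closure {y | t i < f i y} ⊆ {y | t j < f j y} := fun i j hj hs => by
    have : ∃ s < t i, {y | s < f i y} ⊆ {y | t j < f j y} := by
      by_contra hc
      push Not at hc
      exact (ht i).2 j hj (IsLeast.csInf_eq ⟨hs, fun s h => not_lt.1 fun e => hc s e h⟩).symm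
    obtain ⟨s, h3, h4⟩ := this
    exact (closure_minimal (fun y hy => le_of_lt hy)
      (isClosed_le continuous_const (f i).continuous)).trans fun y hy => h4 (h3.trans_le hy)
  refine ⟨t, fun i => (ht i).1, fun F hF hd => ?_⟩
  choose i hi using hF
  have ha : Antitone F := antitone_nat_of_succ_le hd
  choose x hx using h1
  have hx' : ∀ j, t j < f j (x j) := fun j => (ht j).1.2.trans_le (hx j)
  by_cases h : ∃ j, ∀ n, ∃ m ≥ n, i m = j
  · obtain ⟨j, hj⟩ := h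
    refine ⟨x j, mem_iInter.2 fun n => ?_⟩
    obtain ⟨m, h3, rfl⟩ := hj n
    exact ha h3 (hi m ▸ hx' _)
  · push Not at h
    obtain ⟨W, hW, hW'⟩ := h2 (i 0)
    have e : ∀ n, {y | 0 < (f (i n) - ContinuousMap.const X (t (i n))) y} = F n := fun n => by
      rw [← hi n]; ext; simp
    obtain ⟨z, hz⟩ := inter_closure hW (fun n => f (i n) - ContinuousMap.const X (t (i n)))
      (fun n => x (i n)) (fun n => by simpa using hx' (i n))
      (fun n => hW' (by
        have : x (i n) ∈ F 0 := ha n.zero_le (hi n ▸ hx' _)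
        rw [← hi 0] at this
        exact (ht _).1.1.trans this)) (by simpa only [e] using ha)
    refine ⟨z, mem_iInter.2 fun n => ?_⟩
    obtain ⟨_, ⟨m, hm, rfl⟩, hmin⟩ := wellFounded_lt.has_min (i '' Ici n) ⟨_, n, mem_Ici.2 le_rfl, rfl⟩
    obtain ⟨N, hN⟩ := h (i m)
    have h3 : i m < i (max N m) := lt_of_le_of_ne
      (not_lt.1 (hmin _ ⟨_, mem_Ici.2 (le_max_of_le_right hm), rfl⟩)) (hN _ (le_max_left _ _)).symm
    have h4 := cl _ _ h3 (by
      have := ha (le_max_right N m)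
      rwa [← hi, ← hi] at this)
    have h5 := hz (max N m)
    rw [e, ← hi] at h5
    exact ha hm (hi m ▸ h4 h5)

/-- A bump function: value one on a neighbourhood of `x`, zero outside `U`. -/
theorem exists_bump [CompletelyRegularSpace X] {x : X} {U : Set X} (hU : IsOpen U) (hx : x ∈ U) :
    ∃ f : C(X, ℝ), {y | 0 < f y} ⊆ U ∧ ∃ V, IsOpen V ∧ x ∈ V ∧ ∀ y ∈ V, 1 ≤ f y := by
  obtain ⟨g, h1, h2, h3⟩ := CompletelyRegularSpace.completely_regular x Uᶜ hU.isClosed_compl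
    (not_not.2 hx)
  refine ⟨⟨fun y => 2 - 2 * (g y : ℝ), by fun_prop⟩, fun y hy => ?_, {y | (g y : ℝ) < 1 / 2},
    isOpen_lt (by fun_prop) continuous_const, by simp [h2], fun y hy => ?_⟩
  · by_contra e
    have := h3 (show y ∈ Uᶜ from e)
    simp [this] at hy
  · have : (g y : ℝ) < 1 / 2 := hy
    simp only [ContinuousMap.coe_mk]
    linarith

/-- Main construction from a small family of sets. -/
theorem exists_family (𝓤 : Set (Set X)) (h : #𝓤 ≤ 𝔠) : ∃ 𝓑 : Set (Set X), CCFamily 𝓑 ∧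
    (∀ B ∈ 𝓑, IsOpen B ∧ B.Nonempty) ∧ ∀ V ∈ 𝓤, ∀ U ∈ 𝓤, V.Nonempty → ∀ f : C(X, ℝ),
      {y | 0 < f y} ⊆ U → (∀ y ∈ V, 1 ≤ f y) → (∃ W, Pseudocompact (closure W) ∧ U ⊆ W) →
        ∃ B ∈ 𝓑, V ⊆ B ∧ B ⊆ U := by
  let ι := {p : 𝓤 × 𝓤 // p.1.1.Nonempty ∧ (∃ f : C(X, ℝ), {y | 0 < f y} ⊆ p.2.1 ∧
    ∀ y ∈ p.1.1, 1 ≤ f y) ∧ ∃ W, Pseudocompact (closure W) ∧ p.2.1 ⊆ W}
  have hι : #ι ≤ 𝔠 := (mk_subtype_le _).trans (by
    rw [mk_prod, lift_id, ← continuum_mul_self]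
    exact mul_le_mul' h h)
  choose f hf1 hf2 using fun i : ι => i.2.2.1
  obtain ⟨t, ht, hc⟩ := exists_levels hι f (fun i => i.2.1.imp fun y hy => hf2 i y hy)
    fun i => i.2.2.2.imp fun W hW => ⟨hW.1, (hf1 i).trans hW.2⟩
  refine ⟨_, hc, forall_mem_range.2 fun i => ⟨isOpen_lt continuous_const (f i).continuous,
    i.2.1.imp fun y hy => (ht i).2.trans_le (hf2 i y hy)⟩, fun V hV U hU h1 g h2 h3 h4 => ?_⟩
  let i : ι := ⟨(⟨V, hV⟩, ⟨U, hU⟩), h1, ⟨g, h2, h3⟩, h4⟩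
  exact ⟨_, mem_range_self i, fun y hy => (ht i).2.trans_le (hf2 i y hy),
    fun y hy => hf1 i ((ht i).1.trans hy)⟩

end Pool.Agent.H17.CCB
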