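import Mathlib

set_option autoImplicit false
open Set Topology Filter MeasureTheory

namespace Pool.Agent.H17.CC

section weak
variable {Z : Type}

/-- `Z` with the weak topology of the family `F` -/
abbrev Sp (F : Set (Z → ℝ)) := range fun z : Z => fun f : F => f.1 z

def em (F : Set (Z → ℝ)) (z : Z) : Sp F := ⟨_, mem_range_self z⟩

theorem em_surj {F : Set (Z → ℝ)} (s : Sp F) : ∃ z, em F z = s := by
  obtain ⟨_, z, rfl⟩ := s; exact ⟨z, rfl⟩

theorem em_tendsto {F : Set (Z → ℝ)} {ι : Type} {l : Filter ι} {u : ι → Z} {z : Z}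
    (h : ∀ f ∈ F, Tendsto (fun i => f (u i)) l (𝓝 (f z))) :
    Tendsto (fun i => em F (u i)) l (𝓝 (em F z)) :=
  tendsto_subtype_rng.2 (tendsto_pi_nhds.2 fun f => h f.1 f.2)

theorem em_cont {F : Set (Z → ℝ)} {B : Type} [TopologicalSpace B] {u : B → Z}
    (h : ∀ f ∈ F, Continuous fun i => f (u i)) : Continuous fun i => em F (u i) :=
  Continuous.subtype_mk (continuous_pi fun f : F => h f.1 f.2) _

def co {F : Set (Z → ℝ)} (f : Z → ℝ) (h : f ∈ F) : C(Sp F, ℝ) :=
  ⟨fun s => s.1 ⟨f, h⟩, (continuous_apply _).comp continuous_subtype_val⟩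

def half {F G : Set (Z → ℝ)} (L : (Z → ℝ) →ₗ[ℝ] (Z → ℝ))
    (h : ∀ f : C(Sp F, ℝ), L (fun z => f (em F z)) ∈ G) : C(Sp F, ℝ) →ₗ[ℝ] C(Sp G, ℝ) where
  toFun f := co _ (h f)
  map_add' f g := by
    ext s; obtain ⟨z, rfl⟩ := em_surj s
    exact congrFun (L.map_add (fun z => f (em F z)) fun z => g (em F z)) z
  map_smul' a f := by
    ext s; obtain ⟨z, rfl⟩ := em_surj s
    exact congrFun (L.map_smul a fun z => f (em F z)) z

theorem half_cont {F G : Set (Z → ℝ)} {L : (Z → ℝ) →ₗ[ℝ] (Z → ℝ)} (hL : Continuous L)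
    (h : ∀ f : C(Sp F, ℝ), L (fun z => f (em F z)) ∈ G) :
    @Continuous C(Sp F, ℝ) C(Sp G, ℝ)
      (TopologicalSpace.induced (fun f : C(Sp F, ℝ) => (f : Sp F → ℝ)) inferInstance)
      (TopologicalSpace.induced (fun f : C(Sp G, ℝ) => (f : Sp G → ℝ)) inferInstance)
      (half L h) := by
  refine continuous_induced_rng.2 ?_
  let _ := TopologicalSpace.induced (fun f : C(Sp F, ℝ) => (f : Sp F → ℝ)) inferInstance
  refine continuous_pi fun s => ?_
  obtain ⟨z, rfl⟩ := em_surj s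
  exact (continuous_apply z).comp (hL.comp (continuous_pi fun z' =>
    (continuous_apply (em F z')).comp continuous_induced_dom))

end weak

section ext
variable {A W : Type} [TopologicalSpace A] [TopologicalSpace W]

def Fam (c : W × ℕ → (A → ℝ) →ₗ[ℝ] ℝ) : Set (A ⊕ W × ℕ → ℝ) :=
  {f | Continuous (fun a => f (.inl a)) ∧ (∀ n, Continuous fun v => f (.inr (v, n))) ∧
    Tendsto (fun p => f (.inr p) - c p fun a => f (.inl a)) (comap Prod.snd atTop) (𝓝 0)}

def tr (c d : W × ℕ → (A → ℝ) →ₗ[ℝ] ℝ) : (A ⊕ W × ℕ → ℝ) →ₗ[ℝ] (A ⊕ W × ℕ → ℝ) where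
  toFun f := Sum.elim (fun a => f (.inl a))
    fun p => f (.inr p) - (c p fun a => f (.inl a)) + d p fun a => f (.inl a)
  map_add' f g := by
    funext z
    rcases z with a | p
    · rfl
    · have e : (fun a => (f + g) (.inl a)) = (fun a => f (.inl a)) + fun a => g (.inl a) := rfl
      simp only [Sum.elim_inr, e, map_add]; simp only [Pi.add_apply, Sum.elim_inr]; ring
  map_smul' r f := by
    funext z
    rcases z with a | p
    · rfl
    · have e : (fun a => (r • f) (.inl a)) = r • fun a => f (.inl a) := rfl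
      simp only [Sum.elim_inr, e, map_smul]
      simp only [Pi.smul_apply, Sum.elim_inr, smul_eq_mul, RingHom.id_apply]; ring

omit [TopologicalSpace A] [TopologicalSpace W] in
theorem tr_tr (c d : W × ℕ → (A → ℝ) →ₗ[ℝ] ℝ) (f : A ⊕ W × ℕ → ℝ) : tr d c (tr c d f) = f := by
  funext z
  rcases z with a | p
  · rfl
  · simp [tr]

omit [TopologicalSpace A] [TopologicalSpace W] in
theorem tr_cont {c d : W × ℕ → (A → ℝ) →ₗ[ℝ] ℝ} (hc : ∀ p, Continuous (c p))
    (hd : ∀ p, Continuous (d p)) : Continuous (tr c d) := by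
  refine continuous_pi fun z => ?_
  have h : Continuous fun (f : A ⊕ W × ℕ → ℝ) a => f (.inl a) := by fun_prop
  rcases z with a | p
  · exact continuous_apply (Sum.inl a)
  · exact ((continuous_apply (Sum.inr p)).sub ((hc p).comp h)).add ((hd p).comp h)

theorem tr_mem {c d : W × ℕ → (A → ℝ) →ₗ[ℝ] ℝ}
    (hc : ∀ n h, Continuous h → Continuous fun v => c (v, n) h)
    (hd : ∀ n h, Continuous h → Continuous fun v => d (v, n) h) {f : A ⊕ W × ℕ → ℝ}
    (hf : f ∈ Fam c) : tr c d f ∈ Fam d :=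
  ⟨hf.1, fun n => ((hf.2.1 n).sub (hc n _ hf.1)).add (hd n _ hf.1), by
    refine hf.2.2.congr fun p => ?_
    simp [tr]⟩

theorem leq {c d : W × ℕ → (A → ℝ) →ₗ[ℝ] ℝ} (hc : ∀ p, Continuous (c p))
    (hd : ∀ p, Continuous (d p)) (hc' : ∀ n h, Continuous h → Continuous fun v => c (v, n) h)
    (hd' : ∀ n h, Continuous h → Continuous fun v => d (v, n) h)
    (h1 : ∀ f : C(Sp (Fam c), ℝ), (fun z => f (em _ z)) ∈ Fam c)
    (h2 : ∀ f : C(Sp (Fam d), ℝ), (fun z => f (em _ z)) ∈ Fam d) :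
    ∃ T : C(Sp (Fam c), ℝ) ≃ₗ[ℝ] C(Sp (Fam d), ℝ),
    @Continuous _ _
      (TopologicalSpace.induced (fun f : C(Sp (Fam c), ℝ) => (f : Sp (Fam c) → ℝ)) inferInstance)
      (TopologicalSpace.induced (fun f : C(Sp (Fam d), ℝ) => (f : Sp (Fam d) → ℝ)) inferInstance)
      T ∧ @Continuous _ _
      (TopologicalSpace.induced (fun f : C(Sp (Fam d), ℝ) => (f : Sp (Fam d) → ℝ)) inferInstance)
      (TopologicalSpace.induced (fun f : C(Sp (Fam c), ℝ) => (f : Sp (Fam c) → ℝ)) inferInstance)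
      T.symm := by
  refine ⟨LinearEquiv.ofLinearMap (half (tr c d) fun f => tr_mem hc' hd' (h1 f))
    (half (tr d c) fun f => tr_mem hd' hc' (h2 f)) ?_ ?_, half_cont (tr_cont hc hd) _,
    half_cont (tr_cont hd hc) _⟩
  · ext f s; obtain ⟨z, rfl⟩ := em_surj s
    exact congrFun (tr_tr d c fun z => f (em _ z)) z
  · ext f s; obtain ⟨z, rfl⟩ := em_surj s
    exact congrFun (tr_tr c d fun z => f (em _ z)) z

theorem wedge_mem (a0 : A) (f : C(Sp (Fam fun _ : W × ℕ => LinearMap.proj (R := ℝ) a0), ℝ)) :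
    (fun z => f (em _ z)) ∈ Fam fun _ : W × ℕ => LinearMap.proj (R := ℝ) a0 := by
  refine ⟨f.continuous.comp (em_cont fun g hg => hg.1),
    fun n => f.continuous.comp (em_cont fun g hg => hg.2.1 n), ?_⟩
  have := em_tendsto (F := Fam fun _ : W × ℕ => LinearMap.proj (R := ℝ) a0) (u := Sum.inr)
    (z := Sum.inl a0) fun g hg => tendsto_sub_nhds_zero_iff.1 hg.2.2
  exact tendsto_sub_nhds_zero_iff.2 ((f.continuous.tendsto _).comp this)

theorem wedge_cc [CountablyCompactSpace A] [CountablyCompactSpace W] (a0 : A)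
    (u : ℕ → Sp (Fam fun _ : W × ℕ => LinearMap.proj (R := ℝ) a0)) :
    ∃ x, MapClusterPt x atTop u := by
  have sub : ∀ {B : Type} [TopologicalSpace B] [CountablyCompactSpace B] (j : B → A ⊕ W × ℕ),
      (Continuous fun b => em (Fam fun _ : W × ℕ => LinearMap.proj (R := ℝ) a0) (j b)) →
      (∃ᶠ n in atTop, ∃ b, em _ (j b) = u n) → ∃ x, MapClusterPt x atTop u := by
    intro B _ _ j hj h
    obtain ⟨φ, h1, h2⟩ := extraction_of_frequently_atTop h
    choose b hb using h2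
    obtain ⟨x, -, hx⟩ := (CountablyCompactSpace.isCountablyCompact_univ (E := B)).seq_clusterPt b
      (by simp)
    refine ⟨em _ (j x), MapClusterPt.of_comp h1.tendsto_atTop ?_⟩
    convert hx.continuousAt_comp hj.continuousAt using 1
    funext n; exact (hb n).symm
  by_cases h1 : ∃ᶠ n in atTop, ∃ b, em _ (.inl b) = u n
  · exact sub _ (em_cont fun g hg => hg.1) h1
  by_cases h2 : ∃ m, ∃ᶠ n in atTop, ∃ b, em _ (.inr (b, m)) = u n
  · obtain ⟨m, h⟩ := h2
    exact sub _ (em_cont fun g hg => hg.2.1 m) h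
  push Not at h1 h2
  choose z hz using fun n => em_surj (u n)
  let p : ℕ → A ⊕ W × ℕ → ℕ := fun n z => z.elim (fun _ => n) Prod.snd
  have hp : Tendsto (fun n => p n (z n)) atTop atTop := by
    refine tendsto_atTop.2 fun N => ?_
    filter_upwards [h1, (eventually_all_finset (Finset.range N)).2 fun m _ => h2 m] with n a b
    rcases hzn : z n with a' | ⟨v, m⟩
    · exact absurd (hzn ▸ hz n) (a a')
    · exact not_lt.1 fun hm => b m (Finset.mem_range.2 hm) v (hzn ▸ hz n)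
  refine ⟨em _ (.inl a0), Tendsto.mapClusterPt ?_⟩
  rw [← funext hz]
  refine em_tendsto fun g hg => fun s hs => ?_
  obtain ⟨t, ht, hts⟩ := mem_comap.1 (tendsto_sub_nhds_zero_iff.1 hg.2.2 hs)
  refine mem_map.2 ?_
  filter_upwards [h1, mem_map.1 (hp ht)] with n a b
  show g (z n) ∈ s
  rcases hzn : z n with a' | q
  · exact absurd (hzn ▸ hz n) (a a')
  · have : q.2 ∈ t := by simpa [p, hzn] using b
    simpa [hzn] using hts this

end ext

end Pool.Agent.H17.CC
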