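import Pool.Agent.H17.CCa

set_option autoImplicit false
open Set Topology Filter MeasureTheory
open scoped ENNReal

namespace Pool.Agent.H17.CC

noncomputable def wt (m : ℕ) : ℝ := 1 / (m + 1)

theorem wt_pos (m : ℕ) : 0 < wt m := by unfold wt; positivity

noncomputable def lam : Measure ℕ := Measure.count.withDensity fun m => ENNReal.ofReal (wt m)

theorem lam_one (m : ℕ) : lam {m} = ENNReal.ofReal (wt m) := by
  simp [lam, withDensity_apply _ (measurableSet_singleton m)]

abbrev I := {B : Set ℕ // lam B ≠ ⊤}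

open Classical in
noncomputable def sh (m : ℕ) : I → Bool := fun B => decide (m ∈ B.1)

def R (ε : ℝ≥0∞) (k : I → Bool) : Prop := ∃ A, lam A ≤ ε ∧ ∀ B : I, A ⊆ B.1 → k B = true

def XK : Set (I → Bool) := {k | (∃ m, k = sh m) ∨ ∀ ε, 0 < ε → R ε k}

theorem R_sh (m : ℕ) : R (ENNReal.ofReal (wt m)) (sh m) :=
  ⟨{m}, (lam_one m).le, fun B hB => by simpa [sh] using hB⟩

theorem XK_ne {k : I → Bool} (h : k ∈ XK) : ∃ B, k B = true := by
  obtain ⟨ε, hε, A, h1, h2⟩ : ∃ ε, ε ≠ ⊤ ∧ R ε k := by
    rcases h with ⟨m, rfl⟩ | h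
    · exact ⟨_, ENNReal.ofReal_ne_top, R_sh m⟩
    · exact ⟨1, by simp, h 1 one_pos⟩
  exact ⟨⟨A, ne_top_of_le_ne_top hε h1⟩, h2 _ subset_rfl⟩

theorem cl_val {ι : Type} {x : ι → Bool} {u : ℕ → ι → Bool} (h : MapClusterPt x atTop u) (i : ι) :
    ∃ᶠ n in atTop, u n i = x i :=
  h.frequently (p := fun y => y i = x i)
    (((isOpen_discrete {x i}).preimage (f := fun y : ι → Bool => y i)
      (continuous_apply i)).mem_nhds (mem_singleton _))

theorem XK_cc : IsCountablyCompact XK := by
  refine isCountablyCompact_iff_seq_clusterPt.2 fun k hk => ?_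
  by_cases h : ∃ m, ∃ᶠ n in atTop, k n = sh m
  · obtain ⟨m, hm⟩ := h
    exact ⟨sh m, Or.inl ⟨m, rfl⟩, mapClusterPt_iff_frequently.2 fun s hs =>
      hm.mono fun n hn => hn ▸ mem_of_mem_nhds hs⟩
  push Not at h
  have hR : ∀ j : ℕ, ∀ᶠ n in atTop, R (2⁻¹ ^ j) (k n) := fun j => by
    have h0 : (0 : ℝ≥0∞) < 2⁻¹ ^ j := ENNReal.pow_pos (by simp) j
    have : Tendsto (fun m => ENNReal.ofReal (wt m)) atTop (𝓝 0) := by
      simpa [wt] using ENNReal.tendsto_ofReal (tendsto_one_div_add_atTop_nhds_zero_nat (𝕜 := ℝ))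
    obtain ⟨N, hN⟩ := eventually_atTop.1 (this.eventually (ge_mem_nhds h0))
    filter_upwards [hk, (eventually_all_finset (Finset.range N)).2 fun m _ => h m] with n a b
    rcases a with ⟨m, hm⟩ | a
    · obtain ⟨A, h1, h2⟩ := R_sh m
      exact ⟨A, h1.trans (hN m (not_lt.1 fun hh => b m (Finset.mem_range.2 hh) hm)), hm ▸ h2⟩
    · exact a _ h0
  obtain ⟨φ, h1, h2⟩ := extraction_forall_of_eventually hR
  choose A hA hB using h2
  obtain ⟨x, hx⟩ := exists_clusterPt_of_compactSpace (map (k ∘ φ) atTop)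
  refine ⟨x, Or.inr fun ε hε => ?_, MapClusterPt.of_comp h1.tendsto_atTop hx⟩
  obtain ⟨N, hN⟩ := ((ENNReal.tendsto_sum_nat_add (fun j => 2⁻¹ ^ j)
    (by rw [ENNReal.tsum_geometric_two]; simp)).eventually (ge_mem_nhds hε)).exists
  refine ⟨⋃ j, A (j + N), (measure_iUnion_le _).trans
    ((ENNReal.tsum_le_tsum fun j => hA _).trans hN), fun B hAB => ?_⟩
  obtain ⟨n, h3, h4⟩ := ((cl_val hx B).and_eventually (eventually_ge_atTop N)).exists
  rw [← h3]
  refine hB n B (Subset.trans ?_ hAB)
  rw [← Nat.sub_add_cancel h4]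
  exact subset_iUnion (fun j => A (j + N)) _

def W0 : Set (ℝ → Bool) := {v | {i | v i = true}.Countable}

def WW : Set (ℝ → Bool) := W0 ∪ {fun _ => true}

def AA : Set ((ℝ → Bool) × (I → Bool)) := W0 ×ˢ univ ∪ {fun _ => true} ×ˢ XK

theorem W0_cl {x : ℝ → Bool} {u : ℕ → ℝ → Bool} (h : MapClusterPt x atTop u)
    (hu : ∀ᶠ n in atTop, u n ∈ W0) : x ∈ W0 := by
  refine (Countable.biUnion (to_countable {n | u n ∈ W0}) fun n hn => hn).mono fun i hi => ?_
  obtain ⟨n, h1, h2⟩ := ((cl_val h i).and_eventually hu).exists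
  exact mem_biUnion h2 (h1.trans hi)

theorem W0_cc : IsCountablyCompact (W0 ×ˢ (univ : Set (I → Bool))) := by
  refine isCountablyCompact_iff_seq_clusterPt.2 fun k hk => ?_
  obtain ⟨x, hx⟩ := exists_clusterPt_of_compactSpace (map k atTop)
  exact ⟨x, ⟨W0_cl (MapClusterPt.continuousAt_comp continuous_fst.continuousAt hx)
    (hk.mono fun n h => h.1), trivial⟩, hx⟩

instance : CountablyCompactSpace AA := by
  refine isCountablyCompact_iff_countablyCompactSpace.1 (W0_cc.union ?_)
  rw [singleton_prod]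
  exact XK_cc.image (by fun_prop)

instance : CountablyCompactSpace WW := by
  refine isCountablyCompact_iff_countablyCompactSpace.1
    (IsCountablyCompact.union ?_ isCountablyCompact_singleton)
  simpa [fst_image_prod] using W0_cc.image continuous_fst

theorem W0_ne {v : ℝ → Bool} (h : v ∈ W0) : ∃ i, v i = false := by
  by_contra hn
  push Not at hn
  exact not_countable_univ (Countable.mono (fun i _ => by simpa using hn i) h)

theorem W0_dense : Dense {v : WW | v.1 ∈ W0} := by
  classical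
  refine Subtype.dense_iff.2 ?_
  have : Subtype.val '' {v : WW | v.1 ∈ W0} = W0 :=
    subset_antisymm (by rintro _ ⟨v, h, rfl⟩; exact h) fun v h => ⟨⟨v, Or.inl h⟩, h, rfl⟩
  rw [this]
  rintro v (h | rfl)
  · exact subset_closure h
  refine mem_closure_of_tendsto (b := atTop) (f := fun s : Finset ℝ => fun i => decide (i ∈ s))
    (tendsto_pi_nhds.2 fun i => tendsto_const_nhds.congr' ?_) (Eventually.of_forall fun s => ?_)
  · filter_upwards [eventually_ge_atTop {i}] with s hs
    simpa using hs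
  · simpa [W0] using s.countable_toSet

noncomputable def pt (v : WW) (m : ℕ) : AA := ⟨(v.1, sh m), v.2.imp (fun h => ⟨h, trivial⟩)
  fun h => ⟨h, Or.inl ⟨m, rfl⟩⟩⟩

noncomputable def Hn (n : ℕ) : ℝ := ∑ m ∈ Finset.range (n + 1), wt m

theorem Hn_pos (n : ℕ) : 0 < Hn n := Finset.sum_pos (fun m _ => wt_pos m) (by simp)

theorem Hn_top : Tendsto Hn atTop atTop :=
  Real.tendsto_sum_range_one_div_nat_succ_atTop.comp (tendsto_add_atTop_nat 1)

noncomputable def nu (p : WW × ℕ) : (AA → ℝ) →ₗ[ℝ] ℝ :=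
  ∑ m ∈ Finset.range (p.2 + 1), (wt m / Hn p.2) • LinearMap.proj (pt p.1 m)

theorem nu_apply (p : WW × ℕ) (h : AA → ℝ) :
    nu p h = (∑ m ∈ Finset.range (p.2 + 1), wt m * h (pt p.1 m)) / Hn p.2 := by
  simp only [nu, LinearMap.sum_apply, LinearMap.smul_apply, LinearMap.proj_apply, smul_eq_mul,
    Finset.sum_div]
  exact Finset.sum_congr rfl fun m _ => by ring

theorem est (B : I) {n : ℕ} {x : ℕ → ℝ} {c ε M : ℝ} (hε : 0 ≤ ε) (h1 : ∀ m, |x m - c| ≤ M)
    (h2 : ∀ m, m ∉ B.1 → |x m - c| ≤ ε) :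
    |(∑ m ∈ Finset.range (n + 1), wt m * x m) / Hn n - c| ≤ ε + M * lam.real B / Hn n := by
  classical
  have hM : 0 ≤ M := (abs_nonneg _).trans (h1 0)
  have hH := Hn_pos n
  have e : (∑ m ∈ Finset.range (n + 1), wt m * x m) / Hn n - c =
      (∑ m ∈ Finset.range (n + 1), wt m * (x m - c)) / Hn n := by
    simp only [mul_sub, Finset.sum_sub_distrib, ← Finset.sum_mul]
    change _ = (_ - Hn n * c) / _
    field_simp
  rw [e, abs_div, abs_of_pos hH, div_le_iff₀ hH, add_mul, div_mul_cancel₀ _ hH.ne']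
  have k : ∑ m ∈ Finset.range (n + 1) with m ∈ B.1, wt m ≤ lam.real B := by
    rw [Measure.real, ← ENNReal.ofReal_le_iff_le_toReal B.2,
      ENNReal.ofReal_sum_of_nonneg fun m _ => (wt_pos m).le]
    simp_rw [← lam_one]
    rw [sum_measure_singleton]
    exact measure_mono fun m hm => (Finset.mem_filter.1 hm).2
  calc _ ≤ ∑ m ∈ Finset.range (n + 1), (ε * wt m + M * if m ∈ B.1 then wt m else 0) := by
        refine (Finset.abs_sum_le_sum_abs _ _).trans (Finset.sum_le_sum fun m _ => ?_)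
        rw [abs_mul, abs_of_pos (wt_pos m)]
        split_ifs with hm
        · nlinarith [h1 m, wt_pos m]
        · nlinarith [h2 m hm, wt_pos m]
    _ ≤ _ := by
        rw [Finset.sum_add_distrib, ← Finset.mul_sum, ← Finset.mul_sum, ← Finset.sum_filter]
        exact add_le_add le_rfl (mul_le_mul_of_nonneg_left k hM)

theorem nu_lim {h : AA → ℝ} (hh : Continuous h) {ι : Type} {l : Filter ι} {v : ι → WW}
    {n : ι → ℕ} (hn : Tendsto n l atTop) {a : ℝ → Bool} (ha : a ∈ W0)
    (hv : Tendsto (fun i => (v i).1) l (𝓝 a)) :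
    Tendsto (fun i => nu (v i, n i) h) l (𝓝 (h ⟨(a, fun _ => false), Or.inl ⟨ha, trivial⟩⟩)) := by
  classical
  set z : AA := ⟨(a, fun _ => false), Or.inl ⟨ha, trivial⟩⟩
  obtain ⟨M, hM⟩ := (((CountablyCompactSpace.isCountablyCompact_univ (E := AA)).image
    ((hh.sub (continuous_const (y := h z))).abs)).isCompact).bddAbove
  refine Metric.tendsto_nhds.2 fun ε hε => ?_
  have h1 : {y | |h y - h z| < ε / 2} ∈ 𝓝 z :=
    (isOpen_lt (hh.sub continuous_const).abs continuous_const).mem_nhds (by simpa using hε)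
  obtain ⟨t, ht, hts⟩ := (mem_nhds_subtype _ _ _).1 h1
  obtain ⟨t1, ht1, t2, ht2, h12⟩ := mem_nhds_prod_iff.1 ht
  rw [nhds_pi] at ht2
  obtain ⟨J, hJ, u, hu, hJu⟩ := mem_pi.1 ht2
  let B : I := ⟨⋃ C ∈ J, C.1, (measure_biUnion_lt_top hJ fun C _ => C.2.lt_top).ne⟩
  have h2 : Tendsto (fun i => M * lam.real B / Hn (n i)) l (𝓝 0) :=
    (Hn_top.comp hn).const_div_atTop _
  filter_upwards [hv ht1, h2.eventually (gt_mem_nhds (half_pos hε))] with i hi hi2
  rw [nu_apply, Real.dist_eq]
  refine (est B (n := n i) (x := fun m => h (pt (v i) m)) (c := h z) (half_pos hε).le (M := M)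
    (fun m => hM ⟨_, trivial, rfl⟩) fun m hm => le_of_lt ?_).trans_lt (by linarith)
  refine @hts (pt (v i) m) (h12 ⟨hi, hJu fun C hC => ?_⟩)
  have : sh m C = false := by
    simp only [sh, decide_eq_false_iff_not]
    exact fun hh => hm (mem_biUnion hC hh)
  simp only [pt, this]
  exact mem_of_mem_nhds (hu C)

theorem nu_cont (n : ℕ) (h : AA → ℝ) (hh : Continuous h) : Continuous fun v => nu (v, n) h := by
  simp only [nu_apply]
  refine (continuous_finsetSum _ fun m _ => continuous_const.mul (hh.comp ?_)).div_const _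
  exact Continuous.subtype_mk (by fun_prop) _

theorem nu_cont' (p : WW × ℕ) : Continuous (nu p) := by
  simp only [funext (nu_apply p)]
  fun_prop

theorem nu_mem (f : C(Sp (Fam nu), ℝ)) : (fun z => f (em _ z)) ∈ Fam nu := by
  have c1 : Continuous fun a => f (em _ (.inl a)) := f.continuous.comp (em_cont fun g hg => hg.1)
  have c2 : ∀ n, Continuous fun v => f (em _ (.inr (v, n))) :=
    fun n => f.continuous.comp (em_cont fun g hg => hg.2.1 n)
  refine ⟨c1, c2, Metric.tendsto_nhds.2 fun ε hε => ?_⟩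
  by_contra hn
  have : ∃ᶠ n in atTop, ∃ v : WW, v.1 ∈ W0 ∧
      ε / 2 < |f (em _ (.inr (v, n))) - nu (v, n) fun a => f (em _ (.inl a))| := by
    by_contra h'
    refine hn (eventually_comap.2 ((not_frequently.1 h').mono ?_))
    rintro n hh ⟨v, _⟩ rfl
    by_contra h2
    obtain ⟨v', h3, h4⟩ := W0_dense.inter_open_nonempty _ (isOpen_lt (continuous_const
      (y := ε / 2)) ((c2 _).sub (nu_cont _ _ c1)).abs) ⟨v, by
        simp only [Real.dist_eq, sub_zero, not_lt] at h2
        exact (half_lt_self hε).trans_le h2⟩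
    exact hh ⟨v', h4, h3⟩
  obtain ⟨φ, h1, h2⟩ := extraction_of_frequently_atTop this
  choose v hv hv' using h2
  obtain ⟨a, ha⟩ := exists_clusterPt_of_compactSpace (map (fun n => (v n).1) atTop)
  have ha0 : a ∈ W0 := W0_cl ha (Eventually.of_forall hv)
  obtain ⟨U, hU, hUa⟩ := mapClusterPt_iff_ultrafilter.1 ha
  have hφ : Tendsto φ U atTop := h1.tendsto_atTop.mono_left hU
  have k1 := em_tendsto (F := Fam nu) (l := U) (u := fun i => .inr (v i, φ i))
    (z := .inl ⟨(a, fun _ => false), Or.inl ⟨ha0, trivial⟩⟩) fun g hg => by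
      have := (hg.2.2.comp (f := fun i => (v i, φ i)) (tendsto_comap_iff.2 hφ)).add
        (nu_lim hg.1 hφ ha0 hUa)
      simpa using this
  have k2 := (((f.continuous.tendsto _).comp k1).sub (nu_lim c1 hφ ha0 hUa)).abs
  rw [sub_self, abs_zero] at k2
  obtain ⟨i, hi⟩ := (k2.eventually (gt_mem_nhds (half_pos hε))).exists
  exact lt_asymm hi (hv' i)

theorem nu_not (y : Sp (Fam nu)) :
    ¬ MapClusterPt y atTop fun n => em (Fam nu) (.inr (⟨fun _ => true, Or.inr rfl⟩, n)) := by
  classical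
  intro hy
  obtain ⟨z, rfl⟩ := em_surj y
  have key : ∀ g ∈ Fam nu, ∀ c : ℝ,
      (∀ᶠ n in atTop, g (.inr (⟨fun _ => true, Or.inr rfl⟩, n)) = c) → g z = c := by
    intro g hg c hc
    by_contra hne
    obtain ⟨n, h1, h2⟩ := ((hy.frequently (p := fun s => co g hg s ≠ c)
      ((isOpen_ne_fun (co g hg).continuous continuous_const).mem_nhds hne)).and_eventually hc).exists
    exact h1 h2
  have cb : Continuous fun b : Bool => if b = true then (1 : ℝ) else 0 :=
    continuous_of_discreteTopology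
  rcases z with ⟨⟨v, k⟩, h | h⟩ | ⟨v, m⟩
  · obtain ⟨i, hi⟩ := W0_ne h.1
    have := key (Sum.elim (fun a => if a.1.1 i = true then 1 else 0)
      fun p => if p.1.1 i = true then 1 else 0) ⟨cb.comp (f := fun a : AA => a.1.1 i) (by fun_prop),
        fun n => cb.comp (f := fun a : WW => a.1 i)
          ((continuous_apply i).comp continuous_subtype_val), by
        refine tendsto_const_nhds.congr fun p => ?_
        rw [nu_apply]
        change (0 : ℝ) = (if p.1.1 i = true then 1 else 0) - (∑ m ∈ Finset.range (p.2 + 1),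
          wt m * if p.1.1 i = true then 1 else 0) / Hn p.2
        rw [← Finset.sum_mul]
        change _ = _ - Hn p.2 * _ / _
        field_simp [(Hn_pos p.2).ne']; simp⟩ 1 (by simp)
    simp only [Sum.elim_inl] at this
    simp only at hi
    simp [hi] at this
  · obtain ⟨B, hB⟩ := XK_ne h.2
    have := key (Sum.elim (fun a => if a.1.2 B = true then 1 else 0) fun _ => 0)
      ⟨cb.comp (f := fun a : AA => a.1.2 B) (by fun_prop), fun n => continuous_const, by
        have h2 : Tendsto (fun p : WW × ℕ => 1 * lam.real B / Hn p.2) (comap Prod.snd atTop)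
          (𝓝 0) := (Hn_top.comp tendsto_comap).const_div_atTop _
        refine squeeze_zero_norm (fun p => ?_) h2
        have := est B (n := p.2) (x := fun m => if sh m B = true then 1 else 0) (c := 0) (M := 1)
          le_rfl (fun m => by split_ifs <;> simp) fun m hm => by simp [sh, hm]
        rw [nu_apply, Sum.elim_inr, zero_sub, norm_neg]
        rw [sub_zero, zero_add] at this
        exact this⟩ 0 (by simp)
    simp only at hB
    simp [hB] at this
  · have := key (Sum.elim (fun _ => 0) fun p => if p.2 = m then 1 else 0)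
      ⟨continuous_const, fun n => continuous_const (y := if n = m then (1 : ℝ) else 0), by
        refine tendsto_const_nhds.congr' (eventually_comap.2
          ((eventually_gt_atTop m).mono fun n hn p hp => ?_))
        simp [nu_apply, hp, hn.ne']⟩ 0
      ((eventually_gt_atTop m).mono fun n hn => by simp [hn.ne'])
    simp at this

end Pool.Agent.H17.CC
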