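import Pool.Agent.H17.CCb

set_option autoImplicit false
open Set Topology Filter

namespace Pool.Agent.H17.CD
open Pool.Agent.H17.CC

section ext
variable {A W : Type} [TopologicalSpace A] [TopologicalSpace W]

def Fam (c : W × ℝ → A) : Set (A ⊕ W × ℝ → ℝ) :=
  {f | Continuous (fun a => f (.inl a)) ∧ (∀ n, Continuous fun v => f (.inr (v, n))) ∧
    Tendsto (fun p => f (.inr p) - f (.inl (c p))) (comap Prod.snd cofinite) (𝓝 0)}

def tr (c d : W × ℝ → A) : (A ⊕ W × ℝ → ℝ) →ₗ[ℝ] (A ⊕ W × ℝ → ℝ) where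
  toFun f := Sum.elim (fun a => f (.inl a))
    fun p => f (.inr p) - f (.inl (c p)) + f (.inl (d p))
  map_add' f g := by
    funext z
    rcases z with a | p
    · rfl
    · simp only [Pi.add_apply, Sum.elim_inr]; ring
  map_smul' r f := by
    funext z
    rcases z with a | p
    · rfl
    · simp only [Pi.smul_apply, Sum.elim_inr, smul_eq_mul, RingHom.id_apply]; ring

omit [TopologicalSpace A] [TopologicalSpace W] in
theorem tr_tr (c d : W × ℝ → A) (f : A ⊕ W × ℝ → ℝ) : tr d c (tr c d f) = f := by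
  funext z
  rcases z with a | p
  · rfl
  · simp [tr]

omit [TopologicalSpace A] [TopologicalSpace W] in
theorem tr_cont (c d : W × ℝ → A) : Continuous (tr c d) := by
  refine continuous_pi fun z => ?_
  rcases z with a | p
  · exact continuous_apply (Sum.inl a)
  · exact ((continuous_apply (Sum.inr p)).sub (continuous_apply (Sum.inl (c p)))).add
      (continuous_apply (Sum.inl (d p)))

theorem tr_mem {c d : W × ℝ → A} (hc : ∀ n, Continuous fun v => c (v, n))
    (hd : ∀ n, Continuous fun v => d (v, n)) {f : A ⊕ W × ℝ → ℝ}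
    (hf : f ∈ Fam c) : tr c d f ∈ Fam d :=
  ⟨hf.1, fun n => ((hf.2.1 n).sub (hf.1.comp (hc n))).add (hf.1.comp (hd n)), by
    refine hf.2.2.congr fun p => ?_
    simp [tr]⟩

theorem wedge_mem (a0 : A) (f : C(Sp (Fam fun _ : W × ℝ => a0), ℝ)) :
    (fun z => f (em _ z)) ∈ Fam fun _ : W × ℝ => a0 := by
  refine ⟨f.continuous.comp (em_cont fun g hg => hg.1),
    fun n => f.continuous.comp (em_cont fun g hg => hg.2.1 n), ?_⟩
  have := em_tendsto (F := Fam fun _ : W × ℝ => a0) (u := Sum.inr)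
    (z := Sum.inl a0) fun g hg => tendsto_sub_nhds_zero_iff.1 hg.2.2
  exact tendsto_sub_nhds_zero_iff.2 ((f.continuous.tendsto _).comp this)

theorem wedge_cpt (a0 : A) {B : Type} [TopologicalSpace B] [CompactSpace B] {j : B → W}
    (hj : Continuous j) : IsCompact (insert (em (Fam fun _ : W × ℝ => a0) (.inl a0))
      (range fun q : Σ _ : ℝ, B => em _ (.inr (j q.2, q.1)))) := by
  refine Tendsto.isCompact_insert_range_of_cocompact ?_
    (continuous_sigma fun n => em_cont fun g hg => (hg.2.1 n).comp hj)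
  refine (em_tendsto (F := Fam fun _ : W × ℝ => a0) (u := Sum.inr)
    (z := Sum.inl a0) fun g hg => tendsto_sub_nhds_zero_iff.1 hg.2.2).comp
    (f := fun q : Σ _ : ℝ, B => (j q.2, q.1)) (tendsto_comap_iff.2 fun s hs => ?_)
  refine mem_cocompact.2 ⟨⋃ n ∈ sᶜ, range (Sigma.mk n), Finite.isCompact_biUnion hs fun n _ =>
    isCompact_range continuous_sigmaMk, fun q hq => ?_⟩
  by_contra h
  exact hq (mem_biUnion h ⟨q.2, rfl⟩)

theorem line_mem {c : W × ℝ → A} {h : W → ℝ} (hh : Continuous h) (γ : ℝ) :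
    Sum.elim (fun _ => 0) (fun p : W × ℝ => if p.2 = γ then h p.1 else 0) ∈ Fam c := by
  refine ⟨continuous_const, fun n => ?_, tendsto_const_nhds.congr' (eventually_comap.2
    ((eventually_cofinite_ne γ).mono fun n hn p hp => by simp [hp, hn]))⟩
  by_cases hn : n = γ
  · simpa [hn] using hh
  · simpa [hn] using continuous_const

end ext

def Sm (m : ℕ) : Set (ℝ → Bool) := {v | ∀ s : Finset ℝ, s.card = m + 1 → ∃ i ∈ s, v i = false}

theorem Sm_fin {m : ℕ} {v : ℝ → Bool} (h : v ∈ Sm m) : {i | v i = true}.Finite := by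
  by_contra hn
  obtain ⟨s, hs, hc⟩ := Set.Infinite.exists_subset_card_eq hn (m + 1)
  obtain ⟨i, hi, hv⟩ := h s hc
  simp [show v i = true from hs hi] at hv

theorem Sm_closed (m : ℕ) : IsClosed (Sm m) := by
  have : Sm m = ⋂ s : {s : Finset ℝ // s.card = m + 1}, ⋃ i ∈ s.1, {v | v i = false} := by
    ext v; simp [Sm]
  rw [this]
  exact isClosed_iInter fun s => isClosed_biUnion_finset fun i _ =>
    isClosed_eq (continuous_apply i) continuous_const

def VV : Set (ℝ → Bool) := {v | v = (fun _ => true) ∨ {i | v i = true}.Finite}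

def w : VV := ⟨fun _ => true, Or.inl rfl⟩

open Classical in
noncomputable def e (γ : ℝ) : ℝ → Bool := fun i => decide (i = γ)

def AA : Set ((ℝ → Bool) × (ℝ → Bool)) := W0 ×ˢ univ ∪ {fun _ => true} ×ˢ range e

noncomputable def r (p : VV × ℝ) : AA := ⟨(p.1.1, e p.2), p.1.2.symm.imp
  (fun h => ⟨h.countable, trivial⟩) fun h => ⟨h, mem_range_self _⟩⟩

theorem r_cont (n : ℝ) : Continuous fun v => r (v, n) :=
  Continuous.subtype_mk (f := fun v : VV => (v.1, e n))
    (continuous_subtype_val.prodMk continuous_const) _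

open Classical in
theorem appr : Tendsto (fun s : Finset ℝ => fun i => decide (i ∈ s)) atTop
    (𝓝 fun _ : ℝ => true) := by
  refine tendsto_pi_nhds.2 fun i => tendsto_const_nhds.congr' ?_
  filter_upwards [eventually_ge_atTop {i}] with s hs
  simpa using hs

theorem AA_bdd {f : AA → ℝ} (hf : Continuous f) : ∃ M, ∀ a, |f a| ≤ M := by
  classical
  have h1 : IsCountablyCompact {a : AA | a.1.1 ∈ W0} := by
    refine isCountablyCompact_iff_seq_clusterPt.2 fun k hk => ?_
    obtain ⟨x, hx⟩ := exists_clusterPt_of_compactSpace (map (fun n => (k n).1) atTop)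
    have := W0_cl (MapClusterPt.continuousAt_comp continuous_fst.continuousAt hx) hk
    refine ⟨⟨x, Or.inl ⟨this, trivial⟩⟩, this, ?_⟩
    obtain ⟨U, hU, hUa⟩ := mapClusterPt_iff_ultrafilter.1 hx
    exact mapClusterPt_iff_ultrafilter.2 ⟨U, hU, tendsto_subtype_rng.2 hUa⟩
  obtain ⟨M, hM⟩ := (h1.image hf.abs).isCompact.bddAbove
  refine ⟨M, fun ⟨⟨v, k⟩, ha⟩ => ?_⟩
  rcases id ha with h | ⟨h, -⟩
  · exact hM ⟨_, h.1, rfl⟩
  · obtain rfl : v = fun _ => true := h
    have hs : ∀ s : Finset ℝ, (fun i => decide (i ∈ s)) ∈ W0 := fun s => by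
      simpa [W0] using s.countable_toSet
    refine le_of_tendsto' ((hf.abs.tendsto _).comp (f := fun s : Finset ℝ =>
      (⟨(fun i => decide (i ∈ s), k), Or.inl ⟨hs s, trivial⟩⟩ : AA))
      (tendsto_subtype_rng.2 (appr.prodMk_nhds tendsto_const_nhds))) fun s => hM ⟨_, hs s, rfl⟩

theorem Y_pc (a0 : AA) : ∃ S : ℕ → Set (Sp (Fam fun _ : VV × ℝ => a0)), (⋃ n, S n) = univ ∧
    ∀ n, ∀ f : C(S n, ℝ), ∃ M : ℝ, ∀ a, |f a| ≤ M := by
  have hs : ∀ m, insert (fun _ => true) (Sm m) ⊆ VV := by
    rintro m v (h | h)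
    · exact Or.inl h
    · exact Or.inr (Sm_fin h)
  refine ⟨fun n => Nat.casesOn n (range fun a => em _ (.inl a)) fun m => insert (em _ (.inl a0))
    (range fun q : Σ _ : ℝ, (insert (fun _ => true) (Sm m) : Set (ℝ → Bool)) =>
      em _ (.inr (inclusion (hs m) q.2, q.1))), eq_univ_of_forall fun s => ?_, fun n f => ?_⟩
  · obtain ⟨a | ⟨⟨v, h | h⟩, γ⟩, rfl⟩ := em_surj s
    · exact mem_iUnion.2 ⟨0, a, rfl⟩
    · exact mem_iUnion.2 ⟨1, Or.inr ⟨⟨γ, v, Or.inl h⟩, rfl⟩⟩
    · refine mem_iUnion.2 ⟨h.toFinset.card + 1, Or.inr ⟨⟨γ, v, Or.inr fun s hs => ?_⟩, rfl⟩⟩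
      by_contra hn
      push Not at hn
      have := Finset.card_le_card (s := s) (t := h.toFinset) fun i hi => by simpa using hn i hi
      omega
  · cases n with
    | zero =>
      obtain ⟨M, hM⟩ := AA_bdd (f := fun a => f ⟨em _ (.inl a), a, rfl⟩)
        (f.continuous.comp (Continuous.subtype_mk (em_cont fun g hg => hg.1) _))
      exact ⟨M, by rintro ⟨_, a, rfl⟩; exact hM a⟩
    | succ m =>
      have : CompactSpace (insert (fun _ => true) (Sm m) : Set (ℝ → Bool)) :=
        isCompact_iff_compactSpace.1 ((Sm_closed m).isCompact.insert _)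
      have := isCompact_iff_compactSpace.1 (wedge_cpt a0 (continuous_inclusion (hs m)))
      obtain ⟨M, hM⟩ := (isCompact_range f.continuous.abs).bddAbove
      exact ⟨M, fun a => hM ⟨a, rfl⟩⟩

theorem r_mem (f : C(Sp (Fam r), ℝ)) : (fun z => f (em _ z)) ∈ Fam r := by
  classical
  have c1 : Continuous fun a => f (em _ (.inl a)) := f.continuous.comp (em_cont fun g hg => hg.1)
  have c2 : ∀ n, Continuous fun v => f (em _ (.inr (v, n))) :=
    fun n => f.continuous.comp (em_cont fun g hg => hg.2.1 n)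
  refine ⟨c1, c2, Metric.tendsto_nhds.2 fun ε hε => ?_⟩
  by_contra hn
  have : {n | ∃ v : VV, v.1 ∈ W0 ∧
      ε / 2 < |f (em _ (.inr (v, n))) - f (em _ (.inl (r (v, n))))|}.Infinite := by
    intro h'
    refine hn (eventually_comap.2 (h'.eventually_cofinite_notMem.mono ?_))
    rintro _ hh ⟨⟨v, hv⟩, n⟩ rfl
    by_contra h2
    simp only [Real.dist_eq, sub_zero, not_lt] at h2
    rcases hv with rfl | hv
    · obtain ⟨s, hs⟩ := (((((c2 n).sub (c1.comp (r_cont n))).abs.tendsto _).comp
        (f := fun s : Finset ℝ => (⟨fun i => decide (i ∈ s), Or.inr (by simp)⟩ : VV))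
        (tendsto_subtype_rng.2 appr)).eventually (lt_mem_nhds ((half_lt_self hε).trans_le h2))).exists
      exact hh ⟨_, by simpa [W0] using s.countable_toSet, hs⟩
    · exact hh ⟨⟨v, Or.inr hv⟩, hv.countable, (half_lt_self hε).trans_le h2⟩
  let φ := this.natEmbedding
  choose v hv hv' using fun n => (φ n).2
  obtain ⟨a, ha⟩ := exists_clusterPt_of_compactSpace (map (fun n => (v n).1) atTop)
  have ha0 : a ∈ W0 := W0_cl ha (Eventually.of_forall hv)
  obtain ⟨U, hU, hUa⟩ := mapClusterPt_iff_ultrafilter.1 ha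
  have hφ : Tendsto (fun n => (φ n).1) U cofinite :=
    (Subtype.val_injective.comp φ.injective).tendsto_cofinite.mono_left
      (hU.trans Nat.cofinite_eq_atTop.ge)
  have k0 : Tendsto (fun i => r (v i, φ i)) U
      (𝓝 ⟨(a, fun _ => false), Or.inl ⟨ha0, trivial⟩⟩) := by
    refine tendsto_subtype_rng.2 (hUa.prodMk_nhds (tendsto_pi_nhds.2 fun i =>
      tendsto_const_nhds.congr' ((hφ.eventually (eventually_cofinite_ne i)).mono fun n hn => ?_)))
    simp [e, Ne.symm hn]
  have k1 := em_tendsto (F := Fam r) (l := U) (u := fun i => .inr (v i, φ i))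
    (z := .inl ⟨(a, fun _ => false), Or.inl ⟨ha0, trivial⟩⟩) fun g hg => by
      have := (hg.2.2.comp (f := fun i => (v i, (φ i).1)) (tendsto_comap_iff.2 hφ)).add
        ((hg.1.tendsto _).comp k0)
      simpa using this
  have k2 := (((f.continuous.tendsto _).comp k1).sub ((c1.tendsto _).comp k0)).abs
  rw [sub_self, abs_zero] at k2
  obtain ⟨i, hi⟩ := (k2.eventually (gt_mem_nhds (half_pos hε))).exists
  exact lt_asymm hi (hv' i)

theorem cb : Continuous fun b : Bool => if b = true then (1 : ℝ) else 0 :=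
  continuous_of_discreteTopology

theorem sepD (z : AA ⊕ VV × ℝ) : ∃ g ∈ Fam r, ∃ c, g z ≠ c ∧
    ∀ γ, z ≠ .inr (w, γ) → g (.inr (w, γ)) = c := by
  have co : ∀ i : ℝ, Sum.elim (fun a : AA => if a.1.1 i = true then (1 : ℝ) else 0)
      (fun p : VV × ℝ => if p.1.1 i = true then 1 else 0) ∈ Fam r := fun i =>
    ⟨cb.comp (f := fun a : AA => a.1.1 i) (by fun_prop), fun n => cb.comp
      (f := fun a : VV => a.1 i) ((continuous_apply i).comp continuous_subtype_val),
      tendsto_const_nhds.congr fun p => (sub_self _).symm⟩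
  rcases z with ⟨⟨v, k⟩, h | ⟨h, γ, hγ⟩⟩ | ⟨⟨v, h | h⟩, γ⟩
  · obtain ⟨i, hi⟩ := W0_ne h.1
    exact ⟨_, co i, 1, by simpa using hi, fun γ _ => by simp [w]⟩
  · refine ⟨Sum.elim (fun a => if a.1.2 γ = true then 1 else 0) fun _ => 0,
      ⟨cb.comp (f := fun a : AA => a.1.2 γ) (by fun_prop), fun _ => continuous_const,
      tendsto_const_nhds.congr' (eventually_comap.2 ((eventually_cofinite_ne γ).mono
        fun n hn p hp => by simp [r, e, hp, Ne.symm hn]))⟩, 0, ?_, fun _ _ => rfl⟩
    simp only at hγ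
    simp [← hγ, e]
  · refine ⟨_, line_mem (continuous_const (y := 1)) γ, 0, by simp, fun γ' hγ => ?_⟩
    subst h
    have : γ' ≠ γ := fun e => hγ (by rw [e]; rfl)
    simp [this]
  · obtain ⟨i, hi⟩ := W0_ne h.countable
    exact ⟨_, co i, 1, by simpa using hi, fun γ _ => by simp [w]⟩

theorem isol {P : Set (Sp (Fam r))} (hP : ∀ f : C(P, ℝ), ∃ M : ℝ, ∀ a, |f a| ≤ M) (γ : ℝ) :
    ∀ᶠ s in 𝓝 (em (Fam r) (.inr (w, γ))), s ∈ P → s = em _ (.inr (w, γ)) := by
  classical
  obtain ⟨n, hn⟩ : ∃ n : ℕ, ∀ v : VV, em _ (.inr (v, γ)) ∈ P → v ≠ w →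
      ∃ k : ℕ, k ≤ n ∧ v.1 k = false := by
    by_contra hc
    push Not at hc
    choose v h1 h2 h3 using hc
    have hf : ∀ n, {i | (v n).1 i = true}.Finite := fun n =>
      (v n).2.resolve_left fun h => h2 n (Subtype.ext h)
    obtain ⟨i, hi⟩ := W0_ne (v := fun i => decide (∃ n, (v n).1 i = true)) (by
      simpa [W0, ofPred_exists] using countable_iUnion fun n => (hf n).countable)
    have ex : ∀ u : VV, u.1 i = false → ∃ k : ℕ, u.1 k = false := fun u hu => by
      by_contra h
      push Not at h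
      rcases u.2 with h' | h'
      · simp [h'] at hu
      · exact (infinite_range_of_injective Nat.cast_injective) (h'.subset (by
          rintro _ ⟨k, rfl⟩; simpa using h k))
    have hh : Continuous fun u : VV => if h : u.1 i = false then (Nat.find (ex u h) : ℝ) else 0 := by
      refine IsLocallyConstant.continuous ((IsLocallyConstant.iff_eventually_eq _).2 fun u => ?_)
      have ev : ∀ j : ℝ, ∀ᶠ y : VV in 𝓝 u, y.1 j = u.1 j := fun j =>
        ((isOpen_discrete {u.1 j}).preimage (f := fun y : VV => y.1 j)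
          ((continuous_apply j).comp continuous_subtype_val)).mem_nhds (mem_singleton _)
      by_cases hu : u.1 i = false
      · filter_upwards [ev i, (eventually_all_finset (Finset.range (Nat.find (ex u hu) + 1))).2
          fun k _ => ev k] with y a b
        rw [dif_pos hu, dif_pos (a.trans hu), Nat.cast_inj, Nat.find_eq_iff]
        exact ⟨(b _ (by simp)).trans (Nat.find_spec (ex u hu)), fun k hk => by
          rw [b k (Finset.mem_range.2 (by omega))]; exact Nat.find_min (ex u hu) hk⟩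
      · filter_upwards [ev i] with y a
        rw [dif_neg hu, dif_neg (a ▸ hu)]
    obtain ⟨M, hM⟩ := hP ((CC.co _ (line_mem hh γ)).restrict P)
    obtain ⟨n, hn⟩ := exists_nat_gt M
    have hvi : (v n).1 i = false := by
      simp only [decide_eq_false_iff_not, not_exists] at hi
      simpa using hi n
    have := hM ⟨_, h1 n⟩
    change |(if γ = γ then if h : (v n).1 i = false then (Nat.find (ex _ h) : ℝ) else 0 else 0)|
      ≤ M at this
    rw [if_pos rfl, dif_pos hvi, Nat.abs_cast] at this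
    exact h3 n _ (by exact_mod_cast (this.trans hn.le)) (Nat.find_spec (ex _ hvi))
  have hh : Continuous fun u : VV => ∏ k ∈ Finset.range (n + 1),
      if u.1 k = true then (1 : ℝ) else 0 := continuous_finsetProd _ fun k _ =>
    cb.comp (f := fun a : VV => a.1 k) ((continuous_apply _).comp continuous_subtype_val)
  filter_upwards [(isOpen_ne_fun (CC.co _ (line_mem hh γ)).continuous
    (continuous_const (y := 0))).mem_nhds (by simp [CC.co, CC.em, w])] with s hs hsP
  obtain ⟨a | ⟨v, γ'⟩, rfl⟩ := em_surj s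
  · exact absurd rfl hs
  · have : γ' = γ ∧ ∀ k ≤ n, v.1 k = true := by
      simpa [CC.co, CC.em, Finset.prod_eq_zero_iff, Nat.lt_succ_iff] using hs
    obtain ⟨rfl, h⟩ := this
    by_contra hne
    obtain ⟨k, h1, h2⟩ := hn v hsP fun e => hne (by rw [e])
    simp [h k h1] at h2

theorem X_not : ¬ ∃ S : ℕ → Set (Sp (Fam r)), (⋃ n, S n) = univ ∧
    ∀ n, ∀ f : C(S n, ℝ), ∃ M : ℝ, ∀ a, |f a| ≤ M := by
  classical
  rintro ⟨S, h1, h2⟩
  obtain ⟨n, hn⟩ : ∃ n, {γ | em (Fam r) (.inr (w, γ)) ∈ S n}.Infinite := by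
    by_contra h
    push Not at h
    refine not_countable_univ ((countable_iUnion fun n => (h n).countable).mono fun γ _ => ?_)
    obtain ⟨n, hn⟩ := mem_iUnion.1 (h1 ▸ mem_univ _ : em (Fam r) (.inr (w, γ)) ∈ ⋃ n, S n)
    exact mem_iUnion.2 ⟨n, hn⟩
  let φ := hn.natEmbedding
  let d : ℕ → S n := fun k => ⟨em (Fam r) (.inr (w, φ k)), (φ k).2⟩
  have hd : Function.Injective d := fun a b hab => by
    obtain ⟨g, hg, c, h3, h4⟩ := sepD (.inr (w, φ a))
    by_contra hne
    refine h3 ((congrArg (fun s : S n => co g hg s.1) hab).trans (h4 _ fun e => hne ?_))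
    exact φ.injective (Subtype.ext (Prod.mk.inj (Sum.inr.inj e)).2)
  have hF : Continuous (Function.extend d (fun k => (k : ℝ)) 0) := by
    refine IsLocallyConstant.continuous ((IsLocallyConstant.iff_eventually_eq _).2 fun x => ?_)
    obtain ⟨z, hz⟩ := em_surj x.1
    by_cases hx : ∃ γ, z = .inr (w, γ)
    · obtain ⟨γ, rfl⟩ := hx
      have := isol (h2 n) γ
      rw [hz] at this
      filter_upwards [continuous_subtype_val.continuousAt.tendsto.eventually this] with y hy
      rw [Subtype.ext (hy y.2)]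
    · obtain ⟨g, hg, c, h3, h4⟩ := sepD z
      have k : ∀ y : S n, co g hg y.1 ≠ c → Function.extend d (fun k => (k : ℝ)) 0 y = 0 :=
        fun y hy => Function.extend_apply' _ _ _ (by
          rintro ⟨a, rfl⟩; exact hy (h4 _ fun e => hx ⟨_, e⟩))
      have k2 : co g hg x.1 ≠ c := by rw [← hz]; exact h3
      filter_upwards [(isOpen_ne_fun ((co g hg).continuous.comp continuous_subtype_val)
        (continuous_const (y := c))).mem_nhds k2] with y hy
      rw [k y hy, k x k2]
  obtain ⟨M, hM⟩ := h2 n ⟨_, hF⟩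
  obtain ⟨k, hk⟩ := exists_nat_gt M
  have := hM (d k)
  simp only [ContinuousMap.coe_mk, hd.extend_apply, Nat.abs_cast] at this
  linarith

end Pool.Agent.H17.CD
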