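import Pool.Agent.H17.TE1

set_option autoImplicit false
open Set Topology Filter

namespace Pool.Agent.H17.CW
open Pool.Agent.H17.TE

variable {X : Type} [TopologicalSpace X]

theorem dc (g f : Cp X) : Continuous fun x => (projIcc 0 1 zero_le_one |f.1 x - g.1 x|) :=
  continuous_projIcc.comp (f.2.sub g.2).abs

/-- truncated distance of `f` to `g`, extended to the compactification -/
noncomputable def D (g f : Cp X) (p : StoneCech X) : ℝ :=
  (stoneCechExtend (β := Icc (0 : ℝ) 1) (dc g f) p).1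

theorem D_cont (g f : Cp X) : Continuous (D g f) :=
  continuous_subtype_val.comp (continuous_stoneCechExtend _)

theorem D_unit (g f : Cp X) (x : X) : D g f (stoneCechUnit x) = min 1 |f.1 x - g.1 x| := by
  have := congrFun (stoneCechExtend_extends (dc g f)) x
  simp only [Function.comp] at this
  simp only [D, this, coe_projIcc]
  exact max_eq_right (le_min zero_le_one (abs_nonneg _))

theorem D_mono {g f f' : Cp X} (h : ∀ x, |f'.1 x - g.1 x| ≤ |f.1 x - g.1 x|) (p : StoneCech X) :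
    D g f' p ≤ D g f p := by
  refine denseRange_stoneCechUnit.induction_on p (isClosed_le (D_cont _ _) (D_cont _ _)) fun x => ?_
  rw [D_unit, D_unit]; exact min_le_min_left _ (h x)

theorem D_zero {g f : Cp X} {O : Set (StoneCech X)} (hO : IsOpen O)
    (h : ∀ x, stoneCechUnit x ∈ O → f.1 x = g.1 x) {p : StoneCech X} (hp : p ∈ O) :
    D g f p = 0 := by
  have : p ∈ Oᶜ ∪ {p | D g f p = 0} := by
    refine denseRange_stoneCechUnit.induction_on p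
      (hO.isClosed_compl.union (isClosed_eq (D_cont _ _) continuous_const)) fun x => ?_
    by_cases hx : stoneCechUnit x ∈ O
    · right; show D g f _ = 0; rw [D_unit, h x hx]; simp
    · exact Or.inl hx
  exact this.resolve_left fun h => h hp

theorem near_open' {n : ℕ} (g f : Cp X) (ε : ℝ) :
    IsOpen {x : Fin n → StoneCech X | ∀ i, D g f (x i) < ε} := by
  rw [ofPred_forall]
  exact isOpen_iInter_of_finite fun i =>
    isOpen_lt ((D_cont g f).comp (continuous_apply i)) continuous_const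

theorem baire' {T : Type} [TopologicalSpace T] [BaireSpace T] [Nonempty T] {Ψ : Cp X → T → ℝ}
    (h1 : ∀ t, Continuous fun f => Ψ f t) (h2 : ∀ f, Continuous (Ψ f)) {g : Cp X}
    (hg : ∀ t, Ψ g t < 1) : ∃ n : ℕ, ∃ ε : ℝ, 0 < ε ∧ ∃ V : Set T, IsOpen V ∧ V.Nonempty ∧
      ∃ Z : Set (T × (Fin n → StoneCech X)), IsClosed Z ∧ Mn Z V ∧
        ∀ t x, (t, x) ∈ Z → ∀ f, (∀ i, D g f (x i) < ε) → Ψ f t ≤ 1 := by
  let C : ∀ q : ℕ × ℕ, Set (T × (Fin q.1 → StoneCech X)) := fun q =>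
    {p | ∀ f, (∀ i, D g f (p.2 i) < 1 / (q.2 + 1)) → Ψ f p.1 ≤ 1}
  have hC : ∀ q, IsClosed (C q) := by
    intro q
    have e : C q = ⋂ f : Cp X, ((Prod.snd ⁻¹' {x | ∀ i, D g f (x i) < 1 / (q.2 + 1)})ᶜ ∪
        {p | Ψ f p.1 ≤ 1}) := by
      ext p
      simp only [C, mem_iInter, mem_union, mem_compl_iff, mem_preimage, mem_ofPred_eq]
      exact forall_congr' fun f => imp_iff_not_or
    rw [e]
    exact isClosed_iInter fun f =>
      (((near_open' g f _).preimage continuous_snd).isClosed_compl).union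
        (isClosed_le ((h2 f).comp continuous_fst) continuous_const)
  obtain ⟨q, hq⟩ := nonempty_interior_of_iUnion_of_closed (f := fun q => Prod.fst '' C q)
    (fun q => isClosedMap_fst_of_compactSpace _ (hC q)) (by
      refine eq_univ_of_forall fun t => ?_
      obtain ⟨n, k, x, hx⟩ := nbhd (O := {f | Ψ f t < 1}) (isOpen_lt (h1 t) continuous_const)
        (hg t)
      refine mem_iUnion.2 ⟨(n, k), (t, fun i => stoneCechUnit (x i)), fun f hf =>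
        (hx f fun i => ?_).le, rfl⟩
      have := hf i
      simp only [D_unit] at this
      refine (min_lt_iff.1 this).resolve_left (not_lt.2 ?_)
      rw [div_le_one (by positivity)]
      simp)
  obtain ⟨Z, hZ0, hZc, hZ⟩ := exMn (U := interior (Prod.fst '' C q)) (hC q) (fun t ht => by
    obtain ⟨⟨s, x⟩, hx, rfl⟩ := interior_subset ht
    exact ⟨x, hx⟩)
  exact ⟨q.1, _, by positivity, _, isOpen_interior, hq, Z, hZc, hZ, fun t x h => hZ0 h⟩

theorem cyl {A : Set (ℕ → Bool)} (hA : IsOpen A) {a : ℕ → Bool} (ha : a ∈ A) :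
    ∀ᶠ N in atTop, ∀ b, (∀ i < N, b i = a i) → b ∈ A := by
  obtain ⟨I, u, hu, hI⟩ := isOpen_pi_iff.1 hA a ha
  filter_upwards [eventually_gt_atTop (I.sup id)] with N hN b hb
  refine hI fun i hi => ?_
  rw [hb i ((Finset.le_sup (f := id) hi).trans_lt hN)]
  exact (hu i hi).2

theorem cyl_open (a : ℕ → Bool) (N : ℕ) : IsOpen {b : ℕ → Bool | ∀ i < N, b i = a i} := by
  have : {b : ℕ → Bool | ∀ i < N, b i = a i} = ⋂ i ∈ Iio N, {b | b i = a i} := by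
    ext b; simp
  rw [this]
  exact (finite_Iio N).isOpen_biInter fun i _ =>
    (isOpen_discrete {a i}).preimage (f := fun b : ℕ → Bool => b i) (continuous_apply i)

theorem step' {Θ : Cp X → (ℕ → Bool) → (ℕ → Bool) → ℝ}
    (h1 : ∀ a b, Continuous fun f => Θ f a b) (h2 : ∀ f, Continuous fun p : _ × _ => Θ f p.1 p.2)
    (hd : ∀ f a b a' b' N, (∀ i < N, a i = a' i ∧ b i = b' i) →
      (∀ i, N ≤ i → a i = b i ∧ a' i = b' i) → Θ f a b = Θ f a' b')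
    {g : Cp X} {n : ℕ} {Z : Set ((ℕ → Bool) × (Fin n → StoneCech X))} {U : Set (ℕ → Bool)}
    (hZ : Mn Z U) {k : Fin n} (hk : ∀ V, IsOpen V → V.Nonempty → V ⊆ U →
      ¬ ∃ x0 : X, ∀ t ∈ V, ∀ x, (t, x) ∈ Z → x k = stoneCechUnit x0)
    {A B : Set (ℕ → Bool)} (hA : IsOpen A) (hB : IsOpen B) (nA : A.Nonempty) (nB : B.Nonempty)
    (hAU : A ⊆ U) {f : Cp X} (hf : ∀ a ∈ A, ∀ b ∈ B, 2 < Θ f a b) :
    ∃ A' B' : Set (ℕ → Bool), ∃ f' : Cp X, IsOpen A' ∧ IsOpen B' ∧ A'.Nonempty ∧ B'.Nonempty ∧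
      A' ⊆ A ∧ B' ⊆ B ∧ (∀ p, D g f' p ≤ D g f p) ∧ (∀ a ∈ A', ∀ b ∈ B', 2 < Θ f' a b) ∧
      ∀ t ∈ A', ∀ x, (t, x) ∈ Z → D g f' (x k) = 0 := by
  classical
  obtain ⟨a1, ha1⟩ := nA
  obtain ⟨b1, hb1⟩ := nB
  obtain ⟨N, hNa, hNb⟩ := ((cyl hA ha1).and (cyl hB hb1)).exists
  let bb : (ℕ → Bool) → ℕ → Bool := fun w i => if i < N then b1 i else w i
  have hbb : ∀ w, bb w ∈ B := fun w => hNb _ fun i hi => by simp only [bb, if_pos hi]
  obtain ⟨m, kk, y, hy⟩ := nbhd (O := {f | 2 < Θ f a1 (bb a1)})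
    (isOpen_lt continuous_const (h1 _ _)) (hf a1 ha1 _ (hbb a1))
  have hcU : {b : ℕ → Bool | ∀ i < N, b i = a1 i} ⊆ U := fun b hb => hAU (hNa b hb)
  have hfin : (range fun i => stoneCechUnit (y i)).Finite := finite_range _
  obtain ⟨a, ha, x, hx, hxk⟩ : ∃ a, (∀ i < N, a i = a1 i) ∧ ∃ x, (a, x) ∈ Z ∧
      x k ∉ range fun i => stoneCechUnit (y i) := by
    by_contra hn
    push Not at hn
    obtain ⟨x, hx⟩ := hZ.1 a1 (hAU ha1)
    obtain ⟨i, hi⟩ := hn a1 (fun _ _ => rfl) x hx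
    obtain ⟨V', k1, k2, k3, k4⟩ := hZ.2 _
      {z | z k ∈ ((range fun i => stoneCechUnit (y i)) \ {x k})ᶜ} (cyl_open a1 N)
      ((hfin.sdiff.isClosed.isOpen_compl).preimage (f := fun z : Fin n → StoneCech X => z k)
        (continuous_apply k)) hcU ⟨a1, fun _ _ => rfl, x, fun h => h.2 rfl, hx⟩
    refine hk V' k1 k2 (k3.trans hcU) ⟨y i, fun t ht z hz => ?_⟩
    by_contra hne
    exact k4 t ht z hz ⟨hn t (k3 ht) z hz, fun e => hne (e.trans hi.symm)⟩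
  obtain ⟨C, hC1, hC2, hC3⟩ :=
    exists_mem_nhds_isClosed_subset (hfin.isClosed.isOpen_compl.mem_nhds hxk)
  obtain ⟨l, l0, l1, l01⟩ := exists_continuous_zero_one_of_isClosed hfin.isClosed hC2
    (disjoint_left.2 fun a ha hb => hC3 hb ha)
  have hl : Continuous fun p : X => l (stoneCechUnit p) :=
    l.continuous.comp continuous_stoneCechUnit
  let f' : Cp X := ⟨fun p => l (stoneCechUnit p) * g.1 p + (1 - l (stoneCechUnit p)) * f.1 p,
    (hl.mul g.2).add ((continuous_const.sub hl).mul f.2)⟩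
  have hf'1 : ∀ p, |f'.1 p - g.1 p| ≤ |f.1 p - g.1 p| := by
    intro p
    have e : f'.1 p - g.1 p = (1 - l (stoneCechUnit p)) * (f.1 p - g.1 p) := by
      simp only [f']; ring
    rw [e, abs_mul, abs_of_nonneg (sub_nonneg.2 (l01 _).2)]
    exact mul_le_of_le_one_left (abs_nonneg _) (by linarith [(l01 (stoneCechUnit p)).1])
  have hf'2 : 2 < Θ f' a (bb a) := by
    rw [hd f' a (bb a) a1 (bb a1) N (fun i hi => ⟨ha i hi, by simp only [bb, if_pos hi]⟩)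
      (fun i hi => ⟨by simp only [bb, if_neg (not_lt.2 hi)],
        by simp only [bb, if_neg (not_lt.2 hi)]⟩)]
    refine hy f' fun i => ?_
    have e : l (stoneCechUnit (y i)) = 0 := l0 ⟨i, rfl⟩
    simp only [f', e]
    simp only [zero_mul, sub_zero, one_mul, zero_add, sub_self, abs_zero]
    positivity
  obtain ⟨A2, B2, hA2, hB2, m1, m2, hs⟩ := isOpen_prod_iff.1
    (isOpen_lt continuous_const (h2 f')) a (bb a) hf'2
  obtain ⟨V6, k1, k2, k3, k4⟩ := hZ.2 (A ∩ A2) {x | x k ∈ interior C} (hA.inter hA2)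
    (isOpen_interior.preimage (f := fun x : Fin n → StoneCech X => x k) (continuous_apply k))
    (inter_subset_left.trans hAU) ⟨a, ⟨hNa a ha, m1⟩, x, mem_interior_iff_mem_nhds.2 hC1, hx⟩
  refine ⟨V6, B ∩ B2, f', k1, hB.inter hB2, k2, ⟨_, hbb a, m2⟩, k3.trans inter_subset_left,
    inter_subset_left, D_mono hf'1, fun s hs' t ht => hs (mk_mem_prod (k3 hs').2 ht.2),
    fun t ht z hz => D_zero isOpen_interior (fun p hp => ?_) (k4 t ht z hz)⟩
  have e : l (stoneCechUnit p) = 1 := l1 (interior_subset hp)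
  simp [f', e]

theorem side {Θ : Cp X → (ℕ → Bool) → (ℕ → Bool) → ℝ}
    (h1 : ∀ a b, Continuous fun f => Θ f a b) (h2 : ∀ f, Continuous fun p : _ × _ => Θ f p.1 p.2)
    (hd : ∀ f a b a' b' N, (∀ i < N, a i = a' i ∧ b i = b' i) →
      (∀ i, N ≤ i → a i = b i ∧ a' i = b' i) → Θ f a b = Θ f a' b')
    {g : Cp X} {n : ℕ} {Z : Set ((ℕ → Bool) × (Fin n → StoneCech X))} {U : Set (ℕ → Bool)}
    (hZ : Mn Z U) {ε : ℝ} (hε : 0 < ε) {A B : Set (ℕ → Bool)} (hA : IsOpen A) (hB : IsOpen B)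
    (nA : A.Nonempty) (nB : B.Nonempty) (hAU : A ⊆ U) {f : Cp X}
    (hf : ∀ a ∈ A, ∀ b ∈ B, 2 < Θ f a b)
    (hk : ∀ k, (∀ t ∈ U, ∀ x, (t, x) ∈ Z → D g f (x k) < ε) ∨ ∀ V, IsOpen V → V.Nonempty → V ⊆ U →
      ¬ ∃ x0 : X, ∀ t ∈ V, ∀ x, (t, x) ∈ Z → x k = stoneCechUnit x0) :
    ∃ A' B' : Set (ℕ → Bool), ∃ f' : Cp X, IsOpen A' ∧ IsOpen B' ∧ A'.Nonempty ∧ B'.Nonempty ∧
      A' ⊆ A ∧ B' ⊆ B ∧ (∀ p, D g f' p ≤ D g f p) ∧ (∀ a ∈ A', ∀ b ∈ B', 2 < Θ f' a b) ∧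
      ∀ t ∈ A', ∀ x, (t, x) ∈ Z → ∀ k, D g f' (x k) < ε := by
  have ind : ∀ s : Finset (Fin n), ∃ A' B' : Set (ℕ → Bool), ∃ f' : Cp X, IsOpen A' ∧
      IsOpen B' ∧ A'.Nonempty ∧ B'.Nonempty ∧ A' ⊆ A ∧ B' ⊆ B ∧ (∀ p, D g f' p ≤ D g f p) ∧
      (∀ a ∈ A', ∀ b ∈ B', 2 < Θ f' a b) ∧
      ∀ t ∈ A', ∀ x, (t, x) ∈ Z → ∀ k ∈ s, D g f' (x k) < ε := by
    intro s
    induction s using Finset.induction_on with
    | empty => exact ⟨A, B, f, hA, hB, nA, nB, subset_rfl, subset_rfl, fun _ => le_rfl, hf,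
        by simp⟩
    | insert k s _ ih =>
      obtain ⟨A', B', f', i1, i2, i3, i4, i5, i6, i7, i8, i9⟩ := ih
      rcases hk k with h | h
      · refine ⟨A', B', f', i1, i2, i3, i4, i5, i6, i7, i8, fun t ht x hx j hj => ?_⟩
        rcases Finset.mem_insert.1 hj with rfl | hj
        · exact (i7 _).trans_lt (h t (hAU (i5 ht)) x hx)
        · exact i9 t ht x hx j hj
      · obtain ⟨A2, B2, f2, j1, j2, j3, j4, j5, j6, j7, j8, j9⟩ :=
          step' (g := g) h1 h2 hd hZ h i1 i2 i3 i4 (i5.trans hAU) i8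
        refine ⟨A2, B2, f2, j1, j2, j3, j4, j5.trans i5, j6.trans i6,
          fun p => (j7 p).trans (i7 p), j8, fun t ht x hx j hj => ?_⟩
        rcases Finset.mem_insert.1 hj with rfl | hj
        · rw [j9 t ht x hx]; exact hε
        · exact (j7 _).trans_lt (i9 t (j5 ht) x hx j hj)
  obtain ⟨A', B', f', i1, i2, i3, i4, i5, i6, i7, i8, i9⟩ := ind Finset.univ
  exact ⟨A', B', f', i1, i2, i3, i4, i5, i6, i7, i8, fun t ht x hx k => i9 t ht x hx k (by simp)⟩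

theorem constcert {Φ : Cp X → (ℕ → Bool) → ℝ} (h1 : ∀ a, Continuous fun f => Φ f a)
    (h2 : ∀ f, Continuous (Φ f))
    (hd : ∀ f a b a' b' N, (∀ i < N, a i = a' i ∧ b i = b' i) →
      (∀ i, N ≤ i → a i = b i ∧ a' i = b' i) → Φ f a - Φ f b = Φ f a' - Φ f b') (g : Cp X) :
    ∃ O ∈ 𝓝 g, ∃ V : Set (ℕ → Bool), IsOpen V ∧ V.Nonempty ∧ ∀ f ∈ O, ∀ a ∈ V, ∀ b ∈ V,
      |Φ f a - Φ f b - (Φ g a - Φ g b)| ≤ 2 := by
  obtain ⟨n, ε, hε, V0, hV0, nV0, Z, -, hZ, hc⟩ := baire' (Ψ := fun f a => |Φ f a - Φ g a|)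
    (fun a => ((h1 a).sub continuous_const).abs) (fun f => ((h2 f).sub (h2 g)).abs) (g := g)
    (fun t => by simp)
  let cx : Fin n → Set (ℕ → Bool) → Prop := fun k V =>
    ∃ x0 : X, ∀ t ∈ V, ∀ x, (t, x) ∈ Z → x k = stoneCechUnit x0
  obtain ⟨V1, hV1, nV1, hs1, hA⟩ := shrink (ι := Fin n) (fun k V => cx k V ∨
      ∀ V', IsOpen V' → V'.Nonempty → V' ⊆ V → ¬ cx k V')
    (fun i V V' h _ hs => h.imp (fun ⟨x0, h⟩ => ⟨x0, fun t ht => h t (hs ht)⟩)
      (fun h W a b c => h W a b (c.trans hs))) hV0 nV0 (by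
      intro i V hV hne hs
      by_cases hc : ∃ V', IsOpen V' ∧ V'.Nonempty ∧ V' ⊆ V ∧ cx i V'
      · obtain ⟨V', a, b, c, d⟩ := hc
        exact ⟨V', a, b, c, Or.inl d⟩
      · exact ⟨V, hV, hne, subset_rfl, Or.inr fun W a b c d => hc ⟨W, a, b, c, d⟩⟩)
  have hZ1 := hZ.mono hs1
  choose x0 hx0 using fun k : {k // cx k V1} => k.2
  refine ⟨⋂ k, {f : Cp X | |f.1 (x0 k) - g.1 (x0 k)| < ε},
    (isOpen_iInter_of_finite fun k => isOpen_lt ((ev _).sub continuous_const).abs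
      continuous_const).mem_nhds (mem_iInter.2 fun k => by simpa using hε), V1, hV1, nV1, ?_⟩
  intro f hf a ha b hb
  by_contra hn
  push Not at hn
  let Θ : Cp X → (ℕ → Bool) → (ℕ → Bool) → ℝ := fun f a b => |Φ f a - Φ f b - (Φ g a - Φ g b)|
  have t1 : ∀ a b, Continuous fun f => Θ f a b := fun a b =>
    (((h1 a).sub (h1 b)).sub continuous_const).abs
  have t2 : ∀ f, Continuous fun p : _ × _ => Θ f p.1 p.2 := fun f =>
    ((((h2 f).comp continuous_fst).sub ((h2 f).comp continuous_snd)).sub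
      (((h2 g).comp continuous_fst).sub ((h2 g).comp continuous_snd))).abs
  have t3 : ∀ f a b a' b' N, (∀ i < N, a i = a' i ∧ b i = b' i) →
      (∀ i, N ≤ i → a i = b i ∧ a' i = b' i) → Θ f a b = Θ f a' b' := fun f a b a' b' N u v => by
    simp only [Θ, hd f a b a' b' N u v, hd g a b a' b' N u v]
  have t4 : ∀ f a b, Θ f a b = Θ f b a := fun f a b => by
    simp only [Θ]; rw [← abs_neg]; ring_nf
  have hk : ∀ f' : Cp X, (∀ p, D g f' p ≤ D g f p) → ∀ k,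
      (∀ t ∈ V1, ∀ x, (t, x) ∈ Z → D g f' (x k) < ε) ∨
      ∀ V, IsOpen V → V.Nonempty → V ⊆ V1 → ¬ cx k V := fun f' hf' k =>
    (hA k).imp_left fun h t ht x hx => (hf' _).trans_lt (by
      rw [hx0 ⟨k, h⟩ t ht x hx, D_unit]
      exact (min_le_right _ _).trans_lt (mem_iInter.1 hf ⟨k, h⟩))
  obtain ⟨A, B, hA', hB', m1, m2, hs⟩ := isOpen_prod_iff.1
    (isOpen_lt continuous_const (t2 f)) a b hn
  obtain ⟨A1, B1, f1, i1, i2, i3, i4, i5, i6, i7, i8, i9⟩ := side t1 t2 t3 hZ1 hε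
    (hV1.inter hA') (hV1.inter hB') ⟨a, ha, m1⟩ ⟨b, hb, m2⟩ inter_subset_left
    (fun a ha b hb => hs (mk_mem_prod ha.2 hb.2)) (hk f fun _ => le_rfl)
  obtain ⟨B2, A2, f2, -, -, ⟨b', hb'⟩, ⟨a', ha'⟩, j5, j6, j7, j8, j9⟩ := side t1 t2 t3 hZ1 hε
    i2 i1 i4 i3 (i6.trans inter_subset_left) (fun b hb a ha => t4 f1 a b ▸ i8 a ha b hb)
    (hk f1 i7)
  obtain ⟨x, hx⟩ := hZ1.1 a' (i5 (j6 ha')).1
  obtain ⟨y, hy⟩ := hZ1.1 b' (i6 (j5 hb')).1
  have e1 := abs_le.1 (hc a' x hx f2 fun k => (j7 _).trans_lt (i9 a' (j6 ha') x hx k))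
  have e2 := abs_le.1 (hc b' y hy f2 fun k => j9 b' hb' y hy k)
  refine absurd (j8 b' hb' a' ha') (not_lt.2 (abs_le.2 ⟨?_, ?_⟩)) <;> linarith

end Pool.Agent.H17.CW
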