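import Pool.Agent.H17.CW1

set_option autoImplicit false
open Set Topology Filter

namespace Pool.Agent.H17.CW
open Pool.Agent.H17.TE

/-- sub-series -/
noncomputable def ss (c : ℕ → ℝ) (a : ℕ → Bool) : ℝ := ∑' n, if a n then (1 / 2) ^ n * c n else 0

theorem bd {c : ℕ → ℝ} {B : ℝ} (h : ∀ n, |c n| ≤ B) (a : ℕ → Bool) (n : ℕ) :
    ‖if a n then (1 / 2 : ℝ) ^ n * c n else 0‖ ≤ B * (1 / 2) ^ n := by
  have hB : 0 ≤ B := (abs_nonneg _).trans (h 0)
  split_ifs
  · rw [Real.norm_eq_abs, abs_mul, abs_of_nonneg (by positivity), mul_comm]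
    exact mul_le_mul_of_nonneg_right (h n) (by positivity)
  · rw [norm_zero]; positivity

theorem ss_sum {c : ℕ → ℝ} {B : ℝ} (h : ∀ n, |c n| ≤ B) (a : ℕ → Bool) :
    Summable fun n => if a n then (1 / 2 : ℝ) ^ n * c n else 0 :=
  Summable.of_norm_bounded (summable_geometric_two.mul_left B) (bd h a)

theorem ss_cont {c : ℕ → ℝ} {B : ℝ} (h : ∀ n, |c n| ≤ B) : Continuous (ss c) :=
  continuous_tsum (fun n => (continuous_of_discreteTopology
    (f := fun b : Bool => if b then (1 / 2 : ℝ) ^ n * c n else 0)).comp (continuous_apply n))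
    (summable_geometric_two.mul_left B) fun n a => bd h a n

theorem ss_sub {c : ℕ → ℝ} {B : ℝ} (h : ∀ n, |c n| ≤ B) (a b : ℕ → Bool) :
    ss c a - ss c b = ∑' n, ((if a n then (1 / 2 : ℝ) ^ n * c n else 0) -
      if b n then (1 / 2 : ℝ) ^ n * c n else 0) :=
  ((ss_sum h a).tsum_sub (ss_sum h b)).symm

/-- sub-series as a linear functional -/
noncomputable def ssL {V : Type} [AddCommGroup V] [Module ℝ V] (e : ℕ → V →ₗ[ℝ] ℝ)
    (hb : ∀ v, ∃ B, ∀ n, |e n v| ≤ B) (a : ℕ → Bool) : V →ₗ[ℝ] ℝ where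
  toFun v := ss (fun n => e n v) a
  map_add' v w := by
    obtain ⟨B, hB⟩ := hb v
    obtain ⟨C, hC⟩ := hb w
    simp only [ss]
    rw [← (ss_sum hB a).tsum_add (ss_sum hC a)]
    refine tsum_congr fun n => ?_
    split_ifs
    · rw [map_add, mul_add]
    · simp
  map_smul' c v := by
    simp only [ss, RingHom.id_apply, smul_eq_mul]
    rw [← tsum_mul_left]
    refine tsum_congr fun n => ?_
    split_ifs
    · rw [map_smul, smul_eq_mul]; ring
    · simp

theorem NH {X V W A : Type} [TopologicalSpace X] [AddCommGroup V] [Module ℝ V]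
    [TopologicalSpace W] (j : W ≃ V) (ev : A → V →ₗ[ℝ] ℝ) (hi : IsInducing fun w α => ev α (j w))
    (e : ℕ → V →ₗ[ℝ] ℝ) (he : LinearIndependent ℝ e) (hb : ∀ v, ∃ B, ∀ n, |e n v| ≤ B)
    (hs : ∀ a, ∃ α, ∀ v, ev α v = ss (fun n => e n v) a)
    {φ : Cp X → W} {ψ : W → Cp X} (hφ : Continuous φ) (hψ : Continuous ψ)
    (h : ∀ v, φ (ψ v) = v) : False := by
  classical
  choose B hB using hb
  obtain ⟨O, hO, W, hW, ⟨a, ha⟩, hc⟩ := constcert
    (Φ := fun f a => ss (fun n => e n (j (φ f))) a)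
    (fun a => by
      obtain ⟨α, hα⟩ := hs a
      simp only [← hα]
      exact (continuous_apply α).comp (hi.continuous.comp hφ))
    (fun f => ss_cont (hB _)) (fun f a b a' b' N u v => by
      rw [ss_sub (hB _), ss_sub (hB _)]
      refine tsum_congr fun n => ?_
      rcases lt_or_ge n N with hn | hn
      · rw [(u n hn).1, (u n hn).2]
      · rw [(v n hn).1, (v n hn).2, sub_self, sub_self]) (ψ (j.symm 0))
  obtain ⟨N, hN⟩ := (cyl hW ha).exists
  have key : ∀ m, N ≤ m → ∀ v, ψ (j.symm v) ∈ O → |(1 / 2 : ℝ) ^ m * e m v| ≤ 2 := by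
    intro m hm v hv
    have d : ∀ w, ss (fun n => e n w) (Function.update a m true) -
        ss (fun n => e n w) (Function.update a m false) = (1 / 2 : ℝ) ^ m * e m w := by
      intro w
      rw [ss_sub (hB _), tsum_eq_single m fun n hn => by simp [Function.update_of_ne hn]]
      simp
    have := hc _ hv (Function.update a m true) (hN _ fun i hi =>
      Function.update_of_ne (hi.trans_le hm).ne _ _) (Function.update a m false)
      (hN _ fun i hi => Function.update_of_ne (hi.trans_le hm).ne _ _)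
    simp only [h, Equiv.apply_symm_apply] at this
    rw [d, d] at this
    simpa only [map_zero, mul_zero, sub_zero] using this
  have hO' := hψ.continuousAt.preimage_mem_nhds hO
  rw [hi.nhds_eq_comap, mem_comap] at hO'
  obtain ⟨U, hU, hUO⟩ := hO'
  obtain ⟨U', hU'U, hU', m0⟩ := mem_nhds_iff.1 hU
  obtain ⟨I, u, hu, hI⟩ := isOpen_pi_iff.1 hU' _ m0
  have hz : ∀ m, N ≤ m → e m ∈ Submodule.span ℝ (range fun α : I => ev α) := by
    intro m hm
    refine mem_span_of_iInf_ker_le_ker fun v hv => ?_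
    simp only [Submodule.mem_iInf, LinearMap.mem_ker] at hv ⊢
    by_contra hne
    have hp : (1 / 2 : ℝ) ^ m * e m v ≠ 0 := mul_ne_zero (by positivity) hne
    have := key m hm ((3 / ((1 / 2 : ℝ) ^ m * e m v)) • v) (hUO (hU'U (hI fun α hα => by
      have := (hu α hα).2
      simp only [Equiv.apply_symm_apply, map_zero] at this
      simp only [Equiv.apply_symm_apply, map_smul, hv ⟨α, hα⟩, smul_zero]
      exact this)))
    rw [map_smul, smul_eq_mul, mul_left_comm, div_mul_cancel₀ _ hp] at this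
    norm_num at this
  have := (he.comp (fun j : ℕ => N + j) (add_right_injective N)).finite_of_le_span_finite _
    (range fun α : I => ev α) (by rintro _ ⟨j, rfl⟩; exact hz _ (Nat.le_add_right _ _))
  exact not_finite ℕ

theorem CK {X L W : Type} [TopologicalSpace X] [TopologicalSpace L] [CompactSpace L] [T2Space L]
    [Infinite L] [TopologicalSpace W] (j : W ≃ C(L, ℝ))
    (hi : IsInducing fun (v : W) (α : C(L, ℝ) →L[ℝ] ℝ) => α (j v))
    {φ : Cp X → W} {ψ : W → Cp X} (hφ : Continuous φ) (hψ : Continuous ψ)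
    (h : ∀ v, φ (ψ v) = v) : False := by
  classical
  let l := Infinite.natEmbedding L
  let e : ℕ → C(L, ℝ) →ₗ[ℝ] ℝ := fun n =>
    { toFun := fun v => v (l n), map_add' := fun _ _ => rfl, map_smul' := fun _ _ => rfl }
  have hn : ∀ (v : C(L, ℝ)) n, |e n v| ≤ ‖v‖ := fun v n => v.norm_coe_le_norm _
  have hs : ∀ a : ℕ → Bool, ∃ α : C(L, ℝ) →L[ℝ] ℝ, ∀ v, α v = ss (fun n => e n v) a := by
    intro a
    refine ⟨LinearMap.mkContinuous (ssL e (fun v => ⟨_, hn v⟩) a) 2 fun v => ?_, fun v => rfl⟩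
    have := tsum_of_norm_bounded (hasSum_geometric_two.mul_left ‖v‖) (bd (hn v) a)
    rw [mul_comm] at this
    exact this
  have hind : LinearIndependent ℝ e := by
    refine linearIndependent_iff'.2 fun s g hg i hi => ?_
    obtain ⟨u, u0, u1, -⟩ := exists_continuous_zero_one_of_isClosed
      ((s.erase i).finite_toSet.image l).isClosed (isClosed_singleton (x := l i))
      (disjoint_singleton_right.2 fun ⟨j, hj, e⟩ =>
        (Finset.mem_erase.1 (Finset.mem_coe.1 hj)).1 (l.injective e))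
    have := LinearMap.congr_fun hg u
    rw [LinearMap.sum_apply, Finset.sum_eq_single_of_mem i hi fun j hj hji => by
      have : u (l j) = 0 := u0 ⟨j, Finset.mem_coe.2 (Finset.mem_erase.2 ⟨hji, hj⟩), rfl⟩
      simp [e, this]] at this
    have h1 : u (l i) = 1 := u1 rfl
    simpa [e, h1] using this
  exact NH j (fun α : C(L, ℝ) →L[ℝ] ℝ => α.toLinearMap) hi
    e hind (fun v => ⟨‖v‖, hn v⟩) hs
    hφ hψ h

theorem CKw {X L : Type} [TopologicalSpace X] [TopologicalSpace L] [CompactSpace L] [T2Space L]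
    [Infinite L] (h : Cp X ≃ₜ WeakSpace ℝ C(L, ℝ)) : False :=
  CK (X := X) (L := L) (toWeakSpace ℝ C(L, ℝ)).symm.toEquiv ⟨rfl⟩
    (φ := h) (ψ := h.symm) h.continuous h.symm.continuous h.apply_symm_apply

end Pool.Agent.H17.CW
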