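import Pool.Agent.H17.CW2

set_option autoImplicit false
open Set Topology Filter Metric

namespace Pool.Agent.H17.CW
open Pool.Agent.H17.TE

variable {N : Type} [MetricSpace N] (n0 : N)

abbrev Lip : Type := {f : N → ℝ // f n0 = 0 ∧ ∃ K : NNReal, LipschitzWith K f}

/-- the free space inside the functions on Lipschitz functions -/
def FS : Submodule ℝ (Lip n0 → ℝ) where
  carrier := {Φ | ∀ ε : ℝ, 0 < ε → ∃ c : N →₀ ℝ, ∀ f : Lip n0, ∀ K : NNReal,
    LipschitzWith K f.1 → |Φ f - c.sum (fun x a => a * f.1 x)| ≤ ε * (K : ℝ)}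
  zero_mem' := fun ε hε => ⟨0, fun f K _ => by simp; positivity⟩
  add_mem' := by
    intro a b ha hb ε hε
    obtain ⟨c, hc⟩ := ha _ (half_pos hε)
    obtain ⟨d, hd⟩ := hb _ (half_pos hε)
    refine ⟨c + d, fun f K hK => ?_⟩
    rw [Finsupp.sum_add_index' (fun _ => zero_mul _) fun _ _ _ => add_mul _ _ _]
    have h1 := abs_le.1 (hc f K hK)
    have h2 := abs_le.1 (hd f K hK)
    simp only [Pi.add_apply]
    exact abs_le.2 ⟨by linarith, by linarith⟩
  smul_mem' := by
    intro r a ha ε hε
    obtain ⟨c, hc⟩ := ha (ε / (|r| + 1)) (by positivity)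
    refine ⟨r • c, fun f K hK => ?_⟩
    rw [Finsupp.sum_smul_index fun _ => zero_mul _]
    have e : (c.sum fun x a => r * a * f.1 x) = r * c.sum fun x a => a * f.1 x := by
      simp only [Finsupp.sum, Finset.mul_sum, mul_assoc]
    rw [e, Pi.smul_apply, smul_eq_mul, ← mul_sub, abs_mul]
    calc _ ≤ (|r| + 1) * (ε / (|r| + 1) * K) :=
          mul_le_mul (by linarith) (hc f K hK) (abs_nonneg _) (by positivity)
      _ = _ := by field_simp

theorem free {X : Type} [TopologicalSpace X] [Infinite N] {φ : Cp X → FS n0} {ψ : FS n0 → Cp X}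
    (hφ : Continuous φ) (hψ : Continuous ψ) (h : ∀ v, φ (ψ v) = v) : False := by
  classical
  have : Infinite {x : N // x ≠ n0} := (Set.finite_singleton n0).infinite_compl.to_subtype
  let p := Infinite.natEmbedding {x : N // x ≠ n0}
  let S : ℕ → Set N := fun m => insert n0 ((fun j => (p j).1) '' Iio m)
  let f : ℕ → Lip n0 := fun m => ⟨fun x => infDist x (S m),
    infDist_zero_of_mem (mem_insert _ _), 1, lipschitz_infDist_pt _⟩
  have hf1 : ∀ m, LipschitzWith 1 (f m).1 := fun m => lipschitz_infDist_pt _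
  have hfb : ∀ x m, |(f m).1 x| ≤ dist x n0 := fun x m => by
    rw [abs_of_nonneg infDist_nonneg]; exact infDist_le_dist_of_mem (mem_insert _ _)
  let ev : Lip n0 → FS n0 →ₗ[ℝ] ℝ := fun α => (LinearMap.proj α).comp (FS n0).subtype
  let δ : N → FS n0 := fun x => ⟨fun α => α.1 x, fun ε hε => ⟨Finsupp.single x 1, fun f K _ => by
    rw [Finsupp.sum_single_index (zero_mul _)]; simp; positivity⟩⟩
  have hcb : ∀ (c : N →₀ ℝ) m, |c.sum fun x a => a * (f m).1 x| ≤
      c.sum fun x a => |a| * dist x n0 := fun c m =>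
    (Finset.abs_sum_le_sum_abs _ _).trans (Finset.sum_le_sum fun x _ => by
      rw [abs_mul]; exact mul_le_mul_of_nonneg_left (hfb x m) (abs_nonneg _))
  have hb : ∀ v : FS n0, ∃ B, ∀ m, |ev (f m) v| ≤ B := by
    intro v
    obtain ⟨c, hc⟩ := v.2 1 one_pos
    refine ⟨1 + c.sum fun x a => |a| * dist x n0, fun m => ?_⟩
    have h1 := abs_le.1 (hc (f m) 1 (hf1 m))
    have h2 := abs_le.1 (hcb c m)
    simp only [NNReal.coe_one, mul_one] at h1
    show |v.1 (f m)| ≤ _
    exact abs_le.2 ⟨by linarith, by linarith⟩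
  refine NH (Equiv.refl _) ev IsInducing.subtypeVal (fun m => ev (f m)) ?_ hb ?_ hφ hψ h
  · refine linearIndependent_iff'.2 fun s g hg i => ?_
    induction i using Nat.strong_induction_on with
    | _ i ih =>
      intro hi
      have := LinearMap.congr_fun hg (δ (p i).1)
      rw [LinearMap.sum_apply, Finset.sum_eq_single_of_mem i hi fun j hj hji => by
        rcases lt_or_gt_of_ne hji with h | h
        · rw [ih j h hj]; simp
        · have : ev (f j) (δ (p i).1) = 0 := infDist_zero_of_mem (Or.inr ⟨i, h, rfl⟩)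
          rw [LinearMap.smul_apply, this, smul_zero]] at this
      have h1 : 0 < ev (f i) (δ (p i).1) := by
        refine (((finite_Iio i).image _).insert n0).isClosed.notMem_iff_infDist_pos
          (insert_nonempty _ _) |>.1 ?_
        rintro (h | ⟨j, hj, h⟩)
        · exact (p i).2 h
        · exact hj.ne (p.injective (Subtype.ext h))
      rw [LinearMap.smul_apply, smul_eq_mul, LinearMap.zero_apply] at this
      exact (mul_eq_zero.1 this).resolve_right h1.ne'
  · intro a
    have two : ∀ (c d : ℕ → ℝ) (B C r : ℝ), (∀ n, |c n| ≤ B) → (∀ n, |d n| ≤ C) →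
        (∀ n, |c n - d n| ≤ r) → |ss c a - ss d a| ≤ r * 2 := by
      intro c d B C r hc hd hr
      have := tsum_of_norm_bounded (hasSum_geometric_two.mul_left r) (bd hr a)
      rw [ss, ss, ← (ss_sum hc a).tsum_sub (ss_sum hd a)]
      refine le_of_eq_of_le (congrArg _ (tsum_congr fun n => ?_)) this
      split_ifs
      · ring
      · simp
    have hL : LipschitzWith 2 fun x => ss (fun m => (f m).1 x) a :=
      LipschitzWith.of_dist_le_mul fun x y => by
        rw [Real.dist_eq, mul_comm]
        refine two _ _ _ _ _ (hfb x) (hfb y) fun m => ?_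
        simpa [Real.dist_eq] using (hf1 m).dist_le_mul x y
    let F : Lip n0 := ⟨fun x => ss (fun m => (f m).1 x) a, by
      simp [ss, fun m => (f m).2.1], 2, hL⟩
    refine ⟨F, fun v => eq_of_forall_dist_le fun ε hε => ?_⟩
    obtain ⟨c, hc⟩ := v.2 (ε / 4) (by positivity)
    obtain ⟨B, hB⟩ := hb v
    have h1 := abs_le.1 (hc F 2 hL)
    have h2 := abs_le.1 (two _ _ _ _ (ε / 4) hB (hcb c) fun m => by
      have := hc (f m) 1 (hf1 m)
      rw [NNReal.coe_one, mul_one] at this
      exact this)
    have h3 : (c.sum fun x r => r * F.1 x) =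
        ss (fun m => c.sum fun x r => r * (f m).1 x) a := by
      have hb' : ∀ w : N →₀ ℝ, ∃ B, ∀ m,
          |Finsupp.linearCombination ℝ (f m).1 w| ≤ B := fun w => ⟨_, hcb w⟩
      have := Finsupp.lhom_ext (φ := Finsupp.linearCombination ℝ F.1)
        (ψ := ssL (fun m => Finsupp.linearCombination ℝ (f m).1) hb' a) fun x r => by
          rw [← mul_one r, ← smul_eq_mul, ← Finsupp.smul_single, map_smul, map_smul]
          simp [ssL, F]
      exact LinearMap.congr_fun this c
    rw [h3] at h1
    simp only [NNReal.coe_ofNat] at h1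
    rw [Real.dist_eq]
    show |v.1 F - _| ≤ _
    exact abs_le.2 ⟨by linarith, by linarith⟩

end Pool.Agent.H17.CW
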