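import Mathlib

set_option autoImplicit false

namespace Pool.Agent.H17.CoSob
open Set Filter Topology TopologicalSpace

/-- Saturated sets: equal to the intersection of their open supersets. -/
def Sat {X : Type} [TopologicalSpace X] (K : Set X) : Prop := K = ⋂₀ {U | IsOpen U ∧ K ⊆ U}

/-- k-irreducible compact saturated sets. -/
def KIrr {X : Type} [TopologicalSpace X] (G : Set X) : Prop :=
  G.Nonempty ∧ IsCompact G ∧ Sat G ∧ ∀ K₁ K₂ : Set X, IsCompact K₁ → Sat K₁ → IsCompact K₂ →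
    Sat K₂ → K₁ ∪ K₂ = G → K₁ = G ∨ K₂ = G

/-- Co-sober spaces. -/
def CoSober (X : Type) [TopologicalSpace X] : Prop :=
  T0Space X ∧ ∀ G : Set X, KIrr G → ∃ x : X, G = {y | x ∈ closure {y}}

theorem sat_iff {X : Type} [TopologicalSpace X] (K : Set X) :
    Sat K ↔ ∀ x ∈ K, ∀ y, x ∈ closure ({y} : Set X) → y ∈ K := by
  constructor
  · intro h x hx y hy
    rw [h]
    intro U hU
    obtain ⟨_, h1, rfl⟩ := mem_closure_iff.1 hy U hU.1 (hU.2 hx)
    exact h1
  · intro h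
    refine Subset.antisymm (fun x hx U hU => hU.2 hx) fun y hy => ?_
    by_contra hn
    exact hy (closure {y})ᶜ ⟨isClosed_closure.isOpen_compl, fun x hx hx' => hn (h x hx y hx')⟩
      (subset_closure rfl)

theorem sat_t1 {X : Type} [TopologicalSpace X] [T1Space X] (K : Set X) : Sat K := by
  rw [sat_iff]
  intro x hx y hy
  rw [closure_singleton] at hy
  exact hy ▸ hx

theorem cosober_of_remove {X : Type} [TopologicalSpace X] [T0Space X]
    (h : ∀ G : Set X, G.Nonempty → IsCompact G → Sat G →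
      ∃ x ∈ G, IsCompact (G \ {x}) ∧ Sat (G \ {x})) : CoSober X := by
  refine ⟨inferInstance, fun G ⟨h1, h2, h3, h4⟩ => ?_⟩
  obtain ⟨x, hx, h5, h6⟩ := h G h1 h2 h3
  refine ⟨x, ?_⟩
  have hc : IsCompact {y | x ∈ closure ({y} : Set X)} := by
    apply isCompact_of_finite_subcover
    intro ι U hU hK
    obtain ⟨i, hi⟩ := mem_iUnion.1 (hK (show x ∈ {y | x ∈ closure ({y} : Set X)} from
      subset_closure rfl))
    refine ⟨{i}, fun y hy => ?_⟩
    obtain ⟨_, h1, rfl⟩ := mem_closure_iff.1 hy (U i) (hU i) hi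
    simpa using h1
  have hs : Sat {y | x ∈ closure ({y} : Set X)} := by
    rw [sat_iff]
    intro y hy z hz
    exact closure_minimal (singleton_subset_iff.2 hz) isClosed_closure hy
  rcases h4 _ _ h5 h6 hc hs (by
      refine Subset.antisymm (union_subset sdiff_subset fun y hy => (sat_iff G).1 h3 x hx y hy)
        fun y hy => ?_
      by_cases hyx : y = x
      · exact Or.inr (by rw [hyx]; exact subset_closure rfl)
      · exact Or.inl ⟨hy, hyx⟩) with h | h
  · exact absurd rfl (h.ge hx).2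
  · exact h.symm

theorem ult_le_nhds {X : Type} (𝒞 : Set (Set X)) (u : Ultrafilter X) (x : X) :
    (u : Filter X) ≤ @nhds X (generateFrom (compl '' 𝒞)) x ↔ ∀ C ∈ 𝒞, C ∈ u → x ∈ C := by
  rw [nhds_generateFrom]
  simp only [le_iInf_iff, le_principal_iff, mem_ofPred_eq, Ultrafilter.mem_coe]
  constructor
  · intro h C hC hCu
    by_contra hx
    exact (Ultrafilter.compl_mem_iff_notMem.1 (h Cᶜ ⟨hx, C, hC, rfl⟩)) hCu
  · rintro h _ ⟨hx, C, hC, rfl⟩
    exact Ultrafilter.compl_mem_iff_notMem.2 fun hCu => hx (h C hC hCu)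

abbrev B : Type := ℕ →₀ ℕ

noncomputable def t : B → ℕ := Classical.choose (exists_injective_nat B)

theorem t_inj : Function.Injective t := Classical.choose_spec (exists_injective_nat B)

def Typed (n : ℕ) (S : Set B) : Prop :=
  ∀ f ∈ S, ∀ g ∈ S, (∀ s < n, f s = g s) ∧ (f n = g n → f = g)

abbrev M : Type := Bool × B

def lab (c : Bool) (b : B) (S : Set B) : Set M := insert (c, b) {x | x.1 = !c ∧ x.2 ∈ S}

def Cl (A : Set Bool) : Set (Set M) :=
  {C | (∃ x, C = {x}) ∨ ∃ c ∈ A, ∃ b S, Typed (t b) S ∧ C = lab c b S}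

@[reducible] def top (A : Set Bool) : TopologicalSpace M := generateFrom (compl '' Cl A)

theorem t1_top (A : Set Bool) : @T1Space M (top A) := by
  let _i := top A
  refine ⟨fun x => ⟨isOpen_generateFrom_of_mem ⟨{x}, Or.inl ⟨x, rfl⟩, rfl⟩⟩⟩

theorem lab_inter {c c' : Bool} {b b' : B} {S S' : Set B} (h : Typed (t b) S)
    (h' : Typed (t b') S') (hne : (c, b) ≠ (c', b')) : (lab c b S ∩ lab c' b' S').Finite := by
  have key : {x : M | (x.1 = !c ∧ x.2 ∈ S) ∧ (x.1 = !c' ∧ x.2 ∈ S')}.Subsingleton := by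
    rintro ⟨x, f⟩ ⟨⟨h1, h2⟩, h3, h4⟩ ⟨y, g⟩ ⟨⟨h5, h6⟩, -, h8⟩
    simp only at h1 h2 h3 h4 h5 h6 h8
    have hc : c = c' := by
      have := h1.symm.trans h3
      simpa using this
    have hb : t b ≠ t b' := fun e => hne (by rw [hc, t_inj e])
    have : f = g := by
      rcases lt_or_gt_of_ne hb with hl | hl
      · exact (h f h2 g h6).2 ((h' f h4 g h8).1 _ hl)
      · exact (h' f h4 g h8).2 ((h f h2 g h6).1 _ hl)
    rw [h1, h5, this]
  refine Finite.subset ((key.finite.insert (c, b)).insert (c', b')) ?_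
  rintro x ⟨h1 | h1, h2 | h2⟩
  · exact Or.inl h2
  · exact Or.inr (Or.inl h1)
  · exact Or.inl h2
  · exact Or.inr (Or.inr ⟨h1, h2⟩)

theorem compact_iff (A : Set Bool) (K : Set M) : @IsCompact M (top A) K ↔
    ∀ c ∈ A, ∀ b S, Typed (t b) S → S.Infinite → (∀ s ∈ S, (!c, s) ∈ K) → (c, b) ∈ K := by
  let _i := top A
  rw [isCompact_iff_ultrafilter_le_nhds']
  constructor
  · intro h c hc b S hS hinf hK
    have hi : {x : M | x.1 = !c ∧ x.2 ∈ S}.Infinite :=
      Infinite.mono (s := (fun s => ((!c, s) : M)) '' S)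
        (by rintro _ ⟨s, hs, rfl⟩; exact ⟨rfl, hs⟩)
        (hinf.image fun _ _ _ _ e => (Prod.ext_iff.1 e).2)
    have : (cofinite ⊓ 𝓟 {x : M | x.1 = !c ∧ x.2 ∈ S}).NeBot := hi.cofinite_inf_principal_neBot
    let u := Ultrafilter.of (cofinite ⊓ 𝓟 {x : M | x.1 = !c ∧ x.2 ∈ S})
    have hu := Ultrafilter.of_le (cofinite ⊓ 𝓟 {x : M | x.1 = !c ∧ x.2 ∈ S})
    have h1 : {x : M | x.1 = !c ∧ x.2 ∈ S} ∈ u := hu (mem_inf_of_right (mem_principal_self _))
    obtain ⟨x, hxK, hx⟩ := h u (mem_of_superset h1 (by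
      rintro ⟨x, s⟩ ⟨rfl, hs⟩; exact hK s hs))
    rw [ult_le_nhds] at hx
    have h2 : ({(!c, x.2)}ᶜ : Set M) ∈ u :=
      hu (mem_inf_of_left (finite_singleton _).compl_mem_cofinite)
    rcases hx (lab c b (S \ {x.2})) (Or.inr ⟨c, hc, b, _, fun f hf g hg => hS f hf.1 g hg.1, rfl⟩)
      (mem_of_superset (inter_mem h1 h2) (by
        rintro y ⟨⟨hy1, hy2⟩, hy3⟩
        exact Or.inr ⟨hy1, hy2, fun e => hy3 (Prod.ext hy1 e)⟩)) with e | e
    · exact e ▸ hxK
    · exact absurd rfl e.2.2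
  · intro h u hK
    rcases u.le_cofinite_or_eq_pure with hu | ⟨x, rfl⟩
    · have hfin : ∀ C : Set M, C ∈ u → C.Infinite := fun C hC hf =>
        Ultrafilter.compl_mem_iff_notMem.1 (hu hf.compl_mem_cofinite) hC
      by_cases hex : ∃ C ∈ Cl A, C ∈ u
      · obtain ⟨C, ⟨x, rfl⟩ | ⟨c, hc, b, S, hS, rfl⟩, hC⟩ := hex
        · exact absurd (finite_singleton x) (hfin _ hC)
        · refine ⟨(c, b), h c hc b {s | s ∈ S ∧ (!c, s) ∈ K}
            (fun f hf g hg => hS f hf.1 g hg.1) (fun hf => ?_) (fun s hs => hs.2), ?_⟩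
          · refine hfin _ (inter_mem hC hK) (Finite.subset
              ((hf.image fun s => ((!c, s) : M)).insert (c, b)) ?_)
            rintro ⟨y, s⟩ ⟨e | ⟨rfl, hs⟩, hy⟩
            · exact Or.inl e
            · exact Or.inr ⟨s, ⟨hs, hy⟩, rfl⟩
          · rw [ult_le_nhds]
            rintro C' (⟨x, rfl⟩ | ⟨c', -, b', S', hS', rfl⟩) hC'
            · exact absurd (finite_singleton x) (hfin _ hC')
            · by_contra hn
              exact hfin _ (inter_mem hC hC') (lab_inter hS hS' fun e => hn (Or.inl e))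
      · obtain ⟨x, hx⟩ := Ultrafilter.nonempty_of_mem hK
        exact ⟨x, hx, (ult_le_nhds _ _ _).2 fun C h1 h2 => absurd ⟨C, h1, h2⟩ hex⟩
    · exact ⟨x, hK, pure_le_nhds x⟩

theorem cosober_single (c : Bool) : @CoSober M (top {c}) := by
  let _i := top {c}
  have := t1_top {c}
  refine cosober_of_remove fun G hne hG _ => ?_
  rw [compact_iff] at hG
  by_cases h : ∃ g ∈ G, g.1 = !c
  · obtain ⟨g, hg, hgc⟩ := h
    refine ⟨g, hg, (compact_iff _ _).2 ?_, sat_t1 _⟩
    rintro _ rfl b S hS hi hK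
    refine ⟨hG _ rfl b S hS hi fun s hs => (hK s hs).1, ?_⟩
    rintro rfl
    simp at hgc
  · obtain ⟨g, hg⟩ := hne
    refine ⟨g, hg, (compact_iff _ _).2 ?_, sat_t1 _⟩
    rintro _ rfl b S hS hi hK
    obtain ⟨s, hs⟩ := hi.nonempty
    exact absurd ⟨_, (hK s hs).1, rfl⟩ h

theorem two_types {P Q : Set B} (h : ∀ f, f ∈ P ∨ f ∈ Q) {m n : ℕ} (hmn : m < n) :
    (∃ S, Typed m S ∧ S.Infinite ∧ S ⊆ P) ∨ (∃ S, Typed n S ∧ S.Infinite ∧ S ⊆ Q) := by
  let F : ℕ → ℕ → B := fun a b => Finsupp.single m a + Finsupp.single n b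
  have Fm : ∀ a b, F a b m = a := fun a b => by simp [F, hmn.ne']
  have Fn : ∀ a b, F a b n = b := fun a b => by simp [F, hmn.ne]
  by_cases hP : ∀ a, ∃ b, F a b ∈ P
  · choose g hg using hP
    refine Or.inl ⟨range fun a => F a (g a), ?_, infinite_range_of_injective ?_, ?_⟩
    · rintro _ ⟨a, rfl⟩ _ ⟨a', rfl⟩
      refine ⟨fun s hs => ?_, fun e => ?_⟩
      · have h1 : m ≠ s := by omega
        have h2 : n ≠ s := by omega
        simp [F, h1, h2]
      · simp only [Fm] at e; rw [e]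
    · intro a a' e
      have := congrArg (fun f : B => f m) e
      simpa only [Fm] using this
    · rintro _ ⟨a, rfl⟩; exact hg a
  · push Not at hP
    obtain ⟨a, ha⟩ := hP
    refine Or.inr ⟨range fun b => F a b, ?_, infinite_range_of_injective ?_, ?_⟩
    · rintro _ ⟨b, rfl⟩ _ ⟨b', rfl⟩
      refine ⟨fun s hs => ?_, fun e => ?_⟩
      · have h2 : n ≠ s := by omega
        simp [F, h2]
      · simp only [Fn] at e; rw [e]
    · intro b b' e
      have := congrArg (fun f : B => f n) e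
      simpa only [Fn] using this
    · rintro _ ⟨b, rfl⟩; exact (h _).resolve_left (ha b)

theorem same_side {K₁ K₂ : Set M} (h1 : @IsCompact M (top univ) K₁)
    (h2 : @IsCompact M (top univ) K₂) (hc : ∀ x, x ∈ K₁ ∨ x ∈ K₂) {c : Bool} {a b : B}
    (ha : (c, a) ∉ K₁) (hb : (c, b) ∉ K₂) : False := by
  rw [compact_iff] at h1 h2
  have hne : t a ≠ t b := fun e => by
    rw [t_inj e] at ha
    exact (hc _).elim ha hb
  rcases lt_or_gt_of_ne hne with hl | hl
  · rcases two_types (P := {s | (!c, s) ∈ K₁}) (Q := {s | (!c, s) ∈ K₂}) (fun f => hc _) hl with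
      ⟨S, h3, h4, h5⟩ | ⟨S, h3, h4, h5⟩
    · exact ha (h1 c trivial a S h3 h4 h5)
    · exact hb (h2 c trivial b S h3 h4 h5)
  · rcases two_types (P := {s | (!c, s) ∈ K₂}) (Q := {s | (!c, s) ∈ K₁})
      (fun f => (hc _).symm) hl with ⟨S, h3, h4, h5⟩ | ⟨S, h3, h4, h5⟩
    · exact hb (h2 c trivial b S h3 h4 h5)
    · exact ha (h1 c trivial a S h3 h4 h5)

theorem univ_compact : @IsCompact M (top univ) univ :=
  (compact_iff _ _).2 fun _ _ _ _ _ _ _ => trivial

theorem no_split {K₁ K₂ : Set M} (h1 : @IsCompact M (top univ) K₁)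
    (h2 : @IsCompact M (top univ) K₂) (hc : ∀ x, x ∈ K₁ ∨ x ∈ K₂) : K₁ = univ ∨ K₂ = univ := by
  by_contra hn
  push Not at hn
  obtain ⟨⟨c, a⟩, ha⟩ := (ne_univ_iff_exists_notMem _).1 hn.1
  obtain ⟨⟨d, b⟩, hb⟩ := (ne_univ_iff_exists_notMem _).1 hn.2
  by_cases hcd : c = d
  · subst hcd; exact same_side h1 h2 hc ha hb
  · have hd : d = !c := by cases c <;> cases d <;> simp_all
    subst hd
    have : ∃ a', (!c, a') ∉ K₁ := by
      by_contra hall
      push Not at hall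
      rcases two_types (P := univ) (Q := ∅) (fun _ => Or.inl trivial) (Nat.lt_succ_self (t a)) with
        ⟨S, h3, h4, -⟩ | ⟨S, -, h4, h5⟩
      · exact ha ((compact_iff _ _).1 h1 c trivial a S h3 h4 fun s _ => hall s)
      · exact h4 (finite_empty.subset h5)
    obtain ⟨a', ha'⟩ := this
    exact same_side h1 h2 hc ha' hb

end Pool.Agent.H17.CoSob
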