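import Mathlib

set_option autoImplicit false

namespace Pool.Agent.H17.Cons
open Set

/-- Scott-open families of open sets. -/
def Scott {Y : Type} [TopologicalSpace Y] (F : Set (Set Y)) : Prop :=
  (∀ U ∈ F, IsOpen U) ∧ (∀ U V : Set Y, U ∈ F → IsOpen V → U ⊆ V → V ∈ F) ∧
    (∀ D : Set (Set Y), D.Nonempty → (∀ U ∈ D, IsOpen U) → DirectedOn (· ⊆ ·) D →
      ⋃₀ D ∈ F → ∃ U ∈ D, U ∈ F)

theorem Scott.seq {Y : Type} [TopologicalSpace Y] {F : Set (Set Y)} (hF : Scott F)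
    (W : ℕ → Set Y) (ho : ∀ n, IsOpen (W n)) (hm : Monotone W) (hU : (⋃ n, W n) ∈ F) :
    ∃ n, W n ∈ F := by
  obtain ⟨U, ⟨n, rfl⟩, h⟩ := hF.2.2 (range W) (range_nonempty W)
    (by rintro _ ⟨n, rfl⟩; exact ho n)
    (by
      rintro _ ⟨n, rfl⟩ _ ⟨m, rfl⟩
      exact ⟨W (max n m), ⟨_, rfl⟩, hm (le_max_left _ _), hm (le_max_right _ _)⟩)
    (by rwa [sUnion_range])
  exact ⟨n, h⟩

theorem dir_fin {Y : Type} {D : Set (Set Y)} (hne : D.Nonempty) (hd : DirectedOn (· ⊆ ·) D)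
    {T : Set Y} (hT : T.Finite) (h : T ⊆ ⋃₀ D) : ∃ U ∈ D, T ⊆ U := by
  induction T, hT using Set.Finite.induction_on with
  | empty => obtain ⟨U, hU⟩ := hne; exact ⟨U, hU, empty_subset _⟩
  | @insert a T _ _ ih =>
    obtain ⟨U, hU, hTU⟩ := ih (fun x hx => h (mem_insert_of_mem _ hx))
    obtain ⟨V, hV, haV⟩ := h (mem_insert a T)
    obtain ⟨Z, hZ, h1, h2⟩ := hd U hU V hV
    exact ⟨Z, hZ, insert_subset (h2 haV) (hTU.trans h1)⟩

theorem cover_seq {Y : Type} [TopologicalSpace Y] {K : Set Y} (hK : IsCompact K)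
    (W : ℕ → Set Y) (ho : ∀ n, IsOpen (W n)) (hm : Monotone W) (hU : K ⊆ ⋃ n, W n) :
    ∃ n, K ⊆ W n :=
  hK.elim_directed_cover W ho hU (fun n m =>
    ⟨max n m, hm (le_max_left _ _), hm (le_max_right _ _)⟩)

theorem compact_of_pt {Y : Type} [TopologicalSpace Y] {K : Set Y} {x : Y} (hx : x ∈ K)
    (h : ∀ V : Set Y, IsOpen V → x ∈ V → (K \ V).Finite) : IsCompact K := by
  apply isCompact_of_finite_subcover
  intro ι U hU hK
  obtain ⟨i, hi⟩ := mem_iUnion.1 (hK hx)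
  obtain ⟨t, ht⟩ := (h _ (hU i) hi).isCompact.elim_finite_subcover U hU
    (fun y hy => hK hy.1)
  classical
  refine ⟨insert i t, fun y hy => ?_⟩
  by_cases hyi : y ∈ U i
  · exact mem_biUnion (Finset.mem_coe.2 (Finset.mem_insert_self i t)) hyi
  · obtain ⟨j, hj, hyj⟩ := mem_iUnion₂.1 (ht ⟨hy, hyi⟩)
    exact mem_biUnion (Finset.mem_coe.2 (Finset.mem_insert_of_mem hj)) hyj

/-- The bad Scott-open family. -/
def Bad {P : Type} [TopologicalSpace P] (p q : ℕ → ℕ → P) : Set (Set P) :=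
  {W | IsOpen W ∧ (∃ n k, p n k ∈ W) ∧ (∃ n j, q n j ∈ W) ∧
    ∀ j n k, n ≤ k → p j k ∈ W ∨ q n j ∈ W}

theorem scott_bad {P : Type} [TopologicalSpace P] (p q : ℕ → ℕ → P)
    (hp : ∀ W : Set P, IsOpen W → ∀ n k, p n k ∈ W → ∀ n', ∃ f, ∀ k', f ≤ k' → p n' k' ∈ W)
    (hq : ∀ W : Set P, IsOpen W → ∀ n j, q n j ∈ W → ∃ k, ∀ n' j', k ≤ j' → q n' j' ∈ W) :
    Scott (Bad p q) := by
  refine ⟨fun U hU => hU.1, ?_, ?_⟩
  · rintro U V ⟨-, ⟨n, k, h1⟩, ⟨n', j, h2⟩, h3⟩ hV hUV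
    exact ⟨hV, ⟨n, k, hUV h1⟩, ⟨n', j, hUV h2⟩,
      fun j n k h => (h3 j n k h).imp (fun h => hUV h) (fun h => hUV h)⟩
  · rintro D hne ho hd ⟨-, ⟨n0, k0, h1⟩, ⟨n1, j1, h2⟩, h3⟩
    obtain ⟨U1, hU1, hp1⟩ := h1
    obtain ⟨U2, hU2, hq2⟩ := h2
    obtain ⟨U0, hU0, h10, h20⟩ := hd U1 hU1 U2 hU2
    obtain ⟨k, hk⟩ := hq U0 (ho _ hU0) _ _ (h20 hq2)
    choose f hf using hp U0 (ho _ hU0) _ _ (h10 hp1)
    classical
    let g : ℕ × ℕ × ℕ → P := fun t => if p t.1 t.2.2 ∈ ⋃₀ D then p t.1 t.2.2 else q t.2.1 t.1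
    let S : Set (ℕ × ℕ × ℕ) := {t | t.1 < k ∧ t.2.1 ≤ t.2.2 ∧ t.2.2 < f t.1}
    have hS : S.Finite := by
      have : S ⊆ ⋃ j ∈ Iio k, ({j} : Set ℕ) ×ˢ (Iio (f j) ×ˢ Iio (f j)) := by
        rintro ⟨j, n, m⟩ ⟨a, b, c⟩
        exact mem_biUnion (x := j) a ⟨rfl, lt_of_le_of_lt b c, c⟩
      exact Finite.subset ((finite_Iio k).biUnion fun j _ =>
        (finite_singleton j).prod ((finite_Iio _).prod (finite_Iio _))) this
    obtain ⟨U3, hU3, hT⟩ := dir_fin hne hd (hS.image g) (by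
      rintro _ ⟨⟨j, n, m⟩, ⟨-, b, -⟩, rfl⟩
      simp only [g]
      split_ifs with h
      · exact h
      · exact (h3 j n m b).resolve_left h)
    obtain ⟨Z, hZ, h0Z, h3Z⟩ := hd U0 hU0 U3 hU3
    refine ⟨Z, hZ, ho _ hZ, ⟨_, _, h0Z (h10 hp1)⟩, ⟨_, _, h0Z (h20 hq2)⟩, fun j n m hnm => ?_⟩
    by_cases hj : k ≤ j
    · exact Or.inr (h0Z (hk n j hj))
    by_cases hm : f j ≤ m
    · exact Or.inl (h0Z (hf j m hm))
    have hg : g (j, n, m) ∈ Z := h3Z (hT ⟨(j, n, m), ⟨not_le.1 hj, hnm, not_le.1 hm⟩, rfl⟩)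
    simp only [g] at hg
    split_ifs at hg with h
    · exact Or.inl hg
    · exact Or.inr hg

/-- Points: an isolated point, an open layer `s` and a closed layer `r`. -/
inductive X : Type
  | b : X
  | s : ℕ → ℕ → X
  | r : ℕ → ℕ → X

def CoS (U : Set X) : Prop := ∀ n, ∃ f, ∀ k, f ≤ k → X.s n k ∈ U
def CoR (U : Set X) : Prop := ∃ k, ∀ n j, k ≤ j → X.r n j ∈ U
def Op (U : Set X) : Prop :=
  (∀ n k, X.s n k ∈ U → CoS U) ∧ (∀ n j, X.r n j ∈ U → CoR U ∧ ∀ n' k', X.s n' k' ∈ U)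

instance topX : TopologicalSpace X where
  IsOpen := Op
  isOpen_univ := ⟨fun _ _ _ _ => ⟨0, fun _ _ => trivial⟩,
    fun _ _ _ => ⟨⟨0, fun _ _ _ => trivial⟩, fun _ _ => trivial⟩⟩
  isOpen_inter := by
    rintro U V ⟨h1, h2⟩ ⟨h3, h4⟩
    refine ⟨fun n k h n' => ?_, fun n j h => ⟨?_, fun n' k' => ⟨(h2 n j h.1).2 _ _, (h4 n j h.2).2 _ _⟩⟩⟩
    · obtain ⟨f, hf⟩ := h1 n k h.1 n'
      obtain ⟨g, hg⟩ := h3 n k h.2 n'
      exact ⟨max f g, fun k' hk => ⟨hf k' (le_of_max_le_left hk), hg k' (le_of_max_le_right hk)⟩⟩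
    · obtain ⟨f, hf⟩ := (h2 n j h.1).1
      obtain ⟨g, hg⟩ := (h4 n j h.2).1
      exact ⟨max f g, fun n' k' hk =>
        ⟨hf n' k' (le_of_max_le_left hk), hg n' k' (le_of_max_le_right hk)⟩⟩
  isOpen_sUnion := by
    intro S hS
    refine ⟨fun n k ⟨U, hU, h⟩ n' => ?_, fun n j ⟨U, hU, h⟩ => ⟨?_, fun n' k' =>
      ⟨U, hU, ((hS U hU).2 n j h).2 _ _⟩⟩⟩
    · obtain ⟨f, hf⟩ := (hS U hU).1 n k h n'
      exact ⟨f, fun k' hk => ⟨U, hU, hf k' hk⟩⟩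
    · obtain ⟨f, hf⟩ := ((hS U hU).2 n j h).1
      exact ⟨f, fun n' k' hk => ⟨U, hU, hf n' k' hk⟩⟩

theorem isOpen_iff (U : Set X) : IsOpen U ↔ Op U := Iff.rfl

/-- The open layer with the points `s N (c N)`, `N ≥ i`, removed. -/
def SA (c : ℕ → ℕ) (i : ℕ) : Set X := {x | ∃ n k, x = X.s n k ∧ (i ≤ n → k ≠ c n)}
/-- The open layer with one point removed. -/
def SB (N m : ℕ) : Set X := {x | ∃ n k, x = X.s n k ∧ ¬ (n = N ∧ k = m)}
/-- The open layer. -/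
def S1 : Set X := {x | ∃ n k, x = X.s n k}
/-- Both layers with a tail of one row removed. -/
def RA (N m : ℕ) : Set X := {x | x ≠ X.b ∧ ∀ n, m ≤ n → x ≠ X.r n N}

theorem open_SA (c : ℕ → ℕ) (i : ℕ) : IsOpen (SA c i) := by
  refine ⟨fun _ _ _ n => ⟨c n + 1, fun k hk => ⟨n, k, rfl, fun _ => by omega⟩⟩, ?_⟩
  rintro n j ⟨_, _, h, -⟩; cases h

theorem open_SB (N m : ℕ) : IsOpen (SB N m) := by
  refine ⟨fun _ _ _ n => ⟨m + 1, fun k hk => ⟨n, k, rfl, by omega⟩⟩, ?_⟩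
  rintro n j ⟨_, _, h, -⟩; cases h

theorem open_S1 : IsOpen S1 := by
  refine ⟨fun _ _ _ n => ⟨0, fun k _ => ⟨n, k, rfl⟩⟩, ?_⟩
  rintro n j ⟨_, _, h⟩; cases h

theorem open_b : IsOpen ({X.b} : Set X) := by
  refine ⟨fun _ _ h => ?_, fun _ _ h => ?_⟩ <;> cases h

theorem open_diff_row {U : Set X} (hU : IsOpen U) (N m : ℕ) :
    IsOpen {x | x ∈ U ∧ ∀ n, m ≤ n → x ≠ X.r n N} := by
  refine ⟨fun n k h n' => ?_, fun n j h => ⟨?_, fun n' k' => ⟨(hU.2 n j h.1).2 _ _, ?_⟩⟩⟩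
  · obtain ⟨f, hf⟩ := hU.1 n k h.1 n'
    exact ⟨f, fun k' hk => ⟨hf k' hk, fun _ _ h => by cases h⟩⟩
  · obtain ⟨f, hf⟩ := (hU.2 n j h.1).1
    refine ⟨max f (N + 1), fun n' j' hj => ⟨hf n' j' (le_of_max_le_left hj), fun _ _ h => ?_⟩⟩
    have := le_of_max_le_right hj
    cases h; omega
  · intro _ _ h; cases h

theorem open_ne_b : IsOpen {x : X | x ≠ X.b} :=
  ⟨fun _ _ _ _ => ⟨0, fun _ _ h => by cases h⟩,
    fun _ _ _ => ⟨⟨0, fun _ _ _ h => by cases h⟩, fun _ _ h => by cases h⟩⟩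

theorem open_RA (N m : ℕ) : IsOpen (RA N m) := open_diff_row open_ne_b N m

theorem open_ne_r (n j : ℕ) : IsOpen {x : X | x ≠ X.r n j} := by
  refine ⟨fun _ _ _ _ => ⟨0, fun _ _ h => by cases h⟩,
    fun _ _ _ => ⟨⟨j + 1, fun _ _ hj h => ?_⟩, fun _ _ h => by cases h⟩⟩
  cases h; omega

instance : T0Space X := by
  refine (t0Space_iff_exists_isOpen_xor_mem X).2 ?_
  intro x y hxy
  cases x with
  | b => exact ⟨{X.b}, open_b, Or.inl ⟨rfl, fun h => hxy (Eq.symm h)⟩⟩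
  | r n j => exact ⟨_, open_ne_r n j, Or.inr ⟨fun h => hxy h.symm, fun h => h rfl⟩⟩
  | s n k =>
    cases y with
    | b => exact ⟨{X.b}, open_b, Or.inr ⟨rfl, fun h => hxy h⟩⟩
    | r n' j => exact ⟨_, open_ne_r n' j, Or.inl ⟨hxy, fun h => h rfl⟩⟩
    | s n' k' =>
      refine ⟨SB n k, open_SB n k, Or.inr ⟨⟨n', k', rfl, ?_⟩, ?_⟩⟩
      · rintro ⟨rfl, rfl⟩; exact hxy rfl
      · rintro ⟨_, _, h, h'⟩; cases h; exact h' ⟨rfl, rfl⟩

theorem consonant {F : Set (Set X)} (hF : Scott F) {U : Set X} (hU : U ∈ F) :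
    ∃ K : Set X, IsCompact K ∧ K ⊆ U ∧ ∀ V : Set X, IsOpen V → K ⊆ V → V ∈ F := by
  have hUo := hF.1 U hU
  by_cases hr : ∃ n j, X.r n j ∈ U
  · obtain ⟨n0, j0, h0⟩ := hr
    have step : ∀ (W : Set X) (j : ℕ), ∃ m, W ∈ F →
        {x | x ∈ W ∧ ∀ n, m ≤ n → x ≠ X.r n j} ∈ F := by
      intro W j
      by_cases hW : W ∈ F
      · obtain ⟨m, hm⟩ := hF.seq (fun m => {x | x ∈ W ∧ ∀ n, m ≤ n → x ≠ X.r n j})
          (fun m => open_diff_row (hF.1 W hW) j m)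
          (fun a b hab x hx => ⟨hx.1, fun n hn => hx.2 n (hab.trans hn)⟩) (by
            have : (⋃ m, {x | x ∈ W ∧ ∀ n, m ≤ n → x ≠ X.r n j}) = W := by
              refine Subset.antisymm (iUnion_subset fun m x hx => hx.1) fun x hx => ?_
              cases x with
              | b => exact mem_iUnion.2 ⟨0, hx, fun _ _ h => by cases h⟩
              | s n k => exact mem_iUnion.2 ⟨0, hx, fun _ _ h => by cases h⟩
              | r n k => exact mem_iUnion.2 ⟨n + 1, hx, fun _ hn h => by cases h; omega⟩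
            rw [this]; exact hW)
        exact ⟨m, fun _ => hm⟩
      · exact ⟨0, fun h => absurd h hW⟩
    choose c hc using step
    let W : ℕ → Set X := fun j => Nat.rec U
      (fun j Wj => {x | x ∈ Wj ∧ ∀ n, c Wj j ≤ n → x ≠ X.r n j}) j
    have hW : ∀ j, W j ∈ F := by
      intro j
      induction j with
      | zero => exact hU
      | succ j ih => exact hc _ j ih
    have hW2 : ∀ k x, x ∈ W k → x ∈ U ∧ ∀ n j, j < k → x = X.r n j → n < c (W j) j := by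
      intro k
      induction k with
      | zero => exact fun x hx => ⟨hx, fun _ _ h => absurd h (Nat.not_lt_zero _)⟩
      | succ k ih =>
        intro x hx
        refine ⟨(ih x hx.1).1, fun n j hj h => ?_⟩
        rcases Nat.lt_succ_iff_lt_or_eq.1 hj with hj | rfl
        · exact (ih x hx.1).2 n j hj h
        · by_contra hn
          exact hx.2 n (not_lt.1 hn) h
    refine ⟨{x | x ∈ U ∧ (x = X.b ∨ x = X.r n0 j0 ∨ ∃ n j, x = X.r n j ∧ n < c (W j) j)}, ?_,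
      fun x hx => hx.1, fun V hV hKV => ?_⟩
    · refine compact_of_pt (x := X.r n0 j0) ⟨h0, Or.inr (Or.inl rfl)⟩ fun V hV hx => ?_
      obtain ⟨k, hk⟩ := (hV.2 _ _ hx).1
      refine Finite.subset (Finite.insert X.b ((finite_Iio k).biUnion fun j _ =>
        (finite_Iio (c (W j) j)).image (fun n => X.r n j))) ?_
      rintro x ⟨⟨-, rfl | rfl | ⟨n, j, rfl, hn⟩⟩, hxV⟩
      · exact mem_insert _ _
      · exact absurd hx hxV
      · refine mem_insert_of_mem _ (mem_biUnion (x := j) ?_ ⟨n, hn, rfl⟩)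
        by_contra hj
        exact hxV (hk n j (not_lt.1 hj))
    · have hx : X.r n0 j0 ∈ V := hKV ⟨h0, Or.inr (Or.inl rfl)⟩
      obtain ⟨⟨k, hk⟩, hs⟩ := hV.2 _ _ hx
      refine hF.2.1 (W k) V (hW k) hV fun x hxW => ?_
      obtain ⟨hxU, hx2⟩ := hW2 k x hxW
      cases x with
      | b => exact hKV ⟨hxU, Or.inl rfl⟩
      | s n m => exact hs n m
      | r n j =>
        by_cases hj : j < k
        · exact hKV ⟨hxU, Or.inr (Or.inr ⟨n, j, rfl, hx2 n j hj rfl⟩)⟩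
        · exact hk n j (not_lt.1 hj)
  by_cases hs : ∃ n k, X.s n k ∈ U
  · obtain ⟨n0, k0, h0⟩ := hs
    by_contra hcon
    push Not at hcon
    let K : ℕ → Set X := fun N =>
      {x | x ∈ U ∧ (x = X.b ∨ x = X.s n0 k0 ∨ ∃ n k, x = X.s n k ∧ n < N)}
    have hK : ∀ N, IsCompact (K N) := by
      intro N
      refine compact_of_pt (x := X.s n0 k0) ⟨h0, Or.inr (Or.inl rfl)⟩ fun V hV hx => ?_
      choose f hf using hV.1 _ _ hx
      refine Finite.subset (Finite.insert X.b ((finite_Iio N).biUnion fun n _ =>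
        (finite_Iio (f n)).image (fun k => X.s n k))) ?_
      rintro x ⟨⟨-, rfl | rfl | ⟨n, k, rfl, hn⟩⟩, hxV⟩
      · exact mem_insert _ _
      · exact absurd hx hxV
      · refine mem_insert_of_mem _ (mem_biUnion (x := n) hn ⟨k, ?_, rfl⟩)
        by_contra hk
        exact hxV (hf n k (not_lt.1 hk))
    choose V hVo hKV hVF using fun N => hcon (K N) (hK N) (fun x hx => hx.1)
    obtain ⟨N, hN⟩ := hF.seq (fun N => {x | x ∈ U ∧ ∀ i, N ≤ i → x ∈ V i}) (by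
        intro N
        refine ⟨fun _ _ _ n => ?_, fun n j h => absurd ⟨n, j, h.1⟩ hr⟩
        obtain ⟨f0, hf0⟩ := hUo.1 _ _ h0 n
        choose f hf using fun i => (hVo i).1 _ _ (hKV i ⟨h0, Or.inr (Or.inl rfl)⟩) n
        refine ⟨max f0 ((Finset.range (n + 1)).sup f), fun k hk => ⟨hf0 k (le_of_max_le_left hk),
          fun i _ => ?_⟩⟩
        by_cases hi : n < i
        · exact hKV i ⟨hf0 k (le_of_max_le_left hk), Or.inr (Or.inr ⟨n, k, rfl, hi⟩)⟩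
        · exact hf i k ((Finset.le_sup (f := f) (Finset.mem_range.2 (by omega))).trans
            (le_of_max_le_right hk)))
      (fun a b hab x hx => ⟨hx.1, fun i hi => hx.2 i (hab.trans hi)⟩) (by
        have : (⋃ N, {x | x ∈ U ∧ ∀ i, N ≤ i → x ∈ V i}) = U := by
          refine Subset.antisymm (iUnion_subset fun m x hx => hx.1) fun x hx => ?_
          cases x with
          | b => exact mem_iUnion.2 ⟨0, hx, fun i _ => hKV i ⟨hx, Or.inl rfl⟩⟩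
          | s n k =>
            exact mem_iUnion.2 ⟨n + 1, hx, fun i hi => hKV i ⟨hx, Or.inr (Or.inr ⟨n, k, rfl, hi⟩)⟩⟩
          | r n k => exact absurd ⟨n, k, hx⟩ hr
        rw [this]; exact hU)
    exact hVF N (hF.2.1 _ _ hN (hVo N) fun x hx => hx.2 N le_rfl)
  · refine ⟨U, Finite.isCompact (Finite.subset (finite_singleton X.b) fun x hx => ?_), Subset.rfl,
      fun V hV h => hF.2.1 U V hU hV h⟩
    cases x with
    | b => rfl
    | s n k => exact absurd ⟨n, k, hx⟩ hs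
    | r n k => exact absurd ⟨n, k, hx⟩ hr

end Pool.Agent.H17.Cons
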