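import Mathlib

set_option autoImplicit false

namespace Pool.Agent.H17.Cyclide

def nsq (c p : ℝ × ℝ) : ℝ := (p.1 - c.1) ^ 2 + (p.2 - c.2) ^ 2

noncomputable def inv (c : ℝ × ℝ) (r : ℝ) (p : ℝ × ℝ) : ℝ × ℝ :=
  (c.1 + r ^ 2 * (p.1 - c.1) / nsq c p, c.2 + r ^ 2 * (p.2 - c.2) / nsq c p)

theorem nsq_pos {c p : ℝ × ℝ} (h : p ≠ c) : 0 < nsq c p := by
  unfold nsq
  by_contra h0
  have h1 : (p.1 - c.1) ^ 2 = 0 := by nlinarith [sq_nonneg (p.1 - c.1), sq_nonneg (p.2 - c.2)]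
  have h2 : (p.2 - c.2) ^ 2 = 0 := by nlinarith [sq_nonneg (p.1 - c.1), sq_nonneg (p.2 - c.2)]
  apply h
  ext
  · linarith [pow_eq_zero_iff (two_ne_zero) |>.1 h1]
  · linarith [pow_eq_zero_iff (two_ne_zero) |>.1 h2]

theorem nsq_inv {c p : ℝ × ℝ} (r : ℝ) (h : p ≠ c) : nsq c (inv c r p) = r ^ 4 / nsq c p := by
  have := (nsq_pos h).ne'
  have e : nsq c p = (p.1 - c.1) ^ 2 + (p.2 - c.2) ^ 2 := rfl
  conv_lhs => unfold nsq inv
  simp only [add_sub_cancel_left]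
  field_simp
  rw [e]

theorem inv_ne {c p : ℝ × ℝ} {r : ℝ} (hr : 0 < r) (h : p ≠ c) : inv c r p ≠ c := by
  intro h0
  have h1 := nsq_inv r h
  rw [h0] at h1
  have h2 : nsq c c = 0 := by simp [nsq]
  have := nsq_pos h
  have : 0 < r ^ 4 / nsq c p := by positivity
  linarith

theorem inv_inv {c p : ℝ × ℝ} {r : ℝ} (hr : 0 < r) (h : p ≠ c) : inv c r (inv c r p) = p := by
  have h1 := nsq_inv r h
  have := (nsq_pos h).ne'
  have hr' := hr.ne'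
  ext
  · show c.1 + r ^ 2 * ((inv c r p).1 - c.1) / nsq c (inv c r p) = p.1
    rw [h1]; simp only [inv, add_sub_cancel_left]; field_simp; ring
  · show c.2 + r ^ 2 * ((inv c r p).2 - c.2) / nsq c (inv c r p) = p.2
    rw [h1]; simp only [inv, add_sub_cancel_left]; field_simp; ring

def lin (a b c d : ℝ) (p : ℝ × ℝ) : ℝ := a * (p.1 ^ 2 + p.2 ^ 2) + b * p.1 + c * p.2 + d

def IsLin (L : ℝ × ℝ → ℝ) : Prop := ∃ a b c d, L = lin a b c d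

theorem lin_pull {L : ℝ × ℝ → ℝ} (hL : IsLin L) (c : ℝ × ℝ) (r : ℝ) :
    ∃ L', IsLin L' ∧ ∀ p, p ≠ c → L' p = nsq c p * L (inv c r p) := by
  obtain ⟨a, b, e, d, rfl⟩ := hL
  refine ⟨fun p => lin a b e d c * nsq c p + (2 * a * c.1 + b) * r ^ 2 * (p.1 - c.1) +
    (2 * a * c.2 + e) * r ^ 2 * (p.2 - c.2) + a * r ^ 4, ?_, ?_⟩
  · refine ⟨lin a b e d c, (2 * a * c.1 + b) * r ^ 2 - 2 * c.1 * lin a b e d c,
      (2 * a * c.2 + e) * r ^ 2 - 2 * c.2 * lin a b e d c,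
      lin a b e d c * (c.1 ^ 2 + c.2 ^ 2) - (2 * a * c.1 + b) * r ^ 2 * c.1 -
        (2 * a * c.2 + e) * r ^ 2 * c.2 + a * r ^ 4, ?_⟩
    funext p
    generalize lin a b e d c = K
    simp only [lin, nsq]; ring
  · intro p hp
    have h0 := (nsq_pos hp).ne'
    have e1 : nsq c p = (p.1 - c.1) ^ 2 + (p.2 - c.2) ^ 2 := rfl
    have key : a * r ^ 4 = a * r ^ 4 * ((p.1 - c.1) ^ 2 + (p.2 - c.2) ^ 2) / nsq c p := by
      rw [← e1]; field_simp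
    simp only [lin, inv]
    rw [key]
    field_simp
    ring

def cyc : Submodule ℝ (ℝ × ℝ → ℝ) :=
  Submodule.span ℝ {f | ∃ L1 L2, IsLin L1 ∧ IsLin L2 ∧ f = L1 * L2}

theorem mul_mem {L1 L2 : ℝ × ℝ → ℝ} (h1 : IsLin L1) (h2 : IsLin L2) : L1 * L2 ∈ cyc :=
  Submodule.subset_span ⟨L1, L2, h1, h2, rfl⟩

def form (w : Fin 9 → ℝ) (p : ℝ × ℝ) : ℝ :=
  w 0 * (p.1 ^ 2 + p.2 ^ 2) ^ 2 + w 1 * p.1 * (p.1 ^ 2 + p.2 ^ 2) + w 2 * p.2 * (p.1 ^ 2 + p.2 ^ 2)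
    + w 3 * p.1 ^ 2 + w 4 * p.1 * p.2 + w 5 * p.2 ^ 2 + w 6 * p.1 + w 7 * p.2 + w 8

theorem cyc_form {G : ℝ × ℝ → ℝ} (h : G ∈ cyc) : ∃ w, G = form w := by
  induction h using Submodule.span_induction with
  | mem f hf =>
    obtain ⟨_, _, ⟨a, b, c, d, rfl⟩, ⟨a', b', c', d', rfl⟩, rfl⟩ := hf
    refine ⟨![a * a', a * b' + b * a', a * c' + c * a', a * d' + d * a' + b * b', b * c' + c * b',
      a * d' + d * a' + c * c', b * d' + d * b', c * d' + d * c', d * d'], ?_⟩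
    funext p
    simp [form, lin]; ring
  | zero => exact ⟨0, by funext p; simp [form]⟩
  | add f g _ _ hf hg =>
    obtain ⟨w, rfl⟩ := hf
    obtain ⟨w', rfl⟩ := hg
    exact ⟨w + w', by funext p; simp [form]; ring⟩
  | smul a f _ hf =>
    obtain ⟨w, rfl⟩ := hf
    exact ⟨a • w, by funext p; simp [form]; ring⟩

theorem cubic_mem (u v a b c d e f : ℝ) : (fun p : ℝ × ℝ => (u * p.1 + v * p.2) *
    (p.1 ^ 2 + p.2 ^ 2) + a * p.1 ^ 2 + b * p.1 * p.2 + c * p.2 ^ 2 + d * p.1 + e * p.2 + f) ∈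
    cyc := by
  have h1 := mul_mem ⟨0, u, v, 0, rfl⟩ ⟨1, 0, 0, 0, rfl⟩
  have h2 := mul_mem ⟨0, 1, 0, 0, rfl⟩ ⟨0, a, b, d, rfl⟩
  have h3 := mul_mem ⟨0, 0, 1, 0, rfl⟩ ⟨0, 0, c, e, rfl⟩
  have h4 := mul_mem ⟨0, 0, 0, 1, rfl⟩ ⟨0, 0, 0, f, rfl⟩
  have := cyc.add_mem (cyc.add_mem (cyc.add_mem h1 h2) h3) h4
  convert this using 1
  funext p
  simp [lin]; ring

theorem cyc_pull {G : ℝ × ℝ → ℝ} (h : G ∈ cyc) (c : ℝ × ℝ) (r : ℝ) :
    ∃ G' ∈ cyc, ∀ p, p ≠ c → G' p = nsq c p ^ 2 * G (inv c r p) := by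
  induction h using Submodule.span_induction with
  | mem f hf =>
    obtain ⟨L1, L2, h1, h2, rfl⟩ := hf
    obtain ⟨M1, k1, e1⟩ := lin_pull h1 c r
    obtain ⟨M2, k2, e2⟩ := lin_pull h2 c r
    exact ⟨M1 * M2, mul_mem k1 k2, fun p hp => by simp only [Pi.mul_apply, e1 p hp, e2 p hp]; ring⟩
  | zero => exact ⟨0, cyc.zero_mem, fun p _ => by simp⟩
  | add f g _ _ hf hg =>
    obtain ⟨f', a1, a2⟩ := hf
    obtain ⟨g', b1, b2⟩ := hg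
    exact ⟨f' + g', cyc.add_mem a1 b1, fun p hp => by
      simp only [Pi.add_apply, a2 p hp, b2 p hp]; ring⟩
  | smul a f _ hf =>
    obtain ⟨f', a1, a2⟩ := hf
    exact ⟨a • f', cyc.smul_mem a a1, fun p hp => by
      simp only [Pi.smul_apply, smul_eq_mul, a2 p hp]; ring⟩

def Two (T : Set (ℝ × ℝ)) (L : ℝ × ℝ → ℝ) : Prop :=
  ∃ p ∈ T, ∃ p' ∈ T, p ≠ p' ∧ L p = 0 ∧ L p' = 0

theorem Two.ne {T : Set (ℝ × ℝ)} {L : ℝ × ℝ → ℝ} (h : Two T L) (c : ℝ × ℝ) :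
    ∃ p ∈ T, p ≠ c ∧ L p = 0 := by
  obtain ⟨p, hp, p', hp', hne, z, z'⟩ := h
  by_cases hc : p = c
  · exact ⟨p', hp', fun h => hne (hc.trans h.symm), z'⟩
  · exact ⟨p, hp, hc, z⟩

def Rigid (T Q : Set (ℝ × ℝ)) : Prop :=
  ∃ L1 L2, IsLin L1 ∧ IsLin L2 ∧ Two T L1 ∧ Two T L2 ∧
    (∀ q ∈ Q, L1 q = 0 ∧ L2 q = 0) ∧
    ∀ G ∈ cyc, (∀ p ∈ T, G p = 0) → ∃ κ : ℝ, ∀ p, G p = κ * L1 p * L2 p

theorem transfer {L1 L2 M1 M2 G G' : ℝ × ℝ → ℝ} {c : ℝ × ℝ} {r κ : ℝ} (hr : 0 < r)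
    (k1 : IsLin M1) (k2 : IsLin M2) (e1 : ∀ p, p ≠ c → M1 p = nsq c p * L1 (inv c r p))
    (e2 : ∀ p, p ≠ c → M2 p = nsq c p * L2 (inv c r p)) (hGc : G ∈ cyc)
    (g2 : ∀ p, p ≠ c → G' p = nsq c p ^ 2 * G (inv c r p)) (hκ : ∀ p, G' p = κ * L1 p * L2 p) :
    ∀ p, G p = κ / r ^ 8 * M1 p * M2 p := by
  have key : ∀ z, z ≠ c → G z = κ / r ^ 8 * M1 z * M2 z := by
    intro z hz
    have a1 := g2 _ (inv_ne hr hz)
    rw [inv_inv hr hz, hκ, nsq_inv r hz] at a1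
    have h0 := (nsq_pos hz).ne'
    have hr' := hr.ne'
    rw [e1 z hz, e2 z hz]
    field_simp at a1 ⊢
    linear_combination -a1
  obtain ⟨w, rfl⟩ := cyc_form hGc
  obtain ⟨a, b, e, d, rfl⟩ := k1
  obtain ⟨a', b', e', d', rfl⟩ := k2
  have c1 : Continuous (form w) := by unfold form; fun_prop
  have c2 : Continuous (fun z => κ / r ^ 8 * lin a b e d z * lin a' b' e' d' z) := by
    unfold lin; fun_prop
  have := Continuous.ext_on (dense_compl_singleton c) c1 c2 (fun z hz => key z hz)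
  exact fun p => congrFun this p

theorem Rigid.inv {T Q : Set (ℝ × ℝ)} (h : Rigid T Q) {c : ℝ × ℝ} {r : ℝ} (hr : 0 < r)
    (hc : c ∉ T) : Rigid (inv c r '' T) (inv c r '' (Q \ {c})) := by
  obtain ⟨L1, L2, h1, h2, t1, t2, hQ, hG⟩ := h
  obtain ⟨M1, k1, e1⟩ := lin_pull h1 c r
  obtain ⟨M2, k2, e2⟩ := lin_pull h2 c r
  have ne : ∀ p ∈ T, p ≠ c := fun p hp h => hc (h ▸ hp)
  have two : ∀ L M : ℝ × ℝ → ℝ, (∀ p, p ≠ c → M p = nsq c p * L (Cyclide.inv c r p)) → Two T L →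
      Two (Cyclide.inv c r '' T) M := by
    rintro L M e ⟨p, hp, p', hp', hne, z, z'⟩
    refine ⟨_, ⟨p, hp, rfl⟩, _, ⟨p', hp', rfl⟩, fun h => hne ?_, ?_, ?_⟩
    · rw [← inv_inv hr (ne _ hp), h, inv_inv hr (ne _ hp')]
    · rw [e _ (inv_ne hr (ne _ hp)), inv_inv hr (ne _ hp), z, mul_zero]
    · rw [e _ (inv_ne hr (ne _ hp')), inv_inv hr (ne _ hp'), z', mul_zero]
  refine ⟨M1, M2, k1, k2, two _ _ e1 t1, two _ _ e2 t2, ?_, ?_⟩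
  · rintro _ ⟨q, ⟨hq, hqc⟩, rfl⟩
    have hqc' : q ≠ c := hqc
    rw [e1 _ (inv_ne hr hqc'), e2 _ (inv_ne hr hqc'), inv_inv hr hqc', (hQ q hq).1, (hQ q hq).2]
    simp
  · intro G hGc hz
    obtain ⟨G', g1, g2⟩ := cyc_pull hGc c r
    obtain ⟨κ, hκ⟩ := hG G' g1 (fun p hp => by rw [g2 p (ne p hp), hz _ ⟨p, hp, rfl⟩, mul_zero])
    exact ⟨κ / r ^ 8, transfer hr k1 k2 e1 e2 hGc g2 hκ⟩

theorem odd1 (c1 c2 c3 c4 : ℝ) (h : ∀ t : ℝ, c1 * t + c2 * t ^ 2 + c3 * t ^ 3 + c4 * t ^ 4 = 0) :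
    c1 = 0 ∧ c2 = 0 := by
  have a := h 1
  have b := h (-1)
  have c := h 2
  have d := h (-2)
  constructor <;> linarith

theorem Rigid.sing {T Q : Set (ℝ × ℝ)} (h : Rigid T Q) {q : ℝ × ℝ} (hq : q ∈ Q)
    {G : ℝ × ℝ → ℝ} (hG : G ∈ cyc) (hz : ∀ p ∈ T, G p = 0) :
    ∃ κ a b e a' b' e' : ℝ, ∀ x y t : ℝ, G (q.1 + t * x, q.2 + t * y) =
      κ * (t * (b * x + e * y) + t ^ 2 * a * (x ^ 2 + y ^ 2)) *
        (t * (b' * x + e' * y) + t ^ 2 * a' * (x ^ 2 + y ^ 2)) := by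
  obtain ⟨_, _, ⟨a, b, e, d, rfl⟩, ⟨a', b', e', d', rfl⟩, -, -, hQ, hG'⟩ := h
  obtain ⟨κ, hκ⟩ := hG' G hG hz
  obtain ⟨z1, z2⟩ := hQ q hq
  refine ⟨κ, a, 2 * a * q.1 + b, 2 * a * q.2 + e, a', 2 * a' * q.1 + b', 2 * a' * q.2 + e',
    fun x y t => ?_⟩
  rw [hκ]
  simp only [lin] at z1 z2 ⊢
  congr 1
  · congr 1
    linear_combination z1
  · linear_combination z2

theorem Rigid.not_ellipse {T Q : Set (ℝ × ℝ)} (h : Rigid T Q) {q : ℝ × ℝ} (hq : q ∈ Q)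
    (a b c d e f : ℝ) (hd : b ^ 2 < 4 * a * c)
    (hz : ∀ p ∈ T, a * p.1 ^ 2 + b * p.1 * p.2 + c * p.2 ^ 2 + d * p.1 + e * p.2 + f = 0) :
    False := by
  obtain ⟨κ, A, B, E, A', B', E', H⟩ := h.sing hq (cubic_mem 0 0 a b c d e f)
    (fun p hp => by simpa using hz p hp)
  have h0 := H 0 0 0
  simp only [mul_zero, add_zero, zero_mul, zero_add] at h0
  have key : ∀ x y : ℝ, a * x ^ 2 + b * x * y + c * y ^ 2 =
      κ * (B * x + E * y) * (B' * x + E' * y) := by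
    intro x y
    have := (odd1 (2 * a * q.1 * x + b * (q.1 * y + q.2 * x) + 2 * c * q.2 * y + d * x + e * y)
      (a * x ^ 2 + b * x * y + c * y ^ 2 - κ * (B * x + E * y) * (B' * x + E' * y))
      (-κ * (x ^ 2 + y ^ 2) * (A * (B' * x + E' * y) + A' * (B * x + E * y)))
      (-κ * A * A' * (x ^ 2 + y ^ 2) ^ 2) (fun t => by
        have := H x y t
        simp only at this
        linear_combination this - h0)).2
    linarith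
  have k1 := key 1 0
  have k2 := key 0 1
  have k3 := key 1 1
  have ha : a = κ * B * B' := by linarith
  have hc : c = κ * E * E' := by linarith
  have hb : b = κ * (B * E' + E * B') := by linarith
  rw [ha, hb, hc] at hd
  nlinarith [sq_nonneg (κ * (B * E' - E * B'))]

theorem Rigid.not_circles {T Q : Set (ℝ × ℝ)} (h : Rigid T Q) {q : ℝ × ℝ} (hq : q ∈ Q)
    (c c' : ℝ × ℝ) (r r' : ℝ) (hr : 0 < r) (hr' : 0 < r')
    (hd : ∀ p, nsq c p = r ^ 2 → nsq c' p = r' ^ 2 → False)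
    (hz : ∀ p ∈ T, nsq c p = r ^ 2 ∨ nsq c' p = r' ^ 2) : False := by
  have aux : ∀ (c c' : ℝ × ℝ) (r r' : ℝ), 0 < r → nsq c q = r ^ 2 → nsq c' q ≠ r' ^ 2 →
      ∀ κ A B E A' B' E' : ℝ, (∀ x y t : ℝ, (nsq c (q.1 + t * x, q.2 + t * y) - r ^ 2) *
        (nsq c' (q.1 + t * x, q.2 + t * y) - r' ^ 2) =
      κ * (t * (B * x + E * y) + t ^ 2 * A * (x ^ 2 + y ^ 2)) *
        (t * (B' * x + E' * y) + t ^ 2 * A' * (x ^ 2 + y ^ 2))) → False := by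
    intro c c' r r' hr h1 h2 κ A B E A' B' E' H
    set x := q.1 - c.1 with hx
    set y := q.2 - c.2 with hy
    set η := nsq c' q - r' ^ 2 with hη
    have hxy : x ^ 2 + y ^ 2 = r ^ 2 := h1
    have := (odd1 (η * (2 * r ^ 2))
      (η * r ^ 2 + 2 * r ^ 2 * (2 * ((q.1 - c'.1) * x + (q.2 - c'.2) * y))
        - κ * (B * x + E * y) * (B' * x + E' * y))
      (2 * r ^ 4 + r ^ 2 * (2 * ((q.1 - c'.1) * x + (q.2 - c'.2) * y))
        - κ * r ^ 2 * (A * (B' * x + E' * y) + A' * (B * x + E * y)))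
      (r ^ 4 - κ * A * A' * r ^ 4) (fun t => by
        have := H x y t
        have e1 : nsq c (q.1 + t * x, q.2 + t * y) - r ^ 2 = 2 * r ^ 2 * t + r ^ 2 * t ^ 2 := by
          simp only [nsq]; rw [← hxy, hx, hy]; ring
        have e2 : nsq c' (q.1 + t * x, q.2 + t * y) - r' ^ 2 =
            η + t * (2 * ((q.1 - c'.1) * x + (q.2 - c'.2) * y)) + r ^ 2 * t ^ 2 := by
          rw [hη, ← hxy]; simp only [nsq]; ring
        rw [e1, e2, hxy] at this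
        linear_combination this)).1
    have hη0 : η ≠ 0 := sub_ne_zero.2 h2
    have : (2 : ℝ) * r ^ 2 = 0 := (mul_eq_zero.1 this).resolve_left hη0
    nlinarith
  have l1 : IsLin (fun p => nsq c p - r ^ 2) :=
    ⟨1, -2 * c.1, -2 * c.2, c.1 ^ 2 + c.2 ^ 2 - r ^ 2, by funext p; simp [lin, nsq]; ring⟩
  have l2 : IsLin (fun p => nsq c' p - r' ^ 2) :=
    ⟨1, -2 * c'.1, -2 * c'.2, c'.1 ^ 2 + c'.2 ^ 2 - r' ^ 2, by funext p; simp [lin, nsq]; ring⟩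
  obtain ⟨κ, A, B, E, A', B', E', H⟩ := h.sing hq (mul_mem l1 l2) (fun p hp => by
    rcases hz p hp with h | h <;> simp [h])
  simp only [Pi.mul_apply] at H
  have h0 : (nsq c q - r ^ 2) * (nsq c' q - r' ^ 2) = 0 := by
    have := H 0 0 0
    simpa using this
  rcases mul_eq_zero.1 h0 with h1 | h1
  · have h1' : nsq c q = r ^ 2 := by linarith
    exact aux c c' r r' hr h1' (fun h => hd q h1' h) κ A B E A' B' E' H
  · have h1' : nsq c' q = r' ^ 2 := by linarith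
    exact aux c' c r' r hr' h1' (fun h => hd q h h1') κ A B E A' B' E'
      (fun x y t => by rw [mul_comm]; exact H x y t)

def cub (u v a b c d e f : ℝ) (p : ℝ × ℝ) : ℝ := (u * p.1 + v * p.2) *
    (p.1 ^ 2 + p.2 ^ 2) + a * p.1 ^ 2 + b * p.1 * p.2 + c * p.2 ^ 2 + d * p.1 + e * p.2 + f

open MvPolynomial in
theorem eval_cub {u v a b c d e f : ℝ} {F : MvPolynomial (Fin 2) ℝ}
    (hF : F = (C u * X 0 + C v * X 1) * (X 0 ^ 2 + X 1 ^ 2) + C a * X 0 ^ 2 + C b * X 0 * X 1 +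
      C c * X 1 ^ 2 + C d * X 0 + C e * X 1 + C f) (p : ℝ × ℝ) :
    eval ![p.1, p.2] F = cub u v a b c d e f p := by
  rw [hF]; simp [cub]

open MvPolynomial in
theorem irr_contra {u v a b c d e f κ : ℝ} {F : MvPolynomial (Fin 2) ℝ}
    (hF : F = (C u * X 0 + C v * X 1) * (X 0 ^ 2 + X 1 ^ 2) + C a * X 0 ^ 2 + C b * X 0 * X 1 +
      C c * X 1 ^ 2 + C d * X 0 + C e * X 1 + C f) (hi : Irreducible F) {L1 L2 : ℝ × ℝ → ℝ}
    (h1 : IsLin L1) (h2 : IsLin L2) {p1 p2 : ℝ × ℝ} (z1 : L1 p1 = 0) (z2 : L2 p2 = 0)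
    (hκ : ∀ p, cub u v a b c d e f p = κ * L1 p * L2 p) : False := by
  obtain ⟨A, B, E, D, rfl⟩ := h1
  obtain ⟨A', B', E', D', rfl⟩ := h2
  have hfac : F = (C κ * (C A * (X 0 ^ 2 + X 1 ^ 2) + C B * X 0 + C E * X 1 + C D)) *
      (C A' * (X 0 ^ 2 + X 1 ^ 2) + C B' * X 0 + C E' * X 1 + C D') := by
    apply MvPolynomial.funext
    intro x
    have := hκ (x 0, x 1)
    simp only [lin, cub] at this
    rw [hF]
    simpa using this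
  rcases hi.isUnit_or_isUnit hfac with hu | hu
  · have := hu.map (eval ![p1.1, p1.2])
    simp only [lin] at z1
    simp [z1] at this
  · have := hu.map (eval ![p2.1, p2.2])
    simp only [lin] at z2
    simp [z2] at this

open MvPolynomial in
theorem Rigid.not_cubic {T Q : Set (ℝ × ℝ)} (h : Rigid T Q) {u v a b c d e f : ℝ}
    {F : MvPolynomial (Fin 2) ℝ}
    (hF : F = (C u * X 0 + C v * X 1) * (X 0 ^ 2 + X 1 ^ 2) + C a * X 0 ^ 2 + C b * X 0 * X 1 +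
      C c * X 1 ^ 2 + C d * X 0 + C e * X 1 + C f) (hi : Irreducible F)
    (hz : ∀ p ∈ T, eval ![p.1, p.2] F = 0) : False := by
  obtain ⟨L1, L2, h1, h2, ⟨p1, -, -, -, -, z1, -⟩, ⟨p2, -, -, -, -, z2, -⟩, -, hG⟩ := h
  obtain ⟨κ, hκ⟩ := hG _ (cubic_mem u v a b c d e f) (fun p hp => by
    have := hz p hp
    rwa [eval_cub hF] at this)
  exact irr_contra hF hi h1 h2 z1 z2 hκ

theorem lin_pull0 (b e d : ℝ) (c : ℝ × ℝ) (r : ℝ) :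
    ∃ L', IsLin L' ∧ L' c = 0 ∧ ∀ p, p ≠ c → L' p = nsq c p * lin 0 b e d (inv c r p) := by
  refine ⟨fun p => lin 0 b e d c * nsq c p + b * r ^ 2 * (p.1 - c.1) +
    e * r ^ 2 * (p.2 - c.2), ?_, by simp [nsq], ?_⟩
  · refine ⟨lin 0 b e d c, b * r ^ 2 - 2 * c.1 * lin 0 b e d c,
      e * r ^ 2 - 2 * c.2 * lin 0 b e d c,
      lin 0 b e d c * (c.1 ^ 2 + c.2 ^ 2) - b * r ^ 2 * c.1 - e * r ^ 2 * c.2, ?_⟩
    funext p
    generalize lin 0 b e d c = K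
    simp only [lin, nsq]; ring
  · intro p hp
    have h0 := (nsq_pos hp).ne'
    simp only [lin, inv]
    field_simp
    ring

open MvPolynomial in
theorem Rigid.not_quartic {T Q : Set (ℝ × ℝ)} (h : Rigid T Q) {u v a b c d e f : ℝ}
    {F : MvPolynomial (Fin 2) ℝ}
    (hF : F = (C u * X 0 + C v * X 1) * (X 0 ^ 2 + X 1 ^ 2) + C a * X 0 ^ 2 + C b * X 0 * X 1 +
      C c * X 1 ^ 2 + C d * X 0 + C e * X 1 + C f) (hi : Irreducible F) (o : ℝ × ℝ) {r : ℝ}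
    (hr : 0 < r)
    (hz : ∀ p ∈ T, p ≠ o → eval ![(Cyclide.inv o r p).1, (Cyclide.inv o r p).2] F = 0) :
    False := by
  obtain ⟨L1, L2, h1, h2, t1, t2, -, hG⟩ := h
  obtain ⟨M1, k1, e1⟩ := lin_pull h1 o r
  obtain ⟨M2, k2, e2⟩ := lin_pull h2 o r
  obtain ⟨A1, a1, z1, b1⟩ := lin_pull0 u v 0 o r
  obtain ⟨A2, a2, b2⟩ := lin_pull ⟨1, 0, 0, 0, rfl⟩ o r
  obtain ⟨A3, a3, z3, b3⟩ := lin_pull0 1 0 0 o r
  obtain ⟨A4, a4, -, b4⟩ := lin_pull0 a b d o r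
  obtain ⟨A5, a5, z5, b5⟩ := lin_pull0 0 1 0 o r
  obtain ⟨A6, a6, -, b6⟩ := lin_pull0 0 c e o r
  obtain ⟨A7, a7, z7, b7⟩ := lin_pull0 0 0 1 o r
  obtain ⟨A8, a8, -, b8⟩ := lin_pull0 0 0 f o r
  have g1 := cyc.add_mem (cyc.add_mem (cyc.add_mem (mul_mem a1 a2) (mul_mem a3 a4))
    (mul_mem a5 a6)) (mul_mem a7 a8)
  have g2 : ∀ p, p ≠ o → (A1 * A2 + A3 * A4 + A5 * A6 + A7 * A8) p =
      nsq o p ^ 2 * cub u v a b c d e f (Cyclide.inv o r p) := by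
    intro p hp
    simp only [Pi.add_apply, Pi.mul_apply, b1 p hp, b2 p hp, b3 p hp, b4 p hp, b5 p hp, b6 p hp,
      b7 p hp, b8 p hp, lin, cub]
    ring
  obtain ⟨κ, hκ⟩ := hG _ g1 (fun p hp => by
    by_cases hpo : p = o
    · simp [hpo, z1, z3, z5, z7]
    · rw [g2 p hpo, ← eval_cub hF, hz p hp hpo, mul_zero])
  have := transfer hr k1 k2 e1 e2 (cubic_mem u v a b c d e f) g2 hκ
  obtain ⟨p1, -, n1, y1⟩ := t1.ne o
  obtain ⟨p2, -, n2, y2⟩ := t2.ne o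
  refine irr_contra hF hi k1 k2 (p1 := Cyclide.inv o r p1) (p2 := Cyclide.inv o r p2) ?_ ?_ this
  · rw [e1 _ (inv_ne hr n1), inv_inv hr n1, y1, mul_zero]
  · rw [e2 _ (inv_ne hr n2), inv_inv hr n2, y2, mul_zero]

end Pool.Agent.H17.Cyclide
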