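import Mathlib

set_option autoImplicit false

namespace Pool.Agent.H17.W1
open Set Cardinal

abbrev W : Type := (Cardinal.aleph.{0} 1).ord.ToType

theorem mkW : #W = aleph 1 := by simp [W]

theorem cIio (a : W) : (Iio a).Countable := by
  rw [← Cardinal.le_aleph0_iff_set_countable, ← Order.lt_succ_iff, Cardinal.succ_aleph0]
  exact mk_Iio_toType_ord_lt a

theorem cIic (a : W) : (Iic a).Countable := by
  rw [← Iio_insert]
  exact (cIio a).insert a

instance : Uncountable W := by
  rw [← Cardinal.aleph0_lt_mk_iff, mkW]
  exact Cardinal.aleph0_lt_aleph_one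

theorem bound {S : Set W} (hS : S.Countable) : ∃ b, ∀ a ∈ S, a < b := by
  by_contra h
  push Not at h
  apply Set.not_countable_univ (α := W)
  refine (hS.biUnion fun a _ => cIic a).mono fun b _ => ?_
  obtain ⟨a, ha, hb⟩ := h b
  exact mem_biUnion ha hb

theorem exists_gt (a : W) : ∃ b, a < b := by
  obtain ⟨b, hb⟩ := bound (countable_singleton a)
  exact ⟨b, hb a rfl⟩

theorem inj_cantor : ∃ e : W → ℕ → Bool, Function.Injective e := by
  have : #W ≤ #(ℕ → Bool) := by
    rw [mkW]
    simpa using Cardinal.aleph_one_le_continuum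
  obtain ⟨e⟩ := this
  exact ⟨e, e.injective⟩

/-- Strong recursion for sequences. -/
theorem rec_seq {α : Type} [Inhabited α] (c : (ℕ → α) → ℕ → α)
    (hc : ∀ f g n, (∀ i < n, f i = g i) → c f n = c g n) : ∃ f : ℕ → α, ∀ n, f n = c f n := by
  let F : ℕ → ℕ → α := fun n => Nat.rec (fun _ => default)
    (fun n G => Function.update G n (c G n)) n
  have hF : ∀ n, F (n + 1) = Function.update (F n) n (c (F n) n) := fun n => rfl
  have key : ∀ n, ∀ i < n, F n i = F (i + 1) i := by
    intro n
    induction n with
    | zero => intro i hi; omega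
    | succ n ih =>
      intro i hi
      by_cases h : i = n
      · rw [h]
      · rw [hF n, Function.update_of_ne h]
        exact ih i (by omega)
  refine ⟨fun n => F (n + 1) n, fun n => ?_⟩
  change F (n + 1) n = _
  rw [hF n, Function.update_self]
  exact hc _ _ n (key n)

end Pool.Agent.H17.W1
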