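import Mathlib
import Pool.Agent.H17.W1

set_option autoImplicit false

namespace Pool.Agent.H17.DO
open Set Filter Topology TopologicalSpace Pool.Agent.H17.W1

/-- The class of families of open sets with dense union, no dense member, and such that each
finite family of non-empty open sets is met by a single member. -/
def DOm (X : Type) [TopologicalSpace X] (𝒰 : Set (Set X)) : Prop :=
  (∀ U ∈ 𝒰, IsOpen U) ∧ Dense (⋃₀ 𝒰) ∧ (∀ U ∈ 𝒰, ¬ univ ⊆ closure U) ∧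
    ∀ ℱ : Set (Set X), ℱ.Finite → (∀ F ∈ ℱ, IsOpen F ∧ F.Nonempty) →
      ∃ U ∈ 𝒰, ∀ F ∈ ℱ, (U ∩ F).Nonempty

def S1 (X : Type) [TopologicalSpace X] : Prop :=
  ∀ 𝒰 : ℕ → Set (Set X), (∀ n, DOm X (𝒰 n)) →
    ∃ U : ℕ → Set X, (∀ n, U n ∈ 𝒰 n) ∧ DOm X (range U)

def Sfin (X : Type) [TopologicalSpace X] : Prop :=
  ∀ 𝒰 : ℕ → Set (Set X), (∀ n, DOm X (𝒰 n)) →
    ∃ ℱ : ℕ → Set (Set X), (∀ n, ℱ n ⊆ 𝒰 n ∧ (ℱ n).Finite) ∧ DOm X (⋃ n, ℱ n)

variable {X : Type} [TopologicalSpace X]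

def Tst (z : Set (Set X)) : Prop := z.Finite ∧ ∀ F ∈ z, IsOpen F ∧ F.Nonempty

def Par (z : Set (Set X)) (U : Set X) : Prop := ∀ F ∈ z, (U ∩ F).Nonempty

def Gd (U : Set X) : Prop := IsOpen U ∧ ¬ univ ⊆ closure U

theorem Par.mono {z : Set (Set X)} {U V : Set X} (h : Par z U) (hUV : U ⊆ V) : Par z V :=
  fun F hF => (h F hF).mono (inter_subset_inter_left _ hUV)

theorem Gd.of_sub {U V : Set X} (hV : Gd V) (hU : IsOpen U) (h : U ⊆ V) : Gd U :=
  ⟨hU, fun h' => hV.2 (h'.trans (closure_mono h))⟩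

theorem dom_of {𝒰 : Set (Set X)} (h1 : ∀ U ∈ 𝒰, Gd U) (h2 : ∀ z, Tst z → ∃ U ∈ 𝒰, Par z U) :
    DOm X 𝒰 := by
  refine ⟨fun U hU => (h1 U hU).1, dense_iff_inter_open.2 fun O hO hne => ?_,
    fun U hU => (h1 U hU).2, fun z a b => h2 z ⟨a, b⟩⟩
  obtain ⟨U, hU, h⟩ := h2 {O} ⟨finite_singleton _, by rintro _ rfl; exact ⟨hO, hne⟩⟩
  obtain ⟨x, hx⟩ := h O rfl
  exact ⟨x, hx.2, U, hU, hx.1⟩

theorem DOm.gd {𝒰 : Set (Set X)} (h : DOm X 𝒰) {U : Set X} (hU : U ∈ 𝒰) : Gd U :=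
  ⟨h.1 U hU, h.2.2.1 U hU⟩

theorem DOm.par {𝒰 : Set (Set X)} (h : DOm X 𝒰) {z : Set (Set X)} (hz : Tst z) :
    ∃ U ∈ 𝒰, Par z U := h.2.2.2 z hz.1 hz.2

/-- A property of open sets is large if some open set with it meets all members of any test. -/
def Lg (Q : Set X → Prop) : Prop := ∀ z, Tst z → ∃ V, IsOpen V ∧ Par z V ∧ ∀ W ⊆ V, Q W

theorem Lg.and {Q R : Set X → Prop} (hQ : Lg Q) (hR : Lg R) : Lg fun W => Q W ∧ R W := by
  intro z hz
  obtain ⟨V, hV, h1, h2⟩ := hQ z hz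
  obtain ⟨V', hV', h3, h4⟩ := hR ((fun F => V ∩ F) '' z) ⟨hz.1.image _, by
    rintro _ ⟨F, hF, rfl⟩
    exact ⟨hV.inter (hz.2 F hF).1, h1 F hF⟩⟩
  refine ⟨V' ∩ V, hV'.inter hV, fun F hF => ?_, fun W hW =>
    ⟨h2 W (hW.trans inter_subset_right), h4 W (hW.trans inter_subset_left)⟩⟩
  rw [inter_assoc]
  exact h3 _ ⟨F, hF, rfl⟩

theorem Lg.mono {Q R : Set X → Prop} (hQ : Lg Q) (h : ∀ W, Q W → R W) : Lg R := fun z hz => by
  obtain ⟨V, hV, h1, h2⟩ := hQ z hz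
  exact ⟨V, hV, h1, fun W hW => h W (h2 W hW)⟩

theorem Lg.all {ι : Type} {S : Set ι} (hS : S.Finite) {Q : ι → Set X → Prop}
    (h : ∀ a ∈ S, Lg (Q a)) : Lg fun W => ∀ a ∈ S, Q a W := by
  induction S, hS using Set.Finite.induction_on with
  | empty => exact fun z hz => ⟨univ, isOpen_univ, fun F hF => by simpa using (hz.2 F hF).2,
      fun _ _ _ h => h.elim⟩
  | insert _ _ ih =>
    refine ((h _ (mem_insert _ _)).and (ih fun a ha => h a (mem_insert_of_mem _ ha))).mono ?_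
    rintro W ⟨h1, h2⟩ a (rfl | ha)
    · exact h1
    · exact h2 a ha

theorem Lg.bind {Q : ℕ → Set X → Prop} {R : Set X → Prop} (h : Lg fun W => ∃ k, ∀ W' ⊆ W, Q k W')
    (hR : ∀ k, Lg fun W => Q k W → R W) : Lg R := by
  intro z hz
  obtain ⟨V, hV, h1, h2⟩ := h z hz
  obtain ⟨k, hk⟩ := h2 V subset_rfl
  obtain ⟨V', hV', h3, h4⟩ := hR k ((fun F => V ∩ F) '' z) ⟨hz.1.image _, by
    rintro _ ⟨F, hF, rfl⟩
    exact ⟨hV.inter (hz.2 F hF).1, h1 F hF⟩⟩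
  refine ⟨V' ∩ V, hV'.inter hV, fun F hF => ?_, fun W hW =>
    h4 W (hW.trans inter_subset_left) (hk W (hW.trans inter_subset_right))⟩
  rw [inter_assoc]
  exact h3 _ ⟨F, hF, rfl⟩

theorem Lg.dom {Q : Set X → Prop} (h : Lg Q) (hg : ∀ W, IsOpen W → Q W → Gd W) :
    DOm X {W | IsOpen W ∧ Q W} :=
  dom_of (fun W hW => hg W hW.1 hW.2) fun z hz => by
    obtain ⟨V, hV, h1, h2⟩ := h z hz
    exact ⟨V, ⟨hV, h2 V subset_rfl⟩, h1⟩

theorem tail (A : (ℕ → ℕ) → ℕ → ℕ → Set X → Prop)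
    (hA : ∀ f g n, (∀ i < n, f i = g i) → A f n = A g n)
    (hm : ∀ f n k W W', W' ⊆ W → A f n k W → A f n k W')
    (hL : ∀ f n, Lg fun W => ∃ k, A f n k W) (n : ℕ) : ∀ (f : ℕ → ℕ) (m : ℕ), Lg fun W => ∃ b, ∀ g : ℕ → ℕ,
      (∀ i < m, g i = f i) → (∃ i, m ≤ i ∧ i < m + n ∧ b ≤ g i) →
        ∃ i, m ≤ i ∧ i < m + n ∧ ∃ k ≤ g i, A g i k W := by
  induction n with
  | zero =>
    intro f m
    refine (hL f m).mono fun W _ => ⟨0, ?_⟩
    rintro g - ⟨i, h1, h2, -⟩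
    omega
  | succ n ih =>
    intro f m
    refine Lg.bind (Q := fun k W => A f m k W) ((hL f m).mono fun W ⟨k, hk⟩ =>
      ⟨k, fun W' h => hm _ _ _ _ _ h hk⟩) fun k => ?_
    refine (Lg.all (finite_Iio k) fun j _ => ih (Function.update f m j) (m + 1)).mono
      fun W h hk => ?_
    choose! b hb using h
    obtain ⟨B, hB⟩ := ((finite_Iio k).image b).bddAbove
    refine ⟨max k B, fun g hg ⟨i, h1, h2, h3⟩ => ?_⟩
    by_cases h4 : k ≤ g m
    · exact ⟨m, le_rfl, by omega, k, h4, by rwa [hA g f m hg]⟩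
    · have h5 : g m ∈ Iio k := not_le.1 h4
      obtain ⟨j, h6, h7, h8⟩ := hb (g m) h5 g (fun i hi => by
        by_cases h : i = m
        · rw [h, Function.update_self]
        · rw [Function.update_of_ne h]
          exact hg i (by omega)) ⟨i, by
            rcases h1.eq_or_lt with rfl | h
            · exact (h4 ((le_max_left _ _).trans h3)).elim
            · exact h, by omega, (hB ⟨_, h5, rfl⟩).trans ((le_max_right _ _).trans h3)⟩
      exact ⟨j, by omega, by omega, h8⟩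

theorem hure (hS : Sfin X) (A : (ℕ → ℕ) → ℕ → ℕ → Set X → Prop)
    (hA : ∀ f g n, (∀ i < n, f i = g i) → A f n = A g n)
    (hm : ∀ f n k W W', W' ⊆ W → A f n k W → A f n k W')
    (hg : ∀ f n k W, IsOpen W → A f n k W → Gd W)
    (hL : ∀ f n, Lg fun W => ∃ k, A f n k W) :
    ∃ f : ℕ → ℕ, ∀ z m, Tst z → ∃ n, m ≤ n ∧ ∃ k ≤ f n, ∃ W, IsOpen W ∧ A f n k W ∧ Par z W := by
  have h1 : ∀ (f : ℕ → ℕ) (m : ℕ), ∃ B : ℕ → ℕ, ∀ g : ℕ → ℕ, (∀ i < m, g i = f i) →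
      (∀ n, B n ≤ g (m + n)) → ∀ z, Tst z →
        ∃ n, m ≤ n ∧ ∃ k ≤ g n, ∃ W, IsOpen W ∧ A g n k W ∧ Par z W := by
    intro f m
    obtain ⟨ℱ, h2, h3⟩ := hS _ fun n => (tail A hA hm hL (n + 1) f m).dom (by
      rintro W hW ⟨b, hb⟩
      obtain ⟨i, -, -, k, -, hk⟩ := hb (Function.update f m b)
        (fun i hi => Function.update_of_ne hi.ne _ _) ⟨m, le_rfl, by omega, by simp⟩
      exact hg _ _ _ W hW hk)
    have h4 := fun n W (hW : W ∈ ℱ n) => ((h2 n).1 hW).2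
    choose! b hb using h4
    have h5 := fun n => ((h2 n).2.image (b n)).bddAbove
    choose B hB using h5
    refine ⟨B, fun g hg hBg z hz => ?_⟩
    obtain ⟨W, hW, hp⟩ := h3.par hz
    obtain ⟨n, hn⟩ := mem_iUnion.1 hW
    obtain ⟨i, h6, -, k, h7, h8⟩ := hb n W hn g hg ⟨m + n, by omega, by omega,
      (hB n ⟨W, hn, rfl⟩).trans (hBg n)⟩
    exact ⟨i, h6, k, h7, W, ((h2 n).1 hn).1, h8, hp⟩
  choose B hB using h1
  obtain ⟨f, hf⟩ := rec_seq (α := ℕ) (fun f n => (Finset.range (n + 1)).sup fun m =>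
    B (fun i => if i < m then f i else 0) m (n - m)) (fun f g n h => by
      refine Finset.sup_congr rfl fun m hm => ?_
      have hm' := Finset.mem_range.1 hm
      congr 1
      funext i
      by_cases hi : i < m
      · rw [if_pos hi, if_pos hi, h i (by omega)]
      · rw [if_neg hi, if_neg hi])
  refine ⟨f, fun z m hz => hB (fun i => if i < m then f i else 0) m f
    (fun i hi => (if_pos hi).symm) (fun n => ?_) z hz⟩
  rw [hf (m + n)]
  refine le_trans ?_ (Finset.le_sup (f := fun m' => B (fun i => if i < m' then f i else 0) m'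
    (m + n - m')) (b := m) (Finset.mem_range.2 (by omega)))
  simp

theorem S1.sfin (h : S1 X) : Sfin X := fun 𝒰 h𝒰 => by
  obtain ⟨U, h1, h2⟩ := h 𝒰 h𝒰
  exact ⟨fun n => {U n}, fun n => ⟨singleton_subset_iff.2 (h1 n), finite_singleton _⟩,
    by rwa [iUnion_singleton_eq_range]⟩

theorem enum (hS : Sfin X) {𝒰 : Set (Set X)} (h : DOm X 𝒰) :
    ∃ e : ℕ → Set X, (∀ k, e k ∈ 𝒰) ∧ Lg fun W => ∃ k, W ⊆ e k := by
  obtain ⟨ℱ, h1, h2⟩ := hS (fun _ => 𝒰) fun _ => h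
  obtain ⟨e, he⟩ := (countable_iUnion fun n => (h1 n).2.countable).exists_eq_range (by
    obtain ⟨U, hU, -⟩ := h2.par (z := ∅) ⟨finite_empty, fun _ h => h.elim⟩
    exact ⟨U, hU⟩)
  refine ⟨e, fun k => ?_, fun z hz => ?_⟩
  · obtain ⟨n, hn⟩ := mem_iUnion.1 (he.ge ⟨k, rfl⟩)
    exact (h1 n).1 hn
  · obtain ⟨U, hU, hp⟩ := h2.par hz
    obtain ⟨k, rfl⟩ := he.le hU
    exact ⟨_, h2.1 _ hU, hp, fun W hW => ⟨k, hW⟩⟩

/-- Positions reached by a rule that reads one number per round. -/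
def pos {α : Type} (mv : List α → ℕ → α) (f : ℕ → ℕ) : ℕ → List α
  | 0 => []
  | n + 1 => pos mv f n ++ [mv (pos mv f n) (f n)]

theorem pos_congr {α : Type} (mv : List α → ℕ → α) {f g : ℕ → ℕ} {n : ℕ}
    (h : ∀ i < n, f i = g i) : pos mv f n = pos mv g n := by
  induction n with
  | zero => rfl
  | succ n ih => simp only [pos, ih fun i hi => h i (by omega), h n (Nat.lt_succ_self n)]

theorem pos_eq {α : Type} (mv : List α → ℕ → α) (f : ℕ → ℕ) (n : ℕ) :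
    pos mv f n = List.ofFn fun i : Fin n => mv (pos mv f i) (f i) := by
  induction n with
  | zero => rfl
  | succ n ih =>
    rw [List.ofFn_succ', pos]
    simp only [Fin.val_castSucc, Fin.val_last, List.concat_eq_append]
    rw [← ih]

theorem game_fin (hS : Sfin X) (τ : List (Set (Set X)) → Set (Set X)) (hτ : ∀ l, DOm X (τ l)) :
    ∃ ℱ : ℕ → Set (Set X), (∀ n, ℱ n ⊆ τ (List.ofFn fun i : Fin n => ℱ i) ∧ (ℱ n).Finite) ∧
      DOm X (⋃ n, ℱ n) := by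
  choose e he1 he2 using fun l => enum hS (hτ l)
  let mv : List (Set (Set X)) → ℕ → Set (Set X) := fun l k => e l '' Iic k
  obtain ⟨f, hf⟩ := hure hS (fun f n k W => W ⊆ e (pos mv f n) k)
    (fun f g n h => by rw [pos_congr mv h]) (fun _ _ _ _ _ h h' => h.trans h')
    (fun _ _ _ W hW h => ((hτ _).gd (he1 _ _)).of_sub hW h) (fun _ _ => he2 _)
  refine ⟨fun n => mv (pos mv f n) (f n), fun n => ⟨?_, (finite_Iic _).image _⟩,
    dom_of (fun U hU => ?_) fun z hz => ?_⟩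
  · rw [← pos_eq]
    rintro _ ⟨k, -, rfl⟩
    exact he1 _ _
  · obtain ⟨n, k, -, rfl⟩ := mem_iUnion.1 hU
    exact (hτ _).gd (he1 _ _)
  · obtain ⟨n, -, k, hk, W, -, h1, h2⟩ := hf z 0 hz
    exact ⟨_, mem_iUnion.2 ⟨n, k, hk, rfl⟩, h2.mono h1⟩

theorem pick (hS : S1 X) (P : ℕ → Set X → Prop) (hm : ∀ n W W', W' ⊆ W → P n W → P n W')
    (hg : ∀ n W, IsOpen W → P n W → Gd W)
    (h : ∀ z m, Tst z → ∃ n, m ≤ n ∧ ∃ W, IsOpen W ∧ P n W ∧ Par z W) :
    ∃ V : ℕ → Set X, (∀ n, V n = ∅ ∨ P n (V n)) ∧ ∀ z, Tst z → ∃ n, P n (V n) ∧ Par z (V n) := by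
  classical
  have h0 : ∀ m, Lg fun W => ∃ n, m ≤ n ∧ P n W := fun m z hz => by
    obtain ⟨n, hn, W, h1, h2, h3⟩ := h z m hz
    exact ⟨W, h1, h3, fun W' hW' => ⟨n, hn, hm _ _ _ hW' h2⟩⟩
  have h1 : ∀ k, Lg fun W => ∃ S : Finset ℕ, S.card = k ∧ ∀ n ∈ S, P n W := by
    intro k
    induction k with
    | zero => exact (h0 0).mono fun _ _ => ⟨∅, rfl, by simp⟩
    | succ k ih =>
      refine Lg.bind (Q := fun m W => ∃ S : Finset ℕ, S.card = k ∧ (∀ n ∈ S, n < m) ∧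
        ∀ n ∈ S, P n W) (ih.mono ?_) fun m => (h0 m).mono ?_
      · rintro W ⟨S, h1, h2⟩
        exact ⟨S.sup id + 1, fun W' hW' => ⟨S, h1, fun n hn =>
          Nat.lt_succ_of_le (Finset.le_sup (f := id) hn), fun n hn => hm _ _ _ hW' (h2 n hn)⟩⟩
      · rintro W ⟨n, h1, h2⟩ ⟨S, h3, h4, h5⟩
        refine ⟨insert n S, ?_, fun a ha => ?_⟩
        · rw [Finset.card_insert_of_notMem fun h => by have := h4 n h; omega, h3]
        · rcases Finset.mem_insert.1 ha with rfl | ha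
          exacts [h2, h5 a ha]
  obtain ⟨U, h2, h3⟩ := hS _ fun k => (h1 (k + 1)).dom (by
    rintro W hW ⟨S, h1, h2⟩
    obtain ⟨n, hn⟩ := Finset.card_pos.1 (show 0 < S.card by omega)
    exact hg n W hW (h2 n hn))
  have h4 := fun k => (h2 k).2
  choose S hS1 hS2 using h4
  have h5 : ∀ (k : ℕ) (T : Finset ℕ), ∃ n, T.card ≤ k → n ∈ S k ∧ n ∉ T := fun k T => by
    by_cases hT : T.card ≤ k
    · obtain ⟨n, h⟩ := Finset.exists_mem_notMem_of_card_lt_card (s := T) (t := S k) (by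
        rw [hS1]; omega)
      exact ⟨n, fun _ => h⟩
    · exact ⟨0, fun h => (hT h).elim⟩
  choose c hc using h5
  obtain ⟨r, hr⟩ := rec_seq (α := ℕ) (fun r k => c k ((Finset.range k).image r))
    (fun f g n h => by rw [Finset.image_congr fun i hi => h i (Finset.mem_range.1 hi)])
  have h6 : ∀ k, r k ∈ S k ∧ r k ∉ (Finset.range k).image r := fun k => by
    rw [hr k]
    exact hc k _ (Finset.card_image_le.trans (Finset.card_range k).le)
  have h7 : Function.Injective r := by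
    have : ∀ a b, a < b → r a ≠ r b := fun a b h he =>
      (h6 b).2 (Finset.mem_image.2 ⟨a, Finset.mem_range.2 h, he⟩)
    intro a b he
    rcases lt_trichotomy a b with h | h | h
    exacts [(this a b h he).elim, h, (this b a h he.symm).elim]
  refine ⟨Function.extend r U fun _ => ∅, fun n => ?_, fun z hz => ?_⟩
  · by_cases hn : ∃ k, r k = n
    · obtain ⟨k, rfl⟩ := hn
      rw [h7.extend_apply]
      exact Or.inr (hS2 k _ (h6 k).1)
    · exact Or.inl (Function.extend_apply' _ _ _ hn)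
  · obtain ⟨_, ⟨k, rfl⟩, hp⟩ := h3.par hz
    refine ⟨r k, ?_⟩
    rw [h7.extend_apply]
    exact ⟨hS2 k _ (h6 k).1, hp⟩

theorem game_one (hS : S1 X) (τ : List (Set X) → Set (Set X)) (hτ : ∀ l, DOm X (τ l)) :
    ∃ U : ℕ → Set X, (∀ n, U n ∈ τ (List.ofFn fun i : Fin n => U i)) ∧ DOm X (range U) := by
  classical
  choose e he1 he2 using fun l => enum hS.sfin (hτ l)
  let A : (ℕ → ℕ) → ℕ → ℕ → Set X → Prop := fun f n k W =>
    ∀ s : ℕ → ℕ, (∀ i < n, s i ≤ f i) → ∃ j ≤ k, W ⊆ e (pos e s n) j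
  have hm : ∀ f n k W W', W' ⊆ W → A f n k W → A f n k W' := fun f n k W W' h h' s hs =>
    (h' s hs).imp fun j hj => ⟨hj.1, h.trans hj.2⟩
  have hg : ∀ f n k W, IsOpen W → A f n k W → Gd W := fun f n k W hW h => by
    obtain ⟨j, -, hj⟩ := h f fun _ _ => le_rfl
    exact ((hτ _).gd (he1 _ _)).of_sub hW hj
  obtain ⟨f, hf⟩ := hure hS.sfin A (fun f g n h => by
      funext k W
      exact propext (forall_congr' fun s => imp_congr_left
        (forall₂_congr fun i hi => by rw [h i hi]))) hm hg (fun f n => by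
      have hfin : (univ.pi fun i : Fin n => Iic (f i)).Finite := Finite.pi fun _ => finite_Iic _
      refine (Lg.all hfin fun t _ => he2 (pos e (fun i => if h : i < n then t ⟨i, h⟩ else 0) n)).mono
        fun W h => ?_
      choose! j hj using h
      obtain ⟨k, hk⟩ := (hfin.image j).bddAbove
      refine ⟨k, fun s hs => ?_⟩
      have ht : (fun i : Fin n => s i) ∈ univ.pi fun i : Fin n => Iic (f i) :=
        fun i _ => hs i i.2
      refine ⟨_, hk ⟨_, ht, rfl⟩, ?_⟩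
      rw [pos_congr e (g := fun i => if h : i < n then s i else 0) fun i hi => by simp [hi]]
      exact hj _ ht)
  obtain ⟨V, h1, h2⟩ := pick hS (fun n W => A f n (f n) W) (fun n => hm f n _) (fun n => hg f n _)
    fun z m hz => by
      obtain ⟨n, hn, k, hk, W, h1, h2, h3⟩ := hf z m hz
      exact ⟨n, hn, W, h1, fun s hs => (h2 s hs).imp fun j hj => ⟨hj.1.trans hk, hj.2⟩, h3⟩
  obtain ⟨s, hs⟩ := rec_seq (α := ℕ) (fun s n => if h : ∃ j ≤ f n, V n ⊆ e (pos e s n) j then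
    h.choose else 0) (fun f g n h => by rw [pos_congr e h])
  have h3 : ∀ n, s n ≤ f n := fun n => by
    rw [hs n]
    split_ifs with h
    exacts [h.choose_spec.1, Nat.zero_le _]
  refine ⟨fun n => e (pos e s n) (s n), fun n => pos_eq e s n ▸ he1 _ _, dom_of ?_ fun z hz => ?_⟩
  · rintro _ ⟨n, rfl⟩
    exact (hτ _).gd (he1 _ _)
  · obtain ⟨n, h4, h5⟩ := h2 z hz
    have h6 := h4 s fun i _ => h3 i
    refine ⟨_, ⟨n, rfl⟩, h5.mono ?_⟩
    have h7 := hs n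
    rw [dif_pos h6] at h7
    have h8 := h6.choose_spec.2
    rw [← h7] at h8
    exact h8

end Pool.Agent.H17.DO
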