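import Mathlib
import Pool.Agent.H17.DOm

set_option autoImplicit false

namespace Pool.Agent.H17.DO
open Set Filter Topology TopologicalSpace

/-- The countable chain condition. -/
def CCC (Y : Type) [TopologicalSpace Y] : Prop :=
  ∀ 𝒜 : Set (Set Y), (∀ A ∈ 𝒜, IsOpen A ∧ A.Nonempty) → 𝒜.Pairwise Disjoint → 𝒜.Countable

theorem max_disj {Y : Type} [TopologicalSpace Y] (P : Set Y → Prop)
    (𝒜₀ : Set (Set Y)) (h0 : ∀ A ∈ 𝒜₀, (IsOpen A ∧ A.Nonempty) ∧ P A) (h1 : 𝒜₀.Pairwise Disjoint) :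
    ∃ 𝒜, 𝒜₀ ⊆ 𝒜 ∧ (∀ A ∈ 𝒜, (IsOpen A ∧ A.Nonempty) ∧ P A) ∧ 𝒜.Pairwise Disjoint ∧
      ∀ B, IsOpen B → B.Nonempty → P B → ∃ A ∈ 𝒜, (A ∩ B).Nonempty := by
  obtain ⟨𝒜, h2, h3⟩ := zorn_subset_nonempty
    {𝒜 : Set (Set Y) | (∀ A ∈ 𝒜, (IsOpen A ∧ A.Nonempty) ∧ P A) ∧ 𝒜.Pairwise Disjoint}
    (fun c hc hch _ => ⟨⋃₀ c, ⟨fun A ⟨𝒜, h, hA⟩ => (hc h).1 A hA,
      hch.pairwise_sUnion.2 fun 𝒜 h => (hc h).2⟩, fun s hs => subset_sUnion_of_mem hs⟩) 𝒜₀ ⟨h0, h1⟩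
  refine ⟨𝒜, h2, h3.1.1, h3.1.2, fun B hB hne hP => ?_⟩
  by_contra h
  push Not at h
  have h4 : insert B 𝒜 ⊆ 𝒜 := h3.2 ⟨by
    rintro A (rfl | hA)
    exacts [⟨⟨hB, hne⟩, hP⟩, h3.1.1 A hA], h3.1.2.insert_of_symm fun A hA _ =>
      (Set.disjoint_iff_inter_eq_empty.2 (h A hA)).symm⟩ (subset_insert _ _)
  have := h B (h4 (mem_insert _ _))
  rw [inter_self] at this
  exact hne.ne_empty this

theorem Sfin.ccc {Y : Type} [TopologicalSpace Y] (h : Sfin Y) : CCC Y := by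
  intro 𝒜₀ h0 h1
  obtain ⟨𝒜, h2, h3, h4, h5⟩ := max_disj (fun _ => True) 𝒜₀ (fun A hA => ⟨h0 A hA, trivial⟩) h1
  refine Set.Countable.mono h2 ?_
  by_contra hc
  have key : ∀ ℬ ⊆ 𝒜, ℬ.Countable → ¬ Dense (⋃₀ ℬ) := fun ℬ hB hc' hd => by
    obtain ⟨A, hA, hA'⟩ := not_subset.1 fun h : 𝒜 ⊆ ℬ => hc (hc'.mono h)
    obtain ⟨x, hx, B, hB', hxB⟩ := hd.inter_open_nonempty A (h3 A hA).1.1 (h3 A hA).1.2
    exact Set.disjoint_left.1 (h4 hA (hB hB') fun e => hA' (e ▸ hB')) hx hxB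
  obtain ⟨ℱ, h6, h7⟩ := h (fun _ => {U | ∃ ℬ ⊆ 𝒜, ℬ.Finite ∧ U = ⋃₀ ℬ}) fun _ => dom_of (by
    rintro _ ⟨ℬ, hB, hf, rfl⟩
    exact ⟨isOpen_sUnion fun A hA => (h3 A (hB hA)).1.1, fun h =>
      key ℬ hB hf.countable fun x => h (mem_univ x)⟩) fun z hz => by
    have h6 := fun F (hF : F ∈ z) => h5 F (hz.2 F hF).1 (hz.2 F hF).2 trivial
    choose! A hA hA' using h6
    refine ⟨_, ⟨A '' z, by rintro _ ⟨F, hF, rfl⟩; exact hA F hF, hz.1.image _, rfl⟩,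
      fun F hF => (hA' F hF).mono (inter_subset_inter_left _
        (subset_sUnion_of_mem (mem_image_of_mem A hF)))⟩
  have h8 : ∀ U ∈ ⋃ n, ℱ n, ∃ ℬ ⊆ 𝒜, ℬ.Finite ∧ U = ⋃₀ ℬ := fun U hU => by
    obtain ⟨n, hn⟩ := mem_iUnion.1 hU
    exact (h6 n).1 hn
  choose! ℬ h9 h10 h11 using h8
  refine key (⋃ U ∈ ⋃ n, ℱ n, ℬ U) (iUnion₂_subset h9)
    ((countable_iUnion fun n => (h6 n).2.countable).biUnion fun U hU => (h10 U hU).countable)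
    (h7.2.1.mono ?_)
  rintro x ⟨U, hU, hx⟩
  rw [h11 U hU] at hx
  obtain ⟨B, hB, hx⟩ := hx
  exact ⟨B, mem_biUnion hU hB, hx⟩

variable {X : Type} [TopologicalSpace X]

def NO {ι : Type} (t : ι → Set X) : Prop := ∀ i, IsOpen (t i) ∧ (t i).Nonempty

def Mt {ι : Type} (w t : ι → Set X) : Prop := ∀ i, (w i ∩ t i).Nonempty

/-- Dense families of boxes. -/
def DB {ι : Type} (𝒲 : Set (ι → Set X)) : Prop :=
  (∀ w ∈ 𝒲, ∀ i, IsOpen (w i)) ∧ ∀ t, NO t → ∃ w ∈ 𝒲, Mt w t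

theorem DB.cnt {ι : Type} [Finite ι] (hc : CCC (ι → X)) {𝒲 : Set (ι → Set X)} (h : DB 𝒲) :
    ∃ 𝒲' ⊆ 𝒲, 𝒲'.Countable ∧ DB 𝒲' := by
  obtain ⟨𝒜, -, h1, h2, h3⟩ := max_disj (fun A : Set (ι → X) => ∃ w ∈ 𝒲, A ⊆ univ.pi w) ∅
    (fun _ h => h.elim) (pairwise_empty _)
  have h4 := fun A hA => (h1 A hA).2
  choose! w hw hw' using h4
  have h5 : w '' 𝒜 ⊆ 𝒲 := by rintro _ ⟨A, hA, rfl⟩; exact hw A hA
  refine ⟨w '' 𝒜, h5, (hc 𝒜 (fun A hA => (h1 A hA).1) h2).image _, fun v hv => h.1 v (h5 hv),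
    fun t ht => ?_⟩
  obtain ⟨v, hv, hm⟩ := h.2 t ht
  obtain ⟨A, hA, x, hx⟩ := h3 (univ.pi fun i => v i ∩ t i)
    (isOpen_set_pi finite_univ fun i _ => (h.1 v hv i).inter (ht i).1) (univ_pi_nonempty_iff.2 hm)
    ⟨v, hv, pi_mono fun i _ => inter_subset_left⟩
  exact ⟨_, ⟨A, hA, rfl⟩, fun i => ⟨x i, hw' A hA hx.1 i trivial, (hx.2 i trivial).2⟩⟩

theorem settle {κ α : Type} {S : Set α} (hS : S.Finite) (Q : α → (κ → Set X) → Prop)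
    (hQ : ∀ a O O', O' ≤ O → Q a O → Q a O') (O : κ → Set X) (hO : NO O) :
    ∃ O', NO O' ∧ O' ≤ O ∧ ∀ a ∈ S, Q a O' ∨ ∀ O'', NO O'' → O'' ≤ O' → ¬ Q a O'' := by
  induction S, hS using Set.Finite.induction_on with
  | empty => exact ⟨O, hO, le_rfl, fun _ h => h.elim⟩
  | @insert a S _ _ ih =>
    obtain ⟨O1, h1, h2, h3⟩ := ih
    by_cases h : ∃ O2, NO O2 ∧ O2 ≤ O1 ∧ Q a O2
    · obtain ⟨O2, h4, h5, h6⟩ := h
      refine ⟨O2, h4, h5.trans h2, ?_⟩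
      rintro b (rfl | hb)
      · exact Or.inl h6
      · exact (h3 b hb).imp (hQ _ _ _ h5) fun h O3 a c => h O3 a (c.trans h5)
    · refine ⟨O1, h1, h2, ?_⟩
      rintro b (rfl | hb)
      · exact Or.inr fun O2 a c d => h ⟨O2, a, c, d⟩
      · exact h3 b hb

def Dec {κ : Type} (b : ℕ → Set X) (N : ℕ) (O : κ → Set X) : Prop :=
  ∀ k ≤ N, ∀ l, O l ⊆ b k ∨ Disjoint (O l) (b k)

def Gb {ι κ : Type} (𝒲 : Set (ι → Set X)) (σ : ι → κ) (O : κ → Set X) : Prop :=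
  ∃ w ∈ 𝒲, ∀ i, O (σ i) ⊆ w i

theorem core1 {ι κ α : Type} [Finite κ] (b : ℕ → Set X) (hb : ∀ k, IsOpen (b k)) (N : ℕ)
    {S : Set α} (hS : S.Finite) (𝒲 : α → Set (ι → Set X)) (σ : α → ι → κ)
    (O : κ → Set X) (hO : NO O) : ∃ O', NO O' ∧ O' ≤ O ∧ Dec b N O' ∧
      ∀ a ∈ S, Gb (𝒲 a) (σ a) O' ∨ ∀ O'', NO O'' → O'' ≤ O' → ¬ Gb (𝒲 a) (σ a) O'' := by
  classical
  obtain ⟨O1, h1, h2, h3⟩ := settle ((finite_Iic N).prod (finite_univ (α := κ)))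
    (fun p O => O p.2 ⊆ b p.1) (fun p O O' h h' => (h p.2).trans h') O hO
  obtain ⟨O2, h4, h5, h6⟩ := settle hS (fun a O => Gb (𝒲 a) (σ a) O)
    (fun a O O' h ⟨w, hw, h'⟩ => ⟨w, hw, fun i => (h _).trans (h' i)⟩) O1 h1
  refine ⟨O2, h4, h5.trans h2, fun k hk l => ?_, h6⟩
  refine (h3 (k, l) ⟨hk, trivial⟩).imp (h5 l).trans fun h => Disjoint.mono_left (h5 l) ?_
  by_contra hd
  refine h (Function.update O1 l (O1 l ∩ b k)) (fun j => ?_) (fun j => ?_) (by simp)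
  · by_cases hj : j = l
    · rw [hj, Function.update_self]
      exact ⟨(h1 l).1.inter (hb k), not_disjoint_iff_nonempty_inter.1 hd⟩
    · rw [Function.update_of_ne hj]
      exact h1 j
  · by_cases hj : j = l
    · rw [hj, Function.update_self]
      exact inter_subset_left
    · rw [Function.update_of_ne hj]

theorem core2 {ι : Type} [Finite ι] (b : ℕ → Set X) (hb : ∀ k, IsOpen (b k))
    (t : ι → Set X) (ht : NO t) : ∃ t', NO t' ∧ t' ≤ t ∧ ∃ N, ∀ (κ : Type) (O : κ → Set X)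
      (σ : ι → κ) (𝒲 : Set (ι → Set X)), DB 𝒲 → (∀ w ∈ 𝒲, ∀ i, w i ∈ range b) → NO O →
        Dec b N O → (∀ i, (O (σ i) ∩ t' i).Nonempty) → ∃ O', NO O' ∧ O' ≤ O ∧ Gb 𝒲 σ O' := by
  classical
  obtain ⟨s, h1, h2, h3⟩ := settle (finite_univ (α := {p : ι × ι // p.1 ≠ p.2}))
    (fun p t => ∃ k, t p.1.1 ⊆ b k ∧ Disjoint (t p.1.2) (b k))
    (fun p O O' h ⟨k, a, c⟩ => ⟨k, (h _).trans a, c.mono_left (h _)⟩) t ht
  have h4 : ∀ p : {p : ι × ι // p.1 ≠ p.2}, ∃ n, (∃ k, s p.1.1 ⊆ b k ∧ Disjoint (s p.1.2) (b k)) →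
      s p.1.1 ⊆ b n ∧ Disjoint (s p.1.2) (b n) := fun p => by
    by_cases h : ∃ k, s p.1.1 ⊆ b k ∧ Disjoint (s p.1.2) (b k)
    · exact h.imp fun k hk _ => hk
    · exact ⟨0, fun h' => (h h').elim⟩
  choose n hn using h4
  obtain ⟨N, hN⟩ := (finite_range n).bddAbove
  refine ⟨s, h1, h2, N, fun κ O σ 𝒲 hW hWb hO hD hm => ?_⟩
  have h5 : ∀ i j, i ≠ j → σ i = σ j → ∀ k, (s i ∩ b k).Nonempty → ∀ V, IsOpen V → V.Nonempty →
      V ⊆ s j → (V ∩ b k).Nonempty := fun i j hij he k hk V hV hne hVs => by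
    rcases h3 ⟨(i, j), hij⟩ trivial with h | h
    · obtain ⟨a, c⟩ := hn _ h
      obtain ⟨x, hx⟩ := hm i
      obtain ⟨y, hy⟩ := hm j
      rcases hD _ (hN ⟨⟨(i, j), hij⟩, rfl⟩) (σ i) with d | d
      · exact (Set.disjoint_left.1 c hy.2 (d (he ▸ hy.1))).elim
      · exact (Set.disjoint_left.1 d hx.1 (a hx.2)).elim
    · by_contra hd
      refine h (fun l => if l = i then s i ∩ b k else if l = j then V else s l) (fun l => ?_)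
        (fun l => ?_) ⟨k, by simp, ?_⟩
      · dsimp only
        split_ifs
        exacts [⟨(h1 i).1.inter (hb k), hk⟩, ⟨hV, hne⟩, h1 l]
      · dsimp only
        split_ifs with a c
        exacts [a ▸ inter_subset_left, c ▸ hVs, subset_rfl]
      · simp only [if_neg hij.symm, if_true]
        exact Set.disjoint_iff_inter_eq_empty.2 (not_nonempty_iff_eq_empty.1 hd)
  have h6 : ∀ j, (∃ i', i' ≠ j ∧ σ i' = σ j) → ∀ k, (s j ∩ b k).Nonempty →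
      ∀ V, IsOpen V → V.Nonempty → V ⊆ s j → (V ∩ b k).Nonempty := by
    rintro j ⟨i', h7, h8⟩ k hk V hV hne hVs
    obtain ⟨x, hx⟩ := h5 j i' h7.symm h8.symm k hk (s i') (h1 i').1 (h1 i').2 subset_rfl
    exact h5 i' j h7 h8 k ⟨x, hx⟩ V hV hne hVs
  have h7 : ∀ l, (∃ j, σ j = l) → ∃ j, σ j = l := fun _ h => h
  choose ρ hρ using h7
  obtain ⟨w, hw, hm'⟩ := hW.2 (fun i => O (σ i) ∩ s (ρ (σ i) ⟨i, rfl⟩)) fun i =>
    ⟨(hO _).1.inter (h1 _).1, by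
      have := hm (ρ (σ i) ⟨i, rfl⟩)
      rwa [hρ] at this⟩
  have h8 : ∀ (A : Set X) (S : Set ι), S.Finite → (∀ i ∈ S, ∀ V, IsOpen V → V.Nonempty → V ⊆ A →
      (V ∩ w i).Nonempty) → ∀ V, IsOpen V → V.Nonempty → V ⊆ A → (V ∩ ⋂ i ∈ S, w i).Nonempty := by
    intro A S hS
    induction S, hS using Set.Finite.induction_on with
    | empty => intro _ V _ h _; simpa using h
    | insert _ _ ih =>
      intro h V hV hne hVA
      rw [biInter_insert, ← inter_assoc]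
      exact ih (fun i hi => h i (mem_insert_of_mem _ hi)) _ (hV.inter (hW.1 w hw _))
        (h _ (mem_insert _ _) V hV hne hVA) (inter_subset_left.trans hVA)
  refine ⟨fun l => if h : ∃ j, σ j = l then (O l ∩ s (ρ l h)) ∩ ⋂ i ∈ {i | σ i = l}, w i else O l,
    fun l => ?_, fun l => ?_, w, hw, fun i => ?_⟩
  · dsimp only
    split_ifs with h
    · refine ⟨((hO l).1.inter (h1 _).1).inter ((toFinite _).isOpen_biInter fun i _ => hW.1 w hw i),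
        ?_⟩
      by_cases h9 : ∃ i', i' ≠ ρ l h ∧ σ i' = σ (ρ l h)
      · refine h8 (s (ρ l h)) _ (toFinite _) (fun i hi => ?_) _ ((hO l).1.inter (h1 _).1)
          (by have := hm (ρ l h); rwa [hρ] at this) inter_subset_right
        obtain ⟨k, hk⟩ := hWb w hw i
        obtain rfl : σ i = l := hi
        obtain ⟨x, hx⟩ := hm' i
        rw [← hk]
        exact h6 _ h9 k ⟨x, hx.2.2, hk ▸ hx.1⟩
      · obtain ⟨j, rfl⟩ := h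
        obtain ⟨x, hx⟩ := hm' j
        refine ⟨x, hx.2, mem_iInter₂.2 fun i hi => ?_⟩
        have e : ∀ i, σ i = σ j → i = ρ (σ j) ⟨j, rfl⟩ := fun i hi => by
          by_contra h'
          exact h9 ⟨i, h', hi.trans (hρ _ _).symm⟩
        rw [(e i hi).trans (e j rfl).symm]
        exact hx.1
    · exact hO l
  · dsimp only
    split_ifs
    exacts [inter_subset_left.trans inter_subset_left, subset_rfl]
  · dsimp only
    rw [dif_pos ⟨i, rfl⟩]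
    exact inter_subset_right.trans (biInter_subset_of_mem (show i ∈ {j | σ j = σ i} from rfl))

theorem DOm.often {U : ℕ → Set (Set X)} (hf : ∀ n, (U n).Finite) (h : DOm X (⋃ n, U n))
    {z : Set (Set X)} (hz : Tst z) (m : ℕ) : ∃ n, m ≤ n ∧ ∃ V ∈ U n, Par z V := by
  obtain ⟨V, hV, hp⟩ := h.par (z := z ∪ (fun V => (closure V)ᶜ) '' ⋃ n ∈ Iio m, U n)
    ⟨hz.1.union (((finite_Iio m).biUnion fun n _ => hf n).image _), by
      rintro F (hF | ⟨V, hV, rfl⟩)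
      · exact hz.2 F hF
      · obtain ⟨n, -, hn⟩ := mem_iUnion₂.1 hV
        exact ⟨isClosed_closure.isOpen_compl, nonempty_compl.2 fun e =>
          (h.gd (mem_iUnion.2 ⟨n, hn⟩)).2 e.ge⟩⟩
  obtain ⟨n, hn⟩ := mem_iUnion.1 hV
  refine ⟨n, not_lt.1 fun hlt => ?_, V, hn, fun F hF => hp F (Or.inl hF)⟩
  obtain ⟨x, hx⟩ := hp _ (Or.inr ⟨V, mem_biUnion (show n ∈ Iio m from hlt) hn, rfl⟩)
  exact hx.2 (subset_closure hx.1)

theorem bad {ι : Type} [Finite ι] (h : ¬ ∀ z : Set (Set X), Tst z → ∃ V, Gd V ∧ Par z V)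
    (𝒲 : ℕ → Set (ι → Set X)) (hW : ∀ n, DB (𝒲 n)) (hne : ∀ n, (𝒲 n).Nonempty) :
    ∃ w : ℕ → ι → Set X, (∀ n, w n ∈ 𝒲 n) ∧ ∀ t, NO t → ∃ n, Mt (w n) t := by
  classical
  push Not at h
  obtain ⟨z, hz, h⟩ := h
  have := hz.1.to_subtype
  obtain ⟨e, he⟩ := exists_injective_nat (ι → z)
  have h1 : ∀ n, ∃ w ∈ 𝒲 n, ∀ σ : ι → z, e σ = n → Mt w fun i => σ i := fun n => by
    by_cases h' : ∃ σ, e σ = n
    · obtain ⟨σ, rfl⟩ := h'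
      obtain ⟨w, hw, hm⟩ := (hW (e σ)).2 (fun i => σ i) fun i => hz.2 _ (σ i).2
      exact ⟨w, hw, fun σ' h => he h ▸ hm⟩
    · obtain ⟨w, hw⟩ := hne n
      exact ⟨w, hw, fun σ e => (h' ⟨σ, e⟩).elim⟩
  choose w hw hw' using h1
  refine ⟨w, hw, fun t ht => ?_⟩
  have h2 : ∀ i, ∃ F : z, ∀ V, IsOpen V → V.Nonempty → V ⊆ F → (V ∩ t i).Nonempty := fun i => by
    by_contra hc
    push Not at hc
    choose V h3 h4 h5 h6 using hc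
    refine h (⋃ F, V F) ⟨isOpen_iUnion h3, fun hd => ?_⟩ fun F hF => ?_
    · obtain ⟨x, hx, hx'⟩ := Dense.inter_open_nonempty (fun x => hd (mem_univ x)) _ (ht i).1 (ht i).2
      obtain ⟨F, hF⟩ := mem_iUnion.1 hx'
      exact (h6 F).le ⟨hF, hx⟩
    · obtain ⟨x, hx⟩ := h4 ⟨F, hF⟩
      exact ⟨x, mem_iUnion.2 ⟨_, hx⟩, h5 _ hx⟩
  choose σ hσ using h2
  refine ⟨e σ, fun i => ?_⟩
  obtain ⟨x, hx⟩ := hσ i _ (((hW _).1 _ (hw _) i).inter (hz.2 _ (σ i).2).1) (hw' _ σ rfl i)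
    inter_subset_right
  exact ⟨x, hx.1.1, hx.2⟩

theorem fam {ι : Type} (h : ∀ z : Set (Set X), Tst z → ∃ V, Gd V ∧ Par z V)
    (b : ℕ → Set X) (hb : ∀ k, IsOpen (b k)) {z : Set (Set X)} (hz : Tst z) :
    ∃ n₀, ∀ n ≥ n₀, ∀ (N : ℕ) (α : Type) (S : Set α), S.Finite → ∀ (𝒲 : α → Set (ι → Set X))
      (σ : α → ι → Fin n), ∃ O : Fin n → Set X, NO O ∧ Dec b N O ∧ Gd (⋃ l, O l) ∧
        Par z (⋃ l, O l) ∧
        ∀ a ∈ S, Gb (𝒲 a) (σ a) O ∨ ∀ O'', NO O'' → O'' ≤ O → ¬ Gb (𝒲 a) (σ a) O'' := by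
  have hX : (univ : Set X).Nonempty := by
    obtain ⟨V, hV, -⟩ := h ∅ ⟨finite_empty, fun _ h => h.elim⟩
    obtain ⟨x, -⟩ := not_subset.1 hV.2
    exact ⟨x, trivial⟩
  have hz' : Tst (insert univ z) := ⟨hz.1.insert _, by
    rintro F (rfl | hF)
    exacts [⟨isOpen_univ, hX⟩, hz.2 F hF]⟩
  obtain ⟨V, hV, hp⟩ := h _ hz'
  obtain ⟨s, hs⟩ := hz'.1.countable.exists_eq_range (insert_nonempty _ _)
  have h1 : ∀ F ∈ z, ∃ i, s i = F := fun F hF => hs.le (Or.inr hF)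
  choose! g hg using h1
  obtain ⟨n₀, hn₀⟩ := (hz.1.image g).bddAbove
  refine ⟨n₀ + 1, fun n hn N α S hS 𝒲 σ => ?_⟩
  obtain ⟨O, h2, h3, h4, h5⟩ := core1 b hb N hS 𝒲 σ (fun l : Fin n => V ∩ s l) fun l =>
    ⟨hV.1.inter (hz'.2 _ (hs.ge ⟨l, rfl⟩)).1, hp _ (hs.ge ⟨l, rfl⟩)⟩
  refine ⟨O, h2, h4, hV.of_sub (isOpen_iUnion fun l => (h2 l).1)
    (iUnion_subset fun l => (h3 l).trans inter_subset_left), fun F hF => ?_, h5⟩
  have h6 : g F < n := lt_of_lt_of_le (Nat.lt_succ_of_le (hn₀ ⟨F, hF, rfl⟩)) hn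
  obtain ⟨x, hx⟩ := (h2 ⟨g F, h6⟩).2
  exact ⟨x, mem_iUnion.2 ⟨_, hx⟩, hg F hF ▸ (h3 _ hx).2⟩

theorem prep {ι : Type} [Finite ι] (hc : CCC (ι → X)) (𝒲 : ℕ → Set (ι → Set X))
    (hW : ∀ n, DB (𝒲 n)) : ∃ (𝒲' : ℕ → Set (ι → Set X)) (b : ℕ → Set X), (∀ k, IsOpen (b k)) ∧
      ∀ n, 𝒲' n ⊆ 𝒲 n ∧ DB (𝒲' n) ∧ ∀ w ∈ 𝒲' n, ∀ i, w i ∈ range b := by
  choose 𝒲' h1 h2 h3 using fun n => (hW n).cnt hc
  obtain ⟨b, hb⟩ := ((countable_iUnion fun n => (h2 n).biUnion fun w _ =>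
    countable_range w).insert ∅).exists_eq_range (insert_nonempty _ _)
  refine ⟨𝒲', b, fun k => ?_, fun n => ⟨h1 n, h3 n, fun w hw i =>
    hb.le (Or.inr (mem_iUnion.2 ⟨n, mem_biUnion hw ⟨i, rfl⟩⟩))⟩⟩
  rcases hb.ge ⟨k, rfl⟩ with h | h
  · exact h ▸ isOpen_empty
  · obtain ⟨n, hn⟩ := mem_iUnion.1 h
    obtain ⟨w, hw, i, hi⟩ := mem_iUnion₂.1 hn
    exact hi ▸ (h3 n).1 w hw i

theorem fin_use {ι : Type} [Finite ι] {n : ℕ} {O : Fin n → Set X} {t : ι → Set X}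
    (h : Par (range t) (⋃ l, O l)) : ∃ σ : ι → Fin n, ∀ i, (O (σ i) ∩ t i).Nonempty := by
  have h1 : ∀ i, ∃ l, (O l ∩ t i).Nonempty := fun i => by
    obtain ⟨x, hx, hx'⟩ := h _ ⟨i, rfl⟩
    obtain ⟨l, hl⟩ := mem_iUnion.1 hx
    exact ⟨l, x, hl, hx'⟩
  exact Classical.axiomOfChoice h1

theorem NO.tst {ι : Type} [Finite ι] {t : ι → Set X} (h : NO t) : Tst (range t) :=
  ⟨finite_range t, by rintro _ ⟨i, rfl⟩; exact h i⟩

theorem boxFin {ι : Type} [Finite ι] (hS : Sfin X) (hc : CCC (ι → X)) (𝒲 : ℕ → Set (ι → Set X))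
    (hW : ∀ n, DB (𝒲 n)) (hne : ∀ n, (𝒲 n).Nonempty) : ∃ F : ℕ → Set (ι → Set X),
      (∀ n, F n ⊆ 𝒲 n ∧ (F n).Finite) ∧ ∀ t, NO t → ∃ n, ∃ w ∈ F n, Mt w t := by
  by_cases h : ∀ z : Set (Set X), Tst z → ∃ V, Gd V ∧ Par z V
  swap
  · obtain ⟨w, h1, h2⟩ := bad h 𝒲 hW hne
    exact ⟨fun n => {w n}, fun n => ⟨singleton_subset_iff.2 (h1 n), finite_singleton _⟩,
      fun t ht => (h2 t ht).imp fun n hn => ⟨_, rfl, hn⟩⟩
  obtain ⟨𝒲', b, hb, h1⟩ := prep hc 𝒲 hW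
  obtain ⟨ℱ, h2, h3⟩ := hS (fun m => {U | Gd U ∧ ∃ (n : ℕ) (O : Fin n → Set X), NO O ∧ Dec b m O ∧
    U = ⋃ l, O l ∧ ∀ σ : ι → Fin n, Gb (𝒲' m) σ O ∨ ∀ O'', NO O'' → O'' ≤ O → ¬ Gb (𝒲' m) σ O''})
    fun m => dom_of (fun U hU => hU.1) fun z hz => by
      obtain ⟨n, hn⟩ := fam (ι := ι) h b hb hz
      obtain ⟨O, a1, a2, a3, a4, a5⟩ := hn n le_rfl m _ univ finite_univ (fun _ => 𝒲' m) id
      exact ⟨_, ⟨a3, n, O, a1, a2, rfl, fun σ => a5 σ trivial⟩, a4⟩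
  have h4 := fun m (U : ℱ m) => ((h2 m).1 U.2).2
  choose n O h5 h6 h7 h8 using h4
  have h9 : ∀ m (U : ℱ m) (σ : ι → Fin (n m U)), ∃ w ∈ 𝒲 m, Gb (𝒲' m) σ (O m U) →
      ∀ i, O m U (σ i) ⊆ w i := fun m U σ => by
    by_cases hg : Gb (𝒲' m) σ (O m U)
    · obtain ⟨w, hw, h⟩ := hg
      exact ⟨w, (h1 m).1 hw, fun _ => h⟩
    · obtain ⟨w, hw⟩ := hne m
      exact ⟨w, hw, fun h => (hg h).elim⟩
  choose w hw hw' using h9
  refine ⟨fun m => ⋃ U, range (w m U), fun m => ⟨iUnion_subset fun U =>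
    range_subset_iff.2 (hw m U), ?_⟩, fun t ht => ?_⟩
  · have := (h2 m).2.to_subtype
    exact finite_iUnion fun U => finite_range _
  · obtain ⟨t', a1, a2, N, hN⟩ := core2 b hb t ht
    obtain ⟨m, hm, U, hU, hp⟩ := h3.often (fun n => (h2 n).2) a1.tst N
    rw [show U = _ from h7 m ⟨U, hU⟩] at hp
    obtain ⟨σ, hσ⟩ := fin_use hp
    obtain ⟨O', c1, c2, c3⟩ := hN _ _ σ _ (h1 m).2.1 (h1 m).2.2 (h5 _ _)
      (fun k hk => h6 _ _ k (hk.trans hm)) hσ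
    have hg := (h8 m ⟨U, hU⟩ σ).resolve_right fun h => h O' c1 c2 c3
    exact ⟨m, _, mem_iUnion.2 ⟨_, σ, rfl⟩, fun i => (hσ i).mono
      (inter_subset_inter (hw' _ _ σ hg i) (a2 i))⟩

theorem boxOne {ι : Type} [Finite ι] (hS : S1 X) (hc : CCC (ι → X)) (𝒲 : ℕ → Set (ι → Set X))
    (hW : ∀ n, DB (𝒲 n)) (hne : ∀ n, (𝒲 n).Nonempty) :
    ∃ w : ℕ → ι → Set X, (∀ n, w n ∈ 𝒲 n) ∧ ∀ t, NO t → ∃ n, Mt (w n) t := by
  by_cases h : ∀ z : Set (Set X), Tst z → ∃ V, Gd V ∧ Par z V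
  swap
  · exact bad h 𝒲 hW hne
  obtain ⟨𝒲', b, hb, h1⟩ := prep hc 𝒲 hW
  obtain ⟨e, he⟩ := exists_injective_nat (ℕ × ℕ × (ι → ℕ))
  obtain ⟨U, h2, h3⟩ := hS (fun m => {U | Gd U ∧ ∃ n, m ≤ n ∧ ∃ O : Fin n → Set X, NO O ∧
    Dec b m O ∧ U = ⋃ l, O l ∧ ∀ m' ≤ n, ∀ σ : ι → Fin n, Gb (𝒲' (e (n, m', fun i => σ i))) σ O ∨
      ∀ O'', NO O'' → O'' ≤ O → ¬ Gb (𝒲' (e (n, m', fun i => σ i))) σ O''})
    fun m => dom_of (fun U hU => hU.1) fun z hz => by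
      obtain ⟨n, hn⟩ := fam (ι := ι) h b hb hz
      obtain ⟨O, a1, a2, a3, a4, a5⟩ := hn (max n m) (le_max_left _ _) m _ _
        ((finite_Iic (max n m)).prod (finite_univ (α := ι → Fin (max n m))))
        (fun p => 𝒲' (e (max n m, p.1, fun i => p.2 i))) Prod.snd
      exact ⟨_, ⟨a3, _, le_max_right _ _, O, a1, a2, rfl, fun m' hm σ => a5 (m', σ) ⟨hm, trivial⟩⟩,
        a4⟩
  have h4 := fun m => (h2 m).2
  choose n hn O h5 h6 h7 h8 using h4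
  have h9 : ∀ l, ∃ w ∈ 𝒲 l, ∀ m (σ : ι → Fin (n m)), e (n m, m, fun i => σ i) = l →
      Gb (𝒲' l) σ (O m) → ∀ i, O m (σ i) ⊆ w i := fun l => by
    by_cases hg : ∃ (m : ℕ) (σ : ι → Fin (n m)), e (n m, m, fun i => σ i) = l ∧ Gb (𝒲' l) σ (O m)
    · obtain ⟨m, σ, rfl, w, hw, h⟩ := hg
      refine ⟨w, (h1 _).1 hw, fun m' σ' h' _ => ?_⟩
      have h10 := he h'
      simp only [Prod.mk.injEq] at h10
      obtain ⟨-, rfl, h11⟩ := h10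
      obtain rfl : σ' = σ := funext fun i => Fin.ext (congrFun h11 i)
      exact h
    · obtain ⟨w, hw⟩ := hne l
      exact ⟨w, hw, fun m σ a c => (hg ⟨m, σ, a, c⟩).elim⟩
  choose w hw hw' using h9
  refine ⟨w, hw, fun t ht => ?_⟩
  obtain ⟨t', a1, a2, N, hN⟩ := core2 b hb t ht
  rw [← iUnion_singleton_eq_range] at h3
  obtain ⟨m, hm, _, rfl, hp⟩ := h3.often (fun n => finite_singleton _) a1.tst N
  rw [h7 m] at hp
  obtain ⟨σ, hσ⟩ := fin_use hp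
  obtain ⟨O', c1, c2, c3⟩ := hN _ _ σ _ (h1 (e (n m, m, fun i => σ i))).2.1 (h1 _).2.2 (h5 _)
    (fun k hk => h6 _ k (hk.trans hm)) hσ
  have hg := (h8 m m (hn m) σ).resolve_right fun h => h O' c1 c2 c3
  exact ⟨_, fun i => (hσ i).mono (inter_subset_inter (hw' _ m σ rfl hg i) (a2 i))⟩

theorem ccc_pi (hc : ∀ k, CCC (Fin k → X)) (ι : Type) [Finite ι] : CCC (ι → X) := by
  obtain ⟨k, ⟨e⟩⟩ := Finite.exists_equiv_fin ι
  intro 𝒜 h1 h2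
  let f : (Fin k → X) → ι → X := fun x i => x (e i)
  have hf : Function.Surjective f := fun y => ⟨fun j => y (e.symm j), by funext i; simp [f]⟩
  have hi := (preimage_injective.2 hf).injOn (s := 𝒜)
  refine countable_of_injective_of_countable_image hi (hc k _ ?_ ?_)
  · rintro _ ⟨A, hA, rfl⟩
    exact ⟨(h1 A hA).1.preimage (by fun_prop), (h1 A hA).2.preimage hf⟩
  · rintro _ ⟨A, hA, rfl⟩ _ ⟨B, hB, rfl⟩ hne
    exact (h2 hA hB fun e => hne (e ▸ rfl)).preimage f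

/-- Boxes attached to a family of open subsets of a finite power. -/
def BX {k : ℕ} (m : ℕ) (𝒰 : Set (Set (Fin k → X))) : Set (Fin m × Fin k → Set X) :=
  {w | (∀ p, IsOpen (w p)) ∧ ∃ U ∈ 𝒰, ∀ j, (univ.pi fun i => w (j, i)) ⊆ U}

theorem box_in {k : ℕ} {O : Set (Fin k → X)} (hO : IsOpen O) {x : Fin k → X} (hx : x ∈ O) :
    ∃ u : Fin k → Set X, (∀ i, IsOpen (u i) ∧ x i ∈ u i) ∧ univ.pi u ⊆ O :=
  isOpen_pi_iff'.1 hO x hx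

theorem BX_db {k : ℕ} (m : ℕ) {𝒰 : Set (Set (Fin k → X))} (h : DOm _ 𝒰) :
    DB (BX m 𝒰) ∧ (BX m 𝒰).Nonempty := by
  have key : ∀ t, NO t → ∃ w ∈ BX m 𝒰, Mt w t := fun t ht => by
    obtain ⟨U, hU, hp⟩ := h.par (NO.tst (t := fun j => univ.pi fun i => t (j, i)) fun j =>
      ⟨isOpen_set_pi finite_univ fun i _ => (ht _).1, univ_pi_nonempty_iff.2 fun i => (ht _).2⟩)
    choose x hx using fun j => hp _ ⟨j, rfl⟩
    choose u hu hu' using fun j => box_in (h.1 U hU) (hx j).1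
    exact ⟨fun p => u p.1 p.2, ⟨fun p => (hu p.1 p.2).1, U, hU, hu'⟩,
      fun p => ⟨x p.1 p.2, (hu p.1 p.2).2, (hx p.1).2 p.2 trivial⟩⟩
  refine ⟨⟨fun w hw => hw.1, key⟩, ?_⟩
  obtain ⟨U, hU, -⟩ := h.par (z := ∅) ⟨finite_empty, fun _ h => h.elim⟩
  obtain ⟨x, -⟩ := not_subset.1 (h.gd hU).2
  obtain ⟨w, hw, -⟩ := key (fun _ => univ) fun p => ⟨isOpen_univ, x p.2, trivial⟩
  exact ⟨w, hw⟩

theorem test_box {k : ℕ} {z : Set (Set (Fin k → X))} (hz : Tst z) :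
    ∃ (m : ℕ) (t : Fin m × Fin k → Set X), NO t ∧ ∀ w U, (∀ j, (univ.pi fun i => w (j, i)) ⊆ U) →
      Mt w t → Par z U := by
  have := hz.1.to_subtype
  obtain ⟨m, ⟨e⟩⟩ := Finite.exists_equiv_fin z
  choose x hx using fun F : z => (hz.2 F F.2).2
  choose u hu hu' using fun F : z => box_in (hz.2 F F.2).1 (hx F)
  refine ⟨m, fun p => u (e.symm p.1) p.2, fun p => ⟨(hu _ _).1, _, (hu _ _).2⟩,
    fun w U hU hm F hF => ?_⟩
  choose y hy using fun i => hm (e ⟨F, hF⟩, i)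
  refine ⟨y, hU (e ⟨F, hF⟩) fun i _ => (hy i).1, hu' ⟨F, hF⟩ fun i _ => ?_⟩
  simpa using (hy i).2

theorem powOne (hS : S1 X) (hc : ∀ k, CCC (Fin k → X)) (k : ℕ) : S1 (Fin k → X) := by
  intro 𝒰 h
  choose w hw hw' using fun m => boxOne hS (ccc_pi hc _) (fun n => BX m (𝒰 (Nat.pair m n)))
    (fun n => (BX_db m (h _)).1) fun n => (BX_db m (h _)).2
  choose U hU hU' using fun m n => (hw m n).2
  have h1 : ∀ l, U l.unpair.1 l.unpair.2 ∈ 𝒰 l := fun l => by simpa using hU l.unpair.1 l.unpair.2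
  refine ⟨fun l => U l.unpair.1 l.unpair.2, h1, dom_of ?_ fun z hz => ?_⟩
  · rintro _ ⟨l, rfl⟩
    exact (h l).gd (h1 l)
  · obtain ⟨m, t, ht, h2⟩ := test_box hz
    obtain ⟨n, hn⟩ := hw' m t ht
    exact ⟨U m n, ⟨Nat.pair m n, by simp⟩, h2 _ _ (hU' m n) hn⟩

theorem powFin (hS : Sfin X) (hc : ∀ k, CCC (Fin k → X)) (k : ℕ) : Sfin (Fin k → X) := by
  intro 𝒰 h
  choose F hF hF' using fun m => boxFin hS (ccc_pi hc _) (fun n => BX m (𝒰 (Nat.pair m n)))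
    (fun n => (BX_db m (h _)).1) fun n => (BX_db m (h _)).2
  choose! U hU hU' using fun m n w (hw : w ∈ F m n) => ((hF m n).1 hw).2
  have h1 : ∀ l, U l.unpair.1 l.unpair.2 '' F _ l.unpair.2 ⊆ 𝒰 l := by
    rintro l _ ⟨w, hw, rfl⟩
    simpa using hU l.unpair.1 l.unpair.2 w hw
  refine ⟨fun l => U l.unpair.1 l.unpair.2 '' F _ l.unpair.2, fun l => ⟨h1 l, (hF _ _).2.image _⟩,
    dom_of (fun V hV => ?_) fun z hz => ?_⟩
  · obtain ⟨l, hl⟩ := mem_iUnion.1 hV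
    exact (h l).gd (h1 l hl)
  · obtain ⟨m, t, ht, h2⟩ := test_box hz
    obtain ⟨n, w, hw, hn⟩ := hF' m t ht
    refine ⟨U m n w, mem_iUnion.2 ⟨Nat.pair m n, ?_⟩, h2 _ _ (hU' m n w hw) hn⟩
    rw [Nat.unpair_pair]
    exact ⟨w, hw, rfl⟩

end Pool.Agent.H17.DO
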