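import Mathlib

set_option autoImplicit false

namespace Pool.Agent.H17.KMen
open Set Filter Topology TopologicalSpace

/-- `k`-covers: open covers such that each compact set lies inside one member. -/
def KCover (X : Type) [TopologicalSpace X] (𝒰 : Set (Set X)) : Prop :=
  (∀ U ∈ 𝒰, IsOpen U) ∧ ⋃₀ 𝒰 = univ ∧ ∀ K : Set X, IsCompact K → ∃ U ∈ 𝒰, K ⊆ U

def A : ℕ → Type
  | 0 => ℕ → ℕ
  | n + 1 => Ultrafilter (A n)

def X : Type := Σ n, A n

def Free {α : Type} (q : Ultrafilter α) : Prop := ∀ a, {a} ∉ q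

instance : TopologicalSpace X where
  IsOpen U := ∀ (n : ℕ) (q : Ultrafilter (A n)), Free q → (⟨n + 1, q⟩ : X) ∈ U →
    {a : A n | (⟨n, a⟩ : X) ∈ U} ∈ q
  isOpen_univ := fun _ q _ _ => Filter.univ_mem
  isOpen_inter := fun s t hs ht n q hq h => Filter.inter_mem (hs n q hq h.1) (ht n q hq h.2)
  isOpen_sUnion := fun S hS n q hq ⟨t, ht, h⟩ =>
    Filter.mem_of_superset (hS t ht n q hq h) fun _ ha => ⟨t, ht, ha⟩

theorem isOpen_iff (U : Set X) : IsOpen U ↔ ∀ (n : ℕ) (q : Ultrafilter (A n)), Free q →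
    (⟨n + 1, q⟩ : X) ∈ U → {a : A n | (⟨n, a⟩ : X) ∈ U} ∈ q := Iff.rfl

instance : T1Space X where
  t1 x := ⟨fun n q hq _ => by
    by_cases h : ∃ a : A n, (⟨n, a⟩ : X) = x
    · obtain ⟨a, rfl⟩ := h
      refine Filter.mem_of_superset (Ultrafilter.compl_mem_iff_notMem.2 (hq a)) fun b hb hb' => hb ?_
      have : (⟨n, b⟩ : Σ n, A n) = ⟨n, a⟩ := hb'
      simpa using this
    · exact Filter.univ_mem' fun b hb => h ⟨b, hb⟩⟩

/-- Level-wise closure. -/
def D (T : Set X) : (n : ℕ) → Set (A n)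
  | 0 => {a | (⟨0, a⟩ : X) ∈ T}
  | n + 1 => {q | (⟨n + 1, q⟩ : X) ∈ T ∨ D T n ∈ (show Ultrafilter (A n) from q)}

def DD (T : Set X) : Set X := {x | x.2 ∈ D T x.1}

theorem sub_DD (T : Set X) : T ⊆ DD T := by
  rintro ⟨n, a⟩ h
  cases n with
  | zero => exact h
  | succ n => exact Or.inl h

theorem closed_DD (T : Set X) : IsClosed (DD T) :=
  ⟨fun n q _ h => Ultrafilter.compl_mem_iff_notMem.2 fun h' => h (Or.inr h')⟩

theorem D_low {T : Set X} {j : ℕ} (hT : ∀ x ∈ T, x.1 = j) (n : ℕ) (hn : n ≤ j) (a : A n)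
    (h : a ∈ D T n) : (⟨n, a⟩ : X) ∈ T := by
  induction n with
  | zero => exact h
  | succ n ih =>
    rcases h with h | h
    · exact h
    · obtain ⟨b, hb⟩ := Ultrafilter.nonempty_of_mem h
      have := hT _ (ih (by omega) b hb)
      simp only at this
      omega

theorem D_disj {T T' : Set X} {j : ℕ} (hT : ∀ x ∈ T, x.1 = j) (hT' : ∀ x ∈ T', x.1 = j)
    (hd : Disjoint T T') (n : ℕ) (a : A n) (h : a ∈ D T n) (h' : a ∈ D T' n) : False := by
  induction n with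
  | zero => exact Set.disjoint_left.1 hd h h'
  | succ n ih =>
    rcases h with h | h
    · have := hT _ h
      exact Set.disjoint_left.1 hd h (D_low hT' _ this.le a h')
    rcases h' with h' | h'
    · have := hT' _ h'
      exact Set.disjoint_left.1 hd (D_low hT _ this.le a (Or.inr h)) h'
    obtain ⟨b, hb⟩ := Ultrafilter.nonempty_of_mem (Filter.inter_mem h h')
    exact ih b hb.1 hb.2

theorem DD_avoid {T : ℕ → Set X} {j : ℕ} (hT : ∀ i, ∀ x ∈ T i, x.1 = j)
    (hd : Pairwise fun i k => Disjoint (T i) (T k)) {F : Set X} (hF : F.Finite) :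
    ∃ i, Disjoint F (DD (T i)) := by
  by_contra h
  push Not at h
  simp only [Set.not_disjoint_iff] at h
  choose x hx hx' using h
  have := hF.to_subtype
  obtain ⟨i, k, hik, he⟩ := Finite.exists_ne_map_eq_of_infinite fun i => (⟨x i, hx i⟩ : F)
  have he' : x i = x k := congrArg Subtype.val he
  exact D_disj (hT i) (hT k) (hd hik) (x i).1 (x i).2 (hx' i) (by
    have := hx' k
    rw [← he'] at this
    exact this)

theorem open_low (j : ℕ) (S : Set X) : IsOpen ({x : X | x.1 < j} ∪ (S ∩ {x | x.1 = j})) := by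
  intro n q _ h
  refine Filter.univ_mem' fun a => Or.inl ?_
  rcases h with h | h
  · exact lt_trans (Nat.lt_succ_self n) h
  · have : n + 1 = j := h.2
    change n < j
    omega

theorem finite_of_compact {K : Set X} (hK : IsCompact K) : K.Finite := by
  obtain ⟨N, hN⟩ : ∃ N, K ⊆ {x : X | x.1 < N} := by
    refine hK.elim_directed_cover (fun N => {x : X | x.1 < N}) (fun N => ?_)
      (fun x _ => mem_iUnion.2 ⟨x.1 + 1, Nat.lt_succ_self _⟩) (Monotone.directed_le ?_)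
    · simpa using open_low N ∅
    · exact fun a b h x hx => lt_of_lt_of_le hx h
  have key : ∀ m j, j + m = N → (K ∩ {x | j ≤ x.1}).Finite := by
    intro m
    induction m with
    | zero =>
      intro j hj
      refine finite_empty.subset fun x hx => ?_
      have h1 : x.1 < N := hN hx.1
      have h2 : j ≤ x.1 := hx.2
      omega
    | succ m ih =>
      intro j hj
      have hF := ih (j + 1) (by omega)
      have : (K ∩ {x | x.1 = j}).Finite := by
        by_contra hinf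
        let e := Set.Infinite.natEmbedding _ hinf
        let T : ℕ → Set X := fun i => range fun k => (e (Nat.pair i k) : X)
        have hT : ∀ i, ∀ x ∈ T i, x.1 = j := by
          rintro i _ ⟨k, rfl⟩
          exact (e _).2.2
        obtain ⟨i, hi⟩ := DD_avoid hT (by
          intro i i' hne
          rw [Set.disjoint_left]
          rintro _ ⟨k, rfl⟩ ⟨k', hk'⟩
          have := Nat.pair_eq_pair.1 (e.injective (Subtype.ext hk'))
          exact hne this.1.symm) hF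
        have hc := hK.inter_right (closed_DD (T i))
        have hsub : K ∩ DD (T i) ⊆ {x | x.1 = j} := by
          rintro ⟨n, a⟩ ⟨h1, h2⟩
          by_cases hn : n ≤ j
          · exact hT i _ (D_low (hT i) n hn a h2)
          · exact (Set.disjoint_left.1 hi ⟨h1, by change j + 1 ≤ n; omega⟩ h2).elim
        obtain ⟨t, ht⟩ := hc.elim_finite_subcover
          (fun y : X => {x : X | x.1 < j} ∪ ({y} ∩ {x | x.1 = j})) (fun y => open_low j _)
          (fun x hx => mem_iUnion.2 ⟨x, Or.inr ⟨rfl, hsub hx⟩⟩)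
        have hfin : (T i).Finite := t.finite_toSet.subset fun x hx => by
          have h1 : x ∈ K := by
            obtain ⟨k, rfl⟩ := hx
            exact (e _).2.1
          obtain ⟨y, hy, h⟩ := mem_iUnion₂.1 (ht ⟨h1, sub_DD _ hx⟩)
          rcases h with h | h
          · have h2 : x.1 < j := h
            have := hT i x hx
            omega
          · exact (h.1 : x = y) ▸ hy
        refine Set.infinite_range_of_injective (fun k k' hk => ?_) hfin
        exact (Nat.pair_eq_pair.1 (e.injective (Subtype.ext hk))).2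
      refine (hF.union this).subset fun x hx => ?_
      have h2 : j ≤ x.1 := hx.2
      by_cases h : x.1 = j
      · exact Or.inr ⟨hx.1, h⟩
      · exact Or.inl ⟨hx.1, by change j + 1 ≤ x.1; omega⟩
  simpa using key N 0 (by simp)

theorem ult_conv (p : Ultrafilter X) (N : ℕ) (h : {x : X | x.1 < N} ∈ p) : ∃ x, (p : Filter X) ≤ 𝓝 x := by
  obtain ⟨n, hn⟩ : ∃ n, {x : X | x.1 = n} ∈ p := by
    have : (⋃ n ∈ Iio N, {x : X | x.1 = n}) ∈ p :=
      Filter.mem_of_superset h fun x hx => mem_biUnion (show x.1 ∈ Iio N from hx) rfl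
    obtain ⟨n, -, hn⟩ := (Ultrafilter.finite_biUnion_mem_iff (finite_Iio N)).1 this
    exact ⟨n, hn⟩
  have hr : range (fun a : A n => (⟨n, a⟩ : X)) ∈ p := Filter.mem_of_superset hn (by
    rintro ⟨m, a⟩ (rfl : m = n)
    exact ⟨a, rfl⟩)
  have hinj : Function.Injective (fun a : A n => (⟨n, a⟩ : X)) := sigma_mk_injective
  let q := p.comap hinj hr
  have hq : ∀ S : Set X, {a : A n | (⟨n, a⟩ : X) ∈ S} ∈ q → S ∈ p := fun S hS => by
    have h1 := (Ultrafilter.mem_comap p hinj hr).1 hS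
    refine Filter.mem_of_superset h1 ?_
    rintro _ ⟨a, ha, rfl⟩
    exact ha
  by_cases hf : Free q
  · exact ⟨⟨n + 1, q⟩, le_nhds_iff.2 fun U hx hU => hq U (hU n q hf hx)⟩
  · simp only [Free, not_forall, not_not] at hf
    obtain ⟨a, ha⟩ := hf
    exact ⟨⟨n, a⟩, le_nhds_iff.2 fun U hx _ => hq U (Filter.mem_of_superset ha (by
      rintro _ rfl
      exact hx))⟩

theorem fin_sel (𝒰 : Set (Set X)) (h𝒰 : KCover X 𝒰) (N : ℕ) :
    ∃ ℱ ⊆ 𝒰, ℱ.Finite ∧ ∀ t : Fin N → X, (∀ i, (t i).1 < N) → ∃ U ∈ ℱ, range t ⊆ U := by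
  by_contra hc
  push Not at hc
  let Z : Set (Set X) → Set (Fin N → X) := fun ℱ =>
    {t | (∀ i, (t i).1 < N) ∧ ∀ U ∈ ℱ, ¬ range t ⊆ U}
  let I := {ℱ : Set (Set X) // ℱ ⊆ 𝒰 ∧ ℱ.Finite}
  have : Nonempty I := ⟨⟨∅, empty_subset _, finite_empty⟩⟩
  have hne : (⨅ ℱ : I, 𝓟 (Z ℱ.1)).NeBot := by
    refine Filter.iInf_neBot_of_directed' (fun a b => ⟨⟨a.1 ∪ b.1, union_subset a.2.1 b.2.1,
      a.2.2.union b.2.2⟩, ?_, ?_⟩) (fun a => principal_neBot_iff.2 (hc a.1 a.2.1 a.2.2))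
    · exact principal_mono.2 fun t ht => ⟨ht.1, fun U hU => ht.2 U (Or.inl hU)⟩
    · exact principal_mono.2 fun t ht => ⟨ht.1, fun U hU => ht.2 U (Or.inr hU)⟩
  let p := Ultrafilter.of (⨅ ℱ : I, 𝓟 (Z ℱ.1))
  have hp : ∀ ℱ : I, Z ℱ.1 ∈ p := fun ℱ =>
    Ultrafilter.of_le _ (mem_iInf_of_mem ℱ (mem_principal_self _))
  have hx : ∀ i : Fin N, ∃ x, ((p.map fun t => t i : Ultrafilter X) : Filter X) ≤ 𝓝 x := fun i =>
    ult_conv _ N (Ultrafilter.mem_map.2 (Filter.mem_of_superset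
      (hp ⟨∅, empty_subset _, finite_empty⟩) fun t ht => ht.1 i))
  choose x hx using hx
  obtain ⟨U, hU, hxU⟩ := h𝒰.2.2 _ (finite_range x).isCompact
  have h1 : ∀ᶠ t in (p : Filter (Fin N → X)), ∀ i, t i ∈ U :=
    Filter.eventually_all.2 fun i => hx i ((h𝒰.1 U hU).mem_nhds (hxU ⟨i, rfl⟩))
  obtain ⟨t, ht1, ht2⟩ := Ultrafilter.nonempty_of_mem
    (Filter.inter_mem h1 (hp ⟨{U}, singleton_subset_iff.2 hU, finite_singleton _⟩))
  exact ht2.2 U rfl (range_subset_iff.2 ht1)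

/-- A winning Markov strategy for finite selections. -/
theorem markov : ∃ σ : Set (Set X) → ℕ → Set (Set X),
    (∀ 𝒰 n, KCover X 𝒰 → σ 𝒰 n ⊆ 𝒰 ∧ (σ 𝒰 n).Finite) ∧
      ∀ 𝒰 : ℕ → Set (Set X), (∀ n, KCover X (𝒰 n)) → KCover X (⋃ n, σ (𝒰 n) n) := by
  choose! σ h1 h2 h3 using fin_sel
  refine ⟨σ, fun 𝒰 n h => ⟨h1 𝒰 h n, h2 𝒰 h n⟩, fun 𝒰 h => ?_⟩
  have key : ∀ K : Set X, IsCompact K → ∃ U ∈ ⋃ n, σ (𝒰 n) n, K ⊆ U := by
    intro K hK
    obtain ⟨x0⟩ : Nonempty X := ⟨⟨0, fun _ => 0⟩⟩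
    have hf := (finite_of_compact hK).insert x0
    obtain ⟨s, hs⟩ := hf.countable.exists_eq_range (insert_nonempty _ _)
    have h4 : ∀ x ∈ insert x0 K, ∃ i, s i = x := fun x hx => by
      rwa [hs] at hx
    choose! g hg using h4
    obtain ⟨N, hN⟩ := (hf.image fun x => max (g x) x.1).bddAbove
    obtain ⟨U, hU, hs'⟩ := h3 (𝒰 (N + 1)) (h _) (N + 1) (fun i => s i) (fun i => by
      have hi : s i ∈ insert x0 K := by rw [hs]; exact ⟨i, rfl⟩
      exact Nat.lt_succ_of_le ((le_max_right _ _).trans (hN ⟨_, hi, rfl⟩)))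
    refine ⟨U, mem_iUnion.2 ⟨_, hU⟩, fun x hx => hs' ⟨⟨g x, ?_⟩, hg x (Or.inr hx)⟩⟩
    exact Nat.lt_succ_of_le ((le_max_left _ _).trans (hN ⟨_, Or.inr hx, rfl⟩))
  refine ⟨fun U hU => ?_, eq_univ_of_forall fun x => ?_, key⟩
  · obtain ⟨n, hn⟩ := mem_iUnion.1 hU
    exact (h n).1 U (h1 _ (h n) n hn)
  · obtain ⟨U, hU, hx⟩ := key {x} isCompact_singleton
    exact ⟨U, hU, hx rfl⟩

/-- No single selections from one fixed sequence of `k`-covers. -/
theorem noRoth : ∃ 𝒰 : ℕ → Set (Set X), (∀ n, KCover X (𝒰 n)) ∧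
    ∀ U : ℕ → Set X, (∀ n, U n ∈ 𝒰 n) → ¬ KCover X (range U) := by
  let T : ℕ → ℕ → Set X := fun n m => range fun a : {a : ℕ → ℕ // a n = m} => (⟨0, a.1⟩ : X)
  have hT : ∀ n i, ∀ x ∈ T n i, x.1 = 0 := by
    rintro n i _ ⟨a, rfl⟩
    rfl
  have key : ∀ n (K : Set X), IsCompact K → ∃ U ∈ range fun m => (DD (T n m))ᶜ, K ⊆ U := by
    intro n K hK
    obtain ⟨i, hi⟩ := DD_avoid (hT n) (by
      intro i k hne
      rw [Set.disjoint_left]
      rintro _ ⟨a, rfl⟩ ⟨b, hb⟩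
      have : (b.1 : A 0) = a.1 := sigma_mk_injective (β := A) hb
      exact hne (a.2.symm.trans ((congrFun this n).symm.trans b.2))) (finite_of_compact hK)
    exact ⟨_, ⟨i, rfl⟩, hi.subset_compl_right⟩
  refine ⟨fun n => range fun m => (DD (T n m))ᶜ, fun n => ⟨?_, eq_univ_of_forall fun x => ?_,
    key n⟩, fun U hU hc => ?_⟩
  · rintro _ ⟨m, rfl⟩
    exact (closed_DD _).isOpen_compl
  · obtain ⟨U, hU, hx⟩ := key n {x} isCompact_singleton
    exact ⟨U, hU, hx rfl⟩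
  · choose m hm using hU
    obtain ⟨_, ⟨n, rfl⟩, hx⟩ := hc.2.2 {⟨0, m⟩} isCompact_singleton
    have := hx rfl
    rw [← hm n] at this
    exact this (sub_DD _ ⟨⟨m, rfl⟩, rfl⟩)

end Pool.Agent.H17.KMen
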