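import Mathlib
import Pool.Agent.H17.W1

set_option autoImplicit false

namespace Pool.Agent.H17.Ponag
open Set Filter Topology TopologicalSpace Pool.Agent.H17.W1

/-- Every base has a locally finite subfamily covering the space. -/
def TotParacompact (X : Type) [TopologicalSpace X] : Prop :=
  ∀ ℬ : Set (Set X), IsTopologicalBasis ℬ →
    ∃ ℬ' ⊆ ℬ, ⋃₀ ℬ' = univ ∧ LocallyFinite fun b : ℬ' => (b : Set X)

/-- A move of Alice: a set `Y` and sets `V x`, of which only those with `x ∈ Y` matter. -/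
abbrev Move (X : Type) : Type := Set X × (X → Set X)

/-- The part left uncovered before round `n`. -/
def Rest {X : Type} (A : ℕ → Move X) (D : ℕ → Set X) (n : ℕ) : Set X :=
  (⋃ k < n, ⋃ x ∈ D k, (A k).2 x)ᶜ

def AliceLegal {X : Type} [TopologicalSpace X] (A : ℕ → Move X) (D : ℕ → Set X) (n : ℕ) : Prop :=
  (∀ x ∈ (A n).1, IsOpen ((A n).2 x) ∧ x ∈ (A n).2 x) ∧ (A n).1 ⊆ Rest A D n ∧
    Rest A D n ⊆ ⋃ x ∈ (A n).1, (A n).2 x

def BobLegal {X : Type} [TopologicalSpace X] (A : ℕ → Move X) (D : ℕ → Set X) (n : ℕ) : Prop :=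
  D n ⊆ (A n).1 ∧ IsClosed (D n) ∧ DiscreteTopology (D n)

def Covers {X : Type} (A : ℕ → Move X) (D : ℕ → Set X) : Prop :=
  (⋃ n, ⋃ x ∈ D n, (A n).2 x) = univ

/-- Bob has a winning strategy. -/
def BobWins (X : Type) [TopologicalSpace X] : Prop :=
  ∃ σ : List (Move X) → Set X, ∀ (A : ℕ → Move X) (D : ℕ → Set X),
    (∀ n, D n = σ (List.ofFn fun i : Fin (n + 1) => A i)) →
      (∀ n, (∀ k ≤ n, AliceLegal A D k) → BobLegal A D n) ∧
        ((∀ n, AliceLegal A D n) → Covers A D)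

/-- Alice has a winning strategy. -/
def AliceWins (X : Type) [TopologicalSpace X] : Prop :=
  ∃ τ : List (Set X) → Move X, ∀ (A : ℕ → Move X) (D : ℕ → Set X),
    (∀ n, A n = τ (List.ofFn fun i : Fin n => D i)) →
      (∀ n, (∀ k < n, BobLegal A D k) → AliceLegal A D n) ∧
        ((∀ n, BobLegal A D n) → ¬ Covers A D)

theorem not_both {X : Type} [TopologicalSpace X] (hB : BobWins X) : ¬ AliceWins X := by
  rintro ⟨τ, hτ⟩
  obtain ⟨σ, hσ⟩ := hB
  obtain ⟨D, hD⟩ := rec_seq (α := Set X) (fun D n => σ (List.ofFn fun i : Fin (n + 1) =>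
    τ (List.ofFn fun j : Fin i => D j))) (fun f g n h => by
      congr 2
      funext i
      congr 2
      funext j
      exact h j (by have := i.2; have := j.2; omega))
  obtain ⟨h1, h2⟩ := hσ (fun n => τ (List.ofFn fun j : Fin n => D j)) D hD
  obtain ⟨h3, h4⟩ := hτ (fun n => τ (List.ofFn fun j : Fin n => D j)) D (fun _ => rfl)
  have h5 : ∀ n, BobLegal (fun n => τ (List.ofFn fun j : Fin n => D j)) D n := by
    intro n
    induction n using Nat.strong_induction_on with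
    | _ n ih => exact h1 n fun k hk => h3 k fun m hm => ih m (by omega)
  exact h4 h5 (h2 fun n => h3 n fun k _ => h5 k)

/-- Two round criterion. -/
theorem bobWins_of {X : Type} [TopologicalSpace X] (N : Set X)
    (hN : ∀ x ∉ N, IsOpen ({x} : Set X)) (hc : ∀ S : Set X, S.Countable → IsClosed S)
    (hL : ∀ (Y : Set X) (V : X → Set X), (∀ x ∈ Y, IsOpen (V x)) → univ ⊆ (⋃ x ∈ Y, V x) →
      ∃ D ⊆ Y, D.Countable ∧ N ⊆ ⋃ x ∈ D, V x) : BobWins X := by
  choose! d hd1 hd2 hd3 using hL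
  refine ⟨fun l => if l.length = 1 then d (l.getD 0 default).1 (l.getD 0 default).2
    else (l.getD (l.length - 1) default).1, fun A D hD => ?_⟩
  have e0 : D 0 = d (A 0).1 (A 0).2 := by rw [hD]; simp
  have e1 : ∀ n, D (n + 1) = (A (n + 1)).1 := fun n => by
    rw [hD]
    beta_reduce
    rw [if_neg (by simp), List.getD_eq_getElem _ _ (by simp)]
    simp only [List.getElem_ofFn, List.length_ofFn, Nat.add_sub_cancel]
  have h0 : AliceLegal A D 0 → (∀ x ∈ (A 0).1, IsOpen ((A 0).2 x)) ∧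
      univ ⊆ ⋃ x ∈ (A 0).1, (A 0).2 x := fun h =>
    ⟨fun x hx => (h.1 x hx).1, fun x _ => h.2.2 (by simp [Rest])⟩
  have hdisc : ∀ S : Set X, (∀ T ⊆ S, IsClosed T) → IsClosed S ∧ DiscreteTopology S := by
    intro S hS
    refine ⟨hS S subset_rfl, discreteTopology_iff_forall_isClosed.2 fun T => ?_⟩
    have := (hS (Subtype.val '' T) (Subtype.coe_image_subset _ _)).preimage
      (continuous_subtype_val (p := fun x => x ∈ S))
    rwa [preimage_image_eq _ Subtype.val_injective] at this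
  constructor
  · intro n hn
    obtain ⟨h1, h2⟩ := h0 (hn 0 (Nat.zero_le _))
    cases n with
    | zero =>
      refine ⟨e0 ▸ hd1 _ _ h1 h2, hdisc _ fun T hT => hc T ?_⟩
      exact (e0 ▸ hd2 _ _ h1 h2 : (D 0).Countable).mono hT
    | succ n =>
      refine ⟨(e1 n).subset, hdisc _ fun T hT => ⟨isOpen_iff_forall_mem_open.2 fun x hx => ?_⟩⟩
      by_cases hxN : x ∈ N
      · obtain ⟨y, hy, hxy⟩ := mem_iUnion₂.1 (hd3 _ _ h1 h2 hxN)
        refine ⟨(A 0).2 y, fun z hz hzT => ?_, h1 y (hd1 _ _ h1 h2 hy), hxy⟩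
        refine (hn (n + 1) le_rfl).2.1 ((e1 n).subset (hT hzT)) ?_
        exact mem_iUnion₂.2 ⟨0, Nat.succ_pos n, mem_iUnion₂.2 ⟨y, e0 ▸ hy, hz⟩⟩
      · exact ⟨{x}, singleton_subset_iff.2 hx, hN x hxN, rfl⟩
  · intro hn
    refine eq_univ_of_forall fun x => ?_
    by_cases hx : x ∈ Rest A D 1
    · obtain ⟨y, hy, hxy⟩ := mem_iUnion₂.1 ((hn 1).2.2 hx)
      exact mem_iUnion.2 ⟨1, mem_iUnion₂.2 ⟨y, (e1 0).superset hy, hxy⟩⟩
    · obtain ⟨k, -, hk⟩ := mem_iUnion₂.1 (not_not.1 hx)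
      exact mem_iUnion.2 ⟨k, hk⟩

def T : Type := {x : ℕ → WithTop W // ∀ n, x n = ⊤ → x (n + 1) = ⊤}

def Nb (x : T) (n : ℕ) (β : W) : Set T := {z | (∀ i < n, z.1 i = x.1 i) ∧ (β : WithTop W) ≤ z.1 n}

instance : TopologicalSpace T where
  IsOpen U := ∀ x ∈ U, ∀ n, x.1 n = ⊤ → ∃ β, Nb x n β ⊆ U
  isOpen_univ := fun _ _ _ _ => ⟨Classical.arbitrary W, subset_univ _⟩
  isOpen_inter := fun s t hs ht x hx n hn => by
    obtain ⟨a, ha⟩ := hs x hx.1 n hn
    obtain ⟨b, hb⟩ := ht x hx.2 n hn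
    exact ⟨max a b, fun z hz => ⟨ha ⟨hz.1, (WithTop.coe_le_coe.2 (le_max_left a b)).trans hz.2⟩,
      hb ⟨hz.1, (WithTop.coe_le_coe.2 (le_max_right a b)).trans hz.2⟩⟩⟩
  isOpen_sUnion := fun S hS x ⟨t, ht, hx⟩ n hn => by
    obtain ⟨a, ha⟩ := hS t ht x hx n hn
    exact ⟨a, fun z hz => ⟨t, ht, ha hz⟩⟩

theorem top_mono (x : T) {n m : ℕ} (h : n ≤ m) (hn : x.1 n = ⊤) : x.1 m = ⊤ := by
  induction h with
  | refl => exact hn
  | step _ ih => exact x.2 _ ih

theorem gt_of_ne {a : WithTop W} (ha : a ≠ ⊤) : ∃ b : W, a < b := by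
  obtain ⟨a, rfl⟩ := WithTop.ne_top_iff_exists.1 ha
  obtain ⟨b, hb⟩ := exists_gt a
  exact ⟨b, WithTop.coe_lt_coe.2 hb⟩

theorem closed_of_countable (S : Set T) (hS : S.Countable) : IsClosed S := by
  refine ⟨fun z hz m hm => ?_⟩
  obtain ⟨β, hβ⟩ := bound (S := {a : W | ∃ x ∈ S, x.1 m = a})
    (((hS.image fun x => x.1 m).preimage_of_injOn (f := fun a : W => (a : WithTop W))
      WithTop.coe_injective.injOn).mono fun a ha => ha)
  refine ⟨β, fun w hw hwS => ?_⟩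
  by_cases h : w.1 m = ⊤
  · refine hz ((Subtype.ext (funext fun i => ?_) : w = z) ▸ hwS)
    by_cases hi : i < m
    · exact hw.1 i hi
    · rw [top_mono w (not_lt.1 hi) h, top_mono z (not_lt.1 hi) hm]
  · obtain ⟨a, ha⟩ := WithTop.ne_top_iff_exists.1 h
    have h1 := hβ a ⟨w, hwS, ha.symm⟩
    have h2 := hw.2
    rw [← ha] at h2
    exact absurd (WithTop.coe_le_coe.1 h2) (not_le.2 h1)

theorem iso {x : T} (hx : ∀ n, x.1 n ≠ ⊤) : IsOpen ({x} : Set T) := by
  rintro _ rfl n hn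
  exact (hx n hn).elim

theorem open_Nb {x : T} {n : ℕ} (hx : ∀ i < n, x.1 i ≠ ⊤) (β : W) : IsOpen (Nb x n β) := by
  intro z hz m hm
  have hnm : n ≤ m := not_lt.1 fun h => hx m h ((hz.1 m h).symm.trans hm)
  refine ⟨β, fun w hw => ⟨fun i hi => (hw.1 i (by omega)).trans (hz.1 i hi), ?_⟩⟩
  rcases hnm.eq_or_lt with rfl | h
  · exact hw.2
  · rw [hw.1 n h]
    exact hz.2

theorem closed_Nb {x : T} {n : ℕ} (hx : ∀ i < n, x.1 i ≠ ⊤) (β : W) : IsClosed (Nb x n β) := by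
  refine ⟨fun z hz m hm => ?_⟩
  by_cases h : m < n
  · obtain ⟨b, hb⟩ := gt_of_ne (hx m h)
    exact ⟨b, fun w hw hw' => absurd ((hw'.1 m h) ▸ hw.2) (not_le.2 hb)⟩
  · refine ⟨β, fun w hw hw' => hz ⟨fun i hi => (hw.1 i (by omega)).symm.trans (hw'.1 i hi), ?_⟩⟩
    rcases (not_lt.1 h).eq_or_lt with rfl | h
    · rw [hm]
      exact le_top
    · rw [← hw.1 n h]
      exact hw'.2

theorem nb_basis {x : T} {U : Set T} (hU : IsOpen U) (hx : x ∈ U) (h : ∃ n, x.1 n = ⊤) :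
    ∃ n β, x.1 n = ⊤ ∧ (∀ i < n, x.1 i ≠ ⊤) ∧ Nb x n β ⊆ U := by
  classical
  obtain ⟨β, hβ⟩ := hU x hx _ (Nat.find_spec h)
  exact ⟨_, β, Nat.find_spec h, fun i hi => Nat.find_min h hi, hβ⟩

instance : T1Space T := ⟨fun x => closed_of_countable _ (countable_singleton x)⟩

instance : RegularSpace T := RegularSpace.of_exists_mem_nhds_isClosed_subset fun x s hs => by
  obtain ⟨U, hUs, hU, hx⟩ := mem_nhds_iff.1 hs
  by_cases h : ∃ n, x.1 n = ⊤
  · obtain ⟨n, β, h1, h2, h3⟩ := nb_basis hU hx h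
    exact ⟨_, (open_Nb h2 β).mem_nhds ⟨fun _ _ => rfl, le_top.trans h1.ge⟩, closed_Nb h2 β, h3.trans hUs⟩
  · push Not at h
    exact ⟨{x}, (iso h).mem_nhds rfl, isClosed_singleton, singleton_subset_iff.2 (hUs hx)⟩

/-- Truncation. -/
def tr (x : T) (n : ℕ) : T := ⟨fun i => if i < n then x.1 i else ⊤, fun i h => by
  by_cases h1 : i + 1 < n
  · simp only [h1, if_true]
    simp only [show i < n by omega, if_true] at h
    exact x.2 i h
  · simp only [h1, if_false]⟩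

theorem tr_lt (x : T) {n i : ℕ} (h : i < n) : (tr x n).1 i = x.1 i := if_pos h

theorem tr_ge (x : T) {n i : ℕ} (h : n ≤ i) : (tr x n).1 i = ⊤ := if_neg (not_lt.2 h)

theorem tr_tr (x : T) {n i : ℕ} (h : i ≤ n) : tr (tr x n) i = tr x i :=
  Subtype.ext (funext fun j => by
    by_cases hj : j < i
    · rw [tr_lt _ hj, tr_lt _ hj, tr_lt _ (by omega)]
    · rw [tr_ge _ (not_lt.1 hj), tr_ge _ (not_lt.1 hj)])

theorem lind (Y : Set T) (V : T → Set T) (hV : ∀ x ∈ Y, IsOpen (V x))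
    (hc : univ ⊆ ⋃ x ∈ Y, V x) : ∃ D ⊆ Y, D.Countable ∧ {x : T | ∃ n, x.1 n = ⊤} ⊆ ⋃ x ∈ D, V x := by
  classical
  have h1 : ∀ x : T, ∃ y ∈ Y, x ∈ V y := fun x => by simpa using hc (mem_univ x)
  choose y hy hy' using h1
  have h2 : ∀ (x : T) (n : ℕ), ∃ β, x.1 n = ⊤ → Nb x n β ⊆ V (y x) := fun x n => by
    by_cases h : x.1 n = ⊤
    · obtain ⟨β, hβ⟩ := hV _ (hy x) x (hy' x) n h
      exact ⟨β, fun _ => hβ⟩
    · exact ⟨Classical.arbitrary W, fun h' => (h h').elim⟩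
  choose β hβ using h2
  let S : ℕ → Set T := fun n => {x | x.1 n = ⊤ ∧ ∀ i < n, x.1 i < β (tr x i) i}
  have hS : ∀ n, (S n).Countable := by
    intro n
    induction n with
    | zero =>
      refine Set.Subsingleton.countable fun a ha b hb => Subtype.ext (funext fun i => ?_)
      rw [top_mono a (Nat.zero_le i) ha.1, top_mono b (Nat.zero_le i) hb.1]
    | succ n ih =>
      refine (ih.biUnion fun x _ => (cIio (β x n)).biUnion fun γ _ =>
        (Set.Subsingleton.countable (s := {w : T | tr w n = x ∧ w.1 n = γ ∧ w.1 (n + 1) = ⊤})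
          ?_)).mono fun w hw => ?_
      · rintro a ⟨ha1, ha2, ha3⟩ b ⟨hb1, hb2, hb3⟩
        refine Subtype.ext (funext fun i => ?_)
        rcases lt_trichotomy i n with h | rfl | h
        · rw [← tr_lt a h, ← tr_lt b h, ha1, hb1]
        · rw [ha2, hb2]
        · rw [top_mono a h ha3, top_mono b h hb3]
      · have h3 := hw.2 n (Nat.lt_succ_self n)
        obtain ⟨γ, hγ⟩ := WithTop.ne_top_iff_exists.1 h3.ne_top
        refine mem_biUnion (x := tr w n) ⟨tr_ge _ le_rfl, fun i hi => ?_⟩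
          (mem_biUnion (x := γ) ?_ ⟨rfl, hγ.symm, hw.1⟩)
        · rw [tr_lt _ hi, tr_tr _ hi.le]
          exact hw.2 i (by omega)
        · rw [← hγ] at h3
          exact WithTop.coe_lt_coe.1 h3
  refine ⟨y '' ⋃ n, S n, by rintro _ ⟨x, -, rfl⟩; exact hy x, (countable_iUnion hS).image _, ?_⟩
  rintro z ⟨m, hm⟩
  have h4 : ∃ n, (β (tr z n) n : WithTop W) ≤ z.1 n := ⟨m, le_top.trans hm.ge⟩
  refine mem_biUnion (mem_image_of_mem y (mem_iUnion.2 ⟨Nat.find h4, tr_ge _ le_rfl,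
    fun i hi => ?_⟩)) (hβ _ _ (tr_ge z le_rfl) ⟨fun i hi => (tr_lt _ hi).symm, Nat.find_spec h4⟩)
  rw [tr_lt _ hi, tr_tr _ hi.le]
  exact not_le.1 (Nat.find_min h4 hi)

theorem bob : BobWins T :=
  bobWins_of {x : T | ∃ n, x.1 n = ⊤} (fun _ hx => iso fun n hn => hx ⟨n, hn⟩)
    closed_of_countable lind

def BB (g : ℕ → W) (n : ℕ) (β : W) : Set T :=
  {z | (∀ i < n, z.1 i = g i) ∧ ((β : WithTop W) < z.1 n ∨ (z.1 n = β ∧ ∀ i, z.1 i ≠ ⊤))}

theorem open_BB (g : ℕ → W) (n : ℕ) (β : W) : IsOpen (BB g n β) := by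
  intro z hz m hm
  have hnm : n ≤ m := not_lt.1 fun h => WithTop.coe_ne_top ((hz.1 m h).symm.trans hm)
  obtain ⟨b, hb⟩ := exists_gt β
  refine ⟨b, fun w hw => ⟨fun i hi => (hw.1 i (by omega)).trans (hz.1 i hi), Or.inl ?_⟩⟩
  rcases hnm.eq_or_lt with rfl | h
  · exact (WithTop.coe_lt_coe.2 hb).trans_le hw.2
  · rw [hw.1 n h]
    exact hz.2.resolve_right fun h' => h'.2 m hm

theorem not_tp : ¬ TotParacompact T := by
  classical
  intro h
  obtain ⟨ℬ, h1, h2, h3⟩ := h ({b | ∃ x : T, (∀ n, x.1 n ≠ ⊤) ∧ b = {x}} ∪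
    {b | ∃ g n β, b = BB g n β}) (isTopologicalBasis_of_isOpen_of_nhds (by
      rintro _ (⟨x, hx, rfl⟩ | ⟨g, n, β, rfl⟩)
      · exact iso hx
      · exact open_BB g n β) (fun x U hx hU => by
      by_cases h : ∃ n, x.1 n = ⊤
      · obtain ⟨n, β, h1, h2, h3⟩ := nb_basis hU hx h
        have h4 : ∀ i, ∃ a : W, i < n → x.1 i = a := fun i => by
          by_cases hi : i < n
          · obtain ⟨a, ha⟩ := WithTop.ne_top_iff_exists.1 (h2 i hi)
            exact ⟨a, fun _ => ha.symm⟩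
          · exact ⟨β, fun h => (hi h).elim⟩
        choose g hg using h4
        refine ⟨BB g n β, Or.inr ⟨g, n, β, rfl⟩, ⟨hg, Or.inl ((WithTop.coe_lt_top β).trans_eq h1.symm)⟩,
          fun z hz => h3 ⟨fun i hi => (hz.1 i hi).trans (hg i hi).symm, ?_⟩⟩
        rcases hz.2 with h | h
        · exact h.le
        · exact h.1.ge
      · push Not at h
        exact ⟨{x}, Or.inl ⟨x, h, rfl⟩, rfl, singleton_subset_iff.2 hx⟩))
  have hB : ∀ f g n, (∀ i < n, f i = g i) → BB f n = BB g n := fun f g n h => by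
    funext β
    ext z
    exact and_congr_left fun _ => forall₂_congr fun i hi => by rw [h i hi]
  have : Inhabited W := ⟨Classical.arbitrary W⟩
  obtain ⟨f, hf⟩ := rec_seq (α := W) (fun f n => if h : {β | BB f n β ∈ ℬ}.Nonempty then
    wellFounded_lt.min _ h else Classical.arbitrary W) (fun f g n h => by rw [hB f g n h])
  let F : T := ⟨fun i => f i, fun n h => (WithTop.coe_ne_top h).elim⟩
  have hmin : ∀ n β, BB f n β ∈ ℬ → BB f n (f n) ∈ ℬ ∧ f n ≤ β := fun n β h => by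
    have hne : {β | BB f n β ∈ ℬ}.Nonempty := ⟨β, h⟩
    have e := hf n
    rw [dif_pos hne] at e
    have h5 := (wellFounded_lt (α := W)).min_mem _ hne
    have h6 := not_lt.1 ((wellFounded_lt (α := W)).not_lt_min {β | BB f n β ∈ ℬ} (x := β) h)
    rw [← e] at h5
    exact ⟨h5, e.le.trans h6⟩
  have hall : ∀ n, BB f n (f n) ∈ ℬ := fun n => by
    obtain ⟨b, hb, hx⟩ := h2.ge (mem_univ (tr F n))
    rcases h1 hb with ⟨x, hx', rfl⟩ | ⟨g, m, β, rfl⟩
    · exact (hx' n (hx ▸ tr_ge F le_rfl)).elim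
    · have hmn : m ≤ n := not_lt.1 fun h =>
        WithTop.coe_ne_top ((hx.1 n h).symm.trans (tr_ge F le_rfl))
      have e : BB g m = BB f m := hB _ _ _ fun i hi => WithTop.coe_injective
        ((hx.1 i hi).symm.trans (tr_lt F (by omega)))
      rw [e] at hb hx
      rcases hmn.eq_or_lt with rfl | h
      · exact (hmin _ _ hb).1
      · rcases hx.2 with h' | h'
        · rw [tr_lt F h] at h'
          exact absurd (hmin _ _ hb).2 (not_le.2 (WithTop.coe_lt_coe.1 h'))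
        · exact (h'.2 n (tr_ge F le_rfl)).elim
  have hlt : ∀ m n, m < n → BB f m (f m) ≠ BB f n (f n) := fun m n hmn he => by
    have : tr F m ∈ BB f m (f m) :=
      ⟨fun i hi => tr_lt F hi, Or.inl (by rw [tr_ge F le_rfl]; exact WithTop.coe_lt_top _)⟩
    rw [he] at this
    exact WithTop.coe_ne_top ((this.1 m hmn).symm.trans (tr_ge F le_rfl))
  refine Set.infinite_of_injective_forall_mem
    (f := fun n => (⟨BB f n (f n), hall n⟩ : ℬ)) (fun m n he => ?_) (fun n => ?_)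
    (h3.point_finite F)
  · have he' : BB f m (f m) = BB f n (f n) := congrArg Subtype.val he
    rcases lt_trichotomy m n with h | h | h
    · exact (hlt m n h he').elim
    · exact h
    · exact (hlt n m h he'.symm).elim
  · exact ⟨fun _ _ => rfl, Or.inr ⟨rfl, fun _ => WithTop.coe_ne_top⟩⟩

instance : Infinite T := Infinite.of_injective
  (fun a : W => (⟨fun _ => a, fun _ h => h⟩ : T)) fun _ _ h =>
    WithTop.coe_injective (congrFun (congrArg Subtype.val h) 0)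

end Pool.Agent.H17.Ponag
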