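import Mathlib
import Pool.Agent.H17.W1
import Pool.Agent.H17.KMen
import Pool.Agent.H17.Ponag

set_option autoImplicit false

namespace Pool.Agent.H17.Telg
open Set Filter Topology TopologicalSpace Pool.Agent.H17.W1
open Pool.Agent.H17.KMen (KCover)

def C (g : W → W) : Set W := {δ | (∃ a, a < δ) ∧ ∀ a < δ, g a < δ}

theorem C_ne (g : W → W) : (C g).Nonempty := by
  have h : ∀ a : W, ∃ b, a < b ∧ ∀ x ≤ a, g x < b := fun a => by
    obtain ⟨b, hb⟩ := bound (((cIic a).image g).insert a)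
    exact ⟨b, hb a (Or.inl rfl), fun x hx => hb _ (Or.inr ⟨x, hx, rfl⟩)⟩
  choose f hf1 hf2 using h
  let a : ℕ → W := fun n => f^[n] (Classical.arbitrary W)
  have ha : ∀ n, a (n + 1) = f (a n) := fun n => Function.iterate_succ_apply' _ _ _
  obtain ⟨b, hb⟩ := bound (countable_range a)
  have hne : {b | ∀ n, a n < b}.Nonempty := ⟨b, fun n => hb _ ⟨n, rfl⟩⟩
  have h1 := (wellFounded_lt (α := W)).min_mem _ hne
  refine ⟨_, ⟨a 0, h1 0⟩, fun x hx => ?_⟩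
  have h2 : ¬ ∀ n, a n < x := fun h =>
    (wellFounded_lt (α := W)).not_lt_min {b | ∀ n, a n < b} (x := x) h hx
  push Not at h2
  obtain ⟨n, hn⟩ := h2
  exact (hf2 _ _ hn).trans (ha n ▸ h1 (n + 1))

theorem C_mono {g g' : W → W} (h : ∀ a, g a ≤ g' a) : C g' ⊆ C g :=
  fun _ hδ => ⟨hδ.1, fun a ha => (h a).trans_lt (hδ.2 a ha)⟩

theorem stat : ∃ S : Set W, (∀ g, (C g ∩ S).Nonempty) ∧ ∀ g, (C g \ S).Nonempty := by
  by_contra h
  obtain ⟨e, he⟩ := inj_cantor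
  have h1 : ∀ n, ∃ (b : Bool) (g : W → W), ∀ δ ∈ C g, e δ n = b := fun n => by
    by_contra h1
    push Not at h1
    refine h ⟨{δ | e δ n = true}, fun g => ?_, fun g => ?_⟩
    · obtain ⟨δ, h2, h3⟩ := h1 false g
      exact ⟨δ, h2, by simpa using h3⟩
    · obtain ⟨δ, h2, h3⟩ := h1 true g
      exact ⟨δ, h2, h3⟩
  choose b g hg using h1
  have h2 : ∀ a, ∃ c, ∀ n, g n a < c := fun a => by
    obtain ⟨c, hc⟩ := bound (countable_range fun n => g n a)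
    exact ⟨c, fun n => hc _ ⟨n, rfl⟩⟩
  choose G hG using h2
  have h3 : ∀ δ ∈ C G, e δ = b := fun δ hδ => funext fun n =>
    hg n δ (C_mono (fun a => (hG a n).le) hδ)
  obtain ⟨δ, hδ⟩ := C_ne G
  obtain ⟨δ', hδ'⟩ := C_ne fun a => max (G a) δ
  obtain ⟨a, ha⟩ := hδ'.1
  have h4 : δ < δ' := (le_max_right _ _).trans_lt (hδ'.2 a ha)
  exact h4.ne (he ((h3 δ hδ).trans (h3 δ' (C_mono (fun a => le_max_left _ _) hδ')).symm))

def Lim (δ : W) : Prop := ∀ a < δ, ∃ b, a < b ∧ b < δ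

theorem ladder (δ : W) : ∃ s ⊆ Iio δ, (∀ a < δ, (s ∩ Iio a).Finite) ∧
    (Lim δ → ∀ a < δ, ∃ b ∈ s, a < b) := by
  classical
  obtain ⟨i, hi⟩ := countable_iff_exists_injOn.1 (cIio δ)
  refine ⟨{x | x < δ ∧ ∀ y < δ, i y < i x → y < x}, fun x hx => hx.1, fun a ha => ?_,
    fun hl a ha => ?_⟩
  · refine Set.Finite.of_finite_image (f := i) ((finite_Iic (i a)).subset ?_)
      (hi.mono fun x hx => hx.1.1)
    rintro _ ⟨x, hx, rfl⟩
    exact not_lt.1 fun h => lt_asymm hx.2 (hx.1.2 a ha h)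
  · obtain ⟨b, hb⟩ := hl a ha
    have h : ∃ n, ∃ x, (a < x ∧ x < δ) ∧ i x = n := ⟨_, b, hb, rfl⟩
    obtain ⟨x, hx, hxn⟩ := Nat.find_spec h
    refine ⟨x, ⟨hx.2, fun y hy hyx => ?_⟩, hx.1⟩
    exact (not_lt.1 fun h' => Nat.find_min h (hxn ▸ hyx) ⟨y, ⟨h', hy⟩, rfl⟩).trans_lt hx.1

noncomputable def S : Set W := stat.choose

noncomputable def lad (δ : W) : Set W := (ladder δ).choose

def X : Type := {y : Set W // y.Finite ∨ ∃ δ ∈ S, Lim δ ∧ y = lad δ}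

def N (y : X) (β : W) : Set X := {z | ∀ a < β, a ∈ z.1 ↔ a ∈ y.1}

theorem N_anti (y : X) {a b : W} (h : a ≤ b) : N y b ⊆ N y a := fun _ hz c hc => hz c (hc.trans_le h)

instance : TopologicalSpace X where
  IsOpen U := ∀ y ∈ U, ∃ β, N y β ⊆ U
  isOpen_univ := fun _ _ => ⟨Classical.arbitrary W, subset_univ _⟩
  isOpen_inter := fun s t hs ht x hx => by
    obtain ⟨a, ha⟩ := hs x hx.1
    obtain ⟨b, hb⟩ := ht x hx.2
    exact ⟨max a b, fun z hz => ⟨ha (N_anti x (le_max_left a b) hz),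
      hb (N_anti x (le_max_right a b) hz)⟩⟩
  isOpen_sUnion := fun S hS x ⟨t, ht, hx⟩ => by
    obtain ⟨a, ha⟩ := hS t ht x hx
    exact ⟨a, fun z hz => ⟨t, ht, ha hz⟩⟩

theorem open_N (y : X) (β : W) : IsOpen (N y β) :=
  fun _ hz => ⟨β, fun _ hw a ha => (hw a ha).trans (hz a ha)⟩

theorem closed_N (y : X) (β : W) : IsClosed (N y β) :=
  ⟨fun _ hz => ⟨β, fun _ hw hw' => hz fun a ha => (hw a ha).symm.trans (hw' a ha)⟩⟩

theorem closed_of_countable (D : Set X) (hD : D.Countable) : IsClosed D := by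
  refine ⟨fun z hz => ?_⟩
  have h : ∀ x ∈ D, ∃ a, ¬ (a ∈ x.1 ↔ a ∈ z.1) := fun x hx => by
    by_contra h
    push Not at h
    exact hz ((Subtype.ext (Set.ext h) : x = z) ▸ hx)
  choose! a ha using h
  obtain ⟨β, hβ⟩ := bound (hD.image a)
  exact ⟨β, fun w hw hwD => ha w hwD (hw _ (hβ _ ⟨w, hwD, rfl⟩))⟩

instance : T1Space X := ⟨fun x => closed_of_countable _ (countable_singleton x)⟩

instance : RegularSpace X := RegularSpace.of_exists_mem_nhds_isClosed_subset fun x s hs => by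
  obtain ⟨U, hUs, hU, hx⟩ := mem_nhds_iff.1 hs
  obtain ⟨β, hβ⟩ := hU x hx
  exact ⟨_, (open_N x β).mem_nhds fun _ _ => Iff.rfl, closed_N x β, hβ.trans hUs⟩

theorem fin_of_compact {Y : Type} [TopologicalSpace Y] (hc : ∀ D : Set Y, D.Countable → IsClosed D)
    {K : Set Y} (hK : IsCompact K) : K.Finite := by
  by_contra h
  let e := Set.Infinite.natEmbedding _ h
  have hcl : ∀ n, IsClosed ((fun k => (e k : Y)) '' Ici n) := fun n =>
    hc _ ((to_countable _).image _)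
  obtain ⟨x, hx⟩ := IsCompact.nonempty_iInter_of_sequence_nonempty_isCompact_isClosed
    (fun n => (fun k => (e k : Y)) '' Ici n)
    (fun n => image_mono (Ici_subset_Ici.2 (Nat.le_succ n))) (fun n => ⟨_, n, self_mem_Ici, rfl⟩)
    (hK.of_isClosed_subset (hcl 0) (by rintro _ ⟨k, -, rfl⟩; exact (e k).2)) hcl
  obtain ⟨k, -, rfl⟩ := mem_iInter.1 hx 0
  obtain ⟨k', hk', h'⟩ := mem_iInter.1 hx (k + 1)
  have := e.injective (Subtype.ext h')
  have h2 : k + 1 ≤ k' := hk'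
  omega

def XL (a : W) : Set X := {x | x.1 ⊆ Iio a}

theorem cXL (a : W) : (XL a).Countable := by
  refine (((countable_ofPred_finite_subset (cIio a)).union ((cIic a).image lad)).preimage_of_injOn
    (f := fun x : X => x.1) Subtype.val_injective.injOn).mono fun x hx => ?_
  rcases x.2 with h | ⟨δ, -, h1, h2⟩
  · exact Or.inl ⟨h, hx⟩
  · refine Or.inr ⟨δ, mem_Iic.2 (not_lt.1 fun h => ?_), h2.symm⟩
    obtain ⟨b, hb, hab⟩ := (ladder δ).choose_spec.2.2 h1 a h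
    exact lt_asymm hab (hx (h2 ▸ hb))

theorem fin_bdd {δ : W} (h0 : ∃ a, a < δ) (hl : Lim δ) {s : Set W} (hs : s.Finite) (h : s ⊆ Iio δ) :
    ∃ a < δ, s ⊆ Iio a := by
  obtain ⟨a0, ha0⟩ := h0
  obtain ⟨m, hm, hm'⟩ := Set.exists_max_image _ id (hs.insert a0) (insert_nonempty _ _)
  obtain ⟨b, hb1, hb2⟩ := hl m (by rcases hm with rfl | hm; exacts [ha0, h hm])
  exact ⟨b, hb2, fun x hx => (hm' x (Or.inr hx)).trans_lt hb1⟩

theorem trace {δ : W} (h0 : ∃ a, a < δ) (hl : Lim δ) (hS : δ ∉ S) (y : X) :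
    ∃ x : X, (∃ a < δ, x ∈ XL a) ∧ y ∈ N x δ := by
  by_cases hf : (y.1 ∩ Iio δ).Finite
  · exact ⟨⟨_, Or.inl hf⟩, fin_bdd h0 hl hf inter_subset_right,
      fun a ha => ⟨fun h => ⟨h, ha⟩, fun h => h.1⟩⟩
  · rcases y.2 with h | ⟨γ, h1, -, h2⟩
    · exact (hf (h.inter_of_left _)).elim
    · refine ⟨y, ⟨γ, ?_, show y.1 ⊆ _ from h2 ▸ (ladder γ).choose_spec.1⟩, fun _ _ => Iff.rfl⟩
      rcases lt_trichotomy γ δ with h | rfl | h
      · exact h
      · exact (hS h1).elim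
      · exact (hf (h2 ▸ (ladder γ).choose_spec.2.1 δ h)).elim

theorem clos {α : Type} (R : W → Set α) (hR : ∀ a, (R a).Countable) (hm : Monotone R)
    (h : List α → W) : ∃ g, ∀ δ ∈ C g, Lim δ ∧
      ∀ L : List α, (∀ x ∈ L, ∃ a < δ, x ∈ R a) → h L < δ := by
  have h1 : ∀ a, ∃ b, a < b ∧ ∀ L : List α, (∀ x ∈ L, x ∈ R a) → h L < b := fun a => by
    have := (hR a).to_subtype
    have hc : {L : List α | ∀ x ∈ L, x ∈ R a}.Countable :=
      Set.range_list_map_coe (R a) ▸ countable_range _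
    obtain ⟨b, hb⟩ := bound ((hc.image h).insert a)
    exact ⟨b, hb a (Or.inl rfl), fun L hL => hb _ (Or.inr ⟨L, hL, rfl⟩)⟩
  choose g hg1 hg2 using h1
  refine ⟨g, fun δ hδ => ⟨fun a ha => ⟨g a, hg1 a, hδ.2 a ha⟩, fun L hL => ?_⟩⟩
  have h2 : ∃ a < δ, ∀ x ∈ L, x ∈ R a := by
    induction L with
    | nil => exact hδ.1.imp fun a ha => ⟨ha, by simp⟩
    | cons x L ih =>
      obtain ⟨a, ha, ha'⟩ := ih fun y hy => hL y (List.mem_cons_of_mem _ hy)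
      obtain ⟨b, hb, hb'⟩ := hL x List.mem_cons_self
      refine ⟨max a b, max_lt ha hb, fun y hy => ?_⟩
      rcases List.mem_cons.1 hy with rfl | hy
      · exact hm (le_max_right a b) hb'
      · exact hm (le_max_left a b) (ha' y hy)
  obtain ⟨a, ha, ha'⟩ := h2
  exact (hg2 a L ha').trans (hδ.2 a ha)

def FL (a : W) : Set (Set X) := {F | F.Finite ∧ F ⊆ XL a}

theorem XL_mono : Monotone XL := fun _ _ h _ hx => hx.trans (Iio_subset_Iio h)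

theorem FL_mono : Monotone FL := fun _ _ h _ hx => ⟨hx.1, hx.2.trans (XL_mono h)⟩

theorem cFL (a : W) : (FL a).Countable := countable_ofPred_finite_subset (cXL a)

def NF (F : Set X) (β : W) : Set X := ⋃ x ∈ F, N x β

theorem traceF {δ : W} (h0 : ∃ a, a < δ) (hl : Lim δ) (hS : δ ∉ S) {K : Set X} (hK : K.Finite) :
    ∃ F, (∃ a < δ, F ∈ FL a) ∧ K ⊆ NF F δ := by
  choose x hx hy using trace h0 hl hS
  choose a ha hxa using hx
  obtain ⟨b, hb, hb'⟩ := fin_bdd h0 hl (hK.image a) (by rintro _ ⟨y, -, rfl⟩; exact ha y)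
  refine ⟨x '' K, ⟨b, hb, hK.image x, ?_⟩, fun y hy' => mem_biUnion (mem_image_of_mem x hy') (hy y)⟩
  rintro _ ⟨y, hy', rfl⟩
  exact XL_mono (le_of_lt (hb' ⟨y, hy', rfl⟩)) (hxa y)

theorem kcover_of {𝒰 : Set (Set X)} (h1 : ∀ U ∈ 𝒰, IsOpen U)
    (h2 : ∀ K : Set X, K.Finite → ∃ U ∈ 𝒰, K ⊆ U) : KCover X 𝒰 := by
  refine ⟨h1, eq_univ_of_forall fun x => ?_, fun K hK => h2 K (fin_of_compact closed_of_countable hK)⟩
  obtain ⟨U, hU, hx⟩ := h2 {x} (finite_singleton x)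
  exact ⟨U, hU, hx rfl⟩

theorem ofFn_snoc {α : Type} (u : ℕ → α) (n : ℕ) :
    (List.ofFn fun i : Fin (n + 1) => u i) = (List.ofFn fun i : Fin n => u i) ++ [u n] := by
  rw [List.ofFn_succ']
  simp

theorem noP1 (τ : List (Set X) → Set (Set X)) (hτ : ∀ l, KCover X (τ l)) :
    ∃ U : ℕ → Set X, (∀ n, U n ∈ τ (List.ofFn fun i : Fin n => U i)) ∧ KCover X (range U) := by
  have h1 : ∀ (l : List (Set X)) (F : Set X), ∃ U ∈ τ l, ∃ β, F.Finite → NF F β ⊆ U := by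
    intro l F
    by_cases hF : F.Finite
    · obtain ⟨U, hU, hFU⟩ := (hτ l).2.2 F hF.isCompact
      have h2 : ∀ x ∈ F, ∃ β, N x β ⊆ U := fun x hx => (hτ l).1 U hU x (hFU hx)
      choose! b hb using h2
      obtain ⟨β, hβ⟩ := bound (hF.image b).countable
      exact ⟨U, hU, β, fun _ => iUnion₂_subset fun x hx =>
        (N_anti x (hβ _ ⟨x, hx, rfl⟩).le).trans (hb x hx)⟩
    · obtain ⟨U, hU, -⟩ := (hτ l).2.2 ∅ isCompact_empty
      exact ⟨U, hU, Classical.arbitrary W, fun h => (hF h).elim⟩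
  choose V hV β hβ using h1
  let pos : List (Set X) → List (Set X) := fun L => L.foldr (fun F l => l ++ [V l F]) []
  obtain ⟨g, hg⟩ := clos FL cFL FL_mono fun L => β (pos L.tail) (L.headD ∅)
  obtain ⟨δ, hδ, hS⟩ := stat.choose_spec.2 g
  obtain ⟨hl, hg⟩ := hg δ hδ
  have hc : {F | ∃ a < δ, F ∈ FL a}.Countable :=
    ((cIio δ).biUnion fun a _ => cFL a).mono fun F ⟨a, ha, hF⟩ => mem_biUnion ha hF
  obtain ⟨F, hF⟩ := hc.exists_eq_range (by
    obtain ⟨a, ha⟩ := hδ.1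
    exact ⟨∅, a, ha, finite_empty, empty_subset _⟩)
  have hF1 : ∀ n, ∃ a < δ, F n ∈ FL a := fun n => hF.ge ⟨n, rfl⟩
  let L : ℕ → List (Set X) := fun n => Nat.rec [] (fun n l => F n :: l) n
  have hL : ∀ n, ∀ x ∈ L n, ∃ a < δ, x ∈ FL a := by
    intro n
    induction n with
    | zero => intro x hx; simp [L] at hx
    | succ n ih =>
      intro x hx
      rcases List.mem_cons.1 hx with rfl | hx
      · exact hF1 n
      · exact ih x hx
  have hp : ∀ n, pos (L n) = List.ofFn fun i : Fin n => V (pos (L i)) (F i) := by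
    intro n
    induction n with
    | zero => rfl
    | succ n ih =>
      rw [ofFn_snoc (fun i => V (pos (L i)) (F i)), ← ih]
      rfl
  refine ⟨fun n => V (pos (L n)) (F n), fun n => hp n ▸ hV _ _, kcover_of ?_ fun K hK => ?_⟩
  · rintro _ ⟨n, rfl⟩
    exact (hτ _).1 _ (hV _ _)
  · obtain ⟨F', h1, h2⟩ := traceF hδ.1 hl hS hK
    obtain ⟨n, rfl⟩ := hF.le h1
    refine ⟨_, ⟨n, rfl⟩, h2.trans (Subset.trans ?_ (hβ (pos (L n)) _ (hF1 n).choose_spec.2.1))⟩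
    exact iUnion₂_mono fun x _ => N_anti x (hg (L (n + 1)) (hL (n + 1))).le

theorem kern (φ : Set (Set X) → Set (Set X)) (hφ : ∀ 𝒰, KCover X 𝒰 → φ 𝒰 ⊆ 𝒰 ∧ (φ 𝒰).Finite) :
    ∃ F : Set X, F.Finite ∧ ∀ β, ∃ 𝒰, KCover X 𝒰 ∧ ∀ U ∈ φ 𝒰, U ⊆ NF F β := by
  by_contra h
  push Not at h
  choose! β hβ using h
  obtain ⟨g, hg⟩ := clos FL cFL FL_mono fun L => β (L.headD ∅)
  obtain ⟨δ, hδ, hS⟩ := stat.choose_spec.2 g
  obtain ⟨hl, hg⟩ := hg δ hδ
  have hk : KCover X {U | ∃ F, (∃ a < δ, F ∈ FL a) ∧ U = NF F δ} := by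
    refine kcover_of ?_ fun K hK => ?_
    · rintro _ ⟨F, -, rfl⟩
      exact isOpen_biUnion fun x _ => open_N x δ
    · obtain ⟨F, h1, h2⟩ := traceF hδ.1 hl hS hK
      exact ⟨_, ⟨F, h1, rfl⟩, h2⟩
  obtain ⟨h1, h2⟩ := hφ _ hk
  have h1' : ∀ U ∈ φ {U | ∃ F, (∃ a < δ, F ∈ FL a) ∧ U = NF F δ},
      ∃ F, (∃ a < δ, F ∈ FL a) ∧ U = NF F δ := h1
  choose! F hF hU using h1'
  choose! a ha hFa using hF
  obtain ⟨b, hb, hb'⟩ := fin_bdd hδ.1 hl (h2.image a) (by rintro _ ⟨y, hy, rfl⟩; exact ha y hy)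
  have hf : (⋃ U ∈ φ {U | ∃ F, (∃ a < δ, F ∈ FL a) ∧ U = NF F δ}, F U) ∈ FL b :=
    ⟨h2.biUnion fun U hU => (hFa U hU).1, iUnion₂_subset fun U hU =>
      (hFa U hU).2.trans (XL_mono (le_of_lt (hb' ⟨U, hU, rfl⟩)))⟩
  obtain ⟨U, hU1, hU2⟩ := hβ _ hf.1 _ hk
  refine hU2 ((hU U hU1).subset.trans ?_)
  refine iUnion₂_subset fun x hx => Subset.trans (N_anti x (hg [_] ?_).le)
    (subset_biUnion_of_mem (u := fun x => N x _) (mem_biUnion hU1 hx))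
  intro y hy
  exact ⟨b, hb, List.mem_singleton.1 hy ▸ hf⟩

theorem X_bdd (x : X) : ∃ a, x ∈ XL a := by
  rcases x.2 with h | ⟨δ, -, -, h⟩
  · exact bound h.countable
  · exact ⟨δ, show x.1 ⊆ _ from h ▸ (ladder δ).choose_spec.1⟩

theorem noP2 (σ : List (Set (Set X)) → Set (Set X) → Set (Set X))
    (hσ : ∀ l 𝒰, (∀ 𝒱 ∈ l, KCover X 𝒱) → KCover X 𝒰 → σ l 𝒰 ⊆ 𝒰 ∧ (σ l 𝒰).Finite) :
    ∃ 𝒰 : ℕ → Set (Set X), (∀ n, KCover X (𝒰 n)) ∧
      ∃ y, ∀ n, ∀ U ∈ σ (List.ofFn fun i : Fin n => 𝒰 i) (𝒰 n), y ∉ U := by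
  have h1 : ∀ l, (∀ 𝒱 ∈ l, KCover X 𝒱) → ∃ F : Set X, ∃ a, F ⊆ XL a ∧
      ∀ β, ∃ 𝒰, KCover X 𝒰 ∧ ∀ U ∈ σ l 𝒰, U ⊆ NF F β := fun l hl => by
    obtain ⟨F, hF, h⟩ := kern (σ l) fun 𝒰 => hσ l 𝒰 hl
    choose a ha using X_bdd
    obtain ⟨b, hb⟩ := bound (hF.image a).countable
    exact ⟨F, b, fun x hx => XL_mono (hb _ ⟨x, hx, rfl⟩).le (ha x), h⟩
  choose! F a hF h using h1
  choose! V hV hV' using h
  let pos : List W → List (Set (Set X)) := fun L => L.foldr (fun b l => l ++ [V l b]) []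
  have hpos : ∀ L, ∀ 𝒱 ∈ pos L, KCover X 𝒱 := by
    intro L
    induction L with
    | nil => intro 𝒱 h; simp [pos] at h
    | cons b L ih =>
      intro 𝒱 h
      rcases List.mem_append.1 h with h | h
      · exact ih _ h
      · exact List.mem_singleton.1 h ▸ hV _ ih b
  obtain ⟨g, hg⟩ := clos Iic cIic (fun _ _ h => Iic_subset_Iic.2 h) fun L => a (pos L)
  obtain ⟨δ, hδ, hS⟩ := stat.choose_spec.1 g
  obtain ⟨hl, hg⟩ := hg δ hδ
  let y : X := ⟨lad δ, Or.inr ⟨δ, hS, hl, rfl⟩⟩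
  have h2 : ∀ L : List W, (∀ x ∈ L, x < δ) → ∃ b < δ, y ∉ NF (F (pos L)) b := fun L hL => by
    obtain ⟨c, hc, hc'⟩ := (ladder δ).choose_spec.2.2 hl _ (hg L fun x hx => ⟨x, hL x hx, self_mem_Iic⟩)
    obtain ⟨b, hb, hb'⟩ := hl c ((ladder δ).choose_spec.1 hc)
    refine ⟨b, hb', fun hy => ?_⟩
    obtain ⟨x, hx, hy⟩ := mem_iUnion₂.1 hy
    exact lt_asymm hc' (hF _ (hpos L) hx ((hy c hb).1 hc))
  choose! nx hnx hnx' using h2
  let L : ℕ → List W := fun n => Nat.rec [] (fun _ l => nx l :: l) n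
  have hL : ∀ n, ∀ x ∈ L n, x < δ := by
    intro n
    induction n with
    | zero => intro x hx; simp [L] at hx
    | succ n ih =>
      intro x hx
      rcases List.mem_cons.1 hx with rfl | hx
      · exact hnx _ ih
      · exact ih x hx
  have hp : ∀ n, pos (L n) = List.ofFn fun i : Fin n => V (pos (L i)) (nx (L i)) := by
    intro n
    induction n with
    | zero => rfl
    | succ n ih =>
      rw [ofFn_snoc (fun i => V (pos (L i)) (nx (L i))), ← ih]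
      rfl
  refine ⟨fun n => V (pos (L n)) (nx (L n)), fun n => hV _ (hpos _) _, y, fun n U hU hy => ?_⟩
  rw [← hp n] at hU
  exact hnx' _ (hL n) (hV' _ (hpos _) _ U hU hy)

theorem roth (β : ℕ → X → W) : ∃ x : ℕ → X, ∀ y, ∃ n, y ∈ N (x n) (β n (x n)) := by
  have h1 : ∀ x, ∃ b, ∀ n, β n x < b := fun x => by
    obtain ⟨b, hb⟩ := bound (countable_range fun n => β n x)
    exact ⟨b, fun n => hb _ ⟨n, rfl⟩⟩
  choose b hb using h1
  let e : X := ⟨∅, Or.inl finite_empty⟩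
  obtain ⟨g, hg⟩ := clos XL cXL XL_mono fun L => b (L.headD e)
  obtain ⟨δ, hδ, hS⟩ := stat.choose_spec.2 g
  obtain ⟨hl, hg⟩ := hg δ hδ
  have hc : {x | ∃ a < δ, x ∈ XL a}.Countable :=
    ((cIio δ).biUnion fun a _ => cXL a).mono fun F ⟨a, ha, hF⟩ => mem_biUnion ha hF
  obtain ⟨x, hx⟩ := hc.exists_eq_range (by
    obtain ⟨a, ha⟩ := hδ.1
    exact ⟨e, a, ha, empty_subset _⟩)
  refine ⟨x, fun y => ?_⟩
  obtain ⟨z, hz, hy⟩ := trace hδ.1 hl hS y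
  obtain ⟨n, rfl⟩ := hx.le hz
  refine ⟨n, N_anti _ ((hb _ n).trans (hg [x n] fun w hw => ?_)).le hy⟩
  exact List.mem_singleton.1 hw ▸ hz

theorem bob : Ponag.BobWins X := by
  refine Ponag.bobWins_of univ (fun x hx => (hx (mem_univ x)).elim) closed_of_countable
    fun Y V hV hc => ?_
  have h1 : ∀ x : X, ∃ y ∈ Y, ∃ β, N x β ⊆ V y := fun x => by
    obtain ⟨y, hy, hx⟩ := mem_iUnion₂.1 (hc (mem_univ x))
    exact ⟨y, hy, hV y hy x hx⟩
  choose y hy β hβ using h1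
  obtain ⟨x, hx⟩ := roth fun _ => β
  refine ⟨range fun n => y (x n), range_subset_iff.2 fun n => hy _, countable_range _,
    fun z _ => ?_⟩
  obtain ⟨n, hn⟩ := hx z
  exact mem_biUnion ⟨n, rfl⟩ (hβ _ hn)

end Pool.Agent.H17.Telg
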