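import Mathlib
import Pool.Agent.H17.DOm2
import Pool.Agent.H17.Telg

set_option autoImplicit false

namespace Pool.Agent.H17.DO
open Set Filter Topology TopologicalSpace Pool.Agent.H17.W1 Pool.Agent.H17.Telg

/-- A normal, splitting tree of height `ω₁` with countable levels all of whose derived trees
have only countable antichains. -/
structure FreeSuslin (T : Type) [PartialOrder T]
    (ht : T → (Cardinal.aleph.{0} 1).ord.ToType) : Prop where
  ne : Nonempty T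
  chain : ∀ a b s : T, a ≤ s → b ≤ s → a ≤ b ∨ b ≤ a
  mono : StrictMono ht
  pred : ∀ s α, α ≤ ht s → ∃ r ≤ s, ht r = α
  ext : ∀ s α, ht s ≤ α → ∃ r, s ≤ r ∧ ht r = α
  split : ∀ s : T, ∃ a b, a ≠ b ∧ s ⋖ a ∧ s ⋖ b
  level : ∀ α, {t | ht t = α}.Countable
  free : ∀ (k : ℕ) (t : Fin k → T), Function.Injective t → (∀ i j, ht (t i) = ht (t j)) →
    ∀ A : Set (Fin k → T), (∀ s ∈ A, t ≤ s ∧ ∀ i j, ht (s i) = ht (s j)) →
      IsAntichain (· ≤ ·) A → A.Countable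

variable {T : Type} [PartialOrder T] {ht : T → W}

theorem FreeSuslin.le_of (h : FreeSuslin T ht) {a b s : T} (ha : a ≤ s) (hb : b ≤ s)
    (hab : ht a ≤ ht b) : a ≤ b := by
  rcases h.chain a b s ha hb with h1 | h1
  · exact h1
  · exact (h1.eq_or_lt.resolve_right fun h2 => absurd (h.mono h2) (not_lt.2 hab)).ge

structure Rep (X : Type) [TopologicalSpace X] (c : T → Set X) : Prop where
  op : ∀ t, IsOpen (c t) ∧ (c t).Nonempty
  anti : ∀ s t, s ≤ t → c t ⊆ c s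
  comp : ∀ s t, (c s ∩ c t).Nonempty → s ≤ t ∨ t ≤ s
  pi : ∀ O, IsOpen O → O.Nonempty → ∃ t, c t ⊆ O

theorem step (h : FreeSuslin T ht) {X : Type} [TopologicalSpace X] {c : T → Set X} (hc : Rep X c)
    {𝒰 : Set (Set X)} (hU : DOm X 𝒰) {k : ℕ} (t : Fin k → T) : ∃ β, Function.Injective t →
      (∀ i j, ht (t i) = ht (t j)) → ∀ s, t ≤ s → (∀ i j, ht (s i) = ht (s j)) →
        (∀ i, β ≤ ht (s i)) → ∃ U ∈ 𝒰, ∀ i, c (s i) ⊆ U := by
  obtain ⟨A, hA⟩ := zorn_subset {A : Set (Fin k → T) | (∀ s ∈ A, (t ≤ s ∧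
      ∀ i j, ht (s i) = ht (s j)) ∧ ∃ U ∈ 𝒰, ∀ i, c (s i) ⊆ U) ∧ IsAntichain (· ≤ ·) A}
    fun C hC hch => ⟨⋃₀ C, ⟨fun s ⟨A, h1, h2⟩ => (hC h1).1 s h2,
      hch.pairwise_sUnion.2 fun A h1 => (hC h1).2⟩, fun s hs => subset_sUnion_of_mem hs⟩
  by_cases h0 : Function.Injective t ∧ ∀ i j, ht (t i) = ht (t j)
  swap
  · exact ⟨Classical.arbitrary W, fun a b => (h0 ⟨a, b⟩).elim⟩
  obtain ⟨β, hβ⟩ := bound ((h.free k t h0.1 h0.2 A (fun s hs => (hA.1.1 s hs).1) hA.1.2).biUnion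
    fun a _ => countable_range fun i => ht (a i))
  refine ⟨β, fun _ _ s h1 h2 h3 => ?_⟩
  obtain ⟨U, hU1, hp⟩ := hU.par (NO.tst (t := fun i => c (s i)) fun i => hc.op _)
  have h4 : ∀ i, ∃ u, s i ≤ u ∧ c u ⊆ U := fun i => by
    obtain ⟨u, hu⟩ := hc.pi _ ((hU.1 U hU1).inter (hc.op (s i)).1) (hp _ ⟨i, rfl⟩)
    rcases hc.comp u (s i) ((hc.op u).2.mono (subset_inter subset_rfl
      (hu.trans inter_subset_right))) with h | h
    · exact ⟨s i, le_rfl, (hc.anti _ _ h).trans (hu.trans inter_subset_left)⟩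
    · exact ⟨u, h, hu.trans inter_subset_left⟩
  choose u hu hu' using h4
  obtain ⟨γ, hγ⟩ := bound (countable_range fun i => ht (u i))
  choose v hv hv' using fun i => h.ext (u i) γ (hγ _ ⟨i, rfl⟩).le
  have h5 : (t ≤ v ∧ ∀ i j, ht (v i) = ht (v j)) ∧ ∃ U ∈ 𝒰, ∀ i, c (v i) ⊆ U :=
    ⟨⟨fun i => (h1 i).trans ((hu i).trans (hv i)), fun i j => (hv' i).trans (hv' j).symm⟩,
      U, hU1, fun i => (hc.anti _ _ (hv i)).trans (hu' i)⟩
  have h6 : ∃ a ∈ A, a ≤ v ∨ v ≤ a := by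
    by_contra hn
    push Not at hn
    have : insert v A ⊆ A := hA.2 ⟨by
      rintro s (rfl | hs)
      exacts [h5, hA.1.1 s hs], hA.1.2.insert (fun b hb _ => (hn b hb).1)
        fun b hb _ => (hn b hb).2⟩ (subset_insert _ _)
    exact (hn v (this (mem_insert _ _))).1 le_rfl
  obtain ⟨a, ha, h7⟩ := h6
  have h8 : ∀ i, ht (a i) < ht (s i) := fun i =>
    (hβ _ (mem_biUnion ha ⟨i, rfl⟩)).trans_le (h3 i)
  obtain ⟨V, hV, hV'⟩ := (hA.1.1 a ha).2
  refine ⟨V, hV, fun i => (hc.anti _ _ ?_).trans (hV' i)⟩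
  rcases h7 with h7 | h7
  · exact h.le_of (h7 i) ((hu i).trans (hv i)) (h8 i).le
  · exact absurd (h.mono.monotone (((hu i).trans (hv i)).trans (h7 i))) (not_le.2 (h8 i))

theorem rep_S1 (h : FreeSuslin T ht) {X : Type} [TopologicalSpace X] {c : T → Set X}
    (hc : Rep X c) : S1 X := by
  classical
  intro 𝒰 hU
  choose β hβ using fun n (L : List T) => step h hc (hU n) L.get
  have h1 : ∀ L, ∃ b, ∀ n, β n L < b := fun L => by
    obtain ⟨b, hb⟩ := bound (countable_range fun n => β n L)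
    exact ⟨b, fun n => hb _ ⟨n, rfl⟩⟩
  choose b hb using h1
  obtain ⟨g, hg⟩ := clos (fun a => {t | ht t ≤ a}) (fun a => ((cIic a).biUnion
    fun α _ => h.level α).mono fun t h => mem_biUnion (x := ht t) h rfl) (fun _ _ h _ h' => h'.trans h) b
  obtain ⟨δ, hδ⟩ := C_ne g
  obtain ⟨hl, hg⟩ := hg δ hδ
  have : Nonempty T := h.ne
  choose! p hp hp' using h.pred
  have key : ∀ n (F : Set T), F.Finite → F ⊆ {t | ht t = δ} → ∃ U ∈ 𝒰 n, ∀ r ∈ F, c r ⊆ U := by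
    intro n F hF hFδ
    have h2 : ∀ q : T × T, ∃ γ < δ, (∃ γ < δ, p q.1 γ ≠ p q.2 γ) → p q.1 γ ≠ p q.2 γ := fun q => by
      by_cases h' : ∃ γ < δ, p q.1 γ ≠ p q.2 γ
      · exact h'.imp fun γ h => ⟨h.1, fun _ => h.2⟩
      · exact hδ.1.imp fun γ h => ⟨h, fun h => (h' h).elim⟩
    choose γ hγ hγ' using h2
    obtain ⟨α, hα, hα'⟩ := fin_bdd hδ.1 hl ((hF.prod hF).image γ) (by
      rintro _ ⟨q, -, rfl⟩
      exact hγ q)
    have h3 : ∀ r ∈ F, ∀ a < δ, p r a ≤ r ∧ ht (p r a) = a := fun r hr a ha =>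
      ⟨hp r a (ha.le.trans (hFδ hr).ge), hp' r a (ha.le.trans (hFδ hr).ge)⟩
    have h4 : ∀ r ∈ F, ∀ r' ∈ F, p r α = p r' α → ∀ a < δ, p r a = p r' a := by
      intro r hr r' hr' he a ha
      by_contra hn
      have h5 := hγ (r, r')
      have h6 : γ (r, r') < α := hα' ⟨(r, r'), ⟨hr, hr'⟩, rfl⟩
      have h7 : ∀ r ∈ F, ∀ a < α, p r a ≤ p r α := fun r hr a ha =>
        h.le_of (h3 r hr a (ha.trans hα)).1 (h3 r hr α hα).1
          (by rw [(h3 r hr a (ha.trans hα)).2, (h3 r hr α hα).2]; exact ha.le)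
      have h8 := (h3 r hr _ h5).2.trans (h3 r' hr' _ h5).2.symm
      exact hγ' (r, r') ⟨a, ha, hn⟩ (le_antisymm
        (h.le_of (h7 r hr _ h6) (he ▸ h7 r' hr' _ h6) h8.le)
        (h.le_of (he ▸ h7 r' hr' _ h6) (h7 r hr _ h6) h8.ge))
    let L := (hF.image fun r => p r α).toFinset.toList
    have hL : ∀ x, x ∈ L ↔ ∃ r ∈ F, p r α = x := fun x => by simp [L]
    choose r hr hr' using fun i => (hL _).1 (List.get_mem L i)
    have h5 : b L < δ := hg L fun x hx => by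
      obtain ⟨r, hr, rfl⟩ := (hL x).1 hx
      exact ⟨α, hα, (h3 r hr α hα).2.le⟩
    have h6 : max α (b L) < δ := max_lt hα h5
    obtain ⟨U, hU1, hU2⟩ := hβ n L (List.nodup_iff_injective_get.1 (Finset.nodup_toList _))
      (fun i j => by rw [← hr' i, ← hr' j, (h3 _ (hr i) α hα).2, (h3 _ (hr j) α hα).2])
      (fun i => p (r i) (max α (b L))) (fun i => by
        rw [← hr' i]
        exact h.le_of (h3 _ (hr i) α hα).1 (h3 _ (hr i) _ h6).1 (by
          rw [(h3 _ (hr i) α hα).2, (h3 _ (hr i) _ h6).2]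
          exact le_max_left _ _))
      (fun i j => by rw [(h3 _ (hr i) _ h6).2, (h3 _ (hr j) _ h6).2])
      (fun i => by rw [(h3 _ (hr i) _ h6).2]; exact (hb L n).le.trans (le_max_right _ _))
    refine ⟨U, hU1, fun x hx => ?_⟩
    obtain ⟨i, hi⟩ := List.get_of_mem ((hL _).2 ⟨x, hx, rfl⟩)
    refine (hc.anti _ _ ?_).trans (hU2 i)
    rw [h4 _ (hr i) x hx ((hr' i).trans hi) _ h6]
    exact (h3 x hx _ h6).1
  obtain ⟨F, hF⟩ := (countable_ofPred_finite_subset (h.level δ)).exists_eq_range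
    ⟨∅, finite_empty, empty_subset _⟩
  choose U hU1 hU2 using fun n => key n (F n) (hF.ge ⟨n, rfl⟩).1 (hF.ge ⟨n, rfl⟩).2
  refine ⟨U, hU1, dom_of (by rintro _ ⟨n, rfl⟩; exact (hU n).gd (hU1 n)) fun z hz => ?_⟩
  have h2 : ∀ O ∈ z, ∃ r, ht r = δ ∧ (c r ∩ O).Nonempty := fun O hO => by
    obtain ⟨t, h2⟩ := hc.pi O (hz.2 O hO).1 (hz.2 O hO).2
    rcases le_total (ht t) δ with h3 | h3
    · obtain ⟨r, h4, h5⟩ := h.ext t δ h3
      exact ⟨r, h5, (hc.op r).2.mono (subset_inter subset_rfl ((hc.anti _ _ h4).trans h2))⟩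
    · exact ⟨p t δ, hp' t δ h3, (hc.op t).2.mono (subset_inter (hc.anti _ _ (hp t δ h3)) h2)⟩
  choose! r hr hr' using h2
  obtain ⟨n, hn⟩ := hF.le (show r '' z ∈ _ from ⟨hz.1.image r, by
    rintro _ ⟨O, hO, rfl⟩
    exact hr O hO⟩)
  exact ⟨_, ⟨n, rfl⟩, fun O hO => (hr' O hO).mono
    (inter_subset_inter_left _ (hU2 n _ (hn ▸ mem_image_of_mem r hO)))⟩

theorem rep_not (h : FreeSuslin T ht) {X : Type} [TopologicalSpace X] {c : T → Set X}
    (hc : Rep X c) : ¬ CCC (Fin 2 → X) := by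
  intro hcc
  choose a b hab ha hb using h.split
  have h0 : ∀ t, ¬ (a t ≤ b t ∨ b t ≤ a t) := fun t h' => h'.elim
    (fun h' => (hb t).2 (ha t).1 (h'.lt_of_ne (hab t)))
    (fun h' => (ha t).2 (hb t).1 (h'.lt_of_ne (hab t).symm))
  have h1 : ∀ t t', a t ≤ a t' → (b t ≤ b t' ∨ b t' ≤ b t) → t = t' := fun t t' h1 h2 => by
    rcases h1.eq_or_lt with h1 | h1
    · rcases h.chain t t' _ (ha t).1.le (h1 ▸ (ha t').1.le) with h3 | h3
      · exact h3.eq_or_lt.resolve_right fun h4 => (ha t).2 h4 (h1 ▸ (ha t').1)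
      · exact (h3.eq_or_lt.resolve_right fun h4 => (ha t').2 h4 (h1 ▸ (ha t).1)).symm
    · have h3 : a t ≤ t' := (h.chain _ _ _ h1.le (ha t').1.le).elim id fun h3 =>
        (h3.eq_or_lt.resolve_right fun h4 => (ha t').2 h4 h1).ge
      rcases h2 with h2 | h2
      · exact (h0 t (h.chain _ _ _ (h3.trans (hb t').1.le) h2)).elim
      · exact (h0 t (Or.inl ((h3.trans (hb t').1.le).trans h2))).elim
  let B : T → Set (Fin 2 → X) := fun t => univ.pi ![c (a t), c (b t)]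
  have h2 : ∀ t, IsOpen (B t) ∧ (B t).Nonempty := fun t =>
    ⟨isOpen_set_pi finite_univ fun i _ => by fin_cases i <;> exact (hc.op _).1,
      univ_pi_nonempty_iff.2 fun i => by fin_cases i <;> exact (hc.op _).2⟩
  have h3 : ∀ t t', (B t ∩ B t').Nonempty → t = t' := by
    rintro t t' ⟨x, hx, hx'⟩
    have e1 := hc.comp _ _ ⟨x 0, hx 0 trivial, hx' 0 trivial⟩
    have e2 := hc.comp _ _ ⟨x 1, hx 1 trivial, hx' 1 trivial⟩
    exact e1.elim (fun e => h1 t t' e e2) fun e => (h1 t' t e e2.symm).symm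
  have h4 := hcc (range B) (by rintro _ ⟨t, rfl⟩; exact h2 t) (by
    rintro _ ⟨t, rfl⟩ _ ⟨t', rfl⟩ hne
    by_contra hd
    exact hne (h3 t t' (not_disjoint_iff_nonempty_inter.1 hd) ▸ rfl))
  have h5 : (univ : Set T).Countable := countable_of_injective_of_countable_image
    (f := B) (fun t _ t' _ e => h3 t t' (by rw [← e, inter_self]; exact (h2 t).2))
    (by rwa [image_univ])
  obtain ⟨γ, hγ⟩ := bound (h5.image ht)
  obtain ⟨t⟩ := h.ne
  obtain ⟨r, -, hr⟩ := h.ext t γ (hγ _ ⟨t, trivial, rfl⟩).le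
  exact (hγ _ ⟨r, trivial, rfl⟩).ne hr

/-- The space of maximal chains. -/
def Br (T : Type) [PartialOrder T] : Type := {b : Set T // IsMaxChain (· ≤ ·) b}

def cone (t : T) : Set (Br T) := {b | t ∈ b.1}

instance : TopologicalSpace (Br T) := generateFrom (range cone)

theorem Br.sep (b : Br T) {t : T} (h : t ∉ b.1) : ∃ s ∈ b.1, ¬ (s ≤ t ∨ t ≤ s) := by
  by_contra hc
  push Not at hc
  exact h ((b.2.2 (b.2.1.insert fun s hs _ => (hc s hs).symm) (subset_insert _ _)).ge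
    (mem_insert _ _))

theorem Br.comp (b : Br T) {s t : T} (hs : s ∈ b.1) (h : t ∈ b.1) : s ≤ t ∨ t ≤ s :=
  b.2.1.total hs h

theorem open_cone (t : T) : IsOpen (cone t) := isOpen_generateFrom_of_mem ⟨t, rfl⟩

theorem closed_cone (t : T) : IsClosed (cone t) := by
  refine ⟨isOpen_iff_forall_mem_open.2 fun b hb => ?_⟩
  obtain ⟨s, hs, h⟩ := b.sep hb
  exact ⟨cone s, fun b' h1 h2 => h (b'.comp h1 h2), open_cone s, hs⟩

theorem cone_anti (h : FreeSuslin T ht) (s t : T) (hst : s ≤ t) : cone t ⊆ cone s := fun b hb => by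
  by_contra hn
  obtain ⟨u, hu, h'⟩ := b.sep hn
  exact h' ((b.comp hu hb).elim (fun e => h.chain _ _ _ e hst) fun e => Or.inr (hst.trans e))

theorem cone_nb (h : FreeSuslin T ht) {O : Set (Br T)} (hO : IsOpen O) :
    ∀ b ∈ O, ∃ t ∈ b.1, cone t ⊆ O := by
  induction hO with
  | basic s hs =>
    obtain ⟨t, rfl⟩ := hs
    exact fun b hb => ⟨t, hb, subset_rfl⟩
  | univ =>
    intro b _
    obtain ⟨t⟩ := h.ne
    by_cases h' : t ∈ b.1
    · exact ⟨t, h', subset_univ _⟩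
    · obtain ⟨s, hs, -⟩ := b.sep h'
      exact ⟨s, hs, subset_univ _⟩
  | inter s t _ _ ih1 ih2 =>
    intro b hb
    obtain ⟨u, hu, h1⟩ := ih1 b hb.1
    obtain ⟨v, hv, h2⟩ := ih2 b hb.2
    rcases b.comp hu hv with e | e
    · exact ⟨v, hv, subset_inter ((cone_anti h _ _ e).trans h1) h2⟩
    · exact ⟨u, hu, subset_inter h1 ((cone_anti h _ _ e).trans h2)⟩
  | sUnion S _ ih =>
    rintro b ⟨s, hs, hb⟩
    obtain ⟨u, hu, h1⟩ := ih s hs b hb
    exact ⟨u, hu, h1.trans (subset_sUnion_of_mem hs)⟩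

theorem br_rep (h : FreeSuslin T ht) : Rep (Br T) cone where
  op := fun t => ⟨open_cone t, by
    obtain ⟨b, hb, h⟩ := (IsChain.singleton (r := (· ≤ ·)) (a := t)).exists_maxChain
    exact ⟨⟨b, hb⟩, h rfl⟩⟩
  anti := cone_anti h
  comp := fun _ _ ⟨b, h1, h2⟩ => b.comp h1 h2
  pi := fun _ hO ⟨b, hb⟩ => (cone_nb h hO b hb).imp fun _ h => h.2

theorem br_t3 (h : FreeSuslin T ht) : T3Space (Br T) := by
  have : RegularSpace (Br T) := RegularSpace.of_exists_mem_nhds_isClosed_subset fun x s hs => by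
    obtain ⟨U, hUs, hU, hx⟩ := mem_nhds_iff.1 hs
    obtain ⟨t, h1, h2⟩ := cone_nb h hU x hx
    exact ⟨_, (open_cone t).mem_nhds h1, closed_cone t, h2.trans hUs⟩
  have : T0Space (Br T) := ⟨fun x y e => Subtype.ext (Set.ext fun t =>
    e.mem_open_iff (open_cone t))⟩
  exact {}

end Pool.Agent.H17.DO
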