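import Mathlib

set_option autoImplicit false
open Set Topology Filter TopologicalSpace

namespace Pool.Agent.H17.Dm

/-- covering dimension at most `n`, shrinking form -/
def D (n : ℕ) (Z : Type) [TopologicalSpace Z] : Prop :=
  ∀ (k : ℕ) (U : Fin k → Set Z), (∀ i, IsOpen (U i)) → (∀ x, ∃ i, x ∈ U i) →
    ∃ V : Fin k → Set Z, (∀ i, IsOpen (V i)) ∧ (∀ i, V i ⊆ U i) ∧ (∀ x, ∃ i, x ∈ V i) ∧
      ∀ s : Finset (Fin k), s.card = n + 2 → ∀ x, ∃ i ∈ s, x ∉ V i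

variable {n : ℕ} {Z W : Type} [TopologicalSpace Z] [TopologicalSpace W]

theorem merge {k m : ℕ} {U : Fin k → Set Z} {V : Fin m → Set Z} (hV : ∀ j, IsOpen (V j))
    (hr : ∀ j, ∃ i, V j ⊆ U i) (hc : ∀ x, ∃ j, x ∈ V j)
    (ho : ∀ s : Finset (Fin m), s.card = n + 2 → ∀ x, ∃ i ∈ s, x ∉ V i) :
    ∃ V : Fin k → Set Z, (∀ i, IsOpen (V i)) ∧ (∀ i, V i ⊆ U i) ∧ (∀ x, ∃ i, x ∈ V i) ∧
      ∀ s : Finset (Fin k), s.card = n + 2 → ∀ x, ∃ i ∈ s, x ∉ V i := by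
  classical
  choose a ha using hr
  refine ⟨fun i => ⋃ j ∈ {j | a j = i}, V j, fun i => isOpen_biUnion fun j _ => hV j,
    fun i => iUnion₂_subset fun j hj => hj ▸ ha j, fun x => ?_, fun s hs x => ?_⟩
  · obtain ⟨j, hj⟩ := hc x
    exact ⟨a j, mem_biUnion (show j ∈ {j' | a j' = a j} from rfl) hj⟩
  · by_contra hn
    push Not at hn
    have : ∀ i : s, ∃ j, a j = i.1 ∧ x ∈ V j := fun i => by
      obtain ⟨j, hj, hx⟩ := mem_iUnion₂.1 (hn i.1 i.2)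
      exact ⟨j, hj, hx⟩
    choose b hb1 hb2 using this
    have hinj : Function.Injective b := fun i i' h => Subtype.ext (by rw [← hb1, ← hb1, h])
    obtain ⟨j, hj, hx⟩ := ho (Finset.univ.image b)
      (by rw [Finset.card_image_of_injective _ hinj]; simpa using hs) x
    obtain ⟨i, -, rfl⟩ := Finset.mem_image.1 hj
    exact hx (hb2 i)

theorem D.closed (h : D n Z) {f : W → Z} (hf : IsInducing f) (hc : IsClosed (range f)) :
    D n W := by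
  intro k U hU hcov
  rcases isEmpty_or_nonempty W with hW | ⟨⟨w⟩⟩
  · exact ⟨U, hU, fun _ => subset_rfl, hcov, fun _ _ x => hW.elim x⟩
  obtain ⟨i0, -⟩ := hcov w
  choose O hO hOU using fun i => hf.isOpen_iff.1 (hU i)
  obtain ⟨V, h1, h2, h3, h4⟩ := h k (fun i => O i ∪ (range f)ᶜ)
    (fun i => (hO i).union hc.isOpen_compl) (fun z => by
      by_cases hz : z ∈ range f
      · obtain ⟨x, rfl⟩ := hz
        obtain ⟨i, hi⟩ := hcov x
        exact ⟨i, Or.inl (by rw [← hOU] at hi; exact hi)⟩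
      · exact ⟨i0, Or.inr hz⟩)
  refine ⟨fun i => f ⁻¹' V i, fun i => (h1 i).preimage hf.continuous, fun i x hx => ?_,
    fun x => h3 _, fun s hs x => h4 s hs _⟩
  rw [← hOU]
  exact (h2 i hx).resolve_right fun h => h ⟨x, rfl⟩

theorem swell [PseudoMetrizableSpace Z] {k : ℕ} {F U : Fin k → Set Z} (hF : ∀ i, IsClosed (F i))
    (hU : ∀ i, IsOpen (U i)) (hFU : ∀ i, F i ⊆ U i)
    (ho : ∀ s : Finset (Fin k), s.card = n + 2 → ∀ x, ∃ i ∈ s, x ∉ F i) :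
    ∃ V : Fin k → Set Z, (∀ i, IsOpen (V i)) ∧ (∀ i, V i ⊆ U i) ∧ (∀ i, F i ⊆ V i) ∧
      ∀ s : Finset (Fin k), s.card = n + 2 → ∀ x, ∃ i ∈ s, x ∉ V i := by
  let _ := pseudoMetrizableSpacePseudoMetric Z
  refine ⟨fun i => U i ∩ ⋂ s : {s : Finset (Fin k) // s.card = n + 2}, ⋃ j ∈ s.1,
    {x | Metric.infEDist x (F i) < Metric.infEDist x (F j)}, fun i => (hU i).inter
      (isOpen_iInter_of_finite fun s => isOpen_biUnion fun j _ =>
        isOpen_lt Metric.continuous_infEDist Metric.continuous_infEDist),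
    fun i => inter_subset_left, fun i x hx => ⟨hFU i hx, mem_iInter.2 fun s => ?_⟩,
    fun s hs x => ?_⟩
  · obtain ⟨j, hj, hxj⟩ := ho s.1 s.2 x
    refine mem_biUnion hj ?_
    show Metric.infEDist x (F i) < Metric.infEDist x (F j)
    rw [Metric.infEDist_zero_of_mem hx]
    exact Metric.infEDist_pos_iff_notMem_closure.2 (by rwa [(hF j).closure_eq])
  · obtain ⟨i, hi, hm⟩ := s.exists_max_image (fun i => Metric.infEDist x (F i))
      (Finset.card_pos.1 (by omega))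
    refine ⟨i, hi, fun hx => ?_⟩
    obtain ⟨j, hj, hlt⟩ := mem_iUnion₂.1 (mem_iInter.1 hx.2 ⟨s, hs⟩)
    exact absurd hlt (not_lt.2 (hm j hj))

theorem cst_step [NormalSpace Z] {C : Set Z} (hC : IsClosed C) (h : D n C) {k : ℕ}
    {U : Fin k → Set Z} (hU : ∀ i, IsOpen (U i)) (hc : ∀ x, ∃ i, x ∈ U i) :
    ∃ V : Fin k → Set Z, (∀ i, IsOpen (V i)) ∧ (∀ x, ∃ i, x ∈ V i) ∧ (∀ i, closure (V i) ⊆ U i) ∧
      ∀ s : Finset (Fin k), s.card = n + 2 → ∀ x ∈ C, ∃ i ∈ s, x ∉ closure (V i) := by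
  obtain ⟨V, h1, h2, h3, h4⟩ := h k (fun i => Subtype.val ⁻¹' U i)
    (fun i => (hU i).preimage continuous_subtype_val) (fun x => hc x.1)
  choose O hO hOV using fun i => isOpen_induced_iff.1 (h1 i)
  obtain ⟨V', k1, k2, k3⟩ := exists_iUnion_eq_closure_subset
    (u := fun i => U i ∩ (O i ∪ Cᶜ)) (fun i => (hU i).inter ((hO i).union hC.isOpen_compl))
    (fun x => toFinite _) (eq_univ_of_forall fun x => by
      by_cases hx : x ∈ C
      · obtain ⟨i, hi⟩ := h3 ⟨x, hx⟩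
        exact mem_iUnion.2 ⟨i, h2 i hi, Or.inl (by rw [← hOV] at hi; exact hi)⟩
      · obtain ⟨i, hi⟩ := hc x
        exact mem_iUnion.2 ⟨i, hi, Or.inr hx⟩)
  refine ⟨V', k2, fun x => mem_iUnion.1 (k1 ▸ mem_univ x), fun i => (k3 i).trans inter_subset_left,
    fun s hs x hx => ?_⟩
  obtain ⟨i, hi, hxi⟩ := h4 s hs ⟨x, hx⟩
  refine ⟨i, hi, fun hcl => hxi ?_⟩
  rw [← hOV]
  exact (k3 i hcl).2.resolve_right fun h => h hx

/-- countable closed sum theorem -/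
theorem cst [PseudoMetrizableSpace Z] {𝒞 : Set (Set Z)} (hc : 𝒞.Countable)
    (h : ∀ C ∈ 𝒞, IsClosed C ∧ D n C) (hcov : ∀ x, ∃ C ∈ 𝒞, x ∈ C) : D n Z := by
  intro k U hU hUc
  rcases isEmpty_or_nonempty Z with hW | ⟨⟨w⟩⟩
  · exact ⟨U, hU, fun _ => subset_rfl, hUc, fun _ _ x => hW.elim x⟩
  obtain ⟨C, hC⟩ := hc.exists_eq_range (by obtain ⟨C, hC, -⟩ := hcov w; exact ⟨C, hC⟩)
  have hC' : ∀ m, IsClosed (C m) ∧ D n (C m) := fun m => h _ (hC ▸ mem_range_self m)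
  let A := {V : Fin k → Set Z // (∀ i, IsOpen (V i)) ∧ ∀ x, ∃ i, x ∈ V i}
  have st : ∀ (m : ℕ) (a : A), ∃ b : A, (∀ i, closure (b.1 i) ⊆ a.1 i) ∧
      ∀ s : Finset (Fin k), s.card = n + 2 → ∀ x ∈ C m, ∃ i ∈ s, x ∉ closure (b.1 i) := by
    intro m a
    obtain ⟨V, h1, h2, h3, h4⟩ := cst_step (hC' m).1 (hC' m).2 a.2.1 a.2.2
    exact ⟨⟨V, h1, h2⟩, h3, h4⟩
  choose nx h1 h2 using st
  let u : ℕ → A := fun m => Nat.rec ⟨U, hU, hUc⟩ (fun m a => nx m a) m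
  have hu : ∀ m, u (m + 1) = nx m (u m) := fun m => rfl
  have hanti : ∀ i, Antitone fun m => (u m).1 i := fun i =>
    antitone_nat_of_succ_le fun m => by
      rw [hu]; exact subset_closure.trans (h1 m (u m) i)
  obtain ⟨V, k1, k2, k3, k4⟩ := swell (n := n) (F := fun i => ⋂ m, closure ((u (m + 1)).1 i))
    (fun i => isClosed_iInter fun m => isClosed_closure) hU
    (fun i => (iInter_subset _ 0).trans (h1 0 (u 0) i)) (fun s hs x => by
      obtain ⟨C', hC1, hx⟩ := hcov x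
      obtain ⟨m, rfl⟩ : C' ∈ range C := hC ▸ hC1
      obtain ⟨i, hi, hxi⟩ := h2 m (u m) s hs x hx
      exact ⟨i, hi, fun hh => hxi (mem_iInter.1 hh m)⟩)
  refine ⟨V, k1, k2, fun x => ?_, k4⟩
  by_contra hn
  push Not at hn
  have : ∀ i, ∃ m, x ∉ (u m).1 i := fun i => by
    by_contra h'
    push Not at h'
    exact hn i (k3 i (mem_iInter.2 fun m => subset_closure (h' (m + 1))))
  choose m hm using this
  obtain ⟨i, hi⟩ := (u (Finset.univ.sup m)).2.2 x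
  exact hm i (hanti i (Finset.le_sup (f := m) (Finset.mem_univ i)) hi)

theorem fsig [PseudoMetrizableSpace Z] {O : Set Z} (hO : IsOpen O) :
    ∃ F : ℕ → Set Z, (∀ m, IsClosed (F m)) ∧ (∀ m, F m ⊆ O) ∧ ∀ x ∈ O, ∃ m, x ∈ F m := by
  let _ := pseudoMetrizableSpacePseudoMetric Z
  obtain ⟨F, h1, h2, h3, -⟩ := hO.exists_iUnion_isClosed
  exact ⟨F, h1, h2, fun x hx => mem_iUnion.1 (h3 ▸ hx)⟩

theorem D.ind [PseudoMetrizableSpace Z] (h : D n Z) {f : W → Z} (hf : IsInducing f) :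
    D n W := by
  intro k U hU hcov
  choose O hO hOU using fun i => hf.isOpen_iff.1 (hU i)
  obtain ⟨F, h1, h2, h3⟩ := fsig (isOpen_iUnion hO)
  have hD : D n (⋃ i, O i : Set Z) := by
    refine cst (𝒞 := range fun m => Subtype.val ⁻¹' F m) (countable_range _) ?_ fun x => ?_
    · rintro _ ⟨m, rfl⟩
      refine ⟨(h1 m).preimage continuous_subtype_val, h.closed
        (f := fun x => x.1.1) (IsInducing.subtypeVal.comp IsInducing.subtypeVal) ?_⟩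
      have : (range fun x : (Subtype.val ⁻¹' F m : Set (⋃ i, O i : Set Z)) => x.1.1) = F m := by
        ext z
        exact ⟨by rintro ⟨x, rfl⟩; exact x.2, fun hz => ⟨⟨⟨z, h2 m hz⟩, hz⟩, rfl⟩⟩
      rw [this]; exact h1 m
    · obtain ⟨m, hm⟩ := h3 x.1 x.2
      exact ⟨_, mem_range_self m, hm⟩
  obtain ⟨V, k1, k2, k3, k4⟩ := hD k (fun i => Subtype.val ⁻¹' O i)
    (fun i => (hO i).preimage continuous_subtype_val) (fun x => by
      obtain ⟨i, hi⟩ := mem_iUnion.1 (show x.1 ∈ ⋃ i, O i from x.2)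
      exact ⟨i, hi⟩)
  let f' : W → (⋃ i, O i : Set Z) := fun w => ⟨f w, by
    obtain ⟨i, hi⟩ := hcov w
    rw [← hOU] at hi
    exact mem_iUnion.2 ⟨i, hi⟩⟩
  have hf' : Continuous f' := hf.continuous.subtype_mk _
  refine ⟨fun i => f' ⁻¹' V i, fun i => (k1 i).preimage hf', fun i w hw => ?_, fun w => k3 _,
    fun s hs w => k4 s hs _⟩
  rw [← hOU]
  exact k2 i hw

/-- covered by countably many closed sets with property `P` -/
def Sig (P : Set Z → Prop) (A : Set Z) : Prop :=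
  ∃ 𝒞 : Set (Set Z), 𝒞.Countable ∧ (∀ C ∈ 𝒞, IsClosed C ∧ P C) ∧ ∀ x ∈ A, ∃ C ∈ 𝒞, x ∈ C

variable {P : Set Z → Prop}

theorem Sig.mono {A B : Set Z} (h : Sig P B) (hAB : A ⊆ B) : Sig P A := by
  obtain ⟨𝒞, h1, h2, h3⟩ := h
  exact ⟨𝒞, h1, h2, fun x hx => h3 x (hAB hx)⟩

theorem Sig.iUnion {ι : Type} [Countable ι] {A : ι → Set Z} (h : ∀ i, Sig P (A i)) :
    Sig P (⋃ i, A i) := by
  choose 𝒞 h1 h2 h3 using h
  refine ⟨⋃ i, 𝒞 i, countable_iUnion h1, fun C hC => ?_, fun x hx => ?_⟩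
  · obtain ⟨i, hi⟩ := mem_iUnion.1 hC
    exact h2 i C hi
  · obtain ⟨i, hi⟩ := mem_iUnion.1 hx
    obtain ⟨C, hC, hxC⟩ := h3 i x hi
    exact ⟨C, mem_iUnion.2 ⟨i, hC⟩, hxC⟩

theorem Sig.union {A B : Set Z} (hA : Sig P A) (hB : Sig P B) : Sig P (A ∪ B) := by
  rw [union_eq_iUnion]
  exact Sig.iUnion fun b => by cases b <;> assumption

theorem Sig.single {C : Set Z} (hC : IsClosed C) (h : P C) : Sig P C :=
  ⟨{C}, countable_singleton _, by rintro _ rfl; exact ⟨hC, h⟩, fun x hx => ⟨C, rfl, hx⟩⟩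

theorem Sig.lc [PseudoMetrizableSpace Z] {C O : Set Z} (hC : IsClosed C) (hO : IsOpen O)
    (h : ∀ F, F ⊆ C ∩ O → P F) : Sig P (C ∩ O) := by
  obtain ⟨F, h1, h2, h3⟩ := fsig hO
  refine (Sig.iUnion (A := fun m => C ∩ F m) fun m => Sig.single (hC.inter (h1 m))
    (h _ (inter_subset_inter_right _ (h2 m)))).mono fun x hx => ?_
  obtain ⟨m, hm⟩ := h3 x hx.2
  exact mem_iUnion.2 ⟨m, hx.1, hm⟩

theorem Sig.scat [SecondCountableTopology Z] {A : Set Z}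
    (h : ∀ O, IsOpen O → (A \ O).Nonempty →
      ∃ V, IsOpen V ∧ (V ∩ (A \ O)).Nonempty ∧ Sig P (V ∩ (A \ O))) : Sig P A := by
  obtain ⟨𝒯, h1, h2, h3⟩ := isOpen_sUnion_countable {V | IsOpen V ∧ Sig P (V ∩ A)}
    fun V hV => hV.1
  have hO : IsOpen (⋃₀ {V | IsOpen V ∧ Sig P (V ∩ A)}) := isOpen_sUnion fun V hV => hV.1
  have hS : Sig P (⋃₀ {V | IsOpen V ∧ Sig P (V ∩ A)} ∩ A) := by
    have := h1.to_subtype
    refine (Sig.iUnion (A := fun V : 𝒯 => V.1 ∩ A) fun V => (h2 V.2).2).mono fun x hx => ?_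
    rw [← h3] at hx
    obtain ⟨⟨V, hV, hxV⟩, hxA⟩ := hx
    exact mem_iUnion.2 ⟨⟨V, hV⟩, hxV, hxA⟩
  by_cases hne : (A \ ⋃₀ {V | IsOpen V ∧ Sig P (V ∩ A)}).Nonempty
  · obtain ⟨V, hV, ⟨x, hxV, hx⟩, hs⟩ := h _ hO hne
    refine absurd ⟨V, ⟨hV, (hS.union hs).mono fun z hz => ?_⟩, hxV⟩ hx.2
    by_cases hz' : z ∈ ⋃₀ {V | IsOpen V ∧ Sig P (V ∩ A)}
    · exact Or.inl ⟨hz', hz.2⟩
    · exact Or.inr ⟨hz.1, hz.2, hz'⟩
  · refine hS.mono fun x hx => ⟨?_, hx⟩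
    by_contra h'
    exact hne ⟨x, hx, h'⟩

end Pool.Agent.H17.Dm
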