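import Pool.Agent.H17.TE2
import Pool.Agent.H17.Dm1

set_option autoImplicit false
open Set Topology Filter TopologicalSpace

namespace Pool.Agent.H17.Dm
open Pool.Agent.H17.TE

variable {K S T I : Type} [TopologicalSpace K] [TopologicalSpace S] [TopologicalSpace T]

def Near (ι : S → K) (a b : S → ℝ) (ε : ℝ) (c : K) : Prop :=
  ∀ᶠ z in 𝓝 c, ∀ s, ι s = z → |a s - b s| < ε

def Mix (ι : S → K) (val : I → S → ℝ) (g : I) : Prop :=
  ∀ (m : ℕ) (y : Fin m → K) (c : K), c ∉ range y → ∀ f, ∃ f',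
    (∀ i, ∀ᶠ z in 𝓝 (y i), ∀ s, ι s = z → val f' s = val f s) ∧
    (∀ᶠ z in 𝓝 c, ∀ s, ι s = z → val f' s = val g s) ∧
    ∀ s, |val f' s - val g s| ≤ |val f s - val g s|

def NC (ι : S → K) (val : I → S → ℝ) (g : I) (Φ : I → T → ℝ) (r ε : ℝ) {n : ℕ} (t : T)
    (x : Fin n → K) : Prop :=
  ∀ f, (∀ i, Near ι (val f) (val g) ε (x i)) → Φ f t ≤ r

def UC (ι : S → K) (val : I → S → ℝ) (Φ : I → T → ℝ) (η δ : ℝ) {n : ℕ} (t : T)
    (x : Fin n → K) : Prop :=
  ∀ f f', (∀ i, Near ι (val f') (val f) δ (x i)) → Φ f t ≤ Φ f' t + η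

def Unif (val : I → S → ℝ) (Φ : I → T → ℝ) : Prop :=
  ∀ t η, 0 < η → ∃ (m : ℕ) (δ : ℝ) (y : Fin m → S), 0 < δ ∧
    ∀ f f', (∀ i, |val f' (y i) - val f (y i)| < δ) → Φ f t ≤ Φ f' t + η

def Good (val : I → S → ℝ) (g : I) (Φ : I → T → ℝ) (R : ℝ) (C : Set T) : Prop :=
  ∃ (n : ℕ) (ε r : ℝ) (p : T → Fin n → S), 0 < ε ∧ r < R ∧ ContinuousOn p C ∧
    ∀ t ∈ C, ∀ f, (∀ i, |val f (p t i) - val g (p t i)| < ε) → Φ f t ≤ r

variable {ι : S → K} {val : I → S → ℝ} {g : I} {Φ : I → T → ℝ}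

omit [TopologicalSpace S] in
theorem near_op {n : ℕ} (a b : S → ℝ) (ε : ℝ) (J : Set (Fin n)) :
    IsOpen {x : Fin n → K | ∀ i ∈ J, Near ι a b ε (x i)} := by
  have e : {x : Fin n → K | ∀ i ∈ J, Near ι a b ε (x i)} =
      ⋂ i ∈ J, (fun x : Fin n → K => x i) ⁻¹' {c | Near ι a b ε c} := by
    ext x; simp
  rw [e]
  exact (toFinite J).isOpen_biInter fun i _ =>
    isOpen_setOfPred_eventually_nhds.preimage (continuous_apply i)

omit [TopologicalSpace S] in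
theorem nc_closed (h2 : ∀ f, Continuous (Φ f)) (r ε : ℝ) (n : ℕ) :
    IsClosed {p : T × (Fin n → K) | NC ι val g Φ r ε p.1 p.2} := by
  have e : {p : T × (Fin n → K) | NC ι val g Φ r ε p.1 p.2} = ⋂ f : I,
      ((Prod.snd ⁻¹' {x : Fin n → K | ∀ i ∈ (univ : Set (Fin n)),
        Near ι (val f) (val g) ε (x i)})ᶜ ∪ {p | Φ f p.1 ≤ r}) := by
    ext p
    simp only [NC, mem_iInter, mem_union, mem_compl_iff, mem_preimage, mem_ofPred_eq, mem_univ,
      forall_const]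
    exact forall_congr' fun f => imp_iff_not_or
  rw [e]
  exact isClosed_iInter fun f =>
    (((near_op _ _ ε _).preimage continuous_snd).isClosed_compl).union
      (isClosed_le ((h2 f).comp continuous_fst) continuous_const)

omit [TopologicalSpace S] in
theorem uc_closed (h2 : ∀ f, Continuous (Φ f)) (η δ : ℝ) (n : ℕ) :
    IsClosed {p : T × (Fin n → K) | UC ι val Φ η δ p.1 p.2} := by
  have e : {p : T × (Fin n → K) | UC ι val Φ η δ p.1 p.2} = ⋂ f : I, ⋂ f' : I,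
      ((Prod.snd ⁻¹' {x : Fin n → K | ∀ i ∈ (univ : Set (Fin n)),
        Near ι (val f') (val f) δ (x i)})ᶜ ∪ {p | Φ f p.1 ≤ Φ f' p.1 + η}) := by
    ext p
    simp only [UC, mem_iInter, mem_union, mem_compl_iff, mem_preimage, mem_ofPred_eq, mem_univ,
      forall_const]
    exact forall_congr' fun f => forall_congr' fun f' => imp_iff_not_or
  rw [e]
  exact isClosed_iInter fun f => isClosed_iInter fun f' =>
    (((near_op _ _ δ _).preimage continuous_snd).isClosed_compl).union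
      (isClosed_le ((h2 f).comp continuous_fst)
        (((h2 f').comp continuous_fst).add continuous_const))

omit [TopologicalSpace S] in
theorem drop {n : ℕ} {x : Fin n → K} {k : Fin n} {f f' : I} {ε : ℝ} (hε : 0 < ε)
    (hf : ∀ j, j ≠ k → Near ι (val f) (val g) ε (x j))
    (h1 : ∀ᶠ z in 𝓝 (x k), ∀ s, ι s = z → val f' s = val g s)
    (h2 : ∀ s, |val f' s - val g s| ≤ |val f s - val g s|) (j : Fin n) :
    Near ι (val f') (val g) ε (x j) := by
  by_cases hj : j = k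
  · subst hj
    exact h1.mono fun z hz s hs => by rw [hz s hs]; simpa using hε
  · exact (hf j hj).mono fun z hz s hs => (h2 s).trans_lt (hz s hs)

variable [CompactSpace K] [T2Space K]

omit [TopologicalSpace S] in
theorem step1 (hm : Mix ι val g) (h2 : ∀ f, Continuous (Φ f)) {r ε η δ : ℝ} (hε : 0 < ε)
    (hδ : 0 < δ) {n m : ℕ} {Z : Set (T × (Fin n → K))} (hZc : IsClosed Z) {U : Set T}
    (hU : IsOpen U) (hZ : Mn Z U) (hZ0 : ∀ t x, (t, x) ∈ Z → NC ι val g Φ r ε t x)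
    (hu : ∀ t, ∃ y : Fin m → K, UC ι val Φ η δ t y)
    {k : Fin n} (hk : ∀ V, IsOpen V → V.Nonempty → V ⊆ U →
      ∃ t ∈ V, ∃ x x', (t, x) ∈ Z ∧ (t, x') ∈ Z ∧ x k ≠ x' k)
    {t0 : T} (ht0 : t0 ∈ U) {x0 : Fin n → K} (hx0 : (t0, x0) ∈ Z) {f : I}
    (hf : ∀ j, j ≠ k → Near ι (val f) (val g) ε (x0 j)) : Φ f t0 ≤ r + η := by
  by_contra hn
  obtain ⟨V2, hV2, hne2, hs2, hJ⟩ := hZ.2 (U ∩ {t | r + η < Φ f t}) _
    (hU.inter (isOpen_lt continuous_const (h2 f))) (near_op (ι := ι) (val f) (val g) ε {j | j ≠ k})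
    inter_subset_left ⟨t0, ⟨ht0, not_le.1 hn⟩, x0, hf, hx0⟩
  have hV2U : V2 ⊆ U := hs2.trans inter_subset_left
  obtain ⟨Z', hZ'0, hZ'c, hZ'⟩ := exMn (U := V2)
    (Z0 := {p : T × ((Fin n → K) × (Fin m → K)) | (p.1, p.2.1) ∈ Z ∧
      UC ι val Φ η δ p.1 p.2.2})
    ((hZc.preimage (f := fun p : T × ((Fin n → K) × (Fin m → K)) => (p.1, p.2.1))
      (by fun_prop)).inter
      ((uc_closed h2 η δ m).preimage
        (f := fun p : T × ((Fin n → K) × (Fin m → K)) => (p.1, p.2.2)) (by fun_prop)))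
    (fun t ht => by
      obtain ⟨x, hx⟩ := hZ.1 t (hV2U ht)
      obtain ⟨y, hy⟩ := hu t
      exact ⟨(x, y), hx, hy⟩)
  have lift : ∀ t ∈ V2, ∀ x, (t, x) ∈ Z → ∃ y, (t, (x, y)) ∈ Z' := fun t ht x hx =>
    lift_mn hV2 (hZ.mono hV2U) hZ'c hZ'.1 (fun t x y h => (hZ'0 h).1) ht hx
  obtain ⟨V4, hV4, hne4, hs4, hA⟩ := shrink (ι := Fin m) (fun i (V : Set T) =>
      (∀ t ∈ V, ∀ x y, (t, (x, y)) ∈ Z' → y i = x k) ∨
      (∀ t ∈ V, ∀ x y x', (t, (x, y)) ∈ Z' → (t, x') ∈ Z → y i ≠ x' k))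
    (fun i V V' h _ hs => h.imp (fun h t ht => h t (hs ht)) (fun h t ht => h t (hs ht)))
    hV2 hne2 (by
      intro i V hV hne hs
      by_cases hc : ∀ t ∈ V, ∀ x y, (t, (x, y)) ∈ Z' → y i = x k
      · exact ⟨V, hV, hne, subset_rfl, Or.inl hc⟩
      push Not at hc
      obtain ⟨t, ht, x, y, hxy, hne⟩ := hc
      obtain ⟨W1, W2, hW1, hW2, m1, m2, hd⟩ := t2_separation hne
      obtain ⟨V', k1, k2, k3, k4⟩ := hZ'.2 V {q | q.2 i ∈ W1 ∧ q.1 k ∈ W2} hV
        ((hW1.preimage (f := fun q : (Fin n → K) × (Fin m → K) => q.2 i) (by fun_prop)).inter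
          (hW2.preimage (f := fun q : (Fin n → K) × (Fin m → K) => q.1 k) (by fun_prop))) hs
        ⟨t, ht, (x, y), ⟨m1, m2⟩, hxy⟩
      refine ⟨V', k1, k2, k3, Or.inr fun s hs' a b a' hab ha' he => ?_⟩
      obtain ⟨b', hb'⟩ := lift s (hs (k3 hs')) a' ha'
      have e1 : b i ∈ W1 := (k4 s hs' _ hab).1
      have e2 : a' k ∈ W2 := (k4 s hs' _ hb').2
      exact disjoint_left.1 hd e1 (he ▸ e2))
  obtain ⟨t, ht, x, x', hx, hx', hxx⟩ := hk V4 hV4 hne4 (hs4.trans hV2U)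
  obtain ⟨y, hy⟩ := lift t (hs4 ht) x hx
  have hny : x' k ∉ range y := by
    rintro ⟨i, hi⟩
    rcases hA i with h | h
    · exact hxx ((h t ht x y hy).symm.trans hi)
    · exact h t ht x y x' hy hx' hi
  obtain ⟨f', a1, a2, a3⟩ := hm m y _ hny f
  have b1 := (hZ'0 hy).2 f f' fun i =>
    (a1 i).mono fun z hz s hs => by rw [hz s hs]; simpa using hδ
  have b2 := hZ0 t x' hx' f' (drop hε (hJ t (hs4 ht) x' hx') a2 a3)
  have b3 : r + η < Φ f t := (hs2 (hs4 ht)).2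
  simp only at b1
  linarith

theorem loc [Nonempty T] (hι : IsInducing ι) (hv : ∀ f, Continuous (val f)) (hm : Mix ι val g)
    (h2 : ∀ f, Continuous (Φ f)) (hun : Unif val Φ) {r ε η δ : ℝ} (hε : 0 < ε)
    (hδ : 0 < δ) (hη : 0 < η) {n m : ℕ} (hc : ∀ t, ∃ x : Fin (n + 1) → K, NC ι val g Φ r ε t x)
    (hu : ∀ t, ∃ y : Fin m → K, UC ι val Φ η δ t y)
    (hno : ∀ t (x : Fin n → K), ¬ NC ι val g Φ (r + η) ε t x) :
    ∃ V : Set T, ∃ p : T → Fin (n + 1) → S, IsOpen V ∧ V.Nonempty ∧ ContinuousOn p V ∧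
      ∀ t ∈ V, ∀ f, (∀ i, |val f (p t i) - val g (p t i)| < ε) → Φ f t ≤ r := by
  obtain ⟨Z, hZ0, hZc, hZ⟩ := exMn (U := univ) (nc_closed (ι := ι) (val := val) (g := g)
    h2 r ε (n + 1)) fun t _ => hc t
  have hdrop : ∀ t (x : Fin (n + 1) → K) k, ¬ ∀ f,
      (∀ j, j ≠ k → Near ι (val f) (val g) ε (x j)) → Φ f t ≤ r + η := fun t x k h =>
    hno t (fun i => x (k.succAbove i)) fun f hf => h f fun j hj => by
      obtain ⟨i, rfl⟩ := Fin.exists_succAbove_eq hj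
      exact hf i
  obtain ⟨V, hV, hne, -, hA⟩ := shrink (ι := Fin (n + 1)) (fun j (V : Set T) =>
      ∀ t ∈ V, ∀ x x', (t, x) ∈ Z → (t, x') ∈ Z → x j = x' j)
    (fun i V V' h _ hs t ht => h t (hs ht)) isOpen_univ univ_nonempty (by
      intro k U hU ⟨t, ht⟩ _
      by_contra hcon
      obtain ⟨x, hx⟩ := hZ.1 t (mem_univ t)
      refine hdrop t x k fun f hf => step1 hm h2 hε hδ hZc hU (hZ.mono (subset_univ U))
        (fun t x h => hZ0 h) hu (fun V a b c => ?_) ht hx hf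
      by_contra h'
      push Not at h'
      exact hcon ⟨V, a, b, c, h'⟩)
  have hin : ∀ t x, (t, x) ∈ Z → ∀ k, x k ∈ range ι := by
    intro t x hx k
    by_contra hk
    refine hdrop t x k fun f hf => ?_
    obtain ⟨m', δ', y, hδ', hy⟩ := hun t η hη
    obtain ⟨f', a1, a2, a3⟩ := hm m' (fun i => ι (y i)) (x k)
      (by rintro ⟨i, hi⟩; exact hk ⟨_, hi⟩) f
    have b1 := hy f f' fun i => by rw [(a1 i).self_of_nhds _ rfl]; simpa using hδ'
    have b2 := hZ0 hx f' (drop hε hf a2 a3)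
    simp only at b2
    linarith
  choose sel hsel using fun t => hZ.1 t (mem_univ t)
  choose p hp using fun t => hin t (sel t) (hsel t)
  refine ⟨V, p, hV, hne, continuousOn_pi.2 fun j => hι.continuousOn_iff.2 ?_,
    fun t _ f hf => hZ0 (hsel t) f fun i => ?_⟩
  · intro t ht
    refine tendsto_nhds.2 fun W hW hm => ?_
    have ho := usc hZc (hW.preimage (f := fun x : Fin (n + 1) → K => x j) (continuous_apply j))
    refine mem_nhdsWithin.2 ⟨_, ho, fun y hy => ?_, fun s hs => ?_⟩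
    · show y j ∈ W
      rw [hA j t ht y (sel t) hy (hsel t), ← hp]; exact hm
    · show ι (p s j) ∈ W
      rw [hp]; exact hs.1 _ (hsel s)
  · obtain ⟨O, hO, hO'⟩ := hι.isOpen_iff.1
      (isOpen_lt ((hv f).sub (hv g)).abs (continuous_const (y := ε)))
    have : sel t i ∈ O := by
      rw [← hp]
      show p t i ∈ ι ⁻¹' O
      rw [hO']; exact hf i
    filter_upwards [hO.mem_nhds this] with z hz s hs
    have : s ∈ ι ⁻¹' O := by show ι s ∈ O; rwa [hs]
    rw [hO'] at this; exact this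

omit [CompactSpace K] [T2Space K] [TopologicalSpace S] in
theorem near_self {a b : S → ℝ} {ε : ℝ} {s : S} (h : Near ι a b ε (ι s)) : |a s - b s| < ε :=
  h.self_of_nhds s rfl

theorem side [SecondCountableTopology T] [PseudoMetrizableSpace T]
    (hι : IsInducing ι) (hv : ∀ f, Continuous (val f)) (hm : Mix ι val g)
    (h2 : ∀ f, Continuous (Φ f)) (hun : Unif val Φ) (hg : ∀ t, Φ g t ≤ 0) {R : ℝ} (hR : 0 < R) :
    Sig (Good val g Φ R) univ := by
  classical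
  have hA : ∀ (n : ℕ) r ε, IsClosed {t | ∃ x : Fin n → K, NC ι val g Φ r ε t x} := by
    intro n r ε
    convert isClosedMap_fst_of_compactSpace _ (nc_closed (ι := ι) (val := val) (g := g) h2 r ε n)
    ext t; simp
  have hB : ∀ (n : ℕ) r ε, IsClosed {t | ∃ x : Fin n → K, UC ι val Φ r ε t x} := by
    intro n r ε
    convert isClosedMap_fst_of_compactSpace _ (uc_closed (ι := ι) (val := val) h2 r ε n)
    ext t; simp
  have hU : ∀ t η, 0 < η → ∃ q : ℕ × ℕ, ∃ y : Fin q.1 → K, UC ι val Φ η (1 / (q.2 + 1)) t y := by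
    intro t η hη
    obtain ⟨m, δ, y, hδ, hy⟩ := hun t η hη
    obtain ⟨k, hk⟩ := exists_nat_one_div_lt hδ
    exact ⟨(m, k), fun i => ι (y i), fun f f' h => hy f f' fun i => (near_self (h i)).trans hk⟩
  have key : ∀ ε, 0 < ε → ∀ (n : ℕ) r, r < R →
      Sig (Good val g Φ R) {t | ∃ x : Fin n → K, NC ι val g Φ r ε t x} := by
    intro ε hε n
    induction n with
    | zero =>
      intro r hr
      refine Sig.single (hA _ _ _) ⟨0, ε, r, fun _ => Fin.elim0, hε, hr, continuousOn_const, ?_⟩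
      rintro t ⟨x, hx⟩ f -
      exact hx f fun i => i.elim0
    | succ n ih =>
      intro r hr
      have hη : 0 < (R - r) / 2 := by linarith
      refine ((ih (r + (R - r) / 2) (by linarith)).union (Sig.iUnion (ι := ℕ × ℕ)
        (A := fun q => ({t | ∃ x : Fin (n + 1) → K, NC ι val g Φ r ε t x} ∩
          {t | ∃ y : Fin q.1 → K, UC ι val Φ ((R - r) / 2) (1 / (q.2 + 1)) t y}) ∩
          {t | ∃ x : Fin n → K, NC ι val g Φ (r + (R - r) / 2) ε t x}ᶜ)
        fun q => Sig.scat fun O hO hne => ?_)).mono fun t ht => ?_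
      · have := hne.to_subtype
        let A : Set T := (({t | ∃ x : Fin (n + 1) → K, NC ι val g Φ r ε t x} ∩
          {t | ∃ y : Fin q.1 → K, UC ι val Φ ((R - r) / 2) (1 / (q.2 + 1)) t y}) ∩
          {t | ∃ x : Fin n → K, NC ι val g Φ (r + (R - r) / 2) ε t x}ᶜ) \ O
        obtain ⟨V, p, hV, ⟨t0, ht0⟩, hp, hpc⟩ := loc (T := A) (Φ := fun f t => Φ f t.1)
          hι hv hm (fun f => (h2 f).comp continuous_subtype_val) (fun t => hun t.1) hε
          (δ := 1 / (q.2 + 1)) (by positivity) hη (fun t => t.2.1.1.1) (fun t => t.2.1.1.2)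
          (fun t x hx => t.2.1.2 ⟨x, hx⟩)
        obtain ⟨V', hV', rfl⟩ := isOpen_induced_iff.1 hV
        refine ⟨V', hV', ⟨t0.1, ht0, t0.2⟩, (Sig.lc (((hA _ _ _).inter (hB _ _ _)).inter
          hO.isClosed_compl) ((hA _ _ _).isOpen_compl.inter hV') fun F hF => ?_).mono
          fun t ht => ⟨⟨ht.2.1.1, ht.2.2⟩, ht.2.1.2, ht.1⟩⟩
        have hF' : ∀ t ∈ F, t ∈ A := fun t ht => ⟨⟨(hF ht).1.1, (hF ht).2.1⟩, (hF ht).1.2⟩
        refine ⟨n + 1, ε, r, fun t => if h : t ∈ F then p ⟨t, hF' t h⟩ else p t0, hε, hr, ?_,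
          fun t ht f hf => hpc ⟨t, hF' t ht⟩ (hF ht).2.2 f (by simpa only [dif_pos ht] using hf)⟩
        rw [continuousOn_iff_continuous_domRestrict]
        have := hp.comp_continuous (f := fun t : F => ⟨t.1, hF' t.1 t.2⟩)
          (continuous_subtype_val.subtype_mk _) (fun t => (hF t.2).2.2)
        convert this using 1
        funext t
        exact dif_pos t.2
      · by_cases h' : t ∈ {t | ∃ x : Fin n → K, NC ι val g Φ (r + (R - r) / 2) ε t x}
        · exact Or.inl h'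
        · obtain ⟨q, hq⟩ := hU t _ hη
          exact Or.inr (mem_iUnion.2 ⟨q, ⟨ht, hq⟩, h'⟩)
  refine (Sig.iUnion (ι := ℕ × ℕ) fun q => key (1 / (q.2 + 1)) (by positivity) q.1 (R / 2)
    (by linarith)).mono fun t _ => ?_
  obtain ⟨q, y, hy⟩ := hU t (R / 2) (by linarith)
  refine mem_iUnion.2 ⟨q, y, fun f hf => ?_⟩
  have := hy f g fun i => (hf i).mono fun z hz s hs => by rw [abs_sub_comm]; exact hz s hs
  linarith [hg t]

end Pool.Agent.H17.Dm
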