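import Pool.Agent.H17.Dm2

set_option autoImplicit false
open Set Topology Filter TopologicalSpace

namespace Pool.Agent.H17.Dm

theorem dual {n : ℕ} {S T I J : Type} [TopologicalSpace S] [TopologicalSpace T] [T2Space T]
    [PseudoMetrizableSpace S] [PseudoMetrizableSpace T] {v : I → S → ℝ} {g : I} {Φ : I → T → ℝ}
    {w : J → T → ℝ} {g' : J} {Ψ : J → S → ℝ} (hD : D n S) (h1 : Sig (Good v g Φ 2) univ)
    (h2 : ∀ ε, 0 < ε → Sig (Good w g' Ψ ε) univ)
    (link : ∀ t (B : Set T), B.Finite → t ∉ B → ∃ f h, 2 ≤ Φ f t ∧ (∀ y ∈ B, w h y = w g' y) ∧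
      ∀ s, |v f s - v g s| ≤ Ψ h s) : D n T := by
  have : Sig (fun C : Set T => D n C) univ := by
    obtain ⟨𝒞, c1, c2, c3⟩ := h1
    have := c1.to_subtype
    refine (Sig.iUnion (A := fun C : 𝒞 => C.1) fun C => ?_).mono fun t _ => ?_
    · obtain ⟨hC, m, ε, r, p, hε, hr, hp, hc⟩ := c2 C.1 C.2
      obtain ⟨𝒟, d1, d2, d3⟩ := h2 ε hε
      have := d1.to_subtype
      choose m' δ r' q hδ hr' hq hc' using fun E : 𝒟 => (d2 E.1 E.2).2
      refine (Sig.iUnion (ι := Fin m × Σ E : 𝒟, Fin (m' E)) (A := fun a =>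
        {t ∈ C.1 ∩ (fun t => p t a.1) ⁻¹' a.2.1.1 | q a.2.1 (p t a.1) a.2.2 = t})
        fun a => ?_).mono fun t ht => ?_
      · obtain ⟨i, E, j⟩ := a
        have hp1 : ContinuousOn (fun t => p t i) C.1 := continuousOn_pi.1 hp i
        have hq1 : ContinuousOn (fun s => q E s j) E.1 := continuousOn_pi.1 (hq E) j
        refine Sig.single ((hp1.preimage_isClosed_of_isClosed hC (d2 E.1 E.2).1).isClosed_eq
          (hq1.comp (hp1.mono inter_subset_left) fun t ht => ht.2) continuousOn_id) ?_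
        let A : Set T := {t ∈ C.1 ∩ (fun t => p t i) ⁻¹' E.1 | q E (p t i) j = t}
        have k1 : Continuous fun t : A => (⟨p t.1 i, t.2.1.2⟩ : E.1) :=
          (hp1.comp_continuous continuous_subtype_val fun t : A => t.2.1.1).subtype_mk _
        have k2 : IsInducing fun t : A => (⟨p t.1 i, t.2.1.2⟩ : E.1) := by
          refine IsInducing.of_comp k1 hq1.domRestrict ?_
          convert IsInducing.subtypeVal (t := A) using 1
          funext t
          exact t.2.2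
        exact hD.ind (IsInducing.subtypeVal.comp k2)
      · choose E hE hpE using fun i => d3 (p t i) (mem_univ _)
        by_contra hn
        obtain ⟨f, h, l1, l2, l3⟩ := link t (⋃ i, range (q ⟨E i, hE i⟩ (p t i)))
          (finite_iUnion fun i => finite_range _) (fun hh => by
            obtain ⟨i, j, hj⟩ := mem_iUnion.1 hh
            exact hn (mem_iUnion.2 ⟨(i, ⟨⟨E i, hE i⟩, j⟩), ⟨ht, hpE i⟩, hj⟩))
        have := hc t ht f fun i => (l3 _).trans_lt ((hc' ⟨E i, hE i⟩ _ (hpE i) h fun j => by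
          rw [l2 _ (mem_iUnion.2 ⟨i, j, rfl⟩)]; simpa using hδ _).trans_lt (hr' _))
        linarith
    · obtain ⟨C, hC, ht⟩ := c3 t (mem_univ t)
      exact mem_iUnion.2 ⟨⟨C, hC⟩, ht⟩
  obtain ⟨𝒞, c1, c2, c3⟩ := this
  exact cst c1 c2 fun t => c3 t (mem_univ t)

variable {X : Type}

noncomputable def rp (q : ℚ × ℚ) (u : ℝ) : ℝ := max 0 (min 1 (q.1 * u + q.2))

theorem rp_cont (q : ℚ × ℚ) : Continuous (rp q) := by unfold rp; fun_prop

noncomputable def Ops (g a b : X → ℝ) : Set (X → ℝ) :=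
  {fun x => max (a x) (b x), fun x => min (a x) (b x), fun x => g x + a x * (b x - g x)} ∪
    range fun q : ℚ × ℚ => fun x => rp q (Real.arctan (a x))

theorem ops_count (g a b : X → ℝ) : (Ops g a b).Countable :=
  (toFinite _).countable.union (countable_range _)

theorem ops_cont [TopologicalSpace X] {g a b h : X → ℝ} (hg : Continuous g) (ha : Continuous a)
    (hb : Continuous b) (hh : h ∈ Ops g a b) : Continuous h := by
  rcases hh with (rfl | rfl | rfl) | ⟨q, rfl⟩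
  · fun_prop
  · fun_prop
  · fun_prop
  · exact (rp_cont q).comp (Real.continuous_arctan.comp ha)

def Alg (e : ℕ → X → ℝ) (g : ℕ) : Prop := ∀ j k, Ops (e g) (e j) (e k) ⊆ range e

noncomputable def io (e : ℕ → X → ℝ) (x : X) : ℕ → ℝ := fun j => Real.arctan (e j x)

noncomputable def vl (e : ℕ → X → ℝ) (j : ℕ) (s : range (io e)) : ℝ := Real.tan (s.1 j)

theorem vl_io (e : ℕ → X → ℝ) (j : ℕ) {x : X} {s : range (io e)} (h : io e x = s.1) :
    vl e j s = e j x := by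
  rw [vl, ← h]; exact Real.tan_arctan _

theorem vl_cont (e : ℕ → X → ℝ) (j : ℕ) : Continuous (vl e j) := by
  refine continuous_iff_continuousAt.2 fun s => ContinuousAt.comp (g := Real.tan)
    (f := fun s : range (io e) => s.1 j) (Real.continuousAt_tan.2 ?_)
    ((continuous_apply j).comp continuous_subtype_val).continuousAt
  obtain ⟨x, hx⟩ := s.2
  rw [← hx]
  exact (Real.cos_arctan_pos _).ne'

instance (e : ℕ → X → ℝ) : CompactSpace (closure (range (io e))) := by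
  refine isCompact_iff_compactSpace.1 ((isCompact_univ_pi fun _ : ℕ =>
    isCompact_Icc (a := -(Real.pi / 2)) (b := Real.pi / 2)).closure_of_subset ?_)
  rintro _ ⟨x, rfl⟩ j -
  exact ⟨(Real.neg_pi_div_two_lt_arctan _).le, (Real.arctan_lt_pi_div_two _).le⟩

def MM (e : ℕ → X → ℝ) (M : (ℕ → ℝ) → ℝ) : Prop :=
  Continuous M ∧ (∀ z, 0 ≤ M z ∧ M z ≤ 1) ∧ ∃ j, ∀ x, e j x = M (io e x)

variable {e : ℕ → X → ℝ} {g : ℕ}

theorem mm_rp (h : Alg e g) (q : ℚ × ℚ) (j : ℕ) : MM e fun z => rp q (z j) := by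
  obtain ⟨k, hk⟩ := h j j (Or.inr ⟨q, rfl⟩)
  exact ⟨(rp_cont q).comp (continuous_apply j),
    fun z => ⟨le_max_left _ _, max_le zero_le_one (min_le_left _ _)⟩, k, fun x => by rw [hk]; rfl⟩

theorem mm_max (h : Alg e g) {M N : (ℕ → ℝ) → ℝ} (hM : MM e M) (hN : MM e N) :
    MM e fun z => max (M z) (N z) := by
  obtain ⟨a1, a2, j, a3⟩ := hM
  obtain ⟨b1, b2, k, b3⟩ := hN
  obtain ⟨l, hl⟩ := h j k (Or.inl (Or.inl rfl))
  exact ⟨a1.max b1, fun z => ⟨le_max_of_le_left (a2 z).1, max_le (a2 z).2 (b2 z).2⟩, l,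
    fun x => by simp only [hl, a3, b3]⟩

theorem mm_min (h : Alg e g) {M N : (ℕ → ℝ) → ℝ} (hM : MM e M) (hN : MM e N) :
    MM e fun z => min (M z) (N z) := by
  obtain ⟨a1, a2, j, a3⟩ := hM
  obtain ⟨b1, b2, k, b3⟩ := hN
  obtain ⟨l, hl⟩ := h j k (Or.inl (Or.inr (Or.inl rfl)))
  exact ⟨a1.min b1, fun z => ⟨le_min (a2 z).1 (b2 z).1, min_le_of_left_le (a2 z).2⟩, l,
    fun x => by simp only [hl, a3, b3]⟩

theorem ex_q {u v : ℝ} (h : u ≠ v) : ∃ q : ℚ × ℚ, 1 < q.1 * u + q.2 ∧ q.1 * v + q.2 < 0 := by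
  obtain ⟨a, ha⟩ : ∃ a : ℚ, 1 < a * (u - v) := by
    rcases lt_or_gt_of_ne h with h | h
    · obtain ⟨a, ha⟩ := exists_rat_lt (1 / (u - v))
      exact ⟨a, (lt_div_iff_of_neg (by linarith)).1 ha⟩
    · obtain ⟨a, ha⟩ := exists_rat_gt (1 / (u - v))
      exact ⟨a, (div_lt_iff₀ (by linarith)).1 ha⟩
  obtain ⟨b, h1, h2⟩ := exists_rat_btwn (show 1 - a * u < -(a * v) by linarith)
  exact ⟨(a, b), by simp only; linarith, by simp only; linarith⟩

theorem sep (h : Alg e g) {B B' : Set (ℕ → ℝ)} (hB : IsCompact B) (hB' : IsCompact B')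
    (hd : ∀ b ∈ B, b ∉ B') : ∃ M, MM e M ∧ (∀ b ∈ B, ∀ᶠ z in 𝓝 b, M z = 1) ∧
      ∀ b ∈ B', ∀ᶠ z in 𝓝 b, M z = 0 := by
  refine hB.induction_on (p := fun A => ∃ M, MM e M ∧ (∀ b ∈ A, ∀ᶠ z in 𝓝 b, M z = 1) ∧
      ∀ b ∈ B', ∀ᶠ z in 𝓝 b, M z = 0) ⟨_, mm_rp h (0, 0) 0, by simp, by simp [rp]⟩
    (fun s t hst ⟨M, a, b, c⟩ => ⟨M, a, fun x hx => b x (hst hx), c⟩) ?_ fun b hb => ?_
  · rintro s t ⟨M, a1, a2, a3⟩ ⟨N, b1, b2, b3⟩
    refine ⟨_, mm_max h a1 b1, ?_, fun c hc => ?_⟩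
    · rintro c (hc | hc)
      · exact (a2 c hc).mono fun z hz => by rw [hz]; exact max_eq_left (b1.2.1 z).2
      · exact (b2 c hc).mono fun z hz => by rw [hz]; exact max_eq_right (a1.2.1 z).2
    · filter_upwards [a3 c hc, b3 c hc] with z h1 h2 using by rw [h1, h2, max_self]
  obtain ⟨M, a1, a2, a3⟩ := hB'.induction_on (p := fun A => ∃ M, MM e M ∧
      (∀ᶠ z in 𝓝 b, M z = 1) ∧ ∀ b ∈ A, ∀ᶠ z in 𝓝 b, M z = 0)
    ⟨_, mm_rp h (0, 1) 0, by simp [rp], by simp⟩
    (fun s t hst ⟨M, a, b, c⟩ => ⟨M, a, b, fun x hx => c x (hst hx)⟩) (by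
      rintro s t ⟨M, a1, a2, a3⟩ ⟨N, b1, b2, b3⟩
      refine ⟨_, mm_min h a1 b1, ?_, ?_⟩
      · filter_upwards [a2, b2] with z h1 h2 using by rw [h1, h2, min_self]
      · rintro c (hc | hc)
        · exact (a3 c hc).mono fun z hz => by rw [hz]; exact min_eq_left (b1.2.1 z).1
        · exact (b3 c hc).mono fun z hz => by rw [hz]; exact min_eq_right (a1.2.1 z).1) (by
      intro c hc
      obtain ⟨j, hj⟩ := Function.ne_iff.1 (show b ≠ c from fun e => hd b hb (e ▸ hc))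
      obtain ⟨q, h1, h2⟩ := ex_q hj
      have hcont : Continuous fun z : ℕ → ℝ => (q.1 : ℝ) * z j + q.2 := by fun_prop
      refine ⟨{z | q.1 * z j + q.2 < 0}, mem_nhdsWithin_of_mem_nhds
        ((isOpen_lt hcont continuous_const).mem_nhds h2), _, mm_rp h q j, ?_, fun c' hc' => ?_⟩
      · filter_upwards [(isOpen_lt continuous_const hcont).mem_nhds h1] with z hz
        rw [rp, min_eq_left (le_of_lt hz)]; simp
      · filter_upwards [(isOpen_lt hcont continuous_const).mem_nhds hc'] with z hz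
        exact max_eq_left (min_le_of_right_le (le_of_lt hz)))
  exact ⟨{c | ∀ᶠ z in 𝓝 c, M z = 1}, mem_nhdsWithin_of_mem_nhds a2.eventually_nhds, M, a1,
    fun c hc => hc, a3⟩

def Wit (n : ℕ) {k m : ℕ} (a : Fin k → X → ℝ) (b : Fin m → X → ℝ) : Prop :=
  (∀ j, ∃ i, ∀ x, 0 < b j x → 1 / 2 < a i x) ∧ (∀ x, ∃ j, 1 ≤ b j x) ∧
    ∀ s : Finset (Fin m), s.card = n + 2 → ∀ x, ∃ j ∈ s, b j x ≤ 0

theorem dimK {n : ℕ} (h : Alg e g) (hw : ∀ k (a : Fin k → ℕ), (∀ x, ∃ i, 1 / 2 < e (a i) x) →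
    ∃ m, ∃ b : Fin m → ℕ, Wit n (fun i => e (a i)) fun j => e (b j)) :
    D n (closure (range (io e))) := by
  intro k U hU hc
  obtain ⟨V, k1, -, k3⟩ := exists_iUnion_eq_closure_subset hU (fun x => toFinite _)
    (eq_univ_of_forall fun x => mem_iUnion.2 (hc x))
  choose M m1 m2 m3 using fun i => sep h
    ((isClosed_closure (s := V i)).isCompact.image continuous_subtype_val)
    ((hU i).isClosed_compl.isCompact.image continuous_subtype_val) (by
      rintro _ ⟨c, hc, rfl⟩ ⟨c', hc', he⟩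
      exact hc' (Subtype.ext he ▸ k3 i hc))
  choose a ha using fun i => (m1 i).2.2
  obtain ⟨m, b, w1, w2, w3⟩ := hw k a fun x => by
    obtain ⟨i, hi⟩ := mem_iUnion.1 (k1 ▸ mem_univ _ :
      (⟨io e x, subset_closure (mem_range_self x)⟩ : closure (range (io e))) ∈ ⋃ i, V i)
    refine ⟨i, ?_⟩
    rw [ha, (m2 i _ ⟨_, subset_closure hi, rfl⟩).self_of_nhds]; norm_num
  have cl : ∀ {A : Set (ℕ → ℝ)}, IsClosed A → (∀ x, io e x ∈ A) →
      ∀ c : closure (range (io e)), c.1 ∈ A := fun hA hx c =>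
    closure_minimal (range_subset_iff.2 hx) hA c.2
  refine merge (V := fun j => {c | 0 < c.1 (b j)})
    (fun j => isOpen_lt continuous_const ((continuous_apply _).comp continuous_subtype_val)) (fun j => ?_) (fun c => ?_)
    fun s hs c => ?_
  · obtain ⟨i, hi⟩ := w1 j
    refine ⟨i, fun c hc => ?_⟩
    by_contra hn
    have h0 := (m3 i _ ⟨c, hn, rfl⟩).self_of_nhds
    rcases cl (A := {z | z (b j) ≤ 0} ∪ {z | 1 / 2 ≤ M i z})
      ((isClosed_le (continuous_apply _) continuous_const).union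
        (isClosed_le continuous_const (m1 i).1)) (fun x => by
        by_cases hx : 0 < e (b j) x
        · exact Or.inr (by have := hi x hx; simp only [ha] at this; exact this.le)
        · exact Or.inl (Real.arctan_le_zero.2 (not_lt.1 hx))) c with h' | h'
    · exact absurd (show 0 < c.1 (b j) from hc) (not_lt.2 h')
    · rw [mem_ofPred_eq, h0] at h'; norm_num at h'
  · obtain ⟨j, hj⟩ := mem_iUnion.1 (cl (A := ⋃ j, {z | Real.arctan 1 ≤ z (b j)})
      (isClosed_iUnion_of_finite fun j => isClosed_le continuous_const (continuous_apply _))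
      (fun x => by
        obtain ⟨j, hj⟩ := w2 x
        exact mem_iUnion.2 ⟨j, Real.arctan_mono hj⟩) c)
    exact ⟨j, (Real.arctan_pos.2 one_pos).trans_le hj⟩
  · obtain ⟨j, hj, hj'⟩ := mem_iUnion₂.1 (cl (A := ⋃ j ∈ s, {z | z (b j) ≤ 0})
      (isClosed_biUnion_finset fun j _ => isClosed_le (continuous_apply _) continuous_const)
      (fun x => by
        obtain ⟨j, hj, hj'⟩ := w3 s hs x
        exact mem_biUnion hj (Real.arctan_le_zero.2 hj')) c)
    exact ⟨j, hj, fun hc => absurd (show 0 < c.1 (b j) from hc) (not_lt.2 hj')⟩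

end Pool.Agent.H17.Dm
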