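import Mathlib
import Pool.Agent.H17.W1

set_option autoImplicit false

namespace Pool.Agent.H17.SubML
open Set Filter Pool.Agent.H17.W1

theorem maxpw {α : Type*} (r : α → α → Prop) (hs : ∀ a b, r a b → r b a) :
    ∃ M : Set α, M.Pairwise r ∧ ∀ x, x ∉ M → ∃ y ∈ M, ¬ r x y := by
  obtain ⟨M, hM⟩ := zorn_subset {M : Set α | M.Pairwise r} fun c hc hch =>
    ⟨⋃₀ c, (pairwise_sUnion hch.directedOn).2 hc, fun s hs => subset_sUnion_of_mem hs⟩
  refine ⟨M, hM.prop, fun x hx => ?_⟩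
  by_contra hn
  push Not at hn
  have : (insert x M).Pairwise r :=
    hM.prop.insert fun y hy _ => ⟨hn y hy, hs _ _ (hn y hy)⟩
  exact hx (hM.mem_of_prop_insert this)

/-- Pressing down. -/
theorem press (P : W → W → Prop) (h : ∀ a, (∃ c, c < a) → ∃ b < a, P a b) :
    ∃ b, ∀ k, ∃ a, k < a ∧ P a b := by
  by_contra hn
  push Not at hn
  choose k hk using hn
  have h1 : ∀ x : W, ∃ y, x < y ∧ ∀ b ≤ x, k b < y := by
    intro x
    obtain ⟨y, hy⟩ := bound (((cIic x).image k).insert x)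
    exact ⟨y, hy x (mem_insert _ _), fun b hb => hy _ (mem_insert_of_mem _ ⟨b, hb, rfl⟩)⟩
  choose s sx sk using h1
  obtain ⟨x0⟩ : Nonempty W := inferInstance
  let x : ℕ → W := fun n => s^[n] x0
  have hx : ∀ n, x (n + 1) = s (x n) := fun n => Function.iterate_succ_apply' s n x0
  obtain ⟨u, hu⟩ := bound (countable_range x)
  obtain ⟨a, ha, hmin⟩ := wellFounded_lt.has_min {a : W | ∀ n, x n ≤ a}
    ⟨u, fun n => (hu _ ⟨n, rfl⟩).le⟩
  obtain ⟨b, hb, hP⟩ := h a ⟨x 0, (sx (x 0)).trans_le (hx 0 ▸ ha 1)⟩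
  have : ∃ n, b < x n := by
    by_contra hc
    push Not at hc
    exact hmin b hc hb
  obtain ⟨n, hn⟩ := this
  exact hk b a ((sk (x n) b hn.le).trans_le (hx n ▸ ha (n + 1))) hP

theorem fin_bound {t : Set W} (ht : t.Finite) {a c : W} (hc : c < a) (h : ∀ x ∈ t, x < a) :
    ∃ b < a, ∀ x ∈ t, x ≤ b := by
  obtain ⟨b, hb, hm⟩ := (ht.insert c).exists_maximal (insert_nonempty _ _)
  refine ⟨b, ?_, fun x hx => ?_⟩
  · rcases hb with rfl | hb
    · exact hc
    · exact h b hb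
  · by_contra hlt
    exact hlt (hm (mem_insert_of_mem _ hx) (not_le.1 hlt).le)

theorem core (F : ℕ → W → Set (Ultrafilter W)) (hF : ∀ n a, (F n a).Finite) :
    ∃ B : Set W, ∀ n k, ∃ a, k < a ∧ ∀ u ∈ F n a, (B ∈ u ↔ Iio a ∈ u) := by
  classical
  have h1 : ∀ n, ∃ b, ∀ k, ∃ a, k < a ∧
      ∀ u ∈ F n a, Iio a ∈ u → Iio b ∈ u ∨ ∀ f < a, Ici f ∈ u := by
    intro n
    refine press (fun a b => ∀ u ∈ F n a, Iio a ∈ u → Iio b ∈ u ∨ ∀ f < a, Ici f ∈ u) ?_
    rintro a ⟨c, hc⟩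
    have : ∀ u : Ultrafilter W, ∃ f < a, Iio f ∈ u ∨ ∀ f < a, Ici f ∈ u := by
      intro u
      by_cases h : ∀ f < a, Ici f ∈ u
      · exact ⟨c, hc, Or.inr h⟩
      · push Not at h
        obtain ⟨f, hf, hu⟩ := h
        exact ⟨f, hf, Or.inl (by simpa using Ultrafilter.compl_mem_iff_notMem.2 hu)⟩
    choose f fa hf using this
    obtain ⟨b, hb, hm⟩ := fin_bound ((hF n a).image f) hc (by rintro _ ⟨u, -, rfl⟩; exact fa u)
    refine ⟨b, hb, fun u hu _ => (hf u).imp_left fun h => ?_⟩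
    exact mem_of_superset h (Iio_subset_Iio (hm _ ⟨u, hu, rfl⟩))
  choose b0 hb0 using h1
  obtain ⟨β, hβ⟩ := bound (countable_range b0)
  choose A hA1 hA2 using fun n k => hb0 n (max k β)
  have h2 : ∀ u : Ultrafilter W, ∃ c, (∃ s ∈ u, s.Countable) → Iio c ∈ u := by
    intro u
    by_cases h : ∃ s ∈ u, s.Countable
    · obtain ⟨s, hs, hc⟩ := h
      obtain ⟨c, hc⟩ := bound hc
      exact ⟨c, fun _ => mem_of_superset hs hc⟩
    · exact ⟨β, fun h' => absurd h' h⟩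
  choose c hc using h2
  have h3 : ∀ k, ∃ y, ∀ n, A n k < y ∧ ∀ u ∈ F n (A n k), c u < y := by
    intro k
    obtain ⟨y, hy⟩ := bound ((countable_range fun n => A n k).union
      (countable_iUnion fun n => ((hF n (A n k)).image c).countable))
    exact ⟨y, fun n => ⟨hy _ (Or.inl ⟨n, rfl⟩),
      fun u hu => hy _ (Or.inr (mem_iUnion.2 ⟨n, u, hu, rfl⟩))⟩⟩
  choose h hh using h3
  have kA : ∀ n k, k < A n k := fun n k => (le_max_left _ _).trans_lt (hA1 n k)
  have βA : ∀ n k, β < A n k := fun n k => (le_max_right _ _).trans_lt (hA1 n k)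
  obtain ⟨Γ, Γp, Γm⟩ := maxpw (fun x y : W => h x ≤ y ∨ h y ≤ x) fun a b => Or.symm
  have Γu : ¬ Γ.Countable := by
    intro hc
    obtain ⟨y, hy⟩ := bound (hc.union (hc.image h))
    by_cases hyΓ : y ∈ Γ
    · exact lt_irrefl _ (hy y (Or.inl hyΓ))
    · obtain ⟨z, hz, hr⟩ := Γm y hyΓ
      exact hr (Or.inr (hy _ (Or.inr ⟨z, hz, rfl⟩)).le)
  have he : ∃ e : (ℕ × W) × W → W, Function.Injective e ∧ ∀ j, e j ∈ Γ := by
    have : Cardinal.mk ((ℕ × W) × W) ≤ Cardinal.mk Γ := by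
      have h1 : Cardinal.aleph 1 ≤ Cardinal.mk Γ := by
        rw [← Cardinal.succ_aleph0, Order.succ_le_iff, ← not_le,
          Cardinal.le_aleph0_iff_set_countable]
        exact Γu
      refine le_trans (le_of_eq ?_) h1
      simp [mkW]
    obtain ⟨e⟩ := this
    exact ⟨fun j => e j, fun i j hij => e.injective (Subtype.ext hij), fun j => (e j).2⟩
  obtain ⟨e, ei, eΓ⟩ := he
  let I : (ℕ × W) × W → Set W := fun j => Ico (e j) (A j.1.1 (e j))
  have hI : ∀ i j, i ≠ j → h (e i) ≤ e j ∨ h (e j) ≤ e i :=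
    fun i j hij => Γp (eΓ i) (eΓ j) (ei.ne hij)
  let B : (W → W) → Set W := fun g => Iio β ∪ ⋃ p : ℕ × W, I (p, g p.2)
  have hB : ∀ g g' : W → W, {a | g a = g' a}.Countable → (B g ∩ B g').Countable := by
    intro g g' hg
    refine ((cIio β).union ((countable_univ.prod hg).biUnion
      fun (p : ℕ × W) _ => cIio (A p.1 (e (p, g p.2))))).mono ?_
    rintro x ⟨hx | hx, hx' | hx'⟩
    · exact Or.inl hx
    · exact Or.inl hx
    · exact Or.inl hx'
    · obtain ⟨p, hp⟩ := mem_iUnion.1 hx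
      obtain ⟨q, hq⟩ := mem_iUnion.1 hx'
      have hpq : (p, g p.2) = (q, g' q.2) := by
        by_contra hne
        rcases hI _ _ hne with h' | h'
        · exact absurd ((hp.2.trans (hh _ _).1).trans_le (h'.trans hq.1)) (lt_irrefl _)
        · exact absurd ((hq.2.trans (hh _ _).1).trans_le (h'.trans hp.1)) (lt_irrefl _)
      obtain ⟨rfl, h2⟩ := Prod.mk.inj hpq
      exact Or.inr (mem_biUnion (x := p) ⟨mem_univ _, h2⟩ hp.2)
  obtain ⟨M, Mp, Mm⟩ := maxpw (fun g g' : W → W => {a | g a = g' a}.Countable)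
    fun g g' hg => by simpa [eq_comm] using hg
  have hg : ∃ g, ∀ n a, ∀ u ∈ F n a, B g ∈ u → ∃ s ∈ u, s.Countable := by
    by_contra hn
    push Not at hn
    let Ma : W → Set (W → W) := fun a =>
      ⋃ n, ⋃ u ∈ F n a, {g | g ∈ M ∧ B g ∈ u ∧ ∀ s ∈ u, ¬ s.Countable}
    have Mc : ∀ a, (Ma a).Countable := by
      intro a
      refine countable_iUnion fun n => (hF n a).countable.biUnion fun u _ =>
        Set.Subsingleton.countable ?_
      intro g hg g' hg'
      by_contra hne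
      exact hg.2.2 _ (inter_mem hg.2.1 hg'.2.1) (hB g g' (Mp hg.1 hg'.1 hne))
    have hd : ∀ a, ∃ d, ∀ x ≤ a, ∀ g ∈ Ma x, g a < d := by
      intro a
      obtain ⟨d, hd⟩ := bound (((cIic a).biUnion fun x _ => Mc x).image fun g => g a)
      exact ⟨d, fun x hx g hg => hd _ ⟨g, mem_biUnion hx hg, rfl⟩⟩
    choose d hd using hd
    have hM : ∀ g ∈ M, ∃ x, g ∈ Ma x := by
      intro g hg
      obtain ⟨n, a, u, hu, h1, h2⟩ := hn g
      exact ⟨a, mem_iUnion.2 ⟨n, mem_biUnion hu ⟨hg, h1, h2⟩⟩⟩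
    by_cases hdM : d ∈ M
    · obtain ⟨x, hx⟩ := hM d hdM
      exact lt_irrefl _ (hd x x le_rfl d hx)
    · obtain ⟨g, hg, hr⟩ := Mm d hdM
      obtain ⟨x, hx⟩ := hM g hg
      refine hr ((cIio x).mono fun a ha => ?_)
      by_contra hlt
      exact (hd a x (not_lt.1 hlt) g hx).ne' ha
  obtain ⟨g, hg⟩ := hg
  refine ⟨B g, fun n k => ?_⟩
  have : ∃ a, k < e ((n, a), g a) := by
    by_contra hn
    push Not at hn
    have hinj : Function.Injective fun a => e ((n, a), g a) := fun a a' haa =>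
      (Prod.mk.inj (Prod.mk.inj (ei haa)).1).2
    exact not_countable_univ (((cIic k).preimage_of_injOn hinj.injOn).mono fun a _ => hn a)
  obtain ⟨a, ha⟩ := this
  set j : (ℕ × W) × W := ((n, a), g a) with hj
  refine ⟨A n (e j), ha.trans (kA _ _), fun u hu => ⟨fun hBu => ?_, fun hu' => ?_⟩⟩
  · refine mem_of_superset (inter_mem hBu (hc u (hg n _ u hu hBu))) ?_
    rintro x ⟨hx | hx, hxc⟩
    · exact lt_trans hx (βA _ _)
    · obtain ⟨p, hp⟩ := mem_iUnion.1 hx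
      by_cases hpj : (p, g p.2) = j
      · rw [hpj] at hp
        exact hp.2
      · rcases hI _ _ hpj with h' | h'
        · exact ((hp.2.trans (hh _ _).1).trans_le h').trans (kA _ _)
        · exact absurd ((lt_trans hxc ((hh _ n).2 u hu)).trans_le (h'.trans hp.1)) (lt_irrefl _)
  · rcases hA2 n _ u hu hu' with h' | h'
    · exact mem_of_superset h' fun x hx => Or.inl (lt_trans hx (hβ _ ⟨n, rfl⟩))
    · refine mem_of_superset (inter_mem (h' _ (kA n (e j))) hu') fun x hx => Or.inr ?_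
      exact mem_iUnion.2 ⟨(n, a), hx⟩

end Pool.Agent.H17.SubML
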