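import Pool.Agent.H17.TE2
import Pool.Agent.H17.SubML

set_option autoImplicit false
open Set Topology Filter TopologicalSpace

namespace Pool.Agent.H17.TE

theorem closeoff {Γ : Type} (F : Finset Γ → Set Γ) (hF : ∀ R, (F R).Countable) :
    ∃ S : Set Γ, S.Countable ∧ ∀ R : Finset Γ, (R : Set Γ) ⊆ S → F R ⊆ S := by
  let nx : Set Γ → Set Γ := fun S => S ∪ ⋃ R ∈ {R : Finset Γ | (R : Set Γ) ⊆ S}, F R
  let s : ℕ → Set Γ := fun n => nx^[n] ∅
  have hs : ∀ n, s (n + 1) = nx (s n) := fun n => Function.iterate_succ_apply' _ _ _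
  have hc : ∀ n, (s n).Countable := by
    intro n
    induction n with
    | zero => exact countable_empty
    | succ n ih =>
      rw [hs]
      refine ih.union (Countable.biUnion ?_ fun R _ => hF R)
      exact ((countable_ofPred_finite_subset ih).preimage
        (f := fun R : Finset Γ => (R : Set Γ)) Finset.coe_injective).mono
        fun R hR => And.intro R.finite_toSet hR
  have hm : Monotone s := monotone_nat_of_le_succ fun n => by rw [hs]; exact subset_union_left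
  refine ⟨⋃ n, s n, countable_iUnion hc, fun R hR => ?_⟩
  obtain ⟨n, hn⟩ : ∃ n, (R : Set Γ) ⊆ s n := by
    have : ∀ᶠ n in atTop, ∀ a ∈ R, a ∈ s n := by
      refine (Filter.eventually_all_finset R).2 fun a ha => ?_
      obtain ⟨n, hn⟩ := mem_iUnion.1 (hR ha)
      filter_upwards [eventually_ge_atTop n] with k hk using hm hk hn
    exact this.exists
  refine Subset.trans ?_ (subset_iUnion s (n + 1))
  rw [hs]
  exact fun a ha => Or.inr (mem_biUnion (show R ∈ {R : Finset Γ | (R : Set Γ) ⊆ s n} from hn) ha)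

/-- `q` depends only on the coordinates in `S` -/
def Dep {Γ Y Z : Type} (S : Set Γ) (q : (Γ → Y) → Z) : Prop :=
  ∀ t t', (∀ γ ∈ S, t γ = t' γ) → q t = q t'

/-- two slabs with common root inside the two sets -/
def Val {Γ Y : Type} (R : Finset Γ) (ρ : Γ → Y) (O0 O1 : Set (Γ → Y)) (M : Finset Γ)
    (u v : Γ → Y) : Prop :=
  (∀ γ ∈ M, γ ∉ R) ∧ (∀ t, (∀ γ ∈ R, t γ = ρ γ) → (∀ γ ∈ M, t γ = u γ) → t ∈ O0) ∧
    ∀ t, (∀ γ ∈ R, t γ = ρ γ) → (∀ γ ∈ M, t γ = v γ) → t ∈ O1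

theorem big {Γ Y D : Type} [TopologicalSpace Y] [SeparableSpace Y] [Nonempty Y] [Countable D]
    (𝒱 : D → Set (Γ → Y) → Set (Γ → Y) → Prop)
    (h : ∀ S : Set Γ, S.Countable → ∃ d O0 O1, 𝒱 d O0 O1 ∧ IsOpen O0 ∧ IsOpen O1 ∧
      ∃ u ∈ O0, ∃ v ∈ O1, ∀ γ ∈ S, u γ = v γ) :
    ∃ d R ρ, ∀ S : Set Γ, S.Countable → ∃ O0 O1 M u v, 𝒱 d O0 O1 ∧ Val R ρ O0 O1 M u v ∧
      ∀ γ ∈ M, γ ∉ S := by
  classical
  by_contra hn
  push Not at hn
  choose T hT hT' using hn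
  let ρ : (R : Finset Γ) → (R → ℕ) → Γ → Y := fun R a γ =>
    if h : γ ∈ R then denseSeq Y (a ⟨γ, h⟩) else denseSeq Y 0
  obtain ⟨S, hS, hcl⟩ := closeoff (fun R => ⋃ d, ⋃ a : R → ℕ, T d R (ρ R a))
    (fun R => countable_iUnion fun d => countable_iUnion fun a => hT _ _ _)
  obtain ⟨d, O0, O1, hV, h0, h1, u, hu, v, hv, huv⟩ := h S hS
  obtain ⟨I0, w0, hw0, hI0⟩ := isOpen_pi_iff.1 h0 u hu
  obtain ⟨I1, w1, hw1, hI1⟩ := isOpen_pi_iff.1 h1 v hv
  have : ∀ γ, ∃ n, γ ∈ S → (γ ∈ I0 → denseSeq Y n ∈ w0 γ) ∧ (γ ∈ I1 → denseSeq Y n ∈ w1 γ) := by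
    intro γ
    by_cases hγ : γ ∈ S
    · have ho : IsOpen ({y | γ ∈ I0 → y ∈ w0 γ} ∩ {y | γ ∈ I1 → y ∈ w1 γ}) := by
        refine IsOpen.inter ?_ ?_
        · by_cases h : γ ∈ I0
          · simpa [h] using (hw0 γ h).1
          · simp [h]
        · by_cases h : γ ∈ I1
          · simpa [h] using (hw1 γ h).1
          · simp [h]
      obtain ⟨n, hn⟩ := (denseRange_denseSeq Y).exists_mem_open ho
        ⟨u γ, fun h => (hw0 γ h).2, fun h => huv γ hγ ▸ (hw1 γ h).2⟩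
      exact ⟨n, fun _ => hn⟩
    · exact ⟨0, fun h => absurd h hγ⟩
  choose a ha using this
  let R := (I0 ∪ I1).filter (· ∈ S)
  let M := (I0 ∪ I1).filter (· ∉ S)
  have hR : (R : Set Γ) ⊆ S := fun γ hγ => (Finset.mem_filter.1 (Finset.mem_coe.1 hγ)).2
  obtain ⟨γ, hγ, hγT⟩ := hT' d R (ρ R fun γ => a γ) O0 O1 M u v hV ⟨fun γ h h' =>
    (Finset.mem_filter.1 h).2 (Finset.mem_filter.1 h').2, fun t htR htM => hI0 fun γ hγ => by
      have hγ' : γ ∈ I0 ∪ I1 := Finset.mem_union_left _ hγ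
      by_cases hS : γ ∈ S
      · have hr : γ ∈ R := Finset.mem_filter.2 ⟨hγ', hS⟩
        rw [htR γ hr]; simp only [ρ, dif_pos hr]; exact (ha γ hS).1 hγ
      · rw [htM γ (Finset.mem_filter.2 ⟨hγ', hS⟩)]; exact (hw0 γ hγ).2,
    fun t htR htM => hI1 fun γ hγ => by
      have hγ' : γ ∈ I0 ∪ I1 := Finset.mem_union_right _ hγ
      by_cases hS : γ ∈ S
      · have hr : γ ∈ R := Finset.mem_filter.2 ⟨hγ', hS⟩
        rw [htR γ hr]; simp only [ρ, dif_pos hr]; exact (ha γ hS).2 hγ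
      · rw [htM γ (Finset.mem_filter.2 ⟨hγ', hS⟩)]; exact (hw1 γ hγ).2⟩
  exact (Finset.mem_filter.1 hγ).2
    (hcl R hR (mem_iUnion.2 ⟨d, mem_iUnion.2 ⟨fun γ => a γ, hγT⟩⟩))

theorem sat_open {Γ Y : Type} [TopologicalSpace Y] (S : Set Γ) {B : Set (Γ → Y)}
    (hB : IsOpen B) : IsOpen {u : Γ → Y | ∃ v ∈ B, ∀ γ ∈ S, u γ = v γ} := by
  classical
  refine isOpen_iff_forall_mem_open.2 ?_
  rintro u ⟨v, hv, huv⟩
  have hc : Continuous fun w : Γ → Y => fun γ => if γ ∈ S then w γ else v γ := by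
    refine continuous_pi fun γ => ?_
    by_cases h : γ ∈ S
    · simp only [if_pos h]; exact continuous_apply γ
    · simp only [if_neg h]; exact continuous_const
  refine ⟨(fun w : Γ → Y => fun γ => if γ ∈ S then w γ else v γ) ⁻¹' B,
    fun w hw => ⟨_, hw, fun γ hγ => by simp only [if_pos hγ]⟩, hB.preimage hc, ?_⟩
  have : (fun γ => if γ ∈ S then u γ else v γ) = v := by
    funext γ
    by_cases h : γ ∈ S
    · simp only [if_pos h, huv γ h]
    · simp only [if_neg h]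
  show (fun γ => if γ ∈ S then u γ else v γ) ∈ B
  rw [this]; exact hv

theorem cube_of_not_dep {Γ Y X I : Type} [TopologicalSpace Y] [SeparableSpace Y] [Nonempty Y]
    [TopologicalSpace X] [T2Space X] (hI : Cardinal.mk I = Cardinal.aleph 1)
    {q : (Γ → Y) → X} (hq : Continuous q) (hn : ∀ S : Set Γ, S.Countable → ¬ Dep S q) :
    ∃ h : (I → Bool) → X, IsEmbedding h := by
  classical
  obtain ⟨-, R, ρ, hb⟩ := big (Γ := Γ) (Y := Y) (D := Unit)
    (fun _ O0 O1 => ∀ a ∈ O0, ∀ b ∈ O1, q a ≠ q b) (by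
      intro S hS
      have := hn S hS
      simp only [Dep] at this
      push Not at this
      obtain ⟨t, t', h, hne⟩ := this
      obtain ⟨W1, W2, hW1, hW2, m1, m2, hd⟩ := t2_separation hne
      exact ⟨(), q ⁻¹' W1, q ⁻¹' W2, fun a ha b hb e => disjoint_left.1 hd ha
        (by rw [e]; exact hb), hW1.preimage hq, hW2.preimage hq, t, m1, t', m2, h⟩)
  let A := {z : Finset Γ × (Γ → Y) × (Γ → Y) // ∃ O0 O1, (∀ a ∈ O0, ∀ b ∈ O1, q a ≠ q b) ∧
    Val R ρ O0 O1 z.1 z.2.1 z.2.2}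
  obtain ⟨F, hF, hmax⟩ := SubML.maxpw (fun a b : A => Disjoint a.1.1 b.1.1)
    (fun a b h => h.symm)
  have hunc : ¬ F.Countable := by
    intro hc
    obtain ⟨O0, O1, M, u, v, h1, h2, h3⟩ := hb (⋃ a ∈ F, (a.1.1 : Set Γ))
      (hc.biUnion fun a _ => a.1.1.countable_toSet)
    let z : A := ⟨(M, u, v), O0, O1, h1, h2⟩
    have hd : ∀ y ∈ F, Disjoint z.1.1 y.1.1 := fun y hy =>
      Finset.disjoint_left.2 fun γ hγ hγ' => h3 γ hγ (mem_biUnion hy hγ')
    by_cases hz : z ∈ F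
    · have hM : M = ∅ := (Finset.disjoint_self_iff_empty _).1 (hd z hz)
      exact h1 ρ (h2.2.1 ρ (fun _ _ => rfl) (by simp [hM])) ρ
        (h2.2.2 ρ (fun _ _ => rfl) (by simp [hM])) rfl
    · obtain ⟨y, hy, hyn⟩ := hmax z hz
      exact hyn (hd y hy)
  obtain ⟨j⟩ : Nonempty (I ↪ F) := by
    rw [← Cardinal.le_def, hI]
    exact Cardinal.aleph_one_le_iff.2
      (not_le.1 fun h => hunc (Cardinal.le_aleph0_iff_set_countable.1 h))
  have hdis : ∀ i i' γ, γ ∈ (j i).1.1.1 → γ ∈ (j i').1.1.1 → i = i' := by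
    intro i i' γ h h'
    by_contra hne
    exact Finset.disjoint_left.1
      (hF (j i).2 (j i').2 fun e => hne (j.injective (Subtype.ext e))) h h'
  have : ∀ γ, ∃ c : (I → Bool) → Y, Continuous c ∧ (γ ∈ R → ∀ τ, c τ = ρ γ) ∧
      ∀ i, γ ∈ (j i).1.1.1 → ∀ τ, c τ = if τ i then (j i).1.1.2.2 γ else (j i).1.1.2.1 γ := by
    intro γ
    by_cases h : ∃ i, γ ∈ (j i).1.1.1
    · obtain ⟨i, hi⟩ := h
      refine ⟨fun τ => if τ i then (j i).1.1.2.2 γ else (j i).1.1.2.1 γ,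
        (continuous_of_discreteTopology (f := fun b : Bool =>
          if b then (j i).1.1.2.2 γ else (j i).1.1.2.1 γ)).comp (continuous_apply i),
        fun hR => ?_, fun i' hi' τ => by rw [hdis i' i γ hi' hi]⟩
      obtain ⟨O0, O1, -, hv⟩ := (j i).1.2
      exact absurd hR (hv.1 γ hi)
    · exact ⟨fun _ => ρ γ, continuous_const, fun _ _ => rfl, fun i hi => absurd ⟨i, hi⟩ h⟩
  choose c hc1 hc2 hc3 using this
  have hcont : Continuous fun τ : I → Bool => q fun γ => c γ τ :=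
    hq.comp (continuous_pi hc1)
  have key : ∀ (τ τ' : I → Bool) i, τ i = false → τ' i = true →
      (q fun γ => c γ τ) ≠ q fun γ => c γ τ' := by
    intro τ τ' i h h'
    obtain ⟨O0, O1, hO, hv⟩ := (j i).1.2
    exact hO _ (hv.2.1 _ (fun γ hγ => hc2 γ hγ τ) fun γ hγ => by rw [hc3 γ i hγ, h]; simp)
      _ (hv.2.2 _ (fun γ hγ => hc2 γ hγ τ') fun γ hγ => by rw [hc3 γ i hγ, h']; simp)
  refine ⟨_, (hcont.isClosedEmbedding fun τ τ' e => ?_).isEmbedding⟩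
  funext i
  cases h : τ i <;> cases h' : τ' i
  · rfl
  · exact absurd e (key τ τ' i h h')
  · exact absurd e.symm (key τ' τ i h' h)
  · rfl

theorem skew {X : Type} {n m : ℕ} (x : ℕ → Fin n → X) (y : ℕ → Fin m → X) (g : ℕ → X → ℝ)
    {B ε : ℝ} (hε : 0 < ε) (hB : ∀ j p, |g j p| ≤ B)
    (h : ∀ j i, j < i → ∃ a b, x j a = y i b ∧ ε ≤ |g j (x j a) - g i (x j a)|) : False := by
  let 𝒰 : Ultrafilter ℕ := hyperfilter ℕ
  have fin : ∀ {ι : Type} [Finite ι] (P : ι → ℕ → Prop), (∀ᶠ i in 𝒰, ∃ c, P c i) →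
      ∃ c, ∀ᶠ i in 𝒰, P c i := by
    intro ι _ P hP
    exact Ultrafilter.eventually_exists_iff.1 hP
  have h1 : ∀ j, ∃ c : Fin n × Fin m, ∀ᶠ i in 𝒰,
      x j c.1 = y i c.2 ∧ ε ≤ |g j (x j c.1) - g i (x j c.1)| := by
    intro j
    refine fin _ ?_
    have : ∀ᶠ i in 𝒰, j < i := (Nat.hyperfilter_le_atTop) (eventually_gt_atTop j)
    filter_upwards [this] with i hi
    obtain ⟨a, b, hab⟩ := h j i hi
    exact ⟨(a, b), hab⟩
  choose c hc using h1
  obtain ⟨b0, hb0⟩ := fin (fun b j => (c j).2 = b) (Eventually.of_forall fun j => ⟨_, rfl⟩)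
  obtain ⟨j0, hj0⟩ := hb0.exists
  have hp : ∀ j, (c j).2 = b0 → x j (c j).1 = x j0 (c j0).1 := by
    intro j hj
    obtain ⟨i, h1, h2⟩ := ((hc j).and (hc j0)).exists
    rw [h1.1, h2.1, hj, hj0]
  obtain ⟨L, -, hL⟩ := (isCompact_Icc (a := -B) (b := B)).ultrafilter_le_nhds
    (𝒰.map fun i => g i (x j0 (c j0).1)) (by
      rw [Ultrafilter.coe_map, le_principal_iff, mem_map]
      exact Eventually.of_forall fun i => abs_le.1 (hB i _))
  have hL' : ∀ᶠ i in 𝒰, |g i (x j0 (c j0).1) - L| < ε / 2 := by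
    have : Tendsto (fun i => g i (x j0 (c j0).1)) 𝒰 (𝓝 L) := hL
    simpa [Real.dist_eq] using (Metric.tendsto_nhds.1 this) (ε / 2) (half_pos hε)
  obtain ⟨j, hj1, hj2⟩ := (hb0.and hL').exists
  obtain ⟨i, hi1, hi2⟩ := ((hc j).and hL').exists
  have := hi1.2
  rw [hp j hj1] at this
  have h3 := abs_sub_le (g j (x j0 (c j0).1)) L (g i (x j0 (c j0).1))
  rw [abs_sub_comm L] at h3
  linarith

end Pool.Agent.H17.TE
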