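import Pool.Agent.H17.Dm3
import Pool.Agent.H17.TE3

set_option autoImplicit false
open Set Topology Filter TopologicalSpace

namespace Pool.Agent.H17.Dm

variable {X Y : Type}

theorem ucube {F : (X → ℝ) → ℝ} (hF : Continuous F) {Q : Set (X → ℝ)} (hQ : IsCompact Q) {η : ℝ}
    (hη : 0 < η) : ∃ (m : ℕ) (δ : ℝ) (y : Fin m → X), 0 < δ ∧ ∀ f ∈ Q, ∀ f' ∈ Q,
      (∀ i, |f' (y i) - f (y i)| < δ) → |F f - F f'| < η := by
  have h := hQ.uniformContinuousOn_of_continuous hF.continuousOn (Metric.dist_mem_uniformity hη)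
  rw [mem_map, mem_inf_principal, uniformity_eq_comap_nhds_zero, mem_comap] at h
  obtain ⟨W, hW, hs⟩ := h
  obtain ⟨V, hVW, hV, h0⟩ := mem_nhds_iff.1 hW
  obtain ⟨I, u, hu, hI⟩ := isOpen_pi_iff.1 hV 0 h0
  have : ∀ᶠ k : ℕ in atTop, ∀ a ∈ I, Metric.ball (0 : ℝ) (1 / (k + 1)) ⊆ u a := by
    refine (Filter.eventually_all_finset I).2 fun a ha => ?_
    obtain ⟨δ, hδ, hb⟩ := Metric.isOpen_iff.1 (hu a ha).1 _ (hu a ha).2
    filter_upwards [(tendsto_one_div_add_atTop_nhds_zero_nat (𝕜 := ℝ)).eventually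
      (gt_mem_nhds hδ)] with k hk
    exact (Metric.ball_subset_ball hk.le).trans hb
  obtain ⟨k, hk⟩ := this.exists
  refine ⟨I.card, 1 / (k + 1), fun i => (I.equivFin.symm i).1, by positivity,
    fun f hf f' hf' h => ?_⟩
  have := @hs (f, f') (hVW (hI fun a ha => hk a ha (by
    have := h (I.equivFin ⟨a, ha⟩)
    simpa [Real.dist_eq] using this))) ⟨hf, hf'⟩
  simpa [Real.dist_eq] using this

theorem side2 {φ : (X → ℝ) → Y → ℝ} (hφ : Continuous φ) {e : ℕ → X → ℝ} {e' : ℕ → Y → ℝ}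
    (he : ∀ j, e' j = φ (e j)) {g : ℕ} (h : Alg e g) {b : X → ℝ}
    (hb : ∀ x, |e g x - e g x| ≤ b x) {R : ℝ} (hR : 0 < R) :
    Sig (Good (fun j : {j // ∀ x, |e j x - e g x| ≤ b x} => vl e j.1) ⟨g, hb⟩
      (fun j t => |vl e' j.1 t - vl e' g t|) R) univ := by
  refine side (ι := inclusion (subset_closure (s := range (io e))))
    (IsEmbedding.inclusion _).isInducing (fun j => by exact vl_cont e j.1) ?_
    (fun j => by exact ((vl_cont e' j.1).sub (vl_cont e' g)).abs) ?_ (fun t => by simp) hR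
  · intro m y c hc f
    obtain ⟨M, ⟨-, m1, a, ha⟩, m2, m3⟩ := sep h (B := range fun i => (y i).1) (B' := {c.1})
      (finite_range _).isCompact isCompact_singleton (by
        rintro _ ⟨i, rfl⟩ hi
        exact hc ⟨i, Subtype.ext hi⟩)
    obtain ⟨l, hl⟩ := h a f.1 (Or.inl (Or.inr (Or.inr rfl)))
    have k0 : ∀ x, |e l x - e g x| ≤ |e f.1 x - e g x| := fun x => by
      rw [hl]
      simp only [add_sub_cancel_left, abs_mul, ha, abs_of_nonneg (m1 _).1]
      exact mul_le_of_le_one_left (abs_nonneg _) (m1 _).2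
    refine ⟨⟨l, fun x => (k0 x).trans (f.2 x)⟩, fun i => ?_, ?_, fun s => ?_⟩
    · filter_upwards [continuous_subtype_val.continuousAt.tendsto.eventually
        (m2 _ (mem_range_self i))] with z hz s hs
      obtain ⟨x, hx⟩ := s.2
      have : M (io e x) = 1 := by rw [hx, ← hz, ← hs]
      simp only [vl_io _ _ hx, hl, ha, this]; ring
    · filter_upwards [continuous_subtype_val.continuousAt.tendsto.eventually
        (m3 _ rfl)] with z hz s hs
      obtain ⟨x, hx⟩ := s.2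
      have : M (io e x) = 0 := by rw [hx, ← hz, ← hs]
      simp only [vl_io _ _ hx, hl, ha, this]; ring
    · obtain ⟨x, hx⟩ := s.2
      simp only [vl_io _ _ hx]; exact k0 x
  · intro t η hη
    obtain ⟨y0, hy0⟩ := t.2
    obtain ⟨m, δ, y, hδ, hy⟩ := ucube ((continuous_apply y0).comp hφ)
      (isCompact_univ_pi fun x => isCompact_closedBall (e g x) (b x)) hη
    refine ⟨m, δ, fun i => ⟨io e (y i), mem_range_self _⟩, hδ, fun f f' hf => ?_⟩
    have := hy (e f.1) (fun x _ => f.2 x) (e f'.1) (fun x _ => f'.2 x) fun i => by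
      have := hf i
      beta_reduce at this
      rwa [vl_io (x := y i) _ _ rfl, vl_io (x := y i) _ _ rfl] at this
    simp only [vl_io _ _ hy0, he]
    simp only [Function.comp] at this
    linarith [abs_sub_le (φ (e f.1) y0) (φ (e f'.1) y0) (φ (e g) y0)]

/-- covering dimension at most `n`, cozero form -/
def CD (n : ℕ) (X : Type) [TopologicalSpace X] : Prop :=
  ∀ (k : ℕ) (U : Fin k → Set X), (∀ i, ∃ f : C(X, ℝ), U i = {x | f x ≠ 0}) →
    (⋃ i, U i) = Set.univ → ∃ (m : ℕ) (V : Fin m → Set X),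
      (∀ j, ∃ f : C(X, ℝ), V j = {x | f x ≠ 0}) ∧ (⋃ j, V j) = Set.univ ∧
      (∀ j, ∃ i, V j ⊆ U i) ∧ ∀ s : Finset (Fin m), s.card = n + 2 → (⋂ j ∈ s, V j) = ∅

variable [TopologicalSpace X] [TopologicalSpace Y] {n : ℕ}

theorem ex_wit (h : CD n X) {k : ℕ} (a : Fin k → X → ℝ) : ∃ m, ∃ b : Fin m → X → ℝ,
    (∀ j, Continuous (b j)) ∧
      ((∀ i, Continuous (a i)) → (∀ x, ∃ i, 1 / 2 < a i x) → Wit n a b) := by
  by_cases hc : (∀ i, Continuous (a i)) ∧ ∀ x, ∃ i, 1 / 2 < a i x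
  swap
  · exact ⟨0, Fin.elim0, fun j => j.elim0, fun h1 h2 => absurd ⟨h1, h2⟩ hc⟩
  obtain ⟨m, V, h1, h2, h3, h4⟩ := h k (fun i => {x | 1 / 2 < a i x}) (fun i =>
    ⟨⟨fun x => max (a i x - 1 / 2) 0, ((hc.1 i).sub continuous_const).max continuous_const⟩, by
      ext x; simp⟩) (eq_univ_of_forall fun x => mem_iUnion.2 (hc.2 x))
  choose v hv using h1
  have hpos : ∀ x, 0 < ‖fun j => v j x‖ := fun x => by
    obtain ⟨j, hj⟩ := mem_iUnion.1 (h2 ▸ mem_univ x : x ∈ ⋃ j, V j)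
    rw [hv] at hj
    exact norm_pos_iff.2 fun h => hj (congrFun h j)
  have hm : ∀ j x, 0 < |v j x| / ‖fun j => v j x‖ → x ∈ V j := fun j x hx => by
    rw [hv]; intro h0; rw [h0] at hx; simp at hx
  refine ⟨m, fun j x => |v j x| / ‖fun j => v j x‖, fun j => (v j).continuous.abs.div
    (continuous_pi fun j => (v j).continuous).norm fun x => (hpos x).ne', fun _ _ =>
    ⟨fun j => (h3 j).imp fun i hi x hx => hi (hm j x hx), fun x => ?_, fun s hs x => ?_⟩⟩
  · by_contra hn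
    push Not at hn
    exact lt_irrefl _ ((pi_norm_lt_iff (hpos x)).2 fun j => (div_lt_one (hpos x)).1 (hn j))
  · by_contra hn
    push Not at hn
    exact (h4 s hs).subset (mem_biInter fun j hj => hm j x (hn j hj))

theorem coz {Z : Type} [TopologicalSpace Z] [PseudoMetrizableSpace Z] {O : Set Z} (hO : IsOpen O) :
    ∃ f : C(Z, ℝ), O = {z | f z ≠ 0} := by
  let _ := pseudoMetrizableSpacePseudoMetric Z
  rcases Oᶜ.eq_empty_or_nonempty with h | h
  · exact ⟨1, by rw [compl_empty_iff.1 h]; ext; simp⟩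
  · refine ⟨⟨fun z => Metric.infDist z Oᶜ, Metric.continuous_infDist_pt _⟩, ?_⟩
    ext z
    have := hO.isClosed_compl.mem_iff_infDist_zero h (x := z)
    simp only [mem_compl_iff] at this
    simp [← this]

omit [TopologicalSpace X] [TopologicalSpace Y] in
theorem dimY (φ : (X → ℝ) ≃ₜ (Y → ℝ)) {e : ℕ → X → ℝ} {e' : ℕ → Y → ℝ} (he : ∀ j, e' j = φ (e j))
    {g c2 : ℕ} (aX : Alg e g) (aY : Alg e' g) (hg' : e' g = 0) (hc2 : e' c2 = fun _ => 2)
    (dK : D n (closure (range (io e)))) : D n (range (io e')) := by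
  have hbd : ∀ x, ∃ b, ∀ f ∈ univ.pi fun _ : Y => Metric.closedBall (0 : ℝ) 2,
      |φ.symm f x - e g x| ≤ b := fun x => by
    obtain ⟨b, hb⟩ := (isCompact_univ_pi fun _ : Y => isCompact_closedBall (0 : ℝ) 2).bddAbove_image
      (f := fun f => |φ.symm f x - e g x|)
      ((((continuous_apply x).comp φ.symm.continuous).sub continuous_const).abs.continuousOn)
    exact ⟨b, fun f hf => hb (mem_image_of_mem _ hf)⟩
  choose b hb using hbd
  have hb' : ∀ j, (∀ y, |e' j y - e' g y| ≤ 2) → ∀ x, |e j x - e g x| ≤ b x := fun j hj x => by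
    have := hb x (e' j) fun y _ => by simpa [hg'] using hj y
    simpa [he] using this
  have s1 := side2 φ.continuous he aX (hb' g (by simp)) two_pos
  have s2 := fun ε hε => side2 φ.symm.continuous (e' := e) (fun j => by simp [he]) aY
      (b := fun _ => 2) (by simp) (R := ε) hε
  refine dual (dK.ind (IsEmbedding.inclusion (subset_closure (s := range (io e)))).isInducing)
    s1 s2 fun t B hB ht => ?_
  obtain ⟨M, ⟨-, m1, a, ha⟩, m2, m3⟩ := sep aY (B := {t.1}) (B' := Subtype.val '' B)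
    isCompact_singleton (hB.image _).isCompact (by
      rintro _ rfl ⟨y, hy, he⟩
      exact ht (Subtype.ext he ▸ hy))
  obtain ⟨l, hl⟩ := aY a c2 (Or.inl (Or.inr (Or.inr rfl)))
  have hl' : ∀ y, e' l y = M (io e' y) * 2 := fun y => by
    rw [hl, hg', ← ha]; simp [hc2]
  have hl2 : ∀ y, |e' l y - e' g y| ≤ 2 := fun y => by
    rw [hl', hg', Pi.zero_apply, sub_zero, abs_le]
    constructor <;> linarith [(m1 (io e' y)).1, (m1 (io e' y)).2]
  refine ⟨⟨l, hb' l hl2⟩, ⟨l, hl2⟩, ?_, fun y hy => ?_, fun s => le_rfl⟩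
  · obtain ⟨y, hy⟩ := t.2
    simp only [vl_io _ _ hy, hl', hg', hy, (m2 _ rfl).self_of_nhds]; simp
  · obtain ⟨y', hy'⟩ := y.2
    simp only [vl_io _ _ hy', hl', hg', hy', (m3 _ ⟨y, hy, rfl⟩).self_of_nhds]; simp

theorem fin {e' : ℕ → Y → ℝ} (hc : ∀ j, Continuous (e' j)) (dY : D n (range (io e'))) {k : ℕ}
    (ju : Fin k → ℕ) {U : Fin k → Set Y} (hu : ∀ i, U i = {y | e' (ju i) y ≠ 0})
    (hcov : ⋃ i, U i = univ) : ∃ (m : ℕ) (V : Fin m → Set Y),
      (∀ j, ∃ f : C(Y, ℝ), V j = {x | f x ≠ 0}) ∧ (⋃ j, V j) = Set.univ ∧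
      (∀ j, ∃ i, V j ⊆ U i) ∧ ∀ s : Finset (Fin m), s.card = n + 2 → (⋂ j ∈ s, V j) = ∅ := by
  let π : C(Y, range (io e')) := ⟨fun y => ⟨io e' y, mem_range_self y⟩, Continuous.subtype_mk
    (continuous_pi fun j => Real.continuous_arctan.comp (hc j)) _⟩
  have hπ : ∀ i y, vl e' (ju i) (π y) = e' (ju i) y := fun i y => vl_io (x := y) _ _ rfl
  obtain ⟨V, v1, v2, v3, v4⟩ := dY k (fun i => {s | vl e' (ju i) s ≠ 0})
    (fun i => isOpen_ne_fun (vl_cont _ _) continuous_const) fun s => by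
      obtain ⟨y, hy⟩ := s.2
      obtain ⟨i, hi⟩ := mem_iUnion.1 (hcov ▸ mem_univ y : y ∈ ⋃ i, U i)
      refine ⟨i, ?_⟩
      rw [hu] at hi
      rwa [show s = π y from Subtype.ext hy.symm, mem_ofPred_eq, hπ]
  refine ⟨k, fun i => π ⁻¹' V i, fun i => ?_, eq_univ_of_forall fun y => mem_iUnion.2 (v3 _),
    fun i => ⟨i, fun y hy => ?_⟩, fun s hs => eq_empty_of_forall_notMem fun y hy => ?_⟩
  · obtain ⟨f, hf⟩ := coz (v1 i)
    exact ⟨f.comp π, by simp only [hf]; rfl⟩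
  · rw [hu, mem_ofPred_eq, ← hπ]; exact v2 i hy
  · obtain ⟨i, hi, hn⟩ := v4 s hs (π y)
    exact hn (mem_iInter₂.1 hy i hi)

theorem main (φ : (X → ℝ) ≃ₜ (Y → ℝ)) (h1 : ∀ f, Continuous f → Continuous (φ f))
    (h2 : ∀ f, Continuous f → Continuous (φ.symm f)) (hX : CD n X) : CD n Y := by
  classical
  intro k U hU hcov
  choose u hu using hU
  choose wm wb wc ww using fun k (a : Fin k → X → ℝ) => ex_wit hX a
  obtain ⟨S, hSc, hS⟩ := TE.closeoff (Γ := X → ℝ) (fun R =>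
    ({φ.symm 0, φ.symm fun _ => 2} ∪ range fun i => φ.symm (u i)) ∪
    (⋃ a ∈ R, ⋃ b ∈ R, Ops (φ.symm 0) a b ∪ φ.symm '' Ops 0 (φ a) (φ b)) ∪
    ⋃ k, ⋃ a : Fin k → R, range (wb k fun i => (a i).1)) fun R =>
      (((toFinite _).countable.union (countable_range _)).union
        (R.countable_toSet.biUnion fun a _ => R.countable_toSet.biUnion fun b _ =>
          (ops_count _ _ _).union ((ops_count _ _ _).image _))).union
        (countable_iUnion fun k => countable_iUnion fun a => countable_range _)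
  have b0 := hS ∅ (by simp)
  have g0 : φ.symm 0 ∈ S ∩ {f | Continuous f} :=
    ⟨b0 (Or.inl (Or.inl (Or.inl (Or.inl rfl)))), h2 _ continuous_const⟩
  obtain ⟨e, he⟩ := (hSc.mono (inter_subset_left (t := {f | Continuous f}))).exists_eq_range
    ⟨_, g0⟩
  have hin : ∀ j, e j ∈ S ∩ {f | Continuous f} := fun j => by rw [he]; exact mem_range_self j
  have hout : ∀ f ∈ S, Continuous f → ∃ j, e j = f := fun f a b => by
    have : f ∈ range e := by rw [← he]; exact ⟨a, b⟩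
    exact this
  obtain ⟨g, hg⟩ := hout _ g0.1 g0.2
  obtain ⟨c2, hc2⟩ := hout _ (b0 (Or.inl (Or.inl (Or.inl (Or.inr rfl))))) (h2 _ continuous_const)
  choose ju hju using fun i => hout _ (b0 (Or.inl (Or.inl (Or.inr ⟨i, rfl⟩))))
    (h2 _ (u i).continuous)
  have hop : ∀ j k, Ops (φ.symm 0) (e j) (e k) ∪ φ.symm '' Ops 0 (φ (e j)) (φ (e k)) ⊆ S :=
    fun j k f hf => hS {e j, e k} (by
      rw [Finset.coe_pair]; exact pair_subset (hin j).1 (hin k).1)
      (Or.inl (Or.inr (mem_iUnion₂.2 ⟨e j, by simp, mem_iUnion₂.2 ⟨e k, by simp, hf⟩⟩)))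
  have aX : Alg e g := fun j k f hf =>
    hout f (hop j k (Or.inl (by rw [← hg]; exact hf))) (ops_cont (hin g).2 (hin j).2 (hin k).2 hf)
  have hg' : φ (e g) = 0 := by simp [hg]
  have aY : Alg (fun j => φ (e j)) g := fun j k f hf => by
    simp only [hg'] at hf
    obtain ⟨l, hl⟩ := hout _ (hop j k (Or.inr ⟨f, hf, rfl⟩))
      (h2 _ (ops_cont continuous_const (h1 _ (hin j).2) (h1 _ (hin k).2) hf))
    exact ⟨l, by simp [hl]⟩
  have dK := dimK (n := n) aX fun k a ha => by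
    choose b hb using fun j => hout _ (hS (Finset.univ.image fun i => e (a i)) (by
        intro f hf
        obtain ⟨i, -, rfl⟩ := Finset.mem_image.1 hf
        exact (hin _).1) (Or.inr (mem_iUnion₂.2 ⟨k, fun i => ⟨e (a i), by simp⟩, j, rfl⟩)))
        (wc k (fun i => e (a i)) j)
    refine ⟨_, b, ?_⟩
    simp only [hb]
    exact ww k _ (fun i => (hin _).2) ha
  exact fin (fun j => h1 _ (hin j).2) (dimY φ (fun _ => rfl) aX aY hg' (c2 := c2)
    (by simp [hc2]) dK) ju (fun i => by simp [hu, hju]) hcov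

end Pool.Agent.H17.Dm
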