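import Mathlib

set_option autoImplicit false

namespace Pool.Agent.H17.PFC
open Set Filter

variable {D : Type} {B : Set (Set D)}

def Dec (B : Set (Set D)) (x : Filter D) : Prop := x.NeBot ∧ ∀ E ∈ B, E ∈ x ∨ Eᶜ ∈ x

def Supp (B : Set (Set D)) (x : ℕ → Filter D) : Prop :=
  ∃ S : ℕ → Set D, (∀ n, S n ∈ B ∧ S n ∈ x n) ∧ ∀ (A : ℕ → Set D) (f : ℕ → ℕ), StrictMono f →
    (∀ k, A k ∈ B ∧ A k ⊆ S (f k)) → (⋃ k, A k) ∈ B

def Good (B : Set (Set D)) (x : ℕ → Filter D) : Prop := (∀ n, x n = x 0) ∨ Supp B x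

theorem Dec.not {x : Filter D} (h : Dec B x) {E : Set D} (h1 : E ∈ x) : Eᶜ ∉ x := fun h2 => by
  have := h.1
  exact empty_notMem x (by simpa using inter_mem h1 h2)

theorem core (hc : ∀ E ∈ B, Eᶜ ∈ B) (hi : ∀ E ∈ B, ∀ F ∈ B, E ∩ F ∈ B) (hu : univ ∈ B)
    {x y : ℕ → Filter D} (hx : ∀ n, Dec B (x n))
    (hne : ∀ n, ∃ E ∈ B, E ∈ x n ∧ E ∉ y n) (sx : Supp B x) (𝒰 : Ultrafilter ℕ)
    (hU : (𝒰 : Filter ℕ) ≤ atTop) {N : Set ℕ} (hN : N ∈ 𝒰)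
    (hz : ∀ᶠ n in 𝒰, ∃ G ∈ B, G ∈ x n ∧ ¬ ∀ᶠ m in 𝒰, G ∈ x m) :
    ∃ E ∈ B, ∃ N' ⊆ N, N'.Infinite ∧ ∀ n ∈ N', E ∈ x n ∧ E ∉ y n := by
  classical
  obtain ⟨S, hS, hSU⟩ := sx
  have step : ∀ s : {p : Set D × ℕ // p.1 ∈ B ∧ ∀ᶠ m in 𝒰, p.1 ∈ x m}, ∃ n A, s.1.2 ≤ n ∧ n ∈ N ∧
      A ∈ B ∧ A ⊆ S n ∧ A ∈ x n ∧ A ∉ y n ∧ A ⊆ s.1.1 ∧ ∀ᶠ m in 𝒰, Aᶜ ∈ x m := by
    rintro ⟨⟨V, m⟩, hV, hVz⟩
    obtain ⟨n, ⟨⟨h1, h2⟩, h3⟩, G, hG, hGx, hGz⟩ :=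
      (((((eventually_ge_atTop m).filter_mono hU).and hN).and hVz).and hz).exists
    obtain ⟨E, hE, hEx, hEy⟩ := hne n
    refine ⟨n, S n ∩ G ∩ E ∩ V, h1, h2, hi _ (hi _ (hi _ (hS n).1 _ hG) _ hE) _ hV,
      fun p hp => hp.1.1.1, inter_mem (inter_mem (inter_mem (hS n).2 hGx) hEx) h3,
      fun h => hEy (mem_of_superset h fun p hp => hp.1.2), fun p hp => hp.2, ?_⟩
    filter_upwards [Ultrafilter.eventually_not.2 hGz] with k hk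
    exact mem_of_superset (((hx k).2 G hG).resolve_left hk) fun p hp h => hp h.1.1.2
  choose n A h1 h2 h3 h4 h5 h6 h7 h8 using step
  let nx : {p : Set D × ℕ // p.1 ∈ B ∧ ∀ᶠ m in 𝒰, p.1 ∈ x m} →
      {p : Set D × ℕ // p.1 ∈ B ∧ ∀ᶠ m in 𝒰, p.1 ∈ x m} := fun s =>
    ⟨(s.1.1 ∩ (A s)ᶜ, n s + 1), hi _ s.2.1 _ (hc _ (h3 s)),
      (s.2.2.and (h8 s)).mono fun m hm => inter_mem hm.1 hm.2⟩
  let s : ℕ → {p : Set D × ℕ // p.1 ∈ B ∧ ∀ᶠ m in 𝒰, p.1 ∈ x m} := fun k =>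
    nx^[k] ⟨(univ, 0), hu, Eventually.of_forall fun _ => univ_mem⟩
  have hs : ∀ k, s (k + 1) = nx (s k) := fun k => Function.iterate_succ_apply' _ _ _
  have mono : StrictMono fun k => n (s k) := strictMono_nat_of_lt_succ fun k => by
    have := h1 (s (k + 1))
    rw [hs k] at this
    rw [hs k]
    exact this
  have anti : Antitone fun k => (s k).1.1 := antitone_nat_of_succ_le fun k => by
    rw [hs k]
    exact inter_subset_left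
  have disj : ∀ j k p, p ∈ A (s j) → p ∈ A (s k) → j = k := by
    have : ∀ j k p, j < k → p ∈ A (s j) → p ∉ A (s k) := by
      intro j k p hjk hj hk
      have h := anti (Nat.succ_le_of_lt hjk) (h7 _ hk)
      simp only [hs j] at h
      exact h.2 hj
    intro j k p hj hk
    rcases lt_trichotomy j k with h | h | h
    · exact absurd hk (this j k p h hj)
    · exact h
    · exact absurd hj (this k j p h hk)
  let EE : Set ℕ → Set D := fun M => ⋃ k, if k ∈ M then A (s k) else ∅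
  have memE : ∀ M p, p ∈ EE M ↔ ∃ k ∈ M, p ∈ A (s k) := by
    intro M p
    simp only [EE, mem_iUnion]
    refine exists_congr fun k => ?_
    split_ifs with h <;> simp [h]
  have EB : ∀ M, EE M ∈ B := fun M => hSU _ _ mono fun k => by
    split_ifs
    · exact ⟨h3 _, h4 _⟩
    · exact ⟨by simpa using hc _ hu, empty_subset _⟩
  have fin : ∀ M : Set ℕ, M.Infinite → (∀ k ∈ M, EE M ∉ y (n (s k))) →
      ∃ E ∈ B, ∃ N' ⊆ N, N'.Infinite ∧ ∀ n ∈ N', E ∈ x n ∧ E ∉ y n := by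
    intro M hM h
    refine ⟨EE M, EB M, (fun k => n (s k)) '' M, ?_, hM.image mono.injective.injOn, ?_⟩
    · rintro _ ⟨k, -, rfl⟩
      exact h2 _
    · rintro _ ⟨k, hk, rfl⟩
      exact ⟨mem_of_superset (h5 _) fun p hp => (memE M p).2 ⟨k, hk, hp⟩, h k hk⟩
  by_cases hca : ∀ i, ∃ k, (Nat.unpair k).1 = i ∧ EE {k | (Nat.unpair k).1 = i} ∈ y (n (s k))
  · choose k hk1 hk2 using hca
    have kinj : Function.Injective k := fun i j hij => by rw [← hk1 i, hij, hk1 j]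
    refine fin (range k) (infinite_range_of_injective kinj) ?_
    rintro _ ⟨i, rfl⟩ h
    refine h6 _ (mem_of_superset (inter_mem h (hk2 i)) ?_)
    rintro p ⟨hp1, hp2⟩
    obtain ⟨_, ⟨j, rfl⟩, hj⟩ := (memE _ p).1 hp1
    obtain ⟨l, hl, hl'⟩ := (memE _ p).1 hp2
    have e1 := disj _ _ p hj hl'
    have e2 : j = i := by rw [← hk1 j, e1]; exact hl
    exact e2 ▸ hj
  · push Not at hca
    obtain ⟨i, hi'⟩ := hca
    refine fin {k | (Nat.unpair k).1 = i} ?_ fun k hk => hi' k hk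
    refine infinite_of_injective_forall_mem (f := fun j => Nat.pair i j)
      (fun a b h => (Nat.pair_eq_pair.1 h).2) fun j => by simp

theorem pair (hc : ∀ E ∈ B, Eᶜ ∈ B) (hi : ∀ E ∈ B, ∀ F ∈ B, E ∩ F ∈ B) (hu : univ ∈ B)
    {x y : ℕ → Filter D} (hx : ∀ n, Dec B (x n)) (hy : ∀ n, Dec B (y n))
    (hne : ∀ n, ∃ E ∈ B, E ∈ x n ∧ E ∉ y n) (gx : Good B x) (gy : Good B y)
    {N : Set ℕ} (hN : N.Infinite) :
    ∃ E ∈ B, ∃ N' ⊆ N, N'.Infinite ∧ ∀ n ∈ N', ¬ (E ∈ x n ↔ E ∈ y n) := by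
  have hb : (atTop ⊓ 𝓟 N : Filter ℕ).NeBot := by
    rw [← Nat.cofinite_eq_atTop, ← frequently_mem_iff_neBot, frequently_cofinite_iff_infinite]
    exact hN
  let 𝒰 : Ultrafilter ℕ := Ultrafilter.of (atTop ⊓ 𝓟 N)
  have hU : (𝒰 : Filter ℕ) ≤ atTop := (Ultrafilter.of_le _).trans inf_le_left
  have hNU : N ∈ 𝒰 := le_principal_iff.1 ((Ultrafilter.of_le _).trans inf_le_right)
  have sp : ∀ x : ℕ → Filter D, Good B x →
      (∀ᶠ n in 𝒰, ∃ G ∈ B, G ∈ x n ∧ ¬ ∀ᶠ m in 𝒰, G ∈ x m) → Supp B x := by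
    rintro x (h | h) hz
    · obtain ⟨n, G, -, h1, h2⟩ := hz.exists
      exact absurd (Eventually.of_forall fun m => by rw [h m, ← h n]; exact h1) h2
    · exact h
  by_cases h1 : ∀ᶠ n in 𝒰, ∃ G ∈ B, G ∈ x n ∧ ¬ ∀ᶠ m in 𝒰, G ∈ x m
  · obtain ⟨E, hE, N', h2, h3, h4⟩ := core hc hi hu hx hne (sp x gx h1) 𝒰 hU hNU h1
    exact ⟨E, hE, N', h2, h3, fun n hn h => (h4 n hn).2 (h.1 (h4 n hn).1)⟩
  by_cases h2 : ∀ᶠ n in 𝒰, ∃ G ∈ B, G ∈ y n ∧ ¬ ∀ᶠ m in 𝒰, G ∈ y m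
  · obtain ⟨E, hE, N', h2, h3, h4⟩ := core hc hi hu hy (y := x) (fun n => by
      obtain ⟨E, hE, h1, h2⟩ := hne n
      exact ⟨Eᶜ, hc _ hE, ((hy n).2 E hE).resolve_left h2, (hx n).not h1⟩)
      (sp y gy h2) 𝒰 hU hNU h2
    exact ⟨E, hE, N', h2, h3, fun n hn h => (h4 n hn).2 (h.2 (h4 n hn).1)⟩
  obtain ⟨n, hn1, hn2⟩ :=
    ((Ultrafilter.eventually_not.2 h1).and (Ultrafilter.eventually_not.2 h2)).exists
  push Not at hn1 hn2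
  obtain ⟨E, hE, h3, h4⟩ := hne n
  have h5 := (hn1 E hE h3).and (hn2 Eᶜ (hc _ hE) (((hy n).2 E hE).resolve_left h4))
  refine ⟨E, hE, N ∩ {m | E ∈ x m ∧ Eᶜ ∈ y m}, inter_subset_left, fun hf => ?_,
    fun m hm h => (hy m).not (h.1 hm.2.1) hm.2.2⟩
  have := hU (Nat.cofinite_eq_atTop ▸ hf.compl_mem_cofinite)
  exact (Ultrafilter.compl_mem_iff_notMem.1 this) (inter_mem hNU h5)

theorem multi (hc : ∀ E ∈ B, Eᶜ ∈ B) (hi : ∀ E ∈ B, ∀ F ∈ B, E ∩ F ∈ B) (hu : univ ∈ B)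
    {ι : Type} [Fintype ι] {x : ι → ℕ → Filter D} (hx : ∀ i n, Dec B (x i n))
    (hne : ∀ i j, i ≠ j → ∀ n, ∃ E ∈ B, E ∈ x i n ∧ E ∉ x j n) (gx : ∀ i, Good B (x i)) :
    ∃ N : Set ℕ, N.Infinite ∧ ∀ p : ι × ι, ∃ E ∈ B, p.1 ≠ p.2 →
      ∀ n ∈ N, ¬ (E ∈ x p.1 n ↔ E ∈ x p.2 n) := by
  classical
  have : ∀ P : Finset (ι × ι), ∃ N : Set ℕ, N.Infinite ∧ ∀ p ∈ P, ∃ E ∈ B, p.1 ≠ p.2 →
      ∀ n ∈ N, ¬ (E ∈ x p.1 n ↔ E ∈ x p.2 n) := by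
    intro P
    induction P using Finset.induction_on with
    | empty => exact ⟨univ, infinite_univ, by simp⟩
    | insert q P _ ih =>
      obtain ⟨N, hN, h⟩ := ih
      by_cases hq : q.1 = q.2
      · refine ⟨N, hN, fun p hp => ?_⟩
        rcases Finset.mem_insert.1 hp with rfl | hp
        · exact ⟨univ, hu, fun h => absurd hq h⟩
        · exact h p hp
      · obtain ⟨E, hE, N', h1, h2, h3⟩ :=
          pair hc hi hu (hx q.1) (hx q.2) (hne _ _ hq) (gx _) (gx _) hN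
        refine ⟨N', h2, fun p hp => ?_⟩
        rcases Finset.mem_insert.1 hp with rfl | hp
        · exact ⟨E, hE, fun _ => h3⟩
        · obtain ⟨E', hE', h'⟩ := h p hp
          exact ⟨E', hE', fun hne n hn => h' hne n (h1 hn)⟩
  obtain ⟨N, hN, h⟩ := this Finset.univ
  exact ⟨N, hN, fun p => h p (Finset.mem_univ p)⟩

end Pool.Agent.H17.PFC
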