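import Mathlib
import Pool.Agent.H17.PFC1
import Pool.Agent.H17.SubML

set_option autoImplicit false

namespace Pool.Agent.H17.PFC
open Set Filter Topology Pool.Agent.H17.W1

noncomputable def cc (δ : W) : W → ℕ := (countable_iff_exists_injOn.1 (cIio δ)).choose

theorem cc_inj (δ : W) : InjOn (cc δ) (Iio δ) := (countable_iff_exists_injOn.1 (cIio δ)).choose_spec

theorem cc_fin (δ : W) (n : ℕ) : {β | β < δ ∧ cc δ β ≤ n}.Finite :=
  Finite.of_finite_image ((finite_le_nat n).subset (by rintro _ ⟨β, h, rfl⟩; exact h.2))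
    ((cc_inj δ).mono fun _ h => h.1)

def R (δ : W) : Set (W × W) := {p | p.1 < δ ∧ p.2 < δ ∧ ∀ β < δ, cc δ β ≤ cc δ p.1 → β < p.2}

def Adm (δ : W) (C : Set W) : Prop := ∀ η < δ, (C ∩ Iio η).Finite

theorem Adm.of_fin (δ : W) {C : Set W} (h : C.Finite) : Adm δ C :=
  fun _ _ => h.subset inter_subset_left

def FF (δ : W) : Filter (W × W) where
  sets := {E | ∃ C, Adm δ C ∧ ∀ p ∈ R δ, p.1 ∉ C → p ∈ E}
  univ_sets := ⟨∅, Adm.of_fin δ finite_empty, fun _ _ _ => mem_univ _⟩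
  sets_of_superset := by
    rintro E F ⟨C, h1, h2⟩ h
    exact ⟨C, h1, fun p hp hc => h (h2 p hp hc)⟩
  inter_sets := by
    rintro E F ⟨C, h1, h2⟩ ⟨C', h1', h2'⟩
    refine ⟨C ∪ C', fun η hη => ?_, fun p hp hc =>
      ⟨h2 p hp fun h => hc (Or.inl h), h2' p hp fun h => hc (Or.inr h)⟩⟩
    rw [union_inter_distrib_right]
    exact (h1 η hη).union (h1' η hη)

theorem mem_FF {δ : W} {E : Set (W × W)} :
    E ∈ FF δ ↔ ∃ C, Adm δ C ∧ ∀ p ∈ R δ, p.1 ∉ C → p ∈ E := Iff.rfl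

def L : Set W := {δ | (∃ η < δ, (Iio η).Infinite) ∧ ∀ γ < δ, ∃ γ', γ < γ' ∧ γ' < δ}

def BB : Set (Set (W × W)) := {E | ∀ δ ∈ L, E ∈ FF δ ∨ Eᶜ ∈ FF δ}

theorem BB_compl : ∀ E ∈ BB, Eᶜ ∈ BB := fun E h δ hδ => by
  rw [compl_compl]
  exact (h δ hδ).symm

theorem BB_inter : ∀ E ∈ BB, ∀ F ∈ BB, E ∩ F ∈ BB := by
  intro E h F h' δ hδ
  rcases h δ hδ with h1 | h1
  · rcases h' δ hδ with h2 | h2
    · exact Or.inl (inter_mem h1 h2)
    · exact Or.inr (mem_of_superset h2 fun p hp h => hp h.2)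
  · exact Or.inr (mem_of_superset h1 fun p hp h => hp h.1)

theorem BB_univ : univ ∈ BB := fun _ _ => Or.inl univ_mem

theorem low' {δ γ : W} (h : γ < δ) : ∃ C : Set W, C.Finite ∧ ∀ p ∈ R δ, p.1 ∉ C → γ < p.2 := by
  refine ⟨_, cc_fin δ (cc δ γ), fun p hp hc => hp.2.2 γ h ?_⟩
  by_contra hlt
  exact hc ⟨hp.1, (not_le.1 hlt).le⟩

theorem low {δ γ : W} (h : γ < δ) : {p : W × W | γ < p.2} ∈ FF δ := by
  obtain ⟨C, h1, h2⟩ := low' h
  exact ⟨C, Adm.of_fin δ h1, h2⟩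

theorem R_mem (δ : W) : R δ ∈ FF δ := ⟨∅, Adm.of_fin δ finite_empty, fun _ h _ => h⟩

theorem R_ne {δ σ : W} (h : δ ≠ σ) : (R σ)ᶜ ∈ FF δ := by
  rcases lt_or_gt_of_ne h with h | h
  · obtain ⟨C, h1, h2⟩ := low' h
    exact ⟨C, Adm.of_fin δ h1, fun p hp hc hp' => lt_asymm hp.2.1 (h2 p hp' hc)⟩
  · exact mem_of_superset (low h) fun p hp hp' => lt_asymm hp hp'.2.1

theorem R_BB (σ : W) : R σ ∈ BB := fun δ _ => by
  by_cases h : δ = σ
  · exact Or.inl (h ▸ R_mem δ)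
  · exact Or.inr (R_ne h)

theorem lev_BB (σ : W) : {p : W × W | σ < p.2} ∈ BB := fun δ _ => by
  by_cases h : σ < δ
  · exact Or.inl (low h)
  · exact Or.inr (mem_of_superset (R_mem δ) fun p hp hp' => h (lt_trans hp' hp.2.1))

theorem col_BB {a : W} {A : Set (W × W)} (h : ∀ p ∈ A, p.1 = a) : A ∈ BB := fun δ _ =>
  Or.inr ⟨{a}, Adm.of_fin δ (finite_singleton a), fun p _ hc hp => hc (h p hp)⟩

theorem hit {δ α : W} (h : α < δ) {E : Set W} (hE : ∀ γ < δ, ∃ γ' ∈ E, γ < γ' ∧ γ' < δ) :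
    ∃ γ ∈ E, (α, γ) ∈ R δ := by
  obtain ⟨b, hb, hm⟩ := SubML.fin_bound (cc_fin δ (cc δ α)) h fun x hx => hx.1
  obtain ⟨γ, h1, h2, h3⟩ := hE b hb
  exact ⟨γ, h1, h, h3, fun β hβ hc => (hm β ⟨hβ, hc⟩).trans_lt h2⟩

theorem FF_neBot {δ : W} (h : δ ∈ L) : (FF δ).NeBot := by
  refine ⟨fun hb => ?_⟩
  obtain ⟨C, h1, h2⟩ : ∅ ∈ FF δ := empty_mem_iff_bot.2 hb
  obtain ⟨η, hη, hi⟩ := h.1
  obtain ⟨α, hα, hc⟩ := hi.exists_notMem_finite (h1 η hη)
  obtain ⟨γ, -, hγ⟩ := hit (lt_trans hα hη) (E := univ) fun γ hγ => by simpa using h.2 γ hγ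
  exact h2 _ hγ fun h => hc ⟨h, hα⟩

theorem lub (s : ℕ → W) (hs : StrictMono s) :
    ∃ σ, (∀ n, s n < σ) ∧ ∀ η < σ, ∃ n, η < s n := by
  obtain ⟨u, hu⟩ := bound (countable_range s)
  obtain ⟨a, ha, hmin⟩ := wellFounded_lt.has_min {a : W | ∀ n, s n ≤ a}
    ⟨u, fun n => (hu _ ⟨n, rfl⟩).le⟩
  refine ⟨a, fun n => (hs (Nat.lt_succ_self n)).trans_le (ha _), fun η hη => ?_⟩
  by_contra hc
  push Not at hc
  exact hmin η hc hη

theorem union_BB {s : ℕ → W} (hs : Monotone s) {σ : W} (h2 : ∀ η < σ, ∃ n, η < s n)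
    {A : ℕ → Set (W × W)} (hA : ∀ k, A k ∈ BB) (a1 : ∀ k, ∀ p ∈ A k, p.2 < σ)
    (a2 : ∀ k, ∀ p ∈ A k, s k < p.1 ∨ s k < p.2) {C : Set W} (hC : Adm σ C)
    (a3 : ∀ k, ∀ p ∈ A k, p ∈ R σ → p.1 ∈ C) : (⋃ k, A k) ∈ BB := by
  intro δ hδ
  rcases lt_trichotomy δ σ with h | rfl | h
  · obtain ⟨m, hm⟩ := h2 δ h
    by_cases hk : ∃ k, A k ∈ FF δ
    · obtain ⟨k, hk⟩ := hk
      exact Or.inl (mem_of_superset hk (subset_iUnion A k))
    · push Not at hk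
      have : ∀ k, (A k)ᶜ ∈ FF δ := fun k => (hA k δ hδ).resolve_left (hk k)
      refine Or.inr (mem_of_superset (inter_mem (R_mem δ)
        ((biInter_finset_mem (Finset.range m)).2 fun k _ => this k)) ?_)
      rintro p ⟨hp, hp'⟩ h
      obtain ⟨k, hk⟩ := mem_iUnion.1 h
      by_cases hkm : k < m
      · exact mem_iInter₂.1 hp' k (Finset.mem_range.2 hkm) hk
      · have := hm.trans_le (hs (not_lt.1 hkm))
        rcases a2 k p hk with h | h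
        · exact lt_asymm hp.1 (this.trans h)
        · exact lt_asymm hp.2.1 (this.trans h)
  · refine Or.inr ⟨C, hC, fun p hp hc h => ?_⟩
    obtain ⟨k, hk⟩ := mem_iUnion.1 h
    exact hc (a3 k p hk hp)
  · refine Or.inr (mem_of_superset (low h) fun p hp h => ?_)
    obtain ⟨k, hk⟩ := mem_iUnion.1 h
    exact lt_asymm hp (a1 k p hk)

theorem refine_unc {ι : Type} [Fintype ι] (ρ : ι → W → W) : ∃ T : Set W, ¬ T.Countable ∧
    ∀ i, (∃ a, ∀ t ∈ T, ρ i t = a) ∨ ∀ σ, {t | t ∈ T ∧ ρ i t ≤ σ}.Countable := by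
  classical
  have : ∀ P : Finset ι, ∃ T : Set W, ¬ T.Countable ∧
      ∀ i ∈ P, (∃ a, ∀ t ∈ T, ρ i t = a) ∨ ∀ σ, {t | t ∈ T ∧ ρ i t ≤ σ}.Countable := by
    intro P
    induction P using Finset.induction_on with
    | empty => exact ⟨univ, not_countable_univ, by simp⟩
    | insert q P _ ih =>
      obtain ⟨T, hT, h⟩ := ih
      by_cases hq : ∃ a, ¬ {t | t ∈ T ∧ ρ q t = a}.Countable
      · obtain ⟨a, ha⟩ := hq
        refine ⟨_, ha, fun i hi => ?_⟩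
        rcases Finset.mem_insert.1 hi with rfl | hi
        · exact Or.inl ⟨a, fun t ht => ht.2⟩
        · rcases h i hi with ⟨b, hb⟩ | hb
          · exact Or.inl ⟨b, fun t ht => hb t ht.1⟩
          · exact Or.inr fun σ => (hb σ).mono fun t ht => And.intro ht.1.1 ht.2
      · push Not at hq
        refine ⟨T, hT, fun i hi => ?_⟩
        rcases Finset.mem_insert.1 hi with rfl | hi
        · refine Or.inr fun σ => ((cIic σ).biUnion fun a _ => hq a).mono fun t ht => ?_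
          exact mem_biUnion (x := ρ i t) ht.2 (show t ∈ T ∧ ρ i t = ρ i t from ⟨ht.1, rfl⟩)
        · exact h i hi
  obtain ⟨T, hT, h⟩ := this Finset.univ
  exact ⟨T, hT, fun i => h i (Finset.mem_univ i)⟩

/-- Abstract points. -/
def IsPt (x : Filter (W × W)) (k : Bool) (ρ b : W) : Prop :=
  (k = true → x = FF ρ) ∧ (k = false → {p : W × W | p.1 = ρ ∧ p.2 < b} ∈ x)

theorem sep {ι : Type} [Fintype ι] (x : ι → W → Filter (W × W)) (k : ι → Bool) (ρ b : ι → W → W)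
    (hx : ∀ i t, Dec BB (x i t)) (hp : ∀ i t, IsPt (x i t) (k i) (ρ i t) (b i t))
    (hne : ∀ i j, i ≠ j → ∀ t, ∃ E ∈ BB, E ∈ x i t ∧ E ∉ x j t) :
    ∃ N : Set W, N.Infinite ∧ ∀ p : ι × ι, ∃ E ∈ BB, p.1 ≠ p.2 →
      ∀ n ∈ N, ¬ (E ∈ x p.1 n ↔ E ∈ x p.2 n) := by
  obtain ⟨T, hT, h⟩ := refine_unc ρ
  have step : ∀ σ : W, ∃ ξ τ, ξ ∈ T ∧ σ < ξ ∧ ξ < τ ∧ ∀ i, ρ i ξ < τ ∧ b i ξ < τ ∧
      ((∀ σ, {t | t ∈ T ∧ ρ i t ≤ σ}.Countable) → σ < ρ i ξ) := by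
    intro σ
    have hc : (Iic σ ∪ ⋃ i ∈ {i | ∀ σ, {t | t ∈ T ∧ ρ i t ≤ σ}.Countable},
        {t | t ∈ T ∧ ρ i t ≤ σ}).Countable :=
      (cIic σ).union ((to_countable _).biUnion fun i hi => hi σ)
    obtain ⟨ξ, hξ, hn⟩ := not_subset.1 fun hs => hT (hc.mono hs)
    obtain ⟨τ, hτ⟩ := bound (((countable_range fun i => ρ i ξ).union
      (countable_range fun i => b i ξ)).insert ξ)
    refine ⟨ξ, τ, hξ, not_le.1 fun h => hn (Or.inl h), hτ _ (Or.inl rfl), fun i =>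
      ⟨hτ _ (Or.inr (Or.inl ⟨i, rfl⟩)), hτ _ (Or.inr (Or.inr ⟨i, rfl⟩)), fun hi =>
        not_le.1 fun h => hn (Or.inr (mem_biUnion hi ⟨hξ, h⟩))⟩⟩
  choose ξ nx h1 h2 h3 h4 using step
  obtain ⟨s0⟩ : Nonempty W := inferInstance
  let s : ℕ → W := fun n => nx^[n] s0
  have hs : ∀ n, s (n + 1) = nx (s n) := fun n => Function.iterate_succ_apply' _ _ _
  have sm : StrictMono s := strictMono_nat_of_lt_succ fun n => hs n ▸ (h2 _).trans (h3 _)
  have ξm : StrictMono fun n => ξ (s n) := strictMono_nat_of_lt_succ fun n =>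
    ((h3 _).trans_eq (hs n).symm).trans (h2 _)
  obtain ⟨σ, σ1, σ2⟩ := lub s sm
  have hlt : ∀ n, nx (s n) < σ := fun n => hs n ▸ σ1 (n + 1)
  have hg : ∀ i, Good BB fun n => x i (ξ (s n)) := by
    intro i
    rcases h i with ⟨a, ha⟩ | hesc
    · cases hk : k i
      · refine Or.inr ⟨fun _ => {p | p.1 = a}, fun n => ⟨col_BB fun p hp => hp, ?_⟩, ?_⟩
        · exact mem_of_superset ((hp i _).2 hk) fun p hp => hp.1.trans (ha _ (h1 _))
        · intro A f _ hA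
          refine col_BB (a := a) fun p hp => ?_
          obtain ⟨j, hj⟩ := mem_iUnion.1 hp
          exact (hA j).2 hj
      · exact Or.inl fun n => by
          beta_reduce
          rw [(hp i _).1 hk, (hp i (ξ (s 0))).1 hk, ha _ (h1 _), ha _ (h1 _)]
    · have he : ∀ n, s n < ρ i (ξ (s n)) := fun n => (h4 _ i).2.2 hesc
      cases hk : k i
      · refine Or.inr ⟨fun n => {p | p.1 = ρ i (ξ (s n)) ∧ p.2 < b i (ξ (s n))},
          fun n => ⟨col_BB fun p hp => hp.1, (hp i _).2 hk⟩, fun A f hf hA => ?_⟩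
        refine union_BB sm.monotone σ2 (fun j => (hA j).1)
          (fun j p hp => (((hA j).2 hp).2.trans (h4 _ i).2.1).trans (hlt _))
          (fun j p hp => Or.inl ?_) (C := range fun n => ρ i (ξ (s n))) ?_
          (fun j p hp _ => ⟨f j, ((hA j).2 hp).1.symm⟩)
        · rw [((hA j).2 hp).1]
          exact (sm.monotone (hf.id_le j)).trans_lt (he _)
        · intro η hη
          obtain ⟨m, hm⟩ := σ2 η hη
          refine ((finite_lt_nat m).image fun n => ρ i (ξ (s n))).subset ?_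
          rintro _ ⟨⟨n, rfl⟩, hn⟩
          refine ⟨n, ?_, rfl⟩
          exact sm.lt_iff_lt.1 (((he n).trans hn).trans hm)
      · refine Or.inr ⟨fun n => R (ρ i (ξ (s n))) ∩ {p | s n < p.2} ∩ (R σ)ᶜ,
          fun n => ⟨BB_inter _ (BB_inter _ (R_BB _) _ (lev_BB _)) _ (BB_compl _ (R_BB _)), ?_⟩,
          fun A f hf hA => ?_⟩
        · beta_reduce
          rw [(hp i _).1 hk]
          exact inter_mem (inter_mem (R_mem _) (low (he n)))
            (R_ne ((h4 _ i).1.trans (hlt n)).ne)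
        · exact union_BB sm.monotone σ2 (fun j => (hA j).1)
            (fun j p hp => (((hA j).2 hp).1.1.2.1.trans (h4 _ i).1).trans (hlt _))
            (fun j p hp => Or.inr ((sm.monotone (hf.id_le j)).trans_lt ((hA j).2 hp).1.2))
            (Adm.of_fin σ finite_empty) fun j p hp h => absurd h ((hA j).2 hp).2
  obtain ⟨N, hN, hE⟩ := multi BB_compl BB_inter BB_univ (fun i n => hx i (ξ (s n)))
    (fun i j hij n => hne i j hij _) hg
  refine ⟨(fun n => ξ (s n)) '' N, hN.image ξm.injective.injOn, fun p => ?_⟩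
  obtain ⟨E, hE1, hE2⟩ := hE p
  refine ⟨E, hE1, fun hp => ?_⟩
  rintro _ ⟨n, hn, rfl⟩
  exact hE2 hp n hn

theorem closure_pt (E : ℕ → Set W) (hE : ∀ n γ, ∃ γ' ∈ E n, γ < γ') (η : W)
    (hη : (Iio η).Infinite) : ∃ δ ∈ L, η < δ ∧ ∀ n, ∀ γ < δ, ∃ γ' ∈ E n, γ < γ' ∧ γ' < δ := by
  choose e he1 he2 using hE
  have step : ∀ γ : W, ∃ τ, γ < τ ∧ ∀ n, e n γ < τ := by
    intro γ
    obtain ⟨τ, hτ⟩ := bound ((countable_range fun n => e n γ).insert γ)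
    exact ⟨τ, hτ _ (Or.inl rfl), fun n => hτ _ (Or.inr ⟨n, rfl⟩)⟩
  choose nx h1 h2 using step
  let s : ℕ → W := fun n => nx^[n] η
  have hs : ∀ n, s (n + 1) = nx (s n) := fun n => Function.iterate_succ_apply' _ _ _
  obtain ⟨σ, σ1, σ2⟩ := lub s (strictMono_nat_of_lt_succ fun n => hs n ▸ h1 _)
  refine ⟨σ, ⟨⟨η, σ1 0, hη⟩, fun γ hγ => ?_⟩, σ1 0, fun n γ hγ => ?_⟩
  · obtain ⟨m, hm⟩ := σ2 γ hγ
    exact ⟨s m, hm, σ1 m⟩
  · obtain ⟨m, hm⟩ := σ2 γ hγ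
    exact ⟨e n (s m), he1 _ _, hm.trans (he2 _ _), (h2 _ n).trans (hs m ▸ σ1 (m + 1))⟩

end Pool.Agent.H17.PFC
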