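import Mathlib
import Pool.Agent.H17.PFC2

set_option autoImplicit false

namespace Pool.Agent.H17.EbIm
open Set Filter Topology Pool.Agent.H17.W1 Pool.Agent.H17.PFC OnePoint

def DW : Type := W

instance : TopologicalSpace DW := ⊥
instance : DiscreteTopology DW := ⟨rfl⟩

abbrev X : Type := OnePoint DW

abbrev Cp (Z : Type) [TopologicalSpace Z] : Type := {f : Z → ℝ // Continuous f}

def toD (a : W) : DW := a
def ofD (a : DW) : W := a

theorem ev {Z : Type} [TopologicalSpace Z] (z : Z) : Continuous fun f : Cp Z => f.1 z :=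
  (continuous_apply z).comp continuous_subtype_val

open Classical in
noncomputable def ker (x y : X) : ℝ := if x = y ∧ x ≠ ∞ then 1 else 0

theorem ker_comm (x y : X) : ker x y = ker y x := by
  unfold ker
  by_cases h : x = y
  · rw [h]
  · simp [h, Ne.symm h]

theorem ker_cont (x : X) : Continuous (ker x) := by
  rw [continuous_iff_from_discrete]
  have : ker x ∞ = 0 := by simp [ker]
  rw [this]
  refine tendsto_const_nhds.congr' ?_
  filter_upwards [((finite_singleton x).preimage coe_injective.injOn).compl_mem_cofinite] with a ha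
  have : x ≠ a := fun h => ha (by simp [h])
  simp [ker, this]

theorem eberlein : ∃ e : X → Cp X, IsEmbedding e := by
  refine ⟨fun x => ⟨ker x, ker_cont x⟩, Continuous.isClosedEmbedding ?_ ?_ |>.isEmbedding⟩
  · refine Continuous.subtype_mk (continuous_pi fun y => ?_) _
    simpa only [ker_comm _ y] using ker_cont y
  · intro x y h
    have h' : ker x = ker y := congrArg Subtype.val h
    by_contra hne
    by_cases hx : x = ∞
    · have := congrFun h' y
      simp [ker, hne, hx ▸ Ne.symm hne] at this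
    · have := congrFun h' x
      simp [ker, hx, Ne.symm hne] at this

open Classical in
noncomputable def dd0 (b g : W) : ℝ :=
  if g = b then 1 else if g < b then 1 / ((cc b g : ℝ) + 2) else 0

noncomputable def dd (b : W) : Cp X :=
  ⟨fun x => OnePoint.elim x 0 (fun g => dd0 b (ofD g)), by
    rw [continuous_iff_from_discrete]
    show Tendsto (fun g : W => dd0 b g) cofinite (𝓝 0)
    refine Metric.tendsto_nhds.2 fun ε hε => ?_
    obtain ⟨n, hn⟩ := exists_nat_one_div_lt hε
    filter_upwards [((cc_fin b n).insert b).compl_mem_cofinite] with g hg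
    simp only [mem_compl_iff, mem_insert_iff, mem_ofPred_eq, not_or, not_and, not_le] at hg
    rw [dd0, if_neg hg.1]
    split_ifs with h
    · have h1 : (n : ℝ) < cc b g := by exact_mod_cast hg.2 h
      rw [Real.dist_eq, sub_zero, abs_of_pos (by positivity)]
      refine lt_trans ?_ hn
      exact one_div_lt_one_div_of_lt (by positivity) (by linarith)
    · simpa using hε⟩

theorem dd_inf (b : W) : (dd b).1 ∞ = 0 := rfl
theorem dd_coe (b g : W) : (dd b).1 (toD g : DW) = dd0 b g := rfl

theorem dd0_le {b g : W} (h : g ≠ b) : dd0 b g ≤ 1 / 2 := by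
  rw [dd0, if_neg h]
  split_ifs
  · exact one_div_le_one_div_of_le two_pos (by linarith [Nat.cast_nonneg (α := ℝ) (cc b g)])
  · norm_num

def S : Set (Cp X) := {f | f.1 ∞ ≠ 0} ∪ range dd

def one : Cp X := ⟨fun _ => 1, continuous_const⟩

theorem S_dense : Dense S := by
  refine Dense.mono subset_union_left fun f => ?_
  by_cases h : f.1 ∞ = 0
  · have : Tendsto (fun n : ℕ => (⟨fun x => f.1 x + 1 / ((n : ℝ) + 1),
        f.2.add continuous_const⟩ : Cp X)) atTop (𝓝 f) := by
      refine tendsto_subtype_rng.2 (tendsto_pi_nhds.2 fun x => ?_)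
      simpa using (tendsto_const_nhds (x := f.1 x)).add
        (tendsto_one_div_add_atTop_nhds_zero_nat (𝕜 := ℝ))
    refine mem_closure_of_tendsto this (Eventually.of_forall fun n => ?_)
    show f.1 ∞ + 1 / ((n : ℝ) + 1) ≠ 0
    rw [h, zero_add]
    exact Nat.one_div_pos_of_nat.ne'
  · exact subset_closure h

theorem ury {T E : Type} [TopologicalSpace T] [TopologicalSpace E] [RegularSpace E]
    [SecondCountableTopology E] (π : T → E) (hπ : Continuous π) (P Q : Set E)
    (h : ∀ x, π x ∉ closure P ∩ closure Q) :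
    ∃ f : T → ℝ, Continuous f ∧ (∀ x, π x ∈ P → f x = 1) ∧ ∀ x, π x ∈ Q → f x = 0 := by
  obtain ⟨g, h0, h1, -⟩ := exists_continuous_zero_one_of_isClosed
    (X := {e // e ∉ closure P ∩ closure Q}) (s := Subtype.val ⁻¹' closure Q)
    (t := Subtype.val ⁻¹' closure P) (isClosed_closure.preimage continuous_subtype_val)
    (isClosed_closure.preimage continuous_subtype_val)
    (disjoint_left.2 fun e h1 h2 => e.2 ⟨h2, h1⟩)
  exact ⟨fun x => g ⟨π x, h x⟩, g.continuous.comp (hπ.subtype_mk _),
    fun x hx => h1 (subset_closure hx), fun x hx => h0 (subset_closure hx)⟩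

theorem sepf (C : Set W) (hC : C.Countable) : ∃ f : S → ℝ, Continuous f ∧
    (∀ a ∈ C, f ⟨dd a, Or.inr ⟨a, rfl⟩⟩ = 1) ∧ (∀ a, a ∉ C → f ⟨dd a, Or.inr ⟨a, rfl⟩⟩ = 0) ∧
    f ⟨one, Or.inl one_ne_zero⟩ = 0 := by
  obtain ⟨ξ, hξ⟩ := bound hC
  have := (cIic ξ).to_subtype
  let p : Cp X → ℝ × (Iic ξ → ℝ) := fun f => (f.1 ∞, fun g => f.1 (toD g : DW))
  have pc : Continuous p := (ev _).prodMk (continuous_pi fun g => ev _)
  obtain ⟨f, f1, f2, f3⟩ := ury (fun x : S => p x) (pc.comp continuous_subtype_val)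
    ((fun a => p (dd a)) '' C) (insert (p one) ((fun a => p (dd a)) '' Cᶜ)) (by
      rintro ⟨x, hx⟩ ⟨h1, h2⟩
      have h0 : (p x).1 = 0 := closure_minimal (t := {e : ℝ × (Iic ξ → ℝ) | e.1 = 0})
        (by rintro _ ⟨a, -, rfl⟩; rfl) (isClosed_eq continuous_fst continuous_const) h1
      rcases hx with hx | ⟨g, rfl⟩
      · exact hx h0
      rw [insert_eq, closure_union, closure_singleton] at h2
      rcases h2 with h2 | h2
      · have : (p (dd g)).1 = (p one).1 := congrArg Prod.fst h2
        exact zero_ne_one (α := ℝ) this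
      have key : ∀ D : Set W, g ≤ ξ → g ∉ D → p (dd g) ∉ closure ((fun a => p (dd a)) '' D) := by
        intro D hg hD h
        have := closure_minimal (t := {e : ℝ × (Iic ξ → ℝ) | e.2 ⟨g, hg⟩ ≤ 1 / 2}) (by
          rintro _ ⟨a, ha, rfl⟩
          exact dd0_le (b := a) (g := g) fun h => hD (h ▸ ha))
          (isClosed_le ((continuous_apply _).comp continuous_snd) continuous_const) h
        have h' : dd0 g g ≤ 1 / 2 := this
        rw [dd0, if_pos rfl] at h'
        norm_num at h'
      by_cases hg : g ≤ ξ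
      · by_cases hgC : g ∈ C
        · exact key Cᶜ hg (fun h => h hgC) h2
        · exact key _ hg hgC h1
      · have := closure_minimal (t := {e : ℝ × (Iic ξ → ℝ) | e.2 ⟨ξ, self_mem_Iic⟩ = 0}) (by
          rintro _ ⟨a, ha, rfl⟩
          show dd0 a ξ = 0
          rw [dd0, if_neg (hξ a ha).ne', if_neg (hξ a ha).not_gt])
          (isClosed_eq ((continuous_apply (⟨ξ, self_mem_Iic⟩ : Iic ξ)).comp continuous_snd)
            continuous_const) h1
        have h' : dd0 g ξ = 0 := this
        rw [dd0, if_neg (not_le.1 hg).ne, if_pos (not_le.1 hg)] at h'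
        exact absurd h' (by positivity))
  exact ⟨f, f1, fun a ha => f2 _ ⟨a, ha, rfl⟩, fun a ha => f3 _ (Or.inr ⟨a, ha, rfl⟩),
    f3 _ (Or.inl rfl)⟩

open Classical in
noncomputable def χ {J ι : Type} (C : ι → Set J) (a : J) : ι → ℝ := fun i => if a ∈ C i then 1 else 0

theorem image {J ι : Type} (j : J → W) (hj : Function.Injective j) (C : ι → Set J)
    (hC : ∀ i, (C i).Countable) :
    ∃ φ : S → ι → ℝ, Continuous φ ∧ insert 0 (range (χ C)) ⊆ range φ := by
  choose f f1 f2 f3 f4 using fun i => sepf (j '' C i) ((hC i).image j)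
  refine ⟨fun x i => f i x, continuous_pi f1, ?_⟩
  rintro _ (rfl | ⟨a, rfl⟩)
  · exact ⟨_, funext f4⟩
  · refine ⟨⟨dd (j a), Or.inr ⟨_, rfl⟩⟩, funext fun i => ?_⟩
    unfold χ
    split_ifs with h
    · exact f2 i _ ⟨a, h, rfl⟩
    · exact f3 i _ fun h' => h (hj.mem_set_image.1 h')

theorem tendsto_χ {J ι : Type} (C : ι → Set J) (u : Ultrafilter J) (z : ι → ℝ)
    (h1 : ∀ i, C i ∈ u → z i = 1) (h0 : ∀ i, C i ∉ u → z i = 0) : Tendsto (χ C) u (𝓝 z) := by
  refine tendsto_pi_nhds.2 fun i => tendsto_const_nhds.congr' ?_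
  by_cases h : C i ∈ u
  · filter_upwards [h] with a ha
    simp [χ, ha, h1 i h]
  · filter_upwards [Ultrafilter.compl_mem_iff_notMem.2 h] with a ha
    have : a ∉ C i := ha
    simp [χ, this, h0 i h]

theorem cpt {J ι : Type} (C : ι → Set J)
    (h : ∀ u : Ultrafilter J, (∀ i, C i ∉ u) ∨ ∃ a, ∀ i, C i ∈ u ↔ a ∈ C i) :
    IsCompact (insert 0 (range (χ C))) := by
  refine isCompact_iff_ultrafilter_le_nhds.2 fun f hf => ?_
  rcases Ultrafilter.union_mem_iff.1 (show {0} ∪ range (χ C) ∈ f from le_principal_iff.1 hf)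
    with h0 | h0
  · exact ⟨0, Or.inl rfl, (le_pure_iff.2 h0).trans (pure_le_nhds _)⟩
  · have := f.neBot'.comap_of_range_mem h0
    let u : Ultrafilter J := Ultrafilter.of (Filter.comap (χ C) f)
    have hu : Filter.map (χ C) u = f :=
      f.unique (map_le_iff_le_comap.2 (Ultrafilter.of_le _))
    rcases h u with h' | ⟨a, ha⟩
    · exact ⟨0, Or.inl rfl, hu ▸ tendsto_χ C u 0 (fun i hi => absurd hi (h' i)) fun _ _ => rfl⟩
    · exact ⟨χ C a, Or.inr ⟨a, rfl⟩, hu ▸ tendsto_χ C u _
        (fun i hi => if_pos ((ha i).1 hi)) fun i hi => if_neg fun h => hi ((ha i).2 h)⟩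

theorem cpt1 : IsCompact (insert 0 (range (χ fun ξ : W => Iic ξ))) := by
  refine cpt _ fun u => ?_
  by_cases h : ∃ ξ, Iic ξ ∈ u
  · obtain ⟨a, ha, hm⟩ := wellFounded_lt.has_min {ξ : W | Iic ξ ∈ u} h
    exact Or.inr ⟨a, fun i => ⟨fun hi => not_lt.1 (hm i hi),
      fun hi => mem_of_superset ha (Iic_subset_Iic.2 hi)⟩⟩
  · push Not at h
    exact Or.inl h

theorem ex1 {Z : Type} [TopologicalSpace Z] (g : Z → W → ℝ) (hg : IsInducing g)
    (hr : range g = insert 0 (range (χ fun ξ : W => Iic ξ))) :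
    ∃ (A : Set Z) (z : Z), z ∈ closure A ∧ z ∉ A ∧ ∀ A' ⊆ A, A'.Countable → closure A' ⊆ A := by
  obtain ⟨z, hz⟩ : (0 : W → ℝ) ∈ range g := hr ▸ Or.inl rfl
  refine ⟨{y | g y ≠ 0}, z, ?_, fun h => h hz, fun A' hA hc y hy => ?_⟩
  · rw [hg.closure_eq_preimage_closure_image, mem_preimage, hz]
    have hu : ∀ ξ : W, Iic ξ ∉ Ultrafilter.of (atTop : Filter W) := fun ξ h => by
      obtain ⟨b, hb⟩ := exists_gt ξ
      obtain ⟨c, h1, h2⟩ := (Ultrafilter.of (atTop : Filter W)).nonempty_of_mem
        (inter_mem h (Ultrafilter.of_le _ (Ici_mem_atTop b)))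
      exact absurd (hb.trans_le (le_trans h2 h1)) (lt_irrefl _)
    refine mem_closure_of_tendsto (tendsto_χ (fun ξ : W => Iic ξ) (Ultrafilter.of atTop) 0
      (fun i hi => absurd hi (hu i)) fun _ _ => rfl) (Eventually.of_forall fun a => ?_)
    obtain ⟨y, hy⟩ : χ (fun ξ : W => Iic ξ) a ∈ range g := hr ▸ Or.inr ⟨a, rfl⟩
    refine ⟨y, fun h => ?_, hy⟩
    have := congrFun (hy.symm.trans h) a
    simp [χ] at this
  · have : ∀ y : A', ∃ a, χ (fun ξ : W => Iic ξ) a = g y := fun y =>
      (show g y ∈ insert 0 (range (χ fun ξ : W => Iic ξ)) from hr ▸ ⟨y, rfl⟩).resolve_left (hA y.2)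
    choose a ha using this
    have := hc.to_subtype
    obtain ⟨ξ, hξ⟩ := bound (countable_range a)
    have h1 : g y ξ = 1 := closure_minimal (t := {y | g y ξ = 1}) (fun y hy => by
      show g y ξ = 1
      rw [← ha ⟨y, hy⟩]
      exact if_pos (hξ _ ⟨_, rfl⟩).le)
      (isClosed_eq ((continuous_apply ξ).comp hg.continuous) continuous_const) hy
    intro h
    rw [h] at h1
    exact zero_ne_one h1

noncomputable def aa (α : W) (n : ℕ) : ℕ × Finset ℕ :=
  (n, (Finset.range n).filter fun i => inj_cantor.choose α i = true)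

theorem aa_ne {α β : W} (h : α ≠ β) : ∀ᶠ n in atTop, aa α n ∉ range (aa β) := by
  obtain ⟨i, hi⟩ := Function.ne_iff.1 (inj_cantor.choose_spec.ne h)
  filter_upwards [eventually_gt_atTop i] with n hn
  rintro ⟨m, hm⟩
  obtain ⟨rfl, h2⟩ := Prod.mk.inj hm
  have := Finset.ext_iff.1 h2 i
  simp only [Finset.mem_filter, Finset.mem_range, hn, true_and] at this
  exact hi (Bool.eq_iff_iff.2 this.symm)

abbrev JJ : Type := (ℕ × Finset ℕ) ⊕ W

def CC : JJ → Set JJ
  | Sum.inl t => {Sum.inl t}
  | Sum.inr α => insert (Sum.inr α) (range fun n => Sum.inl (aa α n))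

theorem CC_count (i : JJ) : (CC i).Countable := by
  rcases i with t | α
  · exact countable_singleton _
  · exact (countable_range _).insert _

theorem cpt2 : IsCompact (insert 0 (range (χ CC))) := by
  refine cpt _ fun u => ?_
  by_cases h : ∃ a, {a} ∈ u
  · obtain ⟨a, ha⟩ := h
    refine Or.inr ⟨a, fun i => ⟨fun hi => ?_, fun hi => mem_of_superset ha (by simpa using hi)⟩⟩
    obtain ⟨b, h1, h2⟩ := u.nonempty_of_mem (inter_mem hi ha)
    exact (show b = a from h2) ▸ h1
  push Not at h
  by_cases h' : ∃ α, CC (Sum.inr α) ∈ u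
  · obtain ⟨α, hα⟩ := h'
    refine Or.inr ⟨Sum.inr α, ?_⟩
    rintro (t | β)
    · exact iff_of_false (h _) (by simp [CC])
    · by_cases e : α = β
      · subst e
        exact iff_of_true hα (Or.inl rfl)
      · refine iff_of_false (fun hβ => ?_) (by simp [CC, e])
        obtain ⟨m, hm⟩ := eventually_atTop.1 (aa_ne e)
        have hf : (CC (Sum.inr α) ∩ CC (Sum.inr β)).Finite := by
          refine ((finite_lt_nat m).image fun n => Sum.inl (aa α n)).subset ?_
          rintro _ ⟨rfl | ⟨n, rfl⟩, h2⟩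
          · simp [CC, e] at h2
          · refine ⟨n, ?_, rfl⟩
            by_contra hn
            exact hm n (not_lt.1 hn) (by simpa [CC] using h2)
        obtain ⟨x, -, hx⟩ := Ultrafilter.eq_pure_of_finite_mem hf (inter_mem hα hβ)
        exact h x (by simp [hx])
  · push Not at h'
    refine Or.inl ?_
    rintro (t | β)
    · exact h _
    · exact h' β

theorem ex2 {Z : Type} [TopologicalSpace Z] (g : Z → JJ → ℝ) (hg : IsEmbedding g)
    (hr : range g = insert 0 (range (χ CC))) :
    ∃ A : Set Z, A.Infinite ∧ A.Countable ∧ ∃ (z : W → Z) (U : W → Set Z),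
      (∀ α, z α ∈ closure A ∧ IsOpen (U α) ∧ z α ∈ U α) ∧ ∀ α β, z β ∈ U α → β = α := by
  have : ∀ a, ∃ y, g y = χ CC a := fun a => show χ CC a ∈ range g from hr ▸ Or.inr ⟨a, rfl⟩
  choose y hy using this
  refine ⟨range fun t => y (Sum.inl t), infinite_range_of_injective fun s t h => ?_,
    countable_range _, fun α => y (Sum.inr α), fun α => {z | 1 / 2 < g z (Sum.inr α)},
    fun α => ⟨?_, isOpen_lt continuous_const ((continuous_apply _).comp hg.continuous), ?_⟩,
    fun α β h => ?_⟩
  · have h1 := congrFun (((hy _).symm.trans (congrArg g h)).trans (hy _)) (Sum.inl s)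
    by_contra hne
    simp [χ, CC, Ne.symm hne] at h1
  · refine mem_closure_of_tendsto (f := fun n => y (Sum.inl (aa α n))) (b := atTop) ?_
      (Eventually.of_forall fun n => ⟨_, rfl⟩)
    rw [hg.tendsto_nhds_iff, hy]
    refine tendsto_pi_nhds.2 fun i => tendsto_const_nhds.congr' ?_
    rcases i with t | β
    · filter_upwards [eventually_gt_atTop t.1] with n hn
      have : aa α n ≠ t := fun h => hn.ne' (congrArg Prod.fst h)
      simp [hy, χ, CC, this]
    · by_cases e : α = β
      · subst e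
        exact Eventually.of_forall fun n => by simp [hy, χ, CC]
      · filter_upwards [aa_ne e] with n hn
        have : ∀ m, aa β m ≠ aa α n := fun m h => hn ⟨m, h⟩
        simp [hy, χ, CC, e, this]
  · simp only [mem_ofPred_eq, hy, χ, CC, mem_insert_iff, true_or, if_true]
    norm_num
  · by_contra hne
    simp only [mem_ofPred_eq, hy, χ, CC, mem_insert_iff, Sum.inr.injEq, hne, mem_range,
      reduceCtorEq, exists_false, or_self, if_false] at h
    norm_num at h

theorem JJ_inj : ∃ j : JJ → W, Function.Injective j := by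
  have : Cardinal.mk JJ ≤ Cardinal.mk W := by
    rw [Cardinal.mk_sum, Cardinal.lift_id, Cardinal.lift_id]
    exact Cardinal.add_le_of_le (Cardinal.aleph0_le_mk W)
      (Cardinal.mk_le_aleph0.trans (Cardinal.aleph0_le_mk W)) le_rfl
  obtain ⟨e⟩ := this
  exact ⟨e, e.injective⟩

end Pool.Agent.H17.EbIm
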