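import Mathlib

namespace Pool.Agent.H17.Ell15

open Polynomial

lemma sq_class (a b c m n : ℤ) (s : ℚ) (hn : n ≠ 0) (hmn : IsCoprime m n) (h1 : IsCoprime m c)
    (h2 : IsCoprime n a)
    (h : ((m : ℚ) / n) * (a * ((m : ℚ) / n) ^ 2 + b * ((m : ℚ) / n) + c) = s ^ 2) :
    ∃ r : ℚ, (m : ℚ) / n = r ^ 2 ∨ (m : ℚ) / n = -r ^ 2 := by
  have hn' : (n : ℚ) ≠ 0 := by exact_mod_cast hn
  set N : ℤ := a * m ^ 2 + b * m * n + c * n ^ 2 with hN
  have e : ((m * n * N : ℤ) : ℚ) = (s * n ^ 2) ^ 2 := by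
    rw [mul_pow, ← h, hN]; push_cast; field_simp
  have hsq : IsSquare (m * n * N) := by
    rw [← Rat.isSquare_intCast_iff]
    exact ⟨s * n ^ 2, by rw [e]; ring⟩
  obtain ⟨k, hk⟩ := hsq
  have c1 : IsCoprime m N := by
    have : N = c * n ^ 2 + m * (a * m + b * n) := by rw [hN]; ring
    rw [this]
    exact (h1.mul_right hmn.pow_right).add_mul_left_right _
  have c2 : IsCoprime n N := by
    have : N = a * m ^ 2 + n * (b * m + c * n) := by rw [hN]; ring
    rw [this]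
    exact (h2.mul_right hmn.symm.pow_right).add_mul_left_right _
  obtain ⟨u, hu⟩ := Int.sq_of_isCoprime (a := m * n) (b := N) (c := k) (c1.mul_left c2)
    (by rw [hk]; ring)
  refine ⟨u / n, ?_⟩
  rcases hu with hu | hu
  · left
    have : (m : ℚ) * n = u ^ 2 := by exact_mod_cast hu
    field_simp
    linarith
  · right
    have : (m : ℚ) * n = -u ^ 2 := by exact_mod_cast hu
    field_simp
    linarith

lemma cop (q : ℚ) : IsCoprime q.num (q.den : ℤ) := by
  rw [Int.isCoprime_iff_gcd_eq_one]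
  exact q.reduced

lemma xsq (x y : ℚ) (h : y ^ 2 = x ^ 3 - 15 * x ^ 2 + x) : ∃ t : ℚ, x = t ^ 2 := by
  obtain ⟨r, hr⟩ := sq_class 1 (-15) 1 x.num x.den y (by exact_mod_cast x.den_nz) (cop x)
    isCoprime_one_right isCoprime_one_right (by
      rw [Int.cast_natCast, Rat.num_div_den]; push_cast; linarith)
  rw [Int.cast_natCast, Rat.num_div_den] at hr
  rcases hr with hr | hr
  · exact ⟨r, hr⟩
  · refine ⟨0, ?_⟩
    have h0 : x ≤ 0 := by rw [hr]; nlinarith [sq_nonneg r]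
    have h1 : 0 < x ^ 2 - 15 * x + 1 := by nlinarith [sq_nonneg x]
    have h2 : 0 ≤ x * (x ^ 2 - 15 * x + 1) := by nlinarith [sq_nonneg y]
    have := nonneg_of_mul_nonneg_left h2 h1
    linarith

/-- second descent: `X (X^2 + 30 X + l k)` a square, `l` not dividing the numerator -/
lemma Xclass (l k : ℕ) (hl : l.Prime) (hk : k.Prime) (X s : ℚ)
    (h : X * (X ^ 2 + 30 * X + l * k) = s ^ 2) (hX : ¬ (l : ℤ) ∣ X.num) :
    ∃ r : ℚ, X = r ^ 2 ∨ X = -r ^ 2 ∨ X = k * r ^ 2 ∨ X = -k * r ^ 2 := by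
  have hl' : Prime (l : ℤ) := Nat.prime_iff_prime_int.1 hl
  have hk' : Prime (k : ℤ) := Nat.prime_iff_prime_int.1 hk
  have hk0 : (k : ℚ) ≠ 0 := by exact_mod_cast hk.ne_zero
  have hd : (X.den : ℚ) ≠ 0 := by exact_mod_cast X.den_nz
  have c1 : IsCoprime X.num (l : ℤ) := ((Prime.coprime_iff_not_dvd hl').2 hX).symm
  by_cases hkX : (k : ℤ) ∣ X.num
  · obtain ⟨m, hm⟩ := hkX
    have hc := cop X
    rw [hm] at hc c1
    have e : (m : ℚ) / (X.den : ℤ) = X / k := by
      have : X = (k * m : ℤ) / (X.den : ℚ) := by rw [← hm, Rat.num_div_den]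
      conv_rhs => rw [this]
      push_cast; field_simp
    obtain ⟨r, hr⟩ := sq_class k 30 l m X.den (s / k) (by exact_mod_cast X.den_nz)
      hc.of_mul_left_right c1.of_mul_left_right hc.of_mul_left_left.symm (by
        rw [e, div_pow s, ← h]; push_cast; field_simp)
    rw [e] at hr
    refine ⟨r, ?_⟩
    rcases hr with hr | hr
    · right; right; left; field_simp at hr; linarith
    · right; right; right; field_simp at hr; linarith
  · have c2 : IsCoprime X.num (k : ℤ) := ((Prime.coprime_iff_not_dvd hk').2 hkX).symm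
    obtain ⟨r, hr⟩ := sq_class 1 30 (l * k) X.num X.den s (by exact_mod_cast X.den_nz) (cop X)
      (c1.mul_right c2) isCoprime_one_right (by
        rw [Int.cast_natCast, Rat.num_div_den]; push_cast; linarith)
    rw [Int.cast_natCast, Rat.num_div_den] at hr
    exact ⟨r, by tauto⟩

variable {p : ℕ} [hp : Fact p.Prime]

lemma red (z : ℚ_[p]) (c n : ℤ) (hc : ‖(c : ℚ_[p])‖ = 1) (h : ‖(c : ℚ_[p]) * z ^ 2 - n‖ < 1) :
    ∃ u : ZMod p, (c : ZMod p) * u ^ 2 = n := by
  have h1 : ‖(c : ℚ_[p]) * z ^ 2‖ ≤ 1 := by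
    have := IsUltrametricDist.norm_add_le_max ((c : ℚ_[p]) * z ^ 2 - n) (n : ℚ_[p])
    rw [sub_add_cancel] at this
    exact this.trans (max_le h.le (Padic.norm_int_le_one n))
  rw [norm_mul, hc, one_mul, norm_pow] at h1
  have h2 : ‖z‖ ≤ 1 := by nlinarith [norm_nonneg z]
  let w : ℤ_[p] := ⟨z, h2⟩
  have h3 : ‖((c : ℤ_[p]) * w ^ 2 - n)‖ < 1 := by
    rw [PadicInt.norm_def]; push_cast; exact h
  have h4 : PadicInt.toZMod (p := p) ((c : ℤ_[p]) * w ^ 2 - (n : ℤ_[p])) = 0 := by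
    rw [← RingHom.mem_ker, PadicInt.ker_toZMod, IsLocalRing.mem_maximalIdeal,
      PadicInt.mem_nonunits]
    exact h3
  refine ⟨PadicInt.toZMod w, ?_⟩
  simpa [sub_eq_zero] using h4

lemma sqrt_lift (c a : ℤ) (h : ‖((a ^ 2 - c : ℤ) : ℚ_[p])‖ < ‖((2 * a : ℤ) : ℚ_[p])‖ ^ 2) :
    ∃ z : ℚ_[p], z ^ 2 = c ∧ ‖z - a‖ < ‖((2 * a : ℤ) : ℚ_[p])‖ := by
  have e1 : (X ^ 2 - C c : ℤ[X]).aeval (a : ℤ_[p]) = ((a ^ 2 - c : ℤ) : ℤ_[p]) := by simp
  have e2 : (X ^ 2 - C c : ℤ[X]).derivative.aeval (a : ℤ_[p]) = ((2 * a : ℤ) : ℤ_[p]) := by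
    have : (X ^ 2 - C c : ℤ[X]).derivative = C 2 * X := by simp
    rw [this, map_mul, aeval_C, aeval_X]; simp
  obtain ⟨z, h1, h2, -⟩ := hensels_lemma (p := p) (F := (X ^ 2 - C c : ℤ[X])) (a := (a : ℤ_[p]))
    (by rw [e1, e2, PadicInt.norm_def, PadicInt.norm_def, PadicInt.coe_intCast, PadicInt.coe_intCast]; exact h)
  refine ⟨z, ?_, ?_⟩
  · have : z ^ 2 = (c : ℤ_[p]) := by simpa [sub_eq_zero] using h1
    exact_mod_cast congrArg (fun w : ℤ_[p] => (w : ℚ_[p])) this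
  · rw [e2, PadicInt.norm_def, PadicInt.norm_def, PadicInt.coe_intCast, PadicInt.coe_sub,
      PadicInt.coe_intCast] at h2
    exact h2

lemma norm_unit (n : ℤ) (h : (n : ZMod p) ≠ 0) : ‖(n : ℚ_[p])‖ = 1 := by
  refine le_antisymm (Padic.norm_int_le_one n) (not_lt.1 fun h1 => h ?_)
  rw [Padic.norm_intCast_lt_one_iff] at h1
  exact (ZMod.intCast_zmod_eq_zero_iff_dvd n p).2 h1

lemma norm_lt (n : ℤ) (h : (n : ZMod p) = 0) : ‖(n : ℚ_[p])‖ < 1 := by
  rw [Padic.norm_intCast_lt_one_iff]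
  exact (ZMod.intCast_zmod_eq_zero_iff_dvd n p).1 h

lemma sqrt_lift' (c a : ℤ) (h : ((a ^ 2 - c : ℤ) : ZMod p) = 0) (h2 : ((2 * a : ℤ) : ZMod p) ≠ 0) :
    ∃ z : ℚ_[p], z ^ 2 = c ∧ ‖z - a‖ < 1 := by
  have := sqrt_lift (p := p) c a (by rw [norm_unit _ h2]; simpa using norm_lt _ h)
  rwa [norm_unit _ h2] at this

/-- counting: a point with non-square abscissa over a finite field -/
lemma count {F : Type} [Field F] [Fintype F] (h2 : (2 : F) ≠ 0) (hD : (221 : F) ≠ 0) :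
    ∃ x : F, ¬ IsSquare x ∧ IsSquare (x ^ 3 - 15 * x ^ 2 + x) := by
  classical
  by_contra hc
  push Not at hc
  have hchar : ringChar F ≠ 2 := fun h => h2 (by
    have := ringChar.spec F 2
    rw [h] at this
    exact_mod_cast this.2 dvd_rfl)
  obtain ⟨n, hn⟩ := FiniteField.exists_nonsquare hchar
  have hn0 : n ≠ 0 := fun h => hn (by rw [h]; exact IsSquare.zero)
  have hg : ∀ u : F, ∃ w : F, w ≠ 0 ∧ w ^ 2 = (n * u ^ 2) ^ 2 - 15 * (n * u ^ 2) + 1 := by
    intro u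
    by_cases hu : u = 0
    · exact ⟨1, one_ne_zero, by simp [hu]⟩
    have h1 : ¬ IsSquare (n * u ^ 2) := by
      rintro ⟨v, hv⟩
      exact hn ⟨v / u, by field_simp; linear_combination hv⟩
    have h3 := hc _ h1
    set x := n * u ^ 2
    have q1 := quadraticChar_neg_one_iff_not_isSquare.2 h1
    have q2 := quadraticChar_neg_one_iff_not_isSquare.2 h3
    have e : x ^ 3 - 15 * x ^ 2 + x = x * (x ^ 2 - 15 * x + 1) := by ring
    rw [e, map_mul, q1] at q2
    have q3 : quadraticChar F (x ^ 2 - 15 * x + 1) = 1 := by linarith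
    have h0 : x ^ 2 - 15 * x + 1 ≠ 0 := fun h => by rw [h] at q3; simp at q3
    obtain ⟨w, hw⟩ := (quadraticChar_one_iff_isSquare h0).1 q3
    exact ⟨w, fun h => h0 (by rw [hw, h, mul_zero]), by rw [hw]; ring⟩
  choose w hw0 hw using hg
  -- an even choice of square roots, with a sign depending on a choice between `u` and `-u`
  let o : F ≃ Fin (Fintype.card F) := Fintype.equivFin F
  let v : F → F := fun u => if o u ≤ o (-u) then w u else -w (-u)
  have hv : ∀ u, v u ^ 2 = (n * u ^ 2) ^ 2 - 15 * (n * u ^ 2) + 1 := fun u => by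
    simp only [v]; split_ifs
    · exact hw u
    · rw [neg_sq, hw, neg_sq]
  let f : F → F := fun u => 2 * v u - 2 * (n * u ^ 2) + 15
  have hf : ∀ u, f u * (2 * v u + 2 * (n * u ^ 2) - 15) = -221 := fun u => by
    simp only [f]; linear_combination 4 * hv u
  have hf0 : ∀ u, f u ≠ 0 := fun u h => hD (by
    have := hf u
    rw [h, zero_mul] at this
    exact neg_eq_zero.1 this.symm)
  have hinj : Function.Injective f := by
    intro a b hab
    have e1 : 2 * v a + 2 * (n * a ^ 2) - 15 = 2 * v b + 2 * (n * b ^ 2) - 15 :=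
      mul_left_cancel₀ (hf0 a) (by rw [hf a, hab, hf b])
    have e2 : 2 * v a - 2 * (n * a ^ 2) + 15 = 2 * v b - 2 * (n * b ^ 2) + 15 := hab
    have h4 : (2 * 2 : F) ≠ 0 := mul_ne_zero h2 h2
    have e3 : v a = v b := mul_left_cancel₀ h4 (by linear_combination e1 + e2)
    have e4 : a ^ 2 = b ^ 2 :=
      mul_left_cancel₀ (mul_ne_zero h4 hn0) (by linear_combination e1 - e2)
    rcases sq_eq_sq_iff_eq_or_eq_neg.1 e4 with h | h
    · exact h
    · by_contra hne
      subst h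
      simp only [v, neg_neg] at e3
      have hne' : o (-b) ≠ o b := fun h => hne (o.injective h)
      rcases lt_or_gt_of_ne hne' with h | h
      · rw [if_pos h.le, if_neg (not_le.2 h)] at e3
        exact hw0 (-b) (mul_left_cancel₀ h2 (by linear_combination e3))
      · rw [if_neg (not_le.2 h), if_pos h.le] at e3
        exact hw0 b (mul_left_cancel₀ h2 (by linear_combination -e3))
  obtain ⟨u, hu⟩ := (Finite.injective_iff_surjective.1 hinj) 0
  exact hf0 u hu

end Pool.Agent.H17.Ell15
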