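import Mathlib

set_option autoImplicit false

namespace Pool.Agent.H17.FnTop
open Set Filter Topology TopologicalSpace

/-- Preimages of open sets of `Z` under continuous maps `Y → Z`. -/
def OZ (Y Z : Type) [TopologicalSpace Y] [TopologicalSpace Z] : Set (Set Y) :=
  {W | ∃ (f : C(Y, Z)) (U : Set Z), IsOpen U ∧ W = f ⁻¹' U}

/-- `Z`-Scott open families of open sets of `Y`. -/
def ZScott (Y Z : Type) [TopologicalSpace Y] [TopologicalSpace Z] (H : Set (Set Y)) : Prop :=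
  (∀ W ∈ H, IsOpen W) ∧ (∀ W ∈ H, W ∈ OZ Y Z → ∀ V : Set Y, IsOpen V → W ⊆ V → V ∈ H) ∧
    ∀ 𝒲 : Set (Set Y), 𝒲 ⊆ OZ Y Z → ⋃₀ 𝒲 ∈ H → ∃ 𝒱 ⊆ 𝒲, 𝒱.Finite ∧ ⋃₀ 𝒱 ∈ H

/-- The topology `t_1^Z` on `C(Y, Z)`. -/
@[reducible] def t1Z (Y Z : Type) [TopologicalSpace Y] [TopologicalSpace Z] :
    TopologicalSpace C(Y, Z) :=
  generateFrom {S | ∃ (H : Set (Set Y)) (U : Set Z), ZScott Y Z H ∧ IsOpen U ∧
    S = {f : C(Y, Z) | f ⁻¹' U ∈ H}}

noncomputable def fn {Y : Type} [TopologicalSpace Y] (A : Set Y) (hA : IsClopen A) : C(Y, Bool) :=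
  ⟨A.boolIndicator, (continuous_boolIndicator_iff_isClopen A).2 hA⟩

theorem fn_pre {Y : Type} [TopologicalSpace Y] (A : Set Y) (hA : IsClopen A) (U : Set Bool) :
    fn A hA ⁻¹' U = {y | (y ∈ A ∧ true ∈ U) ∨ (y ∉ A ∧ false ∈ U)} := by
  ext y
  by_cases h : y ∈ A
  · simp [fn, (A.mem_iff_boolIndicator y).1 h, h]
  · simp [fn, (A.notMem_iff_boolIndicator y).1 h, h]

theorem clopen_OZ {Y : Type} [TopologicalSpace Y] {A : Set Y} (hA : IsClopen A) :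
    A ∈ OZ Y Bool :=
  ⟨fn A hA, {true}, isOpen_discrete _, by rw [fn_pre]; ext y; simp⟩

theorem OZ_open {Y Z : Type} [TopologicalSpace Y] [TopologicalSpace Z] {A : Set Y}
    (hA : A ∈ OZ Y Z) : IsOpen A := by
  obtain ⟨f, U, hU, rfl⟩ := hA
  exact hU.preimage f.continuous

theorem OZ_clopen {Y : Type} [TopologicalSpace Y] {A : Set Y} (hA : A ∈ OZ Y Bool) :
    IsClopen A := by
  obtain ⟨f, U, -, rfl⟩ := hA
  exact (isClopen_discrete U).preimage f.continuous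

theorem ZScott.seq {Y : Type} [TopologicalSpace Y] {H : Set (Set Y)} (hH : ZScott Y Bool H)
    (W : ℕ → Set Y) (hW : ∀ n, IsClopen (W n)) (hm : Monotone W) (hU : (⋃ n, W n) ∈ H) :
    ∃ N, ∀ V : Set Y, IsOpen V → W N ⊆ V → V ∈ H := by
  obtain ⟨𝒱, h1, h2, h3⟩ := hH.2.2 (range W) (by rintro _ ⟨n, rfl⟩; exact clopen_OZ (hW n))
    (by rwa [sUnion_range])
  have h1' : ∀ A ∈ 𝒱, ∃ n, W n = A := fun A hA => h1 hA
  choose! g hg using h1'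
  obtain ⟨N, hN⟩ := (h2.image g).bddAbove
  refine ⟨N, fun V hV h => hH.2.1 _ h3 (clopen_OZ ?_) V hV ?_⟩
  · rw [sUnion_eq_biUnion]
    exact h2.isClopen_biUnion fun A hA => hg A hA ▸ hW _
  · rintro y ⟨A, hA, hy⟩
    exact h (hm (hN ⟨A, hA, rfl⟩) ((hg A hA).symm ▸ hy : y ∈ W (g A)))

/-- The Arens-Fort space. -/
def AF : Type := Option (ℕ × ℕ)

instance : TopologicalSpace AF where
  IsOpen U := none ∈ U → ∃ N, ∀ n, N ≤ n → ∃ f, ∀ k, f ≤ k → some (n, k) ∈ U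
  isOpen_univ := fun _ => ⟨0, fun _ _ => ⟨0, fun _ _ => trivial⟩⟩
  isOpen_inter := by
    intro U V hU hV h
    obtain ⟨N, hN⟩ := hU h.1
    obtain ⟨M, hM⟩ := hV h.2
    refine ⟨max N M, fun n hn => ?_⟩
    obtain ⟨f, hf⟩ := hN n (le_of_max_le_left hn)
    obtain ⟨g, hg⟩ := hM n (le_of_max_le_right hn)
    exact ⟨max f g, fun k hk => ⟨hf k (le_of_max_le_left hk), hg k (le_of_max_le_right hk)⟩⟩
  isOpen_sUnion := by
    rintro S hS ⟨U, hU, h⟩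
    obtain ⟨N, hN⟩ := hS U hU h
    refine ⟨N, fun n hn => ?_⟩
    obtain ⟨f, hf⟩ := hN n hn
    exact ⟨f, fun k hk => ⟨U, hU, hf k hk⟩⟩

theorem clopen_compl {A : Set AF} (h0 : none ∉ A)
    (h : ∃ N, ∀ n, N ≤ n → ∃ f, ∀ k, f ≤ k → some (n, k) ∉ A) : IsClopen Aᶜ :=
  ⟨isClosed_compl_iff.2 fun h1 => absurd h1 h0, fun _ => h⟩

def seg (n m : ℕ) : Set AF := {y | ∃ k, k < m ∧ y = some (n, k)}
def col (n : ℕ) : Set AF := {y | ∃ k, y = some (n, k)}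
def tl (g : ℕ → ℕ) (N : ℕ) : Set AF := {y | ∃ n k, N ≤ n ∧ k < g n ∧ y = some (n, k)}

theorem cl_seg (n m : ℕ) : IsClopen (seg n m)ᶜ :=
  clopen_compl (by rintro ⟨_, _, h⟩; cases h)
    ⟨0, fun _ _ => ⟨m, fun k hk => by rintro ⟨_, h, e⟩; cases e; omega⟩⟩

theorem cl_col (n : ℕ) : IsClopen (col n)ᶜ :=
  clopen_compl (by rintro ⟨_, h⟩; cases h)
    ⟨n + 1, fun _ hn => ⟨0, fun k _ => by rintro ⟨_, e⟩; cases e; omega⟩⟩

theorem cl_tl (g : ℕ → ℕ) (N : ℕ) : IsClopen (tl g N)ᶜ :=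
  clopen_compl (by rintro ⟨_, _, _, _, h⟩; cases h)
    ⟨0, fun n _ => ⟨g n, fun k hk => by rintro ⟨_, _, _, h, e⟩; cases e; omega⟩⟩

theorem propP (g : ℕ → ℕ) (W : Set C(AF, Bool)) (hW : IsOpen[t1Z AF Bool] W) :
    fn univ isClopen_univ ∈ W → ∃ N, ∀ n, N ≤ n → fn _ (cl_seg n (g n)) ∈ W := by
  induction hW with
  | basic S hS =>
    obtain ⟨H, U, hH, hU, rfl⟩ := hS
    intro h
    rw [mem_ofPred_eq, fn_pre] at h
    by_cases ht : true ∈ U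
    · obtain ⟨N, hN⟩ := hH.seq (fun N => (tl g N)ᶜ) (cl_tl g)
        (fun a b hab => compl_subset_compl.2 fun y ⟨n, k, h1, h2⟩ => ⟨n, k, hab.trans h1, h2⟩) (by
          have : (⋃ N, (tl g N)ᶜ) =
              {y | (y ∈ (univ : Set AF) ∧ true ∈ U) ∨ (y ∉ (univ : Set AF) ∧ false ∈ U)} := by
            ext y
            simp only [mem_iUnion, mem_ofPred_eq, mem_univ, ht, and_self, true_or, iff_true]
            rcases y with _ | ⟨n, k⟩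
            · exact ⟨0, by rintro ⟨_, _, _, _, h⟩; cases h⟩
            · exact ⟨n + 1, by rintro ⟨_, _, h, _, e⟩; cases e; omega⟩
          rw [this]; exact h)
      refine ⟨N, fun n hn => hN _ (hU.preimage (fn _ _).continuous) fun y hy => ?_⟩
      rw [fn_pre]
      exact Or.inl ⟨fun ⟨k, h1, h2⟩ => hy ⟨n, k, hn, h1, h2⟩, ht⟩
    · refine ⟨0, fun n _ => hH.2.1 _ h (clopen_OZ ?_) _ (hU.preimage (fn _ _).continuous) ?_⟩
      · simpa [ht] using isClopen_empty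
      · simp [ht]
  | univ => exact fun _ => ⟨0, fun _ _ => trivial⟩
  | inter S T _ _ h1 h2 =>
    intro h
    obtain ⟨N, hN⟩ := h1 h.1
    obtain ⟨M, hM⟩ := h2 h.2
    exact ⟨max N M, fun n hn => ⟨hN n (le_of_max_le_left hn), hM n (le_of_max_le_right hn)⟩⟩
  | sUnion S _ ih =>
    rintro ⟨T, hT, h⟩
    obtain ⟨N, hN⟩ := ih T hT h
    exact ⟨N, fun n hn => ⟨T, hT, hN n hn⟩⟩

theorem propQ (n : ℕ) (W : Set C(AF, Bool)) (hW : IsOpen[t1Z AF Bool] W) :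
    fn _ (cl_col n) ∈ W → ∃ M, ∀ m, M ≤ m → fn _ (cl_seg n m) ∈ W := by
  induction hW with
  | basic S hS =>
    obtain ⟨H, U, hH, hU, rfl⟩ := hS
    intro h
    rw [mem_ofPred_eq, fn_pre] at h
    obtain ⟨N, hN⟩ := hH.seq
      (fun m => {y | (y ∈ (col n)ᶜ ∧ true ∈ U) ∨ (y ∈ seg n m ∧ false ∈ U)})
      (fun m => by
        have h1 := cl_col n
        have h2 : IsClopen (seg n m) := by simpa using (cl_seg n m).compl
        exact (h1.inter ⟨isClosed_const, isOpen_const⟩).union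
          (h2.inter ⟨isClosed_const, isOpen_const⟩))
      (fun a b hab y hy => hy.imp_right fun ⟨⟨k, h1, h2⟩, h3⟩ => ⟨⟨k, h1.trans_le hab, h2⟩, h3⟩)
      (by
        have : (⋃ m, {y | (y ∈ (col n)ᶜ ∧ true ∈ U) ∨ (y ∈ seg n m ∧ false ∈ U)}) =
            {y | (y ∈ (col n)ᶜ ∧ true ∈ U) ∨ (y ∉ (col n)ᶜ ∧ false ∈ U)} := by
          ext y
          simp only [mem_iUnion, mem_ofPred_eq]
          constructor
          · rintro ⟨m, h | ⟨⟨k, -, h⟩, h'⟩⟩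
            · exact Or.inl h
            · exact Or.inr ⟨fun h'' => h'' ⟨k, h⟩, h'⟩
          · rintro (h | ⟨h, h'⟩)
            · exact ⟨0, Or.inl h⟩
            · obtain ⟨k, hk⟩ := not_not.1 h
              exact ⟨k + 1, Or.inr ⟨⟨k, Nat.lt_succ_self k, hk⟩, h'⟩⟩
        rw [this]; exact h)
    refine ⟨N, fun m hm => hN _ (hU.preimage (fn _ _).continuous) fun y hy => ?_⟩
    rw [fn_pre]
    rcases hy with ⟨h1, h2⟩ | ⟨⟨k, h1, h2⟩, h3⟩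
    · exact Or.inl ⟨fun ⟨k, _, h⟩ => h1 ⟨k, h⟩, h2⟩
    · exact Or.inr ⟨fun h => h ⟨k, h1.trans_le hm, h2⟩, h3⟩
  | univ => exact fun _ => ⟨0, fun _ _ => trivial⟩
  | inter S T _ _ h1 h2 =>
    intro h
    obtain ⟨N, hN⟩ := h1 h.1
    obtain ⟨M, hM⟩ := h2 h.2
    exact ⟨max N M, fun n hn => ⟨hN n (le_of_max_le_left hn), hM n (le_of_max_le_right hn)⟩⟩
  | sUnion S _ ih =>
    rintro ⟨T, hT, h⟩
    obtain ⟨N, hN⟩ := ih T hT h
    exact ⟨N, fun n hn => ⟨T, hT, hN n hn⟩⟩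

def H0 : Set (Set AF) := {V | IsOpen V ∧ none ∈ V ∧ ∀ n, ∃ k, some (n, k) ∈ V}

theorem zs_H0 : ZScott AF Bool H0 := by
  refine ⟨fun W hW => hW.1, fun W hW _ V hV h =>
    ⟨hV, h hW.2.1, fun n => (hW.2.2 n).imp fun k hk => h hk⟩, ?_⟩
  rintro 𝒲 h𝒲 ⟨-, ⟨W0, hW0, h0⟩, h1⟩
  obtain ⟨N, hN⟩ := OZ_open (h𝒲 hW0) h0
  choose k W hW hk using h1
  refine ⟨insert W0 (W '' Iio N), ?_, ((finite_Iio N).image W).insert _, ?_, ⟨W0, Or.inl rfl, h0⟩,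
    fun n => ?_⟩
  · rintro _ (rfl | ⟨n, -, rfl⟩)
    · exact hW0
    · exact hW n
  · refine isOpen_sUnion ?_
    rintro _ (rfl | ⟨n, -, rfl⟩)
    · exact OZ_open (h𝒲 hW0)
    · exact OZ_open (h𝒲 (hW n))
  · by_cases hn : N ≤ n
    · obtain ⟨f, hf⟩ := hN n hn
      exact ⟨f, W0, Or.inl rfl, hf f le_rfl⟩
    · exact ⟨k n, W n, Or.inr ⟨n, not_le.1 hn, rfl⟩, hk n⟩

theorem not_regular : ¬ @RegularSpace C(AF, Bool) (t1Z AF Bool) := by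
  intro hR
  let _i : TopologicalSpace C(AF, Bool) := t1Z AF Bool
  have hO : IsOpen[t1Z AF Bool] {f : C(AF, Bool) | f ⁻¹' {true} ∈ H0} :=
    isOpen_generateFrom_of_mem ⟨H0, {true}, zs_H0, isOpen_discrete _, rfl⟩
  have h1 : fn univ isClopen_univ ∈ {f : C(AF, Bool) | f ⁻¹' {true} ∈ H0} := by
    rw [mem_ofPred_eq, fn_pre]
    exact ⟨by simp, Or.inl ⟨trivial, rfl⟩, fun n => ⟨0, Or.inl ⟨trivial, rfl⟩⟩⟩
  obtain ⟨C, hC, hCc, hCO⟩ := @exists_mem_nhds_isClosed_subset _ (t1Z AF Bool) hR _ _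
    (hO.mem_nhds h1)
  have h2 : ∀ n, fn _ (cl_col n) ∈ Cᶜ := fun n h => by
    have := hCO h
    rw [mem_ofPred_eq, fn_pre] at this
    obtain ⟨k, ⟨h, -⟩ | ⟨-, h⟩⟩ := this.2.2 n
    · exact h ⟨k, rfl⟩
    · cases h
  choose g hg using fun n => propQ n Cᶜ hCc.isOpen_compl (h2 n)
  obtain ⟨N, hN⟩ := propP g (interior C) isOpen_interior (mem_interior_iff_mem_nhds.2 hC)
  exact hg N (g N) le_rfl (interior_subset (hN N le_rfl))

end Pool.Agent.H17.FnTop
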