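import Mathlib

namespace Pool.Agent.H17.FreeL
open Set Topology Filter MeasureTheory
open scoped ENNReal

theorem para {L E : Type*} [TopologicalSpace L] [RegularSpace L] [TopologicalSpace E]
    [ParacompactSpace E] [NormalSpace E] (φ : L → E) (hφ : Continuous φ)
    (hs : Function.Surjective φ) (S : ℕ → Set E) (hS : ∀ k, IsClosed (S k))
    (hc : ∀ x, ∃ k, φ x ∈ S k)
    (hl : ∀ k x, φ x ∈ S k → ∀ U ∈ 𝓝 x, ∃ V ∈ 𝓝 (φ x), ∀ y, φ y ∈ V → φ y ∈ S k → y ∈ U) :
    ParacompactSpace L := by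
  classical
  refine ⟨fun α s so sc => ?_⟩
  have h1 : ∀ x : L, ∃ a, ∃ U : Set L, IsOpen U ∧ x ∈ U ∧ closure U ⊆ s a := by
    intro x
    have : x ∈ ⋃ a, s a := sc ▸ mem_univ x
    obtain ⟨a, ha⟩ := mem_iUnion.1 this
    obtain ⟨t, ht, htc, hts⟩ := exists_mem_nhds_isClosed_subset ((so a).mem_nhds ha)
    refine ⟨a, interior t, isOpen_interior, mem_interior_iff_mem_nhds.2 ht, ?_⟩
    exact (closure_minimal interior_subset htc).trans hts
  choose a U Uo xU Uc using h1
  have h2 : ∀ k x, ∃ V : Set E, IsOpen V ∧ (φ x ∈ S k → φ x ∈ V) ∧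
      ∀ y, φ y ∈ V → φ y ∈ S k → y ∈ U x := by
    intro k x
    by_cases hx : φ x ∈ S k
    · obtain ⟨V, hV, h⟩ := hl k x hx (U x) ((Uo x).mem_nhds (xU x))
      exact ⟨interior V, isOpen_interior, fun _ => mem_interior_iff_mem_nhds.2 hV,
        fun y hy => h y (interior_subset hy)⟩
    · exact ⟨∅, isOpen_empty, fun h => absurd h hx, fun y hy => absurd hy (notMem_empty _)⟩
  choose V0 V0o V0x V0U using h2
  have h3 : ∀ k, ∃ V V' : L → Set E, (∀ x, IsOpen (V x)) ∧ (∀ x, IsOpen (V' x)) ∧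
      LocallyFinite V ∧ (∀ x, V x ⊆ V0 k x) ∧ (∀ x, closure (V' x) ⊆ V x) ∧ S k ⊆ ⋃ x, V' x := by
    intro k
    have hcov : S k ⊆ ⋃ x, V0 k x := by
      intro e he
      obtain ⟨x, rfl⟩ := hs e
      exact mem_iUnion.2 ⟨x, V0x k x he⟩
    obtain ⟨V, Vo, Vc, Vf, Vs⟩ := precise_refinement_set (hS k) (V0 k) (V0o k) hcov
    obtain ⟨V', V'c, V'o, V's⟩ := exists_subset_iUnion_closure_subset (hS k) Vo
      (fun x _ => Vf.point_finite x) Vc
    exact ⟨V, V', Vo, V'o, Vf, Vs, V's, V'c⟩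
  choose V V' Vo V'o Vf Vs V's V'c using h3
  let A : ℕ → L → Set L := fun k x => φ ⁻¹' V' k x ∩ U x
  have Ao : ∀ k x, IsOpen (A k x) := fun k x => ((V'o k x).preimage hφ).inter (Uo x)
  have AV : ∀ k x, closure (A k x) ⊆ φ ⁻¹' V k x := by
    intro k x
    refine (closure_mono inter_subset_left).trans ?_
    exact (hφ.closure_preimage_subset _).trans (preimage_mono (V's k x))
  have Af : ∀ k, LocallyFinite fun x => φ ⁻¹' V k x := fun k => (Vf k).preimage_continuous hφ
  let C : ℕ → Set L := fun k => ⋃ x, closure (A k x)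
  have Cc : ∀ k, IsClosed (C k) := fun k =>
    ((Af k).subset (AV k)).isClosed_iUnion fun x => isClosed_closure
  have hA : ∀ y, ∃ k x, y ∈ A k x := by
    intro y
    obtain ⟨k, hk⟩ := hc y
    obtain ⟨x, hx⟩ := mem_iUnion.1 (V'c k hk)
    exact ⟨k, x, hx, V0U k x y (Vs k x (V's k x (subset_closure hx))) hk⟩
  refine ⟨ℕ × L, fun p => (s (a p.2) ∩ φ ⁻¹' V p.1 p.2) ∩ ⋂ j ∈ Finset.range p.1, (C j)ᶜ,
    ?_, ?_, ?_, ?_⟩
  · intro p
    exact ((so _).inter ((Vo _ _).preimage hφ)).inter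
      (isOpen_biInter_finset fun j _ => (Cc j).isOpen_compl)
  · refine eq_univ_of_forall fun y => ?_
    have hex : ∃ k, y ∈ C k := by
      obtain ⟨k, x, h⟩ := hA y
      exact ⟨k, mem_iUnion.2 ⟨x, subset_closure h⟩⟩
    obtain ⟨x, hx⟩ := mem_iUnion.1 (Nat.find_spec hex)
    refine mem_iUnion.2 ⟨(Nat.find hex, x), ⟨Uc x (closure_mono inter_subset_right hx),
      AV _ x hx⟩, ?_⟩
    refine mem_iInter₂.2 fun j hj => ?_
    exact Nat.find_min hex (Finset.mem_range.1 hj)
  · intro y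
    obtain ⟨k, x, h⟩ := hA y
    choose W Wn Wf using fun j => Af j y
    refine ⟨A k x ∩ ⋂ j ∈ Finset.range (k + 1), W j,
      inter_mem ((Ao k x).mem_nhds h) ((biInter_finset_mem _).2 fun j _ => Wn j), ?_⟩
    refine ((Finset.range (k + 1)).finite_toSet.biUnion
      (fun j _ => (Wf j).image fun z => (j, z))).subset ?_
    rintro ⟨m, z⟩ ⟨w, ⟨⟨-, hw1⟩, hw2⟩, hw3, hw4⟩
    have hm : m < k + 1 := by
      by_contra hm
      have hk : k ∈ Finset.range m := Finset.mem_range.2 (by omega)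
      exact (mem_iInter₂.1 hw2 k hk) (mem_iUnion.2 ⟨x, subset_closure hw3⟩)
    have hm' : m ∈ Finset.range (k + 1) := Finset.mem_range.2 hm
    exact mem_iUnion₂.2 ⟨m, hm', z, ⟨w, hw1, mem_iInter₂.1 hw4 m hm'⟩, rfl⟩
  · intro p
    exact ⟨a p.2, fun y hy => hy.1.1⟩

variable {X : Type*} [MetricSpace X]

noncomputable def F (a : X) (t : ℝ) : (X →₀ ℝ) →ₗ[ℝ] ℝ :=
  Finsupp.linearCombination ℝ fun x => if dist x a < t then (1 : ℝ) else 0

noncomputable def N (v : X →₀ ℝ) : ℝ≥0∞ := ⨆ a, volume {t : ℝ | 0 < t ∧ F a t v ≠ 0}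

theorem N_zero : N (0 : X →₀ ℝ) = 0 := by simp [N]

theorem N_smul (r : ℝ) (v : X →₀ ℝ) : N (r • v) ≤ N v := by
  refine iSup_mono fun a => measure_mono fun t ht => ⟨ht.1, fun h => ht.2 ?_⟩
  rw [map_smul, h, smul_zero]

theorem N_neg (v : X →₀ ℝ) : N (-v) ≤ N v := by
  simpa using N_smul (-1) v

theorem N_add (v w : X →₀ ℝ) : N (v + w) ≤ N v + N w := by
  refine iSup_le fun a => ?_
  refine le_trans (measure_mono (t := {t : ℝ | 0 < t ∧ F a t v ≠ 0} ∪
    {t : ℝ | 0 < t ∧ F a t w ≠ 0}) ?_) ((measure_union_le _ _).trans ?_)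
  · intro t ht
    by_contra h
    simp only [mem_union, mem_ofPred_eq, not_or, not_and, not_not] at h
    exact ht.2 (by rw [map_add, h.1 ht.1, h.2 ht.1, add_zero])
  · exact add_le_add (le_iSup (fun a => volume {t : ℝ | 0 < t ∧ F a t v ≠ 0}) a)
      (le_iSup (fun a => volume {t : ℝ | 0 < t ∧ F a t w ≠ 0}) a)

theorem N_single (x y : X) :
    N (Finsupp.single x (1 : ℝ) - Finsupp.single y 1) ≤ edist x y := by
  refine iSup_le fun a => ?_
  refine le_trans (measure_mono (t := uIcc (dist x a) (dist y a)) ?_) ?_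
  · intro t ht
    have h := ht.2
    simp only [F, map_sub, Finsupp.linearCombination_single, one_smul] at h
    rw [mem_uIcc]
    by_cases h1 : dist x a < t <;> by_cases h2 : dist y a < t
    · simp [h1, h2] at h
    · exact Or.inl ⟨h1.le, not_lt.1 h2⟩
    · exact Or.inr ⟨h2.le, not_lt.1 h1⟩
    · simp [h1, h2] at h
  · rw [Real.volume_interval, edist_dist]
    refine ENNReal.ofReal_le_ofReal ?_
    rw [abs_sub_comm]
    exact abs_dist_sub_le x y a

theorem key {v w : X →₀ ℝ} {ε : ℝ} (h : N (v - w) < ENNReal.ofReal ε) (a : X) :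
    ∃ t, 0 < t ∧ t < ε ∧ F a t v = F a t w := by
  by_contra hn
  push Not at hn
  refine absurd h (not_lt.2 ?_)
  refine le_trans ?_ (le_iSup (fun a => volume {t : ℝ | 0 < t ∧ F a t (v - w) ≠ 0}) a)
  refine le_trans ?_ (measure_mono (s := Ioo 0 ε) fun t ht => ⟨ht.1, ?_⟩)
  · simp
  · rw [map_sub, sub_ne_zero]
    exact hn t ht.1 ht.2

theorem F_eq {v : X →₀ ℝ} {a x : X} {t : ℝ} (hx : dist x a < t)
    (h : ∀ y ∈ v.support, y ≠ x → t ≤ dist y a) : F a t v = v x := by
  rw [F, Finsupp.linearCombination_apply, Finsupp.sum, Finset.sum_eq_single x]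
  · simp [hx]
  · intro y hy hyx
    simp [not_lt.2 (h y hy hyx)]
  · intro hx'
    simp [Finsupp.notMem_support_iff.1 hx']

theorem F_ne {v : X →₀ ℝ} {a : X} {t : ℝ} (h : F a t v ≠ 0) :
    ∃ y ∈ v.support, dist y a < t := by
  by_contra hn
  push Not at hn
  refine h ?_
  rw [F, Finsupp.linearCombination_apply, Finsupp.sum]
  exact Finset.sum_eq_zero fun y hy => by simp [not_lt.2 (hn y hy)]

def Sep (δ : ℝ) (v : X →₀ ℝ) : Prop :=
  ∀ x ∈ v.support, ∀ y ∈ v.support, x ≠ y → δ ≤ dist x y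

theorem Sep.mono {δ δ' : ℝ} {v : X →₀ ℝ} (h : Sep δ v) (hle : δ' ≤ δ) : Sep δ' v :=
  fun x hx y hy hxy => hle.trans (h x hx y hy hxy)

theorem ex_sep (v : X →₀ ℝ) : ∃ k : ℕ, Sep (1 / ((k : ℝ) + 1)) v := by
  have : ∀ᶠ k : ℕ in atTop, ∀ x ∈ v.support, ∀ y ∈ v.support, x ≠ y →
      1 / ((k : ℝ) + 1) ≤ dist x y := by
    refine (eventually_all_finset _).2 fun x _ => (eventually_all_finset _).2 fun y _ => ?_
    by_cases hxy : x = y
    · exact Eventually.of_forall fun k h => absurd hxy h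
    · filter_upwards [(tendsto_one_div_add_atTop_nhds_zero_nat (𝕜 := ℝ)).eventually
        (ge_mem_nhds (dist_pos.2 hxy))] with k hk _ using hk
  exact this.exists

theorem near {v w : X →₀ ℝ} {ε : ℝ} (h : N (v - w) < ENNReal.ofReal ε) (hv : Sep ε v)
    {x : X} (hx : x ∈ v.support) :
    ∃ t, 0 < t ∧ t < ε ∧ F x t w = v x ∧ ∃ y ∈ w.support, dist y x < t := by
  obtain ⟨t, t0, tε, ht⟩ := key h x
  have h1 : F x t v = v x :=
    F_eq (by simpa using t0) fun y hy hyx => tε.le.trans (hv y hy x hx hyx)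
  refine ⟨t, t0, tε, ht ▸ h1, F_ne ?_⟩
  rw [← ht, h1]
  exact Finsupp.mem_support_iff.1 hx

theorem mtch {v w : X →₀ ℝ} {ε : ℝ} (hε : 0 < ε) (h : N (v - w) < ENNReal.ofReal ε)
    (hv : Sep (2 * ε) v) (hw : Sep (2 * ε) w) {x : X} (hx : x ∈ v.support) :
    ∃ y ∈ w.support, dist y x < ε ∧ w y = v x := by
  obtain ⟨t, -, tε, ht, y, hy, hyx⟩ := near h (hv.mono (by linarith)) hx
  refine ⟨y, hy, hyx.trans tε, ?_⟩
  rw [← ht, F_eq hyx]
  intro z hz hzy
  have h1 := hw z hz y hy hzy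
  have h2 := dist_triangle_right z y x
  linarith

theorem N_sub_comm (v w : X →₀ ℝ) : N (v - w) = N (w - v) :=
  le_antisymm (by simpa using N_neg (w - v)) (by simpa using N_neg (v - w))

theorem shape {v w : X →₀ ℝ} {ε : ℝ} (hε : 0 < ε) (h : N (v - w) < ENNReal.ofReal ε)
    (hv : Sep (2 * ε) v) (hw : Sep (2 * ε) w) :
    ∃ p : v.support → X, (∀ x, dist (p x) x < ε) ∧
      w = ∑ x : v.support, v x • Finsupp.single (p x) (1 : ℝ) := by
  classical
  choose p pw pd pv using fun x : v.support => mtch hε h hv hw x.2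
  refine ⟨p, pd, ?_⟩
  have hinj : ∀ x y : v.support, p x = p y → x = y := by
    intro x y hxy
    by_contra hne
    have h1 := hv x x.2 y y.2 fun e => hne (Subtype.ext e)
    have h2 := dist_triangle_left (x : X) y (p x)
    have h3 := pd x
    have h4 := pd y
    rw [← hxy] at h4
    linarith
  have hsurj : ∀ y ∈ w.support, ∃ x, p x = y := by
    intro y hy
    obtain ⟨x, hx, hd, -⟩ := mtch hε (N_sub_comm v w ▸ h) hw hv hy
    refine ⟨⟨x, hx⟩, ?_⟩
    by_contra hne
    have h1 := hw _ (pw ⟨x, hx⟩) y hy hne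
    have h2 := dist_triangle (p ⟨x, hx⟩) x y
    have h3 := pd ⟨x, hx⟩
    simp only at h3
    linarith
  conv_lhs => rw [← Finsupp.sum_single w, Finsupp.sum]
  symm
  refine Finset.sum_bij (fun x _ => p x) (fun x _ => pw x) (fun x _ y _ => hinj x y)
    (fun y hy => ?_) (fun x _ => ?_)
  · obtain ⟨x, hx⟩ := hsurj y hy
    exact ⟨x, Finset.mem_univ _, hx⟩
  · rw [pv x, Finsupp.smul_single, smul_eq_mul, mul_one]

def E (X : Type*) : Type _ := X →₀ ℝ

noncomputable instance (X : Type*) : AddCommGroup (E X) := inferInstanceAs (AddCommGroup (X →₀ ℝ))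
noncomputable instance (X : Type*) : Module ℝ (E X) := inferInstanceAs (Module ℝ (X →₀ ℝ))

def un (v : E X) : X →₀ ℝ := v
def mk (v : X →₀ ℝ) : E X := v

noncomputable instance : EMetricSpace (E X) where
  edist v w := N (un v - un w)
  edist_self v := by simp [N_zero]
  edist_comm v w := N_sub_comm _ _
  edist_triangle u v w := by
    simpa using N_add (un u - un v) (un v - un w)
  eq_of_edist_eq_zero := by
    intro v w h
    by_contra hne
    have h0 : un v - un w ≠ 0 := sub_ne_zero.2 hne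
    obtain ⟨x, hx⟩ := Finsupp.support_nonempty_iff.2 h0
    obtain ⟨k, hk⟩ := ex_sep (un v - un w)
    have hlt : N (un v - un w - 0) < ENNReal.ofReal (1 / ((k : ℝ) + 1)) := by
      rw [sub_zero, show N (un v - un w) = 0 from h]
      exact ENNReal.ofReal_pos.2 Nat.one_div_pos_of_nat
    obtain ⟨t, -, -, -, y, hy, -⟩ := near hlt hk hx
    simp at hy

theorem edist_E (v w : E X) : edist v w = N (un v - un w) := rfl

instance : ContinuousAdd (E X) := by
  refine ⟨LipschitzWith.continuous (K := 2) fun p q => ?_⟩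
  have h : edist (p.1 + p.2) (q.1 + q.2) ≤ edist p.1 q.1 + edist p.2 q.2 := by
    rw [edist_E, edist_E, edist_E]
    refine le_trans (le_of_eq ?_) (N_add _ _)
    congr 1
    show un p.1 + un p.2 - (un q.1 + un q.2) = _
    abel
  refine h.trans ?_
  rw [Prod.edist_eq, ENNReal.coe_ofNat, two_mul]
  exact add_le_add (le_max_left _ _) (le_max_right _ _)

instance : ContinuousConstSMul ℝ (E X) := by
  refine ⟨fun r => LipschitzWith.continuous (K := 1) fun p q => ?_⟩
  rw [edist_E, edist_E, ENNReal.coe_one, one_mul]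
  refine le_trans (le_of_eq ?_) (N_smul r _)
  congr 1
  show r • un p - r • un q = _
  rw [smul_sub]

theorem cont_single : Continuous fun x : X => mk (Finsupp.single x (1 : ℝ)) :=
  LipschitzWith.continuous (K := 1) fun x y => by
    rw [ENNReal.coe_one, one_mul]
    exact N_single x y

theorem closed_sep (δ : ℝ) : IsClosed {v : E X | Sep δ (un v)} := by
  rw [← isOpen_compl_iff, EMetric.isOpen_iff]
  intro v hv
  simp only [mem_compl_iff, mem_ofPred_eq, Sep] at hv
  push Not at hv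
  obtain ⟨x, hx, y, hy, hxy, hd⟩ := hv
  obtain ⟨k, hk⟩ := ex_sep (un v)
  have hk0 : (0 : ℝ) < 1 / ((k : ℝ) + 1) := Nat.one_div_pos_of_nat
  set ε := min (1 / ((k : ℝ) + 1) / 2) ((δ - dist x y) / 2) with hε
  have ε0 : 0 < ε := lt_min (by linarith) (by linarith)
  have e1 : ε ≤ 1 / ((k : ℝ) + 1) / 2 := min_le_left _ _
  have e2 : ε ≤ (δ - dist x y) / 2 := min_le_right _ _
  refine ⟨ENNReal.ofReal ε, ENNReal.ofReal_pos.2 ε0, fun w hw hS => ?_⟩
  have hw' : N (un v - un w) < ENNReal.ofReal ε := by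
    rw [N_sub_comm]
    exact hw
  have hs : Sep ε (un v) := hk.mono (by linarith)
  obtain ⟨t, -, tε, -, x', hx', hxx⟩ := near hw' hs hx
  obtain ⟨s, -, sε, -, y', hy', hyy⟩ := near hw' hs hy
  have h1 := hk x hx y hy hxy
  have hne : x' ≠ y' := by
    rintro rfl
    have := dist_triangle_left x y x'
    linarith
  have h2 := hS x' hx' y' hy' hne
  have h3 := dist_triangle4_right x' y' x y
  linarith

theorem main {L : Type*} [AddCommGroup L] [Module ℝ L] [TopologicalSpace L] [ContinuousAdd L]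
    [ContinuousConstSMul ℝ L] (b : Module.Basis X ℝ L) (hb : Continuous b)
    (hr : Continuous fun v => mk (b.repr v)) : ParacompactSpace L := by
  have : ContinuousNeg L := ⟨by simpa using continuous_const_smul (-1 : ℝ) (T := L)⟩
  have : IsTopologicalAddGroup L := {}
  refine para _ hr (fun e => ⟨b.repr.symm (un e), congrArg mk (b.repr.apply_symm_apply (un e))⟩)
    (fun k => {v | Sep (1 / ((k : ℝ) + 1)) (un v)}) (fun k => closed_sep _)
    (fun x => ex_sep (b.repr x)) ?_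
  intro k x hx U hU
  have hk0 : (0 : ℝ) < 1 / ((k : ℝ) + 1) := Nat.one_div_pos_of_nat
  let g : ((b.repr x).support → X) → L := fun p => ∑ z : (b.repr x).support, b.repr x z • b (p z)
  have gc : Continuous g :=
    continuous_finsetSum _ fun z _ => (hb.comp (continuous_apply z)).const_smul _
  have gx : g (fun z => z) = x := by
    show ∑ z : (b.repr x).support, b.repr x z • b z = x
    rw [Finset.sum_coe_sort (b.repr x).support fun z => b.repr x z • b z]
    have := b.linearCombination_repr x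
    rwa [Finsupp.linearCombination_apply, Finsupp.sum] at this
  obtain ⟨ε, ε0, hε⟩ := Metric.mem_nhds_iff.1 (gc.continuousAt.preimage_mem_nhds (gx ▸ hU))
  set η := min ε (1 / ((k : ℝ) + 1) / 2) with hη
  have η0 : 0 < η := lt_min ε0 (by linarith)
  have e1 : η ≤ ε := min_le_left _ _
  have e2 : η ≤ 1 / ((k : ℝ) + 1) / 2 := min_le_right _ _
  refine ⟨_, Metric.eball_mem_nhds _ (ENNReal.ofReal_pos.2 η0), fun y hy hS => ?_⟩
  have hy' : N (b.repr x - b.repr y) < ENNReal.ofReal η := by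
    rw [N_sub_comm]
    exact hy
  obtain ⟨p, pd, hp⟩ := shape η0 hy' (Sep.mono hx (by linarith)) (Sep.mono hS (by linarith))
  have : y = g p := by
    apply b.repr.injective
    rw [hp]
    simp [g]
  rw [this]
  refine hε (Metric.mem_ball.2 ((dist_pi_lt_iff ε0).2 fun z => (pd z).trans_le e1))

theorem emb_single : IsEmbedding fun x : X => mk (Finsupp.single x (1 : ℝ)) := by
  classical
  refine Isometry.isEmbedding fun x y => le_antisymm (N_single x y) ?_
  by_contra hlt
  rw [not_le, edist_dist x y] at hlt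
  have hxy : x ≠ y := by
    rintro rfl
    simp at hlt
  obtain ⟨t, t0, tε, ht⟩ := key (v := Finsupp.single x (1 : ℝ)) (w := Finsupp.single y 1) hlt x
  rw [dist_comm] at tε
  simp [F, t0, not_lt.2 tε.le] at ht

end Pool.Agent.H17.FreeL
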