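import Mathlib
import Pool.Agent.H17.Telg

set_option autoImplicit false

namespace Pool.Agent.H17.HCl
open Set Filter Topology TopologicalSpace

abbrev C : Type := ℕ → Bool

theorem dense_compl_c {N : Set C} (hN : N.Countable) : Dense Nᶜ := by
  have : Nᶜ = ⋂ x ∈ N, {x}ᶜ := by ext y; simp; exact ⟨fun h x hx e => h (e ▸ hx), fun h hy => h y hy rfl⟩
  rw [this]
  refine dense_biInter_of_isOpen (fun x _ => isOpen_compl_singleton) hN fun x _ => ?_
  have : (𝓝[≠] x).NeBot := by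
    refine mem_closure_iff_nhdsWithin_neBot.1 (mem_closure_of_tendsto (b := atTop)
      (f := fun n : ℕ => Function.update x n (!x n)) (tendsto_pi_nhds.2 fun i => ?_)
      (Eventually.of_forall fun n h => by simpa using congrFun h n))
    refine tendsto_const_nhds.congr' ?_
    filter_upwards [eventually_gt_atTop i] with n hn
    rw [Function.update_of_ne hn.ne]
  exact dense_compl_singleton x

open Classical in
noncomputable def ψ (y : C) : ℕ := if h : ∃ m, ∀ k ≥ m, y k = false then Nat.find h else 0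

theorem ψ_big {V : Set C} (hV : IsOpen V) {y : C} (hy : y ∈ V) (n : ℕ) : ∃ z ∈ V, n ≤ ψ z := by
  classical
  have ht : Tendsto (fun N : ℕ => fun k => if k < N then y k else decide (k = N)) atTop (𝓝 y) := by
    refine tendsto_pi_nhds.2 fun i => tendsto_const_nhds.congr' ?_
    filter_upwards [eventually_gt_atTop i] with N hN
    rw [if_pos hN]
  obtain ⟨N, h1, h2⟩ := ((ht.eventually (hV.mem_nhds hy)).and (eventually_ge_atTop n)).exists
  refine ⟨_, h1, ?_⟩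
  have h : ∃ m, ∀ k ≥ m, (fun k => if k < N then y k else decide (k = N)) k = false :=
    ⟨N + 1, fun k hk => by simp [show ¬ k < N by omega, show k ≠ N by omega]⟩
  rw [ψ, dif_pos h, Nat.le_find_iff]
  intro m hm h'
  simpa using h' N (by omega)

def X : Type := C × C

def pr (x : X) : C × C := x

def A (n : ℕ) : Set X := {x | n ≤ ψ (pr x).2}

instance : TopologicalSpace X where
  IsOpen U := ∀ x ∈ U, ∃ V : Set (C × C), IsOpen V ∧ pr x ∈ V ∧ ∃ n, ((pr ⁻¹' V ∩ A n) \ U).Countable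
  isOpen_univ := fun _ _ => ⟨univ, isOpen_univ, trivial, 0, by simp⟩
  isOpen_inter := fun s t hs ht x hx => by
    obtain ⟨V, h1, h2, n, h3⟩ := hs x hx.1
    obtain ⟨V', h4, h5, m, h6⟩ := ht x hx.2
    refine ⟨V ∩ V', h1.inter h4, ⟨h2, h5⟩, max n m, (h3.union h6).mono fun y hy => ?_⟩
    by_cases h : y ∈ s
    · exact Or.inr ⟨⟨hy.1.1.2, (le_max_right n m).trans hy.1.2⟩, fun h' => hy.2 ⟨h, h'⟩⟩
    · exact Or.inl ⟨⟨hy.1.1.1, (le_max_left n m).trans hy.1.2⟩, h⟩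
  isOpen_sUnion := fun S hS x ⟨t, ht, hx⟩ => by
    obtain ⟨V, h1, h2, n, h3⟩ := hS t ht x hx
    exact ⟨V, h1, h2, n, h3.mono (sdiff_subset_sdiff_right (subset_sUnion_of_mem ht))⟩

theorem cont : Continuous pr := ⟨fun V hV x hx => ⟨V, hV, hx, 0, by
  rw [sdiff_eq_empty.2 inter_subset_left]; exact countable_empty⟩⟩

instance : T2Space X := T2Space.of_injective_continuous (f := pr) (fun _ _ h => h) cont

theorem closed_c (N : Set X) (hN : N.Countable) : IsClosed N :=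
  ⟨fun _ _ => ⟨univ, isOpen_univ, trivial, 0, hN.mono fun _ hy => not_not.1 hy.2⟩⟩

theorem open_sup {n : ℕ} {U : Set X} (h : A n ⊆ U) : IsOpen U := fun _ _ =>
  ⟨univ, isOpen_univ, trivial, n, by
    rw [sdiff_eq_empty.2 (inter_subset_right.trans h)]; exact countable_empty⟩

theorem dense_of {n : ℕ} {U : Set X} (h : (A n \ U).Countable) : Dense U := by
  refine dense_iff_inter_open.2 fun O hO ⟨x, hx⟩ => ?_
  obtain ⟨V, h1, h2, m, h3⟩ := hO x hx
  obtain ⟨V1, V2, h4, h5, h6, h7, h8⟩ := isOpen_prod_iff.1 h1 _ _ h2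
  obtain ⟨z, hz, hz'⟩ := ψ_big h5 h7 (max n m)
  obtain ⟨w, hw, hw'⟩ := (dense_compl_c ((h.union h3).image fun x => (pr x).1)).inter_open_nonempty
    V1 h4 ⟨_, h6⟩
  have h9 : ¬ ((w, z) : X) ∈ (A n \ U) ∪ ((pr ⁻¹' V ∩ A m) \ O) := fun h => hw' ⟨_, h, rfl⟩
  refine ⟨(w, z), ?_, ?_⟩
  · by_contra hc
    exact h9 (Or.inr ⟨⟨h8 ⟨hw, hz⟩, (le_max_right n m).trans hz'⟩, hc⟩)
  · by_contra hc
    exact h9 (Or.inl ⟨(le_max_left n m).trans hz', hc⟩)

theorem hclosed (U : X → Set X) (hU : ∀ x, IsOpen (U x) ∧ x ∈ U x) :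
    ∃ t : Finset X, Dense (⋃ x ∈ t, U x) := by
  have h := fun x => (hU x).1 x (hU x).2
  choose V h1 h2 n h3 using h
  obtain ⟨t, ht⟩ := isCompact_univ.elim_finite_subcover (fun x : X => V x) h1
    fun x _ => mem_iUnion.2 ⟨x, h2 x⟩
  refine ⟨t, dense_of (n := t.sup n) ((t.countable_toSet.biUnion fun x _ => h3 x).mono
    fun y hy => ?_)⟩
  obtain ⟨x, hx, hy'⟩ := mem_iUnion₂.1 (ht (mem_univ (pr y)))
  exact mem_biUnion hx ⟨⟨hy', le_trans (a := n x) (Finset.le_sup (f := n) hx) hy.1⟩, fun h => hy.2 (mem_biUnion hx h)⟩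

theorem hcover (𝒰 : Set (Set X)) (h1 : ∀ U ∈ 𝒰, IsOpen U) (h2 : ⋃₀ 𝒰 = univ) :
    ∃ 𝒱 ⊆ 𝒰, 𝒱.Finite ∧ Dense (⋃₀ 𝒱) := by
  have h : ∀ x, ∃ U ∈ 𝒰, x ∈ U := fun x => h2.ge (mem_univ x)
  choose U h3 h4 using h
  obtain ⟨t, ht⟩ := hclosed U fun x => ⟨h1 _ (h3 x), h4 x⟩
  refine ⟨U '' t, by rintro _ ⟨x, -, rfl⟩; exact h3 x, t.finite_toSet.image _, ?_⟩
  rwa [sUnion_image]

theorem not_dense {N : Set X} (hN : N.Countable) : ¬ Dense N := fun h => by
  have h1 : N = univ := (closed_c N hN).closure_eq.symm.trans h.closure_eq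
  obtain ⟨x, hx⟩ := (dense_of (n := 0) (U := Nᶜ) (hN.mono fun _ h => not_not.1 h.2)).nonempty_iff.2
    ⟨((default, default) : C × C)⟩
  exact hx (h1 ▸ mem_univ x)

end Pool.Agent.H17.HCl
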