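import Mathlib
import Pool.Agent.H17.Telg

set_option autoImplicit false

namespace Pool.Agent.H17.Hech
open Set Filter Topology TopologicalSpace Pool.Agent.H17.W1 Pool.Agent.H17.Telg Cardinal

abbrev I : Type := ℕ × W

noncomputable def val (p : W × (I →₀ ℕ)) : I → ℕ :=
  fun i => if p.2 i ≠ 0 then p.2 i else if i.2 = p.1 then 1 else 0

def Y : Type := range val

def Small (g : I → ℕ) : Prop := ∀ n, {a | g (n, a) ≠ 0}.Finite

def O (g : I → ℕ) : Set Y := {y | ∀ i, y.1 i ≠ 0 → g i ≤ y.1 i}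

def Nb (x : Y) (F : Set I) (g : I → ℕ) : Set Y :=
  {y | (∀ i ∈ F, x.1 i ≠ 0 → y.1 i = x.1 i) ∧ y ∈ O g}

theorem Small.max {g g' : I → ℕ} (h : Small g) (h' : Small g') : Small fun i => max (g i) (g' i) :=
  fun n => ((h n).union (h' n)).subset fun a ha => by
    by_contra hc
    simp only [mem_union, mem_ofPred_eq, not_or, not_not] at hc
    exact ha (by simp [hc.1, hc.2])

theorem small_zero : Small 0 := fun _ => by simp

theorem small_single (i : I) (k : ℕ) : Small (Pi.single i k) := fun n =>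
  (finite_singleton i.2).subset fun a ha => by
    by_contra hc
    exact ha (Pi.single_eq_of_ne (fun e : (n, a) = i => hc (congrArg Prod.snd e)) _)

instance : TopologicalSpace Y where
  IsOpen U := ∀ x ∈ U, ∃ F g, F.Finite ∧ Small g ∧ x ∈ O g ∧ Nb x F g ⊆ U
  isOpen_univ := fun _ _ => ⟨∅, 0, finite_empty, small_zero, fun _ _ => Nat.zero_le _, subset_univ _⟩
  isOpen_inter := fun s t hs ht x hx => by
    obtain ⟨F, g, h1, h2, h3, h4⟩ := hs x hx.1
    obtain ⟨F', g', h5, h6, h7, h8⟩ := ht x hx.2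
    exact ⟨F ∪ F', _, h1.union h5, h2.max h6, fun i hi => max_le (h3 i hi) (h7 i hi), fun y hy =>
      ⟨h4 ⟨fun i hi => hy.1 i (Or.inl hi), fun i hi => (le_max_left _ _).trans (hy.2 i hi)⟩,
       h8 ⟨fun i hi => hy.1 i (Or.inr hi), fun i hi => (le_max_right _ _).trans (hy.2 i hi)⟩⟩⟩
  isOpen_sUnion := fun S hS x ⟨t, ht, hx⟩ => by
    obtain ⟨F, g, h1, h2, h3, h4⟩ := hS t ht x hx
    exact ⟨F, g, h1, h2, h3, h4.trans (subset_sUnion_of_mem ht)⟩

theorem open_Nb (x : Y) {F : Set I} {g : I → ℕ} (hF : F.Finite) (hg : Small g) :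
    IsOpen (Nb x F g) := fun y hy => ⟨F, g, hF, hg, hy.2, fun z hz =>
  ⟨fun i hi h => (hz.1 i hi (by rw [hy.1 i hi h]; exact h)).trans (hy.1 i hi h), hz.2⟩⟩

theorem sep (y : Y) (i : I) (k : ℕ) (hk : k ≠ 0) : ∃ F g, F.Finite ∧ Small g ∧ y ∈ O g ∧
    ∀ z ∈ Nb y F g, z.1 i = k → y.1 i = k := by
  by_cases h : y.1 i = 0
  · refine ⟨∅, _, finite_empty, small_single i (k + 1), fun j hj => ?_, fun z hz e => ?_⟩
    · rw [Pi.single_eq_of_ne fun e : j = i => hj (e ▸ h)]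
      exact Nat.zero_le _
    · have := hz.2 i (e ▸ hk)
      rw [Pi.single_eq_same] at this
      omega
  · exact ⟨{i}, 0, finite_singleton _, small_zero, fun _ _ => Nat.zero_le _,
      fun z hz e => (hz.1 i rfl h).symm.trans e⟩

theorem closed_Nb (x : Y) (F : Set I) (g : I → ℕ) : IsClosed (Nb x F g) := by
  refine ⟨fun y hy => ?_⟩
  by_cases h : y ∈ O g
  · have : ¬ ∀ i ∈ F, x.1 i ≠ 0 → y.1 i = x.1 i := fun h' => hy ⟨h', h⟩
    push Not at this
    obtain ⟨i, hi, h1, h2⟩ := this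
    obtain ⟨F', g', h3, h4, h5, h6⟩ := sep y i _ h1
    exact ⟨F', g', h3, h4, h5, fun z hz hz' => h2 (h6 z hz (hz'.1 i hi h1))⟩
  · have : ¬ ∀ i, y.1 i ≠ 0 → g i ≤ y.1 i := h
    push Not at this
    obtain ⟨i, h1, h2⟩ := this
    refine ⟨{i}, 0, finite_singleton _, small_zero, fun _ _ => Nat.zero_le _, fun z hz hz' => ?_⟩
    have e := hz.1 i rfl h1
    have := hz'.2 i (e ▸ h1)
    omega

instance : RegularSpace Y := RegularSpace.of_exists_mem_nhds_isClosed_subset fun x s hs => by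
  obtain ⟨U, hUs, hU, hx⟩ := mem_nhds_iff.1 hs
  obtain ⟨F, g, h1, h2, h3, h4⟩ := hU x hx
  exact ⟨_, (open_Nb x h1 h2).mem_nhds ⟨fun _ _ _ => rfl, h3⟩, closed_Nb x F g, h4.trans hUs⟩

instance : T0Space Y := by
  have key : ∀ x y : Y, ∀ i, x.1 i ≠ 0 → Inseparable x y → y.1 i = x.1 i := fun x y i hi h =>
    ((h.mem_open_iff (open_Nb x (finite_singleton i) small_zero)).1
      ⟨fun _ _ _ => rfl, fun _ _ => Nat.zero_le _⟩).1 i rfl hi
  refine ⟨fun x y h => Subtype.ext (funext fun i => ?_)⟩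
  by_cases h1 : x.1 i = 0
  · by_contra h2
    exact h2 (key y x i (fun e => h2 (h1.trans e.symm)) h.symm)
  · exact (key x y i h1 h).symm

theorem card_le : #Y ≤ aleph 1 := by
  refine mk_range_le.trans ?_
  simp [Cardinal.aleph0_le_aleph]

theorem Small.cnt {g : I → ℕ} (h : Small g) : {a | ∃ n, g (n, a) ≠ 0}.Countable := by
  rw [ofPred_exists]
  exact countable_iUnion fun n => (h n).countable

theorem realize (r : I →₀ ℕ) {g : I → ℕ} (hg : Small g) (h : ∀ i, r i ≠ 0 → g i ≤ r i) :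
    ∃ z ∈ O g, ∀ i, r i ≠ 0 → z.1 i = r i := by
  obtain ⟨γ, hγ⟩ := bound hg.cnt
  refine ⟨⟨val (γ, r), _, rfl⟩, fun i hi => ?_, fun i hi => if_pos hi⟩
  simp only [val] at hi ⊢
  by_cases h1 : r i ≠ 0
  · rw [if_pos h1]
    exact h i h1
  · rw [if_neg h1] at hi
    have h2 : i.2 = γ := by
      by_contra h2
      exact hi (if_neg h2)
    have : g i = 0 := by
      by_contra h3
      exact lt_irrefl _ (hγ γ ⟨i.1, h2 ▸ h3⟩)
    exact this.le.trans (Nat.zero_le _)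

theorem wl (F : Y → Set I) (g : Y → I → ℕ) (hF : ∀ x, (F x).Finite) (hg : ∀ x, Small (g x))
    (hx : ∀ x, x ∈ O (g x)) : ∃ D : Set Y, D.Countable ∧ Dense (⋃ x ∈ D, Nb x (F x) (g x)) := by
  classical
  let pt : W → (I →₀ ℕ) → Y := fun β s => ⟨val (β, s), _, rfl⟩
  have h1 : ∀ s, ∃ (N : ℕ) (B : Set W), B.Infinite ∧ B.Countable ∧
      ∀ β ∈ B, ∀ i ∈ F (pt β s), i.1 ≤ N := fun s => by
    by_contra h
    apply not_countable_univ (α := W)
    refine (countable_iUnion fun N : ℕ => (Set.Finite.countable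
      (s := {β | ∀ i ∈ F (pt β s), i.1 ≤ N}) ?_)).mono fun β _ => ?_
    · by_contra hi
      let e := Set.Infinite.natEmbedding _ hi
      refine h ⟨N, range fun n => (e n : W), infinite_range_of_injective
        (Subtype.val_injective.comp e.injective), countable_range _, ?_⟩
      rintro _ ⟨n, rfl⟩
      exact (e n).2
    · obtain ⟨N, hN⟩ := ((hF (pt β s)).image Prod.fst).bddAbove
      exact mem_iUnion.2 ⟨N, fun i hi => hN ⟨i, hi, rfl⟩⟩
  choose N B hB1 hB2 hB3 using h1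
  have h2 : ∀ s, ∃ b, ∀ β ∈ B s, ∀ n a, g (pt β s) (n, a) ≠ 0 → a < b := fun s => by
    obtain ⟨b, hb⟩ := bound ((hB2 s).biUnion fun β _ => (hg (pt β s)).cnt)
    exact ⟨b, fun β hβ n a h => hb a (mem_biUnion hβ ⟨n, h⟩)⟩
  choose b hb using h2
  let R : W → Set (I →₀ ℕ) := fun a => {s | ∀ i, s i ≠ 0 → i.2 < a}
  have hR : ∀ a, (R a).Countable := fun a => by
    have := (cIio a).to_subtype
    refine (countable_range fun t : ℕ × Iio a →₀ ℕ =>
      t.mapDomain fun p => (p.1, (p.2 : W))).mono fun s hs => ?_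
    have hi : Function.Injective fun p : ℕ × Iio a => (p.1, (p.2 : W)) :=
      Function.injective_id.prodMap Subtype.val_injective
    exact ⟨_, Finsupp.mapDomain_comapDomain _ hi s fun i hi' =>
      ⟨(i.1, ⟨i.2, hs i (Finsupp.mem_support_iff.1 hi')⟩), rfl⟩⟩
  obtain ⟨G, hG⟩ := clos R hR (fun a a' h s hs i hi => (hs i hi).trans_le h) fun L => b (L.headD 0)
  obtain ⟨δ, hδ⟩ := C_ne G
  obtain ⟨hl, hG⟩ := hG δ hδ
  refine ⟨⋃ s ∈ R δ, (fun β => pt β s) '' B s, (hR δ).biUnion fun s _ => (hB2 s).image _,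
    dense_iff_inter_open.2 fun U hU ⟨y, hy⟩ => ?_⟩
  obtain ⟨E, e, h1, h2, h3, h4⟩ := hU y hy
  let t : I →₀ ℕ := Finsupp.onFinset h1.toFinset (fun i => if i ∈ E ∧ i.2 < δ then y.1 i else 0)
    fun i hi => h1.mem_toFinset.2 (by
      by_contra h
      exact hi (if_neg fun h' => h h'.1))
  have ht : ∀ i, t i = if i ∈ E ∧ i.2 < δ then y.1 i else 0 := fun _ => rfl
  have ht1 : ∀ i, t i ≠ 0 → (i ∈ E ∧ i.2 < δ) ∧ t i = y.1 i := fun i hi => by
    by_cases h : i ∈ E ∧ i.2 < δ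
    · exact ⟨h, if_pos h⟩
    · exact (hi (if_neg h)).elim
  have hbt : b t < δ := by
    obtain ⟨a, ha, ha'⟩ := fin_bdd hδ.1 hl (t.hasFiniteSupport.image Prod.snd) (by
      rintro _ ⟨i, hi, rfl⟩
      exact (ht1 i hi).1.2)
    exact hG [t] fun s hs => ⟨a, ha, List.mem_singleton.1 hs ▸ fun i hi => ha' ⟨i, hi, rfl⟩⟩
  obtain ⟨β, hβ, hβ'⟩ := (hB1 t).exists_notMem_finite ((h1.image Prod.snd).union
    ((finite_Iic (N t)).biUnion fun n _ => h2 n))
  have hp : ∀ i, (pt β t).1 i = if t i ≠ 0 then t i else if i.2 = β then 1 else 0 := fun _ => rfl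
  let r : I →₀ ℕ := Finsupp.onFinset (h1.union (hF (pt β t))).toFinset
    (fun i => if i ∈ E ∧ y.1 i ≠ 0 then y.1 i else if i ∈ F (pt β t) then (pt β t).1 i else 0)
    fun i hi => (Set.Finite.mem_toFinset _).2 (by
      by_contra h
      exact hi (by rw [if_neg fun h' => h (Or.inl h'.1), if_neg fun h' => h (Or.inr h')]))
  have hr : ∀ i, r i = if i ∈ E ∧ y.1 i ≠ 0 then y.1 i else
    if i ∈ F (pt β t) then (pt β t).1 i else 0 := fun _ => rfl
  have h5 : ∀ i ∈ E, (pt β t).1 i = t i := fun i hi => by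
    rw [hp]
    split_ifs with a c
    · rfl
    · exact (hβ' (Or.inl ⟨i, hi, c⟩)).elim
    · exact (not_not.1 a).symm
  obtain ⟨z, hz1, hz2⟩ := realize r (h2.max (hg (pt β t))) fun i hi => by
    rw [hr] at hi ⊢
    split_ifs at hi ⊢ with a c
    · refine max_le (h3 i a.2) ?_
      by_cases h : i.2 < δ
      · have e1 : (pt β t).1 i = y.1 i := (h5 i a.1).trans (if_pos ⟨a.1, h⟩)
        exact e1 ▸ hx (pt β t) i (e1 ▸ a.2)
      · have : g (pt β t) i = 0 := by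
          by_contra h'
          exact h ((hb t β hβ i.1 i.2 h').trans hbt)
        exact this ▸ Nat.zero_le _
    · refine max_le ?_ (hx _ i hi)
      have h6 : t i = 0 := by
        by_contra h
        exact a ⟨(ht1 i h).1.1, (ht1 i h).2 ▸ h⟩
      have h7 : i.2 = β := by
        by_contra h
        exact hi (by rw [hp, if_neg (not_not.2 h6), if_neg h])
      have : e i = 0 := by
        by_contra h
        exact hβ' (Or.inr (mem_biUnion (hB3 t β hβ i c) (show e (i.1, β) ≠ 0 from h7 ▸ h)))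
      exact this ▸ Nat.zero_le _
    · exact (hi rfl).elim
  refine ⟨z, h4 ⟨fun i hi h => ?_, fun i hi => (le_max_left _ _).trans (hz1 i hi)⟩,
    mem_biUnion (x := pt β t) (mem_biUnion (x := t) (fun i hi => (ht1 i hi).1.2) ⟨β, hβ, rfl⟩)
      ⟨fun i hi h => ?_, fun i hi => (le_max_right _ _).trans (hz1 i hi)⟩⟩
  · have e1 : r i = y.1 i := if_pos ⟨hi, h⟩
    exact (hz2 i (e1 ▸ h)).trans e1
  · have e1 : r i = (pt β t).1 i := by
      rw [hr]
      split_ifs with a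
      · rw [h5 i a.1] at h ⊢
        exact (ht1 i h).2.symm
      · rfl
    exact (hz2 i (e1 ▸ h)).trans e1

theorem not_wm : ∃ 𝒰 : ℕ → Set (Set Y), (∀ n, (∀ U ∈ 𝒰 n, IsOpen U) ∧ ⋃₀ 𝒰 n = Set.univ) ∧
    ∀ 𝒱 : ℕ → Set (Set Y), (∀ n, 𝒱 n ⊆ 𝒰 n ∧ (𝒱 n).Finite) → ¬ Dense (⋃ n, ⋃₀ 𝒱 n) := by
  classical
  refine ⟨fun n => {U | ∃ a k, k ≠ 0 ∧ U = {y : Y | y.1 (n, a) = k}}, fun n => ⟨?_,
    eq_univ_of_forall ?_⟩, fun 𝒱 h hd => ?_⟩
  · rintro _ ⟨a, k, hk, rfl⟩ y hy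
    exact ⟨{(n, a)}, 0, finite_singleton _, small_zero, fun _ _ => Nat.zero_le _,
      fun z hz => (hz.1 _ rfl (fun e => hk (hy.symm.trans e))).trans hy⟩
  · rintro ⟨_, p, rfl⟩
    refine ⟨_, ⟨p.1, val p (n, p.1), ?_, rfl⟩, rfl⟩
    simp only [val]
    split_ifs with a
    exacts [a, one_ne_zero]
  · have h1 : ∀ n, ∀ U ∈ 𝒱 n, ∃ a k, k ≠ 0 ∧ U = {y : Y | y.1 (n, a) = k} := fun n => (h n).1
    choose! a k hk hU using h1
    choose K hK using fun n => ((h n).2.image (k n)).bddAbove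
    have hs : Small fun i => if i.2 ∈ a i.1 '' 𝒱 i.1 then K i.1 + 1 else 0 := fun n =>
      ((h n).2.image (a n)).subset fun b hb => by
        by_contra hc
        exact hb (if_neg hc)
    obtain ⟨z, hz, -⟩ := realize 0 hs fun i hi => (hi rfl).elim
    obtain ⟨w, hw, hw'⟩ := hd.inter_open_nonempty _ (open_Nb z finite_empty hs)
      ⟨z, fun _ _ _ => rfl, hz⟩
    obtain ⟨n, U, hU1, hU2⟩ := mem_iUnion.1 hw'
    rw [hU n U hU1] at hU2
    have h2 := hw.2 (n, a n U) (fun e => hk n U hU1 (hU2.symm.trans e))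
    have h3 : k n U ≤ K n := hK n ⟨U, hU1, rfl⟩
    have h4 : w.1 (n, a n U) = k n U := hU2
    simp only [if_pos (mem_image_of_mem (a n) hU1)] at h2
    omega

end Pool.Agent.H17.Hech
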