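import Mathlib

namespace Pool.Agent.H17.Hid

open Set Filter Topology

lemma two_cover {u v : ℝ → Prop} (hu : IsOpen {t | u t}) (hv : IsOpen {t | v t})
    (h : ∀ t ∈ Icc (0 : ℝ) 1, u t ∨ v t) (h0 : u 0) (h1 : v 1) : ∃ t ∈ Icc (0 : ℝ) 1, u t ∧ v t :=
  isPreconnected_Icc _ _ hu hv h ⟨0, by simp, h0⟩ ⟨1, by simp, h1⟩

variable {E : Type*} [AddCommGroup E] [Module ℝ E]

/-- Linear functionals below `p`. -/
def Phi (p : E → ℝ) : Set (E → ℝ) :=
  {f | (∀ x y, f (x + y) = f x + f y) ∧ (∀ (c : ℝ) x, f (c • x) = c * f x) ∧ ∀ x, f x ≤ p x}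

lemma Phi.closed (p : E → ℝ) : IsClosed (Phi p) := by
  simp only [Phi, ofPred_and, ofPred_forall]
  refine (isClosed_iInter fun x => isClosed_iInter fun y => isClosed_eq ?_ ?_).inter
    ((isClosed_iInter fun x => isClosed_iInter fun y => isClosed_eq ?_ ?_).inter
      (isClosed_iInter fun x => isClosed_le ?_ ?_)) <;> fun_prop

lemma Phi.low {p f : E → ℝ} (hf : f ∈ Phi p) (x : E) : -p (-x) ≤ f x := by
  have h1 := hf.2.1 (-1) x
  have h2 := hf.2.2 (-x)
  rw [neg_one_smul] at h1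
  linarith

lemma Phi.compact (p : E → ℝ) : IsCompact (Phi p) :=
  (isCompact_univ_pi fun x => isCompact_Icc (a := -p (-x)) (b := p x)).of_isClosed_subset
    (Phi.closed p) fun _ hf x _ => ⟨Phi.low hf x, hf.2.2 x⟩

variable {p : E → ℝ} (hm : ∀ c : ℝ, 0 < c → ∀ x, p (c • x) = c * p x)
  (ha : ∀ x y, p (x + y) ≤ p x + p y) (h0 : ∀ x, 0 ≤ p x)
include hm ha h0

lemma attain (x₀ : E) (hx : 0 < p x₀) : ∃ f ∈ Phi p, f x₀ = p x₀ := by
  have hx0 : x₀ ≠ 0 := by
    rintro rfl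
    have := hm 2 two_pos 0
    rw [smul_zero] at this
    linarith
  let f : E →ₗ.[ℝ] ℝ := LinearPMap.mkSpanSingleton x₀ (p x₀) hx0
  obtain ⟨φ, h1, h2⟩ := exists_extension_of_le_sublinear f p hm ha (by
    rintro ⟨x, hx⟩
    obtain ⟨y, rfl⟩ := Submodule.mem_span_singleton.1 hx
    rw [LinearPMap.mkSpanSingleton'_apply]
    simp only [smul_eq_mul, RingHom.id_apply]
    obtain h | h := le_or_gt y 0
    · exact (mul_nonpos_of_nonpos_of_nonneg h (h0 _)).trans (h0 _)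
    · rw [hm y h])
  refine ⟨φ, ⟨φ.map_add, fun c x => φ.map_smul c x, h2⟩, ?_⟩
  exact (h1 ⟨x₀, Submodule.mem_span_singleton_self _⟩).trans
    (LinearPMap.mkSpanSingleton'_apply_self ..)

lemma hidden {a b : E} (hpa : 1 < p a) (hpb : 1 < p b)
    (h : ∀ f ∈ Phi p, 1 < f a → 1 < f b → False) : ∃ z ∈ segment ℝ a b, p z ≤ 1 := by
  by_contra hz
  push Not at hz
  have lin : ∀ f ∈ Phi p, ∀ t : ℝ, f ((1 - t) • a + t • b) = (1 - t) * f a + t * f b :=
    fun f hf t => by rw [hf.1, hf.2.1, hf.2.1]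
  have op : ∀ c : E, IsOpen {t : ℝ | ∃ f ∈ Phi p, 1 < (1 - t) * f a + t * f b ∧ 1 < f c} := fun c => by
    refine isOpen_iff_mem_nhds.2 fun t ⟨f, hf, h1, h2⟩ => ?_
    have : IsOpen {t : ℝ | 1 < (1 - t) * f a + t * f b} := isOpen_lt (by fun_prop) (by fun_prop)
    exact mem_of_superset (this.mem_nhds h1) fun s hs => ⟨f, hf, hs, h2⟩
  obtain ⟨t, ht, ⟨f, hf, f1, f2⟩, g, hg, g1, g2⟩ := two_cover (op a) (op b) (fun t ht => by
      have h1 := hz _ ⟨1 - t, t, sub_nonneg.2 ht.2, ht.1, sub_add_cancel _ _, rfl⟩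
      obtain ⟨f, hf, e⟩ := attain hm ha h0 _ (one_pos.trans h1)
      rw [← e, lin f hf] at h1
      by_cases h2 : 1 < f a
      · exact .inl ⟨f, hf, h1, h2⟩
      · refine .inr ⟨f, hf, h1, ?_⟩
        by_contra h3
        nlinarith [ht.1, ht.2])
    (by
      obtain ⟨f, hf, e⟩ := attain hm ha h0 a (one_pos.trans hpa)
      exact ⟨f, hf, by linarith, by linarith⟩)
    (by
      obtain ⟨f, hf, e⟩ := attain hm ha h0 b (one_pos.trans hpb)
      exact ⟨f, hf, by linarith, by linarith⟩)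
  obtain ⟨s, hs, s1, s2⟩ := two_cover (u := fun s => 1 < (1 - s) * f a + s * g a)
    (v := fun s => 1 < (1 - s) * f b + s * g b) (isOpen_lt (by fun_prop) (by fun_prop))
    (isOpen_lt (by fun_prop) (by fun_prop)) (fun s hs => by
      by_contra hh
      push Not at hh
      have e1 := mul_le_mul_of_nonneg_left hh.1 (sub_nonneg.2 ht.2)
      have e2 := mul_le_mul_of_nonneg_left hh.2 ht.1
      rcases eq_or_lt_of_le hs.1 with rfl | h'
      · linarith
      · nlinarith [mul_lt_mul_of_pos_left g1 h', mul_le_mul_of_nonneg_left f1.le (sub_nonneg.2 hs.2)])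
    (by linarith) (by linarith)
  refine h (fun x => (1 - s) * f x + s * g x) ⟨fun x y => by simp only [hf.1, hg.1]; ring,
    fun c x => by simp only [hf.2.1, hg.2.1]; ring, fun x => ?_⟩ s1 s2
  nlinarith [mul_le_mul_of_nonneg_left (hf.2.2 x) (sub_nonneg.2 hs.2),
    mul_le_mul_of_nonneg_left (hg.2.2 x) hs.1]

/-- Closed caps. -/
def K (p : E → ℝ) (a : E) : Set (E → ℝ) := {f ∈ Phi p | 1 ≤ f a}

omit hm ha h0 in
lemma K.closed (a : E) : IsClosed (K p a) :=
  (Phi.closed p).inter (isClosed_le continuous_const (continuous_apply a))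

variable {D : Set E} (hD : Convex ℝ D) (hC : ∀ x, p x ≤ 1 → x ∈ D)
include hD hC

lemma shrink {a : E} (haD : a ∈ D) (hpa : 1 < p a) (e : E) {ε : ℝ} (hε : 0 < ε) :
    ∃ b ∈ D, 1 < p b ∧ (∀ f ∈ K p b, 1 < f a) ∧ ∃ c, ∀ f ∈ K p b, |f e - c| < ε := by
  have p0 : p 0 = 0 := by
    have := hm 2 two_pos 0
    rw [smul_zero] at this
    linarith
  set s := (1 + p a) / 2 with hs
  set L := p e + p (-e) + 1 with hL
  have hL0 : 0 < L := by linarith [h0 e, h0 (-e)]
  have hs1 : 1 < s := by linarith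
  have hδ : ∃ δ ∈ Ioo 0 ((s - 1) / L), ∀ f ∈ Phi p, ∀ g ∈ Phi p, f (a + δ • e) = p (a + δ • e) →
      g (a + δ • e) = p (a + δ • e) → g e ≤ f e := by
    by_contra hh
    push Not at hh
    choose! f hf g hg h1 h2 h3 using hh
    have mono : ∀ x ∈ Ioo 0 ((s - 1) / L), ∀ y ∈ Ioo 0 ((s - 1) / L), x < y → g x e ≤ f y e := by
      intro x hx y hy hxy
      have e1 := (hg x hx).2.2 (a + y • e)
      have e2 := (hf y hy).2.2 (a + x • e)
      have e3 := h2 x hx
      have e4 := h1 y hy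
      rw [(hg x hx).1, (hg x hx).2.1] at e1 e3
      rw [(hf y hy).1, (hf y hy).2.1] at e2 e4
      nlinarith
    have hc : (Ioo 0 ((s - 1) / L)).Countable := by
      refine PairwiseDisjoint.countable_of_isOpen (s := fun x => Ioo (f x e) (g x e)) ?_
        (fun _ _ => isOpen_Ioo) fun x hx => nonempty_Ioo.2 (h3 x hx)
      intro x hx y hy hne
      refine disjoint_left.2 fun z h h' => ?_
      rcases lt_or_gt_of_ne hne with hlt | hlt
      · linarith [mono x hx y hy hlt, h.2, h'.1]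
      · linarith [mono y hy x hx hlt, h.1, h'.2]
    have := Cardinal.mk_Ioo_real (div_pos (sub_pos.2 hs1) hL0)
    rw [← Cardinal.le_aleph0_iff_set_countable, this] at hc
    exact Cardinal.aleph0_lt_continuum.not_ge hc
  obtain ⟨δ, ⟨hδ0, hδ1⟩, hδ⟩ := hδ
  rw [lt_div_iff₀ hL0] at hδ1
  set y := a + δ • e with hy
  have hpy : s + δ * p e < p y := by
    have := ha y (δ • -e)
    rw [hm δ hδ0, hy, smul_neg, add_neg_cancel_right] at this
    nlinarith
  have hsy : s < p y := by nlinarith [h0 e]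
  have hyD : s⁻¹ • y ∈ D := by
    have h1 : (δ / (s - 1)) • e ∈ D := hC _ (by
      rw [hm _ (div_pos hδ0 (by linarith)), div_mul_eq_mul_div, div_le_one (by linarith)]
      nlinarith [h0 (-e)])
    have h2 := hD haD h1 (inv_nonneg.2 (by linarith : 0 ≤ s)) (sub_nonneg.2 (inv_le_one_of_one_le₀ hs1.le))
      (add_sub_cancel _ _)
    convert h2 using 1
    rw [hy, smul_add, smul_smul, smul_smul]
    congr 2
    have : s - 1 ≠ 0 := by linarith
    field_simp
  obtain ⟨f₀, hf₀, e₀⟩ := attain hm ha h0 y (by linarith)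
  have : Nonempty (Ico s (p y)) := ⟨⟨s, le_rfl, hsy⟩⟩
  have memK : ∀ r : Ico s (p y), ∀ f, f ∈ K p (r.1⁻¹ • y) ↔ f ∈ Phi p ∧ r.1 ≤ f y := fun r f =>
    and_congr_right fun hf => by
      rw [hf.2.1, inv_mul_eq_div, one_le_div (by linarith [r.2.1])]
  obtain ⟨r, hr⟩ := exists_subset_nhds_of_isCompact' (V := fun r : Ico s (p y) => K p (r.1⁻¹ • y))
    (U := {f | 1 < f a ∧ |f e - f₀ e| < ε})
    (directed_of_isDirected_le fun r r' h f hf => (memK r f).2
      ⟨hf.1, le_trans h ((memK r' f).1 hf).2⟩)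
    (fun r => (Phi.compact p).of_isClosed_subset (K.closed _) fun f hf => hf.1)
    (fun r => K.closed _) (fun f hf => by
      rw [mem_iInter] at hf
      have hf1 := (hf ⟨s, le_rfl, hsy⟩).1
      have hf2 : f y = p y := le_antisymm (hf1.2.2 y) (le_of_forall_lt_imp_le_of_dense fun r h =>
        (le_max_left r s).trans ((memK ⟨max r s, le_max_right _ _, max_lt h hsy⟩ f).1 (hf _)).2)
      refine IsOpen.mem_nhds ((isOpen_lt continuous_const (continuous_apply a)).inter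
        (isOpen_lt (f := fun f : E → ℝ => |f e - f₀ e|) (by fun_prop) continuous_const)) ⟨?_, ?_⟩
      · have e1 := hf2
        rw [hy, hf1.1, hf1.2.1] at e1
        nlinarith [hf1.2.2 e]
      · rw [le_antisymm (hδ f₀ hf₀ f hf1 e₀ hf2) (hδ f hf1 f₀ hf₀ hf2 e₀), sub_self, abs_zero]
        exact hε)
  have hr0 : 0 < r.1 := by linarith [r.2.1]
  refine ⟨r.1⁻¹ • y, ?_, ?_, fun f hf => (hr hf).1, f₀ e, fun f hf => (hr hf).2⟩
  · have h2 := hD.smul_mem_of_zero_mem (hC 0 (by linarith)) hyD (t := s / r.1)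
      ⟨div_nonneg (by linarith) hr0.le, (div_le_one hr0).2 r.2.1⟩
    rwa [smul_smul, show s / r.1 * s⁻¹ = r.1⁻¹ by field_simp] at h2
  · rw [hm _ (inv_pos.2 hr0), inv_mul_eq_div, one_lt_div hr0]
    exact r.2.2

theorem core (e : ℕ → E) (he : Submodule.span ℝ (range e) = ⊤)
    (hn : ∀ a : ℕ → E, (∀ n, a n ∈ D ∧ 1 < p (a n)) →
      ¬ Pairwise fun m n => ∃ z ∈ segment ℝ (a m) (a n), p z ≤ 1) :
    ∃ T ⊆ Phi p, T.Finite ∧ ∀ a ∈ D, 1 < p a → ∃ f ∈ T, 1 < f a := by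
  let T : Set (E → ℝ) := {f ∈ Phi p | ∀ U ∈ 𝓝 f, ∃ a ∈ D, 1 < p a ∧ K p a ⊆ U}
  refine ⟨T, fun f hf => hf.1, ?_, fun a haD hpa => ?_⟩
  · by_contra hT
    obtain ⟨g, -, hg⟩ := Set.Infinite.exists_accPt_of_subset_isCompact hT (Phi.compact p)
      fun f hf => hf.1
    obtain ⟨a, h1, h2⟩ := exists_seq_of_forall_finset_exists
      (fun a => (a ∈ D ∧ 1 < p a) ∧ g ∉ K p a) (fun a b => Disjoint (K p a) (K p b)) (fun s hs => by
        have ho : IsOpen (⋃ a ∈ s, K p a)ᶜ := (isClosed_biUnion_finset fun a _ => K.closed a).isOpen_compl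
        obtain ⟨f, ⟨hf1, hf2⟩, hne⟩ := accPt_iff_nhds.1 hg _ (ho.mem_nhds (by
          simpa using fun a h => (hs a h).2))
        obtain ⟨b, hb, hb1, hb2⟩ := hf2.2 _ ((ho.inter isOpen_compl_singleton).mem_nhds ⟨hf1, hne⟩)
        exact ⟨b, ⟨⟨hb, hb1⟩, fun h => (hb2 h).2 rfl⟩, fun x hx => disjoint_left.2 fun z hz hz' =>
          (hb2 hz').1 (mem_biUnion hx hz)⟩)
    refine hn a (fun n => (h1 n).1) fun m n hmn => hidden hm ha h0 (h1 m).1.2 (h1 n).1.2
      fun f hf e1 e2 => ?_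
    rcases lt_or_gt_of_ne hmn with h | h
    · exact disjoint_left.1 (h2 _ _ h) ⟨hf, e1.le⟩ ⟨hf, e2.le⟩
    · exact disjoint_left.1 (h2 _ _ h) ⟨hf, e2.le⟩ ⟨hf, e1.le⟩
  · have st : ∀ (n : ℕ) (a : {a // a ∈ D ∧ 1 < p a}), ∃ b : {a // a ∈ D ∧ 1 < p a},
        (∀ f ∈ K p b.1, 1 < f a.1) ∧ ∃ c, ∀ f ∈ K p b.1, |f (e n.unpair.1) - c| < 1 / ((n : ℝ) + 1) :=
      fun n a => by
        obtain ⟨b, h1, h2, h3⟩ := shrink hm ha h0 hD hC a.2.1 a.2.2 (e n.unpair.1)
          (Nat.one_div_pos_of_nat (n := n))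
        exact ⟨⟨b, h1, h2⟩, h3⟩
    choose F hF c hc using st
    let u : ℕ → {a // a ∈ D ∧ 1 < p a} := fun n => Nat.rec ⟨a, haD, hpa⟩ F n
    have hdec : ∀ n, K p (u (n + 1)).1 ⊆ K p (u n).1 := fun n f hf => ⟨hf.1, (hF n _ f hf).le⟩
    have hcp : ∀ n, IsCompact (K p (u n).1) := fun n =>
      (Phi.compact p).of_isClosed_subset (K.closed _) fun f hf => hf.1
    obtain ⟨f, hf⟩ := IsCompact.nonempty_iInter_of_sequence_nonempty_isCompact_isClosed
      (fun n => K p (u n).1) hdec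
      (fun n => by
        obtain ⟨f, hf, e⟩ := attain hm ha h0 (u n).1 (one_pos.trans (u n).2.2)
        exact ⟨f, hf, e ▸ (u n).2.2.le⟩) (hcp 0) fun n => K.closed _
    rw [mem_iInter] at hf
    refine ⟨f, ⟨(hf 0).1, fun U hU => ?_⟩, hF 0 _ f (hf 1)⟩
    obtain ⟨n, hn⟩ := exists_subset_nhds_of_isCompact' (V := fun n => K p (u n).1) (U := U)
      (antitone_nat_of_succ_le hdec).directed_ge hcp (fun n => K.closed _) (fun g hg => by
        rw [mem_iInter] at hg
        have e1 : ∀ i, g (e i) = f (e i) := fun i => by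
          by_contra hne
          obtain ⟨N, hN⟩ := exists_nat_one_div_lt (half_pos (abs_pos.2 (sub_ne_zero.2 hne)))
          have h1 := hc (Nat.pair i N) (u _) f (hf (Nat.pair i N + 1))
          have h2 := hc (Nat.pair i N) (u _) g (hg (Nat.pair i N + 1))
          simp only [Nat.unpair_pair] at h1 h2
          have h3 : 1 / ((Nat.pair i N : ℝ) + 1) ≤ 1 / ((N : ℝ) + 1) :=
            Nat.one_div_le_one_div (Nat.right_le_pair i N)
          have := abs_sub_le (g (e i)) (c (Nat.pair i N) (u (Nat.pair i N))) (f (e i))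
          rw [abs_sub_comm (c _ _) (f _)] at this
          linarith
        have e2 : g = f := funext fun x => by
          have hx : x ∈ Submodule.span ℝ (range e) := he ▸ Submodule.mem_top
          induction hx using Submodule.span_induction with
          | mem x h => obtain ⟨i, rfl⟩ := h; exact e1 i
          | zero =>
            have h1 := (hg 0).1.2.1 0 0
            have h2 := (hf 0).1.2.1 0 0
            rw [zero_smul, zero_mul] at h1 h2
            rw [h1, h2]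
          | add x y _ _ h1 h2 => rw [(hg 0).1.1, (hf 0).1.1, h1, h2]
          | smul c x _ h1 => rw [(hg 0).1.2.1, (hf 0).1.2.1, h1]
        exact e2 ▸ hU)
    exact ⟨_, (u n).2.1, (u n).2.2, hn⟩

end Pool.Agent.H17.Hid
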