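import Pool.Agent.H17.Hid

namespace Pool.Agent.H17.Hid

open Set Filter Topology

variable {X : Type*} [AddCommGroup X] [Module ℝ X] [MetricSpace X] [CompleteSpace X]
  [IsTopologicalAddGroup X] [ContinuousSMul ℝ X]

lemma core_point {C : Set X} (hC : Convex ℝ C) (hc : IsClosed C) (h0 : (0 : X) ∈ C) (u : ℕ → X)
    (hu : ∀ n, u n ∈ C) : ∃ c, (2 : ℝ) • c ∈ C ∧ ∀ n, ∃ l : ℝ, 0 < l ∧ c - l • u n ∈ C := by
  have st : ∀ (m : ℕ) (x : X), ∃ l : ℝ, 0 < l ∧ l < (1 / 2) ^ (m + 2) ∧
      dist x (x + l • u m) < (1 / 2) ^ m := fun m x => by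
    have h1 : Tendsto (fun l : ℝ => dist x (x + l • u m)) (𝓝 0) (𝓝 0) := by
      have : Continuous fun l : ℝ => dist x (x + l • u m) := by fun_prop
      simpa using this.tendsto 0
    exact (((eventually_mem_nhdsWithin (a := (0 : ℝ)) (s := Ioi 0))).and
      (((eventually_lt_nhds (by positivity)).and
        (h1.eventually (eventually_lt_nhds (by positivity)))).filter_mono nhdsWithin_le_nhds)).exists
  choose F h1 h2 h3 using st
  let c : ℕ → X := fun n => Nat.rec 0 (fun m x => x + F m x • u m) n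
  let l : ℕ → ℝ := fun m => F m (c m)
  have hcs : ∀ m, c m = ∑ j ∈ Finset.range m, l j • u j := fun m => by
    induction m with
    | zero => rfl
    | succ m ih => rw [Finset.sum_range_succ, ← ih]
  obtain ⟨x, hx⟩ := cauchySeq_tendsto_of_complete (cauchySeq_of_le_geometric (1 / 2) 1
    one_half_lt_one (f := c) fun m => by simpa using (h3 m (c m)).le)
  have hl : ∀ m, ∑ j ∈ Finset.range m, l j ≤ 1 / 2 - (1 / 2) ^ (m + 1) := fun m => by
    induction m with
    | zero => simp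
    | succ m ih =>
      rw [Finset.sum_range_succ]
      have := h2 m (c m)
      simp only [pow_succ] at *
      linarith
  have H : ∀ (m : ℕ) (θ : ℕ → ℝ), (∀ j, 0 ≤ θ j) → (∀ j, θ j ≤ 2 * l j) →
      ∑ j ∈ Finset.range m, θ j • u j ∈ C := fun m θ a1 a2 => by
    have h4 : ∑ j ∈ Finset.range m, θ j ≤ 1 := by
      have := Finset.sum_le_sum fun j (_ : j ∈ Finset.range m) => a2 j
      rw [← Finset.mul_sum] at this
      linarith [hl m, (by positivity : (0 : ℝ) < (1 / 2) ^ (m + 1))]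
    have := hC.sum_mem (t := Finset.range (m + 1))
      (w := fun j => Nat.rec (1 - ∑ j ∈ Finset.range m, θ j) (fun j _ => θ j) j)
      (z := fun j => Nat.rec 0 (fun j _ => u j) j)
      (fun j _ => by cases j; exacts [sub_nonneg.2 h4, a1 _]) (by simp [Finset.sum_range_succ'])
      (fun j _ => by cases j; exacts [h0, hu _])
    simpa [Finset.sum_range_succ'] using this
  have hl0 : ∀ j, 0 < l j := fun j => h1 _ _
  refine ⟨x, hc.mem_of_tendsto (hx.const_smul 2) (.of_forall fun m => ?_), fun n =>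
    ⟨l n, hl0 n, hc.mem_of_tendsto (hx.sub_const _) ((eventually_gt_atTop n).mono fun m hm => ?_)⟩⟩
  · rw [hcs, Finset.smul_sum]
    simp only [smul_smul]
    exact H m _ (fun j => by linarith [hl0 j]) fun j => le_rfl
  · have := H m (fun j => l j - if j = n then l n else 0)
      (fun j => by split_ifs with h <;> simp [h, (hl0 _).le])
      (fun j => by split_ifs with h <;> linarith [hl0 j, hl0 n])
    simpa [sub_smul, Finset.sum_sub_distrib, ← hcs, hm] using this

lemma countable_cover {C D : Set X} (hC : Convex ℝ C) (hc : IsClosed C) (hD : Convex ℝ D)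
    (hCD : C ⊆ D) (h0 : (0 : X) ∈ C)
    (hn : ∀ A ⊆ D \ C, A.Infinite → ¬ A.Pairwise fun a b => (segment ℝ a b ∩ C).Nonempty)
    {S : Set X} (hS : S.Countable) (hS1 : S ⊆ D \ C) (hS2 : S ⊆ Submodule.span ℝ C) :
    ∃ T : Set (Set X), T.Finite ∧ (∀ K ∈ T, Convex ℝ K ∧ Disjoint K C) ∧ S ⊆ ⋃₀ T := by
  choose! t ht using fun a (ha : a ∈ S) => Submodule.mem_span_finite_of_mem_span (hS2 ha)
  obtain ⟨u, hu⟩ := ((hS.biUnion fun a _ => (t a).countable_toSet).insert 0).exists_eq_range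
    (insert_nonempty _ _)
  have huC : ∀ n, u n ∈ C := fun n => by
    have : u n ∈ insert 0 (⋃ a ∈ S, (t a : Set X)) := hu ▸ mem_range_self n
    rcases this with h | h
    · exact h ▸ h0
    · obtain ⟨a, ha, h⟩ := mem_iUnion₂.1 h
      exact (ht a ha).1 h
  obtain ⟨c, hc2, hcu⟩ := core_point hC hc h0 u huC
  have half : ∀ w ∈ C, c + (1 / 2 : ℝ) • w ∈ C := fun w hw => by
    have := hC hc2 hw (a := 1 / 2) (b := 1 / 2) (by norm_num) (by norm_num) (by norm_num)
    rwa [smul_smul, show (1 / 2 : ℝ) * 2 = 1 by norm_num, one_smul] at this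
  have hcC : c ∈ C := by simpa using half 0 h0
  let v : ℕ → X := fun n => Nat.rec c (fun n _ => u n) n
  let E := Submodule.span ℝ (range v)
  let C' : Set E := {x | c + x ∈ C}
  have cv : ∀ {B : Set X}, Convex ℝ B → Convex ℝ {x : E | c + x ∈ B} := fun hB =>
    (hB.translate_preimage_right c).linear_preimage E.subtype
  have hC'0 : (0 : E) ∈ C' := by simpa [C'] using hcC
  have sm : ∀ w : X, ∀ r s : ℝ, c + r • w ∈ C → 0 ≤ s → s ≤ r → c + s • w ∈ C := fun w r s h a b => by
    rcases eq_or_lt_of_le (a.trans b) with rfl | hr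
    · rwa [le_antisymm b a]
    · have := hC.add_smul_mem hcC h (t := s / r) ⟨div_nonneg a hr.le, (div_le_one hr).2 b⟩
      rwa [smul_smul, div_mul_cancel₀ _ hr.ne'] at this
  have ab : ∀ w ∈ E, ∀ᶠ r in 𝓝 (0 : ℝ), c + r • w ∈ C := fun w hw => by
    induction hw using Submodule.span_induction with
    | mem w h =>
      have key : ∀ r s : ℝ, 0 < r → 0 < s → c + r • w ∈ C → c + s • (-w) ∈ C →
          ∀ᶠ r in 𝓝 (0 : ℝ), c + r • w ∈ C := fun r s hr hs a b =>
        mem_of_superset (Ioo_mem_nhds (neg_lt_zero.2 hs) hr) fun x hx => by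
          rcases le_total 0 x with h | h
          · exact sm w r x a h hx.2.le
          · have := sm (-w) s (-x) b (neg_nonneg.2 h) (by linarith [hx.1])
            rwa [neg_smul_neg] at this
      obtain ⟨_ | n, rfl⟩ := h
      · exact key 1 1 one_pos one_pos (by simpa [v, two_smul] using hc2) (by simpa [v] using h0)
      · obtain ⟨l, hl, h⟩ := hcu n
        exact key (1 / 2) l one_half_pos hl (half _ (huC n)) (by simpa [v, sub_eq_add_neg] using h)
    | zero => exact .of_forall fun r => by simpa using hcC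
    | add x y _ _ h1 h2 =>
      have t2 : Tendsto (fun r : ℝ => r * 2) (𝓝 0) (𝓝 0) := by
        simpa using (continuous_mul_const (2 : ℝ)).tendsto 0
      refine ((t2.eventually h1).and (t2.eventually h2)).mono fun r h => ?_
      have := hC h.1 h.2 (a := 1 / 2) (b := 1 / 2) (by norm_num) (by norm_num) (by norm_num)
      convert this using 1
      module
    | smul a x _ h1 =>
      have t2 : Tendsto (fun r : ℝ => r * a) (𝓝 0) (𝓝 0) := by
        simpa using (continuous_mul_const a).tendsto 0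
      exact (t2.eventually h1).mono fun r h => by rwa [smul_smul]
  have habs : Absorbent ℝ C' := absorbent_iff_eventually_nhdsNE_zero.2 fun w =>
    (ab w w.2).filter_mono nhdsWithin_le_nhds
  have hle : ∀ x : E, gauge C' x ≤ 1 → x ∈ C' := fun x hx => by
    have t1 : Tendsto (fun r : ℝ => c + r • (x : X)) (𝓝[<] 1) (𝓝 (c + x)) := by
      have : Continuous fun r : ℝ => c + r • (x : X) := by fun_prop
      simpa using (this.tendsto 1).mono_left nhdsWithin_le_nhds
    refine hc.mem_of_tendsto t1 (mem_of_superset (Ioo_mem_nhdsLT one_pos) fun r hr => ?_)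
    refine setOfPred_gauge_lt_one_subset_self (cv hC) hC'0 habs (a := r • x) ?_
    show gauge C' (r • x) < 1
    rw [gauge_smul_of_nonneg hr.1.le, smul_eq_mul]
    nlinarith [hr.1, hr.2]
  obtain ⟨T, hT, hf, hcov⟩ := core (p := gauge C') (fun r hr x => gauge_smul_of_nonneg hr.le x)
    (gauge_add_le (cv hC) habs) gauge_nonneg (cv hD) (fun x hx => hCD (hle x hx))
    (fun n => ⟨v n, Submodule.subset_span (mem_range_self n)⟩)
    (by
      rw [← Submodule.span_span_coe_preimage (R := ℝ) (s := range v)]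
      congr 1
      ext x
      exact ⟨fun ⟨n, h⟩ => ⟨n, congrArg Subtype.val h⟩, fun ⟨n, h⟩ => ⟨n, Subtype.ext h⟩⟩)
    (fun a ha hp => by
      have hnc : ∀ n, c + a n ∉ C := fun n h => (ha n).2.not_ge (gauge_le_one_of_mem h)
      have hp' : Pairwise fun m n => (segment ℝ (c + a m : X) (c + a n) ∩ C).Nonempty :=
        hp.mono fun m n ⟨z, ⟨r, s, h1, h2, h3, h4⟩, hz⟩ => ⟨c + z, ⟨r, s, h1, h2, h3, by
          rw [← h4, smul_add, smul_add, add_add_add_comm, ← add_smul, h3, one_smul]; rfl⟩, hle z hz⟩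
      refine hn (range fun n => (c + a n : X)) (range_subset_iff.2 fun n => ⟨(ha n).1, hnc n⟩)
        (infinite_range_of_injective fun m n h => ?_) ?_
      · by_contra hne
        obtain ⟨z, hz, hzC⟩ := hp' hne
        rw [h, segment_same] at hz
        exact hnc n (hz ▸ hzC)
      · rintro _ ⟨m, rfl⟩ _ ⟨n, rfl⟩ hne
        exact hp' fun e => hne (by rw [e]))
  refine ⟨(fun f => (fun x : E => c + x) '' {x | 1 < f x}) '' T, hf.image _, ?_, fun a ha => ?_⟩
  · rintro _ ⟨f, hf, rfl⟩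
    refine ⟨?_, disjoint_left.2 ?_⟩
    · have h1 : Convex ℝ {x | 1 < f x} := convex_halfSpace_gt ⟨(hT hf).1, (hT hf).2.1⟩ 1
      have := (h1.linear_image E.subtype).translate c
      rwa [image_image] at this
    · rintro _ ⟨x, hx, rfl⟩ h
      exact hx.not_ge (((hT hf).2.2 x).trans (gauge_le_one_of_mem h))
  · have hE : a - c ∈ E := E.sub_mem (Submodule.span_mono (fun y hy => by
        obtain ⟨n, hn⟩ : y ∈ range u := hu ▸ .inr (mem_biUnion ha hy)
        exact ⟨n + 1, hn⟩) (ht a ha).2) (Submodule.subset_span ⟨0, rfl⟩)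
    obtain ⟨f, hf, h⟩ := hcov ⟨_, hE⟩ (by simpa using (hS1 ha).1) (not_le.1 fun h =>
      (hS1 ha).2 (by simpa [C'] using hle _ h))
    exact ⟨_, ⟨f, hf, rfl⟩, ⟨_, hE⟩, h, by simp⟩

theorem finite_cover {C D : Set X} (hC : Convex ℝ C) (hc : IsClosed C) (hD : Convex ℝ D)
    (hCD : C ⊆ D) (h0 : (0 : X) ∈ C)
    (hn : ∀ A ⊆ D \ C, A.Infinite → ¬ A.Pairwise fun a b => (segment ℝ a b ∩ C).Nonempty) :
    ∃ (n : ℕ) (K : Fin (n + 1) → Set X), (∀ i, Convex ℝ (K i) ∧ Disjoint (K i) C) ∧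
      (D \ C) ∩ Submodule.span ℝ C ⊆ ⋃ i, K i := by
  classical
  set W := (D \ C) ∩ Submodule.span ℝ C
  have h1 : ∃ n : ℕ, ∀ s : Finset X, ∃ g : X → Fin (n + 1),
      ∀ i, Disjoint (convexHull ℝ {a | a ∈ s ∧ a ∈ W ∧ g a = i}) C := by
    by_contra hh
    push Not at hh
    choose s hs using hh
    obtain ⟨T, hT, h1, h2⟩ := countable_cover hC hc hD hCD h0 hn (S := (⋃ n, (s n : Set X)) ∩ W)
      ((countable_iUnion fun n => (s n).countable_toSet).mono inter_subset_left)
      (fun a ha => ha.2.1) fun a ha => ha.2.2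
    obtain ⟨n, k, -, hk⟩ := (hT.insert ∅).fin_param
    have hk1 : ∀ i, Convex ℝ (k i) ∧ Disjoint (k i) C := fun i => by
      rcases (hk ▸ mem_range_self i : k i ∈ insert ∅ T) with h | h
      · rw [h]; exact ⟨convex_empty, empty_disjoint _⟩
      · exact h1 _ h
    obtain ⟨i₀, -⟩ : ∅ ∈ range k := hk ▸ mem_insert _ _
    obtain ⟨n, rfl⟩ : ∃ m, n = m + 1 := ⟨n - 1, by have := i₀.2; omega⟩
    have : ∀ a, ∃ i, a ∈ s n ∧ a ∈ W → a ∈ k i := fun a => by
      by_cases h : a ∈ s n ∧ a ∈ W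
      · obtain ⟨K, hK, ha⟩ := h2 ⟨mem_iUnion.2 ⟨n, h.1⟩, h.2⟩
        obtain ⟨i, rfl⟩ : K ∈ range k := hk ▸ mem_insert_of_mem _ hK
        exact ⟨i, fun _ => ha⟩
      · exact ⟨0, fun h' => absurd h' h⟩
    choose g hg using this
    obtain ⟨i, hi⟩ := hs n g
    exact hi ((hk1 i).2.mono_left (convexHull_min (fun a ha => ha.2.2 ▸ hg a ⟨ha.1, ha.2.1⟩) (hk1 i).1))
  obtain ⟨n, h1⟩ := h1
  choose g hg using h1
  obtain ⟨χ, hχ⟩ := Finset.rado_selection (β := fun _ => Fin (n + 1)) g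
  refine ⟨n, fun i => convexHull ℝ {a ∈ W | χ a = i}, fun i => ⟨convex_convexHull _ _,
    disjoint_left.2 fun x hx => ?_⟩, fun a ha => mem_iUnion.2 ⟨χ a, subset_convexHull _ _ ⟨ha, rfl⟩⟩⟩
  simp only at hx
  rw [convexHull_eq_union_convexHull_finite_subsets] at hx
  obtain ⟨s, hs, hx⟩ := mem_iUnion₂.1 hx
  obtain ⟨t, hst, ht⟩ := hχ s
  exact disjoint_left.1 (hg t i) (convexHull_mono
    (fun a ha => by exact ⟨hst ha, (hs ha).1, (ht a ha).symm.trans (hs ha).2⟩) hx)

end Pool.Agent.H17.Hid
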