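import Mathlib

set_option autoImplicit false

namespace Pool.Agent.H17.Iso
open Set Topology Filter

theorem mad : ∃ 𝒜 : Set (Set ℕ), (∀ A ∈ 𝒜, ∀ B ∈ 𝒜, A ≠ B → (A ∩ B).Finite) ∧
    (∀ B : Set ℕ, B.Infinite → ∃ A ∈ 𝒜, (A ∩ B).Infinite) ∧
    ∀ a ⊆ 𝒜, a.Finite → (⋃₀ a)ᶜ.Infinite := by
  let c : ℕ → Set ℕ := fun i => {n | n.unpair.1 = i}
  have hc : ∀ i, (c i).Infinite := fun i => infinite_of_injective_forall_mem
    (f := fun j => Nat.pair i j) (fun a b h => (Nat.pair_eq_pair.1 h).2) fun j => by simp [c]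
  have hi : Function.Injective c := fun i j h => by
    have : Nat.pair i 0 ∈ c j := h ▸ by simp [c]
    simpa [c] using this
  obtain ⟨𝒜, h0, ⟨h1, h2⟩, hm⟩ := zorn_subset_nonempty
    {𝒜 : Set (Set ℕ) | (∀ A ∈ 𝒜, A.Infinite) ∧ ∀ A ∈ 𝒜, ∀ B ∈ 𝒜, A ≠ B → (A ∩ B).Finite}
    (fun c hc hch _ => ⟨⋃₀ c, ⟨fun A ⟨s, hs, h⟩ => (hc hs).1 A h,
      fun A ⟨s, hs, h⟩ B ⟨t, ht, h'⟩ => (hch.total hs ht).elim
        (fun e => (hc ht).2 A (e h) B h') fun e => (hc hs).2 A h B (e h')⟩,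
      fun s hs => subset_sUnion_of_mem hs⟩) (range c) ⟨by rintro _ ⟨i, rfl⟩; exact hc i, by
      rintro _ ⟨i, rfl⟩ _ ⟨j, rfl⟩ h
      exact finite_empty.subset fun n hn => h (by rw [← show _ = i from hn.1, show _ = j from hn.2])⟩
  refine ⟨𝒜, h2, fun B hB => ?_, fun a ha hf h => ?_⟩
  · by_contra hn
    push Not at hn
    have := hm (y := insert B 𝒜) ⟨by rintro A (rfl | hA); exacts [hB, h1 A hA], by
      rintro A (rfl | hA) A' (rfl | hA') h
      exacts [(h rfl).elim, inter_comm A' A ▸ hn A' hA', hn A hA, h2 A hA A' hA' h]⟩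
      (subset_insert _ _) (mem_insert _ _)
    exact hB (inter_self B ▸ hn B this)
  · obtain ⟨_, ⟨i, rfl⟩, h3⟩ := (infinite_range_of_injective hi).exists_notMem_finite hf
    refine hc i ((h.union (hf.biUnion fun A hA => h2 _ (h0 ⟨i, rfl⟩) A (ha hA)
      fun e => h3 (e ▸ hA))).subset fun n hn => ?_)
    by_cases h4 : n ∈ ⋃₀ a
    · obtain ⟨A, h5, h6⟩ := h4
      exact Or.inr (mem_biUnion h5 ⟨hn, h6⟩)
    · exact Or.inl h4

section general
variable {X : Type} [TopologicalSpace X]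

abbrev Cp (X : Type) [TopologicalSpace X] : Type := {f : X → ℝ // Continuous f}

theorem clus {u : ℕ → Cp X} {z : Cp X} (h : MapClusterPt z atTop u) {x : X} {s : Set ℝ}
    (hs : IsClosed s) (h' : ∀ᶠ n in atTop, (u n).1 x ∈ s) : z.1 x ∈ s :=
  (hs.preimage ((continuous_apply x).comp continuous_subtype_val)).mem_of_mapClusterPt h h'

theorem agree {S : Set (Cp X)}
    (hS : ∀ u : ℕ → Cp X, (∀ n, u n ∈ S) → ∃ z ∈ S, MapClusterPt z atTop u) {T : X → ℝ}
    (hT : T ∈ closure (Subtype.val '' S)) {C : Set X} (hC : C.Countable) :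
    ∃ f ∈ S, ∀ x ∈ C, f.1 x = T x := by
  rcases C.eq_empty_or_nonempty with rfl | hne
  · obtain ⟨_, f, hf, -⟩ := closure_nonempty_iff.1 ⟨T, hT⟩
    exact ⟨f, hf, by simp⟩
  obtain ⟨c, rfl⟩ := hC.exists_eq_range hne
  have : ∀ n : ℕ, ∃ f ∈ S, ∀ i < n, dist (f.1 (c i)) (T (c i)) < 1 / ((n : ℝ) + 1) := fun n => by
    obtain ⟨_, h1, f, h2, rfl⟩ := mem_closure_iff.1 hT
      (⋂ i ∈ Finset.range n, {f | dist (f (c i)) (T (c i)) < 1 / ((n : ℝ) + 1)})
      (isOpen_biInter_finset fun i _ => isOpen_lt (by fun_prop) continuous_const)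
      (mem_iInter₂.2 fun i _ => by simpa using Nat.cast_add_one_pos n)
    exact ⟨f, h2, fun i hi => mem_iInter₂.1 h1 i (Finset.mem_range.2 hi)⟩
  choose u h1 h2 using this
  obtain ⟨z, h3, h4⟩ := hS u h1
  refine ⟨z, h3, forall_mem_range.2 fun i => eq_of_forall_dist_le fun ε hε => ?_⟩
  refine clus h4 (Metric.isClosed_closedBall (x := T (c i))) ?_
  filter_upwards [eventually_gt_atTop i,
    tendsto_one_div_add_atTop_nhds_zero_nat.eventually (gt_mem_nhds hε)] with n a b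
  exact ((h2 n i a).trans b).le

theorem cpt {S : Set (Cp X)} (hc : IsClosed S)
    (hS : ∀ u : ℕ → Cp X, (∀ n, u n ∈ S) → ∃ z ∈ S, MapClusterPt z atTop u)
    (h : ∀ T ∈ closure (Subtype.val '' S), Continuous T) : IsCompact S := by
  have h1 : ∀ x, ∃ r : ℕ, ∀ f ∈ S, f.1 x ∈ Metric.closedBall (0 : ℝ) r := fun x => by
    by_contra hn
    push Not at hn
    choose u h1 h2 using hn
    obtain ⟨z, -, h3⟩ := hS u h1
    obtain ⟨r, hr⟩ := exists_nat_gt (dist (z.1 x) 0)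
    refine clus h3 (Metric.isOpen_ball (x := 0) (ε := r)).isClosed_compl ?_ hr
    filter_upwards [eventually_ge_atTop r] with n hn h4
    exact h2 n (Metric.closedBall_subset_closedBall (by exact_mod_cast hn)
      (Metric.ball_subset_closedBall h4))
  choose r hr using h1
  have h2 := (isCompact_univ_pi fun x => isCompact_closedBall (0 : ℝ) (r x)).closure_of_subset
    (s := Subtype.val '' S) (by rintro _ ⟨f, hf, rfl⟩ x -; exact hr x f hf)
  have h3 : closure (Subtype.val '' S) = Subtype.val '' S := Subset.antisymm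
    (fun T hT => ⟨⟨T, h T hT⟩, hc.closure_subset (closure_subtype.2 hT), rfl⟩) subset_closure
  exact Subtype.isCompact_iff.2 (h3 ▸ h2)

end general

variable (𝒜 : Set (Set ℕ))

def In0 (g : ℕ ⊕ 𝒜 → Bool) : Prop := {A | g (.inr A) = true}.Finite ∧
  {n | ¬ (g (.inl n) = true ↔ ∃ A : 𝒜, g (.inr A) = true ∧ n ∈ A.1)}.Finite

abbrev X : Type := {g : ℕ ⊕ 𝒜 → Bool // In0 𝒜 g ∨ g = fun _ => true}

variable {𝒜}

open Classical in
theorem in0 (g : X 𝒜) (hg : In0 𝒜 g.1) (E : Set 𝒜) (hE : E.Finite) (P : Set ℕ) (b : Prop)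
    (hb : {n | ¬ (n ∈ P ↔ b)}.Finite) :
    In0 𝒜 (Sum.elim (fun n => g.1 (.inl n) || decide (n ∈ P ∧ ∃ A ∈ E, n ∈ A.1))
      fun A => g.1 (.inr A) || decide (b ∧ A ∈ E)) :=
  ⟨(hg.1.union hE).subset fun A hA => by
      simp only [Sum.elim_inr, Bool.or_eq_true, decide_eq_true_eq, mem_ofPred_eq] at hA
      exact hA.imp id And.right, (hg.2.union hb).subset fun n hn => by
      by_contra h
      simp only [mem_union, mem_ofPred_eq, not_or, not_not] at h
      refine hn ?_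
      simp only [Sum.elim_inr, Sum.elim_inl, Bool.or_eq_true, decide_eq_true_eq, h.1, h.2, or_and_right,
        exists_or, and_assoc, exists_and_left]⟩

open Classical in
noncomputable def mk (g : X 𝒜) (hg : In0 𝒜 g.1) (E : Set 𝒜) (hE : E.Finite) (P : Set ℕ) (b : Prop)
    (hb : {n | ¬ (n ∈ P ↔ b)}.Finite) : X 𝒜 :=
  ⟨Sum.elim (fun n => g.1 (.inl n) || decide (n ∈ P ∧ ∃ A ∈ E, n ∈ A.1))
    fun A => g.1 (.inr A) || decide (b ∧ A ∈ E), Or.inl (in0 g hg E hE P b hb)⟩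

def CJ (J : Set 𝒜) : Set (X 𝒜) := {g | In0 𝒜 g.1 ∧ ∀ A, g.1 (.inr A) = true → A ∈ J}

theorem cCJ {J : Set 𝒜} (hJ : J.Countable) : (CJ J).Countable := by
  refine MapsTo.countable_of_injOn (f := fun g : X 𝒜 => ({A | g.1 (.inr A) = true},
    {n | ¬ (g.1 (.inl n) = true ↔ ∃ A : 𝒜, g.1 (.inr A) = true ∧ n ∈ A.1)})) ?_ ?_
    ((countable_ofPred_finite_subset hJ).prod (countable_ofPred_finite_subset countable_univ))
  · exact fun g hg => ⟨⟨hg.1.1, hg.2⟩, hg.1.2, subset_univ _⟩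
  · intro g _ g' _ h
    have h1 : ∀ A, g.1 (.inr A) = g'.1 (.inr A) := fun A =>
      Bool.eq_iff_iff.2 (Set.ext_iff.1 (congrArg Prod.fst h) A)
    refine Subtype.ext (funext ?_)
    rintro (n | A)
    · have := Set.ext_iff.1 (congrArg Prod.snd h) n
      simp only [mem_ofPred_eq, h1] at this
      exact Bool.eq_iff_iff.2 (iff_iff_eq.2 (by rw [not_iff_not] at this; grind))
    · exact h1 A

theorem loc (f : Cp (X 𝒜)) (g : X 𝒜) {ε : ℝ} (hε : 0 < ε) : ∃ F : Finset (ℕ ⊕ 𝒜),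
    ∀ g' : X 𝒜, (∀ i ∈ F, g'.1 i = g.1 i) → |f.1 g' - f.1 g| < ε := by
  obtain ⟨O, h1, h2⟩ := isOpen_induced_iff.1 ((Metric.isOpen_ball (x := f.1 g) (ε := ε)).preimage f.2)
  obtain ⟨F, u, h3, h4⟩ := isOpen_pi_iff.1 h1 g.1 (h2.ge (Metric.mem_ball_self hε))
  exact ⟨F, fun g' h => h2.le (h4 fun i hi => h i hi ▸ (h3 i hi).2)⟩

theorem big (F : Finset (ℕ ⊕ 𝒜)) : ∃ k, ∀ n, Sum.inl n ∈ F → n < k :=
  ⟨F.toLeft.sup id + 1, fun _ hn => Nat.lt_succ_of_le
    (Finset.le_sup (f := id) (Finset.mem_toLeft.2 hn))⟩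

theorem key {S : Set (Cp (X 𝒜))}
    (hS : ∀ u : ℕ → Cp (X 𝒜), (∀ n, u n ∈ S) → ∃ z ∈ S, MapClusterPt z atTop u) {T : X 𝒜 → ℝ}
    (hT : T ∈ closure (Subtype.val '' S)) (g0 : X 𝒜) {ε : ℝ} (hε : 0 < ε) : ∃ F : Finset (ℕ ⊕ 𝒜),
    ∀ g : X 𝒜, In0 𝒜 g.1 → (∀ i ∈ F, g.1 i = g0.1 i) → |T g - T g0| ≤ ε := by
  classical
  by_contra hn
  push Not at hn
  choose w w1 w2 w3 using hn
  have h8 : 0 < ε / 8 := by positivity
  choose L hL using fun f g => loc (𝒜 := 𝒜) f g h8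
  have h0 : ∀ J : Set 𝒜, ∃ f ∈ S, J.Countable → ∀ x ∈ insert g0 (CJ J), f.1 x = T x := fun J => by
    by_cases hJ : J.Countable
    · obtain ⟨f, a, b⟩ := agree hS hT ((cCJ hJ).insert g0)
      exact ⟨f, a, fun _ => b⟩
    · obtain ⟨f, a, -⟩ := agree hS hT countable_empty
      exact ⟨f, a, fun h => (hJ h).elim⟩
  choose φ φ1 φ2 using h0
  let st : ℕ → Set 𝒜 × Set (Cp (X 𝒜)) := fun n => Nat.rec (∅, ∅) (fun _ p =>
    ((p.1 ∪ ⋃ f ∈ p.2, ⋃ g ∈ CJ p.1, {A | Sum.inr A ∈ L f g}) ∪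
      ⋃ F ∈ {F : Finset (ℕ ⊕ 𝒜) | ∀ A, Sum.inr A ∈ F → A ∈ p.1}, {A | (w F).1 (.inr A) = true},
      insert (φ p.1) p.2)) n
  have hc : ∀ n, (st n).1.Countable ∧ (st n).2.Countable := fun n => by
    induction n with
    | zero => exact ⟨countable_empty, countable_empty⟩
    | succ n ih =>
      refine ⟨(ih.1.union (ih.2.biUnion fun f _ => (cCJ ih.1).biUnion fun g _ =>
        ((L f g).finite_toSet.preimage Sum.inr_injective.injOn).countable)).union
        (Countable.biUnion ?_ fun F _ => (w1 F).1.countable), ih.2.insert _⟩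
      refine ((countable_ofPred_finite_subset ((countable_range Sum.inl).union
        (ih.1.image Sum.inr))).preimage_of_injOn (f := fun F : Finset (ℕ ⊕ 𝒜) => (F : Set (ℕ ⊕ 𝒜)))
        Finset.coe_injective.injOn).mono ?_
      refine fun F hF => show (F : Set (ℕ ⊕ 𝒜)).Finite ∧ _ from ⟨F.finite_toSet, ?_⟩
      rintro (n | A) h
      exacts [Or.inl ⟨n, rfl⟩, Or.inr ⟨A, hF A h, rfl⟩]
  have m1 : Monotone fun n => (st n).1 := monotone_nat_of_le_succ fun n =>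
    subset_union_left.trans subset_union_left
  have m2 : Monotone fun n => (st n).2 := monotone_nat_of_le_succ fun n => subset_insert _ _
  have fin : ∀ a : Set 𝒜, a.Finite → ∃ n, ∀ A ∈ a, (∃ m, A ∈ (st m).1) → A ∈ (st n).1 := by
    refine fun a ha => ((eventually_all_finite ha).2 fun A _ => ?_).exists (f := atTop)
    by_cases h : ∃ m, A ∈ (st m).1
    · obtain ⟨m, hm⟩ := h
      exact (eventually_ge_atTop m).mono fun n hn _ => m1 hn hm
    · exact .of_forall fun n h' => (h h').elim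
  obtain ⟨f, -, hf⟩ := hS (fun n => φ (st n).1) fun n => φ1 _
  have hfT : ∀ n, ∀ x ∈ insert g0 (CJ (st n).1), f.1 x = T x := fun n x hx =>
    clus hf isClosed_singleton ((eventually_ge_atTop n).mono fun m hm =>
      φ2 _ (hc m).1 x (hx.imp id fun h => ⟨h.1, fun A hA => m1 hm (h.2 A hA)⟩))
  obtain ⟨n0, hn0⟩ := fin {A | Sum.inr A ∈ L f g0}
    ((L f g0).finite_toSet.preimage Sum.inr_injective.injOn)
  let F0 := (L f g0).filter fun i => ∀ A, i = Sum.inr A → A ∈ (st n0).1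
  have hg : w F0 ∈ CJ (st (n0 + 1)).1 := ⟨w1 _, fun A hA => Or.inr (mem_biUnion
    (show F0 ∈ {F : Finset (ℕ ⊕ 𝒜) | ∀ A, Sum.inr A ∈ F → A ∈ (st n0).1} from
      fun A hA => (Finset.mem_filter.1 hA).2 A rfl) hA)⟩
  let E : Set 𝒜 := {A | Sum.inr A ∈ L f g0 ∧ A ∉ (st n0).1 ∧ g0.1 (.inr A) = true}
  have hE : E.Finite := ((L f g0).finite_toSet.preimage Sum.inr_injective.injOn).subset fun _ h => h.1
  have hE' : ∀ A ∈ E, ∀ m, A ∉ (st m).1 := fun A hA m h => hA.2.1 (hn0 A hA.1 ⟨m, h⟩)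
  obtain ⟨k, hk⟩ := big (L f g0 ∪ L f (w F0))
  let g' := mk (w F0) (w1 _) E hE (Ici k) True ((finite_lt_nat k).subset fun n hn => by simpa using hn)
  have a1 : |f.1 g' - f.1 g0| < ε / 8 := hL _ _ _ (by
    rintro (n | A) hi
    · have := hk n (Finset.mem_union_left _ hi)
      simp [g', mk, not_le.2 this, w2 F0 _ (Finset.mem_filter.2 ⟨hi, by simp⟩)]
    · by_cases h : A ∈ (st n0).1
      · simp [g', mk, E, h, w2 F0 _ (Finset.mem_filter.2 ⟨hi, by simpa using h⟩)]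
      · have : (w F0).1 (.inr A) = false := Bool.eq_false_iff.2 fun h' =>
          h (hn0 A hi ⟨n0 + 1, hg.2 A h'⟩)
        simp [g', mk, E, h, hi, this])
  obtain ⟨n, a2, hn⟩ := ((mapClusterPt_iff_frequently.1 hf {h | |h.1 g' - f.1 g'| < ε / 8}
    ((isOpen_lt (((continuous_apply g').comp continuous_subtype_val).sub continuous_const).abs
      continuous_const).mem_nhds (by simpa using hε))).and_eventually
    (eventually_ge_atTop (n0 + 1))).exists
  obtain ⟨j, hj⟩ := big (L (φ (st n).1) g')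
  let h := mk (w F0) (w1 _) E hE (Ico k j) False ((finite_Ico k j).subset fun n hn => by simpa using hn)
  have hh : ∀ m, n0 + 1 ≤ m → h ∈ CJ (st m).1 := fun m hm => ⟨in0 _ (w1 _) E hE _ _
    ((finite_Ico k j).subset fun n hn => by simpa using hn),
    fun A hA => m1 hm (hg.2 A (by simpa [h, mk] using hA))⟩
  have a3 : |f.1 h - f.1 (w F0)| < ε / 8 := hL _ _ _ (by
    rintro (n | A) hi
    · simp [h, mk, not_le.2 (hk n (Finset.mem_union_right _ hi))]
    · simp [h, mk])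
  obtain ⟨l, hl⟩ := big (L (φ (st n).1) h ∪ L (φ (st n).1) g')
  let y := mk (w F0) (w1 _) E hE (Ico k j ∪ Ici l) True
    ((finite_lt_nat l).subset fun n hn => by simp at hn; exact hn.2)
  have a4 : |(φ (st n).1).1 y - (φ (st n).1).1 h| < ε / 8 := hL _ _ _ (by
    rintro (m | A) hi
    · simp [h, y, mk, not_le.2 (hl m (Finset.mem_union_left _ hi))]
    · have : A ∉ E := fun hA => hE' A hA (n + 2) (Or.inl (Or.inr (mem_biUnion (mem_insert _ _)
        (mem_biUnion (hh (n + 1) (by omega)) hi))))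
      simp [h, y, mk, this])
  have a5 : |(φ (st n).1).1 y - (φ (st n).1).1 g'| < ε / 8 := hL _ _ _ (by
    rintro (m | A) hi
    · simp [g', y, mk, not_le.2 (hl m (Finset.mem_union_right _ hi)), hj m hi]
    · simp [g', y, mk])
  have a6 := φ2 _ (hc n).1 h (Or.inr (hh n hn))
  have a7 := hfT n h (Or.inr (hh n hn))
  have a8 := hfT (n0 + 1) _ (Or.inr hg)
  have a9 := hfT 0 g0 (Or.inl rfl)
  have a10 := w3 F0
  have a2' : |(φ (st n).1).1 g' - f.1 g'| < ε / 8 := a2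
  rw [abs_lt] at a1 a2' a3 a4 a5
  rcases lt_abs.1 a10 with h | h <;> linarith

theorem iso {S : Set (Cp (X 𝒜))} (hc : IsClosed S)
    (hS : ∀ u : ℕ → Cp (X 𝒜), (∀ n, u n ∈ S) → ∃ z ∈ S, MapClusterPt z atTop u) : IsCompact S := by
  classical
  refine cpt hc hS fun T hT => continuous_iff_continuousAt.2 fun g0 =>
    Metric.tendsto_nhds.2 fun ε hε => ?_
  obtain ⟨F, hF⟩ := key hS hT g0 (half_pos hε)
  have h1 : ∀ i, ∀ᶠ g in 𝓝 g0, g.1 i = g0.1 i := fun i =>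
    ((isOpen_discrete {g0.1 i}).preimage (f := fun g : X 𝒜 => g.1 i)
      ((continuous_apply i).comp continuous_subtype_val)).mem_nhds rfl
  have h2 : ∀ᶠ g in 𝓝 g0, In0 𝒜 g.1 ∨ g = g0 := by
    by_cases h : g0.1 = fun _ => true
    · exact .of_forall fun g => g.2.imp id fun e => Subtype.ext (e.trans h.symm)
    · obtain ⟨i, hi⟩ := Function.ne_iff.1 h
      exact (h1 i).mono fun g hg => Or.inl (g.2.resolve_right fun e => hi (hg ▸ congrFun e i))
  filter_upwards [(eventually_all_finset F).2 fun i _ => h1 i, h2] with g a b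
  rcases b with b | rfl
  · exact (hF g b a).trans_lt (half_lt_self hε)
  · simpa using hε

noncomputable def ev (i : ℕ ⊕ 𝒜) : Cp (X 𝒜) :=
  ⟨fun g => if g.1 i then 1 else 0, (continuous_of_discreteTopology
    (f := fun b : Bool => if b then (1 : ℝ) else 0)).comp
      ((continuous_apply i).comp continuous_subtype_val)⟩

theorem relcc (h1 : ∀ A ∈ 𝒜, ∀ B ∈ 𝒜, A ≠ B → (A ∩ B).Finite)
    (h2 : ∀ B : Set ℕ, B.Infinite → ∃ A ∈ 𝒜, (A ∩ B).Infinite) (u : ℕ → Cp (X 𝒜))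
    (hu : ∀ n, u n ∈ range fun n => ev (𝒜 := 𝒜) (.inl n)) : ∃ z, MapClusterPt z atTop u := by
  choose s hs using hu
  by_cases h : (range s).Finite
  · obtain ⟨z, -, hz⟩ := (h.image fun n => ev (𝒜 := 𝒜) (.inl n)).isCompact.exists_mapClusterPt
      (f := atTop) (u := u) (tendsto_principal.2 (.of_forall fun n => ⟨_, ⟨n, rfl⟩, hs n⟩))
    exact ⟨z, hz⟩
  obtain ⟨A, hA, h3⟩ := h2 _ h
  have h4 : Tendsto (fun n => ev (𝒜 := 𝒜) (.inl n)) (cofinite ⊓ 𝓟 A) (𝓝 (ev (.inr ⟨A, hA⟩))) := by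
    refine tendsto_subtype_rng.2 (tendsto_pi_nhds.2 fun g => tendsto_const_nhds.congr' ?_)
    refine eventually_inf_principal.2 (eventually_cofinite.2 ?_)
    rcases g.2 with hg | hg
    · refine (hg.2.union (hg.1.biUnion (t := fun B => if B.1 = A then ∅ else A ∩ B.1) fun B _ => by
        split_ifs with h
        exacts [finite_empty, h1 A hA _ B.2 (Ne.symm h)])).subset fun n hn => ?_
      by_contra h5
      simp only [mem_union, mem_ofPred_eq, not_or, not_not, mem_iUnion, not_exists] at h5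
      refine hn fun h6 => ?_
      have : g.1 (.inr ⟨A, hA⟩) = g.1 (.inl n) := Bool.eq_iff_iff.2
        ⟨fun h => h5.1.2 ⟨_, h, h6⟩, fun h => by
          obtain ⟨B, h7, h8⟩ := h5.1.1 h
          by_cases e : B.1 = A
          · exact (Subtype.ext e : B = ⟨A, hA⟩) ▸ h7
          · exact (h5.2 B h7 (by rw [if_neg e]; exact ⟨h6, h8⟩)).elim⟩
      simp [ev, this]
    · simp [ev, hg]
  refine ⟨ev (.inr ⟨A, hA⟩), mapClusterPt_iff_frequently.2 fun U hU => ?_⟩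
  rw [← Nat.cofinite_eq_atTop, frequently_cofinite_iff_infinite]
  refine fun h5 => h3 (((eventually_cofinite.1 (eventually_inf_principal.1 (h4 hU))).union
    (h5.image s)).subset ?_)
  rintro _ ⟨h6, n, rfl⟩
  by_cases h7 : u n ∈ U
  · exact Or.inr ⟨n, h7, rfl⟩
  · exact Or.inl fun h => h7 (hs n ▸ h h6)

theorem ncpt (h3 : ∀ a ⊆ 𝒜, a.Finite → (⋃₀ a)ᶜ.Infinite) :
    ¬ IsCompact (closure (range fun n => ev (𝒜 := 𝒜) (.inl n))) := fun h => by
  classical
  have h4 : ∀ F : Finset (X 𝒜), ∃ n, ∀ g ∈ F, In0 𝒜 g.1 → g.1 (.inl n) = false := fun F => by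
    have hF := F.finite_toSet.subset (sep_subset (F : Set (X 𝒜)) fun g => In0 𝒜 g.1)
    obtain ⟨n, h5, h6⟩ := (h3 _ (Subtype.coe_image_subset _ _) ((hF.biUnion fun g hg => hg.2.1).image
      _)).exists_notMem_finite (hF.biUnion fun g hg => hg.2.2)
    refine ⟨n, fun g hg h7 => Bool.eq_false_iff.2 fun h8 => h6 (mem_biUnion ⟨hg, h7⟩ fun h9 => ?_)⟩
    obtain ⟨A, a, b⟩ := h9.1 h8
    exact h5 ⟨A, ⟨A, mem_biUnion ⟨hg, h7⟩ a, rfl⟩, b⟩
  choose s hs using h4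
  obtain ⟨z, -, hz⟩ := h.exists_mapClusterPt (f := atTop) (u := fun F => ev (𝒜 := 𝒜) (.inl (s F)))
    (tendsto_principal.2 (.of_forall fun n => subset_closure ⟨_, rfl⟩))
  have h5 : ∀ g r, (∀ᶠ F in atTop, (ev (𝒜 := 𝒜) (.inl (s F))).1 g = r) → z.1 g = r := fun g r h =>
    (isClosed_eq ((continuous_apply g).comp continuous_subtype_val)
      continuous_const).mem_of_mapClusterPt hz h
  obtain ⟨F, hF⟩ := loc z ⟨_, Or.inr rfl⟩ one_pos
  have h0 : In0 𝒜 fun _ => false := ⟨by simp, by simp⟩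
  have h6 := in0 ⟨_, Or.inl h0⟩ h0 {A | Sum.inr A ∈ F}
    (F.finite_toSet.preimage Sum.inr_injective.injOn) univ True (by simp)
  have h7 : In0 𝒜 fun i => decide (i ∈ F) || Sum.elim (fun n => false || decide (n ∈ univ ∧
      ∃ A ∈ {A : 𝒜 | Sum.inr A ∈ F}, n ∈ A.1))
      (fun A => false || decide (True ∧ A ∈ {A : 𝒜 | Sum.inr A ∈ F})) i :=
    ⟨h6.1.subset fun A hA => by simpa using hA,
      (F.finite_toSet.preimage Sum.inl_injective.injOn).subset fun n hn => by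
        by_contra h
        exact hn (by simp [show Sum.inl n ∉ F from h])⟩
  have h8 := hF ⟨_, Or.inl h7⟩ fun i hi => by simp [hi]
  rw [h5 ⟨_, Or.inr rfl⟩ 1 (.of_forall fun F => by simp [ev]), h5 ⟨_, Or.inl h7⟩ 0
    ((eventually_ge_atTop {⟨_, Or.inl h7⟩}).mono fun G hG =>
      if_neg (Bool.eq_false_iff.1 (hs G ⟨_, Or.inl h7⟩ (hG (Finset.mem_singleton_self _)) h7)))] at h8
  simp at h8

end Pool.Agent.H17.Iso
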