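import Pool.Agent.H17.Dm2

set_option autoImplicit false
open Set Topology Filter TopologicalSpace

namespace Pool.Agent.H17.It
open Pool.Agent.H17.TE Pool.Agent.H17.Dm

variable {S T : Type} [TopologicalSpace S] [TopologicalSpace T]

theorem mix2 {B C : Set (StoneCech S)} (hB : B.Finite) (hC : C.Finite) (hd : Disjoint B C)
    (f g : Cp S) : ∃ f' : Cp S,
      (∀ b ∈ B, ∀ᶠ z in 𝓝 b, ∀ s, stoneCechUnit s = z → f'.1 s = f.1 s) ∧
      (∀ c ∈ C, ∀ᶠ z in 𝓝 c, ∀ s, stoneCechUnit s = z → f'.1 s = g.1 s) ∧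
      ∀ s, |f'.1 s - g.1 s| ≤ |f.1 s - g.1 s| := by
  obtain ⟨l, l0, l1, -⟩ := exists_continuous_zero_one_of_isClosed hB.isClosed hC.isClosed hd
  have hl : Continuous fun s : S => max 0 (min 1 (3 * l (stoneCechUnit s) - 1)) := by
    have := continuous_stoneCechUnit (α := S)
    fun_prop
  refine ⟨⟨fun s => f.1 s + max 0 (min 1 (3 * l (stoneCechUnit s) - 1)) * (g.1 s - f.1 s),
    f.2.add (hl.mul (g.2.sub f.2))⟩, fun b hb => ?_, fun c hc => ?_, fun s => ?_⟩
  · filter_upwards [(isOpen_lt l.continuous (continuous_const (y := 1 / 3))).mem_nhds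
      (by simp [l0 hb])] with z hz s hs
    subst hs
    rw [max_eq_left (min_le_of_right_le (by linarith))]; ring
  · filter_upwards [(isOpen_lt (continuous_const (y := 2 / 3)) l.continuous).mem_nhds
      (by simp [l1 hc]; norm_num)] with z hz s hs
    subst hs
    rw [min_eq_left (by linarith), max_eq_right zero_le_one]; ring
  · set m := max 0 (min 1 (3 * l (stoneCechUnit s) - 1))
    have h0 : 0 ≤ m := le_max_left _ _
    have h1 : m ≤ 1 := max_le zero_le_one (min_le_left _ _)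
    have e : f.1 s + m * (g.1 s - f.1 s) - g.1 s = (1 - m) * (f.1 s - g.1 s) := by ring
    simp only
    rw [e, abs_mul, abs_of_nonneg (sub_nonneg.2 h1)]
    exact mul_le_of_le_one_left (abs_nonneg _) (by linarith)

omit [TopologicalSpace T] in
theorem finP {Φ : Cp S → T → ℝ} {t : T} (h1 : Continuous fun f => Φ f t) {g : Cp S} {r ε : ℝ}
    (hε : 0 < ε) {n : ℕ}
    (hmin : ∀ m < n, ∀ x : Fin m → StoneCech S, ¬ NC stoneCechUnit Subtype.val g Φ r ε t x) :
    ∃ P : Set S, P.Finite ∧ ∀ x : Fin n → StoneCech S,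
      NC stoneCechUnit Subtype.val g Φ r ε t x → ∀ i, x i ∈ stoneCechUnit '' P := by
  classical
  have hN : ∀ A : Finset (StoneCech S), ∃ N : Set (StoneCech S), N.Finite ∧
      N ⊆ range stoneCechUnit ∧ (A.card < n → ∀ x : Fin n → StoneCech S,
        NC stoneCechUnit Subtype.val g Φ r ε t x → ∃ b ∈ N, b ∉ A ∧ b ∈ range x) := by
    intro A
    by_cases hA : A.card < n
    swap
    · exact ⟨∅, finite_empty, empty_subset _, fun h => absurd h hA⟩
    have := hmin _ hA fun i => (A.equivFin.symm i).1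
    simp only [NC, not_forall, not_le] at this
    obtain ⟨f, hf, hr⟩ := this
    obtain ⟨m, k, y, hy⟩ := nbhd (O := {f | r < Φ f t}) (isOpen_lt continuous_const h1) hr
    refine ⟨range fun i => stoneCechUnit (y i), finite_range _,
      range_subset_iff.2 fun i => mem_range_self _, fun _ x hx => ?_⟩
    by_contra hn
    push Not at hn
    obtain ⟨f', a1, a2, a3⟩ := mix2 (B := range fun i => stoneCechUnit (y i))
      (C := range x \ A) (finite_range _) ((finite_range _).subset sdiff_subset)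
      (disjoint_left.2 fun b hb hc => hn b hb hc.2 hc.1) f g
    refine absurd (hx f' fun i => ?_) (not_le.2 (hy f' fun i => ?_))
    · by_cases hi : x i ∈ A
      · have := hf (A.equivFin ⟨x i, hi⟩)
        simp only [Equiv.symm_apply_apply] at this
        exact this.mono fun z hz s hs => (a3 s).trans_lt (hz s hs)
      · exact (a2 _ ⟨mem_range_self i, hi⟩).mono fun z hz s hs => by rw [hz s hs]; simpa using hε
    · rw [(a1 _ (mem_range_self i)).self_of_nhds _ rfl]; simp; positivity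
  choose N hN1 hN2 hN3 using hN
  have key : ∀ j ≤ n, ∃ 𝒮 : Set (Finset (StoneCech S)), 𝒮.Finite ∧
      (∀ A ∈ 𝒮, A.card = j ∧ (A : Set (StoneCech S)) ⊆ range stoneCechUnit) ∧ ∀ x : Fin n → StoneCech S,
        NC stoneCechUnit Subtype.val g Φ r ε t x → ∃ A ∈ 𝒮, (A : Set _) ⊆ range x := by
    intro j
    induction j with
    | zero => exact fun _ => ⟨{∅}, finite_singleton _, by simp, by simp⟩
    | succ j ih =>
      intro hj
      obtain ⟨𝒮, s1, s2, s3⟩ := ih (by omega)
      refine ⟨⋃ A ∈ 𝒮, (fun b => insert b A) '' (N A \ A),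
        s1.biUnion fun A _ => ((hN1 A).subset sdiff_subset).image _, ?_, fun x hx => ?_⟩
      · intro A' hA'
        obtain ⟨A, hA, b, hb, rfl⟩ := mem_iUnion₂.1 hA'
        refine ⟨by rw [Finset.card_insert_of_notMem hb.2, (s2 A hA).1], ?_⟩
        rw [Finset.coe_insert]
        exact insert_subset (hN2 A hb.1) (s2 A hA).2
      · obtain ⟨A, hA, hAx⟩ := s3 x hx
        obtain ⟨b, b1, b2, b3⟩ := hN3 A (by rw [(s2 A hA).1]; omega) x hx
        refine ⟨insert b A, mem_biUnion hA ⟨b, ⟨b1, b2⟩, rfl⟩, ?_⟩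
        rw [Finset.coe_insert]
        exact insert_subset b3 hAx
  obtain ⟨𝒮, s1, s2, s3⟩ := key n le_rfl
  obtain ⟨P, -, p1, p2⟩ := (exists_subset_image_finite_and (f := stoneCechUnit (α := S))
    (s := univ) (p := fun t => t = ⋃ A ∈ 𝒮, (A : Set (StoneCech S)))).1
    ⟨_, by rw [image_univ]; exact iUnion₂_subset fun A hA => (s2 A hA).2,
      s1.biUnion fun A _ => A.finite_toSet, rfl⟩
  refine ⟨P, p1, fun x hx i => ?_⟩
  obtain ⟨A, hA, hAx⟩ := s3 x hx
  have : A = Finset.univ.image x := Finset.eq_of_subset_of_card_le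
    (fun a ha => by simpa using hAx ha) (by rw [(s2 A hA).1]; exact Finset.card_image_le.trans (by simp))
  rw [p2]
  exact mem_biUnion hA (by rw [this]; simp)

theorem bump [T35Space T] {A F : Set T} (hA : A.Finite) (hF : IsClosed F) (hd : Disjoint A F) :
    ∃ h : Cp T, (∀ a ∈ A, h.1 a = 0) ∧ ∀ t ∈ F, h.1 t = 2 := by
  induction A, hA using Set.Finite.induction_on with
  | empty => exact ⟨⟨fun _ => 2, continuous_const⟩, by simp, by simp⟩
  | @insert a s _ _ ih =>
    obtain ⟨h, h1, h2⟩ := ih (hd.mono_left (subset_insert _ _))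
    obtain ⟨f, f1, f2, f3⟩ := CompletelyRegularSpace.completely_regular a F hF
      (disjoint_left.1 hd (mem_insert _ _))
    refine ⟨⟨fun t => f t * h.1 t, (continuous_subtype_val.comp f1).mul h.2⟩, ?_, fun t ht => ?_⟩
    · rintro b (rfl | hb)
      · simp [f2]
      · simp [h1 b hb]
    · simp [f3 ht, h2 t ht]

theorem core [T35Space S] [T35Space T] (φ : Cp S ≃ₜ Cp T) : ∃ L : ℕ → ℕ → Set T,
    (∀ n k, IsClosed (L n k)) ∧ (∀ t, ∃ n k, t ∈ L n k) ∧ ∀ n k, ∀ t0 ∈ L n k \ ⋃ m < n, L m k,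
      ∃ (P : Set S) (z : T → Fin n → S) (σ : S → Set T), P.Finite ∧ (∀ a, (σ a).Finite) ∧
      (∀ W, IsOpen W → P ⊆ W → ∀ᶠ t in 𝓝 t0, t ∈ L n k \ ⋃ m < n, L m k → ∀ i, z t i ∈ W) ∧
      ∀ (𝒰 : Ultrafilter T) (a : Fin n → S), L n k \ (⋃ m < n, L m k) ∈ 𝒰 →
        (∀ i, Tendsto (fun t => z t i) 𝒰 (𝓝 (a i))) → ∃ i, ∃ s ∈ σ (a i), ↑𝒰 ≤ 𝓝 s := by
  classical
  let g := φ.symm ⟨0, continuous_const⟩
  let Φ : Cp S → T → ℝ := fun f t => |(φ f).1 t|
  have h1 : ∀ t, Continuous fun f => Φ f t := fun t => ((ev t).comp φ.continuous).abs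
  have h2 : ∀ f, Continuous (Φ f) := fun f => (φ f).2.abs
  let L : ℕ → ℕ → Set T := fun n k =>
    {t | ∃ x : Fin n → StoneCech S, NC stoneCechUnit Subtype.val g Φ 1 (1 / (k + 1)) t x}
  refine ⟨L, fun n k => ?_, fun t => ?_, fun n k t0 ht0 => ?_⟩
  · convert isClosedMap_fst_of_compactSpace _ (nc_closed (ι := stoneCechUnit (α := S))
      (val := Subtype.val) (g := g) h2 1 (1 / (k + 1)) n)
    ext t; simp [L]
  · obtain ⟨n, k, x, hx⟩ := nbhd (O := {f | Φ f t < 1}) (isOpen_lt (h1 t) continuous_const)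
      (g := g) (by simp [Φ, g])
    exact ⟨n, k, fun i => stoneCechUnit (x i), fun f hf => (hx f fun i => near_self (hf i)).le⟩
  have hε : (0 : ℝ) < 1 / (k + 1) := by positivity
  have hP := fun t (ht : t ∈ L n k \ ⋃ m < n, L m k) => finP (h1 t) (g := g) (r := 1) hε
    (n := n) fun m hm x hx => ht.2 (mem_iUnion₂.2 ⟨m, hm, x, hx⟩)
  have hz : ∀ t ∈ L n k \ ⋃ m < n, L m k, ∃ z : Fin n → S,
      NC stoneCechUnit Subtype.val g Φ 1 (1 / (k + 1)) t fun i => stoneCechUnit (z i) := by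
    intro t ht
    obtain ⟨P, -, hP⟩ := hP t ht
    obtain ⟨x, hx⟩ := ht.1
    choose z _ hz using hP x hx
    exact ⟨z, by simpa only [hz] using hx⟩
  obtain ⟨z0, -⟩ := hz t0 ht0
  have : Nonempty (Fin n → S) := ⟨z0⟩
  choose! z hz using hz
  obtain ⟨P, p1, p2⟩ := hP t0 ht0
  choose m k' y hy using fun a : S => nbhd (O := {h | |(φ.symm h).1 a - g.1 a| < 1 / (k + 1)})
    (isOpen_lt (((ev a).comp φ.symm.continuous).sub continuous_const).abs continuous_const)
    (g := ⟨0, continuous_const⟩) (by simpa [g] using hε)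
  refine ⟨P, z, fun a => range (y a), p1, fun a => finite_range _, fun W hW hPW => ?_,
    fun 𝒰 a hT ha => ?_⟩
  · obtain ⟨W', hW', rfl⟩ := (isInducing_stoneCechUnit (X := S)).isOpen_iff.1 hW
    have := usc (nc_closed (ι := stoneCechUnit (α := S)) (val := Subtype.val) (g := g) h2 1
      (1 / (k + 1)) n) (W := univ.pi fun _ => W') (isOpen_set_pi finite_univ fun _ _ => hW')
    filter_upwards [this.mem_nhds (x := t0) fun x hx i _ => by
      obtain ⟨s, hs, e⟩ := p2 x hx i
      rw [← e]; exact hPW hs] with t ht htT i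
    exact ht _ (hz t htT) i trivial
  · by_contra hn
    push Not at hn
    have hV : ∀ s ∈ ⋃ i, range (y (a i)), ∃ V, IsOpen V ∧ s ∈ V ∧ Vᶜ ∈ 𝒰 := by
      intro s hs
      obtain ⟨i, hi⟩ := mem_iUnion.1 hs
      have := hn i s hi
      rw [le_nhds_iff] at this
      push Not at this
      obtain ⟨V, v1, v2, v3⟩ := this
      exact ⟨V, v2, v1, Ultrafilter.compl_mem_iff_notMem.2 v3⟩
    choose! V v1 v2 v3 using hV
    have hf : (⋃ i, range (y (a i))).Finite := finite_iUnion fun i => finite_range _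
    obtain ⟨h, k1, k2⟩ := bump hf (F := ⋂ s ∈ ⋃ i, range (y (a i)), (V s)ᶜ)
      (isClosed_biInter fun s hs => (v1 s hs).isClosed_compl)
      (disjoint_left.2 fun s hs h => mem_iInter₂.1 h s hs (v2 s hs))
    have e1 : ∀ᶠ t in (𝒰 : Filter T), ∀ i, |(φ.symm h).1 (z t i) - g.1 (z t i)| < 1 / (k + 1) :=
      eventually_all.2 fun i => (ha i).eventually
        ((isOpen_lt ((φ.symm h).2.sub g.2).abs continuous_const).mem_nhds (hy (a i) h fun j => by
          rw [k1 _ (mem_iUnion.2 ⟨i, j, rfl⟩)]; simp; positivity))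
    obtain ⟨t, t1, t2, t3⟩ := (e1.and (Eventually.and (show ∀ᶠ t in (𝒰 : Filter T), _ from hT)
      ((biInter_mem hf).2 v3 : _ ∈ (𝒰 : Filter T)))).exists
    have := hz t t2 (φ.symm h) fun i => by
      obtain ⟨O, hO, hO'⟩ := (isInducing_stoneCechUnit (X := S)).isOpen_iff.1
        (isOpen_lt ((φ.symm h).2.sub g.2).abs (continuous_const (y := 1 / ((k : ℝ) + 1))))
      filter_upwards [hO.mem_nhds (show z t i ∈ stoneCechUnit ⁻¹' O by rw [hO']; exact t1 i)]
        with c hc s hs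
      have : s ∈ stoneCechUnit ⁻¹' O := by show stoneCechUnit s ∈ O; rwa [hs]
      rw [hO'] at this; exact this
    simp only [Φ, Homeomorph.apply_symm_apply, k2 t t3] at this
    norm_num at this

end Pool.Agent.H17.It
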