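import Pool.Agent.H17.It1

set_option autoImplicit false
open Set Topology Filter TopologicalSpace Cardinal
open scoped BoundedContinuousFunction

namespace Pool.Agent.H17.It
open Pool.Agent.H17.TE Pool.Agent.H17.Dm

theorem lc_baire {B T : Type} [TopologicalSpace B] [TopologicalSpace T] [BaireSpace B] [Nonempty B]
    {j : B → T} (hj : Continuous j) {L : ℕ → ℕ → Set T} (h1 : ∀ n k, IsClosed (L n k))
    (h2 : ∀ t, ∃ n k, t ∈ L n k) : ∃ n k, ∃ O : Set B, IsOpen O ∧ O.Nonempty ∧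
      ∀ b ∈ O, j b ∈ L n k \ ⋃ m < n, L m k := by
  classical
  obtain ⟨⟨n0, k⟩, hq⟩ := nonempty_interior_of_iUnion_of_closed
    (f := fun q : ℕ × ℕ => j ⁻¹' L q.1 q.2) (fun q => (h1 _ _).preimage hj)
    (eq_univ_of_forall fun b => by
      obtain ⟨n, k, h⟩ := h2 (j b)
      exact mem_iUnion.2 ⟨(n, k), h⟩)
  have ex : ∃ n, (interior (j ⁻¹' L n k)).Nonempty := ⟨n0, hq⟩
  have hd : Dense (⋂ m ∈ Iio (Nat.find ex), (j ⁻¹' L m k)ᶜ) :=
    dense_biInter_of_isOpen
      (fun m _ => ((h1 _ _).preimage hj).isOpen_compl) (to_countable _) fun m hm =>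
        interior_eq_empty_iff_dense_compl.1 (not_nonempty_iff_eq_empty.1 (Nat.find_min ex hm))
  refine ⟨Nat.find ex, k, interior (j ⁻¹' L (Nat.find ex) k) ∩ ⋂ m ∈ Iio (Nat.find ex),
    (j ⁻¹' L m k)ᶜ, isOpen_interior.inter ((finite_Iio _).isOpen_biInter fun m _ =>
      ((h1 _ _).preimage hj).isOpen_compl),
    hd.inter_open_nonempty _ isOpen_interior (Nat.find_spec ex), fun b hb =>
      ⟨interior_subset (s := j ⁻¹' L _ k) hb.1, fun h => ?_⟩⟩
  obtain ⟨m, hm, h⟩ := mem_iUnion₂.1 h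
  exact mem_iInter₂.1 hb.2 m hm h

variable {X Y : Type} [TopologicalSpace X] [TopologicalSpace Y]

theorem ball {L : ℕ → ℕ → Set (Cp X)} (h1 : ∀ n k, IsClosed (L n k))
    (h2 : ∀ t, ∃ n k, t ∈ L n k) : ∃ n k, ∃ y0 : Cp X, ∃ δ : ℝ, 0 < δ ∧ ∀ f : Cp X,
      (∀ x, |f.1 x - y0.1 x| ≤ δ) → f ∈ L n k \ ⋃ m < n, L m k := by
  obtain ⟨n, k, O, o1, ⟨b, hb⟩, o3⟩ := lc_baire (B := X →ᵇ ℝ)
    (j := fun b => (⟨b, b.continuous⟩ : Cp X))
    (Continuous.subtype_mk (continuous_pi fun x => continuous_eval_const x) _) h1 h2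
  obtain ⟨δ, hδ, h⟩ := Metric.nhds_basis_closedBall.mem_iff.1 (o1.mem_nhds hb)
  refine ⟨n, k, ⟨b, b.continuous⟩, δ, hδ, fun f hf => ?_⟩
  refine o3 (BoundedContinuousFunction.ofNormedAddCommGroup f.1 f.2 (‖b‖ + δ) fun x => ?_) (h ?_)
  · have := b.norm_coe_le_norm x
    have := abs_sub_abs_le_abs_sub (f.1 x) (b x)
    have := hf x
    simp only [Real.norm_eq_abs] at *
    linarith
  · exact (BoundedContinuousFunction.dist_le hδ.le).2 hf

theorem lim_fin {P : Set (Cp Y)} (hP : P.Finite) (𝒱 : Ultrafilter (Cp Y))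
    (h : ∀ (F : Finset Y) (k : ℕ), {z | ∃ a ∈ P, ∀ y ∈ F, |z.1 y - a.1 y| < 1 / (k + 1)} ∈ 𝒱) :
    ∃ a ∈ P, ↑𝒱 ≤ 𝓝 a := by
  classical
  by_contra hn
  push Not at hn
  have : ∀ a ∈ P, ∃ (F : Finset Y) (k : ℕ),
      {z : Cp Y | ∀ y ∈ F, |z.1 y - a.1 y| < 1 / (k + 1)}ᶜ ∈ 𝒱 := by
    intro a ha
    have := hn a ha
    rw [le_nhds_iff] at this
    push Not at this
    obtain ⟨V, v1, v2, v3⟩ := this
    obtain ⟨m, k, y, hy⟩ := nbhd v2 v1
    exact ⟨Finset.univ.image y, k, Ultrafilter.compl_mem_iff_notMem.2 fun h => v3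
      (mem_of_superset h fun z hz => hy z fun i => hz _ (by simp))⟩
  choose! F k hF using this
  obtain ⟨z, ⟨a, ha, hz⟩, hz'⟩ := Ultrafilter.nonempty_of_mem (inter_mem
    (h (hP.toFinset.biUnion F) (hP.toFinset.sup k)) ((biInter_mem hP).2 hF))
  refine mem_iInter₂.1 hz' a ha fun y hy => (hz y (Finset.mem_biUnion.2
    ⟨a, hP.mem_toFinset.2 ha, hy⟩)).trans_le ?_
  gcongr
  exact Finset.le_sup (f := k) (hP.mem_toFinset.2 ha)

theorem bump' [T35Space X] {A B : Set X} (hA : A.Finite) (hB : B.Finite) (hd : Disjoint A B)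
    (y0 : Cp X) {c : ℝ} (hc : 0 ≤ c) : ∃ f : Cp X, (∀ x ∈ A, f.1 x = y0.1 x) ∧
      (∀ x ∈ B, f.1 x = y0.1 x + c) ∧ ∀ x, |f.1 x - y0.1 x| ≤ c := by
  obtain ⟨h, h1, h2⟩ := bump hA hB.isClosed hd
  refine ⟨⟨fun x => y0.1 x + c * min 1 |h.1 x|, y0.2.add (continuous_const.mul
    (continuous_const.min h.2.abs))⟩, fun x hx => by simp [h1 x hx],
    fun x hx => by simp [h2 x hx], fun x => ?_⟩
  simp only [add_sub_cancel_left, abs_mul, abs_of_nonneg hc]
  exact mul_le_of_le_one_right hc (abs_le.2 ⟨le_min (by norm_num)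
    (by linarith [abs_nonneg (h.1 x)]), min_le_left _ _⟩)

variable [T35Space X] [T35Space Y]

omit [T35Space Y] in
theorem card_le (φ : Cp (Cp Y) ≃ₜ Cp (Cp X)) : #X ≤ max #Y ℵ₀ := by
  classical
  obtain ⟨L, l1, l2, l3⟩ := core φ
  obtain ⟨n, k, y0, δ, hδ, hb⟩ := ball l1 l2
  obtain ⟨P, z, σ, p1, p2, p3, p4⟩ := l3 n k y0 (hb y0 fun x => by simpa using hδ.le)
  have : ∀ j : Finset Y × ℕ, ∃ (m k' : ℕ) (x : Fin m → X), ∀ f : Cp X,
      (∀ i, |f.1 (x i) - y0.1 (x i)| < 1 / (k' + 1)) → f ∈ L n k \ ⋃ m < n, L m k →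
      ∀ i, ∃ a ∈ P, ∀ y ∈ j.1, |(z f i).1 y - a.1 y| < 1 / (j.2 + 1) := by
    intro j
    have ho : IsOpen {z : Cp Y | ∃ a ∈ P, ∀ y ∈ j.1, |z.1 y - a.1 y| < 1 / (j.2 + 1)} := by
      simp only [ofPred_exists, ofPred_and, ofPred_forall]
      exact isOpen_iUnion fun a => isOpen_const.inter (isOpen_biInter_finset fun y _ =>
        isOpen_lt ((ev y).sub continuous_const).abs continuous_const)
    obtain ⟨U, u1, u2, u3⟩ := eventually_nhds_iff.1 (p3 _ ho fun a ha =>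
      ⟨a, ha, fun y _ => by simp; positivity⟩)
    obtain ⟨m, k', x, hx⟩ := nbhd u2 u3
    exact ⟨m, k', x, fun f hf => u1 f (hx f hf)⟩
  choose m k' x hx using this
  have hall : ⋃ j, range (x j) = Set.univ := by
    refine eq_univ_of_forall fun x0 => ?_
    by_contra hn
    obtain ⟨c, hc, hcs⟩ := (Ioo_infinite hδ).exists_notMem_finite
      ((p1.biUnion fun a _ => p2 a).image fun s : Cp X => s.1 x0 - y0.1 x0)
    choose g g1 g2 g3 using fun F : Finset X => bump' (A := (F : Set X) \ {x0}) (B := {x0})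
      (F.finite_toSet.subset sdiff_subset) (finite_singleton _) disjoint_sdiff_left y0 hc.1.le
    have hT : ∀ F, g F ∈ L n k \ ⋃ m < n, L m k := fun F => hb _ fun x => (g3 F x).trans hc.2.le
    choose a a1 a2 using fun i => lim_fin p1 ((Ultrafilter.of atTop).map fun F => z (g F) i)
      fun F k => Ultrafilter.of_le atTop (by
        filter_upwards [eventually_ge_atTop (Finset.univ.image (x (F, k)))] with G hG
        refine hx (F, k) _ (fun l => ?_) (hT G) i
        rw [g1 G _ ⟨hG (by simp), fun h => hn (mem_iUnion.2 ⟨_, l, h⟩)⟩]; simp; positivity)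
    obtain ⟨i, s, s1, s2⟩ := p4 ((Ultrafilter.of atTop).map g) a
      (Ultrafilter.mem_map.2 (univ_mem' hT)) a2
    refine hcs ⟨s, mem_biUnion (a1 i) s1, ?_⟩
    have := tendsto_nhds_unique (((ev x0).tendsto s).comp (f := g) s2)
      (tendsto_const_nhds.congr fun F => (g2 F x0 rfl).symm)
    simp [this]
  have hJ : #(Finset Y × ℕ) ≤ max #Y ℵ₀ := by
    cases finite_or_infinite Y
    · have := Fintype.ofFinite Y
      exact le_max_of_le_right mk_le_aleph0
    · simp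
  calc #X = #(⋃ j, range (x j)) := by rw [hall, mk_univ]
    _ ≤ _ := mk_iUnion_le _
    _ ≤ max #Y ℵ₀ * max #Y ℵ₀ := mul_le_mul' hJ (ciSup_le' fun j =>
        le_max_of_le_right (finite_range _).lt_aleph0.le)
    _ = _ := mul_eq_self (le_max_right _ _)

theorem fin_fin [Finite Y] (φ : Cp (Cp Y) ≃ₜ Cp (Cp X)) : Finite X := by
  classical
  have hX : Countable X := mk_le_aleph0_iff.1 ((card_le φ).trans (max_le mk_le_aleph0 le_rfl))
  have : LocallyCompactSpace (Cp Y) := IsClosed.locallyCompactSpace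
    (s := {f : Y → ℝ | Continuous f}) (by simp [continuous_of_discreteTopology])
  obtain ⟨L, l1, l2, l3⟩ := core φ
  have key : ∀ n k, ∀ y0 ∈ L n k \ ⋃ m < n, L m k, ∃ F : Set X, F.Finite ∧
      ∀ {ι : Type} (𝒰 : Ultrafilter ι) (g : ι → Cp X), (∀ i, g i ∈ L n k \ ⋃ m < n, L m k) →
      (∀ i, ∀ x ∈ F, (g i).1 x = y0.1 x) → ∃ s, Tendsto g 𝒰 (𝓝 s) := by
    intro n k y0 h0
    obtain ⟨P, z, σ, p1, -, p3, p4⟩ := l3 n k y0 h0
    obtain ⟨C, c1, c2⟩ := exists_compact_superset p1.isCompact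
    obtain ⟨U, u1, u2, u3⟩ := eventually_nhds_iff.1 (p3 _ isOpen_interior c2)
    obtain ⟨m, k', x, hx⟩ := nbhd u2 u3
    refine ⟨range x, finite_range _, fun 𝒰 g g1 g2 => ?_⟩
    choose a _ a2 using fun i => c1.ultrafilter_le_nhds' (𝒰.map fun j => z (g j) i)
      (Ultrafilter.mem_map.2 (univ_mem' fun j => interior_subset (s := C) (u1 _ (hx _ fun l => by
        rw [g2 j _ (mem_range_self l)]; simp; positivity) (g1 j) i)))
    obtain ⟨i, s, -, s2⟩ := p4 (𝒰.map g) a (Ultrafilter.mem_map.2 (univ_mem' g1)) a2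
    exact ⟨s, s2⟩
  by_cases hd : DiscreteTopology X
  · obtain ⟨n, k, O, o1, ⟨b, hb⟩, o3⟩ := lc_baire (B := X → ℝ)
      (j := fun b => (⟨b, continuous_of_discreteTopology⟩ : Cp X))
      (continuous_id.subtype_mk _) l1 l2
    obtain ⟨F, f1, f2⟩ := key n k _ (o3 b hb)
    obtain ⟨I, u, hu, hI⟩ := isOpen_pi_iff.1 o1 b hb
    by_contra hn
    have : Infinite X := not_finite_iff_infinite.1 hn
    obtain ⟨x, hx⟩ := (f1.union I.finite_toSet).infinite_compl.nonempty
    obtain ⟨s, hs⟩ := f2 (Ultrafilter.of (atTop : Filter ℕ))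
      (fun m => ⟨Function.update b x m, continuous_of_discreteTopology⟩)
      (fun m => o3 _ (hI fun a ha => by
        rw [Function.update_of_ne (fun e : a = x => hx (Or.inr (e ▸ ha)))]; exact (hu a ha).2))
      fun m a ha => Function.update_of_ne (fun e : a = x => hx (Or.inl (e ▸ ha))) _ _
    refine not_tendsto_nhds_of_tendsto_atTop
      (tendsto_natCast_atTop_atTop.mono_left (Ultrafilter.of_le atTop)) (s.1 x) ?_
    simpa [Function.comp_def] using ((ev x).tendsto s).comp hs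
  · obtain ⟨x0, hx0⟩ := not_forall.1 (mt discreteTopology_iff_isOpen_singleton.2 hd)
    obtain ⟨n, k, y0, δ, hδ, hb⟩ := ball l1 l2
    obtain ⟨F, f1, f2⟩ := key n k y0 (hb y0 fun x => by simpa using hδ.le)
    choose g g1 g2 g3 using fun G : Finset X => bump' (A := insert x0 F)
      (B := (G : Set X) \ insert x0 F) (f1.insert _) (G.finite_toSet.subset sdiff_subset)
      disjoint_sdiff_right y0 hδ.le
    obtain ⟨s, hs⟩ := f2 (Ultrafilter.of atTop) g (fun G => hb _ (g3 G))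
      fun G x hx => g1 G x (Or.inr hx)
    have e : ∀ x c, (∀ᶠ G in atTop, (g G).1 x = c) → s.1 x = c := fun x c h =>
      tendsto_nhds_unique (((ev x).tendsto s).comp hs)
        (tendsto_const_nhds.congr' ((h.filter_mono (Ultrafilter.of_le atTop)).mono fun G hG => hG.symm))
    refine absurd ?_ hx0
    convert (isOpen_lt (s.2.sub y0.2) (continuous_const (y := δ))).inter
      (f1.subset (sdiff_subset (t := {x0}))).isClosed.isOpen_compl
    ext x
    constructor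
    · rintro rfl
      exact ⟨by simp [e x _ (Eventually.of_forall fun G => g1 G x (Or.inl rfl)), hδ], by simp⟩
    · rintro ⟨h1, h2⟩
      by_contra hne
      have := e x (y0.1 x + δ) ((eventually_ge_atTop {x}).mono fun G hG => g2 G x
        ⟨hG (by simp), fun h => h.elim hne fun h => h2 ⟨h, hne⟩⟩)
      simp [this] at h1

end Pool.Agent.H17.It
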