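import Pool.Agent.H17.It2
import Pool.Agent.H17.TE3

set_option autoImplicit false
open Set Topology Filter TopologicalSpace Cardinal

namespace Pool.Agent.H17.It
open Pool.Agent.H17.TE Pool.Agent.H17.Dm

variable {X Y Z : Type} [TopologicalSpace X] [TopologicalSpace Y] [TopologicalSpace Z]

theorem interp [T35Space Z] {A : Set Z} (hA : A.Finite) (w : Z → ℝ) :
    ∃ f : Cp Z, ∀ a ∈ A, f.1 a = w a := by
  induction A, hA using Set.Finite.induction_on with
  | empty => exact ⟨⟨0, continuous_const⟩, by simp⟩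
  | @insert a s ha hs ih =>
    obtain ⟨f, hf⟩ := ih
    obtain ⟨h, h1, h2⟩ := bump hs (isClosed_singleton (x := a)) (disjoint_singleton_right.2 ha)
    refine ⟨⟨fun z => f.1 z + h.1 z / 2 * (w a - f.1 a), f.2.add ((h.2.div_const _).mul
      continuous_const)⟩, ?_⟩
    rintro b (rfl | hb)
    · simp [h2 b rfl]
    · simp [h1 b hb, hf b hb]

def EE (A : Set X) : Set (Cp (Cp X)) :=
  {Φ | ∀ f f' : Cp X, (∀ x ∈ A, f.1 x = f'.1 x) → Φ.1 f = Φ.1 f'}

theorem EE.closed (A : Set X) : IsClosed (EE A) := by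
  simp only [EE, ofPred_forall]
  exact isClosed_iInter fun f => isClosed_iInter fun f' => isClosed_iInter fun _ =>
    isClosed_eq (ev f) (ev f')

theorem EE.mono {A B : Set X} (h : A ⊆ B) : EE A ⊆ EE B :=
  fun _ hΦ f f' e => hΦ f f' fun x hx => e x (h hx)

theorem EE.cl (A : Set X) : EE (closure A) = EE A :=
  Subset.antisymm (fun _ hΦ f f' e => hΦ f f' fun _ hx =>
    closure_minimal (t := {x | f.1 x = f'.1 x}) e (isClosed_eq f.2 f'.2) hx)
    (EE.mono subset_closure)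

theorem fact [T35Space X] (Φ : Cp (Cp X)) : ∃ S : Set X, S.Countable ∧ Φ ∈ EE S := by
  classical
  by_contra hn
  obtain ⟨q, R, ρ, h⟩ := big (Γ := X) (Y := ℝ) (D := ℚ) (fun q O0 O1 => IsOpen O0 ∧ IsOpen O1 ∧
    (∀ f : Cp X, f.1 ∈ O0 → Φ.1 f < q) ∧ ∀ f : Cp X, f.1 ∈ O1 → q < Φ.1 f) fun S hS => by
      obtain ⟨f, f', e, hl⟩ : ∃ f f' : Cp X, (∀ x ∈ S, f.1 x = f'.1 x) ∧ Φ.1 f < Φ.1 f' := by
        by_contra hc
        push Not at hc
        exact hn ⟨S, hS, fun f f' e => le_antisymm (hc f' f fun x hx => (e x hx).symm) (hc f f' e)⟩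
      obtain ⟨q, q1, q2⟩ := exists_rat_btwn hl
      obtain ⟨O0, a1, a2⟩ := isOpen_induced_iff.1 (isOpen_lt Φ.2 (continuous_const (y := (q : ℝ))))
      obtain ⟨O1, b1, b2⟩ := isOpen_induced_iff.1 (isOpen_lt (continuous_const (y := (q : ℝ))) Φ.2)
      exact ⟨q, O0, O1, ⟨a1, b1, fun g hg => a2.subset hg, fun g hg => b2.subset hg⟩, a1, b1,
        f.1, a2.symm.subset q1, f'.1, b2.symm.subset q2, e⟩
  obtain ⟨O0, -, M, u, -, ⟨a1, -, a2, -⟩, ⟨a3, a4, -⟩, -⟩ := h ∅ countable_empty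
  obtain ⟨-, O1, M', -, v, ⟨-, b1, -, b2⟩, ⟨b3, -, b4⟩, b5⟩ := h M M.countable_toSet
  let t : X → ℝ := fun x => if x ∈ R then ρ x else if x ∈ M then u x else v x
  obtain ⟨f, hf⟩ := interp (R ∪ M ∪ M').finite_toSet t
  have e1 : ∀ x ∈ R, f.1 x = ρ x := fun x hx => by rw [hf x (by simp [hx])]; simp [t, hx]
  have := a2 f (a4 _ e1 fun x hx => by rw [hf x (by simp [hx])]; simp [t, hx, a3 x hx])
  have := b2 f (b4 _ e1 fun x hx => by
    have := b5 x hx
    rw [hf x (by simp [hx])]; simp only [t, if_neg (b3 x hx)]; exact if_neg this)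
  linarith

theorem fin_card {Γ : Type} {κ : Cardinal} (hκ : ℵ₀ ≤ κ) (h : #Γ ≤ κ) : #(Finset Γ) ≤ κ := by
  cases finite_or_infinite Γ
  · have := Fintype.ofFinite Γ
    exact mk_le_aleph0.trans hκ
  · simpa using h

theorem closeK {Γ : Type} {κ : Cardinal} (hκ : ℵ₀ ≤ κ) (F : Finset Γ → Set Γ)
    (hF : ∀ R, (F R).Countable) {A : Set Γ} (hA : #A ≤ κ) :
    ∃ S : Set Γ, A ⊆ S ∧ #S ≤ κ ∧ ∀ R : Finset Γ, (R : Set Γ) ⊆ S → F R ⊆ S := by
  classical
  let nx : Set Γ → Set Γ := fun S => S ∪ ⋃ R : Finset S, F (R.image Subtype.val)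
  let s : ℕ → Set Γ := fun n => nx^[n] A
  have hs : ∀ n, s (n + 1) = nx (s n) := fun n => Function.iterate_succ_apply' _ _ _
  have hc : ∀ n, #(s n) ≤ κ := by
    intro n
    induction n with
    | zero => exact hA
    | succ n ih =>
      rw [hs]
      refine (mk_union_le _ _).trans ((add_le_add ih ((mk_iUnion_le _).trans ((mul_le_mul'
        (fin_card hκ ih) (ciSup_le' fun R => (hF _).le_aleph0.trans hκ)).trans_eq
        (mul_eq_self hκ)))).trans_eq (add_eq_self hκ))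
  have hm : Monotone s := monotone_nat_of_le_succ fun n => by rw [hs]; exact subset_union_left
  refine ⟨⋃ n, s n, subset_iUnion s 0, (mk_iUnion_le _).trans ((mul_le_mul'
    (mk_le_aleph0.trans hκ) (ciSup_le' hc)).trans_eq (mul_eq_self hκ)), fun R hR => ?_⟩
  obtain ⟨n, hn⟩ : ∃ n, (R : Set Γ) ⊆ s n := by
    have : ∀ᶠ n in atTop, ∀ a ∈ R, a ∈ s n := by
      refine (Filter.eventually_all_finset R).2 fun a ha => ?_
      obtain ⟨n, hn⟩ := mem_iUnion.1 (hR ha)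
      filter_upwards [eventually_ge_atTop n] with k hk using hm hk hn
    exact this.exists
  refine Subset.trans ?_ (subset_iUnion s (n + 1))
  rw [hs]
  refine fun a ha => Or.inr (mem_iUnion.2 ⟨R.subtype (· ∈ s n), ?_⟩)
  convert ha
  ext b
  simpa using fun h : b ∈ R => hn h

noncomputable def pol (R : Finset X) (j : ℕ) : Cp (Cp X) :=
  ⟨fun f => denseSeq C(R → ℝ, ℝ) j fun x => f.1 x,
    (denseSeq C(R → ℝ, ℝ) j).continuous.comp (continuous_pi fun x => ev x.1)⟩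

theorem approx (A : Set X) :
    EE A ⊆ closure {Φ | ∃ (R : Finset X) (j : ℕ), (R : Set X) ⊆ A ∧ pol R j = Φ} := by
  classical
  intro Φ hΦ
  refine mem_closure_iff.2 fun O hO hm => ?_
  obtain ⟨m, k, t, ht⟩ := nbhd hO hm
  have : ∀ p : Fin m × Fin m, ∃ R : Finset X, (R : Set X) ⊆ A ∧
      ((∀ x ∈ R, (t p.1).1 x = (t p.2).1 x) → Φ.1 (t p.1) = Φ.1 (t p.2)) := by
    intro p
    by_cases h : ∀ x ∈ A, (t p.1).1 x = (t p.2).1 x
    · exact ⟨∅, by simp, fun _ => hΦ _ _ h⟩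
    · push Not at h
      obtain ⟨x, hx, h⟩ := h
      exact ⟨{x}, by simpa, fun e => absurd (e x (by simp)) h⟩
  choose R0 r1 r2 using this
  let R := Finset.univ.biUnion R0
  let c : Fin m → R → ℝ := fun i x => (t i).1 x
  obtain ⟨h, hh⟩ := interp (finite_range c) fun u => if h : ∃ i, c i = u then Φ.1 (t h.choose) else 0
  have e : ∀ i, h.1 (c i) = Φ.1 (t i) := fun i => by
    have hi : ∃ j, c j = c i := ⟨i, rfl⟩
    rw [hh _ (mem_range_self i), dif_pos hi]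
    exact r2 (_, i) fun x hx => congrFun hi.choose_spec
      ⟨x, Finset.mem_biUnion.2 ⟨_, Finset.mem_univ _, hx⟩⟩
  obtain ⟨j, hj⟩ := (denseRange_denseSeq C(R → ℝ, ℝ)).exists_mem_open
    (s := ⋂ i, {g | |g (c i) - Φ.1 (t i)| < 1 / (k + 1)})
    (isOpen_iInter_of_finite fun i => isOpen_lt ((continuous_eval_const _).sub
      continuous_const).abs continuous_const)
    ⟨⟨h.1, h.2⟩, mem_iInter.2 fun i => by simp [e i]; positivity⟩
  refine ⟨pol R j, ht _ fun i => mem_iInter.1 hj i, R, j, fun x hx => ?_, rfl⟩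
  obtain ⟨p, -, hp⟩ := Finset.mem_biUnion.1 hx
  exact r1 p hp

theorem pair [T35Space X] [T35Space Y] (φ : Cp (Cp X) ≃ₜ Cp (Cp Y)) {κ : Cardinal} (hκ : ℵ₀ ≤ κ)
    {B : Set Y} (hB : #B ≤ κ) : ∃ (A : Set X) (A' : Set Y), #A ≤ κ ∧ B ⊆ A' ∧
      MapsTo φ (EE A) (EE A') ∧ MapsTo φ.symm (EE A') (EE A) := by
  classical
  choose S s1 s2 using fun Φ : Cp (Cp X) => fact Φ
  choose S' s1' s2' using fun Φ : Cp (Cp Y) => fact Φ
  obtain ⟨W, w1, w2, w3⟩ := closeK hκ (Γ := X ⊕ Y) (fun R =>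
    (⋃ j, Sum.inr '' S' (φ (pol R.toLeft j))) ∪ ⋃ j, Sum.inl '' S (φ.symm (pol R.toRight j)))
    (fun R => (countable_iUnion fun j => (s1' _).image _).union
      (countable_iUnion fun j => (s1 _).image _)) (A := Sum.inr '' B) (mk_image_le.trans hB)
  refine ⟨Sum.inl ⁻¹' W, Sum.inr ⁻¹' W, (mk_preimage_of_injective _ _ Sum.inl_injective).trans w2,
    fun y hy => w1 (mem_image_of_mem _ hy), fun Φ hΦ => ?_, fun Φ hΦ => ?_⟩
  · refine closure_minimal (t := φ ⁻¹' EE _) ?_ ((EE.closed _).preimage φ.continuous) (approx _ hΦ)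
    rintro _ ⟨R, j, hR, rfl⟩
    refine EE.mono (fun y hy => mem_preimage.2 (w3 (R.disjSum ∅) ?_
      (Or.inl (mem_iUnion.2 ⟨j, y, ?_, rfl⟩)))) (s2' _)
    · rintro (x | y) h
      · exact hR (by simpa using h)
      · simp at h
    · rwa [Finset.toLeft_disjSum]
  · refine closure_minimal (t := φ.symm ⁻¹' EE _) ?_ ((EE.closed _).preimage φ.symm.continuous)
      (approx _ hΦ)
    rintro _ ⟨R, j, hR, rfl⟩
    refine EE.mono (fun y hy => mem_preimage.2 (w3 (Finset.disjSum ∅ R) ?_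
      (Or.inr (mem_iUnion.2 ⟨j, y, ?_, rfl⟩)))) (s2 _)
    · rintro (x | y) h
      · simp at h
      · exact hR (by simpa using h)
    · rwa [Finset.toRight_disjSum]

def rs (F : Set X) (f : Cp X) : F → ℝ := fun x => f.1 x

theorem rs_cont (F : Set X) : Continuous (rangeFactorization (rs F)) :=
  (continuous_pi fun x : F => ev x.1).subtype_mk _

theorem rs_quot [T35Space X] {F : Set X} (hF : IsClosed F) :
    IsQuotientMap (rangeFactorization (rs F)) := by
  refine IsOpenMap.isQuotientMap (isOpenMap_iff_nhds_le.2 fun f U hU => ?_) (rs_cont F)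
    rangeFactorization_surjective
  obtain ⟨O, o1, o2, o3⟩ := mem_nhds_iff.1 (mem_map.1 hU)
  obtain ⟨m, k, x, hx⟩ := nbhd o2 o3
  obtain ⟨h, h1, h2⟩ := bump ((finite_range x).subset (sdiff_subset (t := F))) hF disjoint_sdiff_left
  have : ∀ᶠ t : range (rs F) in 𝓝 (rangeFactorization (rs F) f), ∀ i, ∀ hi : x i ∈ F,
      |t.1 ⟨x i, hi⟩ - f.1 (x i)| < 1 / (k + 1) :=
    eventually_all.2 fun i => eventually_all.2 fun hi => (isOpen_lt (((continuous_apply _).comp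
      continuous_subtype_val).sub continuous_const).abs continuous_const).mem_nhds
      (by simp [rs]; positivity)
  filter_upwards [this]
  rintro ⟨_, g, rfl⟩ hg
  have := o1 (hx ⟨fun z => f.1 z + h.1 z / 2 * (g.1 z - f.1 z), f.2.add ((h.2.div_const _).mul
    (g.2.sub f.2))⟩ fun i => by
      by_cases hi : x i ∈ F
      · simpa [h2 _ hi, rs] using hg i hi
      · simp [h1 _ ⟨mem_range_self i, hi⟩]; positivity)
  rw [mem_preimage] at this
  convert this
  ext z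
  simp [rs, h2 _ z.2]

theorem desc [T35Space Y] {F : Set X} {G : Set Y} (hG : IsClosed G) {φ : Cp (Cp X) → Cp (Cp Y)}
    (hφ : Continuous φ) (hm : MapsTo φ (EE F) (EE G)) :
    ∃ Ψ : Cp (range (rs F)) → Cp (range (rs G)), Continuous Ψ ∧ ∀ h,
      (⟨(Ψ h).1 ∘ rangeFactorization (rs G), (Ψ h).2.comp (rs_cont G)⟩ : Cp (Cp Y)) =
        φ ⟨h.1 ∘ rangeFactorization (rs F), h.2.comp (rs_cont F)⟩ := by
  have e : ∀ h : Cp (range (rs F)), (fun t : range (rs G) => (φ ⟨h.1 ∘ rangeFactorization (rs F),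
      h.2.comp (rs_cont F)⟩).1 t.2.choose) ∘ rangeFactorization (rs G) =
      (φ ⟨h.1 ∘ rangeFactorization (rs F), h.2.comp (rs_cont F)⟩).1 := fun h => funext fun g =>
    hm (fun f f' e => congrArg h.1 (Subtype.ext (funext fun x => e x x.2))) _ _ fun y hy =>
      congrFun (rangeFactorization (rs G) g).2.choose_spec ⟨y, hy⟩
  refine ⟨fun h => ⟨fun t : range (rs G) => (φ ⟨h.1 ∘ rangeFactorization (rs F),
      h.2.comp (rs_cont F)⟩).1 t.2.choose, (rs_quot hG).continuous_iff.2 ?_⟩, ?_,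
      fun h => Subtype.ext (e h)⟩
  · rw [e h]; exact (φ _).2
  · exact (continuous_pi fun t => (ev _).comp (hφ.comp
      ((continuous_pi fun f => ev (rangeFactorization (rs F) f)).subtype_mk _))).subtype_mk _

theorem homeo [T35Space X] [T35Space Y] {F : Set X} {G : Set Y} (hF : IsClosed F) (hG : IsClosed G)
    (φ : Cp (Cp X) ≃ₜ Cp (Cp Y)) (h1 : MapsTo φ (EE F) (EE G)) (h2 : MapsTo φ.symm (EE G) (EE F)) :
    Nonempty (Cp (range (rs F)) ≃ₜ Cp (range (rs G))) := by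
  obtain ⟨Ψ, a1, a2⟩ := desc hG φ.continuous h1
  obtain ⟨Θ, b1, b2⟩ := desc hF φ.symm.continuous h2
  refine ⟨⟨⟨Ψ, Θ, fun h => ?_, fun h => ?_⟩, a1, b1⟩⟩
  · have := b2 (Ψ h)
    rw [a2, φ.symm_apply_apply] at this
    exact Subtype.ext (rangeFactorization_surjective.injective_comp_right (congrArg Subtype.val this))
  · have := a2 (Θ h)
    rw [b2, φ.apply_symm_apply] at this
    exact Subtype.ext (rangeFactorization_surjective.injective_comp_right (congrArg Subtype.val this))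

theorem nb2 {S I : Type} [TopologicalSpace S] {e : S → I → ℝ} (he : IsInducing e) {O : Set S}
    (hO : IsOpen O) {a : S} (ha : a ∈ O) : ∃ (F : Finset I) (k : ℕ), ∀ z,
      (∀ y ∈ F, |e z y - e a y| < 1 / (k + 1)) → z ∈ O := by
  obtain ⟨V, hV, rfl⟩ := he.isOpen_iff.1 hO
  obtain ⟨J, u, hu, hI⟩ := isOpen_pi_iff.1 hV _ ha
  have : ∀ᶠ k : ℕ in atTop, ∀ y ∈ J, Metric.ball (e a y) (1 / (k + 1)) ⊆ u y := by
    refine (Filter.eventually_all_finset J).2 fun y hy => ?_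
    obtain ⟨δ, hδ, hb⟩ := Metric.isOpen_iff.1 (hu y hy).1 _ (hu y hy).2
    filter_upwards [(tendsto_one_div_add_atTop_nhds_zero_nat (𝕜 := ℝ)).eventually
      (gt_mem_nhds hδ)] with k hk
    exact (Metric.ball_subset_ball hk.le).trans hb
  obtain ⟨k, hk⟩ := this.exists
  exact ⟨J, k, fun z hz => hI fun y hy => hk y hy (hz y hy)⟩

theorem lim_fin2 {S I : Type} [TopologicalSpace S] {e : S → I → ℝ} (he : IsInducing e)
    {P : Set S} (hP : P.Finite) (𝒱 : Ultrafilter S)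
    (h : ∀ (F : Finset I) (k : ℕ), {z | ∃ a ∈ P, ∀ y ∈ F, |e z y - e a y| < 1 / (k + 1)} ∈ 𝒱) :
    ∃ a ∈ P, ↑𝒱 ≤ 𝓝 a := by
  classical
  by_contra hn
  push Not at hn
  have : ∀ a ∈ P, ∃ (F : Finset I) (k : ℕ),
      {z : S | ∀ y ∈ F, |e z y - e a y| < 1 / (k + 1)}ᶜ ∈ 𝒱 := by
    intro a ha
    have := hn a ha
    rw [le_nhds_iff] at this
    push Not at this
    obtain ⟨V, v1, v2, v3⟩ := this
    obtain ⟨F, k, hy⟩ := nb2 he v2 v1
    exact ⟨F, k, Ultrafilter.compl_mem_iff_notMem.2 fun h => v3 (mem_of_superset h hy)⟩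
  choose! F k hF using this
  obtain ⟨z, ⟨a, ha, hz⟩, hz'⟩ := Ultrafilter.nonempty_of_mem (inter_mem
    (h (hP.toFinset.biUnion F) (hP.toFinset.sup k)) ((biInter_mem hP).2 hF))
  refine mem_iInter₂.1 hz' a ha fun y hy => (hz y (Finset.mem_biUnion.2
    ⟨a, hP.mem_toFinset.2 ha, hy⟩)).trans_le ?_
  gcongr
  exact Finset.le_sup (f := k) (hP.mem_toFinset.2 ha)

theorem card_gen [T35Space X] {S T I : Type} [TopologicalSpace S] [TopologicalSpace T] [T35Space S]
    [T35Space T] {e : S → I → ℝ} (he : IsInducing e) {r : Cp X → T} (hr : Continuous r)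
    {G : Set X} (hG : ∀ x ∈ G, ∃ w : T → ℝ, Continuous w ∧ ∀ f, w (r f) = f.1 x)
    (φ : Cp S ≃ₜ Cp T) {κ : Cardinal} (hκ : ℵ₀ ≤ κ) (hI : #I ≤ κ) : #G ≤ κ := by
  classical
  obtain ⟨L, l1, l2, l3⟩ := core φ
  obtain ⟨n, k, y0, δ, hδ, hb'⟩ := ball (L := fun n k => r ⁻¹' L n k)
    (fun n k => (l1 n k).preimage hr) fun t => l2 (r t)
  have hb : ∀ f : Cp X, (∀ x, |f.1 x - y0.1 x| ≤ δ) → r f ∈ L n k \ ⋃ m < n, L m k :=
    fun f hf => by simpa using hb' f hf
  obtain ⟨P, z, σ, p1, p2, p3, p4⟩ := l3 n k (r y0) (hb y0 fun x => by simpa using hδ.le)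
  have : ∀ j : Finset I × ℕ, ∃ (m k' : ℕ) (x : Fin m → X), ∀ f : Cp X,
      (∀ i, |f.1 (x i) - y0.1 (x i)| < 1 / (k' + 1)) → r f ∈ L n k \ ⋃ m < n, L m k →
      ∀ i, ∃ a ∈ P, ∀ y ∈ j.1, |e (z (r f) i) y - e a y| < 1 / (j.2 + 1) := by
    intro j
    have ho : IsOpen {z : S | ∃ a ∈ P, ∀ y ∈ j.1, |e z y - e a y| < 1 / (j.2 + 1)} := by
      simp only [ofPred_exists, ofPred_and, ofPred_forall]
      exact isOpen_iUnion fun a => isOpen_const.inter (isOpen_biInter_finset fun y _ =>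
        isOpen_lt (((continuous_apply y).comp he.continuous).sub continuous_const).abs
          continuous_const)
    obtain ⟨U, u1, u2, u3⟩ := eventually_nhds_iff.1 (p3 _ ho fun a ha =>
      ⟨a, ha, fun y _ => by simp; positivity⟩)
    obtain ⟨m, k', x, hx⟩ := nbhd (u2.preimage hr) u3
    exact ⟨m, k', x, fun f hf => u1 _ (hx f hf)⟩
  choose m k' x hx using this
  have hall : G ⊆ ⋃ j, range (x j) := by
    intro x0 hx0
    obtain ⟨w, w1, w2⟩ := hG x0 hx0
    by_contra hn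
    obtain ⟨c, hc, hcs⟩ := (Ioo_infinite hδ).exists_notMem_finite
      ((p1.biUnion fun a _ => p2 a).image fun s : T => w s - y0.1 x0)
    choose g g1 g2 g3 using fun F : Finset X => bump' (A := (F : Set X) \ {x0}) (B := {x0})
      (F.finite_toSet.subset sdiff_subset) (finite_singleton _) disjoint_sdiff_left y0 hc.1.le
    have hT : ∀ F, r (g F) ∈ L n k \ ⋃ m < n, L m k :=
      fun F => hb _ fun x => (g3 F x).trans hc.2.le
    choose a a1 a2 using fun i => lim_fin2 he p1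
      ((Ultrafilter.of atTop).map fun F => z (r (g F)) i)
      fun F k => Ultrafilter.of_le atTop (by
        filter_upwards [eventually_ge_atTop (Finset.univ.image (x (F, k)))] with G hG
        refine hx (F, k) _ (fun l => ?_) (hT G) i
        rw [g1 G _ ⟨hG (by simp), fun h => hn (mem_iUnion.2 ⟨_, l, h⟩)⟩]; simp; positivity)
    obtain ⟨i, s, s1, s2⟩ := p4 ((Ultrafilter.of atTop).map fun F => r (g F)) a
      (Ultrafilter.mem_map.2 (univ_mem' hT)) a2
    refine hcs ⟨s, mem_biUnion (a1 i) s1, ?_⟩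
    have := tendsto_nhds_unique ((w1.tendsto s).comp (f := fun F => r (g F)) s2)
      (tendsto_const_nhds.congr fun F => ((w2 _).trans (g2 F x0 rfl)).symm)
    simp [this]
  have hJ : #(Finset I × ℕ) ≤ κ := by
    simpa using (mul_le_mul' (fin_card hκ hI) hκ).trans_eq (mul_eq_self hκ)
  exact (mk_le_mk_of_subset hall).trans ((mk_iUnion_le _).trans ((mul_le_mul' hJ (ciSup_le' fun j =>
    (finite_range _).lt_aleph0.le.trans hκ)).trans_eq (mul_eq_self hκ)))

theorem scat [T35Space X] [T35Space Y] (φ : Cp (Cp X) ≃ₜ Cp (Cp Y)) {κ : Cardinal} (hκ : ℵ₀ ≤ κ)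
    (h : ∀ A : Set X, #A ≤ κ → #(closure A) ≤ κ) {B : Set Y} (hB : #B ≤ κ) :
    #(closure B) ≤ κ := by
  obtain ⟨A, A', a1, a2, a3, a4⟩ := pair φ hκ hB
  rw [← EE.cl A, ← EE.cl A'] at a3 a4
  obtain ⟨ψ⟩ := homeo isClosed_closure isClosed_closure φ a3 a4
  exact card_gen (IsInducing.subtypeVal) (rs_cont _) (fun y hy => ⟨fun t => t.1 ⟨y, closure_mono a2 hy⟩,
    (continuous_apply _).comp continuous_subtype_val, fun f => rfl⟩) ψ hκ (h A a1)

end Pool.Agent.H17.It
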