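import Pool.Agent.H17.It2

set_option autoImplicit false
open Set Topology Filter TopologicalSpace

namespace Pool.Agent.H17.It
open Pool.Agent.H17.TE Pool.Agent.H17.Dm

variable {X Y : Type} [TopologicalSpace X] [TopologicalSpace Y]

theorem pig {α : Type} (s : Finset α) (c : α → ℝ) {δ : ℝ} (hδ : 0 < δ) :
    ∃ u ∈ Icc 0 δ, ∀ a ∈ s, δ / (s.card + 1) / 3 < |u - c a| := by
  by_contra hn
  push Not at hn
  have hθ : 0 < δ / (s.card + 1) := by positivity
  have : ∀ i ∈ Finset.range (s.card + 1), ∃ a ∈ s,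
      |i * (δ / (s.card + 1)) - c a| ≤ δ / (s.card + 1) / 3 := fun i hi => hn _ ⟨by positivity, by
    have : (i : ℝ) ≤ s.card + 1 := by exact_mod_cast (Finset.mem_range.1 hi).le
    calc _ ≤ (s.card + 1) * (δ / (s.card + 1)) := by gcongr
      _ = δ := by field_simp⟩
  choose a ha ha' using this
  obtain ⟨⟨i, hi⟩, -, ⟨j, hj⟩, -, hij, e⟩ := Finset.exists_ne_map_eq_of_card_lt_of_maps_to
    (s := (Finset.range (s.card + 1)).attach) (t := s) (by simp) (f := fun i => a i.1 i.2)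
    fun i _ => ha _ _
  have h1 := abs_le.1 (ha' i hi)
  have h2 := abs_le.1 (ha' j hj)
  simp only at e
  rw [e] at h1
  rcases lt_or_gt_of_ne (fun h => hij (Subtype.ext h) : i ≠ j) with h | h
  · have : (i : ℝ) + 1 ≤ j := by exact_mod_cast h
    nlinarith
  · have : (j : ℝ) + 1 ≤ i := by exact_mod_cast h
    nlinarith

theorem bump3 [T35Space X] {A B : Set X} (hA : A.Finite) (hB : IsClosed B) (hd : Disjoint A B)
    (y0 : Cp X) {c : ℝ} (hc : 0 ≤ c) : ∃ f : Cp X, (∀ x ∈ A, f.1 x = y0.1 x) ∧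
      (∀ x ∈ B, f.1 x = y0.1 x + c) ∧ ∀ x, |f.1 x - y0.1 x| ≤ c := by
  obtain ⟨h, h1, h2⟩ := bump hA hB hd
  refine ⟨⟨fun x => y0.1 x + c * min 1 |h.1 x|, y0.2.add (continuous_const.mul
    (continuous_const.min h.2.abs))⟩, fun x hx => by simp [h1 x hx],
    fun x hx => by simp [h2 x hx], fun x => ?_⟩
  simp only [add_sub_cancel_left, abs_mul, abs_of_nonneg hc]
  exact mul_le_of_le_one_right hc (abs_le.2 ⟨le_min (by norm_num)
    (by linarith [abs_nonneg (h.1 x)]), min_le_left _ _⟩)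

variable [T35Space X]

theorem okv (φ : Cp (Cp Y) ≃ₜ Cp (Cp X)) : ∃ Z : (m : ℕ) → ℕ → Set (X × (Fin m → Y)),
    (∀ m k, IsClosed (Z m k)) ∧ (∀ x, ∃ m k G, (x, G) ∈ Z m k) ∧
    ∀ m k (𝒰 : Ultrafilter (X × (Fin m → Y))) (G : Fin m → Y), Z m k ∈ 𝒰 →
      Tendsto Prod.snd (𝒰 : Filter (X × (Fin m → Y))) (𝓝 G) →
      ∃ x, Tendsto Prod.fst (𝒰 : Filter (X × (Fin m → Y))) (𝓝 x) := by
  classical
  obtain ⟨L, l1, l2, l3⟩ := core φ
  obtain ⟨n, k0, y0, δ, hδ, hb⟩ := ball l1 l2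
  obtain ⟨P, z, σ, p1, p2, p3, p4⟩ := l3 n k0 y0 (hb y0 fun x => by simpa using hδ.le)
  have hS : ((⋃ a ∈ P, σ a) ∩ {s | ∀ x, |s.1 x - y0.1 x| ≤ δ}).Finite :=
    (p1.biUnion fun a _ => p2 a).subset inter_subset_left
  set η := δ / (hS.toFinset.card + 1) / 3
  have hη : 0 < η := by positivity
  let pr : (m : ℕ) → ℕ → Cp X → Set (Fin m → Y) := fun m k t =>
    {G | ∀ i, ∃ a ∈ P, ∀ j, |(z t i).1 (G j) - a.1 (G j)| < 1 / (k + 1)}
  have pro : ∀ m k t, IsOpen (pr m k t) := fun m k t => by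
    simp only [pr, ofPred_exists, ofPred_and, ofPred_forall]
    exact isOpen_iInter_of_finite fun i => isOpen_iUnion fun a => isOpen_const.inter
      (isOpen_iInter_of_finite fun j => isOpen_lt (((z t i).2.sub a.2).comp
        (continuous_apply j)).abs continuous_const)
  refine ⟨fun m k => {q | ∀ t : Cp X, (∀ x, |t.1 x - y0.1 x| ≤ δ) → q.2 ∈ pr m k t →
    ∃ s ∈ hS.toFinset, |t.1 q.1 - s.1 q.1| ≤ η}, fun m k => ?_, fun x0 => ?_,
    fun m k 𝒰 G hZ hG => ?_⟩
  · simp only [ofPred_forall]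
    refine isClosed_iInter fun t => isClosed_iInter fun _ => ?_
    have := ((pro m k t).preimage (continuous_snd (X := X))).isClosed_compl.union
      (isClosed_biUnion_finset (s := hS.toFinset) fun s _ => isClosed_le
        ((t.2.sub s.2).comp (continuous_fst (Y := Fin m → Y))).abs (continuous_const (y := η)))
    convert this
    ext q
    simp [imp_iff_not_or]
  · by_contra hn
    simp only [not_exists, mem_ofPred_eq, not_forall, not_and, not_le] at hn
    choose t t1 t2 t3 using fun j : Finset Y × ℕ => hn j.1.card j.2 fun i => (j.1.equivFin.symm i).1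
    choose a a1 a2 using fun i => lim_fin p1 ((Ultrafilter.of atTop).map fun j => z (t j) i)
      fun F k => Ultrafilter.of_le atTop (by
        filter_upwards [eventually_ge_atTop (F, k)] with j hj
        obtain ⟨a, ha, h⟩ := t2 j i
        refine ⟨a, ha, fun y hy => ?_⟩
        have := h (j.1.equivFin ⟨y, hj.1 hy⟩)
        simp only [Equiv.symm_apply_apply] at this
        refine this.trans_le ?_
        gcongr
        exact hj.2)
    obtain ⟨i, s, s1, s2⟩ := p4 ((Ultrafilter.of atTop).map t) a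
      (Ultrafilter.mem_map.2 (univ_mem' fun j => hb _ (t1 j))) a2
    have s3 : ∀ x, Tendsto (fun j => (t j).1 x)
        (Ultrafilter.of (atTop : Filter (Finset Y × ℕ)) : Filter (Finset Y × ℕ)) (𝓝 (s.1 x)) :=
      fun x => ((ev x).tendsto s).comp (f := t) s2
    have := ge_of_tendsto' ((s3 x0).sub_const (s.1 x0)).abs fun j => (t3 j s (hS.mem_toFinset.2
      ⟨mem_biUnion (a1 i) s1, fun x => le_of_tendsto' ((s3 x).sub_const _).abs fun j => t1 j x⟩)).le
    simp at this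
    linarith
  · by_contra hn
    have ho : IsOpen {w : Cp Y | ∃ a ∈ P, ∀ j, |w.1 (G j) - a.1 (G j)| < 1 / (k + 1)} := by
      simp only [ofPred_exists, ofPred_and, ofPred_forall]
      exact isOpen_iUnion fun a => isOpen_const.inter (isOpen_iInter_of_finite fun y =>
        isOpen_lt ((ev _).sub continuous_const).abs continuous_const)
    obtain ⟨U, u1, u2, u3⟩ := eventually_nhds_iff.1 (p3 _ ho fun a ha =>
      ⟨a, ha, fun y => by simp; positivity⟩)
    obtain ⟨l, k', x, hx⟩ := nbhd u2 u3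
    have hV : ∀ x : X, ∃ V, IsOpen V ∧ x ∈ V ∧ Prod.fst ⁻¹' Vᶜ ∈ 𝒰 := by
      intro x
      have := not_exists.1 hn x
      rw [tendsto_nhds] at this
      push Not at this
      obtain ⟨V, v1, v2, v3⟩ := this
      exact ⟨V, v1, v2, Ultrafilter.compl_mem_iff_notMem.2 v3⟩
    choose V v1 v2 v3 using hV
    have hc : ∀ s ∈ hS.toFinset, ∃ c,
        Tendsto (fun q : X × (Fin m → Y) => s.1 q.1 - y0.1 q.1) 𝒰 (𝓝 c) := by
      intro s hs
      obtain ⟨c, -, h⟩ := (isCompact_Icc (a := -δ) (b := δ)).ultrafilter_le_nhds'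
        (𝒰.map fun q => s.1 q.1 - y0.1 q.1)
        (Ultrafilter.mem_map.2 (univ_mem' fun q => abs_le.1 ((hS.mem_toFinset.1 hs).2 q.1)))
      exact ⟨c, h⟩
    choose! c hc using hc
    obtain ⟨u, hu, hu'⟩ := pig hS.toFinset c hδ
    obtain ⟨t, t1, t2, t3⟩ := bump3 (finite_range x) (B := ⋂ i, (V (x i))ᶜ)
      (isClosed_iInter fun i => (v1 _).isClosed_compl)
      (disjoint_left.2 (by rintro _ ⟨i, rfl⟩ h; exact mem_iInter.1 h i (v2 _))) y0 hu.1
    have t4 : ∀ x, |t.1 x - y0.1 x| ≤ δ := fun x => (t3 x).trans hu.2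
    have e1 : ∀ᶠ q in (𝒰 : Filter (X × (Fin m → Y))), q.2 ∈ pr m k t :=
      hG.eventually ((pro m k t).mem_nhds (u1 t (hx t fun i => by
        rw [t1 _ (mem_range_self i)]; simp; positivity) (hb t t4)))
    have e2 : ∀ᶠ q in (𝒰 : Filter (X × (Fin m → Y))), ∀ s ∈ hS.toFinset,
        η < |u - (s.1 q.1 - y0.1 q.1)| := (eventually_all_finset _).2 fun s hs =>
      ((hc s hs).const_sub u).abs.eventually (lt_mem_nhds (hu' s hs))
    have e3 : ∀ᶠ q in (𝒰 : Filter (X × (Fin m → Y))), ∀ i, q.1 ∉ V (x i) :=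
      eventually_all.2 fun i => v3 _
    obtain ⟨q, ⟨q1, q2, q3⟩, q4⟩ := Ultrafilter.nonempty_of_mem
      (inter_mem (e1.and (e2.and e3)) hZ)
    obtain ⟨s, hs, h⟩ := q4 t t4 q1
    rw [t2 _ (mem_iInter.2 q3)] at h
    rw [show y0.1 q.1 + u - s.1 q.1 = u - (s.1 q.1 - y0.1 q.1) by ring] at h
    exact absurd (q2 s hs) (not_lt.2 h)

theorem sigc [SigmaCompactSpace Y] (φ : Cp (Cp Y) ≃ₜ Cp (Cp X)) : SigmaCompactSpace X := by
  obtain ⟨Z, z1, z2, z3⟩ := okv φ
  refine ⟨?_⟩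
  have : (univ : Set X) = ⋃ j : ℕ × ℕ × ℕ,
      Prod.fst '' (Z j.1 j.2.1 ∩ Prod.snd ⁻¹' compactCovering _ j.2.2) := by
    refine (eq_univ_of_forall fun x => ?_).symm
    obtain ⟨m, k, G, h⟩ := z2 x
    obtain ⟨i, hi⟩ := exists_mem_compactCovering G
    exact mem_iUnion.2 ⟨(m, k, i), (x, G), ⟨h, hi⟩, rfl⟩
  rw [this]
  refine isSigmaCompact_iUnion_of_isCompact _ fun ⟨m, k, i⟩ => IsCompact.image
    (isCompact_iff_ultrafilter_le_nhds'.2 fun 𝒰 h => ?_) continuous_fst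
  obtain ⟨G, g1, g2⟩ := (isCompact_compactCovering (Fin m → Y) i).ultrafilter_le_nhds'
    (𝒰.map Prod.snd) (Ultrafilter.mem_map.2 (mem_of_superset h inter_subset_right))
  obtain ⟨x, hx⟩ := z3 m k 𝒰 G (mem_of_superset h inter_subset_left) g2
  have : (𝒰 : Filter _) ≤ 𝓝 (x, G) := hx.prodMk_nhds g2
  exact ⟨(x, G), ⟨(z1 m k).mem_of_tendsto this (mem_of_superset h inter_subset_left), g1⟩, this⟩

end Pool.Agent.H17.It
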