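import Mathlib

namespace Pool.Agent.H17.Jones

open Set Filter Topology

lemma exists_type : ∃ ν : (ℕ → ℤ) → ℕ, ∀ (O : ℕ → Set (ℕ → ℤ)), (∀ j, IsOpen (O j)) →
    (∀ j, Dense (O j)) → ∀ (x : ℕ → ℤ) (m n : ℕ), ∃ y, (∀ i < m, y i = x i) ∧ (∀ j, y ∈ O j) ∧
      ν y = n := by
  let p : Submodule ℚ (ℕ → ℚ) :=
    { carrier := {v | ∀ᶠ i in atTop, v i = 0}
      zero_mem' := Eventually.of_forall fun _ => rfl
      add_mem' := fun ha hb => (ha.and hb).mono fun i h => by simp [h.1, h.2]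
      smul_mem' := fun a v hv => hv.mono fun i h => by simp [h] }
  obtain ⟨L, h1, hL⟩ := p.exists_le_ker_of_notMem (v := fun _ => 1) (fun h => by
    obtain ⟨i, hi⟩ := Eventually.exists h
    exact one_ne_zero hi)
  refine ⟨fun x => ⌊L (fun i => (x i : ℚ)) / L (fun _ => 1)⌋.toNat, fun O ho hd x m n => ?_⟩
  let e : ℕ → ℤ := fun i => if i < m then 0 else 1
  have he : L (fun i => (e i : ℚ)) = L (fun _ => 1) := by
    rw [← sub_eq_zero, ← map_sub]
    exact hL ((eventually_ge_atTop m).mono fun i hi => by simp [e, hi.not_gt])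
  have hD : Dense (⋂ q : ℤ × ℕ, (fun y => y + q.1 • e) ⁻¹' O q.2) :=
    dense_iInter_of_isOpen (fun q => (ho _).preimage (by fun_prop)) fun q =>
      (hd _).preimage (isOpenMap_add_right _)
  obtain ⟨y, hy, hyD⟩ := hD.inter_open_nonempty _ (PiNat.isOpen_cylinder (fun _ => ℤ) x m)
    ⟨x, PiNat.self_mem_cylinder x m⟩
  let r : ℤ := n - ⌊L (fun i => (y i : ℚ)) / L (fun _ => 1)⌋
  refine ⟨y + r • e, fun i hi => by simp [e, hi, hy i hi], fun j => mem_iInter.1 hyD (r, j), ?_⟩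
  have : (fun i => (((y + r • e) i : ℤ) : ℚ)) = (fun i => (y i : ℚ)) + (r : ℚ) • fun i => (e i : ℚ) := by
    ext i; simp
  simp only [this, map_add, map_smul, he, smul_eq_mul, add_div, mul_div_cancel_right₀ _ h1,
    Int.floor_add_intCast]
  simp [r]

/-- Branches and layered nodes. -/
inductive X (_ν : (ℕ → ℤ) → ℕ) : Type
  | inl (x : ℕ → ℤ)
  | inr (a : ℕ × List ℤ)

variable (ν : (ℕ → ℤ) → ℕ)

/-- Initial segments. -/
def tr (x : ℕ → ℤ) (m : ℕ) : List ℤ := (List.range m).map x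

/-- Coordinates. -/
def ev : X ν → ℕ → ℤ
  | .inl x => x
  | .inr a => fun i => a.2.getD i 0

/-- Layers. -/
def lay : X ν → ℕ
  | .inl x => ν x
  | .inr a => a.1

lemma ev_tr (n : ℕ) (x : ℕ → ℤ) {m i : ℕ} (h : i < m) : ev ν (.inr (n, tr x m)) i = x i := by
  simp [ev, tr, h]

/-- Basic neighbourhoods. -/
def N : X ν → ℕ → Set (X ν)
  | .inl x, k => {z | z = .inl x ∨ (x = 0 ∧ k ≤ lay ν z ∧ ∀ i < k, ev ν z i = 0) ∨
      (x ≠ 0 ∧ ∃ n m, k ≤ m ∧ (n = ν x ∨ n = ν x + 1) ∧ z = .inr (n, tr x m))}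
  | .inr a, _ => {.inr a}

variable {ν}

lemma N_anti (z : X ν) {k l : ℕ} (h : k ≤ l) : N ν z l ⊆ N ν z k := by
  rcases z with x | a
  · rintro z (hz | ⟨h0, h1, h2⟩ | ⟨h0, n, m, h1, h2⟩)
    · exact .inl hz
    · exact .inr (.inl ⟨h0, h.trans h1, fun i hi => h2 i (hi.trans_le h)⟩)
    · exact .inr (.inr ⟨h0, n, m, h.trans h1, h2⟩)
  · exact Subset.rfl

lemma self_mem (z : X ν) (k : ℕ) : z ∈ N ν z k := by
  rcases z with x | a
  · exact .inl rfl
  · rfl

instance : TopologicalSpace (X ν) where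
  IsOpen U := ∀ z ∈ U, ∃ k, N ν z k ⊆ U
  isOpen_univ _ _ := ⟨0, subset_univ _⟩
  isOpen_inter U V hU hV z hz := by
    obtain ⟨k, hk⟩ := hU z hz.1
    obtain ⟨l, hl⟩ := hV z hz.2
    exact ⟨max k l, subset_inter ((N_anti z (le_max_left _ _)).trans hk)
      ((N_anti z (le_max_right _ _)).trans hl)⟩
  isOpen_sUnion S hS z := by
    rintro ⟨U, hU, hz⟩
    obtain ⟨k, hk⟩ := hS U hU z hz
    exact ⟨k, hk.trans (subset_sUnion_of_mem hU)⟩

lemma ev_N {z w : X ν} {k : ℕ} (h : w ∈ N ν z k) {i : ℕ} (hi : i < k) : ev ν w i = ev ν z i := by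
  rcases z with x | a
  · rcases h with rfl | ⟨rfl, -, h2⟩ | ⟨-, n, m, h1, -, rfl⟩
    · rfl
    · exact h2 i hi
    · exact ev_tr ν n x (hi.trans_le h1)
  · rw [show w = .inr a from h]

lemma lay_N {x : ℕ → ℤ} (hx : x ≠ 0) {w : X ν} {k : ℕ} (h : w ∈ N ν (.inl x) k) :
    ν x ≤ lay ν w ∧ lay ν w ≤ ν x + 1 := by
  rcases h with rfl | ⟨h, -⟩ | ⟨-, n, m, -, h2, rfl⟩
  · exact ⟨le_rfl, Nat.le_succ _⟩
  · exact absurd h hx
  · simp only [lay]; omega

lemma N_open (z : X ν) (k : ℕ) : IsOpen (N ν z k) := by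
  intro w hw
  rcases w with y | b
  · rcases z with x | a
    · rcases hw with hw | ⟨rfl, h1, h2⟩ | ⟨-, n, m, -, -, h⟩
      · cases hw
        exact ⟨k, Subset.rfl⟩
      · by_cases hy : y = 0
        · subst hy
          exact ⟨k, Subset.rfl⟩
        · exact ⟨k, fun u hu => .inr (.inl ⟨rfl, h1.trans (lay_N hy hu).1,
            fun i hi => (ev_N hu hi).trans (h2 i hi)⟩)⟩
      · cases h
    · cases hw
  · exact ⟨0, fun u hu => (show u = .inr b from hu) ▸ hw⟩

lemma mem_nh {z : X ν} {U : Set (X ν)} : U ∈ 𝓝 z ↔ ∃ k, N ν z k ⊆ U :=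
  ⟨fun h => by
    obtain ⟨V, hV, ho, hz⟩ := mem_nhds_iff.1 h
    obtain ⟨k, hk⟩ := ho z hz
    exact ⟨k, hk.trans hV⟩,
  fun ⟨k, hk⟩ => mem_of_superset ((N_open z k).mem_nhds (self_mem z k)) hk⟩

lemma node_not (x : ℕ → ℤ) (a : ℕ × List ℤ) : ∃ k, X.inr a ∉ N ν (.inl x) k := by
  refine ⟨a.1 + a.2.length + 1, ?_⟩
  rintro (h | ⟨-, h, -⟩ | ⟨-, n, m, h1, -, h⟩)
  · cases h
  · simp only [lay] at h; omega
  · cases h
    simp [tr] at h1

lemma sep (z w : X ν) (k : ℕ) (h : w ∉ N ν z (k : ℕ)) : ∃ l, Disjoint (N ν w l) (N ν z (k + 1)) := by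
  rcases w with y | b
  · rcases z with x | a
    · by_cases hx : x = 0
      · subst hx
        have hy : y ≠ 0 := fun e => h (.inl (by rw [e]))
        refine ⟨k, disjoint_left.2 fun u hu hu' => h (.inr (.inl ⟨rfl, ?_, fun i hi => ?_⟩))⟩
        · rcases hu' with rfl | ⟨-, h1, -⟩ | ⟨h0, -⟩
          · rcases hu with hu | ⟨h0, -⟩ | ⟨-, n, m, -, -, hu⟩
            · cases hu; exact absurd rfl hy
            · exact absurd h0 hy
            · cases hu
          · have := (lay_N hy hu).2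
            show k ≤ ν y
            omega
          · exact absurd rfl h0
        · rw [← ev_N hu hi, ev_N hu' (hi.trans k.lt_succ_self)]
          rfl
      · have hne : y ≠ x := fun e => h (.inl (by rw [e]))
        obtain ⟨i, hi⟩ := Function.ne_iff.1 hne
        by_cases hy : y = 0
        · subst hy
          refine ⟨ν x + 2, disjoint_left.2 fun u hu hu' => ?_⟩
          have := (lay_N hx hu').2
          rcases hu with rfl | ⟨-, h1, -⟩ | ⟨h0, -⟩
          · rcases hu' with hu | ⟨h0, -⟩ | ⟨-, n, m, -, -, hu⟩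
            · cases hu; exact hx rfl
            · exact hx h0
            · cases hu
          · omega
          · exact h0 rfl
        · refine ⟨i + 1, disjoint_left.2 fun u hu hu' => ?_⟩
          rcases hu with rfl | ⟨h0, -⟩ | ⟨-, n, m, h1, -, rfl⟩
          · rcases hu' with hu | ⟨h0, -⟩ | ⟨-, n, m, -, -, hu⟩
            · cases hu; exact hne rfl
            · exact hx h0
            · cases hu
          · exact hy h0
          · rcases hu' with hu | ⟨h0, -⟩ | ⟨-, n', m', -, -, hu⟩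
            · cases hu
            · exact hx h0
            · have e := congrArg (fun u => ev ν u i) hu
              have hl : m = m' := by
                have := congrArg List.length (Prod.ext_iff.1 (X.inr.inj hu)).2
                simpa [tr] using this
              subst hl
              simp only [ev_tr ν _ _ (show i < m from h1)] at e
              exact hi e
    · obtain ⟨l, hl⟩ := node_not (ν := ν) y a
      exact ⟨l, disjoint_singleton_right.2 hl⟩
  · exact ⟨0, disjoint_singleton_left.2 fun h' => h (N_anti z k.le_succ h')⟩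

instance : RegularSpace (X ν) := by
  refine RegularSpace.of_exists_mem_nhds_isClosed_subset fun z U hU => ?_
  obtain ⟨k, hk⟩ := mem_nh.1 hU
  refine ⟨closure (N ν z (k + 1)), mem_nh.2 ⟨k + 1, subset_closure⟩, isClosed_closure,
    fun w hw => hk ?_⟩
  by_contra h
  obtain ⟨l, hl⟩ := sep z w k h
  exact (mem_closure_iff_nhds.1 hw _ (mem_nh.2 ⟨l, Subset.rfl⟩)).not_disjoint hl

instance : Nontrivial (X ν) := ⟨.inl 0, .inr (0, []), fun h => by cases h⟩

instance : TopologicalSpace.SeparableSpace (X ν) := by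
  refine ⟨range X.inr, countable_range _, fun z => mem_closure_iff_nhds.2 fun U hU => ?_⟩
  obtain ⟨k, hk⟩ := mem_nh.1 hU
  rcases z with x | a
  · by_cases hx : x = 0
    · exact ⟨.inr (k, []), hk (.inr (.inl ⟨hx, le_rfl, fun i _ => rfl⟩)), _, rfl⟩
    · exact ⟨.inr (ν x, tr x k), hk (.inr (.inr ⟨hx, _, _, le_rfl, .inl rfl, rfl⟩)), _, rfl⟩
  · exact ⟨.inr a, hk rfl, _, rfl⟩

lemma coords : ∃ c : ℕ → X ν → Prop, (∀ x y, (∀ j, c j x ↔ c j y) → x = y) ∧
    ∀ j x, ∀ᶠ y in 𝓝 x, (c j x ↔ c j y) := by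
  obtain ⟨s, hs⟩ := exists_surjective_nat ((ℕ × ℤ) ⊕ (ℕ × List ℤ))
  let d : (ℕ × ℤ) ⊕ (ℕ × List ℤ) → X ν → Prop := Sum.elim (fun q z => ev ν z q.1 = q.2)
    fun a z => z = .inr a
  refine ⟨fun j => d (s j), fun x y h => ?_, fun j z => ?_⟩
  · have h' : ∀ t, d t x ↔ d t y := hs.forall.2 h
    rcases x with x | a
    · rcases y with y | b
      · exact congrArg X.inl (funext fun i => ((h' (.inl (i, x i))).1 rfl).symm)
      · exact (h' (.inr b)).2 rfl
    · exact ((h' (.inr a)).1 rfl).symm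
  · show ∀ᶠ y in 𝓝 z, (d (s j) z ↔ d (s j) y)
    rcases s j with q | a
    · exact mem_nh.2 ⟨q.1 + 1, fun w hw => by
        show ev ν z q.1 = q.2 ↔ ev ν w q.1 = q.2
        rw [ev_N hw q.1.lt_succ_self]⟩
    · rcases z with x | b
      · obtain ⟨k, hk⟩ := node_not (ν := ν) x a
        exact mem_nh.2 ⟨k, fun w hw => show X.inl x = X.inr a ↔ w = X.inr a from
          ⟨fun h => (by cases h), fun h => absurd (h ▸ hw) hk⟩⟩
      · exact mem_nh.2 ⟨0, fun w hw => by rw [show w = .inr b from hw]; exact Iff.rfl⟩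

instance : T1Space (X ν) := by
  obtain ⟨c, h1, h2⟩ := coords (ν := ν)
  refine t1Space_iff_specializes_imp_eq.2 fun x y h => h1 x y fun j => ?_
  exact ((h.mem_open isOpen_interior (mem_interior_iff_mem_nhds.2 (h2 j y))) |> interior_subset).symm

lemma not_sep (hν : ∀ (O : ℕ → Set (ℕ → ℤ)), (∀ j, IsOpen (O j)) →
    (∀ j, Dense (O j)) → ∀ (x : ℕ → ℤ) (m n : ℕ), ∃ y, (∀ i < m, y i = x i) ∧ (∀ j, y ∈ O j) ∧
      ν y = n) (f : X ν → ℝ) (hf : Continuous f) (h1 : EqOn f 1 (N ν (.inl 0) 1)ᶜ) :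
    f (.inl 0) ≠ 0 := by
  have P : ∀ (n : ℕ) (a : ℝ), a < 1 → ∀ (x : ℕ → ℤ) (m : ℕ), ∃ y m', m ≤ m' ∧ (∀ i < m, y i = x i) ∧
      a < f (.inr (n, tr y m')) := by
    intro n
    induction n with
    | zero =>
      intro a ha x m
      refine ⟨x, m, le_rfl, fun _ _ => rfl, ?_⟩
      rw [h1]
      · exact ha
      · rintro (h | ⟨-, h, -⟩ | ⟨h, -⟩)
        · cases h
        · exact absurd h (by simp [lay])
        · exact h rfl
    | succ n ih =>
      intro a ha x m
      let O : ℕ → Set (ℕ → ℤ) := fun j =>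
        {y | ∃ m', j ≤ m' ∧ (a + 1) / 2 < f (.inr (n, tr y m'))} ∩ {0}ᶜ
      have trc : ∀ (y u : ℕ → ℤ) (k : ℕ), (∀ i < k, u i = y i) → tr u k = tr y k := fun y u k h =>
        List.map_congr_left fun i hi => h i (List.mem_range.1 hi)
      have ho : ∀ j, IsOpen {y | ∃ m', j ≤ m' ∧ (a + 1) / 2 < f (.inr (n, tr y m'))} := fun j => by
        refine isOpen_iff_mem_nhds.2 fun y ⟨m', h, h'⟩ => ?_
        refine mem_of_superset ((PiNat.isOpen_cylinder (fun _ => ℤ) y m').mem_nhds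
          (PiNat.self_mem_cylinder y m')) fun u hu => ⟨m', h, ?_⟩
        rwa [trc y u m' hu]
      obtain ⟨y, hy, hO, hn⟩ := hν O (fun j => (ho j).inter isOpen_compl_singleton) (fun j => by
        refine Dense.inter_of_isOpen_left ?_ ?_ (ho j)
        · refine (PiNat.isTopologicalBasis_cylinders (fun _ => ℤ)).dense_iff.2 ?_
          rintro _ ⟨u, k, rfl⟩ -
          obtain ⟨y, m', h, h', h''⟩ := ih ((a + 1) / 2) (by linarith) u (max j k)
          exact ⟨y, fun i hi => h' i (lt_max_of_lt_right hi), m', le_of_max_le_left h, h''⟩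
        · refine (PiNat.isTopologicalBasis_cylinders (fun _ => ℤ)).dense_iff.2 ?_
          rintro _ ⟨u, k, rfl⟩ -
          exact ⟨Function.update u k 1, fun i hi => Function.update_of_ne hi.ne _ _,
            fun h => by simpa using congrFun h k⟩) x m n
      have hy0 : y ≠ 0 := (hO 0).2
      obtain ⟨k, hk⟩ := mem_nh.1 (hf.tendsto (.inl y)
        (Metric.ball_mem_nhds _ (show 0 < (1 - a) / 4 by linarith)))
      obtain ⟨m', h, h'⟩ := (hO k).1
      have e1 := hk (a := .inr (n, tr y m')) (.inr (.inr ⟨hy0, _, _, h, .inl hn.symm, rfl⟩))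
      have e2 := hk (a := .inr (n + 1, tr y (max k m)))
        (.inr (.inr ⟨hy0, _, _, le_max_left _ _, .inr (by rw [hn]), rfl⟩))
      simp only [mem_preimage, Metric.mem_ball, Real.dist_eq, abs_lt] at e1 e2
      exact ⟨y, max k m, le_max_right _ _, hy, by linarith⟩
  intro h0
  obtain ⟨k, hk⟩ := mem_nh.1 (hf.tendsto (.inl 0) (Metric.ball_mem_nhds _ one_half_pos))
  obtain ⟨y, m', h, h', h''⟩ := P k (1 / 2) one_half_lt_one 0 k
  have e := hk (a := .inr (k, tr y m')) (.inr (.inl ⟨rfl, le_rfl, fun i hi =>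
    (ev_tr ν k y (hi.trans_le h)).trans (h' i hi)⟩))
  simp only [mem_preimage, Metric.mem_ball, Real.dist_eq, abs_lt, h0] at e
  linarith

end Pool.Agent.H17.Jones
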