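import Mathlib

namespace Pool.Agent.H17.KS

open MeasureTheory Filter Topology Set Real

variable {X : Type} [MeasurableSpace X] {ν : Measure X} {f : X → X}

lemma gibbs {ι : Type} [Fintype ι] [MeasurableSpace ι] [MeasurableSingletonClass ι]
    [IsProbabilityMeasure ν] {ξ : X → ι} (hξ : Measurable ξ) (W : ι → ℝ) (h0 : ∀ i, 0 ≤ W i)
    (h1 : ∑ i, W i ≤ 1) {g : X → ℝ} (hg : Integrable g ν) (h : ∀ᵐ z ∂ν, exp (-g z) ≤ W (ξ z)) :
    ∑ i, negMulLog (ν.real (ξ ⁻¹' {i})) ≤ ∫ z, g z ∂ν := by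
  have hm : IsProbabilityMeasure (ν.map ξ) := Measure.isProbabilityMeasure_map hξ.aemeasurable
  have e : ∀ i, (ν.map ξ).real {i} = ν.real (ξ ⁻¹' {i}) := fun i =>
    map_measureReal_apply hξ (measurableSet_singleton i)
  have hi : Integrable (fun i => -log (W i)) (ν.map ξ) := Integrable.of_finite
  have h2 : ∫ z, -log (W (ξ z)) ∂ν ≤ ∫ z, g z ∂ν := by
    refine integral_mono_ae (hi.comp_measurable hξ) hg ?_
    filter_upwards [h] with z hz
    have := log_le_log (exp_pos _) hz
    rw [log_exp] at this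
    linarith
  rw [← integral_map (f := fun i => -log (W i)) hξ.aemeasurable hi.aestronglyMeasurable,
    integral_fintype hi] at h2
  have h3 : ∑ i, (ν.map ξ).real {i} = 1 := by simp
  have h4 : ∀ i, negMulLog (ν.real (ξ ⁻¹' {i})) ≤
      (ν.map ξ).real {i} • -log (W i) + W i - (ν.map ξ).real {i} := fun i => by
    rw [e]
    rcases (measureReal_nonneg (μ := ν) (s := ξ ⁻¹' {i})).eq_or_lt with h5 | h5
    · simp [← h5, h0]
    have h6 : 0 < W i := by
      refine (h0 i).lt_of_ne fun h6 => h5.ne' ?_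
      rw [measureReal_eq_zero_iff]
      refine measure_mono_null (fun z hz => ?_) h
      rw [mem_preimage, mem_singleton_iff] at hz
      simp [hz, ← h6, exp_pos]
    have := mul_le_mul_of_nonneg_left (log_le_sub_one_of_pos (div_pos h6 h5)) h5.le
    rw [log_div h6.ne' h5.ne', mul_sub, mul_sub, mul_div_cancel₀ _ h5.ne'] at this
    simp only [negMulLog, smul_eq_mul]
    linarith
  have := Finset.sum_le_sum fun i (_ : i ∈ Finset.univ) => h4 i
  rw [Finset.sum_sub_distrib, Finset.sum_add_distrib] at this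
  linarith

lemma lyap [IsFiniteMeasure ν] (hf : MeasurePreserving f ν ν) {g : X → ℝ} (hg : Measurable g)
    (C : ℝ) (hb : ∀ z, |g z| ≤ C) (h : ∀ᵐ z ∂ν, g z ≤ g (f z)) : ∀ᵐ z ∂ν, g z = g (f z) := by
  have hi : Integrable g ν := Integrable.of_bound hg.aestronglyMeasurable C (.of_forall hb)
  refine (integral_eq_iff_of_ae_le hi (hf.integrable_comp_of_integrable hi) h).1 ?_
  simp only [Function.comp_apply]
  rw [← integral_map hf.measurable.aemeasurable (by rw [hf.map_eq]; exact hi.1), hf.map_eq]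

omit [MeasurableSpace X] in
lemma names {α : Type} (G : Set X) (hG : MapsTo f G G) (Q : X → α) (V : Finset α)
    (hV : ∀ z ∈ G, Q z ∈ V) (S : α → Finset α) (N : ℕ) (hS : ∀ v, (S v).card ≤ N)
    (hQ : ∀ z ∈ G, Q (f z) ∈ S (Q z)) (n : ℕ) : ∃ T : Finset (Fin (n + 1) → α),
      T.card ≤ V.card * N ^ n ∧ ∀ z ∈ G, (fun i : Fin (n + 1) => Q (f^[i] z)) ∈ T := by
  classical
  induction n with
  | zero =>
    exact ⟨V.image fun v _ => v, Finset.card_image_le.trans (by simp), fun z hz =>
      Finset.mem_image.2 ⟨_, hV z hz, by ext i; simp⟩⟩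
  | succ n ih =>
    obtain ⟨T, h1, h2⟩ := ih
    refine ⟨T.biUnion fun w => (S (w (Fin.last n))).image (Fin.snoc w), ?_, fun z hz => ?_⟩
    · refine (Finset.card_biUnion_le_card_mul _ _ N fun w _ =>
        Finset.card_image_le.trans (hS _)).trans ?_
      rw [pow_succ, ← mul_assoc]
      exact Nat.mul_le_mul_right _ h1
    · refine Finset.mem_biUnion.2 ⟨_, h2 z hz, Finset.mem_image.2 ⟨Q (f^[n + 1] z), ?_, ?_⟩⟩
      · rw [Function.iterate_succ_apply']
        exact hQ _ (hG.iterate n hz)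
      · ext i
        induction i using Fin.lastCases <;> simp

/-- block entropy bound -/
lemma block [MeasurableSingletonClass X] [IsProbabilityMeasure ν] (hf : MeasurePreserving f ν ν)
    {m : ℕ} {ξ : X → Fin m} (hξ : Measurable ξ) (p q : X) (G : Set X) (hG : ∀ᵐ z ∂ν, z ∈ G)
    (γ : X → Fin m) (K : Set X) (hK : MeasurableSet K) (hγ : ∀ z ∈ K, γ z = ξ z) {n : ℕ}
    (T : Finset (Fin n → Fin m)) (hT : ∀ z ∈ G, (fun i : Fin n => γ (f^[i] z)) ∈ T) (c a b : ℝ)
    (hc : T.card ≤ exp c) (ha : 0 ≤ a) (hb : 0 ≤ b) (hab : exp (-a) + m * exp (-(a + b)) ≤ 1) :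
    ∑ u, negMulLog (ν.real ((fun z (i : Fin n) => ξ (f^[i] z)) ⁻¹' {u})) ≤
      log 3 + c * ν.real {p, q}ᶜ + n * (a + b * ν.real Kᶜ) := by
  classical
  let s : Fin m → Fin m → ℝ := fun g u => (if g = u then exp (-a) else 0) + exp (-(a + b))
  have s0 : ∀ g u, 0 ≤ s g u := fun g u => by simp only [s]; split_ifs <;> positivity
  have s1 : ∀ g, ∑ u, s g u ≤ 1 := fun g => by simpa [s, Finset.sum_add_distrib] using hab
  let e : X → ℝ := fun z => a + Kᶜ.indicator (fun _ => b) z
  have e0 : ∀ z, 0 ≤ e z := fun z => add_nonneg ha (indicator_nonneg (fun _ _ => hb) z)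
  have e1 : ∀ z, exp (-e z) ≤ s (γ z) (ξ z) := fun z => by
    by_cases hz : z ∈ K
    · simp [e, s, hz, hγ z hz, (exp_pos _).le]
    · simp only [e, s, mem_compl_iff, hz, not_false_eq_true, indicator_of_mem]
      split_ifs <;> simp [(exp_pos _).le]
  have ei : Integrable e ν := (integrable_const a).add ((integrable_const b).indicator hK.compl)
  have ei' : ∀ i : ℕ, Integrable (fun z => e (f^[i] z)) ν := fun i =>
    (hf.iterate i).integrable_comp_of_integrable ei
  have hpq : MeasurableSet ({p, q} : Set X)ᶜ := (toFinite _).measurableSet.compl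
  have ci := (integrable_const (μ := ν) c).indicator hpq
  let A : (Fin n → Fin m) → ℝ := fun u => exp (-c) * ∑ g ∈ T, ∏ i, s (g i) (u i)
  have A0 : ∀ u, 0 ≤ A u := fun u => mul_nonneg (exp_pos _).le
    (Finset.sum_nonneg fun _ _ => Finset.prod_nonneg fun _ _ => s0 _ _)
  have A1 : ∑ u, A u ≤ 1 := by
    simp only [A, ← Finset.mul_sum]
    rw [Finset.sum_comm, exp_neg, inv_mul_le_iff₀ (exp_pos _), mul_one]
    refine le_trans (Finset.sum_le_card_nsmul _ _ 1 fun g _ => ?_) (by simpa using hc)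
    rw [← Fintype.piFinset_univ, ← Finset.prod_univ_sum]
    exact Finset.prod_le_one (fun i _ => Finset.sum_nonneg fun _ _ => s0 _ _) fun i _ => s1 _
  refine (gibbs (ξ := fun z (i : Fin n) => ξ (f^[i] z))
    (measurable_pi_lambda _ fun i => hξ.comp (hf.measurable.iterate i))
    (fun u => 3⁻¹ * ((if (fun i : Fin n => ξ (f^[i] p)) = u then 1 else 0) +
      (if (fun i : Fin n => ξ (f^[i] q)) = u then 1 else 0) + A u))
    (fun u => by have := A0 u; split_ifs <;> positivity) ?_
    (g := fun z => log 3 + ({p, q} : Set X)ᶜ.indicator (fun _ => c) z + ∑ i : Fin n, e (f^[i] z))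
    (((integrable_const _).add ci).add (integrable_finsetSum _ fun i _ => ei' i)) ?_).trans_eq ?_
  · simp only [← Finset.mul_sum, Finset.sum_add_distrib, Finset.sum_ite_eq, Finset.mem_univ,
      if_true]
    linarith
  · filter_upwards [hG] with z hz
    rw [neg_add, neg_add, exp_add, exp_add, exp_neg (log 3), exp_log three_pos, mul_assoc]
    refine mul_le_mul_of_nonneg_left ?_ (by norm_num)
    have h2 := A0 fun i => ξ (f^[i] z)
    by_cases hpq : z ∈ ({p, q} : Set X)
    · have : exp (-∑ i : Fin n, e (f^[i] z)) ≤ 1 :=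
        exp_le_one_iff.2 (neg_nonpos.2 (Finset.sum_nonneg fun _ _ => e0 _))
      rw [indicator_of_notMem (not_not.2 hpq), neg_zero, exp_zero, one_mul]
      rcases hpq with rfl | rfl <;> simp only [if_true] <;> split_ifs <;> linarith
    · rw [indicator_of_mem hpq]
      have : exp (-c) * exp (-∑ i : Fin n, e (f^[i] z)) ≤ A fun i => ξ (f^[i] z) := by
        refine mul_le_mul_of_nonneg_left (le_trans ?_ (Finset.single_le_sum
          (fun _ _ => Finset.prod_nonneg fun _ _ => s0 _ _) (hT z hz))) (exp_pos _).le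
        rw [← Finset.sum_neg_distrib, exp_sum]
        exact Finset.prod_le_prod (fun _ _ => (exp_pos _).le) fun i _ => e1 _
      split_ifs <;> linarith
  · have h3 : ∀ i : ℕ, ∫ z, e (f^[i] z) ∂ν = a + b * ν.real Kᶜ := fun i => by
      rw [← integral_map (hf.iterate i).measurable.aemeasurable
        (by rw [(hf.iterate i).map_eq]; exact ei.1), (hf.iterate i).map_eq,
        integral_add (integrable_const a) ((integrable_const b).indicator hK.compl),
        integral_indicator hK.compl]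
      simp [mul_comm]
    rw [integral_add, integral_add (integrable_const _) ci,
      integral_finsetSum (f := fun (i : Fin n) z => e (f^[i] z)) _ fun i _ => ei' i,
      integral_indicator hpq]
    · simp [h3, mul_comm, mul_add]
    · exact (integrable_const _).add ci
    · exact integrable_finsetSum _ fun i _ => ei' i

lemma lusin {X : Type} [MetricSpace X] [MeasurableSpace X] [BorelSpace X] [PolishSpace X]
    (ν : Measure X) [IsFiniteMeasure ν] {m : ℕ} {ξ : X → Fin m} (hξ : Measurable ξ) {δ : ℝ}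
    (hδ : 0 < δ) : ∃ K : Set X, MeasurableSet K ∧ ν.real Kᶜ ≤ m * δ ∧
      ∃ ε > 0, ∀ z ∈ K, ∀ w ∈ K, dist z w < ε → ξ z = ξ w := by
  choose K h1 h2 h3 using fun i => (hξ (measurableSet_singleton i)).exists_isCompact_sdiff_lt
    (measure_ne_top ν _) (ε := ENNReal.ofReal δ) (by simpa using hδ)
  obtain ⟨ε, h4, h5⟩ := (isCompact_iUnion fun ij : {ij : Fin m × Fin m // ij.1 ≠ ij.2} =>
    (h2 ij.1.1).prod (h2 ij.1.2)).exists_forall_le' (f := fun x => dist x.1 x.2) (a := 0)
    (by fun_prop) (by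
      rintro ⟨z, w⟩ h
      obtain ⟨ij, hz, hw⟩ := mem_iUnion.1 h
      refine dist_pos.2 fun e => ij.2 ?_
      exact (h1 _ hz).symm.trans ((congrArg ξ e).trans (h1 _ hw)))
  refine ⟨⋃ i, K i, (isCompact_iUnion h2).measurableSet, ?_, ε, h4, fun z hz w hw h => ?_⟩
  · have : (⋃ i, K i)ᶜ ⊆ ⋃ i, ξ ⁻¹' {i} \ K i := fun z hz =>
      mem_iUnion.2 ⟨ξ z, rfl, fun h => hz (mem_iUnion.2 ⟨_, h⟩)⟩
    refine (measureReal_mono this).trans ((measureReal_iUnion_fintype_le _).trans ?_)
    refine (Finset.sum_le_card_nsmul _ _ δ fun i _ => ?_).trans (by simp)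
    exact ENNReal.toReal_le_of_le_ofReal hδ.le (h3 i).le
  · obtain ⟨i, hi⟩ := mem_iUnion.1 hz
    obtain ⟨j, hj⟩ := mem_iUnion.1 hw
    by_contra hne
    exact h.not_ge (h5 (z, w) (mem_iUnion.2 ⟨⟨(i, j), fun e : i = j => hne
      ((h1 _ hi).trans (e.trans (h1 _ hj).symm))⟩, hi, hj⟩))

end Pool.Agent.H17.KS
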