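import Pool.Agent.H17.TE1

set_option autoImplicit false
open Set Topology Filter TopologicalSpace

namespace Pool.Agent.H17.Ksd
open Pool.Agent.H17.TE

variable {X Y K : Type} [TopologicalSpace X] [TopologicalSpace Y] [TopologicalSpace K]

def Bd (h : Y → ℝ) (r : ℝ) (p : StoneCech Y) : Prop :=
  ∀ r', r < r' → p ∈ closure (stoneCechUnit '' {y | |h y| < r'})

theorem Bd.ev {h : Y → ℝ} (hh : Continuous h) {r r' : ℝ} {p : StoneCech Y} (H : Bd h r p)
    (hr : r < r') : ∀ᶠ z in 𝓝 p, ∀ y, stoneCechUnit y = z → |h y| < r' := by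
  obtain ⟨q, q1, q2⟩ := exists_between hr
  have hu : Continuous fun y => projIcc q r' q2.le |h y| := continuous_projIcc.comp hh.abs
  have hc := continuous_subtype_val.comp (continuous_stoneCechExtend hu)
  have h0 : (stoneCechExtend hu p).1 ≤ q := closure_minimal (t := {z | (stoneCechExtend hu z).1 ≤ q})
    (by rintro _ ⟨y, hy, rfl⟩; simp [projIcc_of_le_left q2.le (le_of_lt hy)])
    (isClosed_le hc continuous_const) (H q q1)
  filter_upwards [(isOpen_lt hc continuous_const).mem_nhds (h0.trans_lt q2)]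
  rintro _ hz y rfl
  by_contra hn
  simp [projIcc_of_right_le q2.le (not_lt.1 hn)] at hz

theorem Bd.add {h1 h2 : Y → ℝ} (hh : Continuous h2) {r : ℝ} {p : StoneCech Y} (H1 : Bd h1 r p)
    (H2 : ∀ c, 0 < c → Bd h2 c p) : Bd (h1 + h2) r p := by
  intro r' hr
  obtain ⟨q, q1, q2⟩ := exists_between hr
  refine mem_closure_iff_frequently.2 (((mem_closure_iff_frequently.1 (H1 q q1)).and_eventually
    ((H2 ((r' - q) / 2) (by linarith)).ev hh (r' := r' - q) (by linarith))).mono ?_)
  rintro _ ⟨⟨y, hy, rfl⟩, h⟩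
  refine ⟨y, (abs_add_le (h1 y) (h2 y)).trans_lt ?_, rfl⟩
  have := h y rfl
  simp only [mem_ofPred_eq] at hy
  linarith

def Co (e : X → K) (φ : Cp X → Cp Y) (m : ℝ) (p : StoneCech Y) (S : Set K) : Prop :=
  ∀ (f : Cp X) (c : ℝ), 0 < c → (∀ x ∈ S, ∀ᶠ z in 𝓝 x, ∀ s, e s = z → |f.1 s| < c) →
    Bd (φ f).1 (m * c) p

variable {e : X → K} {φ : Cp X → Cp Y}

theorem co_closed (m : ℝ) (n : ℕ) :
    IsClosed {q : StoneCech Y × (Fin n → K) | Co e φ m q.1 (range q.2)} := by
  simp only [Co, Bd, ofPred_forall, forall_mem_range]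
  refine isClosed_iInter fun f => isClosed_iInter fun c => isClosed_iInter fun _ => ?_
  have h1 : IsOpen {q : StoneCech Y × (Fin n → K) | ∀ i, ∀ᶠ z in 𝓝 (q.2 i), ∀ s,
      e s = z → |f.1 s| < c} := by
    rw [ofPred_forall]
    exact isOpen_iInter_of_finite fun i => isOpen_setOfPred_eventually_nhds.preimage
      ((continuous_apply i).comp continuous_snd)
  have h2 : IsClosed (⋂ r', ⋂ _ : m * c < r', Prod.fst ⁻¹' closure (stoneCechUnit ''
      {y | |(φ f).1 y| < r'}) : Set (StoneCech Y × (Fin n → K))) :=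
    isClosed_iInter fun r' => isClosed_iInter fun _ => isClosed_closure.preimage continuous_fst
  convert h1.isClosed_compl.union h2
  ext q
  simp only [mem_iInter, mem_union, mem_compl_iff, mem_ofPred_eq, mem_preimage]
  exact imp_iff_not_or

variable [CompactSpace K] [T2Space K]

theorem Co.inter (he : Continuous e)
    (ha : ∀ f g h : Cp X, f.1 = g.1 + h.1 → (φ f).1 = (φ g).1 + (φ h).1) {m m' : ℝ} (hm : 0 < m')
    {p : StoneCech Y} {S S' : Set K} (hS : S.Finite) (hS' : S'.Finite) (h : Co e φ m p S)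
    (h' : Co e φ m' p S') : Co e φ m p (S ∩ S') := by
  intro f c hc hf
  obtain ⟨l, l0, l1, -⟩ := exists_continuous_zero_one_of_isClosed
    (hS.subset (sdiff_subset (t := S'))).isClosed hS'.isClosed disjoint_sdiff_left
  have hl : Continuous fun s : X => max 0 (min 1 (3 * l (e s) - 1)) := by fun_prop
  rw [ha f ⟨fun s => max 0 (min 1 (3 * l (e s) - 1)) * f.1 s, hl.mul f.2⟩
    ⟨fun s => (1 - max 0 (min 1 (3 * l (e s) - 1))) * f.1 s, (continuous_const.sub hl).mul f.2⟩
    (by funext s; simp; ring)]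
  refine Bd.add (φ _).2 (h _ c hc fun x hx => ?_) fun d hd => ?_
  · by_cases hx' : x ∈ S'
    · refine (hf x ⟨hx, hx'⟩).mono fun z hz s hs => lt_of_le_of_lt ?_ (hz s hs)
      simp only [abs_mul]
      exact mul_le_of_le_one_left (abs_nonneg _) (abs_le.2 ⟨le_max_of_le_left (by norm_num),
        max_le zero_le_one (min_le_left _ _)⟩)
    · filter_upwards [(isOpen_lt l.continuous (continuous_const (y := 1 / 3))).mem_nhds
        (by simp [l0 ⟨hx, hx'⟩])] with z hz s hs
      subst hs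
      rw [max_eq_left (min_le_of_right_le (by linarith))]; simpa using hc
  · have := h' ⟨fun s => (1 - max 0 (min 1 (3 * l (e s) - 1))) * f.1 s,
      (continuous_const.sub hl).mul f.2⟩ (d / m') (by positivity) fun x hx => by
        filter_upwards [(isOpen_lt (continuous_const (y := 2 / 3)) l.continuous).mem_nhds
          (by simp [l1 hx]; norm_num)] with z hz s hs
        subst hs
        rw [min_eq_left (by linarith), max_eq_right zero_le_one]; simp; positivity
    rwa [mul_div_cancel₀ _ hm.ne'] at this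

omit [CompactSpace K] [T2Space K] in
theorem Co.mem (he : IsInducing e) {ψ : Cp Y → Cp X} (hψ : Continuous ψ) (h1 : ∀ h, φ (ψ h) = h)
    (h0 : (ψ ⟨0, continuous_const⟩).1 = 0) {m : ℝ} (hm : 0 < m) {p : StoneCech Y} {S : Set K}
    (hS : S.Finite) (h : Co e φ m p (S ∩ range e)) : p ∈ range stoneCechUnit := by
  by_contra hn
  choose n k y hy using fun s : X => nbhd (O := {g | |(ψ g).1 s| < 1 / m})
    (isOpen_lt ((ev s).comp hψ).abs continuous_const) (g := ⟨0, continuous_const⟩)
    (by simp [h0, hm])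
  obtain ⟨P, -, p1, p2⟩ := (exists_subset_image_finite_and (f := e) (s := univ)
    (p := fun t => t = S ∩ range e)).1 ⟨_, by rw [image_univ]; exact inter_subset_right,
      hS.subset inter_subset_left, rfl⟩
  obtain ⟨l, l0, l1, -⟩ := exists_continuous_zero_one_of_isClosed
    ((p1.biUnion fun s _ => finite_range (y s)).image stoneCechUnit).isClosed
    (isClosed_singleton (x := p)) (disjoint_singleton_right.2 fun h => hn (image_subset_range _ _ h))
  let g : Cp Y := ⟨fun y => 2 * l (stoneCechUnit y),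
    continuous_const.mul (l.continuous.comp continuous_stoneCechUnit)⟩
  have := h (ψ g) (1 / m) (by positivity) (by
    rw [← p2]
    rintro _ ⟨s, hs, rfl⟩
    obtain ⟨O, hO, hO'⟩ := he.isOpen_iff.1 (isOpen_lt (ψ g).2.abs (continuous_const (y := 1 / m)))
    filter_upwards [hO.mem_nhds (hO'.symm.subset (hy s g fun i => by
      simp [g, l0 (mem_image_of_mem _ (mem_biUnion hs (mem_range_self i)))]; positivity))]
    rintro _ hz t rfl
    exact hO'.subset hz) (3 / 2) (by rw [mul_one_div_cancel hm.ne']; norm_num)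
  rw [h1] at this
  have := closure_minimal (t := {z | |2 * l z| ≤ 3 / 2}) 
    (by rintro _ ⟨y, hy, rfl⟩; exact (show |g.1 y| < 3 / 2 from hy).le)
    (isClosed_le (continuous_const.mul l.continuous).abs continuous_const) this
  simp [l1 rfl] at this
  linarith

theorem main [T35Space Y] (he : IsInducing e) (hφ : Continuous φ)
    (ha : ∀ f g h : Cp X, f.1 = g.1 + h.1 → (φ f).1 = (φ g).1 + (φ h).1)
    (hs : ∀ (c : ℝ) (f g : Cp X), g.1 = c • f.1 → (φ g).1 = c • (φ f).1)
    {ψ : Cp Y → Cp X} (hψ : Continuous ψ) (h1 : ∀ h, φ (ψ h) = h)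
    (h0 : (ψ ⟨0, continuous_const⟩).1 = 0) {A : ℕ → ℕ → Set K} (hA : ∀ n m, IsCompact (A n m))
    (hr : range e = ⋂ n, ⋃ m, A n m) : ∃ B : ℕ → ℕ → Set (StoneCech Y),
      (∀ n m, IsCompact (B n m)) ∧ range stoneCechUnit = ⋂ n, ⋃ m, B n m := by
  obtain ⟨d, hd⟩ := exists_surjective_nat (ℕ × ℕ × ℕ)
  let B : ℕ → ℕ × ℕ × ℕ → Set (StoneCech Y) := fun n j => Prod.fst ''
    ({q : StoneCech Y × (Fin j.1 → K) | Co e φ (j.2.1 + 1) q.1 (range q.2)} ∩
      Prod.snd ⁻¹' univ.pi fun _ => accumulate (A n) j.2.2)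
  refine ⟨fun n j => B n (d j), fun n j => (((co_closed _ _).inter ((isClosed_set_pi fun _ _ =>
    (isCompact_accumulate (hA n) _).isClosed).preimage continuous_snd)).isCompact).image
    continuous_fst, Subset.antisymm ?_ fun p hp => ?_⟩
  · rintro _ ⟨y, rfl⟩
    refine mem_iInter.2 fun n => ?_
    obtain ⟨l, k, x, hx⟩ := nbhd (O := {f | |(φ f).1 y| < 1})
      (isOpen_lt ((ev y).comp hφ).abs continuous_const) (g := ⟨0, continuous_const⟩)
      (by rw [mem_ofPred_eq, hs 0 ⟨0, continuous_const⟩ ⟨0, continuous_const⟩ (by simp)]; simp)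
    choose j hj using fun i => mem_iUnion.1 (mem_iInter.1 (hr.subset (mem_range_self (x i))) n)
    obtain ⟨a, ha⟩ := hd (l, k, Finset.univ.sup j)
    refine mem_iUnion.2 ⟨a, ?_⟩
    show _ ∈ B n (d a)
    rw [ha]
    refine ⟨(_, fun i => e (x i)), ⟨fun f c hc hf r' hr' => subset_closure ⟨y, ?_, rfl⟩,
      fun i _ => mem_accumulate.2 ⟨j i, Finset.le_sup (f := j) (Finset.mem_univ i), hj i⟩⟩, rfl⟩
    have hk : (0 : ℝ) < (k + 1) * c := by positivity
    have := hx ⟨((k + 1) * c)⁻¹ • f.1, f.2.const_smul _⟩ fun i => by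
      have := (hf _ (mem_range_self i)).self_of_nhds _ rfl
      simp only [Pi.smul_apply, smul_eq_mul, Pi.zero_apply, sub_zero, abs_mul,
        abs_of_pos (inv_pos.2 hk)]
      rw [inv_mul_lt_iff₀ hk]
      exact this.trans_eq (by field_simp)
    rw [mem_ofPred_eq, hs ((k + 1) * c)⁻¹ f _ rfl, Pi.smul_apply, smul_eq_mul, abs_mul,
      abs_of_pos (inv_pos.2 hk), inv_mul_lt_iff₀ hk, mul_one] at this
    exact this.trans hr'
  · have : ∀ n, ∃ (m : ℝ) (S : Set K), 0 < m ∧ S.Finite ∧ Co e φ m p S ∧ S ⊆ ⋃ j, A n j := by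
      intro n
      obtain ⟨j, ⟨_, x⟩, ⟨h, h'⟩, rfl⟩ := mem_iUnion.1 (mem_iInter.1 hp n)
      exact ⟨_, _, by positivity, finite_range _, h, range_subset_iff.2 fun i =>
        accumulate_subset_iUnion _ (h' i trivial)⟩
    choose m S m1 s1 s2 s3 using this
    have key : ∀ N : Set ℕ, N.Finite → Co e φ (m 0) p (S 0 ∩ ⋂ n ∈ N, S n) := by
      intro N hN
      induction N, hN using Set.Finite.induction_on with
      | empty => simpa using s2 0
      | @insert a N _ _ ih =>
        rw [biInter_insert, inter_comm (S a), ← inter_assoc]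
        exact ih.inter he.continuous ha (m1 a) ((s1 0).subset inter_subset_left) (s1 a) (s2 a)
    have : ∀ x, ∃ n, x ∈ S n → x ∈ range e := fun x => by
      by_contra hn
      push Not at hn
      exact (hn 0).2 (hr.symm.subset (mem_iInter.2 fun n => s3 n (hn n).1))
    choose n hn using this
    refine Co.mem (φ := φ) he hψ h1 h0 (m1 0) (s1 0) fun f c hc hf =>
      key (n '' S 0) ((s1 0).image _) f c hc fun x hx => hf x ⟨hx.1, hn x ?_⟩
    exact mem_iInter₂.1 hx.2 _ (mem_image_of_mem _ hx.1)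

end Pool.Agent.H17.Ksd
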