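import Mathlib

/-! A sequentially complete locally minimal abelian group with trivial component. -/

namespace Pool.Agent.H17.LM

open Set Filter Topology

universe v

/-- Local minimality: some neighbourhood `V` of `0` is such that every continuous group
isomorphism onto a Hausdorff group sending `V` to a neighbourhood of `0` is open. -/
def LocMin (G : Type) [AddCommGroup G] [TopologicalSpace G] : Prop :=
  ∃ V ∈ 𝓝 (0 : G), ∀ (Γ : Type v) [AddGroup Γ] [TopologicalSpace Γ] [IsTopologicalAddGroup Γ]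
    [T2Space Γ] (f : G ≃+ Γ), Continuous f → f '' V ∈ 𝓝 (0 : Γ) → IsOpenMap f

lemma schur {F V : Type*} [Field F] [AddCommGroup V] [Module F V] (w : ℕ → V)
    (h : ∀ α : V →ₗ[F] F, ∀ᶠ n in atTop, α (w n) = 0) : ∀ᶠ n in atTop, w n = 0 := by
  classical
  let b := Module.Basis.ofVectorSpace F V
  by_contra hc
  have h1 : ∀ T : Finset (Module.Basis.ofVectorSpaceIndex F V) × ℕ, ∃ n, T.2 ≤ n ∧
      (b.repr (w n)).support.Nonempty ∧ ∀ i ∈ T.1, i ∉ (b.repr (w n)).support := by
    intro T
    have e1 : ∀ᶠ n in atTop, ∀ i ∈ T.1, i ∉ (b.repr (w n)).support :=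
      (eventually_all_finset T.1).2 fun i _ => (h (b.coord i)).mono fun n hn => by simpa using hn
    obtain ⟨n, e2, e3, e4⟩ := ((not_eventually.1 hc).and_eventually
      (e1.and (eventually_ge_atTop T.2))).exists
    exact ⟨n, e4, Finsupp.support_nonempty_iff.2 (by simpa using e2), e3⟩
  choose nx h2 h3 h4 using h1
  let T : ℕ → Finset (Module.Basis.ofVectorSpaceIndex F V) := fun k => Nat.rec ∅
    (fun k t => t ∪ (b.repr (w (nx (t, k)))).support) k
  let s : ℕ → Finset (Module.Basis.ofVectorSpaceIndex F V) := fun k =>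
    (b.repr (w (nx (T k, k)))).support
  have hT : ∀ k, T (k + 1) = T k ∪ s k := fun k => rfl
  have hm : Monotone T := monotone_nat_of_le_succ fun k => hT k ▸ Finset.subset_union_left
  have hd : ∀ j k, j < k → ∀ i ∈ s j, i ∉ s k := fun j k hjk i hi =>
    h4 (T k, k) i (hm hjk (hT j ▸ Finset.mem_union_right _ hi))
  choose i hi using fun k => h3 (T k, k)
  obtain ⟨N, hN⟩ := eventually_atTop.1 (h (b.constr F fun x => if ∃ k, x = i k then 1 else 0))
  have e := hN _ (h2 (T N, N))
  rw [b.constr_apply, Finsupp.sum_eq_single (i N) (fun x hx hne => ?_) (fun _ => by simp)] at e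
  · rw [if_pos ⟨N, rfl⟩, smul_eq_mul, mul_one] at e
    exact Finsupp.mem_support_iff.1 (hi N) e
  · rw [if_neg, smul_zero]
    rintro ⟨k, rfl⟩
    rcases lt_trichotomy k N with c | c | c
    · exact hd k N c _ (hi k) (Finsupp.mem_support_iff.2 hx)
    · exact hne (c ▸ rfl)
    · exact hd N k c _ (Finsupp.mem_support_iff.2 hx) (hi k)

variable {H : Type} [NormedAddCommGroup H]

/-- The subgroup of `p`-th multiples. -/
def mul (H : Type) [NormedAddCommGroup H] (p : ℕ) : AddSubgroup H := (nsmulAddMonoidHom p).range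

lemma key (p : Nat.Primes) (w : ℕ → H) (h : ∀ α : H →+ ZMod p, ∀ᶠ n in atTop, α (w n) = 0) :
    ∀ᶠ n in atTop, w n ∈ mul H p := by
  have : Fact (p : ℕ).Prime := ⟨p.2⟩
  let : Module (ZMod p) (H ⧸ mul H p) := QuotientAddGroup.zmodModule fun x => ⟨x, rfl⟩
  refine (schur (F := ZMod p) (fun n => (w n : H ⧸ mul H p)) fun α =>
    h (α.toAddMonoidHom.comp (QuotientAddGroup.mk' _))).mono fun n hn => ?_
  exact (QuotientAddGroup.eq_zero_iff _).1 hn

/-- Index set. -/
def J (H : Type) [NormedAddCommGroup H] : Type := Σ p : Nat.Primes, (H →+ ZMod p) × ℝ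

/-- The compact factor. -/
def K (H : Type) [NormedAddCommGroup H] : Type := ∀ j : J H, ZMod (j.1 ^ 2)

instance (p : Nat.Primes) : NeZero ((p : ℕ) ^ 2) := ⟨pow_ne_zero _ p.2.ne_zero⟩

instance : AddCommGroup (K H) := inferInstanceAs (AddCommGroup (∀ j : J H, ZMod (j.1 ^ 2)))

/-- The product topology. -/
@[reducible] def topK : TopologicalSpace (K H) :=
  inferInstanceAs (TopologicalSpace (∀ j : J H, ZMod (j.1 ^ 2)))

lemma grpK : @IsTopologicalAddGroup (K H) topK _ :=
  inferInstanceAs (IsTopologicalAddGroup (∀ j : J H, ZMod (j.1 ^ 2)))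

instance : UniformSpace (K H) := @IsTopologicalAddGroup.rightUniformSpace (K H) _ topK grpK

instance : IsUniformAddGroup (K H) := @isUniformAddGroup_of_addCommGroup (K H) _ topK grpK

instance : CompactSpace (K H) := inferInstanceAs (CompactSpace (∀ j : J H, ZMod (j.1 ^ 2)))

instance : T2Space (K H) := inferInstanceAs (T2Space (∀ j : J H, ZMod (j.1 ^ 2)))

instance : TotallyDisconnectedSpace (K H) :=
  inferInstanceAs (TotallyDisconnectedSpace (∀ j : J H, ZMod (j.1 ^ 2)))

lemma cont (j : J H) : Continuous fun k : K H => k j := continuous_apply j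

/-- Reduction modulo `p`. -/
def red (p : Nat.Primes) : ZMod (p ^ 2) →+* ZMod p := ZMod.castHom (dvd_pow_self _ two_ne_zero) _

/-- The exceptional coordinates. -/
def bad (x : H × K H) : Set (J H) := {j : J H | red j.1 (x.2 j) ≠ j.2.1 x.1}

lemma nbad {x : H × K H} {j : J H} : j ∉ bad x ↔ red j.1 (x.2 j) = j.2.1 x.1 := not_not

lemma cnt {x : H × K H} {C : Set (J H)} (hC : C.Countable)
    (h : ∀ j, j ∉ C → red j.1 (x.2 j) = j.2.1 x.1) : (bad x).Countable :=
  hC.mono fun j hj => by_contra fun e => hj (h j e)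

/-- The group. -/
def G (H : Type) [NormedAddCommGroup H] : AddSubgroup (H × K H) where
  carrier := {x | (bad x).Countable}
  zero_mem' := cnt countable_empty fun j _ => by
    show red j.1 0 = j.2.1 0
    simp
  add_mem' := fun {a b} ha hb => cnt (Countable.union ha hb) fun j h => by
    show red j.1 (a.2 j + b.2 j) = j.2.1 (a.1 + b.1)
    rw [map_add, map_add, nbad.1 fun e => h (Or.inl e), nbad.1 fun e => h (Or.inr e)]
  neg_mem' := fun {a} ha => cnt ha fun j h => by
    show red j.1 (-a.2 j) = j.2.1 (-a.1)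
    rw [map_neg, map_neg, nbad.1 h]

lemma memG {x : H × K H} : x ∈ G H ↔ (bad x).Countable := Iff.rfl

lemma free {C : Set (J H)} (hC : C.Countable) (p : Nat.Primes) (α : H →+ ZMod p) :
    ∃ r : ℝ, (⟨p, α, r⟩ : J H) ∉ C := by
  by_contra h
  push Not at h
  refine not_countable_univ ((hC.preimage_of_injOn (f := fun r : ℝ => (⟨p, α, r⟩ : J H))
    fun a _ b _ e => ?_).mono fun r _ => h r)
  exact congrArg (fun j : J H => j.2.2) e

lemma dense : Dense (G H : Set (H × K H)) := by
  classical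
  have hs : ∀ p, Function.Surjective (red p) := fun p => ZMod.castHom_surjective _
  choose l hl using hs
  intro x
  let u : Finset (J H) → H × K H := fun F => (x.1, fun j => if j ∈ F then x.2 j else l j.1 (j.2.1 x.1))
  refine mem_closure_of_tendsto (f := u) (b := atTop) ?_ (Eventually.of_forall fun F =>
    memG.2 (cnt F.countable_toSet fun j h => ?_))
  · refine tendsto_const_nhds.prodMk_nhds (tendsto_pi_nhds.2 fun j => ?_)
    exact tendsto_const_nhds.congr' ((eventually_ge_atTop {j}).mono fun F hF =>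
      (if_pos (by simpa using hF)).symm)
  · show red j.1 (if j ∈ F then _ else _) = _
    rw [if_neg (show j ∉ F from h), hl]

lemma seqClosed (h2 : ∀ p : Nat.Primes, IsClosed (mul H p : Set H)) :
    IsSeqClosed (G H : Set (H × K H)) := by
  intro x y hx hxy
  have hC := countable_iUnion fun n => memG.1 (hx n)
  have e1 : ∀ j : J H, j ∉ (⋃ n, bad (x n)) →
      ∀ᶠ n in atTop, j.2.1 (x n).1 = red j.1 (y.2 j) := fun j hj => by
    have e2 := (((cont j).comp continuous_snd).tendsto y).comp hxy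
    rw [nhds_discrete, tendsto_pure] at e2
    refine e2.mono fun n hn => ?_
    rw [← nbad.1 fun e => hj (mem_iUnion.2 ⟨n, e⟩)]
    exact congrArg _ hn
  have e3 : ∀ p : Nat.Primes, ∀ᶠ n in atTop, y.1 - (x n).1 ∈ mul H p := fun p => by
    obtain ⟨N, hN⟩ := eventually_atTop.1 (key p (fun n => (x (n + 1)).1 - (x n).1) fun α => by
      obtain ⟨r, hr⟩ := free hC p α
      filter_upwards [e1 _ hr, (tendsto_add_atTop_nat 1).eventually (e1 _ hr)] with n a b
      rw [map_sub, sub_eq_zero]
      exact b.trans a.symm)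
    refine eventually_atTop.2 ⟨N, fun n hn => (h2 p).mem_of_tendsto
      (((continuous_fst.tendsto y).comp hxy).sub_const (x n).1)
      (eventually_atTop.2 ⟨n, fun m hm => ?_⟩)⟩
    induction m, hm using Nat.le_induction with
    | base => simp
    | succ m hm ih =>
      have := (mul H p).add_mem (hN m (hn.trans hm)) ih
      simpa using this
  refine memG.2 (cnt hC fun j h => ?_)
  obtain ⟨n, a, g, b⟩ := ((e1 j h).and (e3 j.1)).exists
  have : j.2.1 (y.1 - (x n).1) = 0 := by
    rw [← b]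
    show j.2.1 ((j.1 : ℕ) • g) = 0
    rw [map_nsmul, nsmul_eq_mul, ZMod.natCast_self, zero_mul]
  rw [map_sub, sub_eq_zero] at this
  rw [this, a]

lemma comp0 (h3 : ∀ h : H, (∀ p : Nat.Primes, h ∈ mul H p) → h = 0) :
    connectedComponent (0 : G H) = {0} := by
  refine Subset.antisymm (fun x hx => ?_) (singleton_subset_iff.2 mem_connectedComponent)
  have e1 : x.1.2 = 0 := by
    have := (continuous_snd.comp continuous_subtype_val).image_connectedComponent_subset (0 : G H)
      (mem_image_of_mem _ hx)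
    rwa [connectedComponent_eq_singleton] at this
  refine Subtype.ext (Prod.ext (h3 _ fun p => ?_) e1)
  refine (key p (fun _ => x.1.1) fun α => Eventually.of_forall fun _ => ?_).exists.choose_spec
  obtain ⟨r, hr⟩ := free (memG.1 x.2) p α
  have := nbad.1 hr
  rw [e1] at this
  exact this.symm.trans (map_zero _)

lemma red_zero (p : Nat.Primes) {a : ZMod (p ^ 2)} (h : (p : ℕ) • a = 0) : red p a = 0 := by
  obtain ⟨n, rfl⟩ := ZMod.natCast_zmod_surjective a
  rw [nsmul_eq_mul, ← Nat.cast_mul, ZMod.natCast_eq_zero_iff, pow_two] at h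
  rw [map_natCast, ZMod.natCast_eq_zero_iff]
  exact Nat.dvd_of_mul_dvd_mul_left p.2.pos h

lemma ess {M : Set (K H)} (hM : IsClosed M) (hm : ∀ n : ℕ, ∀ k ∈ M, n • k ∈ M) {k : K H}
    (hk : k ∈ M) (h0 : k ≠ 0) : ∃ k' ∈ M, k' ≠ 0 ∧ ∀ j : J H, red j.1 (k' j) = 0 := by
  classical
  obtain ⟨j0, hj0⟩ := Function.ne_iff.1 h0
  let m : ℕ → ℕ := fun t => ∏ q ∈ (Finset.range t).filter (Nat.Coprime · (j0.1 ^ 2)), q ^ 2
  have hc : IsClosed (M ∩ {k | k j0 ≠ 0}) :=
    hM.inter ((isClosed_discrete {a | a ≠ 0}).preimage (cont j0))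
  obtain ⟨a, ha, ha'⟩ := hc.isCompact.exists_mapClusterPt (u := fun t => m t • k) (f := atTop)
    (le_principal_iff.2 (mem_map.2 (Eventually.of_forall fun t => ⟨hm _ k hk, by
      show m t • k j0 ≠ 0
      rw [nsmul_eq_mul, Ne, ((ZMod.isUnit_iff_coprime _ _).2 (Nat.Coprime.prod_left fun q hq =>
        (Finset.mem_filter.1 hq).2.pow_left 2)).mul_right_eq_zero]
      exact hj0⟩)))
  have e1 : ∀ j : J H, j.1 ≠ j0.1 → a j = 0 := fun j hj => by
    refine (((isClosed_discrete {0}).preimage (cont j)).mem_of_mapClusterPt ha'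
      ((eventually_gt_atTop (j.1 : ℕ)).mono fun t ht => ?_))
    show m t • k j = 0
    rw [nsmul_eq_mul, (ZMod.natCast_eq_zero_iff _ _).2 (Finset.dvd_prod_of_mem _
      (Finset.mem_filter.2 ⟨Finset.mem_range.2 ht, ((Nat.coprime_primes j.1.2 j0.1.2).2
        fun e => hj (Subtype.ext e)).pow_right 2⟩)), zero_mul]
  have e2 : ∀ b : K H, (∀ j : J H, j.1 ≠ j0.1 → b j = 0) → (j0.1 : ℕ) • b = 0 →
      ∀ j : J H, red j.1 (b j) = 0 := fun b hb hb' j => by
    by_cases e : j.1 = j0.1
    · exact red_zero _ (by rw [← e] at hb'; exact congrFun hb' j)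
    · rw [hb j e, map_zero]
  by_cases h : (j0.1 : ℕ) • a = 0
  · exact ⟨a, ha.1, fun e => ha.2 (congrFun e j0), e2 a e1 h⟩
  · refine ⟨_, hm _ a ha.1, h, fun j => ?_⟩
    show red j.1 ((j0.1 : ℕ) • a j) = 0
    by_cases e : j.1 = j0.1
    · rw [← e, map_nsmul, nsmul_eq_mul, ZMod.natCast_self, zero_mul]
    · rw [e1 j e, smul_zero, map_zero]

lemma locMin (h1 : ∀ (n : ℕ) (h : H), ‖n • h‖ = n * ‖h‖) : LocMin.{v} (G H) := by
  refine ⟨{x | ‖x.1.1‖ < 1}, (isOpen_lt (by fun_prop) continuous_const).mem_nhds (by simp),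
    fun Γ _ _ _ _ f hf hV => ?_⟩
  have hn : ∀ n : ℕ, Tendsto (fun y : Γ => n • y) (𝓝 0) (𝓝 0) := fun n => by
    simpa using (continuous_nsmul n).tendsto (0 : Γ)
  have e1 : Tendsto (fun y => (f.symm y).1.1) (𝓝 0) (𝓝 0) := by
    refine Metric.tendsto_nhds.2 fun ε hε => ?_
    obtain ⟨n, hn'⟩ := exists_nat_one_div_lt hε
    filter_upwards [hn (n + 1) hV] with y ⟨x, hx, e⟩
    have e3 : x = (n + 1) • f.symm y := by rw [← map_nsmul, ← f.symm_apply_apply x, e]
    have e4 : ‖(n + 1) • (f.symm y).1.1‖ < 1 := by rw [e3] at hx; exact hx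
    rw [h1] at e4
    rw [dist_zero_right]
    refine lt_trans ?_ hn'
    rw [lt_div_iff₀ (by positivity)]
    push_cast at e4
    linarith
  have e2 : Tendsto (fun y => (f.symm y).1.2) (𝓝 0) (𝓝 0) := by
    refine tendsto_nhds_of_unique_mapClusterPt fun k hk => by_contra fun h0 => ?_
    obtain ⟨k', hk', h0', hr⟩ := ess (M := {k | MapClusterPt k (𝓝 0) fun y => (f.symm y).1.2})
      isClosed_setOfPred_clusterPt (fun n k hk => MapClusterPt.of_comp (hn n) (by
        convert MapClusterPt.continuousAt_comp (continuous_nsmul n).continuousAt hk using 1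
        funext y
        simp)) hk h0
    let x : G H := ⟨(0, k'), memG.2 (cnt countable_empty fun j _ => by
      show red j.1 (k' j) = j.2.1 0
      rw [hr, map_zero])⟩
    have e5 : MapClusterPt x (𝓝 0) f.symm := by
      rw [mapClusterPt_iff_frequently]
      intro s hs
      obtain ⟨t, ht, hts⟩ := (mem_nhds_subtype _ _ _).1 hs
      obtain ⟨U, hU, W, hW, hUW⟩ := mem_nhds_prod_iff.1 ht
      exact ((mapClusterPt_iff_frequently.1 hk' W hW).and_eventually (e1 hU)).mono
        fun y hy => hts (hUW (mk_mem_prod hy.2 hy.1))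
    have e6 := e5.continuousAt_comp hf.continuousAt
    rw [show (f ∘ f.symm) = id from funext f.apply_symm_apply] at e6
    have e7 : f x = 0 := eq_of_nhds_neBot (by simpa [MapClusterPt, ClusterPt] using e6)
    exact h0' (congrArg (fun z : G H => z.1.2) (f.map_eq_zero_iff.1 e7))
  have e8 : Continuous f.symm := by
    refine continuous_of_continuousAt_zero f.symm ?_
    rw [ContinuousAt, map_zero]
    exact tendsto_subtype_rng.2 (e1.prodMk_nhds e2)
  exact (Homeomorph.mk f.toEquiv hf e8).isOpenMap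

end Pool.Agent.H17.LM
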