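import Mathlib

set_option autoImplicit false

namespace Pool.Agent.H17.Vald

open Set Cardinal Filter Topology

theorem small_iUnion {Γ ι : Type} (hι : #ι ≤ ℵ₁) (f : ι → Set Γ) (hf : ∀ i, #(f i) ≤ ℵ₁) :
    #(⋃ i, f i) ≤ ℵ₁ := by
  refine (mk_iUnion_le f).trans ?_
  calc #ι * ⨆ i, #(f i) ≤ ℵ₁ * ℵ₁ := mul_le_mul' hι (ciSup_le' hf)
    _ = ℵ₁ := mul_eq_self aleph0_lt_aleph_one.le

theorem cnt_iff {Γ : Type} (s : Set Γ) : s.Countable ↔ #s < ℵ₁ := by
  rw [← le_aleph0_iff_set_countable, ← succ_aleph0, Order.lt_succ_iff]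

theorem small_of_countable {Γ : Type} {s : Set Γ} (h : s.Countable) : #s ≤ ℵ₁ :=
  ((cnt_iff s).1 h).le

theorem exists_not_mem {Γ : Type} {S B : Set Γ} (hS : ℵ₁ < #S) (hB : #B ≤ ℵ₁) :
    ∃ x ∈ S, x ∉ B := by
  by_contra h
  push Not at h
  exact absurd ((mk_le_mk_of_subset h).trans hB) (not_le.2 hS)

theorem exists_cl {Γ : Type} (g : Finset Γ → Set Γ) (hg : ∀ F, (g F).Countable) :
    ∃ cl : Set Γ → Set Γ, Monotone cl ∧ (∀ u, u ⊆ cl u) ∧ (∀ u, u.Countable → (cl u).Countable) ∧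
      ∀ u (F : Finset Γ), ↑F ⊆ cl u → g F ⊆ cl u := by
  let st : Set Γ → Set Γ := fun u => u ∪ ⋃ F ∈ {F : Finset Γ | ↑F ⊆ u}, g F
  have m1 : Monotone st := by
    intro u v h
    exact union_subset_union h (biUnion_subset_biUnion_left fun F hF => Subset.trans hF h)
  have c1 : ∀ u, u.Countable → (st u).Countable := by
    intro u hu
    refine hu.union (Countable.biUnion ?_ fun F _ => hg F)
    exact (countable_ofPred_finite_subset hu).preimage_of_injOn (f := fun F : Finset Γ => (F : Set Γ))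
      (fun a _ b _ h => Finset.coe_injective h) |>.mono fun F hF => And.intro F.finite_toSet hF
  have m2 : ∀ u, Monotone fun n => st^[n] u := fun u =>
    monotone_nat_of_le_succ fun n => by
      rw [Function.iterate_succ_apply']; exact subset_union_left
  refine ⟨fun u => ⋃ n, st^[n] u, ?_, fun u => subset_iUnion (fun n => st^[n] u) 0, ?_, ?_⟩
  · intro u v h
    exact iUnion_mono fun n => m1.iterate n h
  · intro u hu
    refine countable_iUnion fun n => ?_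
    induction n with
    | zero => exact hu
    | succ n ih => rw [Function.iterate_succ_apply']; exact c1 _ ih
  · intro u F hF
    obtain ⟨n, hn⟩ := Directed.exists_mem_subset_of_finset_subset_biUnion (m2 u).directed_le hF
    refine Subset.trans ?_ (subset_iUnion (fun n => st^[n] u) (n + 1))
    rw [Function.iterate_succ_apply']
    exact fun y hy => Or.inr (mem_iUnion₂.2 ⟨F, hn, hy⟩)

def Bad {Γ : Type} (S : Set Γ) (cl : Set Γ → Set Γ) (u v : Set Γ) : Prop :=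
  ∃ B : List Γ → Set Γ, (∀ l, #(B l) ≤ ℵ₁) ∧ ∀ ξ : ℕ → Γ,
    (∀ n, ξ n ∈ S ∧ ξ n ∉ B (List.ofFn fun i : Fin n => ξ i)) → ∃ η ∈ v, η ∈ cl (u ∪ range ξ)

theorem good_empty {Γ : Type} {S : Set Γ} (hS : ℵ₁ < #S) (cl : Set Γ → Set Γ) :
    ¬ Bad S cl ∅ ∅ := by
  rintro ⟨B, hB, h⟩
  choose pick h1 h2 using fun l => exists_not_mem hS (hB l)
  let ξ : ℕ → Γ := WellFounded.fix Nat.lt_wfRel.wf fun n ih =>
    pick (List.ofFn fun i : Fin n => ih i i.2)
  have e : ∀ n, ξ n = pick (List.ofFn fun i : Fin n => ξ i) := fun n => WellFounded.fix_eq _ _ n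
  obtain ⟨η, hη, _⟩ := h ξ fun n => by rw [e n]; exact ⟨h1 _, h2 _⟩
  exact hη

theorem good_disj {Γ : Type} {S : Set Γ} {cl : Set Γ → Set Γ} (hm : Monotone cl) {u v : Set Γ}
    (h : ¬ Bad S cl u v) : ∀ η ∈ v, η ∉ cl u := by
  intro η h1 h2
  exact h ⟨fun _ => ∅, fun _ => by simp, fun ξ _ => ⟨η, h1, hm subset_union_left h2⟩⟩

theorem good_ext {Γ : Type} {S : Set Γ} {cl : Set Γ → Set Γ} {u v : Set Γ}
    (h : ¬ Bad S cl u v) : ℵ₁ < #{x | x ∈ S ∧ ¬ Bad S cl (insert x u) v} := by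
  classical
  by_contra hW
  rw [not_lt] at hW
  apply h
  have : ∀ x, ∃ B : List Γ → Set Γ, (∀ l, #(B l) ≤ ℵ₁) ∧ (Bad S cl (insert x u) v → ∀ ξ : ℕ → Γ,
      (∀ n, ξ n ∈ S ∧ ξ n ∉ B (List.ofFn fun i : Fin n => ξ i)) →
      ∃ η ∈ v, η ∈ cl (insert x u ∪ range ξ)) := by
    intro x
    by_cases c : Bad S cl (insert x u) v
    · obtain ⟨B, a, b⟩ := c
      exact ⟨B, a, fun _ => b⟩
    · exact ⟨fun _ => ∅, fun _ => by simp, fun d => absurd d c⟩
  choose B h1 h2 using this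
  refine ⟨fun l => match l with
    | [] => {x | x ∈ S ∧ ¬ Bad S cl (insert x u) v}
    | x :: r => B x r, ?_, ?_⟩
  · intro l
    cases l with
    | nil => exact hW
    | cons x r => exact h1 x r
  · intro ξ hξ
    have a := hξ 0
    simp only [List.ofFn_zero, mem_ofPred_eq, not_and, not_not] at a
    obtain ⟨η, b, c⟩ := h2 (ξ 0) (a.2 a.1) (fun n => ξ (n + 1)) (by
      intro n
      have := hξ (n + 1)
      rw [List.ofFn_succ] at this
      exact this)
    refine ⟨η, b, ?_⟩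
    have e : insert (ξ 0) u ∪ range (fun n => ξ (n + 1)) = u ∪ range ξ := by
      ext y
      simp only [mem_union, mem_insert_iff, mem_range]
      constructor
      · rintro ((rfl | a) | ⟨n, rfl⟩)
        · exact Or.inr ⟨0, rfl⟩
        · exact Or.inl a
        · exact Or.inr ⟨n + 1, rfl⟩
      · rintro (a | ⟨n, rfl⟩)
        · exact Or.inl (Or.inr a)
        · cases n with
          | zero => exact Or.inl (Or.inl rfl)
          | succ n => exact Or.inr ⟨n, rfl⟩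
    rwa [e] at c

theorem good_forb {Γ : Type} {S : Set Γ} {cl : Set Γ → Set Γ}
    (hc : ∀ u, u.Countable → (cl u).Countable) {u v : Set Γ} (hu : u.Countable)
    (h : ¬ Bad S cl u v) : {η | Bad S cl u (insert η v)}.Countable := by
  by_contra hE
  rw [cnt_iff, not_lt] at hE
  obtain ⟨E, hE1, hE2⟩ := le_mk_iff_exists_subset.1 hE
  choose B h1 h2 using fun η : E => (show Bad S cl u (insert η.1 v) from hE1 η.2)
  apply h
  refine ⟨fun l => ⋃ η, B η l, fun l => small_iUnion hE2.le _ fun η => h1 η l, fun ξ hξ => ?_⟩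
  have hcount := hc _ (hu.union (countable_range ξ))
  have : ∃ η ∈ E, η ∉ cl (u ∪ range ξ) := by
    by_contra c
    push Not at c
    have := (cnt_iff E).1 (hcount.mono c)
    exact absurd hE2 this.ne
  obtain ⟨η, a, b⟩ := this
  obtain ⟨ζ, c, d⟩ := h2 ⟨η, a⟩ ξ fun n => ⟨(hξ n).1, fun e => (hξ n).2 (mem_iUnion.2 ⟨_, e⟩)⟩
  rcases c with rfl | c
  · exact absurd d b
  · exact ⟨ζ, c, d⟩

theorem good_split {Γ : Type} {S : Set Γ} {cl : Set Γ → Set Γ}
    (hc : ∀ u, u.Countable → (cl u).Countable) {u v : Set Γ} (hu : u.Countable)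
    (h : ¬ Bad S cl u v) : ∃ a ∈ S, ∃ b ∈ S, ¬ Bad S cl (insert a u) (insert b v) ∧
      ¬ Bad S cl (insert b u) (insert a v) := by
  have hW := good_ext h
  obtain ⟨E, hE1, hE2⟩ := le_mk_iff_exists_subset.1 hW.le
  obtain ⟨b, hb, hb2⟩ := exists_not_mem hW (small_iUnion hE2.le
    (fun x : E => {η | Bad S cl (insert x.1 u) (insert η v)}) fun x =>
      small_of_countable (good_forb hc (hu.insert _) (hE1 x.2).2))
  have hcount := good_forb hc (hu.insert b) hb.2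
  have : ∃ a ∈ E, a ∉ {η | Bad S cl (insert b u) (insert η v)} := by
    by_contra c
    push Not at c
    have := (cnt_iff E).1 (hcount.mono c)
    exact absurd hE2 this.ne
  obtain ⟨a, ha, ha2⟩ := this
  exact ⟨a, (hE1 ha).1, b, hb.1, fun c => hb2 (mem_iUnion.2 ⟨⟨a, ha⟩, c⟩), ha2⟩

theorem retract {K Γ : Type} [TopologicalSpace K] [CompactSpace K] (e : K → Γ → ℝ)
    (he : Continuous e) (hD : Dense {x | {γ | e x γ ≠ 0}.Countable}) (x : K) :
    ∃ cl : Set Γ → Set Γ, Monotone cl ∧ (∀ u, u ⊆ cl u) ∧ (∀ u, u.Countable → (cl u).Countable) ∧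
      ∀ u, ∃ y, (∀ γ ∈ cl u, e y γ = e x γ) ∧ ∀ γ, γ ∉ cl u → e y γ = 0 := by
  classical
  have : ∀ (F : Finset Γ) (n : ℕ), ∃ p, {γ | e p γ ≠ 0}.Countable ∧
      ∀ γ ∈ F, dist (e p γ) (e x γ) < 1 / ((n : ℝ) + 1) := by
    intro F n
    have ho : IsOpen (⋂ γ ∈ F, {p | dist (e p γ) (e x γ) < 1 / ((n : ℝ) + 1)}) :=
      isOpen_biInter_finset fun γ _ => isOpen_lt
        (((continuous_apply γ).comp he).dist continuous_const) continuous_const
    obtain ⟨p, h1, h2⟩ := hD.exists_mem_open ho ⟨x, by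
      simp only [mem_iInter, mem_ofPred_eq, dist_self]
      intro _ _; positivity⟩
    exact ⟨p, h1, fun γ hγ => by simpa using mem_iInter₂.1 h2 γ hγ⟩
  choose p h1 h2 using this
  obtain ⟨cl, a, b, c, d⟩ := exists_cl (fun F => ⋃ n, {γ | e (p F n) γ ≠ 0})
    fun F => countable_iUnion fun n => h1 F n
  refine ⟨cl, a, b, c, fun u => ?_⟩
  have hcl : IsClosed (range e) := (isCompact_range he).isClosed
  have ht : Tendsto (fun q : Finset Γ × ℕ => e (p (q.1.filter (· ∈ cl u)) q.2)) atTop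
      (𝓝 fun γ => if γ ∈ cl u then e x γ else 0) := by
    rw [tendsto_pi_nhds]
    intro γ
    by_cases hγ : γ ∈ cl u
    · rw [if_pos hγ, Metric.tendsto_nhds]
      intro ε hε
      obtain ⟨N, hN⟩ := exists_nat_one_div_lt hε
      filter_upwards [eventually_ge_atTop (({γ} : Finset Γ), N)] with q hq
      refine (h2 _ _ γ (Finset.mem_filter.2 ⟨hq.1 (Finset.mem_singleton_self γ), hγ⟩)).trans_le
        (le_trans ?_ hN.le)
      exact Nat.one_div_le_one_div hq.2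
    · rw [if_neg hγ]
      refine tendsto_const_nhds.congr fun q => ?_
      by_contra hne
      exact hγ (d u (q.1.filter (· ∈ cl u)) (fun z hz => (Finset.mem_filter.1 hz).2)
        (mem_iUnion.2 ⟨q.2, fun h => hne h.symm⟩))
  obtain ⟨y, hy⟩ := hcl.mem_of_tendsto ht (Eventually.of_forall fun q => mem_range_self _)
  exact ⟨y, fun γ hγ => by rw [hy]; exact if_pos hγ, fun γ hγ => by rw [hy]; exact if_neg hγ⟩

theorem minimal_closed {K : Type} [TopologicalSpace K] [CompactSpace K] (G : Set (Set K))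
    (hG : ∀ A ∈ G, IsClosed A ∧ A.Nonempty) :
    ∃ C, Minimal (fun C => IsClosed C ∧ ∀ A ∈ G, (C ∩ A).Nonempty) C := by
  obtain ⟨m, _, hm⟩ := zorn_superset_nonempty {C : Set K | IsClosed C ∧ ∀ A ∈ G, (C ∩ A).Nonempty}
    (by
      intro c hc hch hne
      refine ⟨⋂₀ c, ⟨isClosed_sInter fun C hC => (hc hC).1, fun A hA => ?_⟩,
        fun s hs => sInter_subset_of_mem hs⟩
      have := hne.coe_sort
      have h := IsCompact.nonempty_iInter_of_directed_nonempty_isCompact_isClosed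
        (fun C : c => (C : Set K) ∩ A)
        (by
          intro C C'
          rcases hch.total C.2 C'.2 with h | h
          · exact ⟨C, Subset.rfl, inter_subset_inter_left _ h⟩
          · exact ⟨C', inter_subset_inter_left _ h, Subset.rfl⟩)
        (fun C => (hc C.2).2 A hA) (fun C => ((hc C.2).1.inter (hG A hA).1).isCompact)
        (fun C => (hc C.2).1.inter (hG A hA).1)
      rwa [← iInter_inter, ← sInter_eq_iInter] at h)
    univ ⟨isClosed_univ, fun A hA => by simpa using (hG A hA).2⟩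
  exact ⟨m, hm⟩

theorem supp_small {K Γ : Type} [TopologicalSpace K] [CompactSpace K] (e : K → Γ → ℝ)
    (he : Continuous e) (hD : Dense {x | {γ | e x γ ≠ 0}.Countable}) (d : K → K → ℝ)
    (sep : ∀ A B : Set K, IsClosed A → IsClosed B → Disjoint A B →
      ∃ δ > 0, ∀ a ∈ A, ∀ b ∈ B, δ ≤ d a b)
    (frag : ∀ L : Set K, L.Nonempty → ∀ ε > 0, ∃ U, IsOpen U ∧ (U ∩ L).Nonempty ∧
      ∀ a ∈ U ∩ L, ∀ b ∈ U ∩ L, d a b < ε) (x : K) : #{γ | e x γ ≠ 0} ≤ ℵ₁ := by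
  by_contra hS
  have hc : ∀ γ r, IsClosed {y | e y γ = r} := fun γ r =>
    isClosed_eq ((continuous_apply γ).comp he) continuous_const
  let T : ℕ → Set Γ := fun n => {γ | ∀ a, e a γ = e x γ → ∀ b, e b γ = 0 →
    1 / ((n : ℝ) + 1) ≤ d a b}
  have : ∃ n, ℵ₁ < #(T n) := by
    by_contra c
    push Not at c
    apply hS
    refine le_trans (mk_le_mk_of_subset ?_) (small_iUnion (by simp) T c)
    intro γ hγ
    obtain ⟨δ, h1, h2⟩ := sep _ _ (hc γ (e x γ)) (hc γ 0) (by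
      rw [Set.disjoint_left]
      intro a h1 h2
      exact hγ (h1.symm.trans h2))
    obtain ⟨N, hN⟩ := exists_nat_one_div_lt h1
    exact mem_iUnion.2 ⟨N, fun a ha b hb => hN.le.trans (h2 a ha b hb)⟩
  obtain ⟨n, hn⟩ := this
  obtain ⟨cl, c1, c2, c3, c4⟩ := retract e he hD x
  let Z : Set Γ → Set Γ → Set K := fun u v => {y | (∀ γ ∈ u, e y γ = e x γ) ∧ ∀ γ ∈ v, e y γ = 0}
  obtain ⟨C, hC⟩ := minimal_closed {A | ∃ u v, u.Countable ∧ ¬ Bad (T n) cl u v ∧ A = Z u v} (by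
    rintro A ⟨u, v, _, h, rfl⟩
    constructor
    · have : Z u v = (⋂ γ ∈ u, {y | e y γ = e x γ}) ∩ ⋂ γ ∈ v, {y | e y γ = 0} := by
        ext y; simp [Z]
      rw [this]
      exact (isClosed_biInter fun γ _ => hc γ _).inter (isClosed_biInter fun γ _ => hc γ _)
    · obtain ⟨y, a, b⟩ := c4 u
      exact ⟨y, fun γ hγ => a γ (c2 u hγ), fun γ hγ => b γ (good_disj c1 h γ hγ)⟩)
  obtain ⟨y0, hy0, _⟩ := hC.prop.2 _ ⟨∅, ∅, countable_empty, good_empty hn cl, rfl⟩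
  obtain ⟨U, hU, ⟨z, hz⟩, hd⟩ := frag C ⟨y0, hy0⟩ (1 / ((n : ℝ) + 1)) (by positivity)
  have key : IsClosed (C \ U) ∧ ∀ A ∈ {A | ∃ u v, u.Countable ∧ ¬ Bad (T n) cl u v ∧ A = Z u v},
      ((C \ U) ∩ A).Nonempty := by
    refine ⟨hC.prop.1.sdiff hU, ?_⟩
    rintro A ⟨u, v, hu, h, rfl⟩
    obtain ⟨a, ha, b, _, g1, g2⟩ := good_split c3 hu h
    obtain ⟨p, p1, p2⟩ := hC.prop.2 _ ⟨_, _, hu.insert a, g1, rfl⟩
    obtain ⟨q, q1, q2⟩ := hC.prop.2 _ ⟨_, _, hu.insert b, g2, rfl⟩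
    have hpq := ha p (p2.1 a (mem_insert _ _)) q (q2.2 a (mem_insert _ _))
    by_cases c : p ∈ U
    · refine ⟨q, ⟨q1, fun c' => ?_⟩, fun γ hγ => q2.1 γ (mem_insert_of_mem _ hγ),
        fun γ hγ => q2.2 γ (mem_insert_of_mem _ hγ)⟩
      exact absurd (hd p ⟨c, p1⟩ q ⟨c', q1⟩) (not_lt.2 hpq)
    · exact ⟨p, ⟨p1, c⟩, fun γ hγ => p2.1 γ (mem_insert_of_mem _ hγ),
        fun γ hγ => p2.2 γ (mem_insert_of_mem _ hγ)⟩
  exact (hC.le_of_le key sdiff_subset hz.2).2 hz.1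

theorem no_copy {Γ : Type} (g : Set.Iic (Cardinal.aleph.{0} 2).ord → Γ → ℝ) (hg : Continuous g)
    (hi : Function.Injective g) (hs : ∀ x, #{γ | g x γ ≠ 0} ≤ ℵ₁) : False := by
  have e2 : (Cardinal.aleph.{0} 2) = ℵ_ (1 + 1) := by rw [one_add_one_eq_two]
  have hreg : (Cardinal.aleph.{0} 2).IsRegular := e2 ▸ isRegular_aleph_add_one 1
  have h12 : ℵ₁ < Cardinal.aleph.{0} 2 := aleph_lt_aleph.2 one_lt_two
  have hlim := isSuccLimit_ord hreg.aleph0_le
  have sup : ∀ {ι : Type} (f : ι → Ordinal.{0}), #ι ≤ ℵ₁ → (∀ i, f i < (Cardinal.aleph.{0} 2).ord) →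
      iSup f < (Cardinal.aleph.{0} 2).ord := fun f h1 h2 =>
    Ordinal.iSup_lt_of_lt_cof (by rw [hreg.cof_ord]; exact h1.trans_lt h12) h2
  generalize (Cardinal.aleph.{0} 2).ord = O at *
  let top : Set.Iic O := ⟨O, self_mem_Iic⟩
  have ev : ∀ γ, ∃ b < O, ∀ β : Set.Iic O, b < β.1 → g β γ = g top γ := by
    intro γ
    have : ∀ n : ℕ, ∃ b < O, ∀ β : Set.Iic O, b < β.1 →
        dist (g β γ) (g top γ) < 1 / ((n : ℝ) + 1) := by
      intro n
      have ho : IsOpen {β | dist (g β γ) (g top γ) < 1 / ((n : ℝ) + 1)} :=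
        isOpen_lt (((continuous_apply γ).comp hg).dist continuous_const) continuous_const
      obtain ⟨t, ht, ht2⟩ := (mem_nhds_subtype _ _ _).1 (ho.mem_nhds (x := top) (by
        simp only [mem_ofPred_eq, dist_self]; positivity))
      obtain ⟨l, hl, hl2⟩ := exists_Ioc_subset_of_mem_nhds ht ⟨0, hlim.bot_lt⟩
      exact ⟨l, hl, fun β hβ => ht2 (hl2 ⟨hβ, β.2⟩)⟩
    choose b h1 h2 using this
    refine ⟨iSup b, sup b (by simp) h1, fun β hβ => ?_⟩
    apply eq_of_forall_dist_le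
    intro ε hε
    obtain ⟨N, hN⟩ := exists_nat_one_div_lt hε
    exact ((h2 N β ((Ordinal.le_iSup b N).trans_lt hβ)).trans hN).le
  choose b b1 b2 using ev
  have : ∀ α : Set.Iic O, ∃ H < O, ∀ γ, g α γ ≠ 0 → b γ ≤ H := fun α =>
    ⟨⨆ γ : {γ | g α γ ≠ 0}, b γ, sup _ (hs α) fun γ => b1 γ, fun γ hγ =>
      Ordinal.le_iSup (fun γ : {γ | g α γ ≠ 0} => b γ) ⟨γ, hγ⟩⟩
  choose H H1 H2 using this
  let δ : ℕ → Set.Iio O := fun n => Nat.rec ⟨H top, H1 top⟩ (fun _ a =>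
    ⟨Order.succ (max a.1 (H ⟨a.1, Iio_subset_Iic_self a.2⟩)), hlim.succ_lt (max_lt a.2 (H1 _))⟩) n
  have d1 : ∀ n, (δ n).1 < (δ (n + 1)).1 := fun n =>
    (le_max_left _ _).trans_lt (Order.lt_succ _)
  have d2 : ∀ n, H ⟨(δ n).1, Iio_subset_Iic_self (δ n).2⟩ < (δ (n + 1)).1 := fun n =>
    (le_max_right _ _).trans_lt (Order.lt_succ _)
  have hL : (⨆ n, (δ n).1) < O := sup _ (by simp) fun n => (δ n).2
  let L : Set.Iic O := ⟨⨆ n, (δ n).1, mem_Iic.2 hL.le⟩
  have le : ∀ n, (δ n).1 ≤ L.1 := fun n => Ordinal.le_iSup (fun n => (δ n).1) n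
  have ht : Tendsto (fun n => (⟨(δ n).1, Iio_subset_Iic_self (δ n).2⟩ : Set.Iic O)) atTop (𝓝 L) := by
    rw [tendsto_subtype_rng]
    exact tendsto_atTop_ciSup (monotone_nat_of_le_succ fun n => (d1 n).le) ⟨_, by
      rintro _ ⟨n, rfl⟩; exact le n⟩
  have hne : g L ≠ g top := fun h => hL.ne (congrArg Subtype.val (hi h))
  obtain ⟨γ, hγ⟩ := Function.ne_iff.1 hne
  apply hγ
  apply b2
  by_cases c : g top γ = 0
  · rw [c] at hγ
    have := (((continuous_apply γ).comp hg).tendsto L).comp ht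
    obtain ⟨n, hn⟩ := (this.eventually_ne hγ).exists
    exact ((H2 _ γ hn).trans_lt (d2 n)).trans_le (le (n + 1))
  · exact ((H2 top γ c).trans_lt (d1 0)).trans_le (le 1)

end Pool.Agent.H17.Vald
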