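import Mathlib
import Pool.Agent.H17.Vald

set_option autoImplicit false

namespace Pool.Agent.H17.Vald

open Set Cardinal Filter Topology

theorem big_fiber {ι X : Type} (hι : #ι ≤ ℵ₁) {S : Set X} (hS : ℵ₁ < #S) (T : ι → Set X)
    (h : ∀ x ∈ S, ∃ i, x ∈ T i) : ∃ i, ℵ₁ < #(T i) := by
  by_contra c
  push Not at c
  obtain ⟨x, a, b⟩ := exists_not_mem hS (small_iUnion hι T c)
  exact b (mem_iUnion.2 (h x a))

theorem small_union {X : Type} {A B : Set X} (hA : #A ≤ ℵ₁) (hB : #B ≤ ℵ₁) :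
    #(A ∪ B : Set X) ≤ ℵ₁ :=
  (mk_union_le A B).trans ((add_le_add hA hB).trans (add_eq_self aleph0_lt_aleph_one.le).le)

theorem delta {X Γ : Type} (n : ℕ) : ∀ (H : X → Finset Γ) (S : Set X), ℵ₁ < #S →
    (∀ x ∈ S, (H x).card ≤ n) → ∃ (R : Finset Γ) (E : Set X), E ⊆ S ∧ ℵ₁ < #E ∧
      ∀ x ∈ E, ∀ y ∈ E, ∀ γ ∈ H x, γ ∈ H y → γ ∉ R → x = y := by
  classical
  induction n with
  | zero =>
    intro H S hS h
    refine ⟨∅, S, Subset.rfl, hS, fun x hx y _ γ hγ => ?_⟩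
    have := Finset.card_eq_zero.1 (Nat.le_zero.1 (h x hx))
    rw [this] at hγ; simp at hγ
  | succ n ih =>
    intro H S hS h
    by_cases c : ∃ γ, ℵ₁ < #{x | x ∈ S ∧ γ ∈ H x}
    · obtain ⟨γ, hγ⟩ := c
      obtain ⟨R, E, a, b, d⟩ := ih (fun x => (H x).erase γ) _ hγ (by
        rintro x ⟨h1, h2⟩
        have := h x h1
        rw [Finset.card_erase_of_mem h2]; omega)
      refine ⟨insert γ R, E, fun x hx => (a hx).1, b, fun x hx y hy z h1 h2 h3 => ?_⟩
      rw [Finset.mem_insert, not_or] at h3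
      exact d x hx y hy z (Finset.mem_erase.2 ⟨h3.1, h1⟩) (Finset.mem_erase.2 ⟨h3.1, h2⟩) h3.2
    · push Not at c
      obtain ⟨E, hE⟩ := zorn_subset {E : Set X | E ⊆ S ∧
        ∀ x ∈ E, ∀ y ∈ E, ∀ γ ∈ H x, γ ∈ H y → x = y} (by
          intro k hk hch
          refine ⟨⋃₀ k, ⟨sUnion_subset fun t ht => (hk ht).1, ?_⟩,
            fun s hs => subset_sUnion_of_mem hs⟩
          rintro x ⟨s, hs, hx⟩ y ⟨t, ht, hy⟩
          rcases hch.total hs ht with e | e
          · exact (hk ht).2 x (e hx) y hy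
          · exact (hk hs).2 x hx y (e hy))
      refine ⟨∅, E, hE.prop.1, ?_, fun x hx y hy γ h1 h2 _ => hE.prop.2 x hx y hy γ h1 h2⟩
      by_contra hs
      rw [not_lt] at hs
      have s1 : #(⋃ x : E, ((H x : Finset Γ) : Set Γ)) ≤ ℵ₁ :=
        small_iUnion hs _ fun x => small_of_countable (Finset.countable_toSet _)
      have s2 := small_iUnion s1 (fun γ => {x | x ∈ S ∧ γ.1 ∈ H x}) fun γ => c γ.1
      obtain ⟨x, h1, h2⟩ := exists_not_mem hS (small_union hs s2)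
      rw [mem_union, not_or] at h2
      have key : ∀ y ∈ E, ∀ γ ∈ H x, γ ∉ H y := fun y hy γ a b =>
        h2.2 (mem_iUnion.2 ⟨⟨γ, mem_iUnion.2 ⟨⟨y, hy⟩, b⟩⟩, h1, a⟩)
      apply h2.1
      refine hE.le_of_ge (y := insert x E) ⟨insert_subset h1 hE.prop.1, ?_⟩ (subset_insert _ _)
        (mem_insert _ _)
      rintro y (rfl | hy) z (rfl | hz) γ a b
      · rfl
      · exact absurd b (key z hz γ a)
      · exact absurd a (key y hy γ b)
      · exact hE.prop.2 y hy z hz γ a b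

theorem total_contra {X : Type} (ρ : X → X → Prop) (ht : ∀ x y, ρ x y ∨ ρ y x) {E : Set X}
    (hE : ℵ₁ < #E) (h : ∀ x ∈ E, {y | y ∈ E ∧ ρ x y}.Countable) : False := by
  obtain ⟨E0, a, b⟩ := le_mk_iff_exists_subset.1 hE.le
  obtain ⟨z, c, d⟩ := exists_not_mem hE (small_iUnion b.le (fun x : E0 => {y | y ∈ E ∧ ρ x y})
    fun x => small_of_countable (h x (a x.2)))
  have : E0 ⊆ {y | y ∈ E ∧ ρ z y} := fun x hx => ⟨a hx, (ht x z).resolve_left fun e =>
    d (mem_iUnion.2 ⟨⟨x, hx⟩, c, e⟩)⟩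
  exact absurd b ((cnt_iff E0).1 ((h z c).mono this)).ne

theorem approx {L Γ : Type} [TopologicalSpace L] (e : L → Γ → ℝ) (he : Continuous e) (D : Set L) :
    ∃ g : Finset Γ → Set L, (∀ F, (g F).Countable ∧ g F ⊆ D) ∧ ∀ x ∈ closure D, ∀ F, ∀ n : ℕ,
      ∃ p ∈ g F, ∀ γ ∈ F, dist (e p γ) (e x γ) < 1 / ((n : ℝ) + 1) := by
  have : ∀ F : Finset Γ, ∃ G : Set L, (G.Countable ∧ G ⊆ D) ∧ ∀ x ∈ closure D, ∀ n : ℕ,
      ∃ p ∈ G, ∀ γ ∈ F, dist (e p γ) (e x γ) < 1 / ((n : ℝ) + 1) := by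
    intro F
    let π : L → F → ℝ := fun y γ => e y γ
    have hπ : Continuous π := continuous_pi fun γ => (continuous_apply γ.1).comp he
    obtain ⟨t, h1, h2, h3⟩ := (TopologicalSpace.IsSeparable.of_separableSpace
      (π '' D)).exists_countable_dense_subset
    have : ∀ b : t, ∃ p ∈ D, π p = b.1 := fun b => h1 b.2
    choose q q1 q2 using this
    have := h2.to_subtype
    obtain ⟨G, g1, g2, g3⟩ : ∃ G ⊆ D, G.Countable ∧ t ⊆ π '' G :=
      ⟨range q, range_subset_iff.2 q1, countable_range q, fun b hb => ⟨_, ⟨⟨b, hb⟩, rfl⟩, q2 _⟩⟩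
    refine ⟨G, ⟨g2, g1⟩, fun x hx n => ?_⟩
    have a : π x ∈ closure t := closure_minimal h3 isClosed_closure
      (image_closure_subset_closure_image hπ ⟨x, hx, rfl⟩)
    obtain ⟨b, hb, hd⟩ := Metric.mem_closure_iff.1 a (1 / ((n : ℝ) + 1)) (by positivity)
    obtain ⟨p, hp, rfl⟩ := g3 hb
    refine ⟨p, hp, fun γ hγ => ?_⟩
    rw [dist_comm]
    exact (dist_le_pi_dist (π x) (π p) ⟨γ, hγ⟩).trans_lt hd
  choose g a b using this
  exact ⟨g, a, fun x hx F n => b F x hx n⟩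

theorem lim_pt {L Γ : Type} [TopologicalSpace L] [CompactSpace L] (e : L → Γ → ℝ)
    (he : Continuous e) (g : Finset Γ → Set L) (x : L) (A : Set Γ)
    (hA : ∀ F : Finset Γ, ↑F ⊆ A → ∀ p ∈ g F, ∀ γ, e p γ ≠ 0 → γ ∈ A)
    (hx : ∀ F, ∀ n : ℕ, ∃ p ∈ g F, ∀ γ ∈ F, dist (e p γ) (e x γ) < 1 / ((n : ℝ) + 1)) :
    ∃ y ∈ closure (⋃ F ∈ {F : Finset Γ | ↑F ⊆ A}, g F), e y = A.indicator (e x) := by
  classical
  choose p h1 h2 using hx
  have hcl : IsClosed (e '' closure (⋃ F ∈ {F : Finset Γ | ↑F ⊆ A}, g F)) :=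
    (isClosed_closure.isCompact.image he).isClosed
  have hsub : ∀ F : Finset Γ, ((F.filter (· ∈ A) : Finset Γ) : Set Γ) ⊆ A :=
    fun F z hz => (Finset.mem_filter.1 hz).2
  have ht : Tendsto (fun q : Finset Γ × ℕ => e (p (q.1.filter (· ∈ A)) q.2)) atTop
      (𝓝 (A.indicator (e x))) := by
    rw [tendsto_pi_nhds]
    intro γ
    by_cases hγ : γ ∈ A
    · rw [indicator_of_mem hγ, Metric.tendsto_nhds]
      intro ε hε
      obtain ⟨N, hN⟩ := exists_nat_one_div_lt hε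
      filter_upwards [eventually_ge_atTop (({γ} : Finset Γ), N)] with q hq
      refine (h2 _ _ γ (Finset.mem_filter.2 ⟨hq.1 (Finset.mem_singleton_self γ), hγ⟩)).trans_le
        (le_trans ?_ hN.le)
      exact Nat.one_div_le_one_div hq.2
    · rw [indicator_of_notMem hγ]
      refine tendsto_const_nhds.congr fun q => ?_
      by_contra hne
      exact hγ (hA _ (hsub q.1) _ (h1 _ q.2) γ fun h => hne h.symm)
  exact hcl.mem_of_tendsto ht (Eventually.of_forall fun q =>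
    mem_image_of_mem _ (subset_closure (mem_iUnion₂.2 ⟨_, hsub q.1, h1 _ _⟩)))

theorem fin_sep {L Γ : Type} [TopologicalSpace L] [CompactSpace L] (e : L → Γ → ℝ)
    (he : Continuous e) (hi : Function.Injective e) {V : Set L} (hV : IsClopen V) :
    ∃ H : Finset Γ, ∀ y ∈ V, ∀ z, (∀ γ ∈ H, e y γ = e z γ) → z ∈ V := by
  obtain ⟨H, hH⟩ := (hV.isClosed.isCompact.prod hV.compl.isClosed.isCompact).elim_finite_subfamily_closed
    (fun γ => {q : L × L | e q.1 γ = e q.2 γ})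
    (fun γ => isClosed_eq ((continuous_apply γ).comp (he.comp continuous_fst))
      ((continuous_apply γ).comp (he.comp continuous_snd)))
    (by
      rw [eq_empty_iff_forall_notMem]
      rintro ⟨y, z⟩ ⟨⟨a, b⟩, c⟩
      have : y = z := hi (funext fun γ => mem_iInter.1 c γ)
      exact b (this ▸ a))
  refine ⟨H, fun y hy z h => ?_⟩
  by_contra c
  have : (y, z) ∈ (V ×ˢ Vᶜ) ∩ ⋂ γ ∈ H, {q : L × L | e q.1 γ = e q.2 γ} :=
    ⟨⟨hy, c⟩, mem_iInter₂.2 h⟩
  rw [hH] at this; exact this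

theorem count_clopen {L Y : Type} [TopologicalSpace L] [CompactSpace L] [TopologicalSpace Y]
    [T2Space Y] [SecondCountableTopology Y] (π : L → Y) (hπ : Continuous π) :
    {W : Set L | IsClopen W ∧ ∀ y ∈ W, ∀ z, π y = π z → z ∈ W}.Countable := by
  have hb := TopologicalSpace.isBasis_countableBasis Y
  refine ((countable_ofPred_finite_subset (TopologicalSpace.countable_countableBasis Y)).image
    fun t => π ⁻¹' ⋃₀ t).mono ?_
  rintro W ⟨h1, h2⟩
  have c1 : IsCompact (π '' W) := h1.isClosed.isCompact.image hπ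
  have c2 : IsOpen (π '' Wᶜ)ᶜ := (h1.compl.isClosed.isCompact.image hπ).isClosed.isOpen_compl
  obtain ⟨t, t1, t2, t3⟩ := c1.elim_finite_subcover_image
    (b := {s | s ∈ TopologicalSpace.countableBasis Y ∧ s ⊆ (π '' Wᶜ)ᶜ}) (c := id)
    (fun s hs => hb.isOpen hs.1) (by
      rintro _ ⟨y, hy, rfl⟩
      obtain ⟨s, a, b, c⟩ := hb.exists_subset_of_mem_open (a := π y) (u := (π '' Wᶜ)ᶜ) (by
        rintro ⟨z, hz, h⟩
        exact hz (h2 y hy z h.symm)) c2
      exact mem_iUnion₂.2 ⟨s, ⟨a, c⟩, b⟩)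
  refine ⟨t, ⟨t2, fun s hs => (t1 hs).1⟩, ?_⟩
  ext y
  constructor
  · rintro ⟨s, hs, hy⟩
    by_contra c
    exact (t1 hs).2 hy ⟨y, c, rfl⟩
  · intro hy
    obtain ⟨s, a, b⟩ := mem_iUnion₂.1 (t3 ⟨y, hy, rfl⟩)
    exact ⟨s, a, b⟩

theorem retr {L Γ : Type} [TopologicalSpace L] [CompactSpace L] (e : L → Γ → ℝ)
    (he : IsEmbedding e) (hD : Dense {x | {γ | e x γ ≠ 0}.Countable}) :
    ∃ (cl : Set Γ → Set Γ) (r : Set Γ → L → L), Monotone cl ∧ (∀ u, u ⊆ cl u) ∧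
      (∀ u, u.Countable → (cl u).Countable) ∧ (∀ u, Continuous (r u)) ∧
      ∀ u x, e (r u x) = (cl u).indicator (e x) := by
  obtain ⟨g, g1, g2⟩ := approx e he.continuous {x | {γ | e x γ ≠ 0}.Countable}
  obtain ⟨cl, a, b, c, d⟩ := exists_cl (fun F => ⋃ p ∈ g F, {γ | e p γ ≠ 0})
    fun F => (g1 F).1.biUnion fun p hp => (g1 F).2 hp
  have : ∀ u x, ∃ y, e y = (cl u).indicator (e x) := by
    intro u x
    obtain ⟨y, _, h⟩ := lim_pt e he.continuous g x (cl u)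
      (fun F hF p hp γ hγ => d u F hF (mem_iUnion₂.2 ⟨p, hp, hγ⟩)) (g2 x (hD x))
    exact ⟨y, h⟩
  choose r hr using this
  refine ⟨cl, r, a, b, c, fun u => ?_, hr⟩
  rw [he.isInducing.continuous_iff]
  refine continuous_pi fun γ => ?_
  by_cases h : γ ∈ cl u
  · simp only [Function.comp, hr, indicator_of_mem h]
    exact (continuous_apply γ).comp he.continuous
  · simpa only [Function.comp, hr, indicator_of_notMem h] using continuous_const

theorem no_chain {L Γ X : Type} [TopologicalSpace L] [CompactSpace L] (e : L → Γ → ℝ)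
    (he : IsEmbedding e) (hD : Dense {x | {γ | e x γ ≠ 0}.Countable}) [LinearOrder X] {S : Set X}
    (hS : ℵ₁ < #S) (V : X → Set L) (hV : ∀ x ∈ S, IsClopen (V x))
    (mono : ∀ x ∈ S, ∀ y ∈ S, x < y → V x ⊂ V y) : False := by
  classical
  have : ∀ x, ∃ H : Finset Γ, x ∈ S → ∀ y ∈ V x, ∀ z, (∀ γ ∈ H, e y γ = e z γ) → z ∈ V x := by
    intro x
    by_cases c : x ∈ S
    · obtain ⟨H, h⟩ := fin_sep e he.continuous he.injective (hV x c)
      exact ⟨H, fun _ => h⟩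
    · exact ⟨∅, fun d => absurd d c⟩
  choose H hH using this
  obtain ⟨n, hn⟩ := big_fiber (ι := ℕ) (by simp) hS (fun n => {x | x ∈ S ∧ (H x).card ≤ n})
    fun x hx => ⟨_, hx, le_rfl⟩
  obtain ⟨R, E, hE1, hE2, hE3⟩ := delta n H _ hn fun x hx => hx.2
  have hES : ∀ x ∈ E, x ∈ S := fun x hx => (hE1 hx).1
  obtain ⟨cl, r, c1, c2, c3, c4, c5⟩ := retr e he hD
  have hN : (cl R).Countable := c3 _ R.countable_toSet
  have := hN.to_subtype
  let π : L → cl R → ℝ := fun y γ => e y γ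
  have hC := count_clopen π (continuous_pi fun γ => (continuous_apply γ.1).comp he.continuous)
  obtain ⟨⟨W, hW⟩, hE'⟩ := big_fiber (small_of_countable hC) hE2
    (fun W => {x | x ∈ E ∧ r R ⁻¹' V x = W.1}) (by
      intro x hx
      refine ⟨⟨r R ⁻¹' V x, (hV x (hES x hx)).preimage (c4 _), fun y hy z h => ?_⟩, hx, rfl⟩
      have : r R y = r R z := by
        apply he.injective
        rw [c5, c5]
        funext γ
        by_cases c : γ ∈ cl R
        · rw [indicator_of_mem c, indicator_of_mem c]; exact congrFun h ⟨γ, c⟩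
        · rw [indicator_of_notMem c, indicator_of_notMem c]
      show r R z ∈ V x
      rw [← this]; exact hy)
  simp only at hE'
  have mono' : ∀ x ∈ S, ∀ y ∈ S, x ≤ y → V x ⊆ V y := fun x hx y hy h => by
    rcases h.eq_or_lt with rfl | h
    · exact Subset.rfl
    · exact (mono x hx y hy h).subset
  have key : ∀ x' ∈ E, ∃ C : Set X, C.Countable ∧ ∀ x ∈ E, r R ⁻¹' V x = W → x ∉ C →
      (x ≤ x' → W ⊆ V x') ∧ (x' ≤ x → V x' ⊆ W) := by
    intro x' hx'
    have hA : (cl (↑R ∪ ↑(H x'))).Countable :=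
      c3 _ (R.countable_toSet.union (H x').countable_toSet)
    refine ⟨⋃ γ ∈ cl (↑R ∪ ↑(H x')), {x | x ∈ E ∧ γ ∈ H x ∧ γ ∉ R}, hA.biUnion fun γ _ =>
      Set.Subsingleton.countable fun a ha b hb => hE3 a ha.1 b hb.1 γ ha.2.1 hb.2.1 ha.2.2, ?_⟩
    intro x hx hW' hC
    have e1 : ∀ y, ∀ γ ∈ H x, e (r R y) γ = e (r (↑R ∪ ↑(H x')) y) γ := by
      intro y γ hγ
      rw [c5, c5]
      by_cases c : γ ∈ cl (↑R ∪ ↑(H x'))
      · have : γ ∈ R := by
          by_contra d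
          exact hC (mem_iUnion₂.2 ⟨γ, c, hx, hγ, d⟩)
        rw [indicator_of_mem c, indicator_of_mem (c2 _ (Finset.mem_coe.2 this))]
      · rw [indicator_of_notMem c, indicator_of_notMem fun d => c (c1 subset_union_left d)]
    have e2 : ∀ y, ∀ γ ∈ H x', e y γ = e (r (↑R ∪ ↑(H x')) y) γ := by
      intro y γ hγ
      rw [c5, indicator_of_mem (c2 _ (Or.inr (Finset.mem_coe.2 hγ)))]
    constructor
    · intro h y hy
      rw [← hW'] at hy
      exact hH x' (hES x' hx') _ (mono' x (hES x hx) x' (hES x' hx') h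
        (hH x (hES x hx) _ hy _ (e1 y))) _ fun γ hγ => (e2 y γ hγ).symm
    · intro h y hy
      rw [← hW']
      exact hH x (hES x hx) _ (mono' x' (hES x' hx') x (hES x hx) h
        (hH x' (hES x' hx') _ hy _ (e2 y))) _ fun γ hγ => (e1 y γ hγ).symm
  have s1 : #{x | (x ∈ E ∧ r R ⁻¹' V x = W) ∧ ¬ V x ⊆ W} ≤ ℵ₁ := by
    by_contra c
    refine total_contra (· ≤ ·) le_total (not_le.1 c) fun x' hx' => ?_
    obtain ⟨C, a, b⟩ := key x' hx'.1.1
    refine a.mono fun x hx => ?_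
    by_contra d
    exact hx'.2 ((b x hx.1.1.1 hx.1.1.2 d).2 hx.2)
  have s2 : #{x | (x ∈ E ∧ r R ⁻¹' V x = W) ∧ ¬ W ⊆ V x} ≤ ℵ₁ := by
    by_contra c
    refine total_contra (· ≥ ·) (fun x y => le_total y x) (not_le.1 c) fun x' hx' => ?_
    obtain ⟨C, a, b⟩ := key x' hx'.1.1
    refine a.mono fun x hx => ?_
    by_contra d
    exact hx'.2 ((b x hx.1.1.1 hx.1.1.2 d).1 hx.2)
  have s3 : #{x | x ∈ S ∧ V x = W} ≤ ℵ₁ := by
    refine small_of_countable (Set.Subsingleton.countable fun a ha b hb => ?_)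
    rcases lt_trichotomy a b with h | h | h
    · exact absurd (ha.2.trans hb.2.symm) (mono a ha.1 b hb.1 h).ne
    · exact h
    · exact absurd (hb.2.trans ha.2.symm) (mono b hb.1 a ha.1 h).ne
  obtain ⟨x, a, b⟩ := exists_not_mem hE' (small_union (small_union s1 s2) s3)
  simp only [mem_union, mem_ofPred_eq, not_or, not_and, not_not] at a b
  exact b.2 (hES x a.1) (Subset.antisymm (b.1.1 a) (b.1.2 a))

def Lft {K : Type} [LinearOrder K] (p : K) : Prop :=
  (∃ a, a < p) ∧ ∀ C ⊆ Iio p, C.Countable → ∃ a < p, ∀ c ∈ C, ¬ Ioo c p ⊆ Ioo a p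

theorem cg_of_not_lft {K : Type} [LinearOrder K] [TopologicalSpace K] [OrderTopology K] {p : K}
    (h : ¬ Lft p) : (𝓝[<] p).IsCountablyGenerated := by
  by_cases c : ∃ a, a < p
  · unfold Lft at h
    push Not at h
    obtain ⟨C, h1, h2, h3⟩ := h c
    have hb : (𝓝[<] p).HasBasis (· ∈ C) (Ioo · p) :=
      (nhdsLT_basis_of_exists_lt c).to_hasBasis h3 fun i hi => ⟨i, h1 hi, Subset.rfl⟩
    exact HasCountableBasis.isCountablyGenerated ⟨hb, h2⟩
  · have : Iio p = ∅ := eq_empty_iff_forall_notMem.2 fun a ha => c ⟨a, ha⟩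
    rw [this, nhdsWithin_empty]
    infer_instance

theorem lft_small {L Γ K : Type} [TopologicalSpace L] [CompactSpace L] (e : L → Γ → ℝ)
    (he : IsEmbedding e) (hD : Dense {x | {γ | e x γ ≠ 0}.Countable}) [LinearOrder K]
    [TopologicalSpace K] [OrderTopology K] (f : L → K) (hf : Continuous f)
    (hs : Function.Surjective f) : #{p : K | Lft p} ≤ ℵ₁ := by
  by_contra hS
  have dis : ∀ p, Lft p → ∀ x ∈ closure {d | {γ | e d γ ≠ 0}.Countable ∧ f d < p},
      x ∉ closure {d | {γ | e d γ ≠ 0}.Countable ∧ p ≤ f d} := by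
    intro p hp x h1 h2
    obtain ⟨g, g1, g2⟩ := approx e he.continuous {d | {γ | e d γ ≠ 0}.Countable ∧ f d < p}
    obtain ⟨k, k1, k2⟩ := approx e he.continuous {d | {γ | e d γ ≠ 0}.Countable ∧ p ≤ f d}
    obtain ⟨cl, _, _, c, d⟩ := exists_cl
      (fun F => (⋃ q ∈ g F, {γ | e q γ ≠ 0}) ∪ ⋃ q ∈ k F, {γ | e q γ ≠ 0}) fun F =>
        ((g1 F).1.biUnion fun q hq => ((g1 F).2 hq).1).union
          ((k1 F).1.biUnion fun q hq => ((k1 F).2 hq).1)
    obtain ⟨y, y1, y2⟩ := lim_pt e he.continuous g x (cl ∅)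
      (fun F hF q hq γ hγ => d ∅ F hF (Or.inl (mem_iUnion₂.2 ⟨q, hq, hγ⟩))) (g2 x h1)
    obtain ⟨z, z1, z2⟩ := lim_pt e he.continuous k x (cl ∅)
      (fun F hF q hq γ hγ => d ∅ F hF (Or.inr (mem_iUnion₂.2 ⟨q, hq, hγ⟩))) (k2 x h2)
    have yz : y = z := he.injective (y2.trans z2.symm)
    subst yz
    have hF : {F : Finset Γ | ↑F ⊆ cl ∅}.Countable :=
      (countable_ofPred_finite_subset (c ∅ countable_empty)).preimage_of_injOn
        (f := fun F : Finset Γ => (F : Set Γ)) (fun a _ b _ h => Finset.coe_injective h)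
        |>.mono fun F hF => And.intro F.finite_toSet hF
    obtain ⟨a, ha, hb⟩ := hp.2 (f '' ⋃ F ∈ {F : Finset Γ | ↑F ⊆ cl ∅}, g F) (by
      rintro _ ⟨q, hq, rfl⟩
      obtain ⟨F, _, hq⟩ := mem_iUnion₂.1 hq
      exact ((g1 F).2 hq).2) ((hF.biUnion fun F _ => (g1 F).1).image f)
    have u1 : f y ≤ a := closure_minimal (t := {y | f y ≤ a}) (fun q hq => by
      by_contra c'
      exact hb _ (mem_image_of_mem f hq) (Ioo_subset_Ioo_left (not_le.1 c').le))
      (isClosed_le hf continuous_const) y1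
    have u2 : p ≤ f y := closure_minimal (t := {y | p ≤ f y}) (fun q hq => by
      obtain ⟨F, _, hq⟩ := mem_iUnion₂.1 hq
      exact ((k1 F).2 hq).2) (isClosed_le continuous_const hf) z1
    exact absurd (u2.trans u1) (not_le.2 ha)
  refine no_chain e he hD (not_le.1 hS)
    (fun p => closure {d | {γ | e d γ ≠ 0}.Countable ∧ f d < p}) (fun p hp => ?_) ?_
  · refine ⟨isClosed_closure, ?_⟩
    have : closure {d | {γ | e d γ ≠ 0}.Countable ∧ f d < p} =
        (closure {d | {γ | e d γ ≠ 0}.Countable ∧ p ≤ f d})ᶜ := by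
      refine Subset.antisymm (dis p hp) fun x hx => ?_
      have : x ∈ closure ({d | {γ | e d γ ≠ 0}.Countable ∧ f d < p} ∪
          {d | {γ | e d γ ≠ 0}.Countable ∧ p ≤ f d}) := closure_mono (fun d hd =>
        (lt_or_ge (f d) p).imp (fun h => ⟨hd, h⟩) fun h => ⟨hd, h⟩) (hD x)
      rw [closure_union] at this
      exact this.resolve_right hx
    rw [this]
    exact isClosed_closure.isOpen_compl
  · intro p hp q hq h
    refine ⟨closure_mono fun d hd => ⟨hd.1, hd.2.trans h⟩, fun c => ?_⟩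
    obtain ⟨a, _, hb⟩ := hq.2 {p} (singleton_subset_iff.2 h) (countable_singleton p)
    obtain ⟨b, hb', _⟩ := not_subset.1 (hb p rfl)
    obtain ⟨y, rfl⟩ := hs b
    obtain ⟨d, d1, d2⟩ := hD.exists_mem_open (isOpen_Ioo.preimage hf) ⟨y, hb'⟩
    exact dis p hp d (c (subset_closure ⟨d1, d2.2⟩)) (subset_closure ⟨d1, d2.1.le⟩)

end Pool.Agent.H17.Vald
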