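import Mathlib
import Pool.Agent.H17.Vald2

set_option autoImplicit false

namespace Pool.Agent.H17.Vald

open Set Cardinal Filter Topology

theorem stab {X I : Type} [NormedAddCommGroup X] [NormedSpace ℝ X] (M : Set X)
    (hM : Dense ((Submodule.span ℝ M : Submodule ℝ X) : Set X)) (hI : ℵ₁ < #I) (x : I → X)
    {ε : ℝ} (hε : 0 < ε) : ∃ (E : Set I) (w : X), ℵ₁ < #E ∧ ∀ f : X →L[ℝ] ℝ,
      Set.Countable {m ∈ M | f m ≠ 0} → ‖f‖ ≤ 1 → ∃ B : Set I, B.Countable ∧
        ∀ a ∈ E, a ∉ B → |f (x a) - f w| ≤ 2 * ε := by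
  classical
  have : ∀ a, ∃ (c : X → ℝ) (H : Finset X), ↑H ⊆ M ∧ dist (x a) (∑ m ∈ H, c m • m) < ε := by
    intro a
    obtain ⟨y, hy, hd⟩ := hM.exists_dist_lt (x a) hε
    obtain ⟨c, H, h1, _, rfl⟩ := Submodule.mem_span_iff_exists_finset_subset.1 hy
    exact ⟨c, H, h1, hd⟩
  choose c H h1 h2 using this
  obtain ⟨n, hn⟩ := big_fiber (ι := ℕ) (S := univ) (by simp) (by rwa [mk_univ])
    (fun n => {a | (H a).card ≤ n}) fun a _ => ⟨_, le_refl (H a).card⟩
  obtain ⟨R, E, _, hE2, hE3⟩ := delta n H _ hn fun x hx => hx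
  obtain ⟨t, t1, t2⟩ := (R.countable_toSet.isSeparable.span (R := ℝ))
  obtain ⟨w, hw⟩ := big_fiber (small_of_countable t1) hE2
    (fun w => {a | a ∈ E ∧ dist (∑ m ∈ H a with m ∈ R, c a m • m) w.1 < ε}) (by
      intro a ha
      obtain ⟨w, a1, a2⟩ := Metric.mem_closure_iff.1 (t2 (show (∑ m ∈ H a with m ∈ R, c a m • m) ∈
        Submodule.span ℝ (R : Set X) from Submodule.sum_mem _ fun m hm => Submodule.smul_mem _ _
          (Submodule.subset_span (Finset.mem_filter.1 hm).2))) ε hε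
      exact ⟨⟨w, a1⟩, ha, a2⟩)
  refine ⟨_, w.1, hw, fun f f1 f2 => ⟨⋃ m ∈ {m ∈ M | f m ≠ 0}, {a | a ∈ E ∧ m ∈ H a ∧ m ∉ R},
    f1.biUnion fun m _ => Set.Subsingleton.countable fun a ha b hb =>
      hE3 a ha.1 b hb.1 m ha.2.1 hb.2.1 ha.2.2, fun a ha hb => ?_⟩⟩
  have e : f (∑ m ∈ H a, c a m • m) = f (∑ m ∈ H a with m ∈ R, c a m • m) := by
    rw [map_sum, map_sum, Finset.sum_filter]
    refine Finset.sum_congr rfl fun m hm => ?_
    split_ifs with d
    · rfl
    · have : f m = 0 := by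
        by_contra k
        exact hb (mem_iUnion₂.2 ⟨m, ⟨h1 a hm, k⟩, ha.1, hm, d⟩)
      simp [this]
  have lip : ∀ p q, |f p - f q| ≤ dist p q := by
    intro p q
    rw [← map_sub, dist_eq_norm]
    exact (f.le_opNorm _).trans (mul_le_of_le_one_left (norm_nonneg _) f2)
  have a1 := lip (x a) (∑ m ∈ H a, c a m • m)
  have a2 := lip (∑ m ∈ H a with m ∈ R, c a m • m) w.1
  have a3 := h2 a
  have a4 := ha.2
  rw [e] at a1
  rw [abs_le] at *
  constructor <;> linarith [a1.1, a1.2, a2.1, a2.2]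

abbrev II : Type := (Cardinal.aleph.{0} 2).ord.ToType

theorem gap {E : Set II} (hE : ℵ₁ < #E) (b : II) :
    ∃ b', b < b' ∧ ¬ (E ∩ Ioo b b').Countable := by
  by_contra c
  push Not at c
  have s1 : #(Iic b) ≤ ℵ₁ := by
    rw [← Iio_union_right]
    refine small_union ?_ (small_of_countable (countable_singleton b))
    have e : Cardinal.aleph.{0} 2 = Order.succ ℵ₁ := by rw [succ_aleph, one_add_one_eq_two]
    exact Order.lt_succ_iff.1 ((mk_Iio_toType_ord_lt b).trans_eq e)
  have s2 : ℵ₁ < #(E ∩ Ioi b : Set _) := by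
    by_contra d
    obtain ⟨y, y1, y2⟩ := exists_not_mem hE (small_union s1 (not_lt.1 d))
    exact y2 ((le_or_gt y b).imp id fun h => ⟨y1, h⟩)
  refine total_contra (· ≥ ·) (fun x y => le_total y x) s2 fun x hx => ?_
  refine ((c x hx.2).insert x).mono fun y hy => ?_
  exact (eq_or_lt_of_le hy.2).imp id fun h => ⟨hy.1.1, hy.1.2, h⟩

def Plichko (X : Type) [NormedAddCommGroup X] [NormedSpace ℝ X] : Prop :=
  ∃ M : Set X, Dense ((Submodule.span ℝ M : Submodule ℝ X) : Set X) ∧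
    ∃ c : ℝ, 0 < c ∧ ∀ x : X, ∃ f : X →L[ℝ] ℝ,
      Set.Countable {m ∈ M | f m ≠ 0} ∧ ‖f‖ ≤ 1 ∧ c * ‖x‖ ≤ |f x|

def Chain {X : Type} [NormedAddCommGroup X] (x : II → X) : Prop :=
  (∃ c > 0, ∀ β : ℕ → II, StrictMono β → ∀ n : ℕ,
    c * n ≤ ‖∑ i ∈ Finset.range n, (x (β (n + i)) - x (β i))‖) ∧
  ∀ δ > 0, ∃ n : ℕ, 0 < n ∧ ∀ α β : ℕ → II, (∀ i, β i ≤ α i) → (∀ i, α i ≤ β (i + 1)) →
    ‖∑ i ∈ Finset.range n, (x (α i) - x (β i))‖ ≤ δ * n

theorem Chain.map {X Y : Type} [NormedAddCommGroup X] [NormedAddCommGroup Y] [NormedSpace ℝ X]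
    [NormedSpace ℝ Y] {x : II → X} (h : Chain x) (T : X →L[ℝ] Y) {c : ℝ} (hc : 0 < c)
    (hT : ∀ g, c * ‖g‖ ≤ ‖T g‖) : Chain fun a => T (x a) := by
  obtain ⟨⟨c', hc', h1⟩, h2⟩ := h
  constructor
  · refine ⟨c * c', by positivity, fun β hβ n => ?_⟩
    simp only [← map_sub, ← map_sum]
    exact le_trans (by rw [mul_assoc]; exact mul_le_mul_of_nonneg_left (h1 β hβ n) hc.le) (hT _)
  · intro δ hδ
    obtain ⟨n, hn, h3⟩ := h2 (δ / (‖T‖ + 1)) (by positivity)
    refine ⟨n, hn, fun α β a b => ?_⟩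
    simp only [← map_sub, ← map_sum]
    refine (T.le_opNorm _).trans ((mul_le_mul (le_add_of_nonneg_right zero_le_one) (h3 α β a b)
      (norm_nonneg _) (by positivity)).trans_eq ?_)
    field_simp

theorem chain_contra {X : Type} [NormedAddCommGroup X] [NormedSpace ℝ X] (hX : Plichko X)
    {x : II → X} (hx : Chain x) : False := by
  obtain ⟨M, hM, c, hc, hN⟩ := hX
  obtain ⟨⟨c', hc', low⟩, up⟩ := hx
  have hI : ℵ₁ < #II := by
    rw [mk_ord_toType]; exact aleph_lt_aleph.2 one_lt_two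
  obtain ⟨E, w, hE, hf⟩ := stab M hM hI x (ε := c * c' / 8) (by positivity)
  choose nx n1 n2 using gap hE
  obtain ⟨b0, _⟩ := exists_not_mem hE (B := ∅) (by simp)
  let β : ℕ → II := fun i => nx^[i] b0
  have hβ : ∀ i, β (i + 1) = nx (β i) := fun i => Function.iterate_succ_apply' _ _ _
  have mβ : StrictMono β := strictMono_nat_of_lt_succ fun i => by rw [hβ]; exact n1 _
  obtain ⟨n, hn, up⟩ := up (c * c' / 8) (by positivity)
  obtain ⟨f, f1, f2, f3⟩ := hN (∑ i ∈ Finset.range n, (x (β (n + i)) - x (β i)))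
  obtain ⟨B, B1, B2⟩ := hf f f1 f2
  have : ∀ i, ∃ a ∈ E ∩ Ioo (β i) (β (i + 1)), a ∉ B := by
    intro i
    by_contra k
    push Not at k
    rw [hβ] at k
    exact n2 _ (B1.mono k)
  choose α a1 a2 using this
  have up' : ∀ k, |f (∑ i ∈ Finset.range n, (x (α (k + i)) - x (β (k + i))))| ≤ c * c' / 8 * n :=
    fun k => (f.le_opNorm _).trans ((mul_le_of_le_one_left (norm_nonneg _) f2).trans
      (up (fun i => α (k + i)) (fun i => β (k + i)) (fun i => (a1 _).2.1.le)
        (fun i => (a1 _).2.2.le)))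
  have mid : |∑ i ∈ Finset.range n, (f (x (α (n + i))) - f (x (α (0 + i))))| ≤
      n * (4 * (c * c' / 8)) := by
    refine (Finset.abs_sum_le_sum_abs _ _).trans ?_
    refine (Finset.sum_le_card_nsmul _ _ (4 * (c * c' / 8)) fun i _ => ?_).trans (by simp)
    have p := B2 _ (a1 (n + i)).1 (a2 _)
    have q := B2 _ (a1 (0 + i)).1 (a2 _)
    rw [abs_le] at *
    constructor <;> linarith [p.1, p.2, q.1, q.2]
  have u1 := up' n
  have u2 := up' 0
  have l3 := (mul_le_mul_of_nonneg_left (low β mβ n) hc.le).trans f3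
  simp only [map_sum, map_sub, Finset.sum_sub_distrib, zero_add] at u1 u2 l3 mid
  rw [abs_le] at u1 u2 mid
  have : 0 < c * c' * n := by positivity
  rcases le_abs.1 l3 with k | k <;> nlinarith [u1.1, u1.2, u2.1, u2.2, mid.1, mid.2]

theorem plichko_of_vald {K Γ : Type} [TopologicalSpace K] [CompactSpace K] [Nonempty K]
    (e : K → Γ → ℝ) (he : IsEmbedding e) (hD : Dense {x | {γ | e x γ ≠ 0}.Countable}) :
    Plichko C(K, ℝ) := by
  let co : Γ → C(K, ℝ) := fun γ => ⟨fun x => e x γ, (continuous_apply γ).comp he.continuous⟩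
  refine ⟨Submonoid.closure (range co), ?_, 1 / 2, by norm_num, fun g => ?_⟩
  · rw [← Algebra.adjoin_eq_span]
    have := ContinuousMap.subalgebra_topologicalClosure_eq_top_of_separatesPoints
      (Algebra.adjoin ℝ (range co)) (by
        intro x y hxy
        obtain ⟨γ, hγ⟩ := Function.ne_iff.1 (he.injective.ne hxy)
        exact ⟨_, ⟨co γ, Algebra.subset_adjoin ⟨γ, rfl⟩, rfl⟩, hγ⟩)
    intro g
    exact (show g ∈ (Algebra.adjoin ℝ (range co)).topologicalClosure from this ▸ trivial)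
  · have : ∃ d, {γ | e d γ ≠ 0}.Countable ∧ 1 / 2 * ‖g‖ ≤ |g d| := by
      rcases (norm_nonneg g).eq_or_lt with h | h
      · obtain ⟨d, hd⟩ := hD.nonempty
        exact ⟨d, hd, by rw [← h, mul_zero]; exact abs_nonneg _⟩
      · have : ∃ x, 1 / 2 * ‖g‖ < |g x| := by
          by_contra k
          push Not at k
          have := (ContinuousMap.norm_le g (by positivity)).2 k
          linarith
        obtain ⟨d, d1, d2⟩ := hD.exists_mem_open
          (isOpen_lt continuous_const g.continuous.abs) this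
        exact ⟨d, d1, le_of_lt d2⟩
    obtain ⟨d, d1, d2⟩ := this
    refine ⟨ContinuousMap.evalCLM ℝ d, ?_, ?_, d2⟩
    · have := d1.to_subtype
      refine (countable_range fun l : List {γ | e d γ ≠ 0} => (l.map fun γ => co γ.1).prod).mono ?_
      rintro m ⟨h1, h2⟩
      induction h1 using Submonoid.closure_induction with
      | mem y hy =>
        obtain ⟨γ, rfl⟩ := hy
        exact ⟨[⟨γ, h2⟩], by simp⟩
      | one => exact ⟨[], rfl⟩
      | mul y z _ _ iy iz =>
        obtain ⟨l, hl⟩ := iy (left_ne_zero_of_mul h2)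
        obtain ⟨l', hl'⟩ := iz (right_ne_zero_of_mul h2)
        exact ⟨l ++ l', by simp only [List.map_append, List.prod_append] at *; rw [hl, hl']⟩
    · exact ContinuousLinearMap.opNorm_le_bound _ zero_le_one fun g => by
        simpa using g.norm_coe_le_norm d

theorem sep_of_isometry {Z W : Type} [NormedAddCommGroup Z] [NormedSpace ℝ Z]
    [NormedAddCommGroup W] [NormedSpace ℝ W] (S : Z →ₗᵢ[ℝ] W)
    [TopologicalSpace.SeparableSpace (StrongDual ℝ W)] :
    TopologicalSpace.SeparableSpace (StrongDual ℝ Z) := by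
  refine DenseRange.separableSpace (f := fun ψ : StrongDual ℝ W =>
    ψ.comp S.toContinuousLinearMap) (Function.Surjective.denseRange fun φ => ?_) (by fun_prop)
  obtain ⟨ψ, h, _⟩ := exists_extension_norm_eq (LinearMap.range S.toLinearMap)
    (φ.comp S.equivRange.symm.toContinuousLinearEquiv.toContinuousLinearMap)
  refine ⟨ψ, ?_⟩
  ext z
  have := h (S.equivRange z)
  simpa using this

noncomputable def ind {L : Type} [TopologicalSpace L] {U : Set L} (hU : IsClopen U) : C(L, ℝ) :=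
  ⟨U.indicator 1, hU.continuous_indicator continuous_const⟩

theorem ind_in {L : Type} [TopologicalSpace L] {U : Set L} (hU : IsClopen U) {x : L} (h : x ∈ U) :
    ind hU x = 1 := indicator_of_mem h _

theorem ind_out {L : Type} [TopologicalSpace L] {U : Set L} (hU : IsClopen U) {x : L}
    (h : x ∉ U) : ind hU x = 0 := indicator_of_notMem h _

theorem norm_mul_ind {L : Type} [TopologicalSpace L] [CompactSpace L] {U : Set L}
    (hU : IsClopen U) (g : C(L, ℝ)) {r : ℝ} (hr : 0 ≤ r) (h : ∀ x ∈ U, |g x| ≤ r) :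
    ‖g * ind hU‖ ≤ r := by
  rw [ContinuousMap.norm_le _ hr]
  intro x
  by_cases c : x ∈ U
  · simpa [ind_in hU c] using h x c
  · simpa [ind_out hU c] using hr

theorem mul_ind_add {L : Type} [TopologicalSpace L] {U : Set L} (hU : IsClopen U) (g : C(L, ℝ)) :
    g = g * ind hU + g * ind hU.compl := by
  ext x
  by_cases c : x ∈ U
  · simp [ind_in hU c, ind_out hU.compl (fun d => d c)]
  · simp [ind_out hU c, ind_in hU.compl c]

theorem loc {L : Type} [TopologicalSpace L] [CompactSpace L] [T2Space L]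
    [TotallyDisconnectedSpace L] (φ : StrongDual ℝ C(L, ℝ)) (p : L) {ε : ℝ} (hε : 0 < ε) :
    ∃ (U : Set L) (a : ℝ), IsClopen U ∧ p ∈ U ∧ ∀ g : C(L, ℝ), (∀ x, x ∉ U → g x = 0) →
      |φ g - a * g p| ≤ ε * ‖g‖ := by
  let A : Set ℝ := {r | ∃ g : C(L, ℝ), ‖g‖ ≤ 1 ∧ (∃ V, IsClopen V ∧ p ∈ V ∧ ∀ x ∈ V, g x = 0) ∧
    r = φ g}
  have hb : BddAbove A := ⟨‖φ‖, by
    rintro _ ⟨g, h, _, rfl⟩
    exact (le_abs_self _).trans ((φ.le_opNorm g).trans (mul_le_of_le_one_right (norm_nonneg _) h))⟩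
  obtain ⟨_, ⟨g0, h0, ⟨U, hU, hp, h1⟩, rfl⟩, h2⟩ := exists_lt_of_lt_csSup (s := A)
    ⟨_, 0, by simp, ⟨univ, isClopen_univ, trivial, fun _ _ => rfl⟩, rfl⟩
    (show sSup A - ε / 2 < sSup A by linarith)
  have k1 : ∀ g : C(L, ℝ), ‖g‖ ≤ 1 → (∀ x, x ∉ U → g x = 0) →
      (∃ V, IsClopen V ∧ p ∈ V ∧ ∀ x ∈ V, g x = 0) → φ g ≤ ε / 2 := by
    rintro g a b ⟨V, v1, v2, v3⟩
    have : φ (g0 + g) ≤ sSup A := le_csSup hb ⟨g0 + g, by
      rw [ContinuousMap.norm_le _ zero_le_one]
      intro x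
      by_cases c : x ∈ U
      · simpa [h1 x c] using (g.norm_coe_le_norm x).trans a
      · simpa [b x c] using (g0.norm_coe_le_norm x).trans h0,
      ⟨U ∩ V, hU.inter v1, ⟨hp, v2⟩, fun x hx => by simp [h1 x hx.1, v3 x hx.2]⟩, rfl⟩
    rw [map_add] at this
    linarith
  have k2 : ∀ g : C(L, ℝ), ‖g‖ ≤ 1 → (∀ x, x ∉ U → g x = 0) → g p = 0 → φ g ≤ ε / 2 := by
    intro g a b c
    refine le_of_forall_pos_le_add fun δ hδ => ?_
    obtain ⟨V, v1, v2, v3⟩ := compact_exists_isClopen_in_isOpen (x := p)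
      (isOpen_lt g.continuous.abs (continuous_const (y := δ / (‖φ‖ + 1))))
      (by simp only [mem_ofPred_eq, c, abs_zero]; positivity)
    have e1 := k1 (g * ind v1.compl) (norm_mul_ind _ _ zero_le_one fun x _ =>
      (g.norm_coe_le_norm x).trans a) (fun x hx => by simp [b x hx])
      ⟨V, v1, v2, fun x hx => by simp [ind_out v1.compl (fun d => d hx)]⟩
    have e2 : φ (g * ind v1) ≤ δ := by
      refine (le_abs_self _).trans ((φ.le_opNorm _).trans ((mul_le_mul
        (le_add_of_nonneg_right zero_le_one) (norm_mul_ind v1 g (by positivity)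
          fun x hx => le_of_lt (v3 hx)) (norm_nonneg _) (by positivity)).trans_eq ?_))
      field_simp
    rw [mul_ind_add v1 g, map_add]
    linarith
  have k3 : ∀ g : C(L, ℝ), (∀ x, x ∉ U → g x = 0) → g p = 0 → |φ g| ≤ ε / 2 * ‖g‖ := by
    intro g b c
    rcases (norm_nonneg g).eq_or_lt with h | h
    · rw [norm_eq_zero.1 h.symm]; simp
    · have n1 : ‖‖g‖⁻¹ • g‖ ≤ 1 := by
        rw [norm_smul, norm_inv, norm_norm, inv_mul_cancel₀ h.ne']
      have a1 := k2 (‖g‖⁻¹ • g) n1 (fun x hx => by simp [b x hx]) (by simp [c])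
      have a2 := k2 (-(‖g‖⁻¹ • g)) (by rwa [norm_neg]) (fun x hx => by simp [b x hx])
        (by simp [c])
      rw [map_neg, map_smul, smul_eq_mul] at a2
      rw [map_smul, smul_eq_mul, inv_mul_le_iff₀ h] at a1
      rw [← mul_neg, inv_mul_le_iff₀ h] at a2
      rw [abs_le]; constructor <;> linarith
  refine ⟨U, φ (ind hU), hU, hp, fun g hg => ?_⟩
  have := k3 (g - g p • ind hU) (fun x hx => by simp [hg x hx, ind_out hU hx])
    (by simp [ind_in hU hp])
  rw [map_sub, map_smul, smul_eq_mul, mul_comm (g p)] at this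
  refine this.trans ?_
  have n2 : ‖g - g p • ind hU‖ ≤ 2 * ‖g‖ := by
    rw [ContinuousMap.norm_le _ (by positivity)]
    intro x
    have b1 := g.norm_coe_le_norm x
    have b2 := g.norm_coe_le_norm p
    by_cases c : x ∈ U
    · simp only [ContinuousMap.sub_apply, ContinuousMap.smul_apply, ind_in hU c, smul_eq_mul,
        mul_one]
      exact (norm_sub_le _ _).trans (by linarith)
    · simp [hg x c, ind_out hU c]
  nlinarith

theorem sep_dual (L : Type) [TopologicalSpace L] [CompactSpace L] [T2Space L] [Countable L]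
    [Nonempty L] : TopologicalSpace.SeparableSpace (StrongDual ℝ C(L, ℝ)) := by
  classical
  obtain ⟨p, hp⟩ := exists_surjective_nat L
  rw [← TopologicalSpace.isSeparable_univ_iff]
  refine ((countable_range fun k => (ContinuousMap.evalCLM ℝ (p k) : StrongDual ℝ C(L, ℝ))
    ).isSeparable.span (R := ℝ)).closure.mono fun φ _ => ?_
  refine (Metric.mem_closure_iff (α := StrongDual ℝ C(L, ℝ))).2 fun ε hε => ?_
  choose U a h1 h2 h3 using fun k => loc φ (p k) (ε := ε / 2 / 2 ^ (k + 1)) (by positivity)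
  have key : ∀ N : ℕ, ∃ c : ℕ → ℝ, ∀ g : C(L, ℝ), (∀ x, (∀ k < N, x ∉ U k) → g x = 0) →
      |φ g - ∑ k ∈ Finset.range N, c k * g (p k)| ≤ (ε / 2 - ε / 2 / 2 ^ N) * ‖g‖ := by
    intro N
    induction N with
    | zero =>
      refine ⟨0, fun g hg => ?_⟩
      have : g = 0 := ContinuousMap.ext fun x => hg x fun k hk => absurd hk (Nat.not_lt_zero k)
      simp [this]
    | succ N ih =>
      obtain ⟨c, hc⟩ := ih
      refine ⟨fun k => if k = N then a N else c k * ind (h1 N).compl (p k), fun g hg => ?_⟩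
      have b1 := h3 N (g * ind (h1 N)) fun x hx => by simp [ind_out _ hx]
      have b2 := hc (g * ind (h1 N).compl) (by
        intro x hx
        by_cases d : x ∈ U N
        · simp [ind_out (h1 N).compl (fun e => e d)]
        · have : g x = 0 := hg x fun k hk => by
            rcases Nat.lt_succ_iff_lt_or_eq.1 hk with h | rfl
            · exact hx k h
            · exact d
          simp [this])
      have n1 := norm_mul_ind (h1 N) g (norm_nonneg g) fun x _ => g.norm_coe_le_norm x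
      have n2 := norm_mul_ind (h1 N).compl g (norm_nonneg g) fun x _ => g.norm_coe_le_norm x
      have e1 : ∑ k ∈ Finset.range N, (if k = N then a N else c k * ind (h1 N).compl (p k)) * g (p k)
          = ∑ k ∈ Finset.range N, c k * (g * ind (h1 N).compl) (p k) :=
        Finset.sum_congr rfl fun k hk => by
          rw [if_neg (Finset.mem_range.1 hk).ne, ContinuousMap.mul_apply]; ring
      have e2 := congrArg φ (mul_ind_add (h1 N) g)
      rw [map_add] at e2
      rw [Finset.sum_range_succ, e1, e2]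
      simp only [if_true]
      rw [ContinuousMap.mul_apply, ind_in _ (h2 N), mul_one] at b1
      have p1 : 0 ≤ ε / 2 / 2 ^ (N + 1) := by positivity
      have p2 : 0 ≤ ε / 2 - ε / 2 / 2 ^ N := by
        rw [sub_nonneg]; exact div_le_self (by positivity) (one_le_pow₀ one_le_two)
      have p3 : ε / 2 / 2 ^ N = 2 * (ε / 2 / 2 ^ (N + 1)) := by rw [pow_succ]; field_simp
      have b3 := b1.trans (mul_le_mul_of_nonneg_left n1 p1)
      have b4 := b2.trans (mul_le_mul_of_nonneg_left n2 p2)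
      rw [p3] at b4
      rw [abs_le] at *
      constructor <;> nlinarith [b3.1, b3.2, b4.1, b4.2]
  obtain ⟨t, ht⟩ := isCompact_univ.elim_finite_subcover U (fun k => (h1 k).isOpen) fun x _ => by
    obtain ⟨k, rfl⟩ := hp x
    exact mem_iUnion.2 ⟨k, h2 k⟩
  obtain ⟨c, hc⟩ := key (t.sup id + 1)
  refine ⟨∑ k ∈ Finset.range (t.sup id + 1), c k • ContinuousMap.evalCLM ℝ (p k),
    Submodule.sum_mem _ fun k _ => Submodule.smul_mem _ _ (Submodule.subset_span ⟨k, rfl⟩), ?_⟩
  refine lt_of_le_of_lt ((dist_eq_norm (E := StrongDual ℝ C(L, ℝ)) _ _).trans_le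
    (ContinuousLinearMap.opNorm_le_bound _ (half_pos hε).le fun g => ?_)) (half_lt_self hε)
  have := hc g fun x hx => by
    obtain ⟨k, a, b⟩ := mem_iUnion₂.1 (ht (mem_univ x))
    exact absurd b (hx k (Nat.lt_succ_of_le (Finset.le_sup (f := id) a)))
  refine le_trans (le_of_eq ?_) (this.trans (mul_le_mul_of_nonneg_right
    (sub_le_self _ (by positivity)) (norm_nonneg _)))
  simp [ContinuousLinearMap.sum_apply]

end Pool.Agent.H17.Vald
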