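import Mathlib
import Pool.Agent.H17.Plich

set_option autoImplicit false

namespace Pool.Agent.H17.Vald

open Set Cardinal Filter Topology BoundedContinuousFunction

noncomputable def chi (a b : II) : ℝ := if a ≤ b then 1 else 0

noncomputable def SS (m : ℕ) (a b : ℕ → II) (x : II) : ℝ :=
  ∑ i ∈ Finset.range ((m + 1) ^ 2), (chi x (b i) - chi x (a i))

structure KJ where
  m : ℕ
  a : ℕ → II
  b : ℕ → II
  h : ∀ x, |SS m a b x| ≤ 1

instance : TopologicalSpace KJ := ⊥
instance : DiscreteTopology KJ := ⟨rfl⟩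

theorem val_le (k : KJ) (x : II) : |SS k.m k.a k.b x / (k.m + 1)| ≤ 1 / ((k.m : ℝ) + 1) := by
  rw [abs_div, abs_of_pos (a := (k.m : ℝ) + 1) (by positivity)]
  exact div_le_div_of_nonneg_right (k.h x) (by positivity)

theorem val_le_one (k : KJ) (x : II) : |SS k.m k.a k.b x / (k.m + 1)| ≤ 1 :=
  (val_le k x).trans (div_le_self zero_le_one (by linarith [Nat.cast_nonneg (α := ℝ) k.m]))

noncomputable def HJ (x : II) : KJ →ᵇ ℝ :=
  ofNormedAddCommGroupDiscrete (fun k => SS k.m k.a k.b x / (k.m + 1)) 1 fun k => val_le_one k x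

noncomputable def XS : Submodule ℝ (KJ →ᵇ ℝ) := (Submodule.span ℝ (range HJ)).topologicalClosure

def XJ : Type := XS

noncomputable instance : NormedAddCommGroup XJ := inferInstanceAs (NormedAddCommGroup XS)
noncomputable instance : NormedSpace ℝ XJ := inferInstanceAs (NormedSpace ℝ XS)

instance : CompleteSpace XJ := (Submodule.isClosed_topologicalClosure _).completeSpace_coe

noncomputable def vv : XJ →ₗᵢ[ℝ] (KJ →ᵇ ℝ) := XS.subtypeₗᵢ

theorem vv_mem (g : XJ) : vv g ∈ XS := g.2

noncomputable def kk (a b : II) : KJ := ⟨0, fun _ => a, fun _ => b, fun x => by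
  simp only [SS, chi, zero_add, one_pow, Finset.range_one, Finset.sum_singleton]
  split_ifs <;> norm_num⟩

noncomputable def ev (k : KJ) : StrongDual ℝ XJ := (evalCLM ℝ k).comp vv.toContinuousLinearMap

theorem ev_apply (k : KJ) (g : XJ) : ev k g = vv g k := rfl

theorem ev_norm (k : KJ) : ‖ev k‖ ≤ 1 :=
  ContinuousLinearMap.opNorm_le_bound _ zero_le_one fun g => by
    rw [one_mul, ← vv.norm_map]; exact (vv g).norm_coe_le_norm k

theorem chi_mono {a b : II} (h : a ≤ b) (t : II) : chi t a ≤ chi t b := by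
  unfold chi
  split_ifs with h1 h2
  · rfl
  · exact absurd (h1.trans h) h2
  · norm_num
  · rfl

theorem chi_bd (a t : II) : 0 ≤ chi t a ∧ chi t a ≤ 1 := by
  unfold chi; split_ifs <;> norm_num

theorem chainJ (a0 : II) : Chain fun b => ev (kk a0 b) := by
  constructor
  · refine ⟨1, one_pos, fun β hβ n => ?_⟩
    let g : XJ := ⟨HJ (β n), Submodule.le_topologicalClosure _ (Submodule.subset_span ⟨_, rfl⟩)⟩
    have hg : ‖g‖ ≤ 1 := by
      rw [← vv.norm_map]; exact (norm_le zero_le_one).2 fun k => val_le_one k _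
    have hv : vv g = HJ (β n) := rfl
    refine le_trans ?_ (((∑ i ∈ Finset.range n, (ev (kk a0 (β (n + i))) -
      ev (kk a0 (β i)))).le_opNorm g).trans (mul_le_of_le_one_right (norm_nonneg _) hg))
    rw [_root_.sum_apply, Finset.sum_congr rfl (g := fun _ => (1 : ℝ))]
    · simp
    · intro i hi
      have h1 : β n ≤ β (n + i) := hβ.monotone (Nat.le_add_right n i)
      have h2 : ¬ β n ≤ β i := not_le.2 (hβ (Finset.mem_range.1 hi))
      simp [ev_apply, hv, HJ, kk, SS, chi, h1, h2]
  · intro δ hδ
    obtain ⟨m, hm⟩ := exists_nat_one_div_lt hδ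
    refine ⟨(m + 1) ^ 2, by positivity, fun α β h1 h2 => ?_⟩
    have bd : ∀ n t, 0 ≤ ∑ i ∈ Finset.range n, (chi t (α i) - chi t (β i)) ∧
        ∑ i ∈ Finset.range n, (chi t (α i) - chi t (β i)) ≤ chi t (β n) - chi t (β 0) := by
      intro n t
      induction n with
      | zero => simp
      | succ n ih =>
        rw [Finset.sum_range_succ]
        have := chi_mono (h1 n) t
        have := chi_mono (h2 n) t
        constructor <;> linarith [ih.1, ih.2]
    let k : KJ := ⟨m, β, α, fun t => by
      rw [abs_le]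
      have := bd ((m + 1) ^ 2) t
      constructor <;> unfold SS <;>
        linarith [this.1, this.2, chi_bd (β ((m + 1) ^ 2)) t, chi_bd (β 0) t]⟩
    have e : ∑ i ∈ Finset.range ((m + 1) ^ 2), (ev (kk a0 (α i)) - ev (kk a0 (β i))) =
        ((m : ℝ) + 1) • ev k := by
      let φ : (KJ →ᵇ ℝ) →L[ℝ] ℝ := ∑ i ∈ Finset.range ((m + 1) ^ 2),
        (evalCLM ℝ (kk a0 (α i)) - evalCLM ℝ (kk a0 (β i))) - ((m : ℝ) + 1) • evalCLM ℝ k
      have : XS ≤ LinearMap.ker φ.toLinearMap := by
        refine Submodule.topologicalClosure_minimal _ (Submodule.span_le.2 ?_) φ.isClosed_ker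
        rintro _ ⟨x, rfl⟩
        have : (m : ℝ) + 1 ≠ 0 := by positivity
        simp [φ, _root_.sum_apply, HJ, kk, k, SS, mul_div_cancel₀ _ this]
      ext g
      have := this (vv_mem g)
      simpa [φ, ev_apply, _root_.sum_apply, sub_eq_zero] using this
    rw [e, norm_smul, Real.norm_eq_abs, abs_of_pos (by positivity)]
    refine (mul_le_of_le_one_right (by positivity) (ev_norm k)).trans ?_
    rw [div_lt_iff₀ (by positivity)] at hm
    push_cast
    nlinarith [Nat.cast_nonneg (α := ℝ) m]

theorem cuts (C : Set II) (hC : C.Countable) : ∃ Q : Set (C → ℝ), IsCompact Q ∧ Q.Countable ∧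
    ∀ b, (fun x : C => chi x b) ∈ Q := by
  classical
  have := hC.to_subtype
  refine ⟨{u | (∀ x, u x = 0 ∨ u x = 1) ∧ ∀ x y, x ≤ y → u y ≤ u x}, ?_, ?_, fun b => ⟨?_, ?_⟩⟩
  · refine (isCompact_univ_pi fun _ : C => isCompact_Icc (a := (0 : ℝ)) (b := 1)).of_isClosed_subset
      (IsClosed.inter ?_ ?_) ?_
    · have : IsClosed (⋂ x : C, {u : C → ℝ | u x = 0 ∨ u x = 1}) := isClosed_iInter (fun x =>
        (isClosed_eq (continuous_apply x) continuous_const).union
          (isClosed_eq (continuous_apply x) continuous_const))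
      rwa [← ofPred_forall] at this
    · have : IsClosed (⋂ x : C, ⋂ y : C, ⋂ _ : x ≤ y, {u : C → ℝ | u y ≤ u x}) :=
        isClosed_iInter fun x => isClosed_iInter fun y => isClosed_iInter fun _ =>
          isClosed_le (continuous_apply y) (continuous_apply x)
      simp only [← ofPred_forall] at this
      exact this
    · rintro u ⟨h, _⟩ x _
      rcases h x with e | e <;> simp [e]
  · refine ((countable_range fun y : C => fun x : C => if x < y then (1 : ℝ) else 0).insert
      (fun _ => 1)).mono ?_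
    rintro u ⟨h1, h2⟩
    by_cases c : ∃ y, u y = 0
    · right
      obtain ⟨y, hy, hmin⟩ := wellFounded_lt.has_min {y | u y = 0} c
      refine ⟨y, funext fun x => ?_⟩
      by_cases d : x < y
      · simp only [if_pos d]
        exact ((h1 x).resolve_left fun e => hmin x e d).symm
      · simp only [if_neg d]
        have := h2 y x (not_lt.1 d)
        rw [show u y = 0 from hy] at this
        rcases h1 x with e | e
        · exact e.symm
        · linarith
    · left
      exact funext fun x => (h1 x).resolve_left fun e => c ⟨x, e⟩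
  · intro x; simp only [chi]; split_ifs <;> simp
  · intro x y h
    simp only [chi]
    split_ifs with h1 h2
    · rfl
    · exact absurd (le_trans (show x.1 ≤ y.1 from h) h1) h2
    · norm_num
    · rfl

theorem sums {Y : Type} [TopologicalSpace Y] [AddCommGroup Y] [IsTopologicalAddGroup Y] {Q : Set Y}
    (h1 : IsCompact Q) (h2 : Q.Countable) (n : ℕ) : ∃ P : Set Y, IsCompact P ∧ P.Countable ∧
      ∀ u v : ℕ → Y, (∀ i, u i ∈ Q) → (∀ i, v i ∈ Q) → ∑ i ∈ Finset.range n, (u i - v i) ∈ P := by
  induction n with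
  | zero => exact ⟨{0}, isCompact_singleton, countable_singleton _, fun _ _ _ _ => by simp⟩
  | succ n ih =>
    obtain ⟨P, a, b, c⟩ := ih
    refine ⟨(fun q : Y × Y × Y => q.1 + (q.2.1 - q.2.2)) '' (P ×ˢ Q ×ˢ Q),
      (a.prod (h1.prod h1)).image (by fun_prop), (b.prod (h2.prod h2)).image _, fun u v hu hv => ?_⟩
    rw [Finset.sum_range_succ]
    exact ⟨(_, u n, v n), ⟨c u v hu hv, hu n, hv n⟩, rfl⟩

theorem trace (C : Set II) (hC : C.Countable) :
    IsCompact (closure (range fun k : KJ => fun x : C => HJ x k)) ∧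
      (closure (range fun k : KJ => fun x : C => HJ x k)).Countable := by
  constructor
  · refine (isCompact_univ_pi fun _ : C => isCompact_Icc (a := (-1 : ℝ)) (b := 1)).closure_of_subset
      ?_
    rintro _ ⟨k, rfl⟩ x _
    exact abs_le.1 (val_le_one k x)
  · obtain ⟨Q, q1, q2, q3⟩ := cuts C hC
    choose P p1 p2 p3 using sums q1 q2
    let P' : ℕ → Set (C → ℝ) := fun m => (fun u x => u x / (m + 1)) '' P ((m + 1) ^ 2)
    refine ((countable_iUnion fun m => ((p2 _).image _ : (P' m).Countable)).insert 0).mono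
      fun u hu => ?_
    by_cases c : u = 0
    · exact Or.inl c
    · right
      obtain ⟨x, hx⟩ := Function.ne_iff.1 c
      obtain ⟨N, hN⟩ := exists_nat_one_div_lt (abs_pos.2 hx)
      have cl : IsClosed ((⋃ m ∈ Finset.range N, P' m) ∪ {v | |v x| ≤ 1 / ((N : ℝ) + 1)}) :=
        (isClosed_biUnion_finset fun m _ => ((p1 _).image (by fun_prop)).isClosed).union
          (isClosed_le (continuous_apply x).abs continuous_const)
      have := closure_minimal (by
        rintro _ ⟨k, rfl⟩
        by_cases d : k.m < N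
        · refine Or.inl (mem_iUnion₂.2 ⟨k.m, Finset.mem_range.2 d, _,
            p3 _ _ _ (fun i => q3 (k.b i)) (fun i => q3 (k.a i)), ?_⟩)
          funext y
          simp [HJ, SS]
        · exact Or.inr ((val_le k x).trans (Nat.one_div_le_one_div (not_lt.1 d)))) cl hu
      rcases this with h | h
      · obtain ⟨m, _, h⟩ := mem_iUnion₂.1 h
        exact mem_iUnion.2 ⟨m, h⟩
      · exact absurd hN (not_lt.2 h)

theorem asplundJ (Z : Submodule ℝ XJ) (hZ : TopologicalSpace.SeparableSpace Z) :
    TopologicalSpace.SeparableSpace (StrongDual ℝ Z) := by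
  have h1 : ∀ g : XJ, ∃ C : Set II, C.Countable ∧
      vv g ∈ closure (Submodule.span ℝ (HJ '' C) : Set (KJ →ᵇ ℝ)) := by
    intro g
    obtain ⟨s, s1, s2⟩ := mem_closure_iff_seq_limit.1 (vv_mem g)
    have : ∀ n, ∃ F : Set II, F.Finite ∧ s n ∈ Submodule.span ℝ (HJ '' F) := by
      intro n
      obtain ⟨T, t1, t2⟩ := Submodule.mem_span_finite_of_mem_span (s1 n)
      rw [← image_univ] at t1
      obtain ⟨F, _, f2, f3⟩ := Finite.exists_subset_finite_image_eq T.finite_toSet t1
      exact ⟨F, f2, f3 ▸ t2⟩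
    choose F f1 f2 using this
    exact ⟨⋃ n, F n, countable_iUnion fun n => (f1 n).countable, mem_closure_of_tendsto s2
      (Eventually.of_forall fun n => Submodule.span_mono (image_mono (subset_iUnion F n)) (f2 n))⟩
  choose C c1 c2 using h1
  obtain ⟨t, t1, t2⟩ := TopologicalSpace.exists_countable_dense Z
  let D : Set II := ⋃ z ∈ t, C z.1
  have hD : D.Countable := t1.biUnion fun z _ => c1 _
  obtain ⟨l1, l2⟩ := trace D hD
  set L := closure (range fun k : KJ => fun x : D => HJ x k)
  have : CompactSpace L := isCompact_iff_compactSpace.1 l1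
  have := l2.to_subtype
  obtain ⟨a0, _⟩ := exists_not_mem (S := (univ : Set II)) (B := ∅) (by
    rw [mk_univ, mk_ord_toType]; exact aleph_lt_aleph.2 one_lt_two) (by simp)
  let π : KJ → L := fun k => ⟨_, subset_closure ⟨k, rfl⟩⟩
  have : Nonempty L := ⟨π (kk a0 a0)⟩
  have hπ : DenseRange π := by
    intro x
    rw [closure_subtype, ← range_comp]
    exact x.2
  let T : C(L, ℝ) →ₗᵢ[ℝ] (KJ →ᵇ ℝ) :=
    { toFun := fun g => ofNormedAddCommGroupDiscrete (fun k => g (π k)) ‖g‖
        fun k => g.norm_coe_le_norm _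
      map_add' := fun _ _ => rfl
      map_smul' := fun _ _ => rfl
      norm_map' := fun g => le_antisymm ((norm_le (norm_nonneg _)).2 fun k => g.norm_coe_le_norm _)
        ((ContinuousMap.norm_le _ (norm_nonneg _)).2 fun x => hπ.induction_on x
          (isClosed_le g.continuous.norm continuous_const) fun k =>
            (ofNormedAddCommGroupDiscrete (fun k => g (π k)) ‖g‖
              fun k => g.norm_coe_le_norm _).norm_coe_le_norm k) }
  have hT : IsClosed (LinearMap.range T.toLinearMap : Set (KJ →ᵇ ℝ)) :=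
    T.isometry.isClosedEmbedding.isClosed_range
  have sub : ∀ z : Z, vv z.1 ∈ LinearMap.range T.toLinearMap := by
    intro z
    refine closure_minimal (t := {z : Z | vv z.1 ∈ LinearMap.range T.toLinearMap})
      (fun y hy => ?_) (hT.preimage (vv.continuous.comp continuous_subtype_val)) (t2 z)
    refine closure_minimal (fun w hw => (Submodule.span_le.2 ?_) hw) hT (c2 y.1)
    rintro _ ⟨x, hx, rfl⟩
    exact ⟨⟨fun u => u.1 ⟨x, mem_iUnion₂.2 ⟨y, hy, hx⟩⟩,
      (continuous_apply _).comp continuous_subtype_val⟩, rfl⟩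
  have := sep_dual L
  choose S hS using sub
  have hS' : ∀ z, T (S z) = vv z.1 := hS
  exact sep_of_isometry (W := C(L, ℝ))
    { toFun := S
      map_add' := fun _ _ => T.injective (by simp [hS'])
      map_smul' := fun _ _ => T.injective (by simp [hS'])
      norm_map' := fun z => by
        show ‖S z‖ = _
        rw [← T.norm_map, hS', vv.norm_map]; rfl }

end Pool.Agent.H17.Vald
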