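import Mathlib

/-! Minimal topological groups: a closed graph lemma. -/

namespace Pool.Agent.H17.Min

open Set Filter Topology

/-- No Hausdorff group topology is strictly coarser than the given one. -/
def IsMinimal (G : Type*) [Group G] [t : TopologicalSpace G] : Prop :=
  ∀ s : TopologicalSpace G, @IsTopologicalGroup G s _ → @T2Space G s → t ≤ s → s = t

/-- All quotients by closed normal subgroups are minimal. -/
def IsTotallyMinimal (G : Type*) [Group G] [TopologicalSpace G] : Prop :=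
  ∀ (N : Subgroup G) [N.Normal], IsClosed (N : Set G) → IsMinimal (G ⧸ N)

lemma closedGraph {B Γ : Type*} [CommGroup B] [t : TopologicalSpace B] [IsTopologicalGroup B]
    (hB : IsMinimal B) [Group Γ] [TopologicalSpace Γ] [IsTopologicalGroup Γ] (ψ : Γ →* B)
    (h : IsClosed {z : Γ × B | ψ z.1 = z.2}) : Continuous ψ := by
  let φ : Γ × B →* B := MonoidHom.coprod ψ⁻¹ (MonoidHom.id B)
  have hφ : ∀ z, φ z = (ψ z.1)⁻¹ * z.2 := fun z => rfl
  have hk : IsClosed (φ.ker : Set (Γ × B)) := by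
    convert h using 1
    ext z
    simp [hφ, inv_mul_eq_one]
  let j : B →* (Γ × B) ⧸ φ.ker := (QuotientGroup.mk' φ.ker).comp (MonoidHom.inr Γ B)
  have hj : ∀ b, j b = QuotientGroup.mk (1, b) := fun b => rfl
  have hc : Continuous j := QuotientGroup.continuous_mk.comp (Continuous.prodMk_right 1)
  have hi : Function.Injective j := (injective_iff_map_eq_one j).2 fun b hb => by
    simpa [hj, QuotientGroup.eq_one_iff, hφ] using hb
  have e := hB (TopologicalSpace.induced j inferInstance) (topologicalGroup_induced j)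
    (@IsEmbedding.t2Space _ _ (TopologicalSpace.induced j inferInstance) _ _ j
      (hi.isEmbedding_induced)) (continuous_iff_le_induced.1 hc)
  have hj' : IsInducing j := ⟨e.symm⟩
  rw [hj'.continuous_iff]
  have : j ∘ ψ = fun g => QuotientGroup.mk (g⁻¹, 1) := funext fun g => by
    simp [hj, QuotientGroup.eq, hφ]
  rw [this]
  exact QuotientGroup.continuous_mk.comp (by fun_prop)

lemma main {A K B Γ : Type*} [CommGroup A] [TopologicalSpace A] [Group K] [TopologicalSpace K]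
    [CompactSpace K] [CommGroup B] [TopologicalSpace B] [IsTopologicalGroup B]
    (hB : IsMinimal B) [Group Γ] [TopologicalSpace Γ] [IsTopologicalGroup Γ] [T2Space Γ]
    (H : Subgroup (A × K)) (hH : IsClosed (H : Set (A × K))) (π : H →* Γ) (hπ : Continuous π)
    (hs : Function.Surjective π) (μ : A →* B) (hμ : IsOpenQuotientMap μ) (ψ : Γ →* B)
    (h1 : ∀ h : H, ψ (π h) = μ h.1.1) (h2 : ∀ a, μ a = 1 → ∃ n : H, π n = 1 ∧ n.1.1 = a)
    {O : Set H} (hO : IsOpen O) (hO' : ∀ h, π h = 1 → h ∈ O) : π '' O ∈ 𝓝 (1 : Γ) := by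
  have hZ : ∀ C : Set H, IsClosed C →
      IsClosed {z : Γ × A | ∃ h ∈ C, h.1.1 = z.2 ∧ π h = z.1} := by
    intro C hC
    have e1 : IsClosed {z : Γ × H | z.2 ∈ C ∧ π z.2 = z.1} :=
      (hC.preimage continuous_snd).inter (isClosed_eq (hπ.comp continuous_snd) continuous_fst)
    have e2 := (IsClosedEmbedding.id.prodMap hH.isClosedEmbedding_subtypeVal).isClosedMap _ e1
    have e3 := isClosedMap_fst_of_compactSpace _
      (e2.preimage (Homeomorph.prodAssoc Γ A K).continuous)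
    convert e3 using 1
    ext z
    constructor
    · rintro ⟨h, hh, e, e'⟩
      exact ⟨(z, h.1.2), ⟨(z.1, h), ⟨hh, e'⟩, Prod.ext rfl (Prod.ext e rfl)⟩, rfl⟩
    · rintro ⟨w, ⟨y, ⟨hy, hy'⟩, e⟩, rfl⟩
      exact ⟨y.2, hy, congrArg (fun x => x.2.1) e, hy'.trans (congrArg Prod.fst e)⟩
  have h3 : ∀ x a, ψ x = μ a → ∃ h : H, h.1.1 = a ∧ π h = x := by
    intro x a e
    obtain ⟨h, rfl⟩ := hs x
    obtain ⟨n, e1, e2⟩ := h2 (h.1.1⁻¹ * a) (by rw [map_mul, map_inv, ← h1, e, inv_mul_cancel])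
    exact ⟨h * n, by simp [e2], by simp [e1]⟩
  have hψ : Continuous ψ := by
    refine closedGraph hB ψ
      ((IsOpenQuotientMap.id.prodMap hμ).isQuotientMap.isClosed_preimage.1 ?_)
    convert hZ univ isClosed_univ using 1
    ext z
    refine ⟨fun e => ?_, fun ⟨h, _, e, e'⟩ => ?_⟩
    · obtain ⟨h, e1, e2⟩ := h3 z.1 z.2 e
      exact ⟨h, trivial, e1, e2⟩
    · show ψ z.1 = μ z.2
      rw [← e, ← e', h1]
  have h4 := (hZ Oᶜ hO.isClosed_compl).isOpen_compl.mem_nhds
    (show ((1 : Γ), (1 : A)) ∉ _ from fun ⟨h, hh, _, e'⟩ => hh (hO' h e'))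
  obtain ⟨U, hU, V, hV, hUV⟩ := mem_nhds_prod_iff.1 h4
  have h5 : ψ ⁻¹' (μ '' V) ∈ 𝓝 (1 : Γ) := hψ.continuousAt.preimage_mem_nhds (by
    rw [map_one, ← map_one μ]; exact hμ.isOpenMap.image_mem_nhds hV)
  filter_upwards [hU, h5] with x hx ⟨a, ha, e⟩
  obtain ⟨h, e1, e2⟩ := h3 x a e.symm
  exact ⟨h, by_contra fun hh => hUV (mk_mem_prod hx ha) ⟨h, hh, e1, e2⟩, e2⟩

lemma finish {H Γ : Type*} [Group H] [TopologicalSpace H] [Group Γ] (s : TopologicalSpace Γ)
    (hs : @IsTopologicalGroup Γ s _) [t : TopologicalSpace Γ]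
    [g : IsTopologicalGroup Γ] (π : H →* Γ) (hπ : Continuous π) (hle : t ≤ s)
    (hk : ∀ O : Set H, IsOpen O → (∀ h, π h = 1 → h ∈ O) → π '' O ∈ @nhds Γ s 1) : s = t := by
  refine IsTopologicalGroup.ext hs g (le_antisymm (fun W hW => ?_) (nhds_mono hle))
  letI := t
  obtain ⟨W', h1, h2, h3⟩ := mem_nhds_iff.1 hW
  exact mem_of_superset (hk _ (h2.preimage hπ) fun h e => by rw [mem_preimage, e]; exact h3)
    ((image_preimage_subset _ _).trans h1)

end Pool.Agent.H17.Min
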