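import Mathlib

set_option autoImplicit false

namespace Pool.Agent.H17.Mono
open Set Topology Filter

variable {X : Type}

theorem box {U : Set (X → ℝ)} (hU : IsOpen U) {f : X → ℝ} (hf : f ∈ U) :
    ∃ (F : Finset X) (ε : ℝ), 0 < ε ∧ ∀ g : X → ℝ, (∀ x ∈ F, |g x - f x| < ε) → g ∈ U := by
  obtain ⟨F, u, h1, h2⟩ := isOpen_pi_iff.1 hU f hf
  have : ∀ᶠ ε in 𝓝[>] (0 : ℝ), ∀ x ∈ F, Metric.ball (f x) ε ⊆ u x :=
    (eventually_all_finset F).2 fun x hx => by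
      obtain ⟨r, hr, h⟩ := Metric.isOpen_iff.1 (h1 x hx).1 _ (h1 x hx).2
      filter_upwards [Ioo_mem_nhdsGT hr] with ε hε using (Metric.ball_subset_ball hε.2.le).trans h
  obtain ⟨ε, h3, h4⟩ := (this.and self_mem_nhdsWithin).exists
  exact ⟨F, ε, h4, fun g hg => h2 fun x hx => h3 x hx (hg x hx)⟩

theorem opn (F : Finset X) (f : X → ℝ) (ε : ℝ) : IsOpen {g : X → ℝ | ∀ x ∈ F, |g x - f x| < ε} := by
  simp only [ofPred_forall]
  exact isOpen_biInter_finset fun x _ => isOpen_lt (by fun_prop) continuous_const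

noncomputable def Φ (κ : ℕ → X → ℝ) (x : X) : ℝ := ∑' i, (2⁻¹ : ℝ) ^ i * κ i x

theorem bd {a : ℝ} (h : |a| ≤ 2) (i : ℕ) : ‖(2⁻¹ : ℝ) ^ i * a‖ ≤ 2⁻¹ ^ i * 2 := by
  rw [norm_mul, norm_pow, Real.norm_of_nonneg (by norm_num)]
  exact mul_le_mul_of_nonneg_left h (by positivity)

theorem sm {a : ℕ → ℝ} (h : ∀ i, |a i| ≤ 2) : Summable fun i => (2⁻¹ : ℝ) ^ i * a i :=
  .of_norm_bounded (summable_geometric_two.mul_right 2) fun i => by simpa using bd (h i) i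

theorem near {κ κ' : ℕ → X → ℝ} {x : X} (h : ∀ i, |κ i x| ≤ 2) (h' : ∀ i, |κ' i x| ≤ 2) {j : ℕ}
    {η : ℝ} (hη : 0 ≤ η) (h1 : ∀ i < j, |κ i x - κ' i x| ≤ η) :
    |Φ κ x - Φ κ' x| ≤ 2 * η + 8 * 2⁻¹ ^ j := by
  have s1 : HasSum (fun i => (2⁻¹ : ℝ) ^ i) 2 := by simpa using hasSum_geometric_two
  have s2 : Summable fun i => if j ≤ i then (2⁻¹ : ℝ) ^ i else 0 :=
    s1.summable.of_nonneg_of_le (fun i => by positivity) fun i => by
      split_ifs <;> [rfl; positivity]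
  have s3 := (s1.mul_right η).add (s2.hasSum.mul_left 4)
  rw [tsum_geometric_inv_two_ge] at s3
  rw [Φ, Φ, ← (sm h).tsum_sub (sm h'), ← Real.norm_eq_abs]
  refine le_trans (b := 2 * η + 4 * (2 * 2⁻¹ ^ j)) (tsum_of_norm_bounded s3 fun i => ?_)
    (le_of_eq (by ring))
  rw [← mul_sub, norm_mul, norm_pow, Real.norm_of_nonneg (by norm_num), Real.norm_eq_abs]
  have : (0 : ℝ) ≤ 2⁻¹ ^ i := by positivity
  split_ifs with hi
  · have := (abs_sub _ _).trans (add_le_add (h i) (h' i))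
    nlinarith
  · nlinarith [h1 i (not_le.1 hi)]

theorem upd {κ : ℕ → X → ℝ} {k : X → ℝ} {x : X} (h : ∀ i, |κ i x| ≤ 2) (h' : |k x| ≤ 2) (m : ℕ) :
    Φ (Function.update κ m k) x = Φ κ x + 2⁻¹ ^ m * (k x - κ m x) := by
  have h2 : ∀ i, |Function.update κ m k i x| ≤ 2 := fun i => by
    by_cases hi : i = m <;> simp [hi, h, h']
  rw [← sub_eq_iff_eq_add', Φ, Φ, ← (sm h2).tsum_sub (sm h), tsum_eq_single m fun i hi => by simp [hi]]
  simp [mul_sub]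

theorem small {ε : ℝ} (h : 0 < ε) : ∀ᶠ j in atTop, 8 * (2⁻¹ : ℝ) ^ j < ε := by
  have := (tendsto_pow_atTop_nhds_zero_of_lt_one (r := (2⁻¹ : ℝ)) (by norm_num)
    (by norm_num)).const_mul 8
  exact this.eventually (gt_mem_nhds (by simpa using h))

theorem main [TopologicalSpace X] (Y : ℕ → Set (X → ℝ))
    (hY : (⋃ n, Y n) = {f : X → ℝ | Continuous f})
    (h : ∀ n, ∀ A : Set (X → ℝ), A ⊆ Y n → A.Countable →
      ∃ 𝒩 : Set (Set (X → ℝ)), 𝒩.Countable ∧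
        ∀ x ∈ closure A ∩ Y n, ∀ U : Set (X → ℝ), IsOpen U → x ∈ U → ∃ N ∈ 𝒩, x ∈ N ∧ N ⊆ U)
    (A : Set (X → ℝ)) (hA : A ⊆ {f : X → ℝ | Continuous f}) (hc : A.Countable) :
    ∃ 𝒩 : Set (Set (X → ℝ)), 𝒩.Countable ∧
      ∀ x ∈ closure A ∩ {f : X → ℝ | Continuous f}, ∀ U : Set (X → ℝ), IsOpen U → x ∈ U →
        ∃ N ∈ 𝒩, x ∈ N ∧ N ⊆ U := by
  classical
  rcases A.eq_empty_or_nonempty with rfl | ⟨a0, ha0⟩
  · exact ⟨∅, countable_empty, by simp⟩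
  let Ψ : (X → ℝ) → X → ℝ := Pi.map fun _ => Real.arctan
  have hΨ : IsInducing Ψ := .piMap fun _ => (Real.arctan_strictMono.isEmbedding_of_ordConnected
    (Real.range_arctan ▸ ordConnected_Ioo)).isInducing
  let K := {g : X → ℝ // g ∈ closure A ∧ Continuous g}
  let _ : TopologicalSpace K := ⊥
  have : DiscreteTopology K := ⟨rfl⟩
  have : Nonempty K := ⟨⟨a0, subset_closure ha0, hA ha0⟩⟩
  have hb : ∀ (g : X → ℝ) x, |Ψ g x| ≤ 2 := fun g x => abs_le.2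
    ⟨by linarith [Real.neg_pi_div_two_lt_arctan (g x), Real.pi_le_four, show Ψ g x = Real.arctan (g x) from rfl],
      by linarith [Real.arctan_lt_pi_div_two (g x), Real.pi_le_four, show Ψ g x = Real.arctan (g x) from rfl]⟩
  let P : (ℕ → K) → X → ℝ := fun κ => Φ fun i => Ψ (κ i).1
  have hP : ∀ κ, Continuous (P κ) := fun κ => continuous_tsum
    (fun i => continuous_const.mul (Real.continuous_arctan.comp (κ i).2.2))
    (summable_geometric_two.mul_right 2) fun i x => by simpa using bd (hb (κ i).1 x) i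
  obtain ⟨n, k0, h0⟩ := nonempty_interior_of_iUnion_of_closed (f := fun n => closure (P ⁻¹' Y n))
    (fun _ => isClosed_closure) (eq_univ_of_forall fun κ => by
      obtain ⟨n, hn⟩ := mem_iUnion.1 (hY.ge (hP κ))
      exact mem_iUnion.2 ⟨n, subset_closure hn⟩)
  obtain ⟨I, u, h1, h2⟩ := isOpen_pi_iff.1 isOpen_interior k0 h0
  have h3 : ∀ (κ : ℕ → K) (j : ℕ), ∃ κ', P κ' ∈ Y n ∧
      ∀ i < j, κ' i = if i ∈ I then k0 i else κ i := fun κ j => by
    obtain ⟨κ', h4, h5⟩ := mem_closure_iff.1 (interior_subset (h2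
      (a := fun i => if i ∈ I then k0 i else κ i) fun i hi => by
        simpa [show i ∈ I from hi] using (h1 i hi).2))
      ((Finset.range j : Set ℕ).pi fun i => {if i ∈ I then k0 i else κ i})
      (isOpen_set_pi (Finset.finite_toSet _) fun _ _ => isOpen_discrete _) fun _ _ => rfl
    exact ⟨κ', h5, fun i hi => h4 i (by simpa using hi)⟩
  choose β h4 h5 using h3
  have := hc.to_subtype
  let b : (Σ j : ℕ, Fin j → A) → X → ℝ := fun p => P (β (fun i => if h : i < p.1 then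
    ⟨p.2 ⟨i, h⟩, subset_closure (p.2 _).2, hA (p.2 _).2⟩ else k0 i) p.1)
  have h6 : ∀ κ : ℕ → K, (∀ i ∈ I, κ i = k0 i) → P κ ∈ closure (range b) := fun κ hκ => by
    refine mem_closure_iff.2 fun U hU hx => ?_
    obtain ⟨F, ε, h7, h8⟩ := box hU hx
    obtain ⟨j, hj⟩ := (small (half_pos h7)).exists
    have h9 : ∀ i : Fin j, ∃ a : A, ∀ x ∈ F, |Ψ a x - Ψ (κ i).1 x| < ε / 4 := fun i => by
      obtain ⟨a, h9, h10⟩ := mem_closure_iff.1 (κ i).2.1 _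
        ((opn F (Ψ (κ i).1) (ε / 4)).preimage hΨ.continuous) fun x _ => by simpa using h7
      exact ⟨⟨a, h10⟩, h9⟩
    choose a ha using h9
    refine ⟨b ⟨j, a⟩, h8 _ fun x hx => (near (j := j) (η := ε / 4) (fun _ => hb _ _) (fun _ => hb _ _)
      (by positivity) fun i hi => ?_).trans_lt (by linarith), _, rfl⟩
    rw [h5 _ _ i hi]
    split_ifs with h
    · simpa [hκ i h] using h7.le.trans' (le_refl 0) |> fun h => by positivity
    · exact (ha ⟨i, hi⟩ x hx).le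
  obtain ⟨𝒩, h7, h8⟩ := h n (range b) (range_subset_iff.2 fun p => h4 _ _) (countable_range b)
  obtain ⟨m, hm⟩ := Infinite.exists_notMem_finset I
  refine ⟨image2 (fun N (j : ℕ) => {g | ∃ y ∈ N, ∀ x, |P k0 x + 2⁻¹ ^ m * (Ψ g x - Ψ (k0 m).1 x) - y x|
    ≤ 8 * 2⁻¹ ^ j}) 𝒩 univ, h7.image2 countable_univ _, fun g hg U hU hx => ?_⟩
  obtain ⟨V, hV, rfl⟩ := hΨ.isOpen_iff.1 hU
  obtain ⟨F, ε, h9, h10⟩ := box hV hx
  have hp : (0 : ℝ) < 2⁻¹ ^ m * ε / 3 := by positivity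
  obtain ⟨j, hj, hj'⟩ := ((small hp).and (eventually_gt_atTop (I.sup id))).exists
  let κ := β (Function.update k0 m ⟨g, hg⟩) j
  have h11 : ∀ i < j, κ i = Function.update k0 m ⟨g, hg⟩ i := fun i hi => by
    refine (h5 _ _ i hi).trans ?_
    split_ifs with h
    · rw [Function.update_of_ne fun e : i = m => hm (e ▸ h)]
    · rfl
  have h12 : ∀ x, |P k0 x + 2⁻¹ ^ m * (Ψ g x - Ψ (k0 m).1 x) - P κ x| ≤ 8 * 2⁻¹ ^ j := fun x => by
    rw [← upd (κ := fun i => Ψ (k0 i).1) (fun _ => hb _ _) (hb g x) m]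
    refine (near (j := j) (η := 0) (fun i => ?_) (fun _ => hb _ _) le_rfl fun i hi => ?_).trans
      (by simp)
    · by_cases h : i = m <;> simp [h, hb]
    · rw [h11 i hi]
      by_cases h : i = m <;> simp [h]
  obtain ⟨N, h13, h14, h15⟩ := h8 (P κ) ⟨h6 κ fun i hi =>
    (h5 _ _ i ((Finset.le_sup (f := id) hi).trans_lt hj')).trans (if_pos hi), h4 _ _⟩ _
    (opn F (P κ) (2⁻¹ ^ m * ε / 3)) fun x _ => by simpa using hp
  refine ⟨_, ⟨N, h13, j, trivial, rfl⟩, ⟨_, h14, h12⟩, fun g' ⟨y, h16, h17⟩ => h10 _ fun x hx => ?_⟩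
  have a1 := abs_le.1 (h12 x)
  have a2 := abs_le.1 (h17 x)
  have a3 := abs_lt.1 (h15 h16 x hx)
  have a4 : (0 : ℝ) < 2⁻¹ ^ m := by positivity
  exact abs_lt.2 ⟨lt_of_mul_lt_mul_left (by linarith) a4.le, lt_of_mul_lt_mul_left (by linarith) a4.le⟩

end Pool.Agent.H17.Mono
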