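import Mathlib

namespace Pool.Agent.H17.Odd

open Set Filter Topology

variable {X : Type} (c : ℕ → X → Prop)

/-- Agreement on the first coordinates. -/
def Ag (n : ℕ) (x y : X) : Prop := ∀ j < n, (c j x ↔ c j y)

open Classical in
/-- Parity of the number of points in a cone. -/
noncomputable def cnt (z : X) (n : ℕ) : (X →₀ ZMod 2) →+ ZMod 2 :=
  Finsupp.liftAddHom fun y => if Ag c n z y then AddMonoidHom.id _ else 0

open Classical in
lemma cnt_single (z y : X) (n : ℕ) (a : ZMod 2) :
    cnt c z n (Finsupp.single y a) = if Ag c n z y then a else 0 := by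
  simp only [cnt, Finsupp.liftAddHom_apply_single]
  split_ifs <;> simp

/-- Points all of whose cones are odd. -/
def Good (g : X →₀ ZMod 2) (z : X) : Prop := ∀ n, cnt c z n g = 1

variable {c}

lemma Ag.refl (n : ℕ) (x : X) : Ag c n x x := fun _ _ => Iff.rfl
lemma Ag.symm {n : ℕ} {x y : X} (h : Ag c n x y) : Ag c n y x := fun j hj => (h j hj).symm
lemma Ag.trans {n : ℕ} {x y z : X} (h : Ag c n x y) (h' : Ag c n y z) : Ag c n x z :=
  fun j hj => (h j hj).trans (h' j hj)
lemma Ag.mono {n m : ℕ} {x y : X} (h : Ag c n x y) (hm : m ≤ n) : Ag c m x y :=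
  fun j hj => h j (hj.trans_le hm)

lemma cnt_congr {n : ℕ} {z w : X} (h : Ag c n z w) : cnt c z n = cnt c w n := by
  classical
  refine Finsupp.addHom_ext fun y a => ?_
  rw [cnt_single, cnt_single]
  exact if_congr ⟨fun h' => h.symm.trans h', fun h' => h.trans h'⟩ rfl rfl

lemma cnt_split {n : ℕ} {z w : X} (h : Ag c n z w) (h' : ¬ (c n z ↔ c n w)) :
    cnt c z n = cnt c z (n + 1) + cnt c w (n + 1) := by
  refine Finsupp.addHom_ext fun y a => ?_
  have e : ∀ u, Ag c (n + 1) u y ↔ Ag c n u y ∧ (c n u ↔ c n y) := fun u =>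
    ⟨fun h => ⟨h.mono n.le_succ, h n n.lt_succ_self⟩, fun h j hj =>
      (Nat.lt_succ_iff_lt_or_eq.1 hj).elim (h.1 j) fun e => e ▸ h.2⟩
  have e2 : Ag c n w y ↔ Ag c n z y := ⟨fun h' => h.trans h', fun h' => h.symm.trans h'⟩
  rw [AddMonoidHom.add_apply, cnt_single, cnt_single, cnt_single, e, e, e2]
  by_cases h1 : Ag c n z y <;> by_cases h2 : c n z <;> by_cases h3 : c n w <;>
    by_cases h4 : c n y <;> simp_all

variable (hs : ∀ x y, (∀ j, c j x ↔ c j y) → x = y)
include hs

lemma Good.uniq {g : X →₀ ZMod 2} {z w : X} (hz : Good c g z) (hw : Good c g w) : z = w := by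
  classical
  by_contra hne
  have hex : ∃ j, ¬ (c j z ↔ c j w) := by
    by_contra hh
    push Not at hh
    exact hne (hs z w hh)
  have h := DFunLike.congr_fun (cnt_split (n := Nat.find hex) (z := z) (w := w)
    (fun j hj => not_not.1 (Nat.find_min hex hj)) (Nat.find_spec hex)) g
  rw [AddMonoidHom.add_apply, hz, hz, hw] at h
  exact absurd h (by decide)

lemma isolate (g : X →₀ ZMod 2) (x : X) : ∃ n, ∀ m, n ≤ m → cnt c x m g = g x := by
  classical
  induction g using Finsupp.induction_linear with
  | zero => exact ⟨0, fun _ _ => by simp⟩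
  | add f g hf hg =>
    obtain ⟨n, hn⟩ := hf
    obtain ⟨k, hk⟩ := hg
    exact ⟨max n k, fun m hm => by
      rw [map_add, hn m (le_of_max_le_left hm), hk m (le_of_max_le_right hm), Finsupp.add_apply]⟩
  | single y a =>
    by_cases h : y = x
    · subst h
      exact ⟨0, fun m _ => by rw [cnt_single, if_pos (Ag.refl _ _), Finsupp.single_eq_same]⟩
    · have hex : ∃ j, ¬ (c j x ↔ c j y) := by
        by_contra hh
        push Not at hh
        exact h (hs x y hh).symm
      obtain ⟨j, hj⟩ := hex
      exact ⟨j + 1, fun m hm => by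
        rw [cnt_single, if_neg fun h' => hj (h' j hm), Finsupp.single_eq_of_ne (Ne.symm h)]⟩

lemma Good.val {g : X →₀ ZMod 2} {z : X} (hz : Good c g z) : g z = 1 := by
  obtain ⟨n, hn⟩ := isolate hs g z
  rw [← hn n le_rfl, hz]

lemma isolate' (g : X →₀ ZMod 2) (x : X) :
    ∃ n, ∀ z, Ag c n x z → ∀ m, n ≤ m → cnt c z m g = cnt c z m (Finsupp.single x (g x)) := by
  classical
  induction g using Finsupp.induction_linear with
  | zero => exact ⟨0, fun _ _ _ _ => by simp⟩
  | add f g hf hg =>
    obtain ⟨n, hn⟩ := hf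
    obtain ⟨k, hk⟩ := hg
    exact ⟨max n k, fun z hz m hm => by
      rw [map_add, hn z (hz.mono (le_max_left _ _)) m (le_of_max_le_left hm),
        hk z (hz.mono (le_max_right _ _)) m (le_of_max_le_right hm), Finsupp.add_apply,
        Finsupp.single_add, map_add]⟩
  | single y a =>
    by_cases h : y = x
    · subst h
      exact ⟨0, fun z _ m _ => by rw [Finsupp.single_eq_same]⟩
    · have hex : ∃ j, ¬ (c j x ↔ c j y) := by
        by_contra hh
        push Not at hh
        exact h (hs x y hh).symm
      obtain ⟨j, hj⟩ := hex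
      exact ⟨j + 1, fun z hz m hm => by
        rw [cnt_single, if_neg fun h' => hj ((hz j j.lt_succ_self).trans (h' j hm)),
          Finsupp.single_eq_of_ne (Ne.symm h)]
        simp⟩

omit hs in
open Classical in
/-- The selected point. -/
noncomputable def sel (c : ℕ → X → Prop) (x₀ : X) (g : X →₀ ZMod 2) : X :=
  if h : ∃ z, Good c g z then h.choose else x₀

lemma sel_eq {x₀ : X} {g : X →₀ ZMod 2} {z : X} (h : Good c g z) : sel c x₀ g = z := by
  rw [sel, dif_pos ⟨z, h⟩]
  exact Good.uniq hs (Exists.choose_spec ⟨z, h⟩) h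

lemma sel_congr {x₀ : X} {g g' : X →₀ ZMod 2} (h : ∀ z, Good c g z ↔ Good c g' z) :
    sel c x₀ g = sel c x₀ g' := by
  by_cases hz : ∃ z, Good c g z
  · obtain ⟨z, hz⟩ := hz
    rw [sel_eq hs hz, sel_eq hs ((h z).1 hz)]
  · rw [sel, sel, dif_neg hz, dif_neg fun ⟨z, hz'⟩ => hz ⟨z, (h z).2 hz'⟩]

lemma sel_single (x₀ x : X) : sel c x₀ (Finsupp.single x 1) = x :=
  sel_eq hs fun n => by rw [cnt_single, if_pos (Ag.refl _ _)]

lemma local_form (x₀ : X) (g : X →₀ ZMod 2) (x : X) : ∃ n,
    (∀ y, Ag c n x y → sel c x₀ (g + Finsupp.single y 1) = y) ∨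
    (∀ y, Ag c n x y → sel c x₀ (g + Finsupp.single y 1) = sel c x₀ (g + Finsupp.single x 1)) := by
  classical
  obtain ⟨n, hn⟩ := isolate' hs g x
  refine ⟨n, ?_⟩
  have low : ∀ y z m, Ag c n x y → m ≤ n →
      cnt c z m (g + Finsupp.single y 1) = cnt c z m (g + Finsupp.single x 1) := by
    intro y z m hy hm
    rw [map_add, map_add, cnt_single, cnt_single]
    congr 1
    exact if_congr ⟨fun h => h.trans (hy.mono hm).symm, fun h => h.trans (hy.mono hm)⟩ rfl rfl
  by_cases hG : Good c (g + Finsupp.single x 1) x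
  · left
    intro y hy
    have h0 : g x = 0 := by
      have := hG.val hs
      rw [Finsupp.add_apply, Finsupp.single_eq_same] at this
      exact add_eq_right.1 this
    refine sel_eq hs fun m => ?_
    rcases le_total m n with hm | hm
    · rw [low y y m hy hm, ← cnt_congr (hy.mono hm)]
      exact hG m
    · rw [map_add, hn y hy m hm, h0, cnt_single, cnt_single, if_pos (Ag.refl _ _)]
      simp
  · right
    intro y hy
    refine sel_congr hs fun z => ?_
    have bad : ∀ y, Ag c n x y → Ag c n x z → ¬ Good c (g + Finsupp.single y 1) z := by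
      intro y hy hz hg
      apply hG
      have h1 := hg n
      rw [map_add, hn z hz n le_rfl, cnt_single, cnt_single, if_pos hz.symm,
        if_pos (hz.symm.trans hy)] at h1
      have h0 : g x = 0 := add_eq_right.1 h1
      intro m
      rcases le_total m n with hm | hm
      · rw [← low y x m hy hm, cnt_congr (hz.mono hm)]
        exact hg m
      · rw [map_add, hn x (Ag.refl _ _) m hm, h0, Finsupp.single_zero, map_zero, zero_add, cnt_single,
          if_pos (Ag.refl _ _)]
    by_cases hz : Ag c n x z
    · exact ⟨fun h => (bad y hy hz h).elim, fun h => (bad x (Ag.refl _ _) hz h).elim⟩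
    · refine forall_congr' fun m => ?_
      rcases le_total m n with hm | hm
      · rw [low y z m hy hm]
      · rw [map_add, map_add, cnt_single, cnt_single,
          if_neg fun h => hz (hy.trans (h.mono hm).symm), if_neg fun h => hz (h.mono hm).symm]

theorem exists_group [TopologicalSpace X] [T1Space X] [RegularSpace X] [Nontrivial X]
    [TopologicalSpace.SeparableSpace X] (hc : ∀ j x, ∀ᶠ y in 𝓝 x, (c j x ↔ c j y)) :
    ∃ _ : TopologicalSpace (X →₀ ZMod 2), (∀ a : X →₀ ZMod 2, Continuous (a + ·)) ∧
      T1Space (X →₀ ZMod 2) ∧ RegularSpace (X →₀ ZMod 2) ∧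
      TopologicalSpace.SeparableSpace (X →₀ ZMod 2) ∧
      ∃ (i : X → (X →₀ ZMod 2)) (r : (X →₀ ZMod 2) → X), Continuous i ∧ Continuous r ∧
        ∀ x, r (i x) = x := by
  classical
  obtain ⟨x₀⟩ : Nonempty X := inferInstance
  let e : (X →₀ ZMod 2) → (X →₀ ZMod 2) → X := fun g h => sel c x₀ (h + g)
  let t : TopologicalSpace (X →₀ ZMod 2) := TopologicalSpace.induced e inferInstance
  have hi : IsInducing e := ⟨rfl⟩
  have hcont : ∀ h, Continuous fun g => e g h := fun h => (continuous_apply h).comp hi.continuous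
  have htr : ∀ a : X →₀ ZMod 2, Continuous (a + ·) := fun a =>
    hi.continuous_iff.2 (continuous_pi fun h => (hcont (h + a)).congr fun g => by
      simp only [e, Function.comp, add_assoc])
  have hsing : Continuous fun x : X => Finsupp.single x (1 : ZMod 2) := by
    refine hi.continuous_iff.2 (continuous_pi fun h => continuous_iff_continuousAt.2 fun x => ?_)
    obtain ⟨n, hn⟩ := local_form hs x₀ h x
    have hev : ∀ᶠ y in 𝓝 x, Ag c n x y := (eventually_all_finite (finite_lt_nat n)).2 fun j _ => hc j x
    rcases hn with hn | hn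
    · exact continuousAt_id.congr (hev.mono fun y hy => (hn y hy).symm)
    · exact continuousAt_const.congr (hev.mono fun y hy => (hn y hy).symm)
  have two : ∀ g : X →₀ ZMod 2, g + g = 0 := fun g => by
    ext x; exact CharTwo.add_self_eq_zero _
  have hinj : Function.Injective e := by
    intro g g' hg
    by_contra hne
    have hk : g + g' ≠ 0 := fun h => hne (by
      rw [← add_zero g, ← two g', ← add_assoc, h, zero_add])
    have key : ∀ x, sel c x₀ (g + g' + Finsupp.single x 1) = x := fun x => by
      have := congrFun hg (g + Finsupp.single x 1)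
      simp only [e] at this
      rw [add_right_comm g _ g, two, zero_add, sel_single hs, add_right_comm] at this
      exact this.symm
    have val : ∀ x, x ≠ x₀ → Good c (g + g' + Finsupp.single x 1) x := fun x hx => by
      by_cases hz : ∃ z, Good c (g + g' + Finsupp.single x 1) z
      · obtain ⟨z, hz⟩ := hz
        have := key x
        rw [sel_eq hs hz] at this
        exact this ▸ hz
      · have := key x
        rw [sel, dif_neg hz] at this
        exact absurd this.symm hx
    have v0 : ∀ x, x ≠ x₀ → (g + g') x = 0 := fun x hx => by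
      have := (val x hx).val hs
      rw [Finsupp.add_apply, Finsupp.single_eq_same] at this
      exact add_eq_right.1 this
    have hk' : g + g' = Finsupp.single x₀ ((g + g') x₀) := by
      ext x
      by_cases hx : x = x₀
      · rw [hx, Finsupp.single_eq_same]
      · rw [v0 x hx, Finsupp.single_eq_of_ne hx]
    obtain ⟨x, hx⟩ := exists_ne x₀
    have := val x hx 0
    rw [map_add, hk', cnt_single, cnt_single, if_pos (show Ag c 0 x x₀ from fun j hj => absurd hj j.not_lt_zero),
      if_pos (Ag.refl _ _), add_eq_right] at this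
    exact hk (by rw [hk', this, Finsupp.single_zero])
  refine ⟨t, htr, (IsEmbedding.mk hi hinj).t1Space, hi.regularSpace, ?_, _, fun g => e g 0,
    hsing, hcont 0, fun x => by simp only [e, zero_add, sel_single hs]⟩
  obtain ⟨D, hDc, hD⟩ := TopologicalSpace.exists_countable_dense X
  have := hDc.to_subtype
  let S : Set (X →₀ ZMod 2) :=
    range fun l : List D => (l.map fun d => Finsupp.single d.1 (1 : ZMod 2)).sum
  refine ⟨S, countable_range _, fun g => ?_⟩
  have step : ∀ (x : X) (g : X →₀ ZMod 2), g ∈ closure S → Finsupp.single x 1 + g ∈ closure S := by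
    intro x g hg
    have h1 : ∀ d ∈ D, g + Finsupp.single d 1 ∈ closure S := fun d hd => by
      rw [add_comm]
      refine map_mem_closure (htr _) hg ?_
      rintro _ ⟨l, rfl⟩
      exact ⟨⟨d, hd⟩ :: l, by simp⟩
    rw [add_comm, ← closure_closure]
    exact map_mem_closure (f := fun x => g + Finsupp.single x 1) ((htr g).comp hsing) (hD x) h1
  induction g using Finsupp.induction with
  | zero => exact subset_closure ⟨[], by simp⟩
  | single_add x a f _ ha ih =>
    have : a = 1 := by revert ha; revert a; decide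
    rw [this]
    exact step x f ih

end Pool.Agent.H17.Odd
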