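import Mathlib
import Pool.Agent.H17.PFC2

set_option autoImplicit false

namespace Pool.Agent.H17.PFC
open Set Filter Topology Pool.Agent.H17.W1

def Rep (x : Filter (W × W)) : Prop :=
  (∃ δ ∈ L, x = FF δ) ∨ ∃ u : Ultrafilter (W × W), x = u ∧ ∃ a b, {p : W × W | p.1 = a ∧ p.2 < b} ∈ u

theorem Rep.dec {x : Filter (W × W)} (h : Rep x) : Dec BB x := by
  rcases h with ⟨δ, hδ, rfl⟩ | ⟨u, rfl, -⟩
  · exact ⟨FF_neBot hδ, fun E hE => hE δ hδ⟩
  · exact ⟨inferInstance, fun E _ => u.mem_or_compl_mem E⟩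

open Classical in
noncomputable def φ (x : Filter (W × W)) : BB → Bool := fun E => decide (E.1 ∈ x)

def XX : Type := {z : BB → Bool // ∃ x, Rep x ∧ φ x = z}

instance : TopologicalSpace XX := inferInstanceAs (TopologicalSpace (Subtype _))

instance : T35Space XX := inferInstanceAs (T35Space (Subtype _))

noncomputable def mk (x : Filter (W × W)) (h : Rep x) : XX := ⟨φ x, x, h, rfl⟩

theorem rep_pure (p : W × W) : Rep (pure p) := by
  obtain ⟨b, hb⟩ := exists_gt p.2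
  exact Or.inr ⟨pure p, rfl, p.1, b, ⟨rfl, hb⟩⟩

noncomputable def pt (p : W × W) : XX := mk (pure p) (rep_pure p)

theorem tendsto_pt (x : Filter (W × W)) (h : Rep x) : Tendsto pt x (𝓝 (mk x h)) := by
  refine tendsto_subtype_rng.2 (tendsto_pi_nhds.2 fun E => ?_)
  refine tendsto_const_nhds.congr' ?_
  rcases h.dec.2 E.1 E.2 with h1 | h1
  · filter_upwards [h1] with p hp
    simp [pt, mk, φ, h1, hp]
  · have h2 : E.1 ∉ x := fun h2 => h.dec.not h2 h1
    filter_upwards [h1] with p hp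
    have hp' : p ∉ E.1 := hp
    simp [pt, mk, φ, h2, hp']

theorem cont_ev (E : BB) : Continuous fun z : XX => z.1 E :=
  (continuous_apply E).comp continuous_subtype_val

theorem part1 (𝒰 : Set (Set {f : XX → ℝ // Continuous f}))
    (hU : ∀ U ∈ 𝒰, IsOpen U ∧ U.Nonempty)
    (hf : ∀ y : {f : XX → ℝ // Continuous f}, {U | U ∈ 𝒰 ∧ y ∈ U}.Finite) : 𝒰.Countable := by
  classical
  by_contra hn
  have hr : ∀ z : XX, ∃ x k ρ b, Dec BB x ∧ φ x = z.1 ∧ IsPt x k ρ b := by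
    rintro ⟨z, x, hx, rfl⟩
    rcases hx with ⟨δ, hδ, rfl⟩ | ⟨u, rfl, a, b, hu⟩
    · exact ⟨_, true, δ, δ, Rep.dec (Or.inl ⟨δ, hδ, rfl⟩), rfl, fun _ => rfl, by simp⟩
    · exact ⟨_, false, a, b, Rep.dec (Or.inr ⟨u, rfl, a, b, hu⟩), rfl, by simp, fun _ => hu⟩
  choose r kd ρ b r1 r2 r3 using hr
  have hmem : ∀ (z : XX) (E : BB), z.1 E = true ↔ E.1 ∈ r z := fun z E => by
    rw [← r2 z]
    simp [φ]
  let Q : (m : ℕ) → (Fin m → ℚ × Bool) → Set (Set {f : XX → ℝ // Continuous f}) := fun m v =>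
    {U | U ∈ 𝒰 ∧ ∃ x : Fin m → XX, Function.Injective x ∧ (∀ i, kd (x i) = (v i).2) ∧
      ∀ g : {f : XX → ℝ // Continuous f}, (∀ i, g.1 (x i) = (v i).1) → g ∈ U}
  have hQ : 𝒰 ⊆ ⋃ m, ⋃ v, Q m v := by
    intro U hUU
    obtain ⟨ho, f, hfU⟩ := hU U hUU
    obtain ⟨O, hO, rfl⟩ := isOpen_induced_iff.1 ho
    obtain ⟨I, t, ht, hs⟩ := isOpen_pi_iff.1 hO _ hfU
    have : ∀ i : Fin I.card, ∃ q : ℚ, (q : ℝ) ∈ t (I.equivFin.symm i) := fun i =>
      Rat.denseRange_cast.exists_mem_open (ht _ (I.equivFin.symm i).2).1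
        ⟨_, (ht _ (I.equivFin.symm i).2).2⟩
    choose q hq using this
    refine mem_iUnion₂.2 ⟨I.card, fun i => (q i, kd (I.equivFin.symm i)), hUU,
      fun i => I.equivFin.symm i, fun i j hij => I.equivFin.symm.injective (Subtype.ext hij),
      fun _ => rfl, fun g hg => hs fun z hz => ?_⟩
    have h1 := hg (I.equivFin ⟨z, hz⟩)
    have h2 := hq (I.equivFin ⟨z, hz⟩)
    simp only [Equiv.symm_apply_apply] at h1 h2
    rw [h1]
    exact h2
  have : ∃ m v, ¬ (Q m v).Countable := by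
    by_contra hc
    push Not at hc
    exact hn ((countable_iUnion fun m => countable_iUnion fun v => hc m v).mono hQ)
  obtain ⟨m, v, hv⟩ := this
  have he : Nonempty (W ↪ Q m v) := by
    rw [← Cardinal.lift_mk_le', Cardinal.lift_id, Cardinal.lift_id, mkW,
      ← Cardinal.succ_aleph0, Order.succ_le_iff, ← not_le, Cardinal.le_aleph0_iff_set_countable]
    exact hv
  obtain ⟨e⟩ := he
  choose x x1 x2 x3 using fun t => (e t).2.2
  obtain ⟨N, hN, hE⟩ := sep (fun i t => r (x t i)) (fun i => (v i).2) (fun i t => ρ (x t i))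
    (fun i t => b (x t i)) (fun i t => r1 _) (fun i t => x2 t i ▸ r3 _) (by
      intro i j hij t
      have : (x t i).1 ≠ (x t j).1 := fun h => hij (x1 t (Subtype.ext h))
      obtain ⟨E, hE⟩ := Function.ne_iff.1 this
      by_cases h1 : E.1 ∈ r (x t i)
      · exact ⟨E.1, E.2, h1, fun h2 => hE (((hmem _ E).2 h1).trans ((hmem _ E).2 h2).symm)⟩
      · refine ⟨E.1ᶜ, BB_compl _ E.2, ((r1 _).2 _ E.2).resolve_left h1, fun h2 => hE ?_⟩
        have h3 : E.1 ∉ r (x t j) := fun h => (r1 _).not h h2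
        rw [← hmem] at h1 h3
        rw [Bool.not_eq_true] at h1 h3
        rw [h1, h3])
  choose E E1 E2 using hE
  let ψ : XX → Fin m × Fin m → Bool := fun z p => z.1 ⟨E p, E1 p⟩
  have ψc : Continuous ψ := continuous_pi fun p => cont_ev _
  have := hN.to_subtype
  obtain ⟨a, ha⟩ := Finite.exists_infinite_fiber fun (t : N) (i : Fin m) => ψ (x t i)
  have ha' : ∀ t : (fun (t : N) (i : Fin m) => ψ (x t i)) ⁻¹' {a}, ∀ i, ψ (x t i) = a i :=
    fun t i => congrFun t.2 i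
  obtain ⟨t0⟩ : Nonempty ((fun (t : N) (i : Fin m) => ψ (x t i)) ⁻¹' {a}) := inferInstance
  have ainj : Function.Injective a := by
    intro i j hij
    by_contra hne
    refine E2 (i, j) hne t0.1.1 t0.1.2 ?_
    have h := congrFun (((ha' t0 i).trans hij).trans (ha' t0 j).symm) (i, j)
    have h1 := hmem (x t0 i) ⟨E (i, j), E1 _⟩
    have h2 := hmem (x t0 j) ⟨E (i, j), E1 _⟩
    exact h1.symm.trans ((Eq.to_iff (congrArg (· = true) h)).trans h2)
  let g : {f : XX → ℝ // Continuous f} :=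
    ⟨fun z => Function.extend a (fun i => ((v i).1 : ℝ)) 0 (ψ z),
      (continuous_of_discreteTopology
        (f := Function.extend a (fun i => ((v i).1 : ℝ)) 0)).comp ψc⟩
  refine infinite_of_injective_forall_mem
    (f := fun t : (fun (t : N) (i : Fin m) => ψ (x t i)) ⁻¹' {a} => (e t.1.1).1)
    (fun s t h => Subtype.ext (Subtype.ext (e.injective (Subtype.ext h)))) (fun t => ?_) (hf g)
  refine ⟨(e t.1.1).2.1, x3 _ g fun i => ?_⟩
  show Function.extend a (fun i => ((v i).1 : ℝ)) 0 (ψ (x t i)) = _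
  rw [ha' t i, ainj.extend_apply]

noncomputable def uu : Ultrafilter W := Ultrafilter.of atTop

theorem uu_unb {E : Set W} (h : E ∈ uu) (γ : W) : ∃ γ' ∈ E, γ < γ' := by
  obtain ⟨b, hb⟩ := exists_gt γ
  obtain ⟨c, h1, h2⟩ := uu.nonempty_of_mem
    (inter_mem h (Ultrafilter.of_le _ (Ici_mem_atTop b)))
  exact ⟨c, h1, hb.trans_le h2⟩

noncomputable def qq (a : W) : StoneCech XX :=
  (uu.map fun γ => stoneCechUnit (pt (a, γ))).lim

theorem tendsto_qq (a : W) : Tendsto (fun γ => stoneCechUnit (pt (a, γ))) uu (𝓝 (qq a)) :=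
  Ultrafilter.le_nhds_lim _

theorem qq_mem (a : W) (g : XX → Icc (-1 : ℝ) 1) (hg : Continuous g)
    (h : ∀ x, ((g x : ℝ)) ∈ Ioo (-1 : ℝ) 1) :
    ((stoneCechExtend hg (qq a) : Icc (-1 : ℝ) 1) : ℝ) ∈ Ioo (-1 : ℝ) 1 := by
  have h1 : Tendsto (fun γ => |(g (pt (a, γ)) : ℝ)|) uu
      (𝓝 |((stoneCechExtend hg (qq a) : Icc (-1 : ℝ) 1) : ℝ)|) := by
    have := ((continuous_subtype_val.comp (continuous_stoneCechExtend hg)).tendsto _).comp
      (tendsto_qq a)
    simpa [Function.comp_def] using this.abs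
  rw [mem_Ioo, ← abs_lt]
  by_contra hlt
  have h2 : ∀ n : ℕ, ∃ γ, 1 - 1 / ((n : ℝ) + 1) < |(g (pt (a, γ)) : ℝ)| := fun n =>
    (h1.eventually (lt_mem_nhds (lt_of_lt_of_le
      (sub_lt_self _ Nat.one_div_pos_of_nat) (not_lt.1 hlt)))).exists
  choose γ hγ using h2
  obtain ⟨b, hb⟩ := bound (countable_range γ)
  let w : Ultrafilter (W × W) := (hyperfilter ℕ).map fun n => (a, γ n)
  have hw : Rep w := Or.inr ⟨w, rfl, a, b, by
    refine Ultrafilter.mem_map.2 (univ_mem' fun n => ⟨rfl, hb _ ⟨n, rfl⟩⟩)⟩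
  have h3 : Tendsto (fun n => |(g (pt (a, γ n)) : ℝ)|) (hyperfilter ℕ) (𝓝 |(g (mk w hw) : ℝ)|) :=
    (((continuous_subtype_val.comp hg).tendsto _).comp
      ((tendsto_pt w hw).comp (tendsto_map (f := fun n => (a, γ n))))).abs
  have h4 : Tendsto (fun n : ℕ => 1 - 1 / ((n : ℝ) + 1)) (hyperfilter ℕ) (𝓝 (1 - 0)) :=
    (tendsto_const_nhds.sub tendsto_one_div_add_atTop_nhds_zero_nat).mono_left
      (Nat.hyperfilter_le_atTop)
  have h5 := le_of_tendsto_of_tendsto' h4 h3 fun n => (hγ n).le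
  have h6 := abs_lt.2 (h (mk w hw))
  linarith

theorem part2 (Y : Set (StoneCech XX)) (hY : ∀ x, stoneCechUnit x ∈ Y) (hq : ∀ a, qq a ∈ Y) :
    ∃ 𝒰 : Set (Set {f : Y → ℝ // Continuous f}), (∀ U ∈ 𝒰, IsOpen U ∧ U.Nonempty) ∧
      (∀ y, {U | U ∈ 𝒰 ∧ y ∈ U}.Finite) ∧ ¬ 𝒰.Countable := by
  classical
  have he : Nonempty (W × Bool ↪ W) := by
    rw [← Cardinal.lift_mk_le', Cardinal.lift_id, Cardinal.lift_id, Cardinal.mk_prod,
      Cardinal.lift_id, Cardinal.lift_id]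
    exact Cardinal.mul_le_of_le (Cardinal.aleph0_le_mk W) le_rfl
      ((Cardinal.mk_le_aleph0).trans (Cardinal.aleph0_le_mk W))
  obtain ⟨e⟩ := he
  let ι : XX → Y := fun x => ⟨stoneCechUnit x, hY x⟩
  have ιc : Continuous ι := continuous_stoneCechUnit.subtype_mk _
  let q : W → Y := fun a => ⟨qq a, hq a⟩
  have tq : ∀ a, Tendsto (fun γ => ι (pt (a, γ))) uu (𝓝 (q a)) := fun a =>
    tendsto_subtype_rng.2 (tendsto_qq a)
  let U : W → Set {f : Y → ℝ // Continuous f} := fun a =>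
    {h | h.1 (q (e (a, false))) < 0 ∧ 1 < h.1 (q (e (a, true)))}
  have ev : ∀ y, Continuous fun h : {f : Y → ℝ // Continuous f} => h.1 y := fun y =>
    (continuous_apply y).comp continuous_subtype_val
  have Une : ∀ a, (U a).Nonempty := by
    intro a
    let E : BB := ⟨{p | p.1 = e (a, true)}, col_BB fun p hp => hp⟩
    let G : StoneCech XX → Bool := stoneCechExtend (cont_ev E)
    have Gc : Continuous G := continuous_stoneCechExtend _
    have hG : ∀ c, G (qq c) = decide (c = e (a, true)) := by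
      intro c
      refine tendsto_nhds_unique ((Gc.tendsto _).comp (tendsto_qq c))
        (tendsto_const_nhds.congr fun γ => ?_)
      show _ = stoneCechExtend (cont_ev E) (stoneCechUnit (pt (c, γ)))
      rw [stoneCechExtend_stoneCechUnit]
      simp [pt, mk, φ, E]
    refine ⟨⟨fun y => (fun t : Bool => if t then (2 : ℝ) else -1) (G y),
      (continuous_of_discreteTopology (f := fun t : Bool => if t then (2 : ℝ) else -1)).comp
        (Gc.comp continuous_subtype_val)⟩, ?_, ?_⟩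
    · simp [q, hG]
    · simp [q, hG]
  have Ufin : ∀ h, {a | h ∈ U a}.Finite := by
    intro h
    by_contra hinf
    let s : ℕ ↪ {a | h ∈ U a} := Set.Infinite.natEmbedding _ hinf
    let col : ℕ × Bool → W := fun p => e ((s p.1).1, p.2)
    have ci : Function.Injective col := fun p p' hp => by
      obtain ⟨h1, h2⟩ := Prod.mk.inj (e.injective hp)
      exact Prod.ext (s.injective (Subtype.ext h1)) h2
    obtain ⟨η, hη⟩ := bound (countable_range col)
    have hE : ∀ n, {γ | h.1 (ι (pt (col (n, false), γ))) < 0 ∧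
        1 < h.1 (ι (pt (col (n, true), γ)))} ∈ uu := fun n =>
      (((h.2.tendsto _).comp (tq _)).eventually (gt_mem_nhds (s n).2.1)).and
        (((h.2.tendsto _).comp (tq _)).eventually (lt_mem_nhds (s n).2.2))
    obtain ⟨δ, hδ, hηδ, hc⟩ := closure_pt _ (fun n => uu_unb (hE n)) η
      (infinite_of_injective_forall_mem ci fun p => hη _ ⟨p, rfl⟩)
    have hp : Rep (FF δ) := Or.inl ⟨δ, hδ, rfl⟩
    obtain ⟨C, hC, hR⟩ := (((h.2.comp ιc).tendsto _).comp (tendsto_pt _ hp)).eventually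
      (Metric.ball_mem_nhds _ (one_half_pos (α := ℝ)))
    have key : ∀ t : Bool, ∃ n γ, (h.1 (ι (pt (col (n, false), γ))) < 0 ∧
        1 < h.1 (ι (pt (col (n, true), γ)))) ∧
        dist (h.1 (ι (pt (col (n, t), γ)))) (h.1 (ι (mk _ hp))) < 1 / 2 := by
      intro t
      obtain ⟨_, ⟨n, rfl⟩, hn⟩ := (infinite_range_of_injective (f := fun n => col (n, t))
        fun a b hab => (Prod.mk.inj (ci hab)).1).exists_notMem_finite (hC η hηδ)
      obtain ⟨γ, h1, h2⟩ := hit ((hη _ ⟨(n, t), rfl⟩).trans hηδ) (hc n)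
      exact ⟨n, γ, h1, hR _ h2 fun hcc => hn ⟨hcc, hη _ ⟨(n, t), rfl⟩⟩⟩
    obtain ⟨n, γ, h1, h2⟩ := key false
    obtain ⟨n', γ', h1', h2'⟩ := key true
    rw [Real.dist_eq, abs_lt] at h2 h2'
    linarith [h1.1, h1'.2, h2.1, h2'.2]
  refine ⟨range U, ?_, fun h => ((Ufin h).image U).subset ?_, fun hc => ?_⟩
  · rintro _ ⟨a, rfl⟩
    exact ⟨(isOpen_lt (ev _) continuous_const).inter (isOpen_lt continuous_const (ev _)), Une a⟩
  · rintro _ ⟨⟨a, rfl⟩, ha⟩
    exact ⟨a, ha, rfl⟩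
  · refine not_countable_univ (α := W) ((hc.biUnion (t := fun V _ => {a | U a = V}) ?_).mono ?_)
    · rintro _ ⟨a, rfl⟩
      obtain ⟨h, hh⟩ := Une a
      exact ((Ufin h).subset fun b (hb : U b = U a) => show h ∈ U b from hb ▸ hh).countable
    · exact fun a _ => mem_biUnion (mem_range_self a) rfl

end Pool.Agent.H17.PFC
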