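import Mathlib

namespace Pool.Agent.H17.Pb

open Set Filter Topology TopologicalSpace

def PB (X : Type*) [TopologicalSpace X] : Prop :=
  ∃ 𝒩 : Set (Set X), 𝒩.Countable ∧
    ∀ K U : Set X, IsCompact K → IsOpen U → K ⊆ U → ∃ N ∈ 𝒩, K ⊆ N ∧ N ⊆ U

variable {X Y : Type*} [TopologicalSpace X] [TopologicalSpace Y]

lemma PB.seq (h : PB X) : ∃ N : ℕ → Set X,
    ∀ K U : Set X, IsCompact K → IsOpen U → K ⊆ U → ∃ j, K ⊆ N j ∧ N j ⊆ U := by
  obtain ⟨𝒩, hc, h⟩ := h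
  obtain ⟨N0, h0, -⟩ := h ∅ univ isCompact_empty isOpen_univ (empty_subset _)
  obtain ⟨N, rfl⟩ := hc.exists_eq_range ⟨N0, h0⟩
  refine ⟨N, fun K U h1 h2 h3 => ?_⟩
  obtain ⟨_, ⟨j, rfl⟩, h4⟩ := h K U h1 h2 h3
  exact ⟨j, h4⟩

lemma of_basis [T2Space X] {B : Set (Set X)} (hB : IsTopologicalBasis B) {𝒩 : Set (Set X)}
    (hc : 𝒩.Countable) (h : ∀ K, IsCompact K → ∀ V ∈ B, K ⊆ V → ∃ N ∈ 𝒩, K ⊆ N ∧ N ⊆ V) :
    PB X := by
  refine ⟨sUnion '' {T | T.Finite ∧ T ⊆ 𝒩}, (countable_ofPred_finite_subset hc).image _,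
    fun K U hK hU KU => ?_⟩
  obtain ⟨t, ht⟩ := hK.elim_finite_subcover (fun V : {V // V ∈ B ∧ V ⊆ U} => V.1)
    (fun V => hB.isOpen V.2.1) fun x hx => by
      obtain ⟨V, h1, h2, h3⟩ := hB.exists_subset_of_mem_open (KU hx) hU
      exact mem_iUnion.2 ⟨⟨V, h1, h3⟩, h2⟩
  obtain ⟨C, C1, C2, C3⟩ := hK.finite_compact_cover t _ (fun V _ => hB.isOpen V.2.1) ht
  choose N N1 N2 N3 using fun V : {V // V ∈ B ∧ V ⊆ U} => h (C V) (C1 V) V.1 V.2.1 (C2 V)
  refine ⟨_, ⟨N '' t, ⟨t.finite_toSet.image _, ?_⟩, rfl⟩, ?_, ?_⟩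
  · rintro _ ⟨V, -, rfl⟩; exact N1 V
  · rw [C3]
    exact iUnion₂_subset fun V hV => (N2 V).trans (subset_sUnion_of_mem ⟨V, hV, rfl⟩)
  · refine sUnion_subset ?_
    rintro _ ⟨V, -, rfl⟩; exact (N3 V).trans V.2.2

lemma of_subbasis {Y : Type*} [t : TopologicalSpace Y] [T2Space Y] {S : Set (Set Y)} (hS : t = generateFrom S)
    {𝒩 : Set (Set Y)} (hc : 𝒩.Countable)
    (h : ∀ K, IsCompact K → ∀ V ∈ S, K ⊆ V → ∃ N ∈ 𝒩, K ⊆ N ∧ N ⊆ V) : PB Y := by
  refine of_basis (isTopologicalBasis_of_subbasis hS)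
    ((countable_ofPred_finite_subset hc).image sInter) ?_
  rintro K hK _ ⟨F, ⟨F1, F2⟩, rfl⟩ hF
  choose! N N1 N2 N3 using fun V (hV : V ∈ F) =>
    h K hK V (F2 hV) (hF.trans (sInter_subset_of_mem hV))
  refine ⟨_, ⟨N '' F, ⟨F1.image _, ?_⟩, rfl⟩, ?_, ?_⟩
  · rintro _ ⟨V, hV, rfl⟩; exact N1 V hV
  · refine subset_sInter ?_
    rintro _ ⟨V, hV, rfl⟩; exact N2 V hV
  · exact subset_sInter fun V hV => (sInter_subset_of_mem (mem_image_of_mem N hV)).trans (N3 V hV)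

lemma of_sc [T2Space X] [SecondCountableTopology X] : PB X :=
  of_basis (isBasis_countableBasis X) (countable_countableBasis X)
    fun _ _ V hV h => ⟨V, hV, h, subset_rfl⟩

lemma of_emb {e : X → Y} (he : IsEmbedding e) (h : PB Y) : PB X := by
  obtain ⟨𝒩, hc, h⟩ := h
  refine ⟨preimage e '' 𝒩, hc.image _, fun K U hK hU KU => ?_⟩
  obtain ⟨V, Vo, rfl⟩ := he.isInducing.isOpen_iff.1 hU
  obtain ⟨N, N1, N2, N3⟩ := h _ V (hK.image he.continuous) Vo (image_subset_iff.2 KU)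
  exact ⟨_, ⟨N, N1, rfl⟩, image_subset_iff.1 N2, preimage_mono N3⟩

lemma of_sigma {ι : Type*} [Countable ι] {A : ι → Type*} [∀ i, TopologicalSpace (A i)]
    [∀ i, T2Space (A i)] (h : ∀ i, PB (A i)) : PB (Σ i, A i) := by
  choose 𝒩 hc h using h
  refine of_basis (IsTopologicalBasis.sigma fun i => isTopologicalBasis_opens (α := A i))
    (𝒩 := ⋃ i, (fun u => (Sigma.mk i '' u : Set (Σ i, A i))) '' 𝒩 i)
    (countable_iUnion fun i => (hc i).image _) fun K hK V hV KV => ?_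
  obtain ⟨i, u, hu, rfl⟩ := mem_iUnion.1 hV
  obtain ⟨N, N1, N2, N3⟩ := h i (Sigma.mk i ⁻¹' K) u
    (IsClosedEmbedding.sigmaMk.isCompact_preimage hK) hu (fun y hy => by
      obtain ⟨z, hz, e⟩ := KV hy
      cases e; exact hz)
  refine ⟨_, mem_iUnion.2 ⟨i, N, N1, rfl⟩, fun y hy => ?_, image_mono N3⟩
  obtain ⟨z, -, rfl⟩ := KV hy
  exact ⟨z, N2 hy, rfl⟩

lemma of_pi {ι : Type*} [Countable ι] {A : ι → Type*} [∀ i, TopologicalSpace (A i)]
    [∀ i, T2Space (A i)] (h : ∀ i, PB (A i)) : PB (∀ i, A i) := by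
  choose 𝒩 hc h using h
  refine of_subbasis
    (S := ⋃ i, (fun u => ((fun f => f i) ⁻¹' u : Set (∀ i, A i))) '' {u | IsOpen u}) ?_
    (𝒩 := ⋃ i, (fun u => ((fun f => f i) ⁻¹' u : Set (∀ i, A i))) '' 𝒩 i)
    (countable_iUnion fun i => (hc i).image _) fun K hK V hV KV => ?_
  · rw [generateFrom_iUnion]
    refine iInf_congr fun i => ?_
    rw [← induced_generateFrom_eq, generateFrom_setOfPred_isOpen]
  · obtain ⟨i, u, hu, rfl⟩ := mem_iUnion.1 hV
    obtain ⟨N, N1, N2, N3⟩ := h i _ u (hK.image (continuous_apply i)) hu (image_subset_iff.2 KV)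
    exact ⟨_, mem_iUnion.2 ⟨i, N, N1, rfl⟩, image_subset_iff.1 N2, preimage_mono N3⟩

lemma cpt {K : Set X} (hK : IsCompact K) (x : ℕ → X)
    (h2 : ∀ U, IsOpen U → K ⊆ U → ∃ j, ∀ n, j ≤ n → x n ∈ U) : IsCompact (K ∪ range x) := by
  classical
  refine isCompact_of_finite_subcover fun {ι} U Uo hU => ?_
  obtain ⟨t, ht⟩ := hK.elim_finite_subcover U Uo (subset_union_left.trans hU)
  obtain ⟨j, hj⟩ := h2 _ (isOpen_biUnion fun i _ => Uo i) ht
  obtain ⟨t', ht'⟩ := ((finite_Iio j).image x).isCompact.elim_finite_subcover U Uo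
    (((image_subset_range _ _).trans subset_union_right).trans hU)
  refine ⟨t ∪ t', ?_⟩
  rw [Finset.set_biUnion_union]
  rintro y (hy | ⟨n, rfl⟩)
  · exact Or.inl (ht hy)
  · rcases le_or_gt j n with hn | hn
    · exact Or.inl (hj n hn)
    · exact Or.inr (ht' ⟨n, hn, rfl⟩)

lemma evc [T2Space X] {L : Set X} (hL : IsCompact L) :
    Continuous fun p : C(X, Y) × L => p.1 p.2 := by
  have := isCompact_iff_compactSpace.1 hL
  exact (continuous_eval (F := C(L, Y))).comp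
    (((ContinuousMap.continuous_restrict L).comp continuous_fst).prodMk continuous_snd)

lemma of_ck [T2Space X] [T2Space Y] (hX : PB X) (hY : PB Y) : PB C(X, Y) := by
  classical
  obtain ⟨N, hN⟩ := hX.seq
  obtain ⟨M, hM⟩ := hY.seq
  refine of_subbasis ContinuousMap.compactOpen_eq
    (𝒩 := range fun q : Finset ℕ × Finset ℕ =>
      {f : C(X, Y) | MapsTo f (⋂ j ∈ q.1, N j) (⋃ j ∈ q.2, M j)}) (countable_range _) ?_
  rintro 𝒦 h𝒦 _ ⟨K, hK, U, hU, rfl⟩ hKU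
  by_contra hc
  have h1 : ∀ n, ∃ f ∈ 𝒦, ∃ x ∈ ⋂ j ∈ (Finset.range (n + 1)).filter fun j => K ⊆ N j, N j,
      f x ∉ ⋃ j ∈ (Finset.range (n + 1)).filter fun j => M j ⊆ U, M j := by
    intro n
    by_contra h
    push Not at h
    refine hc ⟨_, ⟨((Finset.range (n + 1)).filter fun j => K ⊆ N j,
      (Finset.range (n + 1)).filter fun j => M j ⊆ U), rfl⟩, fun f hf x hx => h f hf x hx,
      fun f hf x hx => ?_⟩
    obtain ⟨j, hj, h3⟩ := mem_iUnion₂.1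
      (hf (mem_iInter₂.2 fun j hj => (Finset.mem_filter.1 hj).2 hx))
    exact (Finset.mem_filter.1 hj).2 h3
  choose f hf x hx hfx using h1
  have h2 : ∀ V, IsOpen V → K ⊆ V → ∃ j, ∀ n, j ≤ n → x n ∈ V := by
    intro V Vo KV
    obtain ⟨j, j1, j2⟩ := hN K V hK Vo KV
    exact ⟨j, fun n hn => j2 (mem_iInter₂.1 (hx n) j
      (Finset.mem_filter.2 ⟨Finset.mem_range.2 (Nat.lt_succ_of_le hn), j1⟩))⟩
  have hL := cpt hK x h2
  have := isCompact_iff_compactSpace.1 hL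
  have h3 : IsCompact ((fun p : C(X, Y) × ↥(K ∪ range x) => (p.2 : X)) ''
      ((𝒦 ×ˢ univ) ∩ (fun p : C(X, Y) × ↥(K ∪ range x) => p.1 p.2) ⁻¹' Uᶜ)) :=
    ((h𝒦.prod isCompact_univ).inter_right ((IsOpen.isClosed_compl hU).preimage (evc hL))).image
      (continuous_subtype_val.comp continuous_snd)
  obtain ⟨j, hj⟩ := h2 _ h3.isClosed.isOpen_compl (by
    rintro y hy ⟨p, ⟨h4, h5⟩, rfl⟩
    exact h5 (hKU h4.1 hy))
  have hL' := cpt hK (fun n => x (n + j)) fun V Vo KV =>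
    (h2 V Vo KV).imp fun i hi n hn => hi _ (hn.trans (Nat.le_add_right _ _))
  have := isCompact_iff_compactSpace.1 hL'
  obtain ⟨i, i1, i2⟩ := hM _ U ((h𝒦.prod isCompact_univ).image (evc hL')) hU (by
    rintro _ ⟨⟨g, y, hy | ⟨n, rfl⟩⟩, hg, rfl⟩
    · exact hKU hg.1 hy
    · by_contra h
      exact hj (n + j) (Nat.le_add_left _ _)
        ⟨(g, ⟨_, Or.inr ⟨n + j, rfl⟩⟩), ⟨⟨hg.1, trivial⟩, h⟩, rfl⟩)
  refine hfx (i + j) (mem_iUnion₂.2 ⟨i, Finset.mem_filter.2 ⟨Finset.mem_range.2 (by omega), i2⟩,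
    i1 ⟨(f (i + j), ⟨_, Or.inr ⟨i, rfl⟩⟩), ⟨hf _, trivial⟩, rfl⟩⟩)

lemma inj [T1Space X] (h : PB X) : ∃ j : X → Set ℕ, Function.Injective j := by
  obtain ⟨N, hN⟩ := h.seq
  refine ⟨fun x => {j | x ∈ N j}, fun x y e => ?_⟩
  by_contra hne
  obtain ⟨j, j1, j2⟩ := hN {x} {y}ᶜ isCompact_singleton isOpen_compl_singleton
    (singleton_subset_iff.2 hne)
  have : j ∈ {j | y ∈ N j} := (show {j | x ∈ N j} = {j | y ∈ N j} from e) ▸ j1 rfl
  exact j2 this rfl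

abbrev Cn : Type := ℕ → Bool

def cyl (s : Σ n, Fin n → Bool) : Set Cn := ⋂ i, (fun y => y i.1) ⁻¹' {s.2 i}

lemma cyl_clopen (s : Σ n, Fin n → Bool) : IsClopen (cyl s) :=
  isClopen_iInter_of_finite fun i => (isClopen_discrete _).preimage (continuous_apply _)

noncomputable def g (Z : Set Cn) (s : Σ n, Fin n → Bool) : C(Z, ℝ) :=
  ⟨fun y => (cyl s).indicator 1 y.1,
    ((cyl_clopen s).continuous_indicator continuous_const).comp continuous_subtype_val⟩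

lemma g_tend (Z : Set Cn) (x : Cn) :
    Tendsto (fun n => g Z ⟨n, fun i => x i⟩) atTop (𝓝 0) ↔ x ∉ Z := by
  constructor
  · intro h hx
    have h1 := ((continuous_eval_const (⟨x, hx⟩ : Z)).tendsto _).comp h
    have h2 : ∀ n, g Z ⟨n, fun i => x i⟩ ⟨x, hx⟩ = 1 := fun n =>
      indicator_of_mem (s := cyl ⟨n, fun i => x i⟩) (mem_iInter.2 fun _ => rfl) _
    simp only [Function.comp_def, h2] at h1
    exact one_ne_zero (tendsto_nhds_unique tendsto_const_nhds h1)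
  · intro hx
    rw [ContinuousMap.tendsto_iff_forall_isCompact_tendstoUniformlyOn]
    intro K hK
    rw [Metric.tendstoUniformlyOn_iff]
    intro ε hε
    obtain ⟨I, u, hu, hI⟩ := isOpen_pi_iff.1
      (hK.image continuous_subtype_val).isClosed.isOpen_compl x (by
        rintro ⟨y, -, rfl⟩; exact hx y.2)
    obtain ⟨b, hb⟩ := I.bddAbove
    filter_upwards [eventually_gt_atTop b] with n hn y hy
    have : g Z ⟨n, fun i => x i⟩ y = 0 := by
      refine indicator_of_notMem (fun h => hI (fun i hi => ?_) ⟨y, hy, rfl⟩) _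
      have h1 : y.1 i = x i := mem_iInter.1 h ⟨i, (hb hi).trans_lt hn⟩
      rw [h1]; exact (hu i hi).2
    simpa [this] using hε

theorem no_univ (U : Type*) [TopologicalSpace U] (j : U → Set ℕ) (hj : Function.Injective j) :
    ∃ Z : Set Cn, ¬ ∃ e : C(Z, ℝ) → U, IsEmbedding e := by
  by_contra h
  push Not at h
  choose e he using h
  let D : Set Cn → Option (Σ n, Fin n → Bool) → U := fun Z o => o.elim (e Z 0) fun s => e Z (g Z s)
  have key : ∀ Z x, x ∉ Z ↔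
      Tendsto (fun n => D Z (some ⟨n, fun i => x i⟩)) atTop (𝓝 (D Z none)) := fun Z x =>
    (g_tend Z x).symm.trans (he Z).isInducing.tendsto_nhds_iff
  have hi : Function.Injective fun Z o => j (D Z o) := by
    intro Z Z' h
    have hD : D Z = D Z' := funext fun o => hj (congrFun h o)
    ext x
    have := key Z x
    rw [hD, ← key Z' x] at this
    exact not_iff_not.1 this
  have h1 := Cardinal.mk_le_of_injective hi
  have h2 : Cardinal.mk (Option (Σ n, Fin n → Bool)) = Cardinal.aleph0 := Cardinal.mk_eq_aleph0 _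
  rw [← Cardinal.power_def, h2] at h1
  simp at h1
  exact absurd h1 (not_le.2 (Cardinal.cantor _))

end Pool.Agent.H17.Pb
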