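import Pool.Agent.H17.Bits2

set_option autoImplicit false

namespace Pool.Agent.H17

abbrev F2 : Type := ZMod 2

def bv (u : ℕ) : Fin 8 → F2 := fun i => if u.testBit i then 1 else 0

def xs (u : ℕ) (g : Fin 8 → ℕ) : ℕ :=
  (if u.testBit 0 then g 0 else 0) ^^^ (if u.testBit 1 then g 1 else 0) ^^^
  (if u.testBit 2 then g 2 else 0) ^^^ (if u.testBit 3 then g 3 else 0) ^^^
  (if u.testBit 4 then g 4 else 0) ^^^ (if u.testBit 5 then g 5 else 0) ^^^
  (if u.testBit 6 then g 6 else 0) ^^^ (if u.testBit 7 then g 7 else 0)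

def cx {R : Type} [CommRing R] [Algebra F2 R] (x : Fin 8 → R) (v : Fin 8 → F2) : R :=
  ∑ i, v i • x i

theorem cx_ev {R : Type} [CommRing R] [Algebra F2 R] (s l : R) (x : Fin 8 → R) (g : Fin 8 → ℕ)
    (u : ℕ) (h : ∀ i : Fin 8, u.testBit i = true → l * x i = ev s (g i)) :
    l * cx x (bv u) = ev s (xs u g) := by
  have key : ∀ i : Fin 8, ev s (if u.testBit i then g i else 0) = l * (bv u i • x i) := by
    intro i
    by_cases hi : u.testBit i = true
    · simp [bv, hi, h i hi]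
    · simp [bv, hi, ev_zero]
  have k0 := key 0
  have k1 := key 1
  have k2 := key 2
  have k3 := key 3
  have k4 := key 4
  have k5 := key 5
  have k6 := key 6
  have k7 := key 7
  simp only [xs, ev_xor s two_eq, cx, Fin.sum_univ_eight, mul_add]
  rw [← k0, ← k1, ← k2, ← k3, ← k4, ← k5, ← k6, ← k7]
  rfl

theorem bv_surj (v : Fin 8 → F2) : ∃ u, u < 256 ∧ v = bv u := by
  have hinj : Function.Injective (fun u : Fin 256 => bv u) := by
    intro a b h
    apply Fin.ext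
    apply Nat.eq_of_testBit_eq
    intro i
    by_cases hi : i < 8
    · have := congrFun h ⟨i, hi⟩
      simp only [bv] at this
      revert this
      cases a.1.testBit i <;> cases b.1.testBit i <;> simp
    · have h1 : 2 ^ 8 ≤ 2 ^ i := Nat.pow_le_pow_right two_pos (by omega)
      rw [Nat.testBit_lt_two_pow (by omega), Nat.testBit_lt_two_pow (by omega)]
  have hb := (Fintype.bijective_iff_injective_and_card _).2 ⟨hinj, by simp⟩
  obtain ⟨u, hu⟩ := hb.2 v
  exact ⟨u, u.2, hu.symm⟩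

theorem bv_zero : bv 0 = 0 := by
  funext i
  simp [bv]

def dt {R : Type} [CommRing R] [Algebra F2 R] (x y : Fin 8 → R) (u v : Fin 8 → F2) : R :=
  cx x u * cx y v - cx x v * cx y u

def sl (T u : ℕ) : ℕ := (T >>> (16 * u)) % 65536

def chk (f d T : ℕ) (gx gy : Fin 8 → ℕ) (u : ℕ) : Prop :=
  xs u gx < 2 ^ d ∧ xs u gy < 2 ^ d ∧
    ((sl T u = 2 ^ d ∧ xs u gx = 0 ∧ xs u gy ≠ 0) ∨
      (sl T u < 2 ^ d ∧ xs u gx ≠ 0 ∧ mm f d (xs u gx) (sl T u) = xs u gy))

instance (f d T : ℕ) (gx gy : Fin 8 → ℕ) (u : ℕ) : Decidable (chk f d T gx gy u) := by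
  unfold chk
  infer_instance

theorem field_facts {K : Type} [Field K] [Algebra F2 K] (α : K) (f d T : ℕ) (gx gy : Fin 8 → ℕ)
    (hf : ev α f = 0) (hne : ∀ x, x ≠ 0 → x < 2 ^ d → ev α x ≠ 0)
    (hc : ∀ u, u < 256 → u ≠ 0 → chk f d T gx gy u) :
    (∀ u, u < 256 → u ≠ 0 → cx (fun i => ev α (gx i)) (bv u) ≠ 0 ∨
      cx (fun i => ev α (gy i)) (bv u) ≠ 0) ∧
    ∀ u v, u < 256 → u ≠ 0 → v < 256 → v ≠ 0 →
      (dt (fun i => ev α (gx i)) (fun i => ev α (gy i)) (bv u) (bv v) = 0 ↔ sl T u = sl T v) := by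
  have e : ∀ (g : Fin 8 → ℕ) u, cx (fun i => ev α (g i)) (bv u) = ev α (xs u g) := by
    intro g u
    rw [← cx_ev α 1 (fun i => ev α (g i)) g u (fun i _ => one_mul _), one_mul]
  have hs : ∀ u, sl T u < 65536 := fun u => Nat.mod_lt _ (by norm_num)
  constructor
  · intro u hu h0
    rw [e, e]
    obtain ⟨h1, h2, ⟨_, _, h3⟩ | ⟨_, h3, _⟩⟩ := hc u hu h0
    · exact Or.inr (hne _ h3 h2)
    · exact Or.inl (hne _ h3 h1)
  · intro u v hu hu0 hv hv0
    rw [dt, e, e, e, e]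
    obtain ⟨h1, h2, ⟨h3, h4, h5⟩ | ⟨h3, h4, h5⟩⟩ := hc u hu hu0 <;>
      obtain ⟨k1, k2, ⟨k3, k4, k5⟩ | ⟨k3, k4, k5⟩⟩ := hc v hv hv0
    · rw [h4, k4, ev_zero, h3, k3]
      simp
    · rw [h4, ev_zero]
      refine iff_of_false ?_ (by omega)
      simpa using ⟨hne _ k4 k1, hne _ h5 h2⟩
    · rw [k4, ev_zero]
      refine iff_of_false ?_ (by omega)
      simpa using ⟨hne _ h4 h1, hne _ k5 k2⟩
    · rw [← h5, ← k5, ev_mm α two_eq f d hf _ _ (hs u), ev_mm α two_eq f d hf _ _ (hs v)]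
      have a1 := hne _ h4 h1
      have a2 := hne _ k4 k1
      constructor
      · intro h
        by_contra hn
        have a3 := hne (sl T u ^^^ sl T v) (by simpa using hn) (Nat.xor_lt_two_pow h3 k3)
        rw [ev_xor α two_eq] at a3
        apply mul_ne_zero (mul_ne_zero a1 a2) a3
        linear_combination h + (ev α (xs u gx) * ev α (xs v gx) * ev α (sl T u)) *
          (two_eq : (2 : K) = 0)
      · intro h
        rw [h]
        ring

section
variable {R : Type} [CommRing R] [Algebra F2 R]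

/-- the linear functional attached to a vector -/
def fn (x y : Fin 8 → R) (v : Fin 8 → F2) : R × R →ₗ[F2] R where
  toFun c := c.1 * cx x v + c.2 * cx y v
  map_add' a b := by simp only [Prod.fst_add, Prod.snd_add]; ring
  map_smul' a b := by simp [smul_add]

def ann (x y : Fin 8 → R) (V : Submodule F2 (Fin 8 → F2)) : Submodule F2 (R × R) :=
  ⨅ (v : Fin 8 → F2) (_ : v ∈ V), LinearMap.ker (fn x y v)

theorem mem_ann (x y : Fin 8 → R) (V : Submodule F2 (Fin 8 → F2)) (c : R × R) :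
    c ∈ ann x y V ↔ ∀ v ∈ V, c.1 * cx x v + c.2 * cx y v = 0 := by
  simp [ann, fn]

theorem ann_zero (x y : Fin 8 → R) (V : Submodule F2 (Fin 8 → F2)) (h : ∀ v ∈ V, v = 0) :
    ann x y V = ⊤ := by
  rw [eq_top_iff]
  intro c _
  rw [mem_ann]
  intro v hv
  rw [h v hv]
  simp [cx]

theorem ann_two (x y : Fin 8 → R) (V : Submodule F2 (Fin 8 → F2)) (u v : Fin 8 → F2)
    (hu : u ∈ V) (hv : v ∈ V) (h : IsUnit (dt x y u v)) : ann x y V = ⊥ := by
  rw [eq_bot_iff]
  intro c hc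
  rw [mem_ann] at hc
  have h1 := hc u hu
  have h2 := hc v hv
  have a1 : dt x y u v * c.1 = 0 := by
    rw [dt]
    linear_combination cx y v * h1 - cx y u * h2
  have a2 : dt x y u v * c.2 = 0 := by
    rw [dt]
    linear_combination cx x u * h2 - cx x v * h1
  exact Prod.ext (h.mul_right_eq_zero.1 a1) (h.mul_right_eq_zero.1 a2)

theorem ann_one [Module.Finite F2 R] (x y : Fin 8 → R) (V : Submodule F2 (Fin 8 → F2))
    (u : Fin 8 → F2) (hu : u ∈ V) (p q : R) (hpq : p * cx x u + q * cx y u = 1)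
    (h : ∀ v ∈ V, dt x y u v = 0) :
    Module.finrank F2 (ann x y V) = Module.finrank F2 R := by
  have e : ann x y V = LinearMap.ker (fn x y u) := by
    ext c
    rw [mem_ann, LinearMap.mem_ker]
    refine ⟨fun hc => hc u hu, fun hc v hv => ?_⟩
    have h1 : c.1 * cx x u + c.2 * cx y u = 0 := hc
    have h2 := h v hv
    rw [dt] at h2
    linear_combination (-(c.1 * cx x v + c.2 * cx y v)) * hpq +
      (p * cx x v + q * cx y v) * h1 + (p * c.2 - q * c.1) * h2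
  have hs : LinearMap.range (fn x y u) = ⊤ := by
    rw [eq_top_iff]
    intro r _
    refine ⟨(r * p, r * q), ?_⟩
    show r * p * cx x u + r * q * cx y u = r
    linear_combination r * hpq
  have := LinearMap.finrank_range_add_finrank_ker (fn x y u)
  rw [hs, finrank_top, Module.finrank_prod] at this
  rw [e]
  omega

/-- the code map -/
def psi {m : ℕ} (β : R ≃ₗ[F2] (Fin m → F2)) (x y : Fin 8 → R) :
    R × R →ₗ[F2] (Fin 8 → Fin m → F2) where
  toFun c := fun i => β (c.1 * x i + c.2 * y i)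
  map_add' a b := by
    funext i
    simp only [Prod.fst_add, Prod.snd_add, Pi.add_apply, ← map_add]
    congr 1
    ring
  map_smul' a b := by
    funext i
    simp [← map_smul, smul_add]

end

def perp (V : Submodule F2 (Fin 8 → F2)) : Submodule F2 (Fin 8 → F2) :=
  ⨅ (v : Fin 8 → F2) (_ : v ∈ V), LinearMap.ker
    (∑ i : Fin 8, v i • (LinearMap.proj i : (Fin 8 → F2) →ₗ[F2] F2))

theorem mem_perp (V : Submodule F2 (Fin 8 → F2)) (w : Fin 8 → F2) :
    w ∈ perp V ↔ ∀ v ∈ V, ∑ i, v i * w i = 0 := by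
  simp [perp, LinearMap.sum_apply]

theorem perp_perp (W : Submodule F2 (Fin 8 → F2)) : perp (perp W) = W := by
  ext w
  rw [mem_perp]
  constructor
  · intro h
    by_contra hw
    obtain ⟨f, hf1, hf2⟩ := Submodule.exists_le_ker_of_notMem hw
    have e : ∀ z, f z = ∑ i, f (fun j => if i = j then 1 else 0) * z i := by
      intro z
      rw [LinearMap.pi_apply_eq_sum_univ f z]
      exact Finset.sum_congr rfl fun i _ => mul_comm _ _
    apply hf1
    rw [e]
    apply h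
    rw [mem_perp]
    intro v hv
    have := hf2 hv
    rw [LinearMap.mem_ker, e] at this
    exact Eq.trans (Finset.sum_congr rfl fun i _ => mul_comm _ _) this
  · intro hw v hv
    rw [mem_perp] at hv
    exact Eq.trans (Finset.sum_congr rfl fun i _ => mul_comm _ _) (hv w hw)

def cols (m : ℕ) (W : Submodule F2 (Fin 8 → F2)) : Submodule F2 (Fin 8 → Fin m → F2) :=
  ⨅ j : Fin m, Submodule.comap
    (LinearMap.pi (fun i : Fin 8 =>
      LinearMap.comp (LinearMap.proj j : (Fin m → F2) →ₗ[F2] F2)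
        (LinearMap.proj i : (Fin 8 → Fin m → F2) →ₗ[F2] (Fin m → F2)))) W

theorem mem_cols (m : ℕ) (W : Submodule F2 (Fin 8 → F2)) (M : Fin 8 → Fin m → F2) :
    M ∈ cols m W ↔ ∀ j, (fun i => M i j) ∈ W := by
  simp only [cols, Submodule.mem_iInf, Submodule.mem_comap]
  rfl

theorem code_eq {R : Type} [CommRing R] [Algebra F2 R] {m : ℕ} (β : R ≃ₗ[F2] (Fin m → F2))
    (x y : Fin 8 → R) (V : Submodule F2 (Fin 8 → F2)) :
    LinearMap.range (psi β x y) ⊓ cols m (perp V) = Submodule.map (psi β x y) (ann x y V) := by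
  have key : ∀ (c : R × R) (v : Fin 8 → F2) (j : Fin m),
      ∑ i, v i * psi β x y c i j = β (c.1 * cx x v + c.2 * cx y v) j := by
    intro c v j
    have : c.1 * cx x v + c.2 * cx y v = ∑ i, v i • (c.1 * x i + c.2 * y i) := by
      simp only [cx, Finset.mul_sum, ← Finset.sum_add_distrib, smul_add, mul_smul_comm]
    rw [this, map_sum, Finset.sum_apply]
    refine Finset.sum_congr rfl fun i _ => ?_
    rw [map_smul]
    rfl
  ext M
  rw [Submodule.mem_inf, mem_cols, Submodule.mem_map]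
  constructor
  · rintro ⟨⟨c, rfl⟩, h⟩
    refine ⟨c, ?_, rfl⟩
    rw [mem_ann]
    intro v hv
    apply β.injective
    rw [map_zero]
    funext j
    rw [← key]
    exact (mem_perp _ _).1 (h j) v hv
  · rintro ⟨c, hc, rfl⟩
    refine ⟨⟨c, rfl⟩, fun j => (mem_perp _ _).2 fun v hv => ?_⟩
    rw [key, (mem_ann _ _ _ _).1 hc v hv, map_zero]
    rfl

/-- one elimination step -/
def stepOK (j : Fin 8) (px py qx qy : Fin 8 → ℕ) (u1 v1 u2 v2 D g : ℕ) : Prop :=
  (∀ i : Fin 8, (u1.testBit i = true ∨ v1.testBit i = true ∨ u2.testBit i = true ∨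
    v2.testBit i = true) → i < j) ∧
  (xs u1 px < 2 ^ 64 ∧ xs u1 py < 2 ^ 64 ∧ xs v1 px < 2 ^ 64 ∧ xs v1 py < 2 ^ 64 ∧
    xs u2 px < 2 ^ 64 ∧ xs u2 py < 2 ^ 64 ∧ xs v2 px < 2 ^ 64 ∧ xs v2 py < 2 ^ 64) ∧
  D = pmul 64 (xs v1 px) (xs v2 py) ^^^ pmul 64 (xs v1 py) (xs v2 px) ∧
  (D ≠ 0 ∧ D < 2 ^ 29 ∧ g ≠ 0 ∧ g < 2 ^ 29) ∧
  (∀ i : Fin 8, i < j → pmul 64 (qx i) g = pmul 64 (px i) D ∧
    pmul 64 (qy i) g = pmul 64 (py i) D) ∧
  pmul 64 (qx j) g =
    pmul 64 (pmul 64 (xs u1 px) (xs v1 py) ^^^ pmul 64 (xs u1 py) (xs v1 px)) (xs v2 px) ^^^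
    pmul 64 (pmul 64 (xs u2 px) (xs v2 py) ^^^ pmul 64 (xs u2 py) (xs v2 px)) (xs v1 px) ∧
  pmul 64 (qy j) g =
    pmul 64 (pmul 64 (xs u1 px) (xs v1 py) ^^^ pmul 64 (xs u1 py) (xs v1 px)) (xs v2 py) ^^^
    pmul 64 (pmul 64 (xs u2 px) (xs v2 py) ^^^ pmul 64 (xs u2 py) (xs v2 px)) (xs v1 py)

instance (j : Fin 8) (px py qx qy : Fin 8 → ℕ) (u1 v1 u2 v2 D g : ℕ) :
    Decidable (stepOK j px py qx qy u1 v1 u2 v2 D g) := by
  unfold stepOK
  infer_instance

theorem step {K : Type} [Field K] [Algebra F2 K] (s : K)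
    (hne : ∀ x, x ≠ 0 → x < 2 ^ 29 → ev s x ≠ 0) (x y : Fin 8 → K)
    (j : Fin 8) (px py qx qy : Fin 8 → ℕ) (u1 v1 u2 v2 D g : ℕ)
    (ok : stepOK j px py qx qy u1 v1 u2 v2 D g)
    (e1 : (x j + cx x (bv u1)) * cx y (bv v1) - cx x (bv v1) * (y j + cx y (bv u1)) = 0)
    (e2 : (x j + cx x (bv u2)) * cx y (bv v2) - cx x (bv v2) * (y j + cx y (bv u2)) = 0)
    (h : ∃ l : K, l ≠ 0 ∧ ∀ i, i < j → l * x i = ev s (px i) ∧ l * y i = ev s (py i)) :
    ∃ l : K, l ≠ 0 ∧ ∀ i, i ≤ j → l * x i = ev s (qx i) ∧ l * y i = ev s (qy i) := by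
  obtain ⟨l, hl, h⟩ := h
  obtain ⟨o1, ⟨b1, b2, b3, b4, b5, b6, b7, b8⟩, o2, ⟨d0, d1, g0, g1⟩, o3, o4, o5⟩ := ok
  have t2 : (2 : K) = 0 := two_eq
  have hD := hne D d0 d1
  have hg := hne g g0 g1
  have a1 := cx_ev s l x px u1 fun i hi => (h i (o1 i (by simp [hi]))).1
  have a2 := cx_ev s l y py u1 fun i hi => (h i (o1 i (by simp [hi]))).2
  have a3 := cx_ev s l x px v1 fun i hi => (h i (o1 i (by simp [hi]))).1
  have a4 := cx_ev s l y py v1 fun i hi => (h i (o1 i (by simp [hi]))).2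
  have a5 := cx_ev s l x px u2 fun i hi => (h i (o1 i (by simp [hi]))).1
  have a6 := cx_ev s l y py u2 fun i hi => (h i (o1 i (by simp [hi]))).2
  have a7 := cx_ev s l x px v2 fun i hi => (h i (o1 i (by simp [hi]))).1
  have a8 := cx_ev s l y py v2 fun i hi => (h i (o1 i (by simp [hi]))).2
  have g2 : g < 2 ^ 64 := by omega
  have d2 : D < 2 ^ 64 := by omega
  have c2 := congrArg (ev s) o2
  have c4 := congrArg (ev s) o4
  have c5 := congrArg (ev s) o5
  simp only [ev_xor s t2, ev_pmul s t2 64 _ _ b3, ev_pmul s t2 64 _ _ b4,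
    ev_pmul s t2 64 _ _ b7, ev_pmul s t2 64 _ _ b8, ev_pmul s t2 64 _ _ g2,
    ← a1, ← a2, ← a3, ← a4, ← a5, ← a6, ← a7, ← a8] at c2 c4 c5
  refine ⟨l * ev s D / ev s g, div_ne_zero (mul_ne_zero hl hD) hg, fun i hi => ?_⟩
  rcases lt_or_eq_of_le hi with hi | rfl
  · obtain ⟨p1, p2⟩ := o3 i hi
    have q1 := congrArg (ev s) p1
    have q2 := congrArg (ev s) p2
    rw [ev_pmul s t2 64 _ _ g2, ev_pmul s t2 64 _ _ d2] at q1 q2
    rw [← (h i hi).1] at q1
    rw [← (h i hi).2] at q2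
    constructor
    · field_simp
      linear_combination -q1
    · field_simp
      linear_combination -q2
  · constructor
    · field_simp
      rw [mul_comm (ev s g), c4, c2]
      linear_combination (l ^ 3 * cx x (bv v2)) * e1 + (l ^ 3 * cx x (bv v1)) * e2 +
        (l ^ 3 * (cx x (bv v1) * cx x (bv v2) * y i
          - cx x (bv u1) * cx y (bv v1) * cx x (bv v2)
          - cx x (bv u2) * cx y (bv v2) * cx x (bv v1))) * t2
    · field_simp
      rw [mul_comm (ev s g), c5, c2]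
      linear_combination (l ^ 3 * cx y (bv v2)) * e1 + (l ^ 3 * cx y (bv v1)) * e2 +
        (l ^ 3 * (cx x (bv v1) * cx y (bv v2) * y i + cx y (bv v1) * cx x (bv v2) * y i
          - x i * cx y (bv v1) * cx y (bv v2)
          - cx x (bv u1) * cx y (bv v1) * cx y (bv v2)
          - cx x (bv u2) * cx y (bv v2) * cx y (bv v1))) * t2

end Pool.Agent.H17
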