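import Mathlib

/-! Ray spaces of order trees are completely normal; squares often are not. -/

namespace Pool.Agent.H17.Ray

open Set Filter Topology

universe u v

/-- An order tree: a poset with a least element in which each set `{s | s ≤ t}` is
well-ordered. -/
def IsOrderTree (T : Type u) [PartialOrder T] : Prop :=
  (∃ r : T, ∀ t, r ≤ t) ∧ ∀ t : T, IsChain (· ≤ ·) (Iic t) ∧ (Iic t).IsWF

/-- A ray: a downward closed chain with no maximal element (nonempty, if `ne` holds). -/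
def IsRay (ne : Prop) {T : Type u} [PartialOrder T] (R : Set T) : Prop :=
  IsLowerSet R ∧ IsChain (· ≤ ·) R ∧ (∀ a ∈ R, ∃ b ∈ R, a < b) ∧ (ne → R.Nonempty)

/-- The ray space, as the subspace of `2 ^ T` of characteristic functions of rays. -/
abbrev RaySp (ne : Prop) (T : Type u) [PartialOrder T] : Type u :=
  {χ : T → Bool // IsRay ne {t | χ t = true}}

variable {ne : Prop} {T : Type u} [PartialOrder T]

/-- The set of nodes of a ray. -/
def S (R : RaySp ne T) : Set T := {t | R.1 t = true}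

/-- Basic neighbourhoods. -/
def U (R : RaySp ne T) (F : Set T) : Set (RaySp ne T) := {Q | ∀ t ∈ F, (t ∈ S Q ↔ t ∈ S R)}

lemma S_low (R : RaySp ne T) {a b : T} (h : a ≤ b) (hb : b ∈ S R) : a ∈ S R := R.2.1 h hb

lemma S_cmp (R : RaySp ne T) {a b : T} (ha : a ∈ S R) (hb : b ∈ S R) : a ≤ b ∨ b ≤ a :=
  R.2.2.1.total ha hb

lemma clopen (t : T) (p : Prop) : IsClopen {Q : RaySp ne T | t ∈ S Q ↔ p} := by
  have h : Continuous fun Q : RaySp ne T => Q.1 t := (continuous_apply t).comp continuous_subtype_val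
  exact (isClopen_discrete {b : Bool | b = true ↔ p}).preimage h

lemma U_open (R : RaySp ne T) {F : Set T} (hF : F.Finite) : IsOpen (U R F) := by
  have : U R F = ⋂ t ∈ F, {Q : RaySp ne T | t ∈ S Q ↔ t ∈ S R} := by
    ext Q; simp [U]
  rw [this]
  exact hF.isOpen_biInter fun t _ => (clopen t _).isOpen

lemma mem_U (R : RaySp ne T) (F : Set T) : R ∈ U R F := fun _ _ => Iff.rfl

lemma red (hT : IsOrderTree T) (R : RaySp ne T) (t : T) :
    ∃ c, (c ∈ S R ∨ Iio c = S R) ∧ ∀ Q : RaySp ne T, (c ∈ S Q ↔ c ∈ S R) → (t ∈ S Q ↔ t ∈ S R) := by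
  by_cases ht : t ∈ S R
  · exact ⟨t, Or.inl ht, fun Q h => h⟩
  have hw : (Iic t \ S R).IsWF := (hT.2 t).2.mono sdiff_subset
  have hne : (Iic t \ S R).Nonempty := ⟨t, le_rfl, ht⟩
  set m := hw.min hne with hm
  have hm1 : m ∈ Iic t \ S R := hw.min_mem hne
  have hm2 : ∀ u, u < m → u ∈ S R := fun u hu => by
    by_contra h
    exact hw.not_lt_min hne ⟨hu.le.trans hm1.1, h⟩ hu
  by_cases h : ∀ r ∈ S R, r < m
  · refine ⟨m, Or.inr (Subset.antisymm hm2 h), fun Q hQ => iff_of_false (fun h1 => ?_) ht⟩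
    exact hm1.2 (hQ.1 (S_low Q hm1.1 h1))
  · push Not at h
    obtain ⟨r, hr, hrm⟩ := h
    refine ⟨r, Or.inl hr, fun Q hQ => iff_of_false (fun h1 => ?_) ht⟩
    rcases S_cmp Q (hQ.2 hr) (S_low Q hm1.1 h1) with h2 | h2
    · rcases h2.eq_or_lt with h3 | h3
      · exact hm1.2 (h3 ▸ hr)
      · exact hrm h3
    · exact hm1.2 (S_low R h2 hr)

lemma basis (hT : IsOrderTree T) (R : RaySp ne T) {W : Set (RaySp ne T)} (hW : W ∈ 𝓝 R) :
    ∃ F : Set T, F.Finite ∧ (∀ t ∈ F, t ∈ S R ∨ Iio t = S R) ∧ U R F ⊆ W := by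
  obtain ⟨W', hW', hWW⟩ := (mem_nhds_induced Subtype.val R W).1 hW
  rw [nhds_pi, Filter.mem_pi] at hW'
  obtain ⟨I, hI, V, hV, hVW⟩ := hW'
  choose c hc hc' using red hT R
  refine ⟨c '' I, hI.image c, ?_, fun Q hQ => hWW (hVW fun t ht => ?_)⟩
  · rintro _ ⟨t, -, rfl⟩
    exact hc t
  · have h1 : Q.1 t = R.1 t := Bool.eq_iff_iff.2 (hc' t Q (hQ _ (mem_image_of_mem c ht)))
    rw [h1]
    exact mem_of_mem_nhds (hV t)

lemma key {R R' Q : RaySp ne T} {F F' : Set T} (hF : ∀ t ∈ F, t ∈ S R ∨ Iio t = S R)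
    (hF' : ∀ t ∈ F', t ∈ S R' ∨ Iio t = S R') (h : Q ∈ U R F) (h' : Q ∈ U R' F') :
    R ∈ U R' F' ∨ R' ∈ U R F := by
  by_contra hc
  simp only [U, mem_ofPred_eq, not_or, not_forall] at hc
  obtain ⟨⟨t', ht', h1⟩, ⟨t, ht, h2⟩⟩ := hc
  have e1 := h t ht
  have e2 := h' t' ht'
  rcases hF t ht with a | a <;> rcases hF' t' ht' with b | b
  · rcases S_cmp Q (e1.2 a) (e2.2 b) with c | c
    · exact h2 (iff_of_true (S_low _ c b) a)
    · exact h1 (iff_of_true (S_low _ c a) b)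
  · have b1 : t' ∉ S R' := by rw [← b]; exact lt_irrefl t'
    have b2 : t' ∈ S R := by tauto
    rcases S_cmp R a b2 with c | c
    · rcases c.eq_or_lt with d | d
      · exact b1 (e2.1 (d ▸ e1.2 a))
      · exact h2 (iff_of_true (b ▸ d) a)
    · exact b1 (e2.1 (S_low _ c (e1.2 a)))
  · have a1 : t ∉ S R := by rw [← a]; exact lt_irrefl t
    have a2 : t ∈ S R' := by tauto
    rcases S_cmp R' b a2 with c | c
    · rcases c.eq_or_lt with d | d
      · exact a1 (e1.1 (d ▸ e2.2 b))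
      · exact h1 (iff_of_true (a ▸ d) b)
    · exact a1 (e1.1 (S_low _ c (e2.2 b)))
  · have a1 : t ∉ S R := by rw [← a]; exact lt_irrefl t
    have a2 : t ∈ S R' := by tauto
    have b1 : t' ∉ S R' := by rw [← b]; exact lt_irrefl t'
    have b2 : t' ∈ S R := by tauto
    rw [← a] at b2
    exact b1 (S_low _ (le_of_lt b2) a2)

theorem complNormal (hT : IsOrderTree T) : CompletelyNormalSpace (RaySp ne T) := by
  refine ⟨fun A B hA hB => ?_⟩
  have h1 : ∀ R ∈ A, ∃ F : Set T, F.Finite ∧ (∀ t ∈ F, t ∈ S R ∨ Iio t = S R) ∧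
      U R F ⊆ (closure B)ᶜ := fun R hR =>
    basis hT R (isClosed_closure.isOpen_compl.mem_nhds (disjoint_left.1 hB hR))
  have h2 : ∀ R ∈ B, ∃ F : Set T, F.Finite ∧ (∀ t ∈ F, t ∈ S R ∨ Iio t = S R) ∧
      U R F ⊆ (closure A)ᶜ := fun R hR =>
    basis hT R (isClosed_closure.isOpen_compl.mem_nhds (disjoint_right.1 hA hR))
  choose! F hF hF1 hF2 using h1
  choose! G hG hG1 hG2 using h2
  refine disjoint_of_disjoint_of_mem (s := ⋃ R ∈ A, U R (F R)) (t := ⋃ R ∈ B, U R (G R)) ?_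
    ((isOpen_biUnion fun R hR => U_open R (hF R hR)).mem_nhdsSet.2 fun R hR =>
      mem_biUnion hR (mem_U R _))
    ((isOpen_biUnion fun R hR => U_open R (hG R hR)).mem_nhdsSet.2 fun R hR =>
      mem_biUnion hR (mem_U R _))
  refine disjoint_left.2 fun Q h h' => ?_
  obtain ⟨R, hR, h⟩ := mem_iUnion₂.1 h
  obtain ⟨R', hR', h'⟩ := mem_iUnion₂.1 h'
  rcases key (hF1 R hR) (hG1 R' hR') h h' with c | c
  · exact hG2 R' hR' c (subset_closure hR)
  · exact hF2 R hR c (subset_closure hR')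

lemma katetov {X Y : Type*} [TopologicalSpace X] [TopologicalSpace Y] [T1Space Y]
    [CompletelyNormalSpace (X × Y)] {D : Set Y} {y : Y} (hy : y ∈ closure D) (hy' : y ∉ D)
    {C : Set X} (hC : IsClosed C) :
    ∃ W : Y → Set X, (∀ d ∈ D, IsOpen (W d) ∧ C ⊆ W d) ∧ ∀ x ∉ C, ∃ d ∈ D, x ∉ W d := by
  have h := CompletelyNormalSpace.completely_normal (s := C ×ˢ D) (t := Cᶜ ×ˢ {y}) ?_ ?_
  · obtain ⟨P, hP, V, hV, hPV⟩ := Filter.disjoint_iff.1 h
    obtain ⟨P', hP', hP1, hP2⟩ := mem_nhdsSet_iff_exists.1 hP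
    obtain ⟨V', hV', hV1, hV2⟩ := mem_nhdsSet_iff_exists.1 hV
    refine ⟨fun d => {x | (x, d) ∈ P'}, fun d hd => ⟨hP'.preimage (by fun_prop),
      fun x hx => hP1 ⟨hx, hd⟩⟩, fun x hx => ?_⟩
    obtain ⟨d, hd, hd'⟩ := mem_closure_iff.1 hy {d | (x, d) ∈ V'} (hV'.preimage (by fun_prop))
      (hV1 ⟨hx, rfl⟩)
    exact ⟨d, hd', fun h1 => disjoint_left.1 hPV (hP2 h1) (hV2 hd)⟩
  · refine disjoint_left.2 fun p hp hp' => hp'.1 ?_
    exact (closure_minimal (prod_mono_right (subset_univ D)) (hC.prod isClosed_univ) hp).1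
  · refine disjoint_left.2 fun p hp hp' => hy' ?_
    have := (closure_minimal (prod_mono_left (subset_univ Cᶜ))
      (isClosed_univ.prod isClosed_singleton) hp').2
    exact (mem_singleton_iff.1 this) ▸ hp.2

lemma ub {M G : Set T} (hM : IsChain (· ≤ ·) M) (hne : M.Nonempty) (hG : G.Finite) :
    ∃ r ∈ M, ∀ g ∈ G, g ∈ M → g ≤ r := by
  induction G, hG using Set.Finite.induction_on with
  | empty => obtain ⟨r, hr⟩ := hne; exact ⟨r, hr, by simp⟩
  | @insert a s _ _ ih =>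
    obtain ⟨r, hr, h⟩ := ih
    by_cases ha : a ∈ M
    · rcases hM.total ha hr with c | c
      · exact ⟨r, hr, fun g hg hgM => hg.elim (fun e => e ▸ c) fun e => h g e hgM⟩
      · exact ⟨a, ha, fun g hg hgM => hg.elim (fun e => e ▸ le_rfl) fun e => (h g e hgM).trans c⟩
    · exact ⟨r, hr, fun g hg hgM => hg.elim (fun e => absurd (e ▸ hgM) ha) fun e => h g e hgM⟩

lemma acc (hT : IsOrderTree T) (H2 : ∀ L : Set T, {s | Iio s = L}.Countable) {A0 A : Set T}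
    (hA0 : IsAntichain (· ≤ ·) A0) (hA : A ⊆ A0) (hA' : ¬ A.Countable) (P : T → RaySp ne T)
    (hP : ∀ a ∈ A0, a ∈ S (P a)) :
    ∃ R : RaySp ne T, (∀ a ∈ A0, a ∉ S R) ∧ ∀ F : Set T, F.Finite →
      (∀ t ∈ F, t ∈ S R ∨ Iio t = S R) → ∃ a ∈ A, P a ∈ U R F := by
  classical
  obtain ⟨⟨r0, hr0⟩, hT2⟩ := hT
  set T' : Set T := {t | ¬ {a | a ∈ A ∧ t ≤ a}.Countable} with hT'
  have h0 : r0 ∈ T' := fun h => hA' (h.mono fun a ha => And.intro ha (hr0 a))
  have hlow : ∀ {a b}, a ≤ b → b ∈ T' → a ∈ T' := fun hab hb h =>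
    hb (h.mono fun x hx => And.intro hx.1 (hab.trans hx.2))
  have hdis : ∀ a ∈ A0, a ∉ T' := fun a ha h =>
    h ((countable_singleton a).mono fun x hx => (hA0.eq ha (hA hx.1) hx.2).symm)
  have hext : ∀ t ∈ T', ∃ s ∈ T', t < s := by
    intro t ht
    by_contra hc
    push Not at hc
    refine ht ((((H2 (Iic t)).biUnion (t := fun s _ => {a | a ∈ A ∧ s ≤ a}) fun s hs => ?_).insert
      t).mono fun a ha => ?_)
    · by_contra h
      have h1 : t ∈ Iio s := by rw [show Iio s = Iic t from hs]; exact le_refl t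
      exact hc s h h1
    · rcases ha.2.eq_or_lt with h | h
      · exact Or.inl h.symm
      have hw : (Iic a ∩ Ioi t).IsWF := (hT2 a).2.mono inter_subset_left
      have hne : (Iic a ∩ Ioi t).Nonempty := ⟨a, le_rfl, h⟩
      have hm1 := hw.min_mem hne
      refine Or.inr (mem_iUnion₂.2 ⟨hw.min hne, ?_, ha.1, hm1.1⟩)
      refine Subset.antisymm (fun u hu => ?_) fun u hu => lt_of_le_of_lt hu hm1.2
      have hu1 : u ≤ a := (le_of_lt hu).trans hm1.1
      rcases (hT2 a).1.total hu1 ha.2 with c | c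
      · exact c
      · rcases c.eq_or_lt with d | d
        · exact d.ge
        · exact absurd hu (hw.not_lt_min hne ⟨hu1, d⟩)
  obtain ⟨M, hM0, hM⟩ := zorn_subset_nonempty {c : Set T | c ⊆ T' ∧ IsChain (· ≤ ·) c}
    (fun c hc hch _ => ⟨⋃₀ c, ⟨sUnion_subset fun s hs => (hc hs).1, by
      rintro x ⟨s, hs, hx⟩ y ⟨s', hs', hy⟩ hxy
      rcases hch.total hs hs' with e | e
      · exact (hc hs').2 (e hx) hy hxy
      · exact (hc hs).2 hx (e hy) hxy⟩, fun s hs => subset_sUnion_of_mem hs⟩) {r0}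
    ⟨singleton_subset_iff.2 h0, subsingleton_singleton.isChain⟩
  have hM1 : M ⊆ T' := hM.prop.1
  have hM2 : IsChain (· ≤ ·) M := hM.prop.2
  have hmax : ∀ t ∈ T', (∀ m ∈ M, t ≤ m ∨ m ≤ t) → t ∈ M := fun t ht h =>
    hM.le_of_ge (y := insert t M) ⟨insert_subset ht hM1, hM2.insert fun b hb _ => h b hb⟩
      (subset_insert t M) (mem_insert t M)
  have hne : M.Nonempty := ⟨r0, hM0 rfl⟩
  have hlM : IsLowerSet M := by
    intro r u hu hr
    refine hmax u (hlow hu (hM1 hr)) fun m hm => ?_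
    rcases hM2.total hm hr with c | c
    · exact (hT2 r).1.total hu c
    · exact Or.inl (le_trans hu c)
  have hnm : ∀ a ∈ M, ∃ b ∈ M, a < b := by
    intro r hr
    by_contra hc
    push Not at hc
    obtain ⟨s, hs, hrs⟩ := hext r (hM1 hr)
    refine hc s (hmax s hs fun m hm => Or.inr ?_) hrs
    rcases hM2.total hm hr with c | c
    · exact c.trans hrs.le
    · rcases c.eq_or_lt with d | d
      · exact d ▸ hrs.le
      · exact absurd d (hc m hm)
  have hS : {t | decide (t ∈ M) = true} = M := by ext t; simp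
  let R : RaySp ne T := ⟨fun t => decide (t ∈ M), by rw [hS]; exact ⟨hlM, hM2, hnm, fun _ => hne⟩⟩
  have hR : S R = M := hS
  refine ⟨R, fun a ha h => hdis a ha (hM1 (hR ▸ h)), fun F hF hF' => ?_⟩
  rw [hR] at hF'
  obtain ⟨r, hr, hr'⟩ := ub hM2 hne hF
  have hc : (⋃ s ∈ {s | s ∈ F ∧ s ∉ M}, {a | a ∈ A ∧ s ≤ a}).Countable := by
    refine (hF.subset fun s hs => hs.1).countable.biUnion fun s hs => ?_
    by_contra h
    have h1 := (hF' s hs.1).resolve_left hs.2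
    exact hs.2 (hmax s h fun m hm => Or.inr (le_of_lt (show m ∈ Iio s from h1 ▸ hm)))
  obtain ⟨a, ha, ha'⟩ : ∃ a, (a ∈ A ∧ r ≤ a) ∧ a ∉ ⋃ s ∈ {s | s ∈ F ∧ s ∉ M},
      {a | a ∈ A ∧ s ≤ a} := by
    by_contra h
    push Not at h
    exact hM1 hr (hc.mono h)
  refine ⟨a, ha.1, fun t ht => ?_⟩
  rw [hR]
  by_cases htM : t ∈ M
  · exact iff_of_true (S_low _ ((hr' t ht htM).trans ha.2) (hP a (hA ha.1))) htM
  · refine iff_of_false (fun h => ?_) htM
    have h1 : ¬ t ≤ a := fun h2 => ha' (mem_biUnion (x := t) ⟨ht, htM⟩ ⟨ha.1, h2⟩)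
    have h2 := (S_cmp _ h (hP a (hA ha.1))).resolve_left h1
    have h3 : a ∈ Iio t := lt_of_le_of_ne h2 fun e => h1 e.ge
    rw [(hF' t ht).resolve_left htM] at h3
    exact hdis a (hA ha.1) (hM1 h3)

lemma cfam (H1 : ∀ C : Set T, IsChain (· ≤ ·) C → C.Countable)
    (H2 : ∀ L : Set T, {s | Iio s = L}.Countable) (R : RaySp ne T) :
    {F : Set T | F.Finite ∧ ∀ t ∈ F, t ∈ S R ∨ Iio t = S R}.Countable :=
  (countable_ofPred_finite_subset ((H1 _ R.2.2.1).union (H2 (S R)))).mono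
    fun _ hF => And.intro hF.1 hF.2

theorem firstCountable (hT : IsOrderTree T) (H1 : ∀ C : Set T, IsChain (· ≤ ·) C → C.Countable)
    (H2 : ∀ L : Set T, {s | Iio s = L}.Countable) : FirstCountableTopology (RaySp ne T) := by
  refine ⟨fun R => ?_⟩
  refine HasCountableBasis.isCountablyGenerated
    (p := fun F : Set T => F.Finite ∧ ∀ t ∈ F, t ∈ S R ∨ Iio t = S R) (s := U R)
    ⟨⟨fun W => ⟨fun hW => ?_, ?_⟩⟩, cfam H1 H2 R⟩
  · obtain ⟨F, h1, h2, h3⟩ := basis hT R hW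
    exact ⟨F, ⟨h1, h2⟩, h3⟩
  · rintro ⟨F, h1, h3⟩
    exact mem_of_superset ((U_open R h1.1).mem_nhds (mem_U R F)) h3

theorem notCN (hT : IsOrderTree T) (H1 : ∀ C : Set T, IsChain (· ≤ ·) C → C.Countable)
    (H2 : ∀ L : Set T, {s | Iio s = L}.Countable) {A0 : Set T} (hA0 : IsAntichain (· ≤ ·) A0)
    (hA' : ¬ A0.Countable) (hP : ∀ a ∈ A0, ∃ R : RaySp ne T, a ∈ S R) :
    ¬ CompletelyNormalSpace (RaySp ne T × RaySp ne T) := by
  intro hN
  have : Nonempty (RaySp ne T) := by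
    obtain ⟨a, ha⟩ : A0.Nonempty := nonempty_iff_ne_empty.2 fun h => hA' (h ▸ countable_empty)
    exact ⟨(hP a ha).choose⟩
  choose! P hP using hP
  obtain ⟨R0, h1, h2⟩ := acc hT H2 hA0 Subset.rfl hA' P hP
  have : Nonempty T := ⟨hT.1.choose⟩
  choose! a ha ha' using fun (F : Set T) (h : F.Finite ∧ ∀ t ∈ F, t ∈ S R0 ∨ Iio t = S R0) =>
    h2 F h.1 h.2
  set D := (fun F => P (a F)) '' {F : Set T | F.Finite ∧ ∀ t ∈ F, t ∈ S R0 ∨ Iio t = S R0}
  have hD : D.Countable := (cfam H1 H2 R0).image _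
  have hy : R0 ∈ closure D := mem_closure_iff_nhds.2 fun W hW => by
    obtain ⟨F, e1, e2, e3⟩ := basis hT R0 hW
    exact ⟨_, e3 (ha' F ⟨e1, e2⟩), F, ⟨e1, e2⟩, rfl⟩
  have hy' : R0 ∉ D := by
    rintro ⟨F, hF, e⟩
    exact h1 _ (ha F hF) (e ▸ hP _ (ha F hF))
  have hC : IsClosed {Q : RaySp ne T | ∀ a ∈ A0, (a ∈ S Q ↔ False)} := by
    rw [ofPred_forall]
    refine isClosed_iInter fun a => ?_
    rw [ofPred_forall]
    exact isClosed_iInter fun _ => (clopen a False).isClosed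
  obtain ⟨W, hW, hW'⟩ := katetov hy hy' hC
  obtain ⟨d, hd, hd'⟩ : ∃ d ∈ D, ¬ {a | a ∈ A0 ∧ P a ∉ W d}.Countable := by
    by_contra h
    push Not at h
    refine hA' ((hD.biUnion h).mono fun a ha => ?_)
    obtain ⟨d, hd, hd'⟩ := hW' (P a) fun h => (h a ha).1 (hP a ha)
    exact mem_biUnion hd ⟨ha, hd'⟩
  obtain ⟨R, e1, e2⟩ := acc hT H2 hA0 (fun a ha => ha.1) hd' P hP
  obtain ⟨F, f1, f2, f3⟩ := basis hT R ((hW d hd).1.mem_nhds ((hW d hd).2
    fun a ha => iff_false_intro (e1 a ha)))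
  obtain ⟨a, ha, ha'⟩ := e2 F f1 f2
  exact ha.2 (f3 ha')

theorem notRay (hT : IsOrderTree T) (H1 : ∀ C : Set T, IsChain (· ≤ ·) C → C.Countable)
    (H2 : ∀ L : Set T, {s | Iio s = L}.Countable) {A0 : Set T} (hA0 : IsAntichain (· ≤ ·) A0)
    (hA' : ¬ A0.Countable) (hP : ∀ a ∈ A0, ∃ R : RaySp ne T, a ∈ S R) (ne' : Prop)
    (T' : Type v) [PartialOrder T'] (hT' : IsOrderTree T') :
    IsEmpty (RaySp ne T × RaySp ne T ≃ₜ RaySp ne' T') := by
  refine ⟨fun e => notCN hT H1 H2 hA0 hA' hP ?_⟩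
  have := complNormal (ne := ne') hT'
  exact e.isInducing.completelyNormalSpace

end Pool.Agent.H17.Ray
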