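import Pool.Agent.H17.Ray

/-! Grafting order trees; quasi-ray subsets. -/

namespace Pool.Agent.H17.Ray

open Set Filter Topology

universe u

lemma IsOrderTree.wf {T : Type u} [PartialOrder T] (hT : IsOrderTree T) :
    WellFounded (fun a b : T => a < b) := by
  refine WellFounded.wellFounded_iff_has_min.2 fun s ⟨a, ha⟩ => ?_
  have hw : (Iic a ∩ s).IsWF := (hT.2 a).2.mono inter_subset_left
  have hne : (Iic a ∩ s).Nonempty := ⟨a, le_rfl, ha⟩
  have hm := hw.min_mem hne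
  exact ⟨_, hm.2, fun x hx e => hw.not_lt_min hne ⟨e.le.trans hm.1, hx⟩ e⟩

lemma IsOrderTree.cmp {T : Type u} [PartialOrder T] (hT : IsOrderTree T) {a b c : T} (ha : a ≤ c)
    (hb : b ≤ c) : a ≤ b ∨ b ≤ a := (hT.2 c).1.total ha hb

lemma isOrderTree_of {T : Type u} [PartialOrder T] (r : T) (hr : ∀ t, r ≤ t)
    (hc : ∀ a b c : T, a ≤ c → b ≤ c → a ≤ b ∨ b ≤ a) (hw : WellFounded (fun a b : T => a < b)) :
    IsOrderTree T :=
  ⟨⟨r, hr⟩, fun t => ⟨fun a ha b hb _ => hc a b t ha hb, hw.wellFoundedOn⟩⟩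

/-- The trees `Tr i` grafted on top of the chain `L` of `T0`. -/
def Gr {T0 : Type u} (_L : Set T0) {ι : Type u} (Tr : ι → Type u) : Type u := T0 ⊕ (Σ i, Tr i)

section graft

variable {T0 : Type u} [PartialOrder T0] {L : Set T0} {ι : Type u} {Tr : ι → Type u}
  [∀ i, PartialOrder (Tr i)]

/-- The order of the grafted tree. -/
def grLe (L : Set T0) : T0 ⊕ (Σ i, Tr i) → T0 ⊕ (Σ i, Tr i) → Prop
  | .inl a, .inl b => a ≤ b
  | .inl a, .inr _ => a ∈ L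
  | .inr p, .inr q => p ≤ q
  | .inr _, .inl _ => False

/-- The grafted poset. -/
@[reducible] def grOrd (hL : IsLowerSet L) : PartialOrder (Gr L Tr) where
  le := grLe L
  le_refl := by rintro (a | p) <;> exact le_refl _
  le_trans := by
    rintro (a | p) (b | q) (c | r) h h'
    · exact le_trans (α := T0) h h'
    · exact hL (show a ≤ b from h) h'
    · exact h'.elim
    · exact h
    · exact h.elim
    · exact h.elim
    · exact h'.elim
    · exact le_trans (α := Σ i, Tr i) h h'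
  le_antisymm := by
    rintro (a | p) (b | q) h h'
    · exact congrArg Sum.inl (le_antisymm (α := T0) h h')
    · exact h'.elim
    · exact h.elim
    · exact congrArg Sum.inr (le_antisymm (α := Σ i, Tr i) h h')

end graft

variable {X : Type u} [TopologicalSpace X]

/-- `p` is locally constant on `A`. -/
def LC (A : Set X) (p : X → Prop) : Prop := ∀ x ∈ A, ∀ᶠ y in 𝓝[A] x, (p y ↔ p x)

/-- `A` maps continuously and bijectively onto a ray space. -/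
def QR (A : Set X) : Prop :=
  ∃ (T : Type u) (_ : PartialOrder T), IsOrderTree T ∧ ∃ f : X → Set T,
    (∀ t, LC A fun x => t ∈ f x) ∧ BijOn f A {R | IsRay True R}

theorem graft {A : Set X} {ι : Type u} (B : ι → Set X) (hBA : ∀ i, B i ⊆ A)
    (hd : ∀ i j x, x ∈ B i → x ∈ B j → i = j) (hc : ∀ i, LC A fun x => x ∈ B i)
    (hq : ∀ i, QR (B i)) {T0 : Type u} [PartialOrder T0] (hT : IsOrderTree T0) {L : Set T0}
    (hL : IsLowerSet L) (hL' : IsChain (· ≤ ·) L) (hne : L.Nonempty) (g : X → Set T0)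
    (hg : ∀ t, LC A fun x => t ∈ g x) (hgL : ∀ i, ∀ x ∈ B i, g x = L)
    (hb : BijOn g (A \ ⋃ i, B i) {R | IsRay True R}) : QR A := by
  classical
  choose Tr inst hTr f hf hf' using hq
  letI : PartialOrder (Gr L Tr) := grOrd hL
  let l : T0 → Gr L Tr := Sum.inl
  let r : ∀ i, Tr i → Gr L Tr := fun i a => Sum.inr ⟨i, a⟩
  have cs : ∀ z : Gr L Tr, (∃ a, z = l a) ∨ ∃ i a, z = r i a := by
    rintro (a | ⟨i, a⟩)
    · exact Or.inl ⟨a, rfl⟩
    · exact Or.inr ⟨i, a, rfl⟩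
  have ll : ∀ {a b}, l a ≤ l b ↔ a ≤ b := Iff.rfl
  have lr : ∀ {a i b}, l a ≤ r i b ↔ a ∈ L := Iff.rfl
  have rl : ∀ {a i b}, ¬ r i b ≤ l a := fun h => h
  have rr : ∀ {i a b}, r i a ≤ r i b ↔ a ≤ b := Sigma.mk_le_mk_iff
  have rr' : ∀ {i j a b}, r i a ≤ r j b → i = j := fun h => (Sigma.le_def.1 h).1
  have ll' : ∀ {a b}, l a < l b ↔ a < b := by
    intro a b; simp only [lt_iff_le_not_ge, ll]
  have rr2 : ∀ {i a b}, r i a < r i b ↔ a < b := by
    intro i a b; simp only [lt_iff_le_not_ge, rr]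
  let F : X → Set (Gr L Tr) := fun x => {z | Sum.elim (fun a => a ∈ g x)
    (fun p : Σ i, Tr i => x ∈ B p.1 ∧ p.2 ∈ f p.1 x) z}
  have Fl : ∀ {x a}, l a ∈ F x ↔ a ∈ g x := Iff.rfl
  have Fr : ∀ {x i a}, r i a ∈ F x ↔ x ∈ B i ∧ a ∈ f i x := Iff.rfl
  clear_value l r F
  refine ⟨Gr L Tr, inferInstance, ?_, F, fun z => ?_, fun x hx => ?_, fun x hx y hy e => ?_,
    fun R hR => ?_⟩
  · obtain ⟨r0, hr0⟩ := hT.1
    refine isOrderTree_of (l r0) (fun z => ?_) (fun a b c ha hb => ?_) ?_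
    · rcases cs z with ⟨a, rfl⟩ | ⟨i, a, rfl⟩
      · exact ll.2 (hr0 a)
      · exact lr.2 (hL (hr0 _) hne.some_mem)
    · rcases cs a with ⟨a, rfl⟩ | ⟨i, a, rfl⟩ <;> rcases cs b with ⟨b, rfl⟩ | ⟨j, b, rfl⟩ <;>
        rcases cs c with ⟨c, rfl⟩ | ⟨k, c, rfl⟩
      · exact (hT.cmp (ll.1 ha) (ll.1 hb)).imp ll.2 ll.2
      · exact (hL'.total (lr.1 ha) (lr.1 hb)).imp ll.2 ll.2
      · exact absurd hb rl
      · exact Or.inl (lr.2 (lr.1 ha))
      · exact absurd ha rl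
      · exact Or.inr (lr.2 (lr.1 hb))
      · exact absurd ha rl
      · obtain rfl := rr' ha
        obtain rfl := rr' hb
        exact ((hTr _).cmp (rr.1 ha) (rr.1 hb)).imp rr.2 rr.2
    · have h1 : ∀ a, Acc (fun a b : Gr L Tr => a < b) (l a) := fun a => by
        induction a using hT.wf.induction with
        | _ a ih =>
          refine ⟨_, fun z hz => ?_⟩
          rcases cs z with ⟨b, rfl⟩ | ⟨i, b, rfl⟩
          · exact ih b (ll'.1 hz)
          · exact absurd hz.le rl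
      refine ⟨fun z => ?_⟩
      rcases cs z with ⟨a, rfl⟩ | ⟨i, a, rfl⟩
      · exact h1 a
      · induction a using (hTr i).wf.induction with
        | _ a ih =>
          refine ⟨_, fun z hz => ?_⟩
          rcases cs z with ⟨b, rfl⟩ | ⟨j, b, rfl⟩
          · exact h1 b
          · obtain rfl := rr' hz.le
            exact ih b (rr2.1 hz)
  · rcases cs z with ⟨a, rfl⟩ | ⟨i, a, rfl⟩
    · simpa only [Fl] using hg a
    · intro x hx
      simp only [Fr]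
      by_cases h : x ∈ B i
      · have h1 := hf i a x h
        rw [eventually_nhdsWithin_iff] at h1
        filter_upwards [hc i x hx, nhdsWithin_le_nhds h1] with y h2 h3
        exact ⟨fun e => ⟨h, (h3 e.1).1 e.2⟩, fun e => ⟨h2.2 h, (h3 (h2.2 h)).2 e.2⟩⟩
      · filter_upwards [hc i x hx] with y h2
        exact iff_of_false (fun e => h (h2.1 e.1)) fun e => h e.1
  · by_cases h : ∃ i, x ∈ B i
    · obtain ⟨i, hi⟩ := h
      obtain ⟨e1, e2, e3, e4⟩ := (hf' i).1 hi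
      obtain ⟨a0, ha0⟩ := e4 trivial
      have hx' := hgL i x hi
      refine ⟨fun a b hab ha => ?_, fun a ha b hb _ => ?_, fun a ha => ?_,
        fun _ => ⟨r i a0, Fr.2 ⟨hi, ha0⟩⟩⟩
      · rcases cs a with ⟨a, rfl⟩ | ⟨j, a, rfl⟩ <;> rcases cs b with ⟨b, rfl⟩ | ⟨k, b, rfl⟩
        · exact Fl.2 (hx' ▸ hL (ll.1 hab) (hx' ▸ Fl.1 ha))
        · exact absurd hab rl
        · exact Fl.2 (hx' ▸ lr.1 hab)
        · obtain rfl := rr' hab
          obtain rfl := hd _ _ x hi (Fr.1 ha).1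
          exact Fr.2 ⟨hi, e1 (rr.1 hab) (Fr.1 ha).2⟩
      · rcases cs a with ⟨a, rfl⟩ | ⟨j, a, rfl⟩ <;> rcases cs b with ⟨b, rfl⟩ | ⟨k, b, rfl⟩
        · exact (hL'.total (hx' ▸ Fl.1 ha) (hx' ▸ Fl.1 hb)).imp ll.2 ll.2
        · exact Or.inl (lr.2 (hx' ▸ Fl.1 ha))
        · exact Or.inr (lr.2 (hx' ▸ Fl.1 hb))
        · obtain rfl := hd _ _ x hi (Fr.1 ha).1
          obtain rfl := hd _ _ x hi (Fr.1 hb).1
          exact (e2.total (Fr.1 ha).2 (Fr.1 hb).2).imp rr.2 rr.2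
      · rcases cs a with ⟨a, rfl⟩ | ⟨j, a, rfl⟩
        · exact ⟨r i a0, Fr.2 ⟨hi, ha0⟩, lt_iff_le_not_ge.2 ⟨lr.2 (hx' ▸ Fl.1 ha), rl⟩⟩
        · obtain rfl := hd _ _ x hi (Fr.1 ha).1
          obtain ⟨b, hb, hab⟩ := e3 a (Fr.1 ha).2
          exact ⟨r _ b, Fr.2 ⟨hi, hb⟩, rr2.2 hab⟩
    · obtain ⟨e1, e2, e3, e4⟩ := hb.1 ⟨hx, fun e => h (mem_iUnion.1 e)⟩
      obtain ⟨a0, ha0⟩ := e4 trivial
      refine ⟨fun a b hab ha => ?_, fun a ha b hb _ => ?_, fun a ha => ?_,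
        fun _ => ⟨l a0, Fl.2 ha0⟩⟩
      · rcases cs a with ⟨a, rfl⟩ | ⟨j, a, rfl⟩ <;> rcases cs b with ⟨b, rfl⟩ | ⟨k, b, rfl⟩
        · exact Fl.2 (e1 (ll.1 hab) (Fl.1 ha))
        · exact absurd hab rl
        · exact absurd ⟨_, (Fr.1 ha).1⟩ h
        · exact absurd ⟨_, (Fr.1 ha).1⟩ h
      · rcases cs a with ⟨a, rfl⟩ | ⟨j, a, rfl⟩ <;> rcases cs b with ⟨b, rfl⟩ | ⟨k, b, rfl⟩
        · exact (e2.total (Fl.1 ha) (Fl.1 hb)).imp ll.2 ll.2
        · exact absurd ⟨_, (Fr.1 hb).1⟩ h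
        · exact absurd ⟨_, (Fr.1 ha).1⟩ h
        · exact absurd ⟨_, (Fr.1 ha).1⟩ h
      · rcases cs a with ⟨a, rfl⟩ | ⟨j, a, rfl⟩
        · obtain ⟨b, hb, hab⟩ := e3 a (Fl.1 ha)
          exact ⟨l b, Fl.2 hb, ll'.2 hab⟩
        · exact absurd ⟨_, (Fr.1 ha).1⟩ h
  · have key : ∀ x y i, F x = F y → x ∈ B i → y ∈ B i := fun x y i e hi => by
      obtain ⟨a0, ha0⟩ := ((hf' i).1 hi).2.2.2 trivial
      exact (Fr.1 (e ▸ Fr.2 ⟨hi, ha0⟩)).1
    by_cases h : ∃ i, x ∈ B i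
    · obtain ⟨i, hi⟩ := h
      have hi' := key x y i e hi
      refine (hf' i).2.1 hi hi' (Set.ext fun a => ⟨fun ha => ?_, fun ha => ?_⟩)
      · exact (Fr.1 (e ▸ Fr.2 ⟨hi, ha⟩)).2
      · exact (Fr.1 (e.symm ▸ Fr.2 ⟨hi', ha⟩)).2
    · refine hb.2.1 ⟨hx, fun e => h (mem_iUnion.1 e)⟩ ⟨hy, fun e' => ?_⟩
        (Set.ext fun a => by rw [← Fl, ← Fl, e])
      obtain ⟨i, hi⟩ := mem_iUnion.1 e'
      exact h ⟨i, key y x i e.symm hi⟩
  · obtain ⟨e1, e2, e3, e4⟩ := hR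
    by_cases h : ∃ i a, r i a ∈ R
    · obtain ⟨i, a0, ha0⟩ := h
      obtain ⟨x, hx, hx'⟩ := (hf' i).2.2 (show {a | r i a ∈ R} ∈ {R | IsRay True R} from
        ⟨fun a b hab ha => e1 (rr.2 hab) ha, fun a ha b hb _ => (e2.total ha hb).imp rr.1 rr.1,
          fun a ha => by
            obtain ⟨z, hz, haz⟩ := e3 _ ha
            rcases cs z with ⟨b, rfl⟩ | ⟨j, b, rfl⟩
            · exact absurd haz.le rl
            · obtain rfl := rr' haz.le
              exact ⟨b, hz, rr2.1 haz⟩, fun _ => ⟨a0, ha0⟩⟩)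
      refine ⟨x, hBA i hx, Set.ext fun z => ?_⟩
      rcases cs z with ⟨b, rfl⟩ | ⟨j, b, rfl⟩
      · rw [Fl, hgL i x hx]
        exact ⟨fun hb => e1 (lr.2 hb) ha0, fun hb => lr.1 ((e2.total hb ha0).resolve_right rl)⟩
      · rw [Fr]
        refine ⟨fun hb => ?_, fun hb => ?_⟩
        · obtain rfl := hd _ _ x hx hb.1
          exact hx'.le hb.2
        · obtain rfl : i = j := (e2.total ha0 hb).elim rr' fun e => (rr' e).symm
          exact ⟨hx, hx'.ge hb⟩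
    · obtain ⟨x, hx, hx'⟩ := hb.2.2 (show {a | l a ∈ R} ∈ {R | IsRay True R} from
        ⟨fun a b hab ha => e1 (ll.2 hab) ha, fun a ha b hb _ => (e2.total ha hb).imp ll.1 ll.1,
          fun a ha => by
            obtain ⟨z, hz, haz⟩ := e3 _ ha
            rcases cs z with ⟨b, rfl⟩ | ⟨j, b, rfl⟩
            · exact ⟨b, hz, ll'.1 haz⟩
            · exact absurd ⟨j, b, hz⟩ h, fun _ => by
            obtain ⟨z, hz⟩ := e4 trivial
            rcases cs z with ⟨b, rfl⟩ | ⟨j, b, rfl⟩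
            · exact ⟨b, hz⟩
            · exact absurd ⟨j, b, hz⟩ h⟩)
      refine ⟨x, hx.1, Set.ext fun z => ?_⟩
      rcases cs z with ⟨b, rfl⟩ | ⟨j, b, rfl⟩
      · rw [Fl, hx']; rfl
      · rw [Fr]
        exact iff_of_false (fun e => hx.2 (mem_iUnion.2 ⟨j, e.1⟩)) fun e => h ⟨j, b, e⟩

theorem sum {A : Set X} {ι : Type u} (B : ι → Set X) (hBA : ∀ i, B i ⊆ A)
    (hd : ∀ i j x, x ∈ B i → x ∈ B j → i = j) (ho : ∀ i, IsOpen (B i)) (hq : ∀ i, QR (B i))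
    (hA : ∀ x ∈ A, ∃ i, x ∈ B i) : QR A := by
  have hT : IsOrderTree PUnit.{u + 1} := isOrderTree_of PUnit.unit (fun _ => le_rfl)
    (fun _ _ _ _ _ => Or.inl le_rfl) wellFounded_lt
  refine graft B hBA hd (fun i x hx => ?_) hq hT (L := univ) isLowerSet_univ
    (fun _ _ _ _ _ => Or.inl le_rfl) univ_nonempty (fun _ => univ)
    (fun t x hx => Eventually.of_forall fun _ => Iff.rfl) (fun _ _ _ => rfl)
    ⟨fun x hx => absurd (mem_iUnion.2 (hA x hx.1)) hx.2,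
      fun x hx => absurd (mem_iUnion.2 (hA x hx.1)) hx.2, fun R hR => ?_⟩
  · obtain ⟨j, hj⟩ := hA x hx
    filter_upwards [nhdsWithin_le_nhds ((ho j).mem_nhds hj)] with y hy
    exact ⟨fun e => hd _ _ y hy e ▸ hj, fun e => hd _ _ x hj e ▸ hy⟩
  · obtain ⟨a, ha⟩ := hR.2.2.2 trivial
    obtain ⟨b, -, hb⟩ := hR.2.2.1 a ha
    exact absurd hb (lt_irrefl _)

end Pool.Agent.H17.Ray
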