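import Pool.Agent.H17.Ray4

/-! Open subsets of ray spaces are quasi-ray spaces. -/

namespace Pool.Agent.H17.Ray

open Set Filter Topology

universe u

variable {T : Type u} [PartialOrder T]

lemma S_inj {Q R : RaySp True T} (h : S Q = S R) : Q = R :=
  Subtype.ext (funext fun t => Bool.eq_iff_iff.2 (Set.ext_iff.1 h t))

lemma ex_ray {M : Set T} (h : IsRay True M) : ∃ R : RaySp True T, S R = M := by
  classical
  have hS : {t | decide (t ∈ M) = true} = M := by ext t; simp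
  exact ⟨⟨fun t => decide (t ∈ M), by rw [hS]; exact h⟩, hS⟩

lemma S_ray (Q : RaySp True T) : IsRay True (S Q) := Q.2

lemma ev (t : T) (x : RaySp True T) : ∀ᶠ y in 𝓝 x, (t ∈ S y ↔ t ∈ S x) :=
  (clopen t (t ∈ S x)).isOpen.mem_nhds Iff.rfl

lemma open_mem (t : T) : IsOpen {Q : RaySp True T | t ∈ S Q} :=
  isOpen_iff_mem_nhds.2 fun x hx => (ev t x).mono fun _ h => h.2 hx

lemma open_nmem (t : T) : IsOpen {Q : RaySp True T | t ∉ S Q} :=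
  isOpen_iff_mem_nhds.2 fun x hx => (ev t x).mono fun _ h e => hx (h.1 e)

/-- The part of the cone above `s` inside `D`. -/
abbrev Cone (s : T) (D : Set T) : Type u := {v : T // s ≤ v ∧ v ∈ D}

lemma cone_tree (hT : IsOrderTree T) {s : T} {D : Set T} (hs : s ∈ D) : IsOrderTree (Cone s D) :=
  isOrderTree_of ⟨s, le_rfl, hs⟩ (fun t => t.2.1)
    (fun _ _ _ ha hb => hT.cmp (a := _) (b := _) ha hb) (InvImage.wf Subtype.val hT.wf)

lemma cone_bij (s : T) {D : Set T} (hD : IsLowerSet D) (hT : IsOrderTree T) :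
    BijOn (fun Q : RaySp True T => {v : Cone s D | v.1 ∈ S Q}) {Q | s ∈ S Q ∧ S Q ⊆ D}
      {R | IsRay True R} := by
  refine ⟨fun Q hQ => ⟨fun a b hab ha => S_low Q hab ha, fun a ha b hb _ => S_cmp Q ha hb,
    fun a ha => ?_, fun _ => ⟨⟨s, le_rfl, hQ.2 hQ.1⟩, hQ.1⟩⟩, ?_, fun R hR => ?_⟩
  · obtain ⟨b, hb, hab⟩ := (S_ray Q).2.2.1 a.1 ha
    exact ⟨⟨b, a.2.1.trans hab.le, hQ.2 hb⟩, hb, hab⟩
  · have key : ∀ Q ∈ {Q : RaySp True T | s ∈ S Q ∧ S Q ⊆ D},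
        ∀ Q' ∈ {Q : RaySp True T | s ∈ S Q ∧ S Q ⊆ D},
        {v : Cone s D | v.1 ∈ S Q} = {v : Cone s D | v.1 ∈ S Q'} → S Q ⊆ S Q' := by
      intro Q hQ Q' hQ' e a ha
      rcases S_cmp Q ha hQ.1 with c | c
      · exact S_low Q' c hQ'.1
      · exact e.le (show (⟨a, c, hQ.2 ha⟩ : Cone s D) ∈ {v : Cone s D | v.1 ∈ S Q} from ha)
    exact fun Q hQ Q' hQ' e => S_inj (Subset.antisymm (key Q hQ Q' hQ' e) (key Q' hQ' Q hQ e.symm))
  · obtain ⟨e1, e2, e3, e4⟩ := hR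
    obtain ⟨a0, ha0⟩ := e4 trivial
    obtain ⟨Q, hQ⟩ := ex_ray (M := {t | ∃ v ∈ R, t ≤ v.1}) ⟨fun a b hab ⟨v, hv, h⟩ =>
      ⟨v, hv, hab.trans h⟩, fun a ⟨v, hv, h⟩ b ⟨w, hw, h'⟩ _ => (e2.total hv hw).elim
        (fun c => hT.cmp (h.trans c) h') fun c => hT.cmp h (h'.trans c), fun a ⟨v, hv, h⟩ => by
          obtain ⟨w, hw, h'⟩ := e3 v hv
          exact ⟨w.1, ⟨w, hw, le_rfl⟩, h.trans_lt h'⟩, fun _ => ⟨a0.1, a0, ha0, le_rfl⟩⟩
    refine ⟨Q, ⟨hQ ▸ ⟨a0, ha0, a0.2.1⟩, hQ ▸ fun t ⟨v, _, h⟩ => hD h v.2.2⟩, Set.ext fun v => ?_⟩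
    show v.1 ∈ S Q ↔ _
    rw [hQ]
    exact ⟨fun ⟨w, hw, h⟩ => e1 (show v ≤ w from h) hw, fun h => ⟨v, h, le_rfl⟩⟩

lemma cone_qr (hT : IsOrderTree T) {s : T} {D : Set T} (hD : IsLowerSet D) (hs : s ∈ D) :
    QR {Q : RaySp True T | s ∈ S Q ∧ S Q ⊆ D} :=
  ⟨Cone s D, inferInstance, cone_tree hT hs, _, fun t x _ => nhdsWithin_le_nhds (ev t.1 x),
    cone_bij s hD hT⟩

lemma qr1 (hT : IsOrderTree T) (s : T) : QR {Q : RaySp True T | s ∈ S Q} := by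
  simpa using cone_qr hT (s := s) isLowerSet_univ (mem_univ s)

lemma qr2 (hT : IsOrderTree T) {s t : T} (h : s < t) :
    QR {Q : RaySp True T | s ∈ S Q ∧ t ∉ S Q} := by
  have := cone_qr hT (s := s) (D := {v | ¬ t ≤ v}) (fun a b hab ha e => ha (e.trans hab)) h.not_ge
  convert this using 3 with Q
  exact and_congr_right fun _ => ⟨fun e v hv e' => e (S_low Q e' hv), fun e e' => e e' le_rfl⟩

lemma top_of (hT : IsOrderTree T) {M N : Set T} (hM : IsLowerSet M) (hN : IsLowerSet N)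
    (hN' : IsChain (· ≤ ·) N) {a : T} (ha : a ∈ N) (ha' : a ∉ M) :
    ∃ t ∈ N, t ∉ M ∧ Iio t = N ∩ M := by
  obtain ⟨m, hm, hm'⟩ := hT.wf.has_min (N \ M) ⟨a, ha, ha'⟩
  refine ⟨m, hm.1, hm.2, Subset.antisymm (fun v hv => ?_) fun v hv => ?_⟩
  · have := hN (le_of_lt hv) hm.1
    exact ⟨this, by_contra fun e => hm' v ⟨this, e⟩ hv⟩
  · rcases hN'.total hv.1 hm.1 with c | c
    · exact lt_of_le_of_ne c fun e => hm.2 (e ▸ hv.2)
    · exact absurd (hM c hv.2) hm.2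

lemma top_eq {Q : RaySp True T} {a b : T} (h : Iio a = Iio b) (ha : a ∈ S Q) (hb : b ∈ S Q) :
    a = b := by
  by_contra hne
  rcases S_cmp Q ha hb with c | c
  · exact lt_irrefl a (h.ge (lt_of_le_of_ne c hne))
  · exact lt_irrefl b (h.le (lt_of_le_of_ne c (Ne.symm hne)))

lemma qr3 (hT : IsOrderTree T) (c : RaySp True T) {s : T} (hs : s ∈ S c) :
    QR {Q : RaySp True T | s ∈ S Q ∧ ¬ S c ⊆ S Q} := by
  classical
  choose! n hn hn' using (S_ray c).2.2.1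
  let r : ℕ → T := fun k => n^[k] s
  have hr : ∀ k, r k ∈ S c := fun k => by
    induction k with
    | zero => exact hs
    | succ k ih => simp only [r, Function.iterate_succ_apply']; exact hn _ ih
  have hr' : StrictMono r := strictMono_nat_of_lt_succ fun k => by
    simp only [r, Function.iterate_succ_apply']; exact hn' _ (hr k)
  have hr0 : r 0 = s := rfl
  clear_value r
  let Y : ℕ → Set (RaySp True T) := fun k => {Q | r k ∈ S Q ∧ r (k + 1) ∉ S Q}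
  have hY : ∀ k, Y k ⊆ {Q : RaySp True T | s ∈ S Q ∧ ¬ S c ⊆ S Q} := fun k Q hQ =>
    ⟨S_low Q (hr0 ▸ hr'.monotone (Nat.zero_le k)) hQ.1, fun e => hQ.2 (e (hr _))⟩
  have hYd : ∀ i j Q, Q ∈ Y i → Q ∈ Y j → i = j := fun i j Q hi hj => by
    by_contra hne
    rcases lt_or_gt_of_ne hne with e | e
    · exact hi.2 (S_low Q (hr'.monotone e) hj.1)
    · exact hj.2 (S_low Q (hr'.monotone e) hi.1)
  have hYc : ∀ Q : RaySp True T, s ∈ S Q → (∀ k, Q ∉ Y k) → ∀ k, r k ∈ S Q := fun Q hQ h k => by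
    induction k with
    | zero => exact hr0 ▸ hQ
    | succ k ih => exact by_contra fun e => h k ⟨ih, e⟩
  obtain ⟨x, hx⟩ := ex_ray (M := {t | ∃ k, t ≤ r k}) ⟨fun a b hab ⟨v, h⟩ => ⟨v, hab.trans h⟩,
    fun a ⟨v, h⟩ b ⟨w, h'⟩ _ => S_cmp c (S_low c h (hr v)) (S_low c h' (hr w)),
    fun a ⟨v, h⟩ => ⟨r (v + 1), ⟨_, le_rfl⟩, h.trans_lt (hr' (Nat.lt_succ_self v))⟩,
    fun _ => ⟨r 0, 0, le_rfl⟩⟩
  have hx1 : ∀ k, r k ∈ S x := fun k => hx ▸ ⟨k, le_rfl⟩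
  have hx2 : ∀ Q : RaySp True T, (∀ k, r k ∈ S Q) → S x ⊆ S Q := fun Q h =>
    hx ▸ fun t ⟨k, hk⟩ => S_low Q hk (h k)
  by_cases hc : S c ⊆ S x
  · refine sum (ι := ULift.{u} ℕ) (fun k => Y k.down) (fun k => hY _)
      (fun i j Q hi hj => ULift.ext _ _ (hYd _ _ Q hi hj))
      (fun k => (open_mem _).inter (open_nmem _)) (fun k => qr2 hT (hr' (Nat.lt_succ_self _)))
      fun Q hQ => ?_
    by_contra h
    push Not at h
    exact hQ.2 (hc.trans (hx2 Q (hYc Q hQ.1 fun k => h ⟨k⟩)))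
  obtain ⟨a, ha, ha'⟩ := not_subset.1 hc
  obtain ⟨t, ht, ht1, ht2⟩ := top_of hT (S_ray x).1 (S_ray c).1 (S_ray c).2.1 ha ha'
  rw [inter_eq_right.2 (hx2 c hr)] at ht2
  let D : Set T := {v | ¬ S c ⊆ Iio v}
  have hD : IsLowerSet D := fun a b hab ha e => ha (e.trans (Iio_subset_Iio hab))
  have hcD : S c ⊆ D := fun v hv e => lt_irrefl v (e hv)
  let B : ULift.{u} ℕ ⊕ {b : T // Iio b = S x ∧ b ≠ t} → Set (RaySp True T) :=
    Sum.elim (fun k => Y k.down) fun b => {Q | b.1 ∈ S Q}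
  have hrt : ∀ b, Iio b = S x → ∀ Q : RaySp True T, b ∈ S Q → ∀ k, r k ∈ S Q :=
    fun b hb Q hQ k => S_low Q (le_of_lt (show r k ∈ Iio b from hb ▸ hx1 k)) hQ
  have hBt : ∀ i, ∀ Q ∈ B i, t ∉ S Q := by
    rintro (k | b) Q hQ e
    · exact hQ.2 (hrt t ht2 Q e _)
    · exact b.2.2 (top_eq (b.2.1.trans ht2.symm) hQ e)
  refine graft B ?_ ?_ ?_ ?_ (cone_tree hT (hcD ht)) (L := {v : Cone t D | v.1 ∈ S c})
    (fun a b hab ha => S_low c hab ha) (fun a ha b hb _ => S_cmp c ha hb)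
    ⟨⟨t, le_rfl, hcD ht⟩, ht⟩ (fun Q => {v : Cone t D | v.1 ∈ S (if t ∈ S Q then Q else c)})
    (fun v Q _ => ?_) (fun i Q hQ => by simp only [if_neg (hBt i Q hQ)]) ?_
  · rintro (k | b)
    · exact hY _
    · exact fun Q hQ => ⟨hr0 ▸ hrt b.1 b.2.1 Q hQ 0, fun e => hBt (.inr b) Q hQ (e ht)⟩
  · rintro (i | i) (j | j) Q hi hj
    · exact congrArg _ (ULift.ext _ _ (hYd _ _ Q hi hj))
    · exact absurd (hrt j.1 j.2.1 Q hj _) hi.2
    · exact absurd (hrt i.1 i.2.1 Q hi _) hj.2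
    · exact congrArg _ (Subtype.ext (top_eq (i.2.1.trans j.2.1.symm) hi hj))
  · rintro (k | b) Q _
    · filter_upwards [nhdsWithin_le_nhds (ev (r k.down) Q),
        nhdsWithin_le_nhds (ev (r (k.down + 1)) Q)] with y h1 h2
      exact and_congr h1 h2.not
    · exact nhdsWithin_le_nhds (ev b.1 Q)
  · rintro (k | b)
    · exact qr2 hT (hr' (Nat.lt_succ_self _))
    · exact qr1 hT b.1
  · filter_upwards [nhdsWithin_le_nhds (ev t Q), nhdsWithin_le_nhds (ev v.1 Q)] with y h1 h2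
    by_cases h : t ∈ S Q
    · simp only [if_pos h, if_pos (h1.2 h), h2]
    · simp only [if_neg h, if_neg fun e => h (h1.1 e)]
  · refine BijOn.comp (cone_bij t hD hT) (f := fun Q => if t ∈ S Q then Q else c) ?_
    have h1 : ∀ Q ∈ {Q : RaySp True T | s ∈ S Q ∧ ¬ S c ⊆ S Q} \ ⋃ i, B i, t ∉ S Q → Q = x := by
      intro Q hQ h
      have e1 := hx2 Q (hYc Q hQ.1.1 fun k e => hQ.2 (mem_iUnion.2 ⟨.inl ⟨k⟩, e⟩))
      refine S_inj (Subset.antisymm (fun a ha => by_contra fun ha' => ?_) e1)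
      obtain ⟨b, hb, -, hb2⟩ := top_of hT (S_ray x).1 (S_ray Q).1 (S_ray Q).2.1 ha ha'
      rw [inter_eq_right.2 e1] at hb2
      exact hQ.2 (mem_iUnion.2 ⟨.inr ⟨b, hb2, fun e => h (e ▸ hb)⟩, hb⟩)
    refine ⟨fun Q hQ => ?_, fun Q hQ Q' hQ' e => ?_, fun Q hQ => ?_⟩
    · by_cases h : t ∈ S Q
      · simp only [if_pos h]
        exact ⟨h, fun v hv e => hQ.1.2 fun w hw => S_low Q (le_of_lt (e hw)) hv⟩
      · simp only [if_neg h]
        exact ⟨ht, hcD⟩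
    · by_cases h : t ∈ S Q <;> by_cases h' : t ∈ S Q'
      · simpa only [if_pos h, if_pos h'] using e
      · simp only [if_pos h, if_neg h'] at e
        exact absurd (e ▸ Subset.rfl) hQ.1.2
      · simp only [if_neg h, if_pos h'] at e
        exact absurd (e ▸ Subset.rfl) hQ'.1.2
      · rw [h1 Q hQ h, h1 Q' hQ' h']
    · by_cases h : S c ⊆ S Q
      · refine ⟨x, ⟨⟨hr0 ▸ hx1 0, hc⟩, fun e => ?_⟩, ?_⟩
        · obtain ⟨k | b, e⟩ := mem_iUnion.1 e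
          · exact e.2 (hx1 _)
          · exact lt_irrefl b.1 (b.2.1.ge e)
        · simp only [if_neg ht1]
          refine S_inj (Subset.antisymm h fun v hv => by_contra fun hv' => hQ.2 hv fun w hw => ?_)
          rcases S_cmp Q (h hw) hv with d | d
          · exact lt_of_le_of_ne d fun e => hv' (e ▸ hw)
          · exact absurd (S_low c d hw) hv'
      · refine ⟨Q, ⟨⟨hr0 ▸ hrt t ht2 Q hQ.1 0, h⟩, fun e => ?_⟩, if_pos hQ.1⟩
        obtain ⟨i, e⟩ := mem_iUnion.1 e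
        exact hBt i Q e hQ.1

theorem open_qr (hT : IsOrderTree T) {O : Set (RaySp True T)} (hO : IsOpen O) : QR O := by
  classical
  obtain ⟨r0, hr0⟩ := hT.1
  have root : ∀ Q : RaySp True T, r0 ∈ S Q := fun Q =>
    S_low Q (hr0 _) ((S_ray Q).2.2.2 trivial).some_mem
  by_cases hC : ∀ c, c ∈ O
  · convert qr1 hT r0 using 1
    exact Set.ext fun Q => iff_of_true (hC Q) (root Q)
  push Not at hC
  obtain ⟨c0, hc0⟩ := hC
  let T1 : Set T := {t | ∃ c, c ∉ O ∧ t ∈ S c}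
  have hT1 : IsLowerSet T1 := fun a b hab ⟨c, hc, h⟩ => ⟨c, hc, S_low c hab h⟩
  let L : T → Set T := fun s => {v | ∀ c, c ∉ O → s ∈ S c → v ∈ S c}
  have hb : ∀ Q ∈ O, ∀ s ∈ S Q, ∃ Φ : Set T, Φ.Finite ∧ ∃ r ∈ S Q, s ≤ r ∧
      ∀ c, c ∉ O → r ∈ S c → ∃ φ ∈ Φ, φ ∈ S c ∧ φ ∉ S Q ∧ Iio φ = S Q := by
    intro Q hQ s hs
    obtain ⟨Φ, f1, f2, f3⟩ := basis hT Q (hO.mem_nhds hQ)
    obtain ⟨r, hr, hr'⟩ := ub (S_ray Q).2.1 ⟨s, hs⟩ (f1.insert s)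
    refine ⟨Φ, f1, r, hr, hr' s (Or.inl rfl) hs, fun c hc hrc => ?_⟩
    by_contra h
    push Not at h
    refine hc (f3 fun φ hφ => ⟨fun e => by_contra fun e' => ?_, fun e => ?_⟩)
    · exact h φ hφ e e' ((f2 φ hφ).resolve_left e')
    · exact S_low c (hr' φ (Or.inr hφ) e) hrc
  let B : {m : T // m ∉ T1 ∧ ∃ c, c ∉ O ∧ Iio m = S c} ⊕
      {s : T // s ∈ T1 ∧ ∀ v, v < s → s ∉ L v} → Set (RaySp True T) :=
    Sum.elim (fun m => {Q | m.1 ∈ S Q}) fun s => {Q | s.1 ∈ S Q ∧ S Q ∩ T1 ⊆ L s.1 ∧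
      ∀ c, c ∉ O → S c = L s.1 → ¬ L s.1 ⊆ S Q}
  have hBO : ∀ i, B i ⊆ O := by
    rintro (m | s) Q hQ
    · exact by_contra fun e => m.2.1 ⟨Q, e, hQ⟩
    · by_contra e
      have e1 : L s.1 ⊆ S Q := fun v hv => hv Q e hQ.1
      exact hQ.2.2 Q e (Subset.antisymm (fun v hv => hQ.2.1 ⟨hv, Q, e, hv⟩) e1) e1
  have hab : ∀ m s Q, Q ∈ B (.inl m) → Q ∉ B (.inr s) := by
    rintro ⟨m, hm, c, hc, hmc⟩ ⟨s, hs, hs2⟩ Q h1 h2
    have e1 : S c ⊆ S Q := fun v hv => S_low Q (le_of_lt (show v ∈ Iio m from hmc ▸ hv)) h1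
    have e2 : s ∈ S c := by
      rcases S_cmp Q h1 h2.1 with d | d
      · exact absurd (hT1 d hs) hm
      · exact hmc ▸ lt_of_le_of_ne d fun e => hm (e ▸ hs)
    have e3 : S c = L s := Subset.antisymm (fun v hv => h2.2.1 ⟨e1 hv, c, hc, hv⟩)
      fun v hv => hv c hc e2
    exact h2.2.2 c hc e3 (e3 ▸ e1)
  have hcase : ∀ s : {s : T // s ∈ T1 ∧ ∀ v, v < s → s ∉ L v}, ∀ c, c ∉ O → S c = L s.1 →
      B (.inr s) = {Q | s.1 ∈ S Q ∧ ¬ S c ⊆ S Q} := by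
    intro s c hc e
    refine Set.ext fun Q => and_congr_right fun hQ => ⟨fun h => e ▸ h.2 c hc e, fun h => ⟨?_,
      fun _ _ _ => e ▸ h⟩⟩
    rintro v ⟨hv, c', hc', hv'⟩
    rcases S_cmp Q hv hQ with d | d
    · exact fun c'' _ h' => S_low _ d h'
    by_contra hn
    refine h fun w hw => ?_
    have e1 : w ∈ S c' := (e.le hw) c' hc' (S_low _ d hv')
    rcases S_cmp c' e1 hv' with d' | d'
    · exact S_low _ d' hv
    · exact absurd (e.le (S_low _ d' hw)) hn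
  refine sum B hBO ?_ ?_ ?_ fun Q hQ => ?_
  · rintro (i | i) (j | j) Q hi hj
    · refine congrArg _ (Subtype.ext (by_contra fun hne => ?_))
      obtain ⟨c, hc, e⟩ := i.2.2
      obtain ⟨c', hc', e'⟩ := j.2.2
      rcases S_cmp Q hi hj with d | d
      · exact i.2.1 ⟨c', hc', e' ▸ lt_of_le_of_ne d hne⟩
      · exact j.2.1 ⟨c, hc, e ▸ lt_of_le_of_ne d (Ne.symm hne)⟩
    · exact absurd hj (hab i j Q hi)
    · exact absurd hi (hab j i Q hj)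
    · refine congrArg _ (Subtype.ext (by_contra fun hne => ?_))
      rcases S_cmp Q hi.1 hj.1 with d | d
      · exact j.2.2 _ (lt_of_le_of_ne d hne) (hi.2.1 ⟨hj.1, j.2.1⟩)
      · exact i.2.2 _ (lt_of_le_of_ne d (Ne.symm hne)) (hj.2.1 ⟨hi.1, i.2.1⟩)
  · rintro (m | s)
    · exact open_mem _
    by_cases h : ∃ c, c ∉ O ∧ S c = L s.1
    · obtain ⟨c, hc, e⟩ := h
      rw [hcase s c hc e]
      refine (open_mem _).inter (isOpen_iff_mem_nhds.2 fun Q hQ => ?_)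
      obtain ⟨a, ha, ha'⟩ := not_subset.1 hQ
      exact (ev a Q).mono fun y hy e => ha' (hy.1 (e ha))
    refine isOpen_iff_mem_nhds.2 fun Q hQ => ?_
    by_cases h1 : S Q ⊆ T1
    · obtain ⟨Φ, f1, r, hr, hsr, f2⟩ := hb Q (hBO _ hQ) s.1 hQ.1
      filter_upwards [(U_open Q f1).mem_nhds (mem_U Q Φ), ev r Q] with y h2 h3
      refine ⟨S_low _ hsr (h3.2 hr), ?_, fun c hc e => absurd ⟨c, hc, e⟩ h⟩
      rintro v ⟨hv, c, hc, hv'⟩
      refine hQ.2.1 ⟨?_, c, hc, hv'⟩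
      rcases S_cmp y hv (h3.2 hr) with d | d
      · exact S_low _ d hr
      obtain ⟨φ, g1, g2, g3, g4⟩ := f2 c hc (S_low _ d hv')
      rcases S_cmp c hv' g2 with d' | d'
      · exact g4 ▸ lt_of_le_of_ne d' fun e => g3 ((h2 φ g1).1 (e ▸ hv))
      · exact absurd ((h2 φ g1).1 (S_low _ d' hv)) g3
    · obtain ⟨m, hm, hm'⟩ := not_subset.1 h1
      filter_upwards [ev m Q] with y h2
      have e1 : ∀ v ∈ T1, v ≤ m ∨ m ≤ v → v ≤ m := fun v hv e =>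
        e.resolve_right fun d => hm' (hT1 d hv)
      refine ⟨S_low _ (e1 _ s.2.1 (S_cmp Q hQ.1 hm)) (h2.2 hm), fun v hv => hQ.2.1 ⟨?_, hv.2⟩,
        fun c hc e => absurd ⟨c, hc, e⟩ h⟩
      exact S_low _ (e1 v hv.2 (S_cmp y hv.1 (h2.2 hm))) hm
  · rintro (m | s)
    · exact qr1 hT _
    by_cases h : ∃ c, c ∉ O ∧ S c = L s.1
    · obtain ⟨c, hc, e⟩ := h
      rw [hcase s c hc e]
      exact qr3 hT c (e.ge fun _ _ h => h)
    · have := cone_qr hT (s := s.1) (D := {w | ∀ v, v ≤ w → v ∈ T1 → v ∈ L s.1})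
        (fun a b hab ha v hv => ha v (hv.trans hab)) fun v hv _ c _ h => S_low c hv h
      convert this using 1
      exact Set.ext fun Q => and_congr_right fun _ => ⟨fun e w hw v hv hv' =>
        e.1 ⟨S_low _ hv hw, hv'⟩, fun e => ⟨fun v hv => e hv.1 v le_rfl hv.2,
          fun c hc e => absurd ⟨c, hc, e⟩ h⟩⟩
  · by_cases h : ∃ c, c ∉ O ∧ S c = S Q ∩ T1
    · obtain ⟨c, hc, e⟩ := h
      have h1 : ¬ S Q ⊆ T1 := fun h1 => hc (S_inj (e.trans (inter_eq_left.2 h1)) ▸ hQ)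
      obtain ⟨a, ha, ha'⟩ := not_subset.1 h1
      obtain ⟨m, g1, g2, g3⟩ := top_of hT hT1 (S_ray Q).1 (S_ray Q).2.1 ha ha'
      exact ⟨.inl ⟨m, g2, c, hc, g3.trans e.symm⟩, g1⟩
    have h0 : r0 ∈ S Q ∩ T1 := ⟨root Q, c0, hc0, root c0⟩
    obtain ⟨s, hs, hs'⟩ : ∃ s ∈ S Q ∩ T1, S Q ∩ T1 ⊆ L s := by
      by_cases h1 : ∀ a ∈ S Q ∩ T1, ∃ b ∈ S Q ∩ T1, a < b
      · obtain ⟨R, hR⟩ := ex_ray (M := S Q ∩ T1) ⟨(S_ray Q).1.inter hT1,
          (S_ray Q).2.1.mono inter_subset_left, h1, fun _ => ⟨r0, h0⟩⟩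
        obtain ⟨Φ, -, r, hr, -, f2⟩ := hb R (by_contra fun e => h ⟨R, e, hR⟩) r0 (root R)
        refine ⟨r, hR ▸ hr, fun v hv c hc hrc => ?_⟩
        obtain ⟨φ, -, g2, -, g4⟩ := f2 c hc hrc
        exact S_low c (le_of_lt (show v ∈ Iio φ from g4 ▸ hR ▸ hv)) g2
      · push Not at h1
        obtain ⟨a, ha, ha'⟩ := h1
        refine ⟨a, ha, fun v hv c _ hc => S_low c ?_ hc⟩
        rcases S_cmp Q hv.1 ha.1 with d | d
        · exact d
        · exact d.eq_or_lt.elim (fun e => e.ge) fun e => absurd e (ha' v hv)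
    obtain ⟨s0, g1, g2⟩ := hT.wf.has_min {v | v ≤ s ∧ s ∈ L v} ⟨s, le_rfl, fun _ _ h => h⟩
    have g3 : S Q ∩ T1 ⊆ L s0 := fun v hv c hc h => hs' hv c hc (g1.2 c hc h)
    refine ⟨.inr ⟨s0, hT1 g1.1 hs.2, fun v hv e => g2 v ⟨hv.le.trans g1.1, fun c hc h =>
      g1.2 c hc (e c hc h)⟩ hv⟩, S_low _ g1.1 hs.1, g3, fun c hc e e' => h ⟨c, hc, ?_⟩⟩
    exact Subset.antisymm (fun v hv => ⟨e' (e.le hv), c, hc, hv⟩) (g3.trans e.ge)

end Pool.Agent.H17.Ray
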