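import Mathlib

set_option autoImplicit false

namespace Pool.Agent.H17

open Cardinal

section
variable {X I : Type} (S : I → Set X)

def Clo (N : Set X) : Prop := ∀ i p q, p ≠ q → p ∈ N → q ∈ N → p ∈ S i → q ∈ S i → S i ⊆ N

def clo (A : Set X) : Set X := ⋂₀ {N | A ⊆ N ∧ Clo S N}

theorem sub_clo (A : Set X) : A ⊆ clo S A := fun _ hx _ hN => hN.1 hx

theorem clo_clo (A : Set X) : Clo S (clo S A) :=
  fun i p q hpq hp hq hp' hq' _ hx N hN => hN.2 i p q hpq (hp N hN) (hq N hN) hp' hq' hx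

theorem clo_mono {A B : Set X} (h : A ⊆ B) : clo S A ⊆ clo S B :=
  fun _ hx N hN => hx N ⟨h.trans hN.1, hN.2⟩

theorem card_clo (hc : ∀ i, (S i).Countable)
    (hp : ∀ p q, p ≠ q → {i | p ∈ S i ∧ q ∈ S i}.Countable) (l : Cardinal.{0}) (hl : ℵ₀ ≤ l)
    (A : Set X) (hA : #A ≤ l) : #(clo S A) ≤ l := by
  let Φ : X → X → Set X := fun p q => ⋃ i ∈ {i | p ≠ q ∧ p ∈ S i ∧ q ∈ S i}, S i
  have hΦ : ∀ p q, (Φ p q).Countable := by
    intro p q
    refine Set.Countable.biUnion ?_ fun i _ => hc i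
    by_cases h : p = q
    · simp [h]
    · exact (hp p q h).mono fun i hi => hi.2
  let st : Set X → Set X := fun B => B ∪ ⋃ pq : B × B, Φ pq.1 pq.2
  have hst : ∀ B : Set X, #B ≤ l → #(st B) ≤ l := by
    intro B hB
    refine (mk_union_le _ _).trans (add_le_of_le hl hB ?_)
    refine (mk_iUnion_le _).trans (mul_le_of_le hl ?_ ?_)
    · simp only [mk_prod, lift_id]
      exact mul_le_of_le hl hB hB
    · exact ciSup_le' fun pq => (le_aleph0_iff_set_countable.2 (hΦ _ _)).trans hl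
  have hit : ∀ n, #(st^[n] A) ≤ l := by
    intro n
    induction n with
    | zero => exact hA
    | succ n ih => rw [Function.iterate_succ_apply']; exact hst _ ih
  have hmono : Monotone fun n => st^[n] A := by
    refine monotone_nat_of_le_succ fun n => ?_
    rw [Function.iterate_succ_apply']
    exact Set.subset_union_left
  have hN : clo S A ⊆ ⋃ n, st^[n] A := by
    refine Set.sInter_subset_of_mem ⟨Set.subset_iUnion (fun n => st^[n] A) 0, ?_⟩
    intro i p q hpq hp1 hq1 hp2 hq2 x hx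
    obtain ⟨m, hm⟩ := Set.mem_iUnion.1 hp1
    obtain ⟨n, hn⟩ := Set.mem_iUnion.1 hq1
    refine Set.mem_iUnion.2 ⟨max m n + 1, ?_⟩
    rw [Function.iterate_succ_apply']
    refine Or.inr (Set.mem_iUnion.2 ⟨(⟨p, hmono (le_max_left m n) hm⟩,
      ⟨q, hmono (le_max_right m n) hn⟩), ?_⟩)
    exact Set.mem_biUnion (t := S) (x := i) ⟨hpq, hp2, hq2⟩ hx
  refine (mk_le_mk_of_subset hN).trans ((mk_iUnion_le _).trans (mul_le_of_le hl ?_ ?_))
  · simpa using hl
  · exact ciSup_le' hit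

end

theorem sdr_countable {X J : Type} [Countable J] (T : J → Set X) (hT : ∀ j, (T j).Infinite) :
    ∃ f : J → X, Function.Injective f ∧ ∀ j, f j ∈ T j := by
  classical
  obtain ⟨e, he⟩ := exists_injective_nat J
  choose t ht1 ht2 using fun j => (hT j).exists_subset_card_eq (e j + 1)
  obtain ⟨f, hf1, hf2⟩ := (Finset.all_card_le_biUnion_card_iff_exists_injective t).1 (by
    intro s
    rcases s.eq_empty_or_nonempty with rfl | hs
    · simp
    obtain ⟨j, hj, hm⟩ := s.exists_max_image e hs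
    calc s.card ≤ (Finset.range (e j + 1)).card := by
          refine Finset.card_le_card_of_injOn e (fun i hi => ?_) he.injOn
          simpa [Nat.lt_succ_iff] using hm i hi
      _ = (t j).card := by rw [ht2, Finset.card_range]
      _ ≤ _ := Finset.card_le_card (Finset.subset_biUnion_of_mem t hj))
  exact ⟨f, hf1, fun j => ht1 j (hf2 j)⟩

theorem sdr_aux {X I : Type} (S : I → Set X) (hc : ∀ i, (S i).Countable)
    (hp : ∀ p q, p ≠ q → {i | p ∈ S i ∧ q ∈ S i}.Countable) (μ : Cardinal.{0}) :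
    ∀ (Y : Set X), #Y = μ → ∀ (J : Set I) (T : I → Set X),
      (∀ i ∈ J, T i ⊆ Y ∧ T i ⊆ S i ∧ (T i).Infinite) →
      ∃ f : J → X, Function.Injective f ∧ ∀ j : J, f j ∈ T j.1 := by
  induction μ using WellFoundedLT.induction with
  | ind μ ih =>
  intro Y hY J T hT
  have two : ∀ i ∈ J, ∃ p q, p ≠ q ∧ p ∈ T i ∧ q ∈ T i := by
    intro i hi
    obtain ⟨p, hp, q, hq, h⟩ := (hT i hi).2.2.nontrivial
    exact ⟨p, q, h, hp, hq⟩
  by_cases hY0 : Y.Countable
  · have hJ : J.Countable := by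
      have : (⋃ p ∈ Y, ⋃ q ∈ Y, {i | p ≠ q ∧ p ∈ S i ∧ q ∈ S i}).Countable := by
        refine hY0.biUnion fun p _ => hY0.biUnion fun q _ => ?_
        by_cases h : p = q
        · simp [h]
        · exact (hp p q h).mono fun i hi => hi.2
      refine this.mono fun i hi => ?_
      obtain ⟨p, q, h, h1, h2⟩ := two i hi
      obtain ⟨a, b, _⟩ := hT i hi
      simp only [Set.mem_iUnion]
      exact ⟨p, a h1, q, a h2, h, b h1, b h2⟩
    have := hJ.to_subtype
    exact sdr_countable (fun j : J => T j) fun j => (hT j j.2).2.2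
  have hμ : ℵ₀ < #Y := by
    rw [← not_le, le_aleph0_iff_set_countable]
    exact hY0
  obtain ⟨_, _, hord⟩ := exists_ord_eq_type_lt Y
  let N : Y → Set X := fun y => clo S (Subtype.val '' Set.Iic y)
  have hNm : Monotone N := fun a b h => clo_mono S (Set.image_mono (Set.Iic_subset_Iic.2 h))
  have hNc : ∀ y, #(N y) < μ := by
    intro y
    refine (card_clo S hc hp (max ℵ₀ #(Set.Iic y)) (le_max_left _ _) _
      (mk_image_le.trans (le_max_right _ _))).trans_lt ?_
    rw [← hY]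
    exact max_lt hμ (mk_Iic_lt y hord hμ.le)
  have hex : ∀ j : J, ∃ y, S j ⊆ N y := by
    intro j
    obtain ⟨p, q, h, h1, h2⟩ := two j j.2
    obtain ⟨a, b, _⟩ := hT j j.2
    refine ⟨max ⟨p, a h1⟩ ⟨q, a h2⟩, clo_clo S _ j p q h ?_ ?_ (b h1) (b h2)⟩
    · exact sub_clo S _ ⟨⟨p, a h1⟩, le_max_left _ _, rfl⟩
    · exact sub_clo S _ ⟨⟨q, a h2⟩, le_max_right _ _, rfl⟩
  let α : J → Y := fun j => wellFounded_lt.min {y | S j ⊆ N y} (hex j)
  have hα1 : ∀ j : J, S j ⊆ N (α j) := fun j => wellFounded_lt.min_mem {y | S j ⊆ N y} (hex j)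
  have hα2 : ∀ (j : J) y, y < α j → ¬ S j ⊆ N y := fun j y h hy =>
    wellFounded_lt.not_lt_min {y | S j ⊆ N y} hy h
  let L : Y → Set X := fun y => ⋃ z ∈ Set.Iio y, N z
  have key : ∀ y : Y, ∃ f : {i | ∃ h : i ∈ J, α ⟨i, h⟩ = y} → X, Function.Injective f ∧
      ∀ j, f j ∈ T j.1 \ L y ∧ f j ∈ N y := by
    intro y
    obtain ⟨f, hf1, hf2⟩ := ih _ (hNc y) (N y) rfl {i | ∃ h : i ∈ J, α ⟨i, h⟩ = y}
      (fun i => T i \ L y) (by
        rintro i ⟨hi, rfl⟩
        obtain ⟨_, b, c⟩ := hT i hi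
        refine ⟨Set.sdiff_subset.trans (b.trans (hα1 ⟨i, hi⟩)), Set.sdiff_subset.trans b, ?_⟩
        rw [← Set.sdiff_self_inter]
        refine c.sdiff (Set.Subsingleton.finite ?_)
        rintro p ⟨hp1, hp2⟩ q ⟨hq1, hq2⟩
        by_contra hpq
        simp only [L, Set.mem_iUnion] at hp2 hq2
        obtain ⟨z, hz, hp2⟩ := hp2
        obtain ⟨w, hw, hq2⟩ := hq2
        exact hα2 ⟨i, hi⟩ (max z w) (max_lt hz hw) (clo_clo S _ i p q hpq
          (hNm (le_max_left z w) hp2) (hNm (le_max_right z w) hq2) (b hp1) (b hq1)))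
    refine ⟨f, hf1, fun j => ⟨hf2 j, ?_⟩⟩
    obtain ⟨i, hi, rfl⟩ := j
    exact hα1 ⟨i, hi⟩ ((hT i hi).2.1 (hf2 ⟨i, hi, rfl⟩).1)
  choose f hf1 hf2 using key
  refine ⟨fun j => f (α j) ⟨j, j.2, rfl⟩, ?_, fun j => (hf2 (α j) ⟨j, j.2, rfl⟩).1.1⟩
  intro a b hab
  simp only at hab
  have ha := hf2 (α a) ⟨a, a.2, rfl⟩
  have hb := hf2 (α b) ⟨b, b.2, rfl⟩
  have e : α a = α b := by
    rcases lt_trichotomy (α a) (α b) with h | h | h
    · exact absurd (Set.mem_biUnion (t := N) (x := α a) h (hab ▸ ha.2)) hb.1.2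
    · exact h
    · exact absurd (Set.mem_biUnion (t := N) (x := α b) h (hab ▸ hb.2)) ha.1.2
  have : ∀ y (h1 : α a = y) (h2 : α b = y), f y ⟨a, a.2, h1⟩ = f y ⟨b, b.2, h2⟩ → a = b := by
    intro y h1 h2 h
    have := congrArg Subtype.val (hf1 y h)
    exact Subtype.ext this
  refine this (α a) rfl e.symm (hab.trans ?_)
  have gen : ∀ y z (h : y = z) (h1 : α b = y), f y ⟨b, b.2, h1⟩ = f z ⟨b, b.2, h1.trans h⟩ := by
    rintro y z rfl h1
    rfl
  exact gen _ _ e.symm rfl

/-- A family of countably infinite sets in which two points lie in countably many members has a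
system of distinct representatives. -/
theorem sdr {X I : Type} (S : I → Set X) (hc : ∀ i, (S i).Countable) (hi : ∀ i, (S i).Infinite)
    (hp : ∀ p q, p ≠ q → {i | p ∈ S i ∧ q ∈ S i}.Countable) :
    ∃ f : I → X, Function.Injective f ∧ ∀ i, f i ∈ S i := by
  obtain ⟨f, h1, h2⟩ := sdr_aux S hc hp _ Set.univ rfl Set.univ S
    (fun i _ => ⟨Set.subset_univ _, subset_rfl, hi i⟩)
  exact ⟨fun i => f ⟨i, trivial⟩, fun a b h => congrArg Subtype.val (h1 h),
    fun i => h2 ⟨i, trivial⟩⟩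

theorem max_pairwise {X : Type} (r : X → X → Prop) (hr : ∀ a b, r a b → r b a) :
    ∃ M : Set X, M.Pairwise r ∧ ∀ x, x ∈ M ∨ ∃ y ∈ M, ¬ r x y := by
  have hF : Order.IsOfFiniteCharacter {M : Set X | M.Pairwise r} := by
    intro M
    constructor
    · exact fun h y hy _ => Set.Pairwise.mono hy h
    · intro h a ha b hb hab
      exact h {a, b} (by simp [Set.insert_subset_iff, ha, hb]) (by simp) (by simp) (by simp) hab
  obtain ⟨M, _, hM⟩ := hF.exists_maximal (x := ∅) (by simp)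
  refine ⟨M, hM.prop, fun x => ?_⟩
  by_contra hc
  push Not at hc
  apply hc.1
  refine hM.mem_of_prop_insert ?_
  exact hM.prop.insert fun b hb _ => ⟨hc.2 b hb, hr _ _ (hc.2 b hb)⟩

theorem hall_blocks {X : Type} (B : ℕ → X → Finset X) (M : ℕ → Set X)
    (hcard : ∀ k x, (B k x).card = 2 ^ (k + 1))
    (hd : ∀ k, (M k).Pairwise fun x y => Disjoint (B k x) (B k y)) :
    ∃ f : {p : ℕ × X // p.2 ∈ M p.1} → X, Function.Injective f ∧ ∀ p, f p ∈ B p.1.1 p.1.2 := by
  classical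
  refine (Finset.all_card_le_biUnion_card_iff_exists_injective _).1 fun s => ?_
  set U := s.biUnion fun p => B p.1.1 p.1.2 with hU
  obtain ⟨N, hN⟩ := (s.image fun p => p.1.1).exists_le
  have h1 : ∀ k, 2 ^ (k + 1) * (s.filter fun p => p.1.1 = k).card ≤ U.card := by
    intro k
    have : ((s.filter fun p => p.1.1 = k).biUnion fun p => B p.1.1 p.1.2).card =
        ∑ p ∈ s.filter fun p => p.1.1 = k, (B p.1.1 p.1.2).card := by
      apply Finset.card_biUnion
      rintro ⟨⟨a, x⟩, hx⟩ h1 ⟨⟨b, y⟩, hy⟩ h2 hne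
      simp only [Finset.coe_filter, Set.mem_ofPred_eq] at h1 h2
      obtain ⟨_, rfl⟩ := h1
      obtain ⟨_, rfl⟩ := h2
      exact hd _ hx hy fun h => hne (by subst h; rfl)
    rw [Finset.sum_congr rfl (g := fun _ => 2 ^ (k + 1))
      (fun p hp => by rw [hcard, (Finset.mem_filter.1 hp).2]), Finset.sum_const, smul_eq_mul,
      mul_comm] at this
    rw [← this]
    exact Finset.card_le_card (Finset.biUnion_subset_biUnion_of_subset_left _
      (Finset.filter_subset _ _))
  have h2 : s.card = ∑ k ∈ Finset.range (N + 1), (s.filter fun p => p.1.1 = k).card := by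
    apply Finset.card_eq_sum_card_fiberwise
    intro p hp
    have := hN _ (Finset.mem_image_of_mem _ hp)
    simp only [Finset.coe_range, Set.mem_Iio]
    omega
  have h3 : ∀ n, 2 ^ n * ∑ k ∈ Finset.range n, (s.filter fun p => p.1.1 = k).card + U.card ≤
      2 ^ n * U.card := by
    intro n
    induction n with
    | zero => simp
    | succ n ih =>
      rw [Finset.sum_range_succ, mul_add]
      have := h1 n
      rw [pow_succ] at this ⊢
      nlinarith
  have h4 := h3 (N + 1)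
  rw [← h2] at h4
  exact Nat.le_of_mul_le_mul_left (le_trans (Nat.le_add_right _ _) h4) (by positivity)

end Pool.Agent.H17
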