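import Mathlib

set_option autoImplicit false

namespace Pool.Agent.H17.Div
open Set Filter Topology TopologicalSpace

universe u

/-- Selectively highly divergent spaces. -/
def SHD (X : Type u) [TopologicalSpace X] : Prop :=
  ∀ U : ℕ → Set X, (∀ n, IsOpen (U n)) → (∀ n, (U n).Nonempty) →
    ∃ x : ℕ → X, (∀ n, x n ∈ U n) ∧
      ∀ φ : ℕ → ℕ, StrictMono φ → ∀ p : X, ¬ Tendsto (x ∘ φ) atTop (𝓝 p)

/-- Nonempty finite subsets. -/
def PR (X : Type u) : Type u := {A : Set X // A.Finite ∧ A.Nonempty}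

/-- The Pixley-Roy topology: the sets `[F, V]` form a local base at `F`. -/
instance prTop (X : Type u) [TopologicalSpace X] : TopologicalSpace (PR X) where
  IsOpen W := ∀ F ∈ W, ∃ V : Set X, IsOpen V ∧ F.1 ⊆ V ∧
    ∀ H : PR X, F.1 ⊆ H.1 → H.1 ⊆ V → H ∈ W
  isOpen_univ := fun _ _ => ⟨univ, isOpen_univ, subset_univ _, fun _ _ _ => trivial⟩
  isOpen_inter := by
    intro W W' h h' F hF
    obtain ⟨V, a, b, c⟩ := h F hF.1
    obtain ⟨V', a', b', c'⟩ := h' F hF.2
    exact ⟨V ∩ V', a.inter a', subset_inter b b', fun H h1 h2 =>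
      ⟨c H h1 (h2.trans inter_subset_left), c' H h1 (h2.trans inter_subset_right)⟩⟩
  isOpen_sUnion := by
    rintro S hS F ⟨W, hW, hF⟩
    obtain ⟨V, a, b, c⟩ := hS W hW F hF
    exact ⟨V, a, b, fun H h1 h2 => ⟨W, hW, c H h1 h2⟩⟩

theorem pr_ev {X : Type u} [TopologicalSpace X] {H : ℕ → PR X} {F : PR X}
    (h : Tendsto H atTop (𝓝 F)) {V : Set X} (hV : IsOpen V) (hF : F.1 ⊆ V) :
    ∀ᶠ n in atTop, (H n).1 ⊆ V :=
  h (IsOpen.mem_nhds (s := {G : PR X | G.1 ⊆ V}) (fun _ hG => ⟨V, hV, hG, fun _ _ h => h⟩) hF)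

abbrev I : Type := Set ℕ × ℝ
abbrev K : Type := I → Bool

theorem basic_nhds {x : K} {U : Set K} (h : U ∈ 𝓝 x) :
    ∃ F : Set I, F.Finite ∧ ∀ y : K, (∀ i ∈ F, y i = x i) → y ∈ U := by
  rw [nhds_pi, Filter.mem_pi] at h
  obtain ⟨F, hF, t, ht, hU⟩ := h
  exact ⟨F, hF, fun y hy => hU fun i hi => by rw [hy i hi]; exact mem_of_mem_nhds (ht i)⟩

theorem fresh {S : Set I} (hS : S.Countable) : ∃ r : ℝ, ∀ A, (A, r) ∉ S := by
  obtain ⟨r, -, hr⟩ := not_subset.1 fun h : (univ : Set ℝ) ⊆ Prod.snd '' S =>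
    not_countable_univ ((hS.image _).mono h)
  exact ⟨r, fun A hA => hr ⟨_, hA, rfl⟩⟩

theorem shd_K : SHD K := by
  classical
  intro U hU hne
  choose b hb using hne
  choose F hF hFU using fun n => basic_nhds ((hU n).mem_nhds (hb n))
  obtain ⟨r, hr⟩ := fresh (countable_iUnion fun n => (hF n).countable)
  refine ⟨fun n i => if i ∈ F n then b n i else decide (n ∈ i.1), fun n => hFU n _ fun i hi =>
    if_pos hi, fun φ hφ p hp => ?_⟩
  let A : Set ℕ := range fun k => φ (2 * k)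
  have h1 := (tendsto_pi_nhds.1 hp (A, r))
  rw [nhds_discrete, tendsto_pure] at h1
  obtain ⟨N, hN⟩ := eventually_atTop.1 h1
  have h2 : ∀ n, (A, r) ∉ F n := fun n h => hr A (mem_iUnion.2 ⟨n, h⟩)
  have a := hN (2 * N) (by omega)
  have b := hN (2 * N + 1) (by omega)
  simp only [Function.comp, h2, if_false] at a b
  have c : φ (2 * N) ∈ A := ⟨N, rfl⟩
  have d : φ (2 * N + 1) ∉ A := by
    rintro ⟨k, hk⟩
    have := hφ.injective hk
    omega
  rw [← b] at a
  simp [c, d] at a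

def D : Set K := {x | {i | x i = true}.Countable}

theorem D_fill (b : K) {F : Set I} (hF : F.Finite) : ∃ y ∈ D, ∀ i ∈ F, y i = b i := by
  classical
  refine ⟨fun i => if i ∈ F then b i else false, hF.countable.mono fun i hi => ?_,
    fun i hi => if_pos hi⟩
  by_contra h
  simp [h] at hi

theorem D_dense : Dense D := fun x => mem_closure_iff_nhds.2 fun U hU => by
  obtain ⟨F, hF, h⟩ := basic_nhds hU
  obtain ⟨y, hy, hy'⟩ := D_fill x hF
  exact ⟨y, h y hy', hy⟩

theorem not_shd_D : ¬ SHD D := by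
  classical
  intro h
  obtain ⟨x, -, hx⟩ := h (fun _ => univ) (fun _ => isOpen_univ)
    fun _ => ⟨⟨fun _ => false, by simp [D]⟩, trivial⟩
  have hS : (insert ((∅, 0) : I) (⋃ n, {i | (x n).1 i = true})).Countable :=
    (countable_iUnion fun n => (x n).2).insert _
  obtain ⟨e, he⟩ := hS.exists_eq_range (insert_nonempty _ _)
  obtain ⟨y, φ, hφ, hy⟩ := CompactSpace.tendsto_subseq (fun n => fun k => (x n).1 (e k))
  refine hx φ hφ ⟨fun i => if h : i ∈ range e then y h.choose else false,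
    (countable_range e).mono fun i hi => ?_⟩ ?_
  · by_contra h
    simp only [mem_ofPred_eq, dif_neg h] at hi
    cases hi
  · rw [tendsto_subtype_rng, tendsto_pi_nhds]
    intro i
    by_cases h : i ∈ range e
    · have := tendsto_pi_nhds.1 hy h.choose
      simp only [Function.comp, h.choose_spec] at this
      simpa only [dif_pos h, Function.comp] using this
    · simp only [dif_neg h]
      refine tendsto_const_nhds.congr fun n => ?_
      by_contra h'
      refine h (he ▸ Or.inr (mem_iUnion.2 ⟨φ n, ?_⟩))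
      simpa using h'

end Pool.Agent.H17.Div
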