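import Mathlib

namespace Pool.Agent.H17.SRef

open Set

variable {E F : Type} [AddCommGroup E] [Module ℝ E] [AddCommGroup F] [Module ℝ F]

/-- The convex-form space: affine functions `C → [0,1]`. -/
def Forms (C : Set E) : Set (C → ℝ) :=
  {ω | (∃ A : E →ᵃ[ℝ] ℝ, ∀ x : C, ω x = A x) ∧ ∀ x, ω x ∈ Icc (0 : ℝ) 1}

/-- `h` with domain `D` is an affine map from a convex subset `D` of `X` onto `Y`. -/
def PAO (X : Set E) (Y : Set F) (D : Set E) (h : E → F) : Prop :=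
  D ⊆ X ∧ (∀ a ∈ D, ∀ b ∈ D, ∀ l ∈ Icc (0 : ℝ) 1, l • a + (1 - l) • b ∈ D ∧
    h (l • a + (1 - l) • b) = l • h a + (1 - l) • h b) ∧ h '' D = Y

/-- `(T, f, g)`, with domains `Df`, `Dg`, refines the model `C`. -/
def Refines (T : Set F) (C : Set E) (Df : Set F) (f : F → E) (Dg : Set (T → ℝ))
    (g : (T → ℝ) → C → ℝ) : Prop :=
  PAO T C Df f ∧ PAO (Forms T) (Forms C) Dg g ∧
    ∀ (a : T) (c : C), (a : F) ∈ Df → (c : E) = f a → ∀ ω ∈ Dg, g ω c = ω a

/-- Convex hulls of finite sets. -/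
def IsPolytope (C : Set E) : Prop := ∃ s : Set E, s.Finite ∧ C = convexHull ℝ s

/-- Convex hulls of finite affinely independent sets. -/
def IsSimplex (C : Set E) : Prop :=
  ∃ s : Finset E, AffineIndependent ℝ ((↑) : s → E) ∧ C = convexHull ℝ (s : Set E)

end Pool.Agent.H17.SRef
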