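import Mathlib
import Pool.Agent.H17.SRefDefs

namespace Pool.Agent.H17.SRef

open Set Pointwise

section
variable {E F : Type} [AddCommGroup E] [Module ℝ E] [AddCommGroup F] [Module ℝ F]

theorem forms_conv {C : Set E} {a b : C → ℝ} (ha : a ∈ Forms C) (hb : b ∈ Forms C) {l : ℝ}
    (hl : l ∈ Icc (0 : ℝ) 1) : l • a + (1 - l) • b ∈ Forms C := by
  obtain ⟨⟨A, hA⟩, h1⟩ := ha
  obtain ⟨⟨B, hB⟩, h2⟩ := hb
  refine ⟨⟨l • A + (1 - l) • B, fun x => by simp [hA, hB]⟩, fun x => ?_⟩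
  exact convex_Icc (0 : ℝ) 1 (h1 x) (h2 x) hl.1 (sub_nonneg.2 hl.2) (by ring)

theorem exists_refines {T : Set F} {C : Set E} {Df : Set F} {f : F → E} (hf : PAO T C Df f)
    (h : ∀ η ∈ Forms C, ∃ ω ∈ Forms T, ∀ (a : T) (c : C), (a : F) ∈ Df → (c : E) = f a →
      η c = ω a) : ∃ Dg g, Refines T C Df f Dg g := by
  have : ∀ c : C, ∃ a : T, (a : F) ∈ Df ∧ (c : E) = f a := fun c => by
    obtain ⟨a, h1, h2⟩ := hf.2.2.ge c.2
    exact ⟨⟨a, hf.1 h1⟩, h1, h2.symm⟩
  choose σ h1 h2 using this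
  refine ⟨{ω | ω ∈ Forms T ∧ ω ∘ σ ∈ Forms C ∧ ∀ (a : T) (c : C), (a : F) ∈ Df → (c : E) = f a →
    ω (σ c) = ω a}, fun ω => ω ∘ σ, hf, ⟨fun ω hω => hω.1, fun a ha b hb l hl =>
      ⟨⟨forms_conv ha.1 hb.1 hl, forms_conv ha.2.1 hb.2.1 hl, fun x c e1 e2 => ?_⟩, rfl⟩,
      Subset.antisymm (by rintro _ ⟨ω, hω, rfl⟩; exact hω.2.1) fun η hη => ?_⟩,
      fun a c e1 e2 ω hω => hω.2.2 a c e1 e2⟩
  · simp [ha.2.2 x c e1 e2, hb.2.2 x c e1 e2]
  · obtain ⟨ω, h3, h4⟩ := h η hη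
    have e : ω ∘ σ = η := funext fun c => (h4 _ c (h1 c) (h2 c)).symm
    exact ⟨ω, ⟨h3, e ▸ hη, fun a c e1 e2 => (congrFun e c).trans (h4 a c e1 e2)⟩, e⟩

end

theorem lin_form {ι : Type} [Fintype ι] (o : ι → ℝ) (ho : ∀ k, o k ∈ Icc (0 : ℝ) 1) :
    (fun x : stdSimplex ℝ ι => ∑ k, x.1 k * o k) ∈ Forms (stdSimplex ℝ ι) := by
  refine ⟨⟨(Fintype.linearCombination ℝ o).toAffineMap, fun x => by
    simp [Fintype.linearCombination_apply]⟩, fun x =>
      ⟨Finset.sum_nonneg fun k _ => mul_nonneg (x.2.1 k) (ho k).1, ?_⟩⟩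
  rw [← x.2.2]
  exact Finset.sum_le_sum fun k _ => mul_le_of_le_one_right (x.2.1 k) (ho k).2

abbrev V := Fin 4 → ℝ
abbrev I8 := Fin 4 ⊕ Fin 4

/-- The cuboctahedron. -/
def Cub : Set V := stdSimplex ℝ (Fin 4) - stdSimplex ℝ (Fin 4)

def D8 : Set (I8 → ℝ) := {x | x ∈ stdSimplex ℝ I8 ∧ ∑ i, x (.inl i) = 1 / 2}

def f8 (x : I8 → ℝ) : V := fun i => 2 * (x (.inl i) - x (.inr i))

def vx (i j : Fin 4) : V := Pi.single i 1 - Pi.single j 1

theorem vx_mem (i j : Fin 4) : vx i j ∈ Cub :=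
  sub_mem_sub (single_mem_stdSimplex ℝ i) (single_mem_stdSimplex ℝ j)

theorem cub_hull : Cub = convexHull ℝ (range (fun i : Fin 4 => (Pi.single i 1 : V)) -
    range (fun i : Fin 4 => (Pi.single i 1 : V))) := by
  rw [convexHull_sub, convexHull_rangle_single_eq_stdSimplex]; rfl

theorem cub_poly : IsPolytope Cub := ⟨_, (finite_range _).sub (finite_range _), cub_hull⟩

theorem ext_fin : (extremePoints ℝ Cub).Finite := by
  rw [cub_hull]
  exact ((finite_range _).sub (finite_range _)).subset extremePoints_convexHull_subset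

theorem eq_single {x : V} (hx : x ∈ stdSimplex ℝ (Fin 4)) {i : Fin 4} (h : 1 ≤ x i) :
    x = Pi.single i 1 := by
  have h1 := hx.2
  rw [← Finset.add_sum_erase _ _ (Finset.mem_univ i)] at h1
  have h2 : 0 ≤ ∑ k ∈ Finset.univ.erase i, x k := Finset.sum_nonneg fun k _ => hx.1 k
  have h3 := (Finset.sum_eq_zero_iff_of_nonneg fun k _ => hx.1 k).1
    (show ∑ k ∈ Finset.univ.erase i, x k = 0 by linarith)
  funext k
  by_cases e : k = i
  · subst e; simp; linarith
  · simp [e, h3 k (by simp [e])]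

theorem expo {z : V} (hz : z ∈ Cub) (i j : Fin 4) :
    z i - z j ≤ 2 ∧ (2 ≤ z i - z j → z = vx i j) := by
  obtain ⟨x, hx, y, hy, rfl⟩ := hz
  have a1 := (mem_Icc_of_mem_stdSimplex hx i).2
  have a2 := (mem_Icc_of_mem_stdSimplex hy j).2
  have a3 := hx.1 j
  have a4 := hy.1 i
  simp only [Pi.sub_apply]
  refine ⟨by linarith, fun h => ?_⟩
  rw [eq_single hx (i := i) (by linarith), eq_single hy (i := j) (by linarith)]
  rfl

theorem vx_val {i j : Fin 4} (h : i ≠ j) : vx i j i - vx i j j = 2 := by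
  simp [vx, h, h.symm]; norm_num

theorem vx_ext {i j : Fin 4} (h : i ≠ j) : vx i j ∈ extremePoints ℝ Cub := by
  refine mem_extremePoints_iff_left.2 ⟨vx_mem i j, fun x hx y hy ⟨a, b, ha, hb, hab, e⟩ => ?_⟩
  have h1 := vx_val h
  rw [← e] at h1
  simp only [Pi.add_apply, Pi.smul_apply, smul_eq_mul] at h1
  have h2 := (expo hy i j).1
  refine (expo hx i j).2 (not_lt.1 fun h3 => ?_)
  nlinarith

theorem ext_card : 8 < (extremePoints ℝ Cub).ncard := by
  have inj : InjOn (fun p : Fin 4 × Fin 4 => vx p.1 p.2) ↑(Finset.univ : Finset (Fin 4)).offDiag := by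
    rintro ⟨i, j⟩ hp ⟨k, l⟩ hq e
    have h1 : i ≠ j := by simpa using hp
    have e1 := congrFun e i
    have e2 := congrFun e j
    simp only [vx, Pi.sub_apply, Pi.single_apply, h1, h1.symm, if_true, if_false] at e1 e2
    split_ifs at e1 e2 <;> first | (norm_num at e1; done) | (norm_num at e2; done) | simp_all
  have := ncard_le_ncard (show (fun p : Fin 4 × Fin 4 => vx p.1 p.2) ''
    ↑(Finset.univ : Finset (Fin 4)).offDiag ⊆ extremePoints ℝ Cub by
      rintro _ ⟨p, hp, rfl⟩; exact vx_ext (by simpa using hp)) ext_fin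
  rw [inj.ncard_image, ncard_coe_finset, Finset.offDiag_card] at this
  simp at this
  omega

theorem cub_not : ¬ IsSimplex Cub := by
  rintro ⟨s, h1, h2⟩
  have a := h1.card_le_finrank_succ.trans (Nat.succ_le_succ (Submodule.finrank_le _))
  have c := ncard_le_ncard (show extremePoints ℝ Cub ⊆ s by
    rw [h2]; exact extremePoints_convexHull_subset) s.finite_toSet
  have d := ext_card
  simp only [ncard_coe_finset, Fintype.card_coe, Module.finrank_fin_fun] at a c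
  omega

theorem d8_inr {x : I8 → ℝ} (hx : x ∈ D8) : ∑ i, x (.inr i) = 1 / 2 := by
  have := hx.1.2
  rw [Fintype.sum_sum_type, hx.2] at this
  linarith

theorem f8_pao : PAO (stdSimplex ℝ I8) Cub D8 f8 := by
  refine ⟨fun x hx => hx.1, fun a ha b hb l hl => ⟨⟨convex_stdSimplex ℝ I8 ha.1 hb.1 hl.1
    (sub_nonneg.2 hl.2) (by ring), ?_⟩, funext fun i => ?_⟩, Subset.antisymm ?_ ?_⟩
  · simp only [Pi.add_apply, Pi.smul_apply, smul_eq_mul, Finset.sum_add_distrib,
      ← Finset.mul_sum, ha.2, hb.2]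
    ring
  · simp only [f8, Pi.add_apply, Pi.smul_apply, smul_eq_mul]; ring
  · rintro _ ⟨x, hx, rfl⟩
    refine ⟨fun i => 2 * x (.inl i), ⟨fun i => mul_nonneg two_pos.le (hx.1.1 _), ?_⟩,
      fun i => 2 * x (.inr i), ⟨fun i => mul_nonneg two_pos.le (hx.1.1 _), ?_⟩,
      funext fun i => by simp [f8, mul_sub]⟩
    · rw [← Finset.mul_sum, hx.2]; norm_num
    · rw [← Finset.mul_sum, d8_inr hx]; norm_num
  · rintro _ ⟨x, hx, y, hy, rfl⟩
    refine ⟨Sum.elim (fun i => x i / 2) fun i => y i / 2, ⟨⟨?_, ?_⟩, ?_⟩, funext fun i => ?_⟩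
    · rintro (i | i)
      exacts [div_nonneg (hx.1 i) two_pos.le, div_nonneg (hy.1 i) two_pos.le]
    · simp [Fintype.sum_sum_type, ← Finset.sum_div, hx.2, hy.2]; norm_num
    · simp [← Finset.sum_div, hx.2]
    · simp [f8]; ring

theorem cub_refines : ∃ Dg g, Refines (stdSimplex ℝ I8) Cub D8 f8 Dg g := by
  refine exists_refines f8_pao fun η ⟨⟨A, hA⟩, hη⟩ => ?_
  let w : Fin 4 → ℝ := fun i => A.linear (Pi.single i 1)
  have hv : ∀ z : V, A z = A 0 + ∑ i, z i * w i := fun z => by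
    have := A.map_vadd 0 z
    simp only [vadd_eq_add, add_zero] at this
    rw [this, add_comm, LinearMap.pi_apply_eq_sum_univ]
    simp only [smul_eq_mul, w]
    congr 1
    refine Finset.sum_congr rfl fun i _ => ?_
    congr 2
    funext k
    simp [Pi.single_apply, eq_comm]
  have hw : ∀ i j, 0 ≤ A 0 + w i - w j ∧ A 0 + w i - w j ≤ 1 := fun i j => by
    have := hη ⟨_, vx_mem i j⟩
    rw [hA, hv] at this
    simp only [vx, Pi.sub_apply, sub_mul, Finset.sum_sub_distrib, Pi.single_apply, ite_mul, one_mul,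
      zero_mul, Finset.sum_ite_eq', Finset.mem_univ, if_true] at this
    exact ⟨by linarith [this.1], by linarith [this.2]⟩
  obtain ⟨m, hm⟩ := Finite.exists_min w
  refine ⟨_, lin_form (Sum.elim (fun i => 2 * (w i - w m + max 0 (A 0 - 1 / 2)))
    fun j => 2 * (A 0 - max 0 (A 0 - 1 / 2) - w j + w m)) ?_, fun a c h1 h2 => ?_⟩
  · rintro (i | i) <;> have := hw i m <;> have := hw m i <;> have := hm i <;>
      rcases le_total 0 (A 0 - 1 / 2) with h | h <;>
      simp only [Sum.elim_inl, Sum.elim_inr, max_eq_left, max_eq_right, h, mem_Icc] <;>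
      constructor <;> linarith [this]
  · have e1 := h1.2
    have e2 := d8_inr h1
    rw [hA, hv, h2]
    simp only [Fintype.sum_sum_type, Fin.sum_univ_four, Sum.elim_inl, Sum.elim_inr, f8] at e1 e2 ⊢
    linear_combination (-2 * (max 0 (A 0 - 1 / 2) - w m)) * e1 -
      2 * (A 0 - max 0 (A 0 - 1 / 2) + w m) * e2

/-- The preimage of the vertex `vx i j`. -/
noncomputable def pt (i j : Fin 4) : I8 → ℝ :=
  (1 / 2 : ℝ) • Pi.single (.inl i) 1 + (1 - 1 / 2 : ℝ) • Pi.single (.inr j) 1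

theorem pt_mem (i j : Fin 4) : pt i j ∈ D8 :=
  ⟨convex_stdSimplex ℝ I8 (single_mem_stdSimplex ℝ _) (single_mem_stdSimplex ℝ _) (by norm_num)
    (by norm_num) (by ring), by simp [pt, Pi.single_apply]⟩

theorem f8_pt (i j : Fin 4) : f8 (pt i j) = vx i j := by
  funext k
  simp only [f8, pt, vx, Pi.add_apply, Pi.smul_apply, Pi.sub_apply, Pi.single_apply, smul_eq_mul,
    Sum.inl.injEq, Sum.inr.injEq, reduceCtorEq, if_false]
  split_ifs <;> norm_num

theorem vx_ne : vx 0 1 ≠ vx 0 2 := fun h => by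
  have := congrFun h 1
  simp [vx] at this

end Pool.Agent.H17.SRef
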