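import Mathlib
import Pool.Agent.H17.SRef

namespace Pool.Agent.H17.SRefN

open Set Pointwise
open Pool.Agent.H17.SRef (PAO Refines exists_refines lin_form)

variable {n : ℕ}

abbrev V (n : ℕ) := Fin n → ℝ
abbrev I8 (n : ℕ) := Fin n ⊕ Fin n

/-- The root polytope. -/
def Cub (n : ℕ) : Set (V n) := stdSimplex ℝ (Fin n) - stdSimplex ℝ (Fin n)

def D8 (n : ℕ) : Set (I8 n → ℝ) := {x | x ∈ stdSimplex ℝ (I8 n) ∧ ∑ i, x (.inl i) = 1 / 2}

def f8 (x : (I8 n) → ℝ) : (V n) := fun i => 2 * (x (.inl i) - x (.inr i))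

def vx (i j : Fin n) : (V n) := Pi.single i 1 - Pi.single j 1

theorem vx_mem (i j : Fin n) : vx i j ∈ (Cub n) :=
  sub_mem_sub (single_mem_stdSimplex ℝ i) (single_mem_stdSimplex ℝ j)

theorem cub_hull : (Cub n) = convexHull ℝ (range (fun i : Fin n => (Pi.single i 1 : (V n))) -
    range (fun i : Fin n => (Pi.single i 1 : (V n)))) := by
  rw [convexHull_sub, convexHull_rangle_single_eq_stdSimplex]; rfl

theorem cub_poly : SRef.IsPolytope (Cub n) := ⟨_, (finite_range _).sub (finite_range _), cub_hull⟩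

theorem ext_fin : (extremePoints ℝ (Cub n)).Finite := by
  rw [cub_hull]
  exact ((finite_range _).sub (finite_range _)).subset extremePoints_convexHull_subset

theorem eq_single {x : (V n)} (hx : x ∈ stdSimplex ℝ (Fin n)) {i : Fin n} (h : 1 ≤ x i) :
    x = Pi.single i 1 := by
  have h1 := hx.2
  rw [← Finset.add_sum_erase _ _ (Finset.mem_univ i)] at h1
  have h2 : 0 ≤ ∑ k ∈ Finset.univ.erase i, x k := Finset.sum_nonneg fun k _ => hx.1 k
  have h3 := (Finset.sum_eq_zero_iff_of_nonneg fun k _ => hx.1 k).1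
    (show ∑ k ∈ Finset.univ.erase i, x k = 0 by linarith)
  funext k
  by_cases e : k = i
  · subst e; simp; linarith
  · simp [e, h3 k (by simp [e])]

theorem expo {z : (V n)} (hz : z ∈ (Cub n)) (i j : Fin n) :
    z i - z j ≤ 2 ∧ (2 ≤ z i - z j → z = vx i j) := by
  obtain ⟨x, hx, y, hy, rfl⟩ := hz
  have a1 := (mem_Icc_of_mem_stdSimplex hx i).2
  have a2 := (mem_Icc_of_mem_stdSimplex hy j).2
  have a3 := hx.1 j
  have a4 := hy.1 i
  simp only [Pi.sub_apply]
  refine ⟨by linarith, fun h => ?_⟩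
  rw [eq_single hx (i := i) (by linarith), eq_single hy (i := j) (by linarith)]
  rfl

theorem vx_val {i j : Fin n} (h : i ≠ j) : vx i j i - vx i j j = 2 := by
  simp [vx, h, h.symm]; norm_num

theorem vx_ext {i j : Fin n} (h : i ≠ j) : vx i j ∈ extremePoints ℝ (Cub n) := by
  refine mem_extremePoints_iff_left.2 ⟨vx_mem i j, fun x hx y hy ⟨a, b, ha, hb, hab, e⟩ => ?_⟩
  have h1 := vx_val h
  rw [← e] at h1
  simp only [Pi.add_apply, Pi.smul_apply, smul_eq_mul] at h1
  have h2 := (expo hy i j).1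
  refine (expo hx i j).2 (not_lt.1 fun h3 => ?_)
  nlinarith

theorem ext_eq (h2 : 2 ≤ n) : extremePoints ℝ (Cub n) = (fun p : Fin n × Fin n => vx p.1 p.2) ''
    ↑(Finset.univ : Finset (Fin n)).offDiag := by
  refine Subset.antisymm (fun z hz => ?_) (by
    rintro _ ⟨p, hp, rfl⟩; exact vx_ext (by simpa using hp))
  have h1 := hz
  rw [cub_hull] at h1
  obtain ⟨_, ⟨i, rfl⟩, _, ⟨j, rfl⟩, rfl⟩ := extremePoints_convexHull_subset h1
  by_cases e : i = j
  · subst e
    have : Nontrivial (Fin n) := Fin.nontrivial_iff_two_le.2 h2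
    obtain ⟨k, hk⟩ := exists_ne i
    have := (mem_extremePoints_iff_left.1 hz).2 _ (vx_mem i k) _ (vx_mem k i)
      ⟨1 / 2, 1 / 2, by norm_num, by norm_num, by norm_num, by simp [vx, smul_sub]⟩
    have := congrFun this i
    simp [vx, hk.symm] at this
  · exact ⟨(i, j), by simpa using e, rfl⟩

theorem ext_card (h2 : 2 ≤ n) : (extremePoints ℝ (Cub n)).ncard = n * (n - 1) := by
  have inj : InjOn (fun p : Fin n × Fin n => vx p.1 p.2) ↑(Finset.univ : Finset (Fin n)).offDiag := by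
    rintro ⟨i, j⟩ hp ⟨k, l⟩ hq e
    have h1 : i ≠ j := by simpa using hp
    have e1 := congrFun e i
    have e2 := congrFun e j
    simp only [vx, Pi.sub_apply, Pi.single_apply, h1, h1.symm, if_true, if_false] at e1 e2
    split_ifs at e1 e2 <;> first | (norm_num at e1; done) | (norm_num at e2; done) | simp_all
  rw [ext_eq h2, inj.ncard_image, ncard_coe_finset, Finset.offDiag_card, Nat.mul_sub_one]
  simp

theorem cub_not (h3 : 3 ≤ n) : ¬ SRef.IsSimplex (Cub n) := by
  rintro ⟨s, h1, h2⟩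
  have a := h1.card_le_finrank_succ.trans (Nat.succ_le_succ (Submodule.finrank_le _))
  have c := ncard_le_ncard (show extremePoints ℝ (Cub n) ⊆ s by
    rw [h2]; exact extremePoints_convexHull_subset) s.finite_toSet
  rw [ext_card (by omega)] at c
  simp only [ncard_coe_finset, Fintype.card_coe, Module.finrank_fin_fun] at a c
  have := Nat.mul_le_mul_left n (show 2 ≤ n - 1 by omega)
  omega

theorem d8_inr {x : (I8 n) → ℝ} (hx : x ∈ (D8 n)) : ∑ i, x (.inr i) = 1 / 2 := by
  have := hx.1.2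
  rw [Fintype.sum_sum_type, hx.2] at this
  linarith

theorem f8_pao : PAO (stdSimplex ℝ (I8 n)) (Cub n) (D8 n) f8 := by
  refine ⟨fun x hx => hx.1, fun a ha b hb l hl => ⟨⟨convex_stdSimplex ℝ (I8 n) ha.1 hb.1 hl.1
    (sub_nonneg.2 hl.2) (by ring), ?_⟩, funext fun i => ?_⟩, Subset.antisymm ?_ ?_⟩
  · simp only [Pi.add_apply, Pi.smul_apply, smul_eq_mul, Finset.sum_add_distrib,
      ← Finset.mul_sum, ha.2, hb.2]
    ring
  · simp only [f8, Pi.add_apply, Pi.smul_apply, smul_eq_mul]; ring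
  · rintro _ ⟨x, hx, rfl⟩
    refine ⟨fun i => 2 * x (.inl i), ⟨fun i => mul_nonneg two_pos.le (hx.1.1 _), ?_⟩,
      fun i => 2 * x (.inr i), ⟨fun i => mul_nonneg two_pos.le (hx.1.1 _), ?_⟩,
      funext fun i => by simp [f8, mul_sub]⟩
    · rw [← Finset.mul_sum, hx.2]; norm_num
    · rw [← Finset.mul_sum, d8_inr hx]; norm_num
  · rintro _ ⟨x, hx, y, hy, rfl⟩
    refine ⟨Sum.elim (fun i => x i / 2) fun i => y i / 2, ⟨⟨?_, ?_⟩, ?_⟩, funext fun i => ?_⟩
    · rintro (i | i)
      exacts [div_nonneg (hx.1 i) two_pos.le, div_nonneg (hy.1 i) two_pos.le]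
    · simp [Fintype.sum_sum_type, ← Finset.sum_div, hx.2, hy.2]; norm_num
    · simp [← Finset.sum_div, hx.2]
    · simp [f8]; ring

theorem cub_refines [NeZero n] : ∃ Dg g, Refines (stdSimplex ℝ (I8 n)) (Cub n) (D8 n) f8 Dg g := by
  refine exists_refines f8_pao fun η ⟨⟨A, hA⟩, hη⟩ => ?_
  let w : Fin n → ℝ := fun i => A.linear (Pi.single i 1)
  have hv : ∀ z : (V n), A z = A 0 + ∑ i, z i * w i := fun z => by
    have := A.map_vadd 0 z
    simp only [vadd_eq_add, add_zero] at this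
    rw [this, add_comm, LinearMap.pi_apply_eq_sum_univ]
    simp only [smul_eq_mul, w]
    congr 1
    refine Finset.sum_congr rfl fun i _ => ?_
    congr 2
    funext k
    simp [Pi.single_apply, eq_comm]
  have hw : ∀ i j, 0 ≤ A 0 + w i - w j ∧ A 0 + w i - w j ≤ 1 := fun i j => by
    have := hη ⟨_, vx_mem i j⟩
    rw [hA, hv] at this
    simp only [vx, Pi.sub_apply, sub_mul, Finset.sum_sub_distrib, Pi.single_apply, ite_mul, one_mul,
      zero_mul, Finset.sum_ite_eq', Finset.mem_univ, if_true] at this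
    exact ⟨by linarith [this.1], by linarith [this.2]⟩
  obtain ⟨m, hm⟩ := Finite.exists_min w
  refine ⟨_, lin_form (Sum.elim (fun i => 2 * (w i - w m + max 0 (A 0 - 1 / 2)))
    fun j => 2 * (A 0 - max 0 (A 0 - 1 / 2) - w j + w m)) ?_, fun a c h1 h2 => ?_⟩
  · rintro (i | i) <;> have := hw i m <;> have := hw m i <;> have := hm i <;>
      rcases le_total 0 (A 0 - 1 / 2) with h | h <;>
      simp only [Sum.elim_inl, Sum.elim_inr, max_eq_left, max_eq_right, h, mem_Icc] <;>
      constructor <;> linarith [this]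
  · have e1 := h1.2
    have e2 := d8_inr h1
    rw [hA, hv, h2]
    have e3 : ∀ (x : Fin n → ℝ) (s : ℝ), ∑ i, x i * (2 * (w i - w m + s)) =
        2 * ∑ i, x i * w i + 2 * (s - w m) * ∑ i, x i := fun x s => by
      simp only [Finset.mul_sum, ← Finset.sum_add_distrib]
      exact Finset.sum_congr rfl fun i _ => by ring
    have e4 : ∀ (x : Fin n → ℝ) (s : ℝ), ∑ i, x i * (2 * (s - w i + w m)) =
        -2 * ∑ i, x i * w i + 2 * (s + w m) * ∑ i, x i := fun x s => by
      simp only [Finset.mul_sum, ← Finset.sum_add_distrib]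
      exact Finset.sum_congr rfl fun i _ => by ring
    have e5 : ∑ i, f8 a.1 i * w i = 2 * ∑ i, a.1 (.inl i) * w i - 2 * ∑ i, a.1 (.inr i) * w i := by
      simp only [Finset.mul_sum, ← Finset.sum_sub_distrib, f8]
      exact Finset.sum_congr rfl fun i _ => by ring
    simp only [Fintype.sum_sum_type, Sum.elim_inl, Sum.elim_inr]
    rw [e3, e4, e5, e1, e2]
    ring

end Pool.Agent.H17.SRefN
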