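import Mathlib

namespace Pool.Agent.H17.Shrink

open Set Complex

def Shr {ι : Type} (p q : ι → ℂ) : Prop :=
  ∃ x : ι → ℝ → ℂ, (∀ i, Continuous (x i)) ∧ (∀ i, x i 0 = p i) ∧ (∀ i, x i 1 = q i) ∧
    ∀ i j, AntitoneOn (fun t => ‖x i t - x j t‖) (Icc 0 1)

variable {ι : Type}

lemma Shr.refl (p : ι → ℂ) : Shr p p :=
  ⟨fun i _ => p i, fun _ => continuous_const, fun _ => rfl, fun _ => rfl,
    fun _ _ => antitoneOn_const⟩

lemma Shr.trans {p q r : ι → ℂ} (h1 : Shr p q) (h2 : Shr q r) : Shr p r := by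
  obtain ⟨x, xc, x0, x1, xa⟩ := h1
  obtain ⟨y, yc, y0, y1, ya⟩ := h2
  refine ⟨fun i t => x i (min (2 * t) 1) + y i (max (2 * t - 1) 0) - q i, fun i => ?_,
    fun i => ?_, fun i => ?_, fun i j => ?_⟩
  · have := xc i
    have := yc i
    fun_prop
  · norm_num [x0, y0]
  · norm_num [x1, y1]
  · rw [← Icc_union_Icc_eq_Icc (show (0 : ℝ) ≤ 1 / 2 by norm_num) (show (1 / 2 : ℝ) ≤ 1 by norm_num)]
    refine AntitoneOn.union_right (c := 1 / 2) ?_ ?_ (isGreatest_Icc (by norm_num))
      (isLeast_Icc (by norm_num))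
    · intro a ha b hb hab
      have e : ∀ t ∈ Icc (0 : ℝ) (1 / 2), min (2 * t) 1 = 2 * t ∧ max (2 * t - 1) 0 = 0 :=
        fun t ht => ⟨min_eq_left (by linarith [ht.2]), max_eq_right (by linarith [ht.2])⟩
      simp only [(e a ha).1, (e a ha).2, (e b hb).1, (e b hb).2, y0, add_sub_cancel_right]
      exact xa i j ⟨by linarith [ha.1], by linarith [ha.2]⟩ ⟨by linarith [hb.1], by linarith [hb.2]⟩
        (by linarith)
    · intro a ha b hb hab
      have e : ∀ t ∈ Icc (1 / 2 : ℝ) 1, min (2 * t) 1 = 1 ∧ max (2 * t - 1) 0 = 2 * t - 1 :=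
        fun t ht => ⟨min_eq_right (by linarith [ht.1]), max_eq_left (by linarith [ht.1])⟩
      simp only [(e a ha).1, (e a ha).2, (e b hb).1, (e b hb).2, x1, add_sub_cancel_left]
      exact ya i j ⟨by linarith [ha.1], by linarith [ha.2]⟩ ⟨by linarith [hb.1], by linarith [hb.2]⟩
        (by linarith)

lemma norm_le_of_sq {a b : ℂ} (h : a.re ^ 2 + a.im ^ 2 ≤ b.re ^ 2 + b.im ^ 2) : ‖a‖ ≤ ‖b‖ := by
  rw [← sq_le_sq₀ (norm_nonneg _) (norm_nonneg _), Complex.sq_norm, Complex.sq_norm,
    normSq_apply, normSq_apply]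
  linarith

/-- straight line motion onto points of the real line -/
lemma Shr.linear (p : ι → ℂ) (r : ι → ℝ)
    (h : ∀ i j, 0 ≤ ((p i).re - (p j).re - (r i - r j)) * (r i - r j)) :
    Shr p (fun i => (r i : ℂ)) := by
  refine ⟨fun i t => (1 - t) * p i + t * r i, fun i => by fun_prop, fun i => by simp,
    fun i => by simp, fun i j a ha b hb hab => norm_le_of_sq ?_⟩
  simp only [sub_re, add_re, mul_re, one_re, ofReal_re, sub_im, one_im, ofReal_im, add_im, mul_im]
  have h1 := h i j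
  set w := r i - r j with hw
  set d := (p i).re - (p j).re - w with hd
  set e := (p i).im - (p j).im with he
  have e1 : ∀ t : ℝ, (1 - t) * (p i).re - (0 - 0) * (p i).im + (t * r i - 0 * 0) -
      ((1 - t) * (p j).re - (0 - 0) * (p j).im + (t * r j - 0 * 0)) = w + (1 - t) * d := by
    intro t; rw [hd, hw]; ring
  have e2 : ∀ t : ℝ, (1 - t) * (p i).im + (0 - 0) * (p i).re + (t * 0 + 0 * r i) -
      ((1 - t) * (p j).im + (0 - 0) * (p j).re + (t * 0 + 0 * r j)) = (1 - t) * e := by
    intro t; rw [he]; ring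
  rw [e1, e1, e2, e2]
  have h2 : (1 - b) ^ 2 ≤ (1 - a) ^ 2 := by nlinarith [hb.2]
  nlinarith [mul_le_mul_of_nonneg_right h2 (sq_nonneg d), mul_le_mul_of_nonneg_right h2 (sq_nonneg e),
    mul_nonneg (sub_nonneg.2 hab) h1]

lemma Shr.translate (p : ι → ℂ) (c : ℂ) : Shr p (fun i => p i + c) :=
  ⟨fun i t => p i + t * c, fun i => by fun_prop, fun i => by simp, fun i => by simp,
    fun i j => by simpa using antitoneOn_const⟩

lemma exp_lip (a s t : ℝ) (ha : |a| ≤ 4) (h : s ≤ t) :
    ‖exp (↑(a * t) * I) - exp (↑(a * s) * I)‖ ≤ 4 * (t - s) := by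
  have e : exp (↑(a * t) * I) - exp (↑(a * s) * I) =
      exp (↑(a * s) * I) * (exp (I * ↑(a * (t - s))) - 1) := by
    rw [mul_sub, ← Complex.exp_add]; push_cast; ring_nf
  rw [e, norm_mul, norm_exp_ofReal_mul_I, one_mul]
  refine Real.norm_exp_I_mul_ofReal_sub_one_le.trans ?_
  rw [Real.norm_eq_abs, abs_mul, abs_of_nonneg (sub_nonneg.2 h)]
  exact mul_le_mul_of_nonneg_right ha (sub_nonneg.2 h)

/-- far apart clusters can be rotated independently while their centres are contracted -/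
lemma Shr.rotate {κ : Type} (k : ι → κ) (c : κ → ℂ) (w : κ → ℂ) (s : ι → ℂ) (R : ℝ)
    (hw : ∀ a, ‖w a‖ = 1) (hs : ∀ i, ‖s i‖ ≤ R)
    (hc : ∀ i j, k i ≠ k j → 40 * R ≤ ‖c (k i) - c (k j)‖) :
    Shr (fun i => c (k i) + s i) (fun i => c (k i) / 2 + w (k i) * s i) := by
  have harg : ∀ a, |(w a).arg| ≤ 4 := fun a => (abs_arg_le_pi _).trans Real.pi_le_four
  refine ⟨fun i t => (1 - t / 2) * c (k i) + exp (↑((w (k i)).arg * t) * I) * s i,
    fun i => by fun_prop, fun i => by simp, fun i => ?_, fun i j a ha b hb hab => ?_⟩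
  · have := norm_mul_exp_arg_mul_I (w (k i))
    rw [hw] at this
    simp only [ofReal_one, one_mul] at this
    simp only [mul_one, this, ofReal_one]
    ring
  by_cases hk : k i = k j
  · simp only [hk, add_sub_add_left_eq_sub, ← mul_sub, norm_mul, norm_exp_ofReal_mul_I, le_refl]
  have hR : 0 ≤ R := (norm_nonneg _).trans (hs i)
  set C := c (k i) - c (k j)
  let S : ℝ → ℂ := fun t => exp (↑((w (k i)).arg * t) * I) * s i -
    exp (↑((w (k j)).arg * t) * I) * s j
  have e : ∀ t : ℝ, (1 - t / 2) * c (k i) + exp (↑((w (k i)).arg * t) * I) * s i -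
      ((1 - t / 2) * c (k j) + exp (↑((w (k j)).arg * t) * I) * s j) =
      ((1 - t / 2 : ℝ) : ℂ) * C + S t := by
    intro t; simp only [S, C]; push_cast; ring
  simp only [e]
  have s1 : ‖S a‖ ≤ 2 * R := by
    refine (norm_sub_le _ _).trans ?_
    rw [norm_mul, norm_mul, norm_exp_ofReal_mul_I, norm_exp_ofReal_mul_I]
    linarith [hs i, hs j]
  have s2 : ‖S b - S a‖ ≤ 8 * R * (b - a) := by
    have e2 : S b - S a = (exp (↑((w (k i)).arg * b) * I) - exp (↑((w (k i)).arg * a) * I)) * s i -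
        (exp (↑((w (k j)).arg * b) * I) - exp (↑((w (k j)).arg * a) * I)) * s j := by
      simp only [S]; ring
    rw [e2]
    refine (norm_sub_le _ _).trans ?_
    rw [norm_mul, norm_mul]
    have a1 := mul_le_mul (exp_lip _ a b (harg (k i)) hab) (hs i) (norm_nonneg _) (by linarith)
    have a2 := mul_le_mul (exp_lip _ a b (harg (k j)) hab) (hs j) (norm_nonneg _) (by linarith)
    linarith
  have hA : 0 < 1 - a / 2 := by linarith [ha.2]
  set l : ℝ := (b - a) / 2 / (1 - a / 2) with hl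
  have l0 : (b - a) / 2 ≤ l := by
    rw [hl, le_div_iff₀ hA]; nlinarith [ha.1]
  have l1 : l ≤ 1 := by
    rw [hl, div_le_one hA]; linarith [hb.2]
  have l2 : 0 ≤ l := by linarith
  have e3 : ((1 - b / 2 : ℝ) : ℂ) * C + S b = ((1 - l : ℝ) : ℂ) * (((1 - a / 2 : ℝ) : ℂ) * C + S a) +
      ((S b - S a) + (l : ℂ) * S a) := by
    have : (1 - b / 2 : ℝ) = (1 - l) * (1 - a / 2) := by
      rw [sub_mul, one_mul, hl, div_mul_cancel₀ _ hA.ne']; ring
    rw [this]; push_cast; ring
  have low : 18 * R ≤ ‖((1 - a / 2 : ℝ) : ℂ) * C + S a‖ := by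
    have a1 := norm_sub_le (((1 - a / 2 : ℝ) : ℂ) * C + S a) (S a)
    rw [add_sub_cancel_right, norm_mul, norm_real, Real.norm_of_nonneg hA.le] at a1
    have a2 := hc i j hk
    nlinarith [ha.2, norm_nonneg C]
  rw [e3]
  refine (norm_add_le _ _).trans ?_
  have a3 := norm_add_le (S b - S a) ((l : ℂ) * S a)
  rw [norm_mul, norm_real, Real.norm_of_nonneg l2] at a3
  rw [norm_mul, norm_real, Real.norm_of_nonneg (by linarith)]
  nlinarith [mul_le_mul_of_nonneg_left s1 l2, mul_le_mul_of_nonneg_left low l2,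
    mul_le_mul_of_nonneg_left l0 hR]

noncomputable def om : ℂ := exp (↑(2 * Real.pi / 3) * I)

lemma om_re : om.re = -1 / 2 := by
  rw [om, exp_ofReal_mul_I_re, show 2 * Real.pi / 3 = Real.pi - Real.pi / 3 by ring,
    Real.cos_pi_sub, Real.cos_pi_div_three]; norm_num

lemma om_im : om.im = √3 / 2 := by
  rw [om, exp_ofReal_mul_I_im, show 2 * Real.pi / 3 = Real.pi - Real.pi / 3 by ring,
    Real.sin_pi_sub, Real.sin_pi_div_three]

noncomputable def tau (j : ℕ) : ℂ := if j % 3 = 0 then 0 else if j % 3 = 1 then -1 else om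

noncomputable def A (k j : ℕ) : ℂ := if j ≤ k then k + tau (k - j) else j

lemma roll_step (k : ℕ) (r : ι → ℕ) : Shr (fun i => A k (r i)) (fun i => A (k + 1) (r i)) := by
  have s3 : √3 ^ 2 = 3 := Real.sq_sqrt (by norm_num)
  have hexp : exp (↑(-(2 * Real.pi / 3)) * I) = -1 - om := by
    apply Complex.ext
    · rw [exp_ofReal_mul_I_re, Real.cos_neg, ← exp_ofReal_mul_I_re]
      have := om_re
      rw [om] at this
      simp only [sub_re, neg_re, one_re, om, this]; norm_num
    · rw [exp_ofReal_mul_I_im, Real.sin_neg, ← exp_ofReal_mul_I_im]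
      simp [om]
  have hom : (-1 - om) * om = 1 := by
    apply Complex.ext
    · simp [om_re, om_im]; nlinarith
    · simp [om_re, om_im]; ring
  refine ⟨fun i t => if r i ≤ k then k + exp (↑(-(2 * Real.pi / 3) * t) * I) * tau (k - r i)
    else r i, fun i => ?_, fun i => by simp [A], fun i => ?_, fun i j => ?_⟩
  · by_cases h : r i ≤ k <;> simp only [h, if_true, if_false] <;> fun_prop
  · simp only [mul_one, hexp, A]
    by_cases h : r i ≤ k
    · rw [if_pos h, if_pos (by omega), tau, tau]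
      have : (k - r i) % 3 = 0 ∨ (k - r i) % 3 = 1 ∨ (k - r i) % 3 = 2 := by omega
      rcases this with h1 | h1 | h1
      · rw [if_pos h1, if_neg (by omega), if_pos (by omega)]; push_cast; ring
      · rw [if_neg (by omega), if_pos h1, if_neg (by omega), if_neg (by omega)]; push_cast; ring
      · rw [if_neg (by omega), if_neg (by omega), if_pos (by omega), hom]; push_cast; ring
    · rw [if_neg h]
      split_ifs with h2
      · rw [show r i = k + 1 by omega]; simp [tau]
      · rfl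
  · have key : ∀ (u v : ℕ), k < v → AntitoneOn (fun t : ℝ =>
        ‖(k : ℂ) + exp (↑(-(2 * Real.pi / 3) * t) * I) * tau u - v‖) (Icc 0 1) := by
      intro u v hv a ha b hb hab
      have hv' : (k : ℝ) < v := by exact_mod_cast hv
      have gen : ∀ θ : ℝ, 2 * Real.pi / 3 ≤ θ → θ ≤ Real.pi → tau u = exp (↑θ * I) →
          ‖(k : ℂ) + exp (↑(-(2 * Real.pi / 3) * b) * I) * tau u - v‖ ≤
          ‖(k : ℂ) + exp (↑(-(2 * Real.pi / 3) * a) * I) * tau u - v‖ := by
        intro θ h1 h2 h3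
        have e : ∀ t : ℝ, exp (↑(-(2 * Real.pi / 3) * t) * I) * tau u =
            exp (↑(θ - 2 * Real.pi / 3 * t) * I) := by
          intro t; rw [h3, ← Complex.exp_add]; push_cast; ring_nf
        rw [e, e]
        apply norm_le_of_sq
        simp only [sub_re, add_re, natCast_re, exp_ofReal_mul_I_re, sub_im, add_im, natCast_im,
          exp_ofReal_mul_I_im]
        have := Real.cos_le_cos_of_nonneg_of_le_pi (x := θ - 2 * Real.pi / 3 * b)
          (y := θ - 2 * Real.pi / 3 * a) (by nlinarith [hb.2, Real.pi_pos])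
          (by nlinarith [ha.1, Real.pi_pos]) (by nlinarith [Real.pi_pos])
        nlinarith [Real.sin_sq_add_cos_sq (θ - 2 * Real.pi / 3 * b),
          Real.sin_sq_add_cos_sq (θ - 2 * Real.pi / 3 * a)]
      by_cases h0 : u % 3 = 0
      · simp [tau, h0]
      by_cases h1 : u % 3 = 1
      · exact gen Real.pi (by linarith [Real.pi_pos]) le_rfl (by simp [tau, h1])
      · exact gen _ le_rfl (by linarith [Real.pi_pos]) (by rw [tau, if_neg h0, if_neg h1, om])
    by_cases hi : r i ≤ k <;> by_cases hj : r j ≤ k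
    · simp only [hi, hj, if_true, add_sub_add_left_eq_sub, ← mul_sub, norm_mul,
        norm_exp_ofReal_mul_I]
      exact antitoneOn_const
    · simp only [hi, hj, if_true, if_false]
      exact key _ _ (by omega)
    · simp only [hi, hj, if_true, if_false, norm_sub_rev ((r i : ℕ) : ℂ)]
      exact key _ _ (by omega)
    · simp only [hi, hj, if_false]
      exact antitoneOn_const

lemma roll (r : ι → ℕ) (k : ℕ) : Shr (fun i => (r i : ℂ)) (fun i => A k (r i)) := by
  induction k with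
  | zero =>
    have : (fun i => A 0 (r i)) = fun i => (r i : ℂ) := by
      ext i
      rw [A]
      split_ifs with h
      · rw [show r i = 0 by omega]; simp [tau]
      · rfl
    rw [this]
    exact Shr.refl _
  | succ k ih => exact ih.trans (roll_step k r)

/-- integer points of the line roll up onto the unit triangle -/
lemma roll_int [Finite ι] (r : ι → ℤ) (c : ι → ℕ) (h : ∀ i, r i % 3 = (c i : ℤ) % 3) :
    Shr (fun i => ((r i : ℝ) : ℂ)) (fun i => tau (2 * c i)) := by
  obtain ⟨B, hB⟩ := (Set.finite_range fun i => (r i).natAbs).bddAbove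
  have hB' : ∀ i, (r i).natAbs ≤ B := fun i => hB ⟨i, rfl⟩
  have h1 := Shr.translate (fun i => ((r i : ℝ) : ℂ)) (3 * B : ℕ)
  have h2 := roll (fun i => (r i + 3 * B).toNat) (6 * B)
  have h3 := Shr.translate (fun i => A (6 * B) (r i + 3 * B).toNat) (-(6 * B : ℕ))
  have e1 : (fun i => ((r i : ℝ) : ℂ) + (3 * B : ℕ)) = fun i => (((r i + 3 * B).toNat : ℕ) : ℂ) := by
    ext i
    have : (((r i + 3 * B).toNat : ℕ) : ℤ) = r i + 3 * B := by have := hB' i; omega
    have h4 := congrArg (fun z : ℤ => (z : ℂ)) this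
    simp only [Int.cast_natCast] at h4
    rw [h4]; push_cast; rfl
  have e2 : (fun i => A (6 * B) (r i + 3 * B).toNat + (-(6 * B : ℕ))) = fun i => tau (2 * c i) := by
    ext i
    have a1 := hB' i
    have a2 := h i
    rw [A, if_pos (by omega), tau, tau,
      show (6 * B - (r i + 3 * B).toNat) % 3 = (2 * c i) % 3 by omega]
    ring
  rw [e1] at h1
  rw [e2] at h3
  exact (h1.trans h2).trans h3

lemma pigeon {α : Type} (P : Finset α) (S : ℕ) (hP : P.card ≤ S) (Bad : α → ℕ → Prop)
    (h : ∀ a ∈ P, ∀ s s', s ≤ S → s' ≤ S → Bad a s → Bad a s' → s = s') :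
    ∃ s ≤ S, ∀ a ∈ P, ¬ Bad a s := by
  by_contra hc
  push Not at hc
  have : Nonempty α := ⟨(hc 0 (Nat.zero_le _)).choose⟩
  choose! f hf hf' using hc
  have := Finset.card_le_card_of_injOn (s := Finset.range (S + 1)) (t := P) f
    (fun s hs => hf s (by simpa [Nat.lt_succ_iff] using hs)) (fun s hs s' hs' e => by
      have a1 : s ≤ S := by simpa [Nat.lt_succ_iff] using hs
      have a2 : s' ≤ S := by simpa [Nat.lt_succ_iff] using hs'
      exact h _ (hf s a1) s s' a1 a2 (hf' s a1) (e ▸ hf' s' a2))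
  simp at this
  omega

end Pool.Agent.H17.Shrink
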