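import Mathlib
import Pool.Agent.H17.Shrink

namespace Pool.Agent.H17.Shrink

open Set Complex

def dX (N j : ℤ) : ℤ := if j ≤ 2 * N then j else 4 * N - j

def dY (N j : ℤ) : ℤ := if j ≤ N then N - j else if j ≤ 3 * N then j - N else 5 * N - j

def off (N b i : ℤ) : ℤ :=
  if 2 * N < i - b then i - b - 4 * N else if i - b < -(2 * N) then i - b + 4 * N else i - b

noncomputable def dP (N j : ℤ) : ℂ := ⟨dX N j, dY N j⟩

lemma F2 (N b : ℤ) (hb : 0 ≤ b ∧ b < 4 * N) : ∃ d : ℂ, ‖d‖ = 1 ∧ ∀ i, 0 ≤ i ∧ i < 4 * N →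
    2 * |off N b i| ≤ N → (d * (dP N i - dP N b)).re = off N b i := by
  have key : ∀ α β : ℤ, α ^ 2 + β ^ 2 = 1 → (∀ i, 0 ≤ i ∧ i < 4 * N → 2 * |off N b i| ≤ N →
      α * (dX N i - dX N b) + β * (dY N i - dY N b) = off N b i) →
      ∃ d : ℂ, ‖d‖ = 1 ∧ ∀ i, 0 ≤ i ∧ i < 4 * N →
      2 * |off N b i| ≤ N → (d * (dP N i - dP N b)).re = off N b i := by
    intro α β h1 h2
    refine ⟨⟨α, -β⟩, ?_, fun i hi hi' => ?_⟩
    · have : (α : ℝ) ^ 2 + β ^ 2 = 1 := by exact_mod_cast h1
      rw [← sq_eq_sq₀ (norm_nonneg _) zero_le_one, Complex.sq_norm, normSq_mk]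
      linarith
    · have : (α : ℝ) * (dX N i - dX N b) + β * (dY N i - dY N b) = off N b i := by
        exact_mod_cast h2 i hi hi'
      simp [dP]
      linarith
  have ab : ∀ z : ℤ, 2 * |z| ≤ N → 2 * z ≤ N ∧ -N ≤ 2 * z := fun z h => by
    constructor <;> linarith [le_abs_self z, neg_abs_le z]
  by_cases h1 : 2 * b ≤ N ∨ 7 * N ≤ 2 * b
  · refine key 0 (-1) (by norm_num) fun i hi h => ?_
    have := ab _ h
    clear key ab h
    unfold dX dY off at *
    split_ifs at * <;> omega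
  by_cases h2 : 2 * b ≤ 3 * N
  · refine key 1 0 (by norm_num) fun i hi h => ?_
    have := ab _ h
    clear key ab h
    unfold dX dY off at *
    split_ifs at * <;> omega
  by_cases h3 : 2 * b ≤ 5 * N
  · refine key 0 1 (by norm_num) fun i hi h => ?_
    have := ab _ h
    clear key ab h
    unfold dX dY off at *
    split_ifs at * <;> omega
  · refine key (-1) 0 (by norm_num) fun i hi h => ?_
    have := ab _ h
    clear key ab h
    unfold dX dY off at *
    split_ifs at * <;> omega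

lemma F3 (N b i : ℤ) (hb : 0 ≤ b ∧ b < 4 * N) (hi : 0 ≤ i ∧ i < 4 * N) :
    ‖dP N i - dP N b‖ ≤ 2 * (|off N b i| : ℤ) := by
  have h1 : |dX N i - dX N b| ≤ |off N b i| ∧ |dY N i - dY N b| ≤ |off N b i| := by
    simp only [Int.abs_eq_natAbs]
    unfold dX dY off
    split_ifs <;> omega
  have h2 : |(dX N i : ℝ) - dX N b| ≤ (|off N b i| : ℤ) := by exact_mod_cast h1.1
  have h3 : |(dY N i : ℝ) - dY N b| ≤ (|off N b i| : ℤ) := by exact_mod_cast h1.2
  refine (norm_le_abs_re_add_abs_im _).trans ?_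
  simp only [dP, sub_re, sub_im]
  linarith

lemma F4 (N D b i : ℤ) (hb : 0 ≤ b ∧ b < 4 * N) (hi : 0 ≤ i ∧ i < 4 * N) (hD : D ≤ N)
    (h : D < |off N b i|) : D ≤ |dX N i - dX N b| ∨ D ≤ |dY N i - dY N b| := by
  simp only [Int.abs_eq_natAbs] at *
  unfold dX dY off at *
  split_ifs at * <;> omega

lemma F5 (N a b c : ℤ) (ha : 0 ≤ a ∧ a < 4 * N) (hb : 0 ≤ b ∧ b < 4 * N)
    (hc : 0 ≤ c ∧ c < 4 * N) : |off N a c| ≤ |off N a b| + |off N b c| ∧
      |off N b a| = |off N a b| := by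
  simp only [Int.abs_eq_natAbs] at *
  unfold off at *
  split_ifs at * <;> omega

lemma sub_shr (m : ℕ) : ∃ N : ℕ, 0 < N ∧ ∀ (ι : Type) [Fintype ι] (v : ι → ℕ),
    Fintype.card ι ≤ m → (∀ i, v i < 4 * (3 * N)) →
    Shr (fun i => dP (3 * N : ℕ) (v i)) (fun i => tau (2 * v i)) := by
  classical
  set S := m * m with hS
  set K : ℕ := 100 * (S + 1) * (2 * S + 1) with hK
  have hK1 : 100 ≤ K := by rw [hK]; nlinarith [Nat.zero_le S]
  refine ⟨K ^ (S + 1), by positivity, fun ι _ v hι hv => ?_⟩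
  set N : ℤ := ((3 * K ^ (S + 1) : ℕ) : ℤ) with hN
  have hv' : ∀ i, 0 ≤ (v i : ℤ) ∧ (v i : ℤ) < 4 * N := fun i =>
    ⟨by positivity, by rw [hN]; exact_mod_cast hv i⟩
  have hcard : (Finset.univ : Finset (ι × ι)).card ≤ S := by
    simpa [hS] using Nat.mul_le_mul hι hι
  obtain ⟨e, he, hgap⟩ := pigeon Finset.univ S hcard (fun a k => (K : ℤ) ^ k <
      |off N (v a.1) (v a.2)| ∧ |off N (v a.1) (v a.2)| ≤ (K : ℤ) ^ (k + 1)) (by
    rintro a - s s' - - ⟨h1, h2⟩ ⟨h3, h4⟩
    have hk : (1 : ℤ) < K := by omega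
    have a1 := (pow_lt_pow_iff_right₀ hk).1 (h1.trans_le h4)
    have a2 := (pow_lt_pow_iff_right₀ hk).1 (h3.trans_le h2)
    omega)
  set M : ℤ := (K : ℤ) ^ e with hM
  have hM1 : 1 ≤ M := one_le_pow₀ (by omega)
  have hD : K * M ≤ (K : ℤ) ^ (S + 1) := by
    rw [hM, ← pow_succ']
    exact pow_le_pow_right₀ (by omega) (by omega)
  have hDN : 3 * (K * M) ≤ N := by rw [hN]; push_cast; linarith
  have hKM : 100 * M ≤ K * M := by nlinarith
  have gap : ∀ i j, |off N (v i) (v j)| ≤ M ∨ K * M < |off N (v i) (v j)| := fun i j => by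
    have := hgap (i, j) (Finset.mem_univ _)
    rw [pow_succ'] at this
    by_contra hc
    push Not at hc
    exact this hc
  let st : Setoid ι := ⟨fun i j => |off N (v i) (v j)| ≤ M, fun i => by
      have : off N (v i) (v i) = 0 := by have := hv' i; unfold off; split_ifs <;> omega
      rw [this]; simp; omega,
    fun {i j} h => by rw [(F5 N _ _ _ (hv' i) (hv' j) (hv' j)).2]; exact h,
    fun {i j k} h1 h2 => by
      have := (F5 N _ _ _ (hv' i) (hv' j) (hv' k)).1
      rcases gap i k with h | h <;> omega⟩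
  let b : ι → ι := fun i => (Quotient.mk st i).out
  have hb1 : ∀ i, |off N (v (b i)) (v i)| ≤ M := fun i => Quotient.mk_out (s := st) i
  have hb2 : ∀ i j, b i ≠ b j → K * M < |off N (v (b i)) (v (b j))| := fun i j h =>
    (gap _ _).resolve_left fun h' => h (by
      have : Quotient.mk st (b i) = Quotient.mk st (b j) := Quotient.sound h'
      simp only [b, Quotient.out_eq] at this
      simp only [b, this])
  set η : ℤ := 100 * (S + 1) * M with hη
  obtain ⟨s, hs, hslope⟩ := pigeon Finset.univ S hcard (fun a s => K * M <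
      |off N (v a.1) (v a.2)| ∧ |dX N (v a.2) - dX N (v a.1) + s * (dY N (v a.2) - dY N (v a.1))| < η)
      (by
    rintro a - s s' hs hs' ⟨h1, h2⟩ ⟨-, h4⟩
    by_contra hne
    have h5 := F4 N (K * M) _ _ (hv' a.1) (hv' a.2) (by omega) h1
    set x := dX N (v a.2) - dX N (v a.1)
    set y := dY N (v a.2) - dY N (v a.1)
    have e1 : K * M = (2 * S + 1) * η := by rw [hη, hK]; push_cast; ring
    have h6 : |y| < 2 * η := by
      have a1 : |((s : ℤ) - s') * y| < 2 * η := by
        rw [show ((s : ℤ) - s') * y = (x + s * y) - (x + s' * y) by ring]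
        linarith [abs_sub (x + s * y) (x + s' * y)]
      have a2 : 1 ≤ |(s : ℤ) - s'| := Int.one_le_abs (by omega)
      rw [abs_mul] at a1
      nlinarith [abs_nonneg y]
    have h7 : |x| < η + S * (2 * η) := by
      have a1 := abs_sub (x + s * y) (s * y)
      rw [add_sub_cancel_right, abs_mul, abs_of_nonneg (by positivity : (0 : ℤ) ≤ s)] at a1
      have a2 : (s : ℤ) ≤ S := by exact_mod_cast hs
      nlinarith [abs_nonneg y]
    have h8 : 1 ≤ (S : ℤ) := by omega
    have h9 : 0 < η := by positivity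
    rcases h5 with h | h <;> nlinarith)
  set z : ℂ := ⟨1, -s⟩ with hz
  have z1 : 1 ≤ ‖z‖ := by simpa [hz] using abs_re_le_norm z
  have z2 : ‖z‖ ≤ S + 1 := by
    have := norm_le_abs_re_add_abs_im z
    have a2 : (s : ℝ) ≤ S := by exact_mod_cast hs
    simp [hz] at this
    simp only [hz]
    linarith
  set u : ℂ := (‖z‖⁻¹ : ℝ) * z with hu
  have u1 : ‖u‖ = 1 := by
    rw [hu, norm_mul, norm_real, norm_inv, norm_norm, inv_mul_cancel₀ (by linarith)]
  have u0 : u ≠ 0 := fun h => by simp [h] at u1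
  have far : ∀ i j, b i ≠ b j →
      100 * (M : ℝ) ≤ |(u * dP N (v (b j))).re - (u * dP N (v (b i))).re| := by
    intro i j h
    have a1 := not_lt.1 (not_and.1 (hslope (b i, b j) (Finset.mem_univ _)) (hb2 i j h))
    have a2 : 100 * (S + 1) * (M : ℝ) ≤ |(dX N (v (b j)) : ℝ) - dX N (v (b i)) +
        s * (dY N (v (b j)) - dY N (v (b i)))| := by rw [hη] at a1; exact_mod_cast a1
    have a3 : (u * dP N (v (b j))).re - (u * dP N (v (b i))).re = ‖z‖⁻¹ *
        ((dX N (v (b j)) : ℝ) - dX N (v (b i)) + s * (dY N (v (b j)) - dY N (v (b i)))) := by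
      simp only [hu, mul_assoc, re_ofReal_mul]
      simp [hz, dP]; ring
    rw [a3, abs_mul, abs_of_nonneg (by positivity), inv_mul_eq_div, le_div_iff₀ (by linarith)]
    have : (1 : ℝ) ≤ M := by exact_mod_cast hM1
    nlinarith
  choose d hd1 hd2 using fun i => F2 N (v i) (hv' i)
  have sb : ∀ i, ‖dP N (v i) - dP N (v (b i))‖ ≤ 2 * (M : ℝ) := fun i => by
    have a1 := F3 N _ _ (hv' (b i)) (hv' i)
    have a2 : ((|off N (v (b i)) (v i)| : ℤ) : ℝ) ≤ M := by exact_mod_cast hb1 i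
    linarith
  have hMr : (1 : ℝ) ≤ M := by exact_mod_cast hM1
  have p0 : Shr (fun i => dP N (v i)) (fun i => u * dP N (v i)) := by
    have := Shr.rotate (fun _ : ι => ()) (fun _ => 0) (fun _ => u) (fun i => dP N (v i))
      (∑ i, ‖dP N (v i)‖) (fun _ => u1) (fun i => Finset.single_le_sum
        (f := fun i => ‖dP N (v i)‖) (fun _ _ => norm_nonneg _) (Finset.mem_univ i))
      (fun i j h => absurd rfl h)
    simpa using this
  have p1 := Shr.rotate b (fun a => u * dP N (v a)) (fun a => d a / u)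
    (fun i => u * (dP N (v i) - dP N (v (b i)))) (2 * M) (fun a => by simp [hd1, u1])
    (fun i => by simpa [u1] using sb i) (fun i j h => by
      have a1 := far j i h.symm
      have a2 := abs_re_le_norm (u * dP N (v (b i)) - u * dP N (v (b j)))
      rw [sub_re] at a2
      linarith)
  have e1 : (fun i => u * dP N (v (b i)) + u * (dP N (v i) - dP N (v (b i)))) =
      fun i => u * dP N (v i) := by ext i; ring
  rw [e1] at p1
  let a : ι → ℝ := fun c => (u * dP N (v c)).re
  let σ : ι → ℤ := fun c => 3 * ⌊a c / 12⌋ + (v c : ℤ) % 3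
  let ρ : ι → ℤ := fun i => σ (b i) + off N (v (b i)) (v i)
  have hσ : ∀ c, a c / 4 - 3 ≤ σ c ∧ (σ c : ℝ) ≤ a c / 4 + 2 := fun c => by
    have a1 := Int.floor_le (a c / 12)
    have a2 := Int.lt_floor_add_one (a c / 12)
    have a3 : (0 : ℝ) ≤ ((v c : ℤ) % 3 : ℤ) := by exact_mod_cast (by omega)
    have a4 : (((v c : ℤ) % 3 : ℤ) : ℝ) ≤ 2 := by exact_mod_cast (by omega)
    simp only [σ, Int.cast_add, Int.cast_mul, Int.cast_ofNat]
    constructor <;> linarith
  have hre : ∀ i, (u * dP N (v (b i)) / 2 + d (b i) / u * (u * (dP N (v i) - dP N (v (b i))))).re =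
      a (b i) / 2 + off N (v (b i)) (v i) := fun i => by
    rw [← mul_assoc, div_mul_cancel₀ _ u0, add_re, hd2 _ _ (hv' i) (by have := hb1 i; omega)]
    simp [a]
  have p2 := Shr.linear
    (fun i => u * dP N (v (b i)) / 2 + d (b i) / u * (u * (dP N (v i) - dP N (v (b i)))))
    (fun i => (ρ i : ℝ)) (fun i j => by
      simp only [hre, ρ, Int.cast_add]
      by_cases h : b i = b j
      · rw [h]; simp
      have a1 := far i j h
      have o : ∀ i, -(M : ℝ) ≤ off N (v (b i)) (v i) ∧ (off N (v (b i)) (v i) : ℝ) ≤ M := fun i => by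
        have := abs_le.1 (hb1 i)
        exact ⟨by exact_mod_cast this.1, by exact_mod_cast this.2⟩
      have a2 := hσ (b i)
      have a3 := hσ (b j)
      have a4 := o i
      have a5 := o j
      rcases le_abs.1 a1 with a6 | a6
      · exact mul_nonneg_of_nonpos_of_nonpos (by linarith) (by linarith)
      · exact mul_nonneg (by linarith) (by linarith))
  have p3 := roll_int ρ v (fun i => by
    have : N = 3 * (K : ℤ) ^ (S + 1) := by rw [hN]; push_cast; ring
    simp only [ρ, σ, off]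
    split_ifs <;> omega)
  exact ((p0.trans p1).trans p2).trans p3

end Pool.Agent.H17.Shrink
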