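import Pool.Agent.H17.TE6

set_option autoImplicit false
open Set Topology Filter TopologicalSpace

namespace Pool.Agent.H17.SigSp
open Pool.Agent.H17.TE

theorem subpara {Z D : Type} [TopologicalSpace Z] [Countable D] [Nonempty D] {ι : D → Type}
    (N : ∀ d, ι d → Set Z) (hl : ∀ d, LocallyFinite (N d)) (hc : ∀ d i, IsClosed (N d i))
    (hn : ∀ (z : Z) (U : Set Z), IsOpen U → z ∈ U → ∃ d i, z ∈ N d i ∧ N d i ⊆ U)
    (𝒰 : Set (Set Z)) (hU : ∀ U ∈ 𝒰, IsOpen U) (hcov : ⋃₀ 𝒰 = univ) :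
    ∃ 𝓕 : ℕ → Set (Set Z), (∀ n, ∀ F ∈ 𝓕 n, IsClosed F ∧ ∃ U ∈ 𝒰, F ⊆ U) ∧
      (∀ n z, ∃ V ∈ 𝓝 z, {F | F ∈ 𝓕 n ∧ (F ∩ V).Nonempty}.Subsingleton) ∧
      ∀ z, ∃ n, ∃ F ∈ 𝓕 n, z ∈ F := by
  classical
  let H : Set Z → D → Set Z := fun G d => ⋃ i : {i // N d i ⊆ G}, N d i.1
  have hH : ∀ G d, IsClosed (H G d) := fun G d =>
    ((hl d).comp_injective Subtype.val_injective).isClosed_iUnion fun i => hc d i.1
  have hHG : ∀ G d, H G d ⊆ G := fun G d => iUnion_subset fun i => i.2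
  let O : D → ℕ → Set Z := fun d k => {z | {i | z ∈ N d i}.ncard ≤ k}
  have hO : ∀ d k, IsOpen (O d k) := fun d k => isOpen_iff_mem_nhds.2 fun z hz => by
    filter_upwards [(hl d).eventually_subset (hc d) z] with y hy
    exact (ncard_le_ncard hy ((hl d).point_finite z)).trans hz
  obtain ⟨e, he⟩ := exists_surjective_nat (D × ℕ × D)
  refine ⟨fun n => {F | ∃ s : Set (ι (e n).1), s.Finite ∧ s.ncard = (e n).2.1 ∧
    (∃ U ∈ 𝒰, (⋂ i ∈ s, N _ i) ⊆ U) ∧ F = (⋂ i ∈ s, N _ i) ∩ H (O (e n).1 (e n).2.1) (e n).2.2},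
    ?_, ?_, ?_⟩
  · rintro n _ ⟨s, -, -, ⟨U, h1, h2⟩, rfl⟩
    exact ⟨(isClosed_biInter fun i _ => hc _ i).inter (hH _ _), U, h1,
      inter_subset_left.trans h2⟩
  · intro n z
    by_cases hz : z ∈ H (O (e n).1 (e n).2.1) (e n).2.2
    · refine ⟨_, (hl (e n).1).eventually_subset (hc _) z, ?_⟩
      have key : ∀ s : Set (ι (e n).1), s.ncard = (e n).2.1 → ∀ y, y ∈ ⋂ i ∈ s, N _ i →
          {i | y ∈ N (e n).1 i} ⊆ {i | z ∈ N (e n).1 i} → s = {i | z ∈ N (e n).1 i} := by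
        intro s hs y hy hsub
        refine eq_of_subset_of_ncard_le (fun i hi => hsub (mem_iInter₂.1 hy i hi)) ?_
          ((hl _).point_finite z)
        rw [hs]; exact hHG _ _ hz
      rintro _ ⟨⟨s, -, h1, -, rfl⟩, y, hy, hy'⟩ _ ⟨⟨s', -, h1', -, rfl⟩, w, hw, hw'⟩
      rw [key s h1 y hy.1 hy', key s' h1' w hw.1 hw']
    · refine ⟨_, (hH _ _).isOpen_compl.mem_nhds hz, ?_⟩
      rintro _ ⟨⟨s, -, h1, -, rfl⟩, y, hy, hy'⟩
      exact absurd hy.2 hy'
  · intro z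
    obtain ⟨U, hU1, hU2⟩ := mem_sUnion.1 (hcov ▸ mem_univ z)
    obtain ⟨d, i, h1, h2⟩ := hn z U (hU U hU1) hU2
    obtain ⟨d', j, k1, k2⟩ := hn z (O d {i | z ∈ N d i}.ncard) (hO _ _) (le_refl {i | z ∈ N d i}.ncard)
    obtain ⟨n, hn⟩ := he (d, {i | z ∈ N d i}.ncard, d')
    refine ⟨n, (⋂ i ∈ {i | z ∈ N d i}, N d i) ∩ H (O d {i | z ∈ N d i}.ncard) d', ?_,
      mem_iInter₂.2 fun i hi => hi, mem_iUnion.2 ⟨⟨j, k2⟩, k1⟩⟩
    simp only [mem_ofPred_eq]
    rw [hn]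
    exact ⟨_, (hl d).point_finite z, rfl, ⟨U, hU1, (biInter_subset_of_mem
      (show i ∈ {i | z ∈ N d i} from h1)).trans h2⟩, rfl⟩

variable {I : Type}

/-- functions determined up to `ε` by the coordinates in `A` -/
def C (A : Set I) (ε : ℝ) : Set (Cp (I → Bool)) :=
  {f | ∀ x y, (∀ a ∈ A, x a = y a) → |f.1 x - f.1 y| ≤ ε}

theorem C_closed (A : Set I) (ε : ℝ) : IsClosed (C A ε) := by
  have : C A ε = ⋂ x, ⋂ y, ⋂ _ : ∀ a ∈ A, x a = y a,
      {f : Cp (I → Bool) | |f.1 x - f.1 y| ≤ ε} := by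
    ext f; simp only [C, mem_ofPred_eq, mem_iInter]
  rw [this]
  exact isClosed_iInter fun x => isClosed_iInter fun y => isClosed_iInter fun _ =>
    isClosed_le ((ev x).sub (ev y)).abs continuous_const

theorem C_ex (f : Cp (I → Bool)) {ε : ℝ} (hε : 0 < ε) : ∃ A : Finset I, f ∈ C A ε := by
  have hK : IsCompact {p : (I → Bool) × (I → Bool) | ε ≤ |f.1 p.1 - f.1 p.2|} :=
    (isClosed_le continuous_const
      ((f.2.comp continuous_fst).sub (f.2.comp continuous_snd)).abs).isCompact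
  obtain ⟨A, hA⟩ := hK.elim_finite_subcover (fun a : I => {p | p.1 a ≠ p.2 a})
    (fun a => isOpen_ne_fun ((continuous_apply a).comp continuous_fst)
      ((continuous_apply a).comp continuous_snd)) (by
      intro p hp
      by_contra h
      simp only [mem_iUnion, mem_ofPred_eq, not_exists, not_not] at h
      have : p.1 = p.2 := funext h
      simp only [mem_ofPred_eq, this, sub_self, abs_zero] at hp
      linarith)
  refine ⟨A, fun x y h => ?_⟩
  by_contra hn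
  obtain ⟨a, ha, hne⟩ := mem_iUnion₂.1 (hA (show (x, y) ∈ _ from (not_le.1 hn).le))
  exact hne (h a ha)

abbrev DD : Type := Σ n : ℕ, (Fin n → ℕ × ℕ) × ℚ × ℚ × Finset (ℕ × ℚ)

theorem net (u : ℕ → I → Bool) (hu : ∀ (E : Finset I) (x : I → Bool), ∃ n, ∀ a ∈ E, u n a = x a) :
    ∃ (ι : DD → Type) (N : ∀ d, ι d → Set (Cp (I → Bool))), (∀ d, LocallyFinite (N d)) ∧
      (∀ d i, IsClosed (N d i)) ∧
      ∀ (f : Cp (I → Bool)) (U : Set (Cp (I → Bool))), IsOpen U → f ∈ U →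
        ∃ d i, f ∈ N d i ∧ N d i ⊆ U := by
  classical
  let F : DD → Set (Cp (I → Bool)) := fun d => {f | (0 : ℝ) < d.2.2.2.1 ∧
    (∀ i, (d.2.2.1 : ℝ) + d.2.2.2.1 ≤ |f.1 (u (d.2.1 i).1) - f.1 (u (d.2.1 i).2)|) ∧
    ∀ p ∈ d.2.2.2.2, |f.1 (u p.1) - p.2| ≤ d.2.2.1}
  have hF : ∀ d, IsClosed (F d) := by
    intro d
    have : F d = {_f | (0 : ℝ) < d.2.2.2.1} ∩ ((⋂ i, {f : Cp (I → Bool) | (d.2.2.1 : ℝ) + d.2.2.2.1 ≤
        |f.1 (u (d.2.1 i).1) - f.1 (u (d.2.1 i).2)|}) ∩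
        ⋂ p ∈ d.2.2.2.2, {f : Cp (I → Bool) | |f.1 (u p.1) - (p.2 : ℝ)| ≤ (d.2.2.1 : ℝ)}) := by
      ext f; simp only [F, mem_ofPred_eq, mem_iInter, mem_inter_iff]
    rw [this]
    exact isClosed_const.inter ((isClosed_iInter fun i =>
      isClosed_le continuous_const ((ev _).sub (ev _)).abs).inter
      (isClosed_biInter fun p _ => isClosed_le ((ev _).sub continuous_const).abs continuous_const))
  refine ⟨fun d => {a : Fin d.1 → I // ∀ i j, j ≠ i → u (d.2.1 i).1 (a j) = u (d.2.1 i).2 (a j)},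
    fun d a => F d ∩ C (range a.1) d.2.2.1, ?_, fun d a => (hF d).inter (C_closed _ _), ?_⟩
  · rintro ⟨n, w, ε, η, Q⟩ h
    by_cases hh : h ∈ F ⟨n, w, ε, η, Q⟩
    · obtain ⟨hη, h1, -⟩ := hh
      simp only at hη h1
      obtain ⟨E, hE⟩ := C_ex h (half_pos hη)
      let z : Fin n → I → Bool := fun i a => if a ∈ E then u (w i).2 a else u (w i).1 a
      refine ⟨⋂ i, {f | (ε : ℝ) < |f.1 (u (w i).1) - f.1 (z i)|},
        (isOpen_iInter_of_finite fun i => isOpen_lt continuous_const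
          ((ev _).sub (ev _)).abs).mem_nhds (mem_iInter.2 fun i => ?_), ?_⟩
      · have a := hE (z i) (u (w i).2) fun a ha => by simp only [z, if_pos (Finset.mem_coe.1 ha)]
        have b := abs_sub_le (h.1 (u (w i).1)) (h.1 (z i)) (h.1 (u (w i).2))
        have c := h1 i
        show (ε : ℝ) < |h.1 (u (w i).1) - h.1 (z i)|
        linarith
      · refine ((Finite.pi' (t := fun _ : Fin n => (E : Set I)) fun _ => E.finite_toSet).preimage
          Subtype.val_injective.injOn).subset ?_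
        rintro a ⟨f, ⟨-, hf⟩, hf'⟩ i
        by_contra hn
        refine absurd (hf (u (w i).1) (z i) ?_) (not_le.2 (mem_iInter.1 hf' i))
        rintro _ ⟨j, rfl⟩
        simp only [z]
        split_ifs with hj
        · exact a.2 i j fun e => hn (e ▸ hj)
        · rfl
    · exact ⟨_, (hF _).isOpen_compl.mem_nhds hh, finite_empty.subset fun a ⟨f, h1, h2⟩ => h2 h1.1⟩
  · intro f U hU hf
    obtain ⟨m, k, p, hp⟩ := nbhd hU hf
    obtain ⟨ε, hε0, hε⟩ := exists_rat_btwn (show (0 : ℝ) < 1 / (k + 1) / 4 by positivity)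
    have hex : ∃ n, ∃ A : Finset I, A.card = n ∧ f ∈ C A ε := by
      obtain ⟨A, hA⟩ := C_ex f hε0
      exact ⟨_, A, rfl, hA⟩
    obtain ⟨A, hAn, hA⟩ := Nat.find_spec hex
    let a : Fin A.card → I := fun i => (A.equivFin.symm i).1
    have ha : Function.Injective a := Subtype.val_injective.comp A.equivFin.symm.injective
    have hr : range a = A := by
      ext b
      exact ⟨fun ⟨i, hi⟩ => hi ▸ (A.equivFin.symm i).2,
        fun hb => ⟨A.equivFin ⟨b, hb⟩, by simp [a]⟩⟩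
    have h1 : ∀ i, ∃ x y : I → Bool, (∀ j, j ≠ i → x (a j) = y (a j)) ∧
        (ε : ℝ) < |f.1 x - f.1 y| := by
      intro i
      by_contra hn
      push Not at hn
      refine Nat.find_min hex (m := (A.erase (a i)).card) ?_ ⟨_, rfl, fun x y h => hn x y ?_⟩
      · rw [← hAn]; exact Finset.card_erase_lt_of_mem (A.equivFin.symm i).2
      · intro j hj
        exact h _ (Finset.mem_coe.2 (Finset.mem_erase.2
          ⟨fun e => hj (ha e), (A.equivFin.symm j).2⟩))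
    choose x y hxy hlt using h1
    obtain ⟨η, hη0, hη⟩ : ∃ η : ℚ, (0 : ℝ) < η ∧ ∀ i, (ε : ℝ) + 3 * η ≤ |f.1 (x i) - f.1 (y i)| := by
      have : ∀ᶠ t in 𝓝[>] (0 : ℝ), ∀ i, (ε : ℝ) + 3 * t ≤ |f.1 (x i) - f.1 (y i)| := by
        refine eventually_all.2 fun i => mem_nhdsWithin_of_mem_nhds ?_
        have hc : Continuous fun t : ℝ => (ε : ℝ) + 3 * t := by fun_prop
        exact mem_of_superset ((isOpen_lt hc continuous_const).mem_nhds
          (by simpa using hlt i)) fun t ht => show (ε : ℝ) + 3 * t ≤ _ from le_of_lt ht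
      obtain ⟨t, ht, ht0⟩ := (this.and self_mem_nhdsWithin).exists
      obtain ⟨η, h1, h2⟩ := exists_rat_btwn (show (0 : ℝ) < t from ht0)
      exact ⟨η, h1, fun i => by linarith [ht i]⟩
    obtain ⟨E, hE⟩ := C_ex f hη0
    choose v hv using hu (A ∪ E)
    choose q hq using fun l : Fin m => exists_rat_near (f.1 (u (v (p l)))) hε0
    have hvA : ∀ t, ∀ b ∈ range a, u (v t) b = t b := fun t b hb =>
      hv t b (Finset.mem_union_left _ (Finset.mem_coe.1 (hr ▸ hb)))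
    have hvE : ∀ t, |f.1 (u (v t)) - f.1 t| ≤ η := fun t =>
      hE _ _ fun b hb => hv t b (Finset.mem_union_right _ hb)
    refine ⟨⟨A.card, fun i => (v (x i), v (y i)), ε, η, Finset.univ.image fun l => (v (p l), q l)⟩,
      ⟨a, fun i j hj => by
        simp only
        rw [hvA _ _ ⟨j, rfl⟩, hvA _ _ ⟨j, rfl⟩, hxy i j hj]⟩,
      ⟨⟨hη0, fun i => ?_, fun r hr => ?_⟩, by simp only; rw [hr]; exact hA⟩, ?_⟩
    · simp only
      have a1 := abs_le.1 (hvE (x i))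
      have a2 := abs_le.1 (hvE (y i))
      have a3 := hη i
      have a4 := abs_sub_abs_le_abs_sub (f.1 (x i) - f.1 (y i))
        (f.1 (u (v (x i))) - f.1 (u (v (y i))))
      have a5 : |f.1 (x i) - f.1 (y i) - (f.1 (u (v (x i))) - f.1 (u (v (y i))))| ≤ 2 * η :=
        abs_le.2 ⟨by linarith, by linarith⟩
      linarith
    · obtain ⟨l, -, rfl⟩ := Finset.mem_image.1 hr
      exact (hq l).le
    · rintro g ⟨⟨-, -, h3⟩, h4⟩
      refine hp g fun l => ?_
      have a1 := abs_le.1 (h3 _ (Finset.mem_image_of_mem _ (Finset.mem_univ l)))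
      have a2 := abs_le.1 (h4 _ _ (hvA (p l)))
      have a3 := abs_lt.1 (hq l)
      have a4 := abs_le.1 (hA _ _ (hr ▸ hvA (p l)))
      simp only at a1 a2
      exact abs_lt.2 ⟨by linarith, by linarith⟩

theorem dense_seq (c : I → ℕ → Bool) (hc : Function.Injective c) :
    ∃ u : ℕ → I → Bool, ∀ (E : Finset I) (x : I → Bool), ∃ n, ∀ a ∈ E, u n a = x a := by
  classical
  obtain ⟨e, he⟩ := exists_surjective_nat (Σ m : ℕ, (Fin m → Bool) → Bool)
  refine ⟨fun n a => (e n).2 fun i => c a i, fun E x => ?_⟩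
  have : ∀ᶠ m in atTop, ∀ a ∈ E, ∀ b ∈ E, (∀ i < m, c a i = c b i) → a = b := by
    refine (eventually_all_finset E).2 fun a _ => (eventually_all_finset E).2 fun b _ => ?_
    by_cases h : a = b
    · exact Eventually.of_forall fun _ _ => h
    · obtain ⟨i, hi⟩ := Function.ne_iff.1 (hc.ne h)
      filter_upwards [eventually_gt_atTop i] with m hm h' using absurd (h' i hm) hi
  obtain ⟨m, hm⟩ := this.exists
  obtain ⟨n, hn⟩ := he ⟨m, fun s => decide (∃ b ∈ E, (fun i : Fin m => c b i) = s ∧ x b = true)⟩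
  refine ⟨n, fun a ha => ?_⟩
  simp only
  rw [hn]
  cases h : x a
  · refine decide_eq_false ?_
    rintro ⟨b, hb, h1, h2⟩
    rw [hm b hb a ha fun i hi => congrFun h1 ⟨i, hi⟩, h] at h2
    cases h2
  · exact decide_eq_true ⟨a, ha, rfl, h⟩

end Pool.Agent.H17.SigSp
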