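import Mathlib

set_option autoImplicit false
open Set Topology Filter

namespace Pool.Agent.H17.TE

abbrev Cp (X : Type) [TopologicalSpace X] := {f : X → ℝ // Continuous f}

theorem ev {X : Type} [TopologicalSpace X] (z : X) : Continuous fun f : Cp X => f.1 z :=
  (continuous_apply z).comp continuous_subtype_val

section usco
variable {T Y : Type} [TopologicalSpace T] [TopologicalSpace Y]

/-- minimal upper semicontinuous relation over `U` -/
def Mn (Z : Set (T × Y)) (U : Set T) : Prop :=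
  (∀ t ∈ U, ∃ y, (t, y) ∈ Z) ∧ ∀ V W, IsOpen V → IsOpen W → V ⊆ U →
    (∃ t ∈ V, ∃ y ∈ W, (t, y) ∈ Z) →
    ∃ V', IsOpen V' ∧ V'.Nonempty ∧ V' ⊆ V ∧ ∀ t ∈ V', ∀ y, (t, y) ∈ Z → y ∈ W

theorem Mn.mono {Z : Set (T × Y)} {U U' : Set T} (h : Mn Z U) (hU : U' ⊆ U) : Mn Z U' :=
  ⟨fun t ht => h.1 t (hU ht), fun V W hV hW hVU => h.2 V W hV hW (hVU.trans hU)⟩

theorem usc [CompactSpace Y] {Z : Set (T × Y)} (hZ : IsClosed Z) {W : Set Y} (hW : IsOpen W) :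
    IsOpen {t | ∀ y, (t, y) ∈ Z → y ∈ W} := by
  have h := isClosedMap_fst_of_compactSpace (Z ∩ Prod.snd ⁻¹' Wᶜ)
    (hZ.inter (hW.isClosed_compl.preimage continuous_snd))
  have e : {t | ∀ y, (t, y) ∈ Z → y ∈ W} = (Prod.fst '' (Z ∩ Prod.snd ⁻¹' Wᶜ))ᶜ := by
    ext t
    constructor
    · rintro ht ⟨⟨t', y⟩, ⟨h1, h2⟩, rfl⟩
      exact h2 (ht y h1)
    · intro ht y hy
      by_contra hc
      exact ht ⟨(t, y), ⟨hy, hc⟩, rfl⟩
  rw [e]; exact h.isOpen_compl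

theorem exMn [CompactSpace Y] {Z0 : Set (T × Y)} (hZ : IsClosed Z0) {U : Set T}
    (hU : ∀ t ∈ U, ∃ y, (t, y) ∈ Z0) : ∃ Z ⊆ Z0, IsClosed Z ∧ Mn Z U := by
  obtain ⟨Z, hZ0, hm⟩ := zorn_superset_nonempty
    {Z : Set (T × Y) | IsClosed Z ∧ ∀ t ∈ U, ∃ y, (t, y) ∈ Z} (by
      intro c hc hch hne
      refine ⟨⋂₀ c, ⟨isClosed_sInter fun s hs => (hc hs).1, fun t ht => ?_⟩,
        fun s hs => sInter_subset_of_mem hs⟩
      have : Nonempty c := hne.to_subtype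
      have hcl : ∀ s : c, IsClosed {y | (t, y) ∈ s.1} := fun s =>
        (hc s.2).1.preimage (Continuous.prodMk_right t)
      obtain ⟨y, hy⟩ := IsCompact.nonempty_iInter_of_directed_nonempty_isCompact_isClosed
        (fun s : c => {y | (t, y) ∈ s.1}) (by
          intro a b
          rcases hch.total a.2 b.2 with h | h
          · exact ⟨a, subset_rfl, fun y hy => h hy⟩
          · exact ⟨b, fun y hy => h hy, subset_rfl⟩)
        (fun s => (hc s.2).2 t ht) (fun s => (hcl s).isCompact) hcl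
      exact ⟨y, fun s hs => mem_iInter.1 hy ⟨s, hs⟩⟩) Z0 ⟨hZ, hU⟩
  refine ⟨Z, hZ0, hm.prop.1, hm.prop.2, ?_⟩
  rintro V W hV hW hVU ⟨t, ht, y, hy, hty⟩
  by_contra hcon
  have h1 : Z \ V ×ˢ W ∈ {Z : Set (T × Y) | IsClosed Z ∧ ∀ t ∈ U, ∃ y, (t, y) ∈ Z} := by
    refine ⟨hm.prop.1.sdiff (hV.prod hW), fun s hs => ?_⟩
    by_contra hn
    push Not at hn
    obtain ⟨y0, hy0⟩ := hm.prop.2 s hs
    have hall : ∀ y, (s, y) ∈ Z → (s, y) ∈ V ×ˢ W := fun y hy => by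
      by_contra h; exact hn y ⟨hy, h⟩
    exact hcon ⟨V ∩ {t | ∀ y, (t, y) ∈ Z → y ∈ W}, hV.inter (usc hm.prop.1 hW),
      ⟨s, (hall y0 hy0).1, fun y hy => (hall y hy).2⟩, inter_subset_left, fun t ht => ht.2⟩
  have h2 := hm.le_of_le h1 sdiff_subset
  exact (h2 hty).2 ⟨ht, hy⟩

theorem shrink {ι : Type} [Finite ι] (A : ι → Set T → Prop)
    (her : ∀ i V V', A i V → IsOpen V' → V' ⊆ V → A i V') {U : Set T} (hU : IsOpen U)
    (hne : U.Nonempty)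
    (den : ∀ i V, IsOpen V → V.Nonempty → V ⊆ U →
      ∃ V', IsOpen V' ∧ V'.Nonempty ∧ V' ⊆ V ∧ A i V') :
    ∃ V, IsOpen V ∧ V.Nonempty ∧ V ⊆ U ∧ ∀ i, A i V := by
  classical
  have := Fintype.ofFinite ι
  have : ∀ s : Finset ι, ∃ V, IsOpen V ∧ V.Nonempty ∧ V ⊆ U ∧ ∀ i ∈ s, A i V := by
    intro s
    induction s using Finset.induction_on with
    | empty => exact ⟨U, hU, hne, subset_rfl, by simp⟩
    | insert a s _ ih =>
      obtain ⟨V, h1, h2, h3, h4⟩ := ih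
      obtain ⟨V', k1, k2, k3, k4⟩ := den a V h1 h2 h3
      refine ⟨V', k1, k2, k3.trans h3, fun i hi => ?_⟩
      rcases Finset.mem_insert.1 hi with rfl | hi
      · exact k4
      · exact her i V V' (h4 i hi) k1 k3
  obtain ⟨V, h1, h2, h3, h4⟩ := this Finset.univ
  exact ⟨V, h1, h2, h3, fun i => h4 i (Finset.mem_univ _)⟩

end usco

section cert
variable {T X : Type} [TopologicalSpace T] [TopologicalSpace X]

def Cert (Φ : Cp X → T → ℝ) (r ε : ℝ) (g : Cp X) {n : ℕ} (t : T) (x : Fin n → X) : Prop :=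
  ∀ f : Cp X, (∀ i, |f.1 (x i) - g.1 (x i)| < ε) → Φ f t ≤ r

theorem near_open {n : ℕ} (f g : Cp X) (ε : ℝ) (J : Set (Fin n)) :
    IsOpen {x : Fin n → X | ∀ i ∈ J, |f.1 (x i) - g.1 (x i)| < ε} := by
  have e : {x : Fin n → X | ∀ i ∈ J, |f.1 (x i) - g.1 (x i)| < ε} =
      ⋂ i ∈ J, {x : Fin n → X | |f.1 (x i) - g.1 (x i)| < ε} := by
    ext x; simp
  rw [e]
  refine (toFinite J).isOpen_biInter fun i _ => isOpen_lt ?_ continuous_const
  exact ((f.2.comp (continuous_apply i)).sub (g.2.comp (continuous_apply i))).abs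

theorem cert_closed {Φ : Cp X → T → ℝ} (h2 : ∀ f, Continuous (Φ f)) (r ε : ℝ) (g : Cp X)
    (n : ℕ) : IsClosed {p : T × (Fin n → X) | Cert Φ r ε g p.1 p.2} := by
  have e : {p : T × (Fin n → X) | Cert Φ r ε g p.1 p.2} = ⋂ f : Cp X,
      ((Prod.snd ⁻¹' {x : Fin n → X | ∀ i ∈ (univ : Set (Fin n)),
        |f.1 (x i) - g.1 (x i)| < ε})ᶜ ∪ {p | Φ f p.1 ≤ r}) := by
    ext p
    simp only [Cert, mem_iInter, mem_union, mem_compl_iff, mem_preimage, mem_ofPred_eq, mem_univ,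
      forall_const]
    exact forall_congr' fun f => imp_iff_not_or
  rw [e]
  exact isClosed_iInter fun f =>
    (((near_open f g ε _).preimage continuous_snd).isClosed_compl).union
      (isClosed_le ((h2 f).comp continuous_fst) continuous_const)

theorem nbhd {O : Set (Cp X)} (hO : IsOpen O) {g : Cp X} (hg : g ∈ O) :
    ∃ n k : ℕ, ∃ x : Fin n → X, ∀ f : Cp X,
      (∀ i, |f.1 (x i) - g.1 (x i)| < 1 / (k + 1)) → f ∈ O := by
  obtain ⟨V, hV, rfl⟩ := isOpen_induced_iff.1 hO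
  obtain ⟨I, u, hu, hI⟩ := isOpen_pi_iff.1 hV g.1 hg
  have : ∀ᶠ k : ℕ in atTop, ∀ a ∈ I, Metric.ball (g.1 a) (1 / (k + 1)) ⊆ u a := by
    refine (Filter.eventually_all_finset I).2 fun a ha => ?_
    obtain ⟨δ, hδ, hb⟩ := Metric.isOpen_iff.1 (hu a ha).1 _ (hu a ha).2
    filter_upwards [(tendsto_one_div_add_atTop_nhds_zero_nat (𝕜 := ℝ)).eventually
      (gt_mem_nhds hδ)] with k hk
    exact (Metric.ball_subset_ball hk.le).trans hb
  obtain ⟨k, hk⟩ := this.exists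
  refine ⟨I.card, k, fun i => (I.equivFin.symm i).1, fun f hf => hI fun a ha => hk a ha ?_⟩
  have := hf (I.equivFin ⟨a, ha⟩)
  simpa [Real.dist_eq] using this

theorem baire [CompactSpace X] [BaireSpace T] {Φ : Cp X → T → ℝ}
    (h1 : ∀ t, Continuous fun f => Φ f t) (h2 : ∀ f, Continuous (Φ f)) {r : ℝ} {g : Cp X}
    {U : Set T} (hU : IsOpen U) (hne : U.Nonempty) (hg : ∀ t ∈ U, Φ g t < r) :
    ∃ n k : ℕ, ∃ V, IsOpen V ∧ V.Nonempty ∧ V ⊆ U ∧
      ∀ t ∈ V, ∃ x : Fin n → X, Cert Φ r (1 / (k + 1)) g t x := by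
  let E : ℕ × ℕ → Set T := fun q =>
    Prod.fst '' {p : T × (Fin q.1 → X) | Cert Φ r (1 / (q.2 + 1)) g p.1 p.2} ∪ Uᶜ
  have hE : ∀ q, IsClosed (E q) := fun q =>
    (isClosedMap_fst_of_compactSpace _ (cert_closed h2 _ _ _ _)).union hU.isClosed_compl
  have hc : ⋃ q, E q = univ := by
    refine eq_univ_of_forall fun t => ?_
    by_cases ht : t ∈ U
    · obtain ⟨n, k, x, hx⟩ := nbhd (O := {f | Φ f t < r}) (isOpen_lt (h1 t) continuous_const)
        (hg t ht)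
      exact mem_iUnion.2 ⟨(n, k), Or.inl ⟨(t, x), fun f hf => (hx f hf).le, rfl⟩⟩
    · exact mem_iUnion.2 ⟨(0, 0), Or.inr ht⟩
  obtain ⟨t, htU, ht⟩ := (dense_iUnion_interior_of_closed hE hc).inter_open_nonempty U hU hne
  obtain ⟨q, hq⟩ := mem_iUnion.1 ht
  refine ⟨q.1, q.2, U ∩ interior (E q), hU.inter isOpen_interior, ⟨t, htU, hq⟩,
    inter_subset_left, fun s hs => ?_⟩
  rcases interior_subset hs.2 with ⟨⟨s', x⟩, hx, rfl⟩ | h
  · exact ⟨x, hx⟩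
  · exact absurd hs.1 h

end cert

end Pool.Agent.H17.TE
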