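import Mathlib
import Pool.Agent.H17.TE1
import Pool.Agent.H17.W1

set_option autoImplicit false
open Set Topology Filter

namespace Pool.Agent.H17.Spr
open Pool.Agent.H17.TE Pool.Agent.H17.W1

section K
variable {Y : Type} [TopologicalSpace Y]

/-- a compact cover with a countable network -/
def LS (N : ℕ → Set (Cp Y)) : Prop :=
  ∀ h, ∃ K, IsCompact K ∧ h ∈ K ∧ ∀ U, IsOpen U → K ⊆ U → ∃ i, K ⊆ N i ∧ N i ⊆ U

def A (N : ℕ → Set (Cp Y)) (p : ℕ × ℕ) : Set Y := {f | ∀ h ∈ N p.1, |h.1 f| ≤ p.2}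

def F0 (N : ℕ → Set (Cp Y)) (f : Y) : Filter Y := ⨅ (p) (_ : f ∈ A N p), 𝓟 (A N p)

theorem mem_F0 {N : ℕ → Set (Cp Y)} {f : Y} {t : Set Y} (h : t ∈ F0 N f) :
    ∃ L : Finset (ℕ × ℕ), f ∈ ⋂ p ∈ L, A N p ∧ ⋂ p ∈ L, A N p ⊆ t := by
  obtain ⟨I, hI, h1, h2⟩ := mem_biInf_principal.1 h
  refine ⟨hI.toFinset, ?_, ?_⟩
  · simpa using h1
  · simpa using h2

theorem lemK {N : ℕ → Set (Cp Y)} (hN : LS N) {f : Y} (u : Ultrafilter Y) (hu : ↑u ≤ F0 N f)
    {H : Set (Cp Y)} (hH : H.Countable) : ∃ f', ∀ h ∈ H, Tendsto h.1 u (𝓝 (h.1 f')) := by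
  have lim : ∀ h : Cp Y, ∃ c, Tendsto h.1 u (𝓝 c) := by
    intro h
    obtain ⟨K, hK, hh, hU⟩ := hN h
    obtain ⟨M, hM⟩ := hK.bddAbove_image (ev f).abs.continuousOn
    obtain ⟨n, hn⟩ := exists_nat_gt M
    obtain ⟨i, h1, h2⟩ := hU {g | |g.1 f| < n} (isOpen_lt (ev f).abs continuous_const)
      fun g hg => (hM ⟨g, hg, rfl⟩).trans_lt hn
    have h3 : A N (i, n) ∈ u :=
      hu (mem_iInf_of_mem (i, n) (mem_iInf_of_mem (fun g hg => (h2 hg).le) (mem_principal_self _)))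
    obtain ⟨c, -, hc⟩ := (isCompact_Icc (a := -(n : ℝ)) (b := n)).ultrafilter_le_nhds' (u.map h.1)
      (show h.1 ⁻¹' Icc (-(n : ℝ)) n ∈ u from
        mem_of_superset h3 fun g hg => abs_le.1 (hg h (h1 hh)))
    exact ⟨c, hc⟩
  choose c hc using lim
  have := hH.to_subtype
  let _ := TopologicalSpace.metrizableSpaceMetric (H → ℝ)
  let q : Y → H → ℝ := fun g h => h.1.1 g
  have hq : Continuous q := continuous_pi fun h => h.1.2
  have h0 : Tendsto (fun g => dist (q g) fun h => c h) u (𝓝 0) :=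
    tendsto_iff_dist_tendsto_zero.1 (tendsto_pi_nhds.2 fun h => hc h)
  by_contra hn
  have hne : ∀ g, dist (q g) (fun h => c h) ≠ 0 := fun g e => hn ⟨g, fun h hh => by
    have e' : h.1 g = c h := congrFun (dist_eq_zero.1 e) ⟨h, hh⟩
    rw [e']; exact hc h⟩
  have h1 := h0.mul (hc ⟨fun g => (dist (q g) fun h => c h)⁻¹,
    (hq.dist continuous_const).inv₀ hne⟩)
  simp only [mul_inv_cancel₀ (hne _), zero_mul] at h1
  exact one_ne_zero (tendsto_nhds_unique tendsto_const_nhds h1)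

end K

variable {X : Type} [TopologicalSpace X]

def e (x : X) : Cp (Cp X) := ⟨fun f => f.1 x, ev x⟩

theorem bmp [T35Space X] {C : Set X} (hC : IsClosed C) {x : X} (hx : x ∉ C) :
    ∃ f : Cp X, f.1 x = 1 ∧ ∀ z ∈ C, f.1 z = 0 := by
  obtain ⟨f, hf, h0, h1⟩ := CompletelyRegularSpace.completely_regular x C hC hx
  refine ⟨⟨fun z => 1 - f z, by fun_prop⟩, by simp [h0], fun z hz => by simp [h1 hz]⟩

theorem sepcase [T35Space X] {N : ℕ → Set (Cp (Cp X))} (hN : LS N) {S : Set X}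
    (hS : S.Countable) (hd : Dense S) : ∃ 𝒩 : Set (Set X), 𝒩.Countable ∧
      ∀ (x : X) (U : Set X), IsOpen U → x ∈ U → ∃ M ∈ 𝒩, x ∈ M ∧ M ⊆ U := by
  have := hS.to_subtype
  let π : Cp X → S → ℝ := fun g s => g.1 s
  let V : Finset (ℕ × ℕ) × TopologicalSpace.countableBasis (S → ℝ) → Set X := fun p =>
    {z | ∀ g ∈ ⋂ q ∈ p.1, A N q, π g ∈ p.2.1 → 1 / 2 < g.1 z}
  refine ⟨range V, countable_range _, fun x U hU hx => ?_⟩
  obtain ⟨f, h1, h0⟩ := bmp hU.isClosed_compl (not_not.2 hx)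
  by_cases hl : F0 N f ⊓ comap π (𝓝 (π f)) ⊓ 𝓟 {g | g.1 x ≤ 1 / 2} = ⊥
  · obtain ⟨t, ht, t', ht', hi⟩ := mem_inf_iff_superset.1 (inf_principal_eq_bot.1 hl)
    obtain ⟨L, hL1, hL2⟩ := mem_F0 ht
    obtain ⟨O, hO, hO'⟩ := mem_comap.1 ht'
    obtain ⟨B, hB, hB1, hB2⟩ := (TopologicalSpace.isBasis_countableBasis _).mem_nhds_iff.1 hO
    refine ⟨_, ⟨(L, ⟨B, hB⟩), rfl⟩, fun g hg hg' => not_le.1 (hi ⟨hL2 hg, hO' (hB2 hg')⟩),
      fun z hz => ?_⟩
    by_contra hc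
    have := hz f hL1 hB1
    rw [h0 z hc] at this
    linarith
  · have : NeBot _ := ⟨hl⟩
    let u := Ultrafilter.of (F0 N f ⊓ comap π (𝓝 (π f)) ⊓ 𝓟 {g | g.1 x ≤ 1 / 2})
    have hu := le_inf_iff.1 (Ultrafilter.of_le
      (F0 N f ⊓ comap π (𝓝 (π f)) ⊓ 𝓟 {g | g.1 x ≤ 1 / 2}))
    obtain ⟨f', hf'⟩ := lemK hN u (hu.1.trans inf_le_left) ((hS.insert x).image e)
    have e1 : f'.1 = f.1 := Continuous.ext_on hd f'.2 f.2 fun s hs =>
      tendsto_nhds_unique (hf' _ ⟨s, Or.inr hs, rfl⟩)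
        (tendsto_pi_nhds.1 (tendsto_iff_comap.2 (hu.1.trans inf_le_right)) ⟨s, hs⟩)
    have h2 : f'.1 x ≤ 1 / 2 := le_of_tendsto (hf' _ ⟨x, Or.inl rfl, rfl⟩) (le_principal_iff.1 hu.2)
    rw [e1, h1] at h2
    linarith

theorem wit (N : ℕ → Set (Cp (Cp X))) (F : Finset (X × Cp X)) : ∃ D : Set X, D.Countable ∧
    (∀ q ∈ F, q.1 ∈ D) ∧ ∀ i x, e x ∈ N i → ∀ ε > 0, ∃ s ∈ D, e s ∈ N i ∧
      ∀ q ∈ F, |q.2.1 s - q.2.1 x| < ε := by
  have h : ∀ i, ∃ D : Set X, D.Countable ∧ ∀ x, e x ∈ N i → ∀ ε > 0, ∃ s ∈ D, e s ∈ N i ∧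
      ∀ q ∈ F, |q.2.1 s - q.2.1 x| < ε := by
    intro i
    let π : X → F → ℝ := fun z q => q.1.2.1 z
    obtain ⟨t, h1, h2, h3⟩ := (TopologicalSpace.IsSeparable.of_separableSpace
      (π '' {x | e x ∈ N i})).exists_countable_dense_subset
    choose g hg hg' using fun v : t => h1 v.2
    have := h2.to_subtype
    refine ⟨range g, countable_range _, fun x hx ε hε => ?_⟩
    obtain ⟨v, hv, hv'⟩ := Metric.mem_closure_iff.1 (h3 ⟨x, hx, rfl⟩) ε hε
    refine ⟨_, ⟨⟨v, hv⟩, rfl⟩, hg _, fun q hq => ?_⟩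
    have := (dist_le_pi_dist (π x) v ⟨q, hq⟩).trans_lt hv'
    rw [← show π (g ⟨v, hv⟩) = v from hg' _, dist_comm] at this
    exact this
  choose D hD hD' using h
  refine ⟨(⋃ i, D i) ∪ Prod.fst '' F, (countable_iUnion hD).union (F.countable_toSet.image _),
    fun q hq => Or.inr ⟨q, hq, rfl⟩, fun i x hx ε hε => ?_⟩
  obtain ⟨s, h1, h2⟩ := hD' i x hx ε hε
  exact ⟨s, Or.inl (mem_iUnion.2 ⟨i, h1⟩), h2⟩

theorem nonsep [T35Space X] {N : ℕ → Set (Cp (Cp X))} (hN : LS N)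
    (hs : ∀ D : Set X, DiscreteTopology D → D.Countable) : ∃ S : Set X, S.Countable ∧ Dense S := by
  classical
  by_contra hn
  push Not at hn
  choose D hD hD1 hD2 using wit N
  let S : Set (X × Cp X) → Set X := fun Φ => ⋃ F ∈ {F : Finset (X × Cp X) | ↑F ⊆ Φ}, D F
  have hS : ∀ Φ : Set (X × Cp X), Φ.Countable → (S Φ).Countable := fun Φ h =>
    (MapsTo.countable_of_injOn (f := fun F : Finset (X × Cp X) => (F : Set (X × Cp X)))
      (t := {t | t.Finite ∧ t ⊆ Φ}) (fun F hF => ⟨F.finite_toSet, hF⟩)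
      Finset.coe_injective.injOn (countable_ofPred_finite_subset h)).biUnion fun F _ => hD F
  have hG : ∀ Φ : Set (X × Cp X), ∃ q : X × Cp X, Φ.Countable →
      q.2.1 q.1 = 1 ∧ ∀ z ∈ S Φ, q.2.1 z = 0 := by
    intro Φ
    have hx : ∀ T : Set X, T.Countable → ∃ x, x ∉ closure T := fun T hT => by
      by_contra hc
      push Not at hc
      exact hn T hT hc
    by_cases h : Φ.Countable
    · obtain ⟨x, hx⟩ := hx _ (hS Φ h)
      obtain ⟨f, h1, h0⟩ := bmp isClosed_closure hx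
      exact ⟨(x, f), fun _ => ⟨h1, fun z hz => h0 z (subset_closure hz)⟩⟩
    · obtain ⟨x, -⟩ := hx ∅ countable_empty
      exact ⟨(x, ⟨0, continuous_const⟩), fun c => absurd c h⟩
  choose G hG using hG
  let p : W → X × Cp X := wellFounded_lt.fix fun a r => G {q | ∃ b, ∃ h : b < a, r b h = q}
  have hp : ∀ a, p a = G (p '' Iio a) := fun a => by
    have : p a = G {q | ∃ b, ∃ _ : b < a, p b = q} := wellFounded_lt.fix_eq _ a
    rw [this]; congr 1; ext q; simp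
  have hp1 : ∀ a, (p a).2.1 (p a).1 = 1 := fun a => by
    rw [hp a]; exact (hG _ ((cIio a).image p)).1
  have hp0 : ∀ a, ∀ z ∈ S (p '' Iio a), (p a).2.1 z = 0 := fun a => by
    have := (hG _ ((cIio a).image p)).2
    rwa [← hp a] at this
  have hlt : ∀ a b, b < a → (p a).2.1 (p b).1 = 0 := fun a b h => hp0 a _
    (mem_biUnion (x := {p b}) (by simpa using ⟨b, h, rfl⟩) (hD1 _ _ (by simp)))
  have hle : ∀ a b, 1 / 2 < (p a).2.1 (p b).1 → a ≤ b := fun a b h => by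
    by_contra hc
    rw [hlt a b (not_le.1 hc)] at h
    linarith
  let E : Finset (ℕ × ℕ) → W → Set W := fun L b =>
    {a | (p a).2 ∈ ⋂ q ∈ L, A N q ∧ 1 / 2 < (p a).2.1 (p b).1}
  have key : ∀ b, ∃ L, b ∈ E L b ∧ (E L b).Finite := by
    intro b
    by_cases hl : Disjoint (comap (fun a => (p a).2) (F0 N (p b).2) ⊓
      𝓟 {a | 1 / 2 < (p a).2.1 (p b).1}) cofinite
    · obtain ⟨t, ht, ht'⟩ := disjoint_cofinite_right.1 hl
      obtain ⟨t1, ⟨O, hO, hO'⟩, t2, h2, hi⟩ := mem_inf_iff_superset.1 ht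
      obtain ⟨L, hL1, hL2⟩ := mem_F0 hO
      exact ⟨L, ⟨hL1, by rw [hp1]; norm_num⟩,
        ht'.subset fun a ha => hi ⟨hO' (hL2 ha.1), h2 ha.2⟩⟩
    exfalso
    have : NeBot _ := ⟨mt disjoint_iff.2 hl⟩
    obtain ⟨u, hu⟩ := Filter.exists_ultrafilter_le (comap (fun a => (p a).2) (F0 N (p b).2) ⊓
      𝓟 {a | 1 / 2 < (p a).2.1 (p b).1} ⊓ cofinite)
    obtain ⟨⟨u1, u2⟩, u3⟩ := (le_inf_iff.1 hu).imp_left le_inf_iff.1
    have u2' := le_principal_iff.1 u2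
    obtain ⟨b', hb'⟩ := exists_gt b
    obtain ⟨d, hd, hmin⟩ := wellFounded_lt.has_min {d : W | Iio d ∈ u}
      ⟨b', mem_of_superset u2' fun a ha => (hle a b ha).trans_lt hb'⟩
    have hgt : ∀ c < d, ∀ᶠ a in u, c < a := fun c hc => by
      have h1 : (Iio c)ᶜ ∈ u := Ultrafilter.compl_mem_iff_notMem.2 fun h => hmin c h hc
      filter_upwards [h1, u3 (finite_singleton c).compl_mem_cofinite] with a h1 h2
      exact lt_of_le_of_ne (not_lt.1 h1) (Ne.symm h2)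
    obtain ⟨φ, hφ⟩ := ((cIio d).image p).exists_eq_range
      ((u.nonempty_of_mem hd).image p)
    obtain ⟨K, hK, hx, hU⟩ := hN (e (p b).1)
    let T : ℕ → Set (Cp (Cp X)) := fun m => closure (e '' {s | s ∈ S (p '' Iio d) ∧
      ∀ k < m, |(φ k).2.1 s - (φ k).2.1 (p b).1| ≤ 1 / (m + 1)})
    obtain ⟨h, hh⟩ := IsCompact.nonempty_iInter_of_sequence_nonempty_isCompact_isClosed
      (fun m => K ∩ T m) (fun m => inter_subset_inter_right _ (closure_mono (image_mono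
        fun s hs => ⟨hs.1, fun k hk => (hs.2 k (by omega)).trans
          (Nat.one_div_le_one_div (by omega))⟩))) (fun m => by
        by_contra hc
        obtain ⟨i, h1, h2⟩ := hU (T m)ᶜ isClosed_closure.isOpen_compl
          fun z hz hz' => hc ⟨z, hz, hz'⟩
        obtain ⟨s, s1, s2, s3⟩ := hD2 ((Finset.range m).image φ) i _ (h1 hx) _
          (Nat.one_div_pos_of_nat (n := m))
        refine h2 s2 (subset_closure ⟨s, ⟨mem_biUnion (x := (Finset.range m).image φ) ?_ s1,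
          fun k hk => (s3 _ (Finset.mem_image_of_mem φ (Finset.mem_range.2 hk))).le⟩, rfl⟩)
        rw [hφ]
        intro q hq
        obtain ⟨k, -, rfl⟩ := Finset.mem_image.1 hq
        exact ⟨k, rfl⟩)
      (hK.inter_right isClosed_closure) fun m => hK.isClosed.inter isClosed_closure
    have hT : ∀ m, h ∈ T m := fun m => (mem_iInter.1 hh m).2
    have h1 : ∀ a < d, h.1 (p a).2 = (p a).2.1 (p b).1 := by
      intro a ha
      obtain ⟨k, hk⟩ : p a ∈ range φ := hφ ▸ ⟨a, ha, rfl⟩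
      rw [← hk, ← sub_eq_zero, ← abs_nonpos_iff]
      refine ge_of_tendsto (tendsto_one_div_add_atTop_nhds_zero_nat (𝕜 := ℝ)) ?_
      filter_upwards [eventually_gt_atTop k] with m hm
      refine closure_minimal (t := {g : Cp (Cp X) | |g.1 (φ k).2 - (φ k).2.1 (p b).1| ≤
        1 / (m + 1)}) ?_ (isClosed_le ((ev _).sub continuous_const).abs continuous_const) (hT m)
      rintro _ ⟨s, hs, rfl⟩
      exact hs.2 k hm
    obtain ⟨f', hf'⟩ := lemK hN (u.map fun a => (p a).2) (map_le_iff_le_comap.2 u1)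
      (((hS _ ((cIio d).image p)).image e).insert h)
    have h2 : 1 / 2 ≤ h.1 f' := by
      refine ge_of_tendsto (hf' h (Or.inl rfl)) ?_
      show ∀ᶠ a in u, 1 / 2 ≤ h.1 (p a).2
      filter_upwards [hd, u2'] with a a1 a2
      rw [h1 a a1]; exact le_of_lt a2
    have h3 : h.1 f' = 0 := by
      refine closure_minimal (t := {g : Cp (Cp X) | g.1 f' = 0}) ?_
        (isClosed_eq (ev _) continuous_const) (hT 0)
      rintro _ ⟨s, ⟨hs, -⟩, rfl⟩
      refine tendsto_nhds_unique (hf' _ (Or.inr ⟨s, hs, rfl⟩)) (tendsto_const_nhds.congr' ?_)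
      obtain ⟨F, hF, hsF⟩ := mem_iUnion₂.1 hs
      have : ∀ᶠ a in u, ∀ q ∈ F, q ∈ p '' Iio a := (eventually_all_finset F).2 fun q hq => by
        obtain ⟨c, hc, rfl⟩ := hF hq
        exact (hgt c hc).mono fun a ha => ⟨c, ha, rfl⟩
      show ∀ᶠ a in u, 0 = (p a).2.1 s
      exact this.mono fun a ha => (hp0 a s (mem_biUnion (x := F) ha hsF)).symm
    linarith
  let B : Finset (ℕ × ℕ) × ℕ → Set W := fun r =>
    {b | b ∈ E r.1 b ∧ (E r.1 b).Finite ∧ (E r.1 b).ncard = r.2}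
  have hB : ∀ r, (B r).Countable := by
    intro r
    have hinj : Function.Injective fun a => (p a).1 := fun a b h => by
      have h' : (p a).1 = (p b).1 := h
      exact le_antisymm (hle a b (by rw [← h', hp1]; norm_num))
        (hle b a (by rw [h', hp1]; norm_num))
    refine countable_of_injective_of_countable_image hinj.injOn (hs _ ?_)
    refine discreteTopology_subtype_iff'.2 ?_
    rintro _ ⟨b, hb, rfl⟩
    refine ⟨⋂ a ∈ E r.1 b, {z | 1 / 2 < (p a).2.1 z}, hb.2.1.isOpen_biInter fun a _ =>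
      isOpen_lt continuous_const (p a).2.2, ?_⟩
    ext z
    constructor
    · rintro ⟨hz, c, hc, rfl⟩
      have e1 : E r.1 b = E r.1 c := eq_of_subset_of_ncard_le
        (fun a ha => ⟨ha.1, mem_iInter₂.1 hz a ha⟩) (by rw [hb.2.2, hc.2.2]) hc.2.1
      have a1 : b ∈ E r.1 c := e1 ▸ hb.1
      have a2 : c ∈ E r.1 b := e1 ▸ hc.1
      rw [le_antisymm (hle b c a1.2) (hle c b a2.2)]
      rfl
    · rintro rfl
      exact ⟨mem_iInter₂.2 fun a ha => ha.2, b, hb, rfl⟩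
  refine not_countable_univ ((countable_iUnion hB).mono fun b _ => ?_)
  obtain ⟨L, h1, h2⟩ := key b
  exact mem_iUnion.2 ⟨(L, (E L b).ncard), h1, h2, rfl⟩

end Pool.Agent.H17.Spr
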