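import Pool.Agent.H17.TE1

set_option autoImplicit false
open Set Topology Filter

namespace Pool.Agent.H17.TE

variable {T X : Type} [TopologicalSpace T] [TopologicalSpace X]

theorem lift_mn {A B : Type} [TopologicalSpace A] [TopologicalSpace B] [CompactSpace B]
    {Z : Set (T × A)} {Z' : Set (T × (A × B))} {U : Set T} (hU : IsOpen U) (hZ : Mn Z U)
    (hc : IsClosed Z') (hne : ∀ t ∈ U, ∃ q, (t, q) ∈ Z')
    (hs : ∀ t x y, (t, (x, y)) ∈ Z' → (t, x) ∈ Z) {t : T} (ht : t ∈ U) {x : A}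
    (hx : (t, x) ∈ Z) : ∃ y, (t, (x, y)) ∈ Z' := by
  have hP := isClosedMap_fst_of_compactSpace {q : (T × A) × B | (q.1.1, (q.1.2, q.2)) ∈ Z'}
    (hc.preimage (by fun_prop))
  by_contra hn
  have h0 : (t, x) ∈ (Prod.fst '' {q : (T × A) × B | (q.1.1, (q.1.2, q.2)) ∈ Z'})ᶜ := by
    rintro ⟨⟨⟨t', x'⟩, y⟩, h, he⟩
    obtain ⟨rfl, rfl⟩ := Prod.mk.inj he
    exact hn ⟨y, h⟩
  obtain ⟨V, W, hV, hW, htV, hxW, hsub⟩ := isOpen_prod_iff.1 hP.isOpen_compl t x h0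
  obtain ⟨V', -, ⟨s, hs'⟩, h3, h4⟩ := hZ.2 (V ∩ U) W (hV.inter hU) hW inter_subset_right
    ⟨t, ⟨htV, ht⟩, x, hxW, hx⟩
  obtain ⟨⟨x', y'⟩, hq⟩ := hne s (h3 hs').2
  exact hsub (mk_mem_prod (h3 hs').1 (h4 s hs' x' (hs _ _ _ hq))) ⟨((s, x'), y'), hq, rfl⟩

variable [CompactSpace X] [T2Space X] [BaireSpace T]

theorem step {Φ : Cp X → T → ℝ}
    (h1 : ∀ t, Continuous fun f => Φ f t) (h2 : ∀ f, Continuous (Φ f)) {r ε : ℝ} (hε : 0 < ε)
    {g : Cp X} {n : ℕ} {Z : Set (T × (Fin n → X))} (hZc : IsClosed Z) {U : Set T} (hZ : Mn Z U)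
    {k : Fin n} (hk : ∀ V, IsOpen V → V.Nonempty → V ⊆ U →
      ∃ t ∈ V, ∃ x x', (t, x) ∈ Z ∧ (t, x') ∈ Z ∧ x k ≠ x' k)
    {J : Set (Fin n)} {V : Set T} (hV : IsOpen V) (hne : V.Nonempty) (hVU : V ⊆ U) {f : Cp X}
    (hf : ∀ t ∈ V, r < Φ f t)
    (hJ : ∀ t ∈ V, ∀ x, (t, x) ∈ Z → ∀ j ∈ J, |f.1 (x j) - g.1 (x j)| < ε) :
    ∃ V' : Set T, ∃ f' : Cp X, IsOpen V' ∧ V'.Nonempty ∧ V' ⊆ U ∧ (∀ t ∈ V', r < Φ f' t) ∧
      ∀ t ∈ V', ∀ x, (t, x) ∈ Z → ∀ j ∈ insert k J, |f'.1 (x j) - g.1 (x j)| < ε := by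
  obtain ⟨t0, ht0⟩ := hne
  obtain ⟨r', hr1, hr2⟩ := exists_between (hf t0 ht0)
  have h2' : ∀ f, Continuous fun t => -Φ f t := fun f => (h2 f).neg
  obtain ⟨m, kk, V2, hV2, hne2, hs2, hc2⟩ := baire (Φ := fun f t => -Φ f t) (r := -r') (g := f)
    (fun t => (h1 t).neg) h2' (U := V ∩ {t | r' < Φ f t})
    (hV.inter (isOpen_lt continuous_const (h2 f))) ⟨t0, ht0, hr2⟩
    (fun t ht => neg_lt_neg ht.2)
  have hV2V : V2 ⊆ V := hs2.trans inter_subset_left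
  have hV2U : V2 ⊆ U := hV2V.trans hVU
  obtain ⟨Z', hZ'0, hZ'c, hZ'⟩ := exMn (U := V2)
    (Z0 := {p : T × ((Fin n → X) × (Fin m → X)) | (p.1, p.2.1) ∈ Z ∧
      Cert (fun f t => -Φ f t) (-r') (1 / (kk + 1)) f p.1 p.2.2})
    ((hZc.preimage (f := fun p : T × ((Fin n → X) × (Fin m → X)) => (p.1, p.2.1))
      (by fun_prop)).inter
      ((cert_closed h2' (-r') (1 / (kk + 1)) f m).preimage
        (f := fun p : T × ((Fin n → X) × (Fin m → X)) => (p.1, p.2.2)) (by fun_prop)))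
    (fun t ht => by
      obtain ⟨x, hx⟩ := hZ.1 t (hV2U ht)
      obtain ⟨y, hy⟩ := hc2 t ht
      exact ⟨(x, y), hx, hy⟩)
  have lift : ∀ t ∈ V2, ∀ x, (t, x) ∈ Z → ∃ y, (t, (x, y)) ∈ Z' := fun t ht x hx =>
    lift_mn hV2 (hZ.mono hV2U) hZ'c hZ'.1 (fun t x y h => (hZ'0 h).1) ht hx
  obtain ⟨V4, hV4, hne4, hs4, hA⟩ := shrink (ι := Fin m) (fun i (V : Set T) =>
      (∀ t ∈ V, ∀ x y, (t, (x, y)) ∈ Z' → y i = x k) ∨
      (∀ t ∈ V, ∀ x y x', (t, (x, y)) ∈ Z' → (t, x') ∈ Z → y i ≠ x' k))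
    (fun i V V' h _ hs => h.imp (fun h t ht => h t (hs ht)) (fun h t ht => h t (hs ht)))
    hV2 hne2 (by
      intro i V hV hne hs
      by_cases hc : ∀ t ∈ V, ∀ x y, (t, (x, y)) ∈ Z' → y i = x k
      · exact ⟨V, hV, hne, subset_rfl, Or.inl hc⟩
      push Not at hc
      obtain ⟨t, ht, x, y, hxy, hne⟩ := hc
      obtain ⟨W1, W2, hW1, hW2, m1, m2, hd⟩ := t2_separation hne
      obtain ⟨V', k1, k2, k3, k4⟩ := hZ'.2 V {q | q.2 i ∈ W1 ∧ q.1 k ∈ W2} hV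
        ((hW1.preimage (f := fun q : (Fin n → X) × (Fin m → X) => q.2 i) (by fun_prop)).inter
          (hW2.preimage (f := fun q : (Fin n → X) × (Fin m → X) => q.1 k) (by fun_prop))) hs
        ⟨t, ht, (x, y), ⟨m1, m2⟩, hxy⟩
      refine ⟨V', k1, k2, k3, Or.inr fun s hs' a b a' hab ha' he => ?_⟩
      obtain ⟨b', hb'⟩ := lift s (hs (k3 hs')) a' ha'
      have e1 : b i ∈ W1 := (k4 s hs' _ hab).1
      have e2 : a' k ∈ W2 := (k4 s hs' _ hb').2
      exact disjoint_left.1 hd e1 (he ▸ e2))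
  have hV4U : V4 ⊆ U := hs4.trans hV2U
  obtain ⟨t, ht, x, x', hx, hx', hxx⟩ := hk V4 hV4 hne4 hV4U
  obtain ⟨y, hy⟩ := lift t (hs4 ht) x hx
  have hny : x' k ∈ (range y)ᶜ := by
    rintro ⟨i, hi⟩
    rcases hA i with h | h
    · exact hxx ((h t ht x y hy).symm.trans hi)
    · exact h t ht x y x' hy hx' hi
  have hcl : IsClosed (range y) := (finite_range y).isClosed
  obtain ⟨C, hC1, hC2, hC3⟩ := exists_mem_nhds_isClosed_subset (hcl.isOpen_compl.mem_nhds hny)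
  obtain ⟨l, l0, l1, l01⟩ := exists_continuous_zero_one_of_isClosed hcl hC2
    (disjoint_left.2 fun a ha hb => hC3 hb ha)
  let f' : Cp X := ⟨fun p => l p * g.1 p + (1 - l p) * f.1 p,
    (l.continuous.mul g.2).add ((continuous_const.sub l.continuous).mul f.2)⟩
  have hf'1 : ∀ p, |f'.1 p - g.1 p| ≤ |f.1 p - g.1 p| := by
    intro p
    have e : f'.1 p - g.1 p = (1 - l p) * (f.1 p - g.1 p) := by simp only [f']; ring
    rw [e, abs_mul, abs_of_nonneg (sub_nonneg.2 (l01 p).2)]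
    exact mul_le_of_le_one_left (abs_nonneg _) (by linarith [(l01 p).1])
  have hf'2 : r < Φ f' t := by
    have := (hZ'0 hy).2 f' (fun i => by
      have e : l (y i) = 0 := l0 ⟨i, rfl⟩
      simp only [f', e]
      simp only [zero_mul, sub_zero, one_mul, zero_add, sub_self, abs_zero]
      positivity)
    simp only [neg_le_neg_iff] at this
    linarith
  obtain ⟨V6, k1, k2, k3, k4⟩ := hZ.2 (V4 ∩ {t | r < Φ f' t}) {x | x k ∈ interior C}
    (hV4.inter (isOpen_lt continuous_const (h2 f')))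
    (isOpen_interior.preimage (f := fun x : Fin n → X => x k) (continuous_apply k))
    (inter_subset_left.trans hV4U) ⟨t, ⟨ht, hf'2⟩, x', mem_interior_iff_mem_nhds.2 hC1, hx'⟩
  refine ⟨V6, f', k1, k2, (k3.trans inter_subset_left).trans hV4U, fun s hs => (k3 hs).2,
    fun s hs a ha j hj => ?_⟩
  rcases hj with rfl | hj
  · have e : l (a j) = 1 := l1 (interior_subset (k4 s hs a ha))
    simp only [f', e]
    simpa using hε
  · exact (hf'1 _).trans_lt (hJ s (hV2V (hs4 (k3 hs).1)) a ha j hj)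

theorem ccert [Nonempty X] {Φ : Cp X → T → ℝ}
    (h1 : ∀ t, Continuous fun f => Φ f t) (h2 : ∀ f, Continuous (Φ f)) {r : ℝ} {g : Cp X}
    {U : Set T} (hU : IsOpen U) (hne : U.Nonempty) (hg : ∀ t ∈ U, Φ g t < r) :
    ∃ n k : ℕ, ∃ V, ∃ p : T → Fin n → X, IsOpen V ∧ V.Nonempty ∧ V ⊆ U ∧ ContinuousOn p V ∧
      ∀ t ∈ V, Cert Φ r (1 / (k + 1)) g t (p t) := by
  classical
  obtain ⟨n, k, V0, hV0, hne0, hs0, hc0⟩ := baire h1 h2 hU hne hg
  obtain ⟨Z, hZ0, hZc, hZ⟩ := exMn (U := V0) (cert_closed h2 r (1 / (k + 1)) g n) hc0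
  let sv : Fin n → Set T → Prop := fun j V =>
    ∀ t ∈ V, ∀ x x', (t, x) ∈ Z → (t, x') ∈ Z → x j = x' j
  obtain ⟨V1, hV1, hne1, hs1, hA⟩ := shrink (ι := Fin n) (fun j (V : Set T) => sv j V ∨
      ∀ V', IsOpen V' → V'.Nonempty → V' ⊆ V → ¬ sv j V')
    (fun i V V' h _ hs => h.imp (fun h t ht => h t (hs ht))
      (fun h W a b c => h W a b (c.trans hs))) hV0 hne0 (by
      intro i V hV hne hs
      by_cases hc : ∃ V', IsOpen V' ∧ V'.Nonempty ∧ V' ⊆ V ∧ sv i V'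
      · obtain ⟨V', a, b, c, d⟩ := hc
        exact ⟨V', a, b, c, Or.inl d⟩
      · exact ⟨V, hV, hne, subset_rfl, Or.inr fun W a b c d => hc ⟨W, a, b, c, d⟩⟩)
  have hZ1 := hZ.mono hs1
  have hε : (0 : ℝ) < 1 / (k + 1) := by positivity
  have key : ∀ t ∈ V1, ∀ x, (t, x) ∈ Z → ∀ f : Cp X,
      (∀ j, sv j V1 → |f.1 (x j) - g.1 (x j)| < 1 / (k + 1)) → Φ f t ≤ r := by
    intro t ht x hx f hf
    by_contra hn
    push Not at hn
    have ind : ∀ s : Finset (Fin n), ∃ V' : Set T, ∃ f' : Cp X, IsOpen V' ∧ V'.Nonempty ∧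
        V' ⊆ V1 ∧ (∀ t ∈ V', r < Φ f' t) ∧ ∀ t ∈ V', ∀ x, (t, x) ∈ Z →
          ∀ j ∈ (s : Set (Fin n)) ∪ {j | sv j V1}, |f'.1 (x j) - g.1 (x j)| < 1 / (k + 1) := by
      intro s
      induction s using Finset.induction_on with
      | empty =>
        obtain ⟨V', a, b, c, d⟩ := hZ1.2 (V1 ∩ {t | r < Φ f t}) _
          (hV1.inter (isOpen_lt continuous_const (h2 f)))
          (near_open f g (1 / (k + 1)) {j | sv j V1}) inter_subset_left
          ⟨t, ⟨ht, hn⟩, x, hf, hx⟩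
        refine ⟨V', f, a, b, c.trans inter_subset_left, fun s hs => (c hs).2,
          fun s hs y hy j hj => d s hs y hy j (by simpa using hj)⟩
      | insert a s _ ih =>
        obtain ⟨V', f', i1, i2, i3, i4, i5⟩ := ih
        rcases hA a with h | h
        · refine ⟨V', f', i1, i2, i3, i4, fun t ht x hx j hj => i5 t ht x hx j ?_⟩
          rcases hj with hj | hj
          · rcases Finset.mem_insert.1 (Finset.mem_coe.1 hj) with rfl | hj
            · exact Or.inr h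
            · exact Or.inl hj
          · exact Or.inr hj
        · obtain ⟨V'', f'', j1, j2, j3, j4, j5⟩ := step h1 h2 hε hZc hZ1 (k := a) (by
            intro W b1 b2 b3
            have := h W b1 b2 b3
            simp only [sv] at this
            push Not at this
            exact this) i1 i2 i3 i4 i5
          refine ⟨V'', f'', j1, j2, j3, j4, fun t ht x hx j hj => j5 t ht x hx j ?_⟩
          rw [Finset.coe_insert, insert_union] at hj
          exact hj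
    obtain ⟨V', f', -, ⟨s, hs⟩, i3, i4, i5⟩ := ind Finset.univ
    obtain ⟨y, hy⟩ := hZ1.1 s (i3 hs)
    exact absurd (hZ0 hy f' fun j => i5 s hs y hy j (by simp)) (not_le.2 (i4 s hs))
  obtain ⟨x0⟩ := ‹Nonempty X›
  have hsel : ∀ t, ∃ x : Fin n → X, t ∈ V1 → (t, x) ∈ Z := fun t => by
    by_cases ht : t ∈ V1
    · obtain ⟨x, hx⟩ := hZ1.1 t ht
      exact ⟨x, fun _ => hx⟩
    · exact ⟨fun _ => x0, fun h => absurd h ht⟩
  choose sel hsel using hsel
  refine ⟨n, k, V1, fun t j => if sv j V1 then sel t j else x0, hV1, hne1, hs1.trans hs0, ?_, ?_⟩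
  · refine continuousOn_pi.2 fun j => ?_
    by_cases hj : sv j V1
    · simp only [if_pos hj]
      intro t ht
      refine tendsto_nhds.2 fun W hW hm => ?_
      have ho := usc hZc (hW.preimage (f := fun x : Fin n → X => x j) (continuous_apply j))
      refine mem_nhdsWithin.2 ⟨_, ho, fun y hy => ?_, fun s hs => hs.1 _ (hsel s hs.2)⟩
      show y j ∈ W
      rw [hj t ht y (sel t) hy (hsel t ht)]; exact hm
    · simp only [if_neg hj]; exact continuousOn_const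
  · intro t ht f hf
    refine key t ht (sel t) (hsel t ht) f fun j hj => ?_
    have := hf j
    simpa only [if_pos hj] using this

end Pool.Agent.H17.TE
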