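import Pool.Agent.H17.TE3

set_option autoImplicit false
open Set Topology Filter TopologicalSpace

namespace Pool.Agent.H17.TE

theorem conflict {T X : Type} [TopologicalSpace X] [CompactSpace X] [T2Space X]
    {Φ : Cp X → T → ℝ} {r s ε δ : ℝ} (hrs : r < s) (hε : 0 < ε) (hδ : 0 < δ) {g g' : Cp X}
    {n m : ℕ} {t : T} {x : Fin n → X} {y : Fin m → X} (hx : Cert Φ r ε g t x)
    (hy : Cert (fun f t => -Φ f t) (-s) δ g' t y) :
    ∃ a b, x a = y b ∧ ε ≤ |g.1 (x a) - g'.1 (x a)| := by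
  by_contra hn
  push Not at hn
  obtain ⟨l, l0, l1, -⟩ := exists_continuous_zero_one_of_isClosed (finite_range y).isClosed
    ((finite_range x).sdiff (t := range y)).isClosed disjoint_sdiff_right
  let f : Cp X := ⟨fun p => l p * g.1 p + (1 - l p) * g'.1 p,
    (l.continuous.mul g.2).add ((continuous_const.sub l.continuous).mul g'.2)⟩
  have f0 : ∀ p ∈ range y, f.1 p = g'.1 p := fun p hp => by
    have e : l p = 0 := l0 hp
    simp [f, e]
  have h1 := hx f fun a => by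
    by_cases h : x a ∈ range y
    · rw [f0 _ h, abs_sub_comm]
      obtain ⟨b, hb⟩ := h
      exact hn a b hb.symm
    · have e : l (x a) = 1 := l1 ⟨⟨a, rfl⟩, h⟩
      simpa [f, e] using hε
  have h2 := hy f fun b => by rw [f0 _ ⟨b, rfl⟩]; simpa using hδ
  simp only [neg_le_neg_iff] at h2
  linarith

/-- Main theorem. -/
theorem depc {Γ Y X : Type} [TopologicalSpace Y] [SeparableSpace Y] [Nonempty Y]
    [CompactSpace Y] [T2Space Y] [TopologicalSpace X] [CompactSpace X] [T2Space X] [Nonempty X]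
    (hX : ∀ q : (Γ → Y) → X, Continuous q → ∃ S : Set Γ, S.Countable ∧ Dep S q)
    {Φ : Cp X → (Γ → Y) → ℝ} (h1 : ∀ t, Continuous fun f => Φ f t)
    (h2 : ∀ f, Continuous (Φ f)) : ∃ S : Set Γ, S.Countable ∧ ∀ f, Dep S (Φ f) := by
  classical
  by_contra hn
  push Not at hn
  have h1' : ∀ t, Continuous fun f => -Φ f t := fun t => (h1 t).neg
  have h2' : ∀ f, Continuous fun t => -Φ f t := fun f => (h2 f).neg
  obtain ⟨⟨⟨n, k⟩, ⟨m, k'⟩, B, r, s⟩, R, ρ, hb⟩ := big (Γ := Γ) (Y := Y)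
    (D := (ℕ × ℕ) × (ℕ × ℕ) × ℕ × ℚ × ℚ)
    (fun d O0 O1 => (d.2.2.2.1 : ℝ) < d.2.2.2.2 ∧ ∃ g : Cp X, (∀ p, |g.1 p| ≤ d.2.2.1) ∧
      (∃ p : (Γ → Y) → Fin d.1.1 → X, ContinuousOn p O0 ∧
        ∀ t ∈ O0, Cert Φ d.2.2.2.1 (1 / (d.1.2 + 1)) g t (p t)) ∧
      ∀ t ∈ O1, ∃ y : Fin d.2.1.1 → X,
        Cert (fun f t => -Φ f t) (-d.2.2.2.2) (1 / (d.2.1.2 + 1)) g t y) (by
      intro S hS
      obtain ⟨f, hf⟩ := hn S hS
      simp only [Dep] at hf
      push Not at hf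
      obtain ⟨t, t', htt, hlt⟩ : ∃ t t', (∀ γ ∈ S, t γ = t' γ) ∧ Φ f t < Φ f t' := by
        obtain ⟨t, t', h, hne⟩ := hf
        rcases lt_or_gt_of_ne hne with h' | h'
        · exact ⟨t, t', h, h'⟩
        · exact ⟨t', t, fun γ hγ => (h γ hγ).symm, h'⟩
      obtain ⟨r, hr1, hr2⟩ := exists_rat_btwn hlt
      obtain ⟨s, hs1, hs2⟩ := exists_rat_btwn hr2
      obtain ⟨B, hB⟩ : ∃ B : ℕ, ∀ p, |f.1 p| ≤ B := by
        obtain ⟨b, hb⟩ := (isCompact_range f.2.abs).bddAbove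
        obtain ⟨B, hB⟩ := exists_nat_ge b
        exact ⟨B, fun p => (hb ⟨p, rfl⟩).trans hB⟩
      have hBo : IsOpen {t | (s : ℝ) < Φ f t} := isOpen_lt continuous_const (h2 f)
      obtain ⟨n, k, V0, p, a1, ⟨u0, hu0⟩, a3, a4, a5⟩ := ccert h1 h2 (r := r) (g := f)
        ((isOpen_lt (h2 f) continuous_const).inter (sat_open S hBo))
        ⟨t, hr1, t', hs2, htt⟩ (fun t ht => ht.1)
      obtain ⟨m, k', V1, b1, ⟨v, hv⟩, b3, b4⟩ := baire (Φ := fun f t => -Φ f t) h1' h2'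
        (r := -s) (g := f) (hBo.inter (sat_open S a1)) (by
          obtain ⟨v, hv, huv⟩ := (a3 hu0).2
          exact ⟨v, hv, u0, hu0, fun γ hγ => (huv γ hγ).symm⟩) (fun t ht => neg_lt_neg ht.1)
      obtain ⟨u, hu, huv⟩ := (b3 hv).2
      exact ⟨((n, k), (m, k'), B, r, s), V0, V1, ⟨hs1, f, hB, ⟨p, a4, a5⟩, b4⟩, a1, b1, u, hu,
        v, hv, fun γ hγ => (huv γ hγ).symm⟩)
  have hst : ∀ S : {S : Set Γ // S.Countable}, ∃ S' : {S : Set Γ // S.Countable},
      ∃ M : Finset Γ, ∃ u v : Γ → Y, ∃ g : Cp X, ∃ q : (Γ → Y) → Fin n → X,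
      (r : ℝ) < s ∧ S.1 ⊆ S'.1 ∧ (M : Set Γ) ⊆ S'.1 ∧ (∀ γ ∈ M, γ ∉ S.1 ∧ γ ∉ R) ∧
      (∀ p, |g.1 p| ≤ B) ∧ Dep S'.1 q ∧
      (∀ t, (∀ γ ∈ R, t γ = ρ γ) → (∀ γ ∈ M, t γ = u γ) → Cert Φ r (1 / (k + 1)) g t (q t)) ∧
      ∀ t, (∀ γ ∈ R, t γ = ρ γ) → (∀ γ ∈ M, t γ = v γ) → ∃ y : Fin m → X,
        Cert (fun f t => -Φ f t) (-s) (1 / (k' + 1)) g t y := by
    intro S
    obtain ⟨O0, O1, M, u, v, ⟨hrs, g, hg, ⟨p, hp, hpc⟩, hy⟩, hv, hM⟩ := hb S.1 S.2
    let re : (Γ → Y) → Γ → Y := fun t γ => if γ ∈ R then ρ γ else if γ ∈ M then u γ else t γ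
    have hre : Continuous re := by
      refine continuous_pi fun γ => ?_
      simp only [re]
      split_ifs
      · exact continuous_const
      · exact continuous_const
      · exact continuous_apply γ
    have hO : ∀ t, re t ∈ O0 := fun t => hv.2.1 _ (fun γ hγ => by simp only [re, if_pos hγ])
      fun γ hγ => by simp only [re, if_pos hγ, if_neg (hv.1 γ hγ)]
    have hq : Continuous fun t => p (re t) := hp.comp_continuous hre hO
    choose D hD hD' using fun i : Fin n => hX (fun t => p (re t) i) ((continuous_apply i).comp hq)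
    refine ⟨⟨S.1 ∪ M ∪ ⋃ i, D i, (S.2.union M.countable_toSet).union (countable_iUnion hD)⟩,
      M, u, v, g, fun t => p (re t), hrs, subset_union_left.trans subset_union_left,
      subset_union_right.trans subset_union_left, fun γ hγ => ⟨hM γ hγ, hv.1 γ hγ⟩, hg,
      fun t t' h => funext fun i => hD' i t t' fun γ hγ =>
        h γ (Or.inr (mem_iUnion.2 ⟨i, hγ⟩)), fun t htR htM => ?_,
      fun t htR htM => hy t (hv.2.2 t htR htM)⟩
    have e : re t = t := by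
      funext γ
      simp only [re]
      split_ifs with a b
      · exact (htR γ a).symm
      · exact (htM γ b).symm
      · rfl
    have := hpc _ (hO t)
    rw [e] at this
    simpa only [e] using this
  choose nx M u v g q c1 c2 c3 c4 c5 c6 c7 c8 using hst
  let S : ℕ → {S : Set Γ // S.Countable} := fun j => nx^[j] ⟨∅, countable_empty⟩
  have hS : ∀ j, S (j + 1) = nx (S j) := fun j => Function.iterate_succ_apply' _ _ _
  have hm : Monotone fun j => (S j).1 :=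
    monotone_nat_of_le_succ fun j => by rw [hS]; exact c2 _
  have hlt : ∀ j i, j < i → (nx (S j)).1 ⊆ (S i).1 := fun j i h => by
    rw [← hS]; exact hm h
  have hdis : ∀ j i γ, γ ∈ M (S j) → γ ∈ M (S i) → j = i := by
    intro j i γ a b
    rcases lt_trichotomy j i with h | h | h
    · exact absurd (hlt j i h (c3 _ a)) (c4 _ γ b).1
    · exact h
    · exact absurd (hlt i j h (c3 _ b)) (c4 _ γ a).1
  have : ∀ γ, ∃ y : Y, (γ ∈ R → y = ρ γ) ∧ ∀ j, γ ∈ M (S j) → y = u (S j) γ := by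
    intro γ
    by_cases h : ∃ j, γ ∈ M (S j)
    · obtain ⟨j, hj⟩ := h
      exact ⟨u (S j) γ, fun hR => absurd hR (c4 _ γ hj).2,
        fun i hi => by rw [hdis i j γ hi hj]⟩
    · exact ⟨ρ γ, fun _ => rfl, fun j hj => absurd ⟨j, hj⟩ h⟩
  choose t0 ht1 ht2 using this
  let t : ℕ → Γ → Y := fun i γ => if γ ∈ M (S i) then v (S i) γ else t0 γ
  have tR : ∀ i, ∀ γ ∈ R, t i γ = ρ γ := fun i γ hγ => by
    have : γ ∉ M (S i) := fun h => (c4 _ γ h).2 hγ
    simp only [t, if_neg this, ht1 γ hγ]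
  choose y hy using fun i => c8 (S i) (t i) (tR i) fun γ hγ => by simp only [t, if_pos hγ]
  refine skew (fun j => q (S j) t0) y (fun j => (g (S j)).1) (B := B) (ε := 1 / (k + 1))
    (by positivity) (fun j => c5 _) fun j i hji => ?_
  have e : q (S j) t0 = q (S j) (t i) := c6 _ _ _ fun γ hγ => by
    have : γ ∉ M (S i) := fun h => (c4 _ γ h).1 (hlt j i hji hγ)
    simp only [t, if_neg this]
  have hc := c7 (S j) (t i) (tR i) fun γ hγ => by
    have : γ ∉ M (S i) := fun h => hji.ne (hdis j i γ hγ h)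
    simp only [t, if_neg this, ht2 γ j hγ]
  rw [← e] at hc
  exact conflict (c1 (S 0)) (by positivity) (by positivity) hc (hy i)

/-- zero-dimensional domain, connected cube -/
theorem dep_zero {Γ X : Type} [TopologicalSpace X] [CompactSpace X] [T2Space X] [Nonempty X]
    [TotallyDisconnectedSpace X] {φ : Cp X → Cp (Γ → unitInterval)} (hφ : Continuous φ) :
    ∃ S : Set Γ, S.Countable ∧ ∀ f, Dep S (φ f).1 :=
  depc (Φ := fun f => (φ f).1) (fun q hq => ⟨∅, countable_empty, fun t t' _ =>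
    (isPreconnected_range hq).subsingleton ⟨t, rfl⟩ ⟨t', rfl⟩⟩)
    (fun t => (ev t).comp hφ) fun f => (φ f).2

theorem dep_or_cube {Γ Y X I : Type} [TopologicalSpace Y] [SeparableSpace Y] [Nonempty Y]
    [CompactSpace Y] [T2Space Y] [TopologicalSpace X] [CompactSpace X] [T2Space X] [Nonempty X]
    (hI : Cardinal.mk I = Cardinal.aleph 1) (hc : ¬ ∃ h : (I → Bool) → X, IsEmbedding h)
    {φ : Cp X → Cp (Γ → Y)} (hφ : Continuous φ) :
    ∃ S : Set Γ, S.Countable ∧ ∀ f, Dep S (φ f).1 :=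
  depc (Φ := fun f => (φ f).1) (fun q hq => by
    by_contra hn
    push Not at hn
    exact hc (cube_of_not_dep hI hq hn))
    (fun t => (ev t).comp hφ) fun f => (φ f).2

end Pool.Agent.H17.TE
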