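import Pool.Agent.H17.TE4

set_option autoImplicit false
open Set Topology Filter TopologicalSpace

namespace Pool.Agent.H17.TE

theorem network {Γ Y A : Type} [TopologicalSpace Y] [SecondCountableTopology Y] [Nonempty Y]
    (φ : A → Cp (Γ → Y)) {S : Set Γ} (hS : S.Countable) (h : ∀ a, Dep S (φ a).1) :
    ∃ 𝒩 : Set (Set (Cp (Γ → Y))), 𝒩.Countable ∧ ∀ x ∈ range φ, ∀ U : Set (Cp (Γ → Y)),
      IsOpen U → x ∈ U → ∃ N ∈ 𝒩, x ∈ N ∧ N ⊆ U ∩ range φ := by
  classical
  have := hS.to_subtype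
  obtain ⟨y0⟩ := ‹Nonempty Y›
  let ex : (S → Y) → Γ → Y := fun z γ => if h : γ ∈ S then z ⟨γ, h⟩ else y0
  have hex : Continuous ex := by
    refine continuous_pi fun γ => ?_
    simp only [ex]
    split_ifs
    · exact continuous_apply _
    · exact continuous_const
  have hre : ∀ a t, (φ a).1 (ex fun γ => t γ) = (φ a).1 t := fun a t =>
    h a _ _ fun γ hγ => by simp only [ex, dif_pos hγ]
  let N : Set (Set (S → Y) × Set ℝ) → Set (Cp (Γ → Y)) := fun F =>
    {g | g ∈ range φ ∧ ∀ b ∈ F, ∀ z ∈ b.1, g.1 (ex z) ∈ b.2}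
  refine ⟨N '' {F | F.Finite ∧ F ⊆ countableBasis (S → Y) ×ˢ countableBasis ℝ},
    (countable_ofPred_finite_subset
      ((countable_countableBasis _).prod (countable_countableBasis _))).image _, ?_⟩
  rintro _ ⟨a, rfl⟩ U hU hx
  obtain ⟨V, hV, rfl⟩ := isOpen_induced_iff.1 hU
  obtain ⟨I, u, hu, hI⟩ := isOpen_pi_iff.1 hV _ hx
  have : ∀ t ∈ I, ∃ b ∈ countableBasis (S → Y) ×ˢ countableBasis ℝ, (fun γ : S => t γ) ∈ b.1 ∧
      b.2 ⊆ u t ∧ ∀ z ∈ b.1, (φ a).1 (ex z) ∈ b.2 := by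
    intro t ht
    obtain ⟨J, hJ, m1, s1⟩ := (isBasis_countableBasis ℝ).exists_subset_of_mem_open
      (hu t ht).2 (hu t ht).1
    obtain ⟨B, hB, m2, s2⟩ := (isBasis_countableBasis (S → Y)).exists_subset_of_mem_open
      (a := fun γ : S => t γ) (u := (fun z => (φ a).1 (ex z)) ⁻¹' J)
      (by show (φ a).1 (ex fun γ : S => t γ) ∈ J; rw [hre]; exact m1)
      ((isOpen_of_mem_countableBasis hJ).preimage ((φ a).2.comp hex))
    exact ⟨(B, J), ⟨hB, hJ⟩, m2, s1, fun z hz => s2 hz⟩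
  choose! b hb1 hb2 hb3 hb4 using this
  refine ⟨N (b '' I), ⟨_, ⟨I.finite_toSet.image _, ?_⟩, rfl⟩, ⟨⟨a, rfl⟩, ?_⟩, ?_⟩
  · rintro _ ⟨t, ht, rfl⟩; exact hb1 t ht
  · rintro _ ⟨t, ht, rfl⟩; exact hb4 t ht
  · rintro _ ⟨⟨a', rfl⟩, hg⟩
    refine ⟨hI fun t ht => hb3 t ht ?_, a', rfl⟩
    have := hg _ ⟨t, ht, rfl⟩ _ (hb2 t ht)
    rwa [hre] at this

/-- coordinate functions of the Cantor cube -/
noncomputable def coord {I : Type} (i : I) : Cp (I → Bool) :=
  ⟨fun τ => if τ i then 1 else 0, (continuous_of_discreteTopology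
    (f := fun b : Bool => if b then (1 : ℝ) else 0)).comp (continuous_apply i)⟩

theorem unc {I : Type} (hI : Cardinal.mk I = Cardinal.aleph 1) {S : Set I} (hS : S.Countable) :
    ∃ i, i ∉ S := by
  by_contra hn
  push Not at hn
  have : S = univ := eq_univ_of_forall hn
  rw [this, countable_univ_iff, ← Cardinal.mk_le_aleph0_iff, hI] at hS
  exact absurd hS (not_le.2 Cardinal.aleph0_lt_aleph_one)

theorem no_embed {Γ I : Type} (hI : Cardinal.mk I = Cardinal.aleph 1)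
    (φ : Cp (I → Bool) → Cp (Γ → unitInterval)) : ¬ IsEmbedding φ := by
  classical
  intro hφ
  obtain ⟨S, hS, hd⟩ := dep_zero hφ.continuous
  obtain ⟨𝒩, hc, hN⟩ := network φ hS hd
  have : ∀ i : I, ∃ N ∈ 𝒩, φ (coord i) ∈ N ∧ ∀ j, φ (coord j) ∈ N → j = i := by
    intro i
    have ho : IsOpen {g : Cp (I → Bool) | 0 < g.1 fun j => decide (j = i)} :=
      isOpen_lt continuous_const (ev _)
    obtain ⟨U, hU, he⟩ := hφ.isInducing.isOpen_iff.1 ho
    have hm : ∀ j, φ (coord j) ∈ U ↔ j = i := fun j => by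
      have : φ (coord j) ∈ U ↔ coord j ∈ φ ⁻¹' U := Iff.rfl
      rw [this, he]
      by_cases h : j = i <;> simp [coord, h]
    obtain ⟨N, h1, h2, h3⟩ := hN _ ⟨coord i, rfl⟩ U hU ((hm i).2 rfl)
    exact ⟨N, h1, h2, fun j hj => (hm j).1 (h3 hj).1⟩
  choose N h1 h2 h3 using this
  have : (univ : Set I).Countable := countable_of_injective_of_countable_image (f := N)
    (fun i _ j _ e => h3 j i (e ▸ h2 i)) (hc.mono (by rintro _ ⟨i, -, rfl⟩; exact h1 i))
  obtain ⟨i, hi⟩ := unc hI this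
  exact hi trivial

/-- the vertex inclusion -/
noncomputable def vtx {I : Type} (τ : I → Bool) : I → unitInterval := fun i => if τ i then 1 else 0

theorem vtx_emb {I : Type} : IsClosedEmbedding (vtx (I := I)) := by
  refine Continuous.isClosedEmbedding (continuous_pi fun i => (continuous_of_discreteTopology
    (f := fun b : Bool => if b then (1 : unitInterval) else 0)).comp (continuous_apply i)) ?_
  intro τ τ' e
  funext i
  have := congrFun e i
  cases h : τ i <;> cases h' : τ' i <;> simp_all [vtx]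

theorem no_ext {I : Type} (hI : Cardinal.mk I = Cardinal.aleph 1)
    (φ : Cp (I → Bool) → Cp (I → unitInterval)) (hφ : Continuous φ) :
    ¬ ∀ f τ, (φ f).1 (vtx τ) = f.1 τ := by
  classical
  intro he
  obtain ⟨S, hS, hd⟩ := dep_zero hφ
  obtain ⟨i, hi⟩ := unc hI hS
  have := hd (coord i) (vtx fun _ => false) (vtx fun j => decide (j = i)) fun γ hγ => by
    have : γ ≠ i := fun h => hi (h ▸ hγ)
    simp [vtx, this]
  rw [he, he] at this
  simp [coord] at this

end Pool.Agent.H17.TE
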