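import Pool.Agent.H17.TE5

set_option autoImplicit false
open Set Topology Filter TopologicalSpace OnePoint

namespace Pool.Agent.H17.TE

/-- t-extral spaces -/
def Extral (X : Type) [TopologicalSpace X] : Prop :=
  ∀ (Z : Type) [TopologicalSpace Z] [T35Space Z] (e : X → Z), IsClosedEmbedding e →
    ∃ φ : Cp X → Cp Z, Continuous φ ∧ ∀ (f : Cp X) (x : X), (φ f).1 (e x) = f.1 x

def DD (A : Type) : Type := Set A
instance (A : Type) : TopologicalSpace (DD A) := ⊥
instance (A : Type) : DiscreteTopology (DD A) := ⟨rfl⟩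
instance (A : Type) : Nonempty (DD A) := ⟨(∅ : Set A)⟩

theorem cnt_ne {D : Type} [TopologicalSpace D] [DiscreteTopology D] {c : OnePoint D → ℝ}
    (hc : Continuous c) : {d : D | c d ≠ c ∞}.Countable := by
  have h := (OnePoint.continuous_iff_from_discrete c).1 hc
  refine (countable_iUnion fun n : ℕ => Finite.countable
    (s := {d : D | ¬ dist (c d) (c ∞) < 1 / (n + 1)}) ?_).mono fun d hd => ?_
  · exact eventually_cofinite.1 (Metric.tendsto_nhds.1 h _ (by positivity))
  · obtain ⟨n, hn⟩ := exists_nat_one_div_lt (dist_pos.2 hd)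
    exact mem_iUnion.2 ⟨n, not_lt.2 hn.le⟩

theorem Extral.compact {X : Type} [TopologicalSpace X] [T35Space X] (h : Extral X) :
    CompactSpace X := by
  have hu : IsEmbedding (stoneCechUnit : X → StoneCech X) := isEmbedding_stoneCechUnit
  by_contra hn
  obtain ⟨q, hq⟩ : ∃ q : StoneCech X, q ∉ range stoneCechUnit := by
    by_contra hq
    push Not at hq
    refine hn ⟨hu.isInducing.isCompact_iff.2 ?_⟩
    rw [image_univ, eq_univ_of_forall hq]; exact isCompact_univ
  let D := DD (Cp X × X × ℕ)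
  let Z := {p : StoneCech X × OnePoint D // p.2 = ∞ → p.1 ∈ range stoneCechUnit}
  let e : X → Z := fun x => ⟨(stoneCechUnit x, ∞), fun _ => ⟨x, rfl⟩⟩
  have he : IsClosedEmbedding e := by
    refine ⟨((isEmbedding_prodMkLeft (∞ : OnePoint D)).comp hu).codRestrict
      {p : StoneCech X × OnePoint D | p.2 = ∞ → p.1 ∈ range stoneCechUnit}
      (fun x _ => ⟨x, rfl⟩), ?_⟩
    have : range e = {p : Z | p.1.2 = ∞} := by
      ext ⟨⟨a, b⟩, hab⟩
      constructor
      · rintro ⟨x, hx⟩
        exact (congrArg (fun p : Z => p.1.2) hx).symm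
      · intro hb
        obtain ⟨x, hx⟩ := hab hb
        exact ⟨x, Subtype.ext (Prod.ext hx (Eq.symm hb))⟩
    rw [this]
    exact isClosed_eq (continuous_snd.comp continuous_subtype_val) continuous_const
  obtain ⟨φ, hφ, hex⟩ := h Z e he
  have h1 : ∀ (f : Cp X) (x : X), ∃ s : ℕ → D, ∀ d : D, d ∉ range s →
      (φ f).1 ⟨(stoneCechUnit x, d), fun _ => ⟨x, rfl⟩⟩ = f.1 x := by
    intro f x
    have hc : Continuous fun d : OnePoint D =>
        (φ f).1 ⟨(stoneCechUnit x, d), fun _ => ⟨x, rfl⟩⟩ :=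
      (φ f).2.comp ((Continuous.prodMk_right _).subtype_mk _)
    obtain ⟨s, hs⟩ := countable_iff_exists_subset_range.1 (cnt_ne hc)
    refine ⟨s, fun d hd => ?_⟩
    by_contra hne
    exact hd (hs fun h' => hne (h'.trans (hex f x)))
  choose s hs using h1
  obtain ⟨d, hd⟩ : ∃ d : D, ∀ f x n, s f x n ≠ d := by
    by_contra hd
    push Not at hd
    refine Function.cantor_surjective (fun p : Cp X × X × ℕ => s p.1 p.2.1 p.2.2) fun d => ?_
    obtain ⟨f, x, n, h⟩ := hd d
    exact ⟨(f, x, n), h⟩
  let j : StoneCech X → Z := fun z => ⟨(z, d), fun h => absurd h (OnePoint.coe_ne_infty d)⟩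
  have hj : Continuous j := (Continuous.prodMk_left _).subtype_mk _
  have key : ∀ l : Cp (StoneCech X),
      (φ ⟨fun x => l.1 (stoneCechUnit x), l.2.comp hu.continuous⟩).1 (j q) = l.1 q := by
    intro l
    refine congrFun (denseRange_stoneCechUnit.equalizer
      (g := fun z => (φ ⟨fun x => l.1 (stoneCechUnit x), l.2.comp hu.continuous⟩).1 (j z))
      ((φ _).2.comp hj) l.2 (funext fun x => ?_)) q
    exact hs _ x d fun ⟨n, hn⟩ => hd _ x n hn
  obtain ⟨n, k, x, hx⟩ := nbhd (O := {f : Cp X | (φ f).1 (j q) < 1})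
    (isOpen_lt ((ev (j q)).comp hφ) continuous_const)
    (g := ⟨fun _ => 0, continuous_const⟩) (by
      have := key ⟨fun _ => 0, continuous_const⟩
      show (φ ⟨fun _ => 0, continuous_const⟩).1 (j q) < 1
      rw [this]; exact zero_lt_one)
  obtain ⟨l, l0, l1, -⟩ := exists_continuous_zero_one_of_isClosed
    (finite_range fun i => stoneCechUnit (x i)).isClosed (isClosed_singleton (x := q))
    (disjoint_singleton_right.2 fun ⟨i, hi⟩ => hq ⟨x i, hi⟩)
  have := hx ⟨fun x => l (stoneCechUnit x), l.continuous.comp hu.continuous⟩ fun i => by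
    have e : l (stoneCechUnit (x i)) = 0 := l0 ⟨i, rfl⟩
    simp only [e, sub_self, abs_zero]; positivity
  have h2 := key ⟨l, l.continuous⟩
  have h3 : l q = 1 := l1 rfl
  simp only [mem_ofPred_eq] at this h2
  rw [h2, h3] at this
  exact lt_irrefl _ this

theorem sc_of_dep {Γ Y A : Type} [TopologicalSpace Y] [SecondCountableTopology Y] [T2Space Y]
    [TopologicalSpace A] [CompactSpace A] [T2Space A] {e : A → Γ → Y} (he : Continuous e)
    {φ : Cp A → Cp (Γ → Y)} (hex : ∀ f x, (φ f).1 (e x) = f.1 x) {S : Set Γ} (hS : S.Countable)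
    (hd : ∀ f, Dep S (φ f).1) : SecondCountableTopology A := by
  have := hS.to_subtype
  have hc : Continuous fun (x : A) (γ : S) => e x γ :=
    continuous_pi fun γ => (continuous_apply γ.1).comp he
  refine (hc.isClosedEmbedding fun x y hxy => ?_).isEmbedding.secondCountableTopology
  by_contra hne
  obtain ⟨l, l0, l1, -⟩ := exists_continuous_zero_one_of_isClosed (isClosed_singleton (x := x))
    (isClosed_singleton (x := y)) (disjoint_singleton.2 hne)
  have := hd ⟨l, l.continuous⟩ (e x) (e y) fun γ hγ => congrFun hxy ⟨γ, hγ⟩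
  rw [hex, hex] at this
  have a : l x = 0 := l0 rfl
  have b : l y = 1 := l1 rfl
  simp only [a, b] at this
  exact zero_ne_one this

theorem ex_emb (X : Type) [TopologicalSpace X] [CompactSpace X] [T2Space X] :
    ∃ (Γ : Type) (e : X → Γ → unitInterval), IsClosedEmbedding e := by
  refine ⟨C(X, unitInterval), fun x γ => γ x,
    Continuous.isClosedEmbedding (continuous_pi fun γ => γ.continuous) fun x y hxy => ?_⟩
  by_contra hne
  obtain ⟨l, l0, l1, l2⟩ := exists_continuous_zero_one_of_isClosed (isClosed_singleton (x := x))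
    (isClosed_singleton (x := y)) (disjoint_singleton.2 hne)
  have := congrArg Subtype.val (congrFun hxy ⟨fun p => ⟨l p, l2 p⟩, l.continuous.subtype_mk _⟩)
  have a : l x = 0 := l0 rfl
  have b : l y = 1 := l1 rfl
  simp only [ContinuousMap.coe_mk, a, b] at this
  exact zero_ne_one this

theorem Extral.cube {X : Type} [TopologicalSpace X] [T35Space X] (h : Extral X)
    (hm : ¬ MetrizableSpace X) {I : Type} (hI : Cardinal.mk I = Cardinal.aleph 1) :
    ∃ h : (I → Bool) → X, IsEmbedding h := by
  have := h.compact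
  by_contra hc
  rcases isEmpty_or_nonempty X with hX | hX
  · exact hm inferInstance
  obtain ⟨Γ, e, he⟩ := ex_emb X
  obtain ⟨φ, hφ, hex⟩ := h _ e he
  obtain ⟨S, hS, hd⟩ := dep_or_cube hI hc hφ
  have := sc_of_dep he.continuous hex hS hd
  exact hm inferInstance

theorem op {I : Type} (i : I) : IsOpen {τ : I → Bool | τ i = true} :=
  (isOpen_discrete ({true} : Set Bool)).preimage (f := fun τ : I → Bool => τ i)
    (continuous_apply i)

theorem cube_not_sc {I : Type} (hI : Cardinal.mk I = Cardinal.aleph 1) :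
    ¬ SecondCountableTopology (I → Bool) := by
  classical
  intro h
  have : ∀ i : I, ∃ B ∈ countableBasis (I → Bool), (fun j => decide (j = i)) ∈ B ∧
      B ⊆ {τ | τ i = true} := fun i =>
    (isBasis_countableBasis _).exists_subset_of_mem_open (by simp)
      (op i)
  choose N h1 h2 h3 using this
  have : (univ : Set I).Countable := countable_of_injective_of_countable_image (f := N)
    (fun i _ j _ e => (of_decide_eq_true (h3 j (e ▸ h2 i))).symm)
    ((countable_countableBasis _).mono (by rintro _ ⟨i, -, rfl⟩; exact h1 i))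
  obtain ⟨i, hi⟩ := unc hI this
  exact hi trivial

theorem cube_tight {I X : Type} [TopologicalSpace X] (hI : Cardinal.mk I = Cardinal.aleph 1)
    {h : (I → Bool) → X} (hh : IsEmbedding h) :
    ¬ ∀ (A : Set X) (x : X), x ∈ closure A → ∃ B ⊆ A, B.Countable ∧ x ∈ closure B := by
  classical
  intro ht
  have h1 : (fun _ => true) ∈ closure {τ : I → Bool | {i | τ i = true}.Finite} := by
    refine mem_closure_iff.2 fun O hO hm => ?_
    obtain ⟨J, u, hu, hJ⟩ := isOpen_pi_iff.1 hO _ hm
    refine ⟨fun i => decide (i ∈ J), hJ fun i hi => ?_, by simp⟩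
    have : decide (i ∈ J) = true := by simpa using hi
    show decide (i ∈ J) ∈ u i
    rw [this]; exact (hu i hi).2
  obtain ⟨B, hB, hc, hx⟩ := ht _ _ (image_closure_subset_closure_image hh.continuous ⟨_, h1, rfl⟩)
  have hc' : (h ⁻¹' B).Countable := hc.preimage hh.injective
  have hfin : ∀ τ ∈ h ⁻¹' B, {i | τ i = true}.Finite := fun τ hτ => by
    obtain ⟨σ, hσ, e⟩ := hB hτ
    rw [← hh.injective e]; exact hσ
  obtain ⟨i, hi⟩ := unc hI (hc'.biUnion fun τ hτ => (hfin τ hτ).countable)
  have h2 : (fun _ => true) ∈ closure (h ⁻¹' B) := by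
    rw [hh.isInducing.closure_eq_preimage_closure_image,
      image_preimage_eq_of_subset (hB.trans (image_subset_range _ _))]
    exact hx
  obtain ⟨τ, a, b⟩ := mem_closure_iff.1 h2 {τ | τ i = true}
    (op i) rfl
  exact hi (mem_biUnion b a)

theorem Extral.extendial {X : Type} [TopologicalSpace X] [T35Space X] (h : Extral X)
    (hx : ∀ F : Set X, IsClosed F → ∃ φ : Cp F → Cp X, Continuous φ ∧
      ∀ (f : Cp F) (x : F), (φ f).1 x.1 = f.1 x) : MetrizableSpace X := by
  have := h.compact
  by_contra hm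
  obtain ⟨c, hc⟩ := h.cube hm W1.mkW
  obtain ⟨Γ, e, he⟩ := ex_emb X
  obtain ⟨φ, hφ, hex⟩ := h _ e he
  obtain ⟨ψ, hψ, hψe⟩ := hx (range c) (isCompact_range hc.continuous).isClosed
  let k := hc.toHomeomorph
  let θ : Cp (W1.W → Bool) → Cp (Γ → unitInterval) := fun f =>
    φ (ψ ⟨fun x => f.1 (k.symm x), f.2.comp k.symm.continuous⟩)
  have hθ : Continuous θ :=
    hφ.comp (hψ.comp (Continuous.subtype_mk (continuous_pi fun x => ev _) _))
  obtain ⟨S, hS, hd⟩ := dep_zero hθ
  refine cube_not_sc W1.mkW (sc_of_dep (he.continuous.comp hc.continuous) (φ := θ)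
    (fun f τ => ?_) hS hd)
  have := hψe ⟨fun x => f.1 (k.symm x), f.2.comp k.symm.continuous⟩ (k τ)
  simp only [Homeomorph.symm_apply_apply] at this
  exact (hex _ _).trans this

end Pool.Agent.H17.TE
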