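import Mathlib

namespace Pool.Agent.H17.Tz

open Set Filter Topology TopologicalSpace

abbrev Cn : Type := ℕ → Bool

noncomputable def p (k : ℕ) : Cn := denseSeq Cn (Nat.unpair k).1

noncomputable def L (x : Cn) : Filter ℕ := atTop ⊓ comap p (𝓝 x)

lemma L_ne (x : Cn) : (L x).NeBot := by
  refine (((atTop_basis (α := ℕ)).inf ((nhds_basis_opens x).comap p)).neBot_iff).2 ?_
  rintro ⟨n, V⟩ ⟨-, hx, hV⟩
  obtain ⟨i, hi⟩ := (denseRange_denseSeq Cn).exists_mem_open hV ⟨x, hx⟩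
  exact ⟨Nat.pair i n, Nat.right_le_pair i n, by simpa [p] using hi⟩

instance (x : Cn) : (L x).IsCountablyGenerated := by unfold L; infer_instance

lemma L_mem {x : Cn} {A : Set ℕ} : A ∈ L x ↔ ∃ n, ∃ V, IsOpen V ∧ x ∈ V ∧
    ∀ k, n ≤ k → p k ∈ V → k ∈ A := by
  rw [L, ((atTop_basis (α := ℕ)).inf ((nhds_basis_opens x).comap p)).mem_iff]
  constructor
  · rintro ⟨⟨n, V⟩, ⟨-, hx, hV⟩, h⟩
    exact ⟨n, V, hV, hx, fun k h1 h2 => h ⟨h1, h2⟩⟩
  · rintro ⟨n, V, hV, hx, h⟩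
    exact ⟨⟨n, V⟩, ⟨trivial, hx, hV⟩, fun k hk => h k hk.1 hk.2⟩

lemma seq_compl {x y : Cn} (h : y ≠ x) {k : ℕ → ℕ} (hk : Tendsto k atTop (L x)) :
    (range k)ᶜ ∈ L y := by
  obtain ⟨U, V, Uo, Vo, yU, xV, hd⟩ := t2_separation h
  have h1 : ∀ᶠ n in atTop, p (k n) ∈ V :=
    hk.eventually (L_mem.2 ⟨0, V, Vo, xV, fun _ _ h => h⟩)
  obtain ⟨N, hN⟩ := eventually_atTop.1 h1
  obtain ⟨b, hb⟩ := ((finite_Iio N).image k).bddAbove
  refine L_mem.2 ⟨b + 1, U, Uo, yU, ?_⟩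
  rintro j hj hU ⟨n, rfl⟩
  rcases le_or_gt N n with hn | hn
  · exact disjoint_left.1 hd hU (hN n hn)
  · have := hb ⟨n, hn, rfl⟩
    omega

def T (_ : Set Cn) : Type := Option ℕ

instance (Z : Set Cn) : TopologicalSpace (T Z) where
  IsOpen U := (none : Option ℕ) ∈ U → ∀ x ∉ Z, {k | (some k : Option ℕ) ∈ U} ∈ L x
  isOpen_univ := fun _ _ _ => univ_mem
  isOpen_inter := fun _ _ hs ht h x hx => inter_mem (hs h.1 x hx) (ht h.2 x hx)
  isOpen_sUnion := fun _ hs ⟨t, ht, h⟩ x hx =>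
    mem_of_superset (hs t ht h x hx) fun _ hk => ⟨t, ht, hk⟩

def oo (Z : Set Cn) : T Z := none
def pt (Z : Set Cn) (k : ℕ) : T Z := some k

variable {Z : Set Cn}

lemma open_iff {U : Set (T Z)} : IsOpen U ↔ (oo Z ∈ U → ∀ x ∉ Z, {k | pt Z k ∈ U} ∈ L x) :=
  Iff.rfl

lemma cases_T (t : T Z) : t = oo Z ∨ ∃ k, t = pt Z k := by
  cases t with
  | none => exact Or.inl rfl
  | some k => exact Or.inr ⟨k, rfl⟩

lemma pt_ne (k : ℕ) : pt Z k ≠ oo Z := fun h => by cases h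
lemma pt_inj : Function.Injective (pt Z) := fun _ _ h => Option.some.inj h

lemma open_of_not {U : Set (T Z)} (h : oo Z ∉ U) : IsOpen U := open_iff.2 fun h' => absurd h' h

lemma open_ins {A : Set ℕ} (h : ∀ x ∉ Z, A ∈ L x) : IsOpen (insert (oo Z) (pt Z '' A)) :=
  open_iff.2 fun _ x hx => mem_of_superset (h x hx) fun k hk => Or.inr ⟨k, hk, rfl⟩

lemma mem_ins {A : Set ℕ} {k : ℕ} : pt Z k ∈ insert (oo Z) (pt Z '' A) ↔ k ∈ A := by
  simp [pt_ne, pt_inj.mem_set_image]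

lemma open_compl (k : ℕ) : IsOpen ({pt Z k}ᶜ : Set (T Z)) :=
  open_iff.2 fun _ _ _ => L_mem.2 ⟨k + 1, univ, isOpen_univ, mem_univ _, fun j hj _ h => by
    have := pt_inj h
    omega⟩

instance : T1Space (T Z) := ⟨fun t => by
  rcases cases_T t with rfl | ⟨k, rfl⟩
  · exact ⟨open_of_not fun h => h rfl⟩
  · exact ⟨open_compl k⟩⟩

lemma clop (t : T Z) (U : Set (T Z)) (ht : t ∈ U) (hU : IsOpen U) :
    ∃ V, IsClopen V ∧ t ∈ V ∧ V ⊆ U := by
  rcases cases_T t with rfl | ⟨k, rfl⟩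
  · exact ⟨U, ⟨⟨open_of_not fun h => h ht⟩, hU⟩, ht, subset_rfl⟩
  · exact ⟨{pt Z k}, ⟨⟨open_compl k⟩, open_of_not fun h => pt_ne k h.symm⟩, rfl,
      singleton_subset_iff.2 ht⟩

lemma tend_of {x : Cn} (hx : x ∉ Z) {k : ℕ → ℕ} (hk : Tendsto k atTop (L x)) :
    Tendsto (fun n => pt Z (k n)) atTop (𝓝 (oo Z)) :=
  tendsto_nhds.2 fun _ hU h => hk.eventually (open_iff.1 hU h x hx)

lemma not_tend {x : Cn} (hx : x ∈ Z) {k : ℕ → ℕ} (hk : Tendsto k atTop (L x)) :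
    ¬ Tendsto (fun n => pt Z (k n)) atTop (𝓝 (oo Z)) := by
  intro h
  have h1 := tendsto_nhds.1 h _
    (open_ins (A := (range k)ᶜ) fun y hy => seq_compl (fun e : y = x => hy (e ▸ hx)) hk) (Or.inl rfl)
  obtain ⟨n, hn⟩ := (show ∀ᶠ n in atTop, _ from h1).exists
  exact mem_ins.1 hn ⟨n, rfl⟩

instance : FrechetUrysohnSpace (T Z) := ⟨fun s t ht => by
  by_cases hs : t ∈ s
  · exact subset_seqClosure hs
  rcases cases_T t with rfl | ⟨k, rfl⟩
  · have h1 : ¬ IsOpen sᶜ := fun h => by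
      obtain ⟨y, h1, h2⟩ := mem_closure_iff.1 ht _ h hs
      exact h1 h2
    rw [open_iff] at h1
    push Not at h1
    obtain ⟨-, x, hx, h2⟩ := h1
    have h3 : ∃ᶠ k in L x, pt Z k ∈ s := h2
    obtain ⟨k, k1, k2⟩ := exists_seq_forall_of_frequently h3
    exact ⟨fun n => pt Z (k n), k2, tend_of hx k1⟩
  · obtain ⟨y, h1, h2⟩ := mem_closure_iff.1 ht {pt Z k} (open_of_not fun h => pt_ne k h.symm) rfl
    exact absurd (h1 ▸ h2) hs⟩

lemma fin_out {K W : Set (T Z)} (hK : IsCompact K) (hW : IsOpen W) (h : oo Z ∈ W) :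
    (K \ W).Finite := by
  refine (hK.diff hW).finite (isDiscrete_iff_forall_mem_exists_isOpen.2 fun t ht => ?_)
  exact ⟨{t}, open_of_not fun e => ht.2 (e ▸ h), inter_eq_left.2 (singleton_subset_iff.2 ht)⟩

/-- index set of the k-network -/
abbrev J : Type := Option ℕ ⊕ (ℕ × countableBasis Cn)

def N (Z : Set Cn) : J → Set (T Z)
  | .inl t => {t}
  | .inr q => pt Z '' {k | q.1 ≤ k ∧ p k ∈ q.2.1}

lemma knet (K U : Set (T Z)) (hK : IsCompact K) (hU : IsOpen U) (KU : K ⊆ U) :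
    ∃ s : Set J, s.Finite ∧ K ⊆ ⋃ j ∈ s, N Z j ∧ ∀ j ∈ s, N Z j ⊆ U := by
  have fin : ∀ A : Set (T Z), A.Finite → A ⊆ U →
      ∃ s : Set J, s.Finite ∧ A ⊆ ⋃ j ∈ s, N Z j ∧ ∀ j ∈ s, N Z j ⊆ U := by
    intro A hA AU
    refine ⟨Sum.inl '' A, hA.image _, fun t ht => mem_iUnion₂.2 ⟨.inl t, ⟨t, ht, rfl⟩, rfl⟩, ?_⟩
    rintro _ ⟨t, ht, rfl⟩
    exact singleton_subset_iff.2 (AU ht)
  by_cases h0 : oo Z ∈ K
  swap
  · refine fin K (hK.finite (isDiscrete_iff_forall_mem_exists_isOpen.2 fun t ht => ?_)) KU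
    exact ⟨{t}, open_of_not fun e => h0 (e ▸ ht), inter_eq_left.2 (singleton_subset_iff.2 ht)⟩
  have h1 : ∀ x : Cn, ∃ q : ℕ × countableBasis Cn, x ∈ q.2.1 ∧
      (N Z (.inr q) ⊆ U ∨ Disjoint (N Z (.inr q)) K) := by
    intro x
    have h2 : {k | pt Z k ∈ U} ∈ L x ∨ {k | pt Z k ∉ K} ∈ L x := by
      by_cases hx : x ∈ Z
      · refine Or.inr ?_
        by_contra h
        have h3 : ∃ᶠ k in L x, pt Z k ∈ K := by
          simpa [Filter.Frequently, Filter.Eventually] using h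
        obtain ⟨k, k1, k2⟩ := exists_seq_forall_of_frequently h3
        have h4 := fin_out hK (open_ins (A := (range k)ᶜ)
          fun y hy => seq_compl (fun e : y = x => hy (e ▸ hx)) k1) (Or.inl rfl)
        have h5 : (range k).Finite := by
          refine (h4.preimage pt_inj.injOn).subset ?_
          rintro _ ⟨n, rfl⟩
          exact ⟨k2 n, fun h => mem_ins.1 h ⟨n, rfl⟩⟩
        obtain ⟨b, hb⟩ := h5.bddAbove
        obtain ⟨n, hn⟩ := ((k1.mono_right inf_le_left).eventually (eventually_gt_atTop b)).exists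
        exact absurd (hb ⟨n, rfl⟩) (not_le.2 hn)
      · exact Or.inl (open_iff.1 hU (KU h0) x hx)
    have h6 : ∀ A ∈ L x, ∃ q : ℕ × countableBasis Cn, x ∈ q.2.1 ∧
        {k | q.1 ≤ k ∧ p k ∈ q.2.1} ⊆ A := by
      intro A hA
      obtain ⟨n, V, Vo, xV, h⟩ := L_mem.1 hA
      obtain ⟨B, B1, B2, B3⟩ := (isBasis_countableBasis Cn).exists_subset_of_mem_open xV Vo
      exact ⟨⟨n, B, B1⟩, B2, fun k hk => h k hk.1 (B3 hk.2)⟩
    rcases h2 with h2 | h2
    · obtain ⟨q, q1, q2⟩ := h6 _ h2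
      exact ⟨q, q1, Or.inl (by rintro _ ⟨k, hk, rfl⟩; exact q2 hk)⟩
    · obtain ⟨q, q1, q2⟩ := h6 _ h2
      exact ⟨q, q1, Or.inr (disjoint_left.2 (by rintro _ ⟨k, hk, rfl⟩; exact q2 hk))⟩
  choose q q1 q2 using h1
  obtain ⟨t, ht⟩ := isCompact_univ.elim_finite_subcover (fun x => (q x).2.1)
    (fun x => isOpen_of_mem_countableBasis (q x).2.2) fun x _ => mem_iUnion.2 ⟨x, q1 x⟩
  obtain ⟨b, hb⟩ := (t.finite_toSet.image fun x => (q x).1).bddAbove
  obtain ⟨s, s1, s2, s3⟩ := fin (K ∩ insert (oo Z) (pt Z '' Iio b))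
    ((((finite_Iio b).image _).insert _).inter_of_right _) (inter_subset_left.trans KU)
  refine ⟨s ∪ (fun x => .inr (q x)) '' {x | x ∈ t ∧ N Z (.inr (q x)) ⊆ U},
    s1.union ((t.finite_toSet.subset fun x hx => hx.1).image _), fun y hy => ?_, ?_⟩
  · rw [biUnion_union]
    rcases cases_T y with rfl | ⟨k, rfl⟩
    · exact Or.inl (s2 ⟨hy, Or.inl rfl⟩)
    · rcases lt_or_ge k b with hk | hk
      · exact Or.inl (s2 ⟨hy, mem_ins.2 hk⟩)
      · obtain ⟨x, hx, hkx⟩ := mem_iUnion₂.1 (ht (mem_univ (p k)))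
        have h7 : pt Z k ∈ N Z (.inr (q x)) := ⟨k, ⟨(hb ⟨x, hx, rfl⟩).trans hk, hkx⟩, rfl⟩
        rcases q2 x with h | h
        · exact Or.inr (mem_iUnion₂.2 ⟨_, ⟨x, ⟨hx, h⟩, rfl⟩, h7⟩)
        · exact absurd hy (disjoint_left.1 h h7)
  · rintro j (hj | ⟨x, hx, rfl⟩)
    · exact s3 j hj
    · exact hx.2

/-- no injection of the power set of the Cantor set into double real sequences -/
lemma no_inj (j : Set Cn → ℕ → ℕ → ℝ) : ¬ Function.Injective j := by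
  intro h
  have := Cardinal.mk_le_of_injective h
  simp [Cardinal.mk_real] at this
  exact absurd this (not_le.2 (Cardinal.cantor _))

lemma inj_C (Z0 : Type*) [TopologicalSpace Z0] [SeparableSpace Z0] :
    ∃ j : C(Z0, ℝ) → ℕ → ℝ, Function.Injective j := by
  rcases isEmpty_or_nonempty Z0 with h | h
  · exact ⟨fun _ => 0, fun f g _ => ContinuousMap.ext fun x => (IsEmpty.false x).elim⟩
  · refine ⟨fun f n => f (denseSeq Z0 n), fun f g e => ContinuousMap.ext ?_⟩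
    exact congrFun ((denseRange_denseSeq Z0).equalizer f.continuous g.continuous e)

theorem no_emb (Z0 : Type*) [TopologicalSpace Z0] [SeparableSpace Z0] (Y : Type*)
    [TopologicalSpace Y] [MetrizableSpace Y] (e : ∀ Z : Set Cn, T Z → C(Z0, Y))
    (he : ∀ Z, IsInducing (e Z)) : False := by
  let := metrizableSpaceMetric Y
  obtain ⟨j, hj⟩ := inj_C Z0
  let D : Set Cn → ℕ → C(Z0, ℝ) := fun Z k =>
    ⟨fun z => dist (e Z (oo Z) z) (e Z (pt Z k) z), by fun_prop⟩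
  have key : ∀ Z (k : ℕ → ℕ), Tendsto (fun n => pt Z (k n)) atTop (𝓝 (oo Z)) ↔
      ∀ K, IsCompact K → ∀ ε > 0, ∀ᶠ n in atTop, ∀ z ∈ K, D Z (k n) z < ε := by
    intro Z k
    rw [(he Z).tendsto_nhds_iff, ContinuousMap.tendsto_iff_forall_isCompact_tendstoUniformlyOn]
    simp only [Metric.tendstoUniformlyOn_iff]
    rfl
  refine no_inj (fun Z k => j (D Z k)) fun Z Z' h => ?_
  have hD : D Z = D Z' := funext fun k => hj (congrFun h k)
  ext x
  have := L_ne x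
  obtain ⟨k, hk⟩ := (L x).exists_seq_tendsto
  have h1 := key Z k
  rw [hD, ← key Z' k] at h1
  constructor
  · intro hx; by_contra hx'; exact not_tend hx hk (h1.2 (tend_of hx' hk))
  · intro hx; by_contra hx'; exact not_tend hx hk (h1.1 (tend_of hx' hk))

theorem ascoli (X : Type*) [TopologicalSpace X] [T2Space X] [SequentialSpace X]
    (𝒦 : Set C(X, ℝ)) (h : IsCompact 𝒦) : Continuous fun p : 𝒦 × X => (p.1 : C(X, ℝ)) p.2 := by
  have := isCompact_iff_compactSpace.1 h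
  let F : X → C(𝒦, ℝ) := fun x => ⟨fun g => (g : C(X, ℝ)) x, by fun_prop⟩
  have hF : Continuous F := by
    refine SeqContinuous.continuous fun u x hu => ?_
    have hK := hu.isCompact_insert_range
    have := isCompact_iff_compactSpace.1 hK
    have h1 : Continuous fun y : ↥(insert x (range u)) => F y := by
      refine ContinuousMap.continuous_of_continuous_uncurry _ ?_
      exact (continuous_eval (F := C(↥(insert x (range u)), ℝ))).comp
        ((((ContinuousMap.continuous_restrict _).comp continuous_subtype_val).comp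
          continuous_snd).prodMk continuous_fst)
    have h2 : ContinuousOn F (insert x (range u)) := continuousOn_iff_continuous_domRestrict.2 h1
    exact (h2 x (Or.inl rfl)).tendsto.comp (tendsto_nhdsWithin_iff.2
      ⟨hu, Eventually.of_forall fun n => Or.inr ⟨n, rfl⟩⟩)
  exact (ContinuousMap.continuous_uncurry_of_continuous ⟨F, hF⟩).comp continuous_swap

end Pool.Agent.H17.Tz
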