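import Mathlib
import Pool.Agent.H17.W1

set_option autoImplicit false

namespace Pool.Agent.H17.UConv
open Set Topology Filter TopologicalSpace

abbrev C : Type := ℕ → Bool
abbrev Y : Type := C → Bool

instance : Uncountable C := by
  obtain ⟨e, he⟩ := W1.inj_cantor
  exact he.uncountable

theorem exists_dense : ∃ d : ℕ → Y, DenseRange d := by
  classical
  have : Countable (Clopens C) := Clopens.countable_iff_secondCountable.2 inferInstance
  have h : Dense (range fun U : Clopens C => (U : Set C).boolIndicator) := by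
    refine dense_iff_inter_open.2 fun O hO ⟨y, hy⟩ => ?_
    obtain ⟨I, u, h1, h2⟩ := isOpen_pi_iff.1 hO y hy
    obtain ⟨U, hU, h3, h4⟩ := exists_clopen_of_closed_subset_open
      (Z := {x ∈ (I : Set C) | y x = true}) (U := {x ∈ (I : Set C) | y x = false}ᶜ)
      (I.finite_toSet.subset (sep_subset _ _)).isClosed
      (I.finite_toSet.subset (sep_subset _ _)).isClosed.isOpen_compl
      fun x hx hx' => by simpa [hx.2] using hx'.2
    refine ⟨_, h2 fun x hx => ?_, ⟨U, hU⟩, rfl⟩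
    have : U.boolIndicator x = y x := by
      cases h : y x
      · exact (U.notMem_iff_boolIndicator x).1 fun h' => h4 h' ⟨hx, h⟩
      · exact (U.mem_iff_boolIndicator x).1 (h3 ⟨hx, h⟩)
    show U.boolIndicator x ∈ u x
    exact this ▸ (h1 x hx).2
  have : SeparableSpace Y := ⟨_, countable_range _, h⟩
  exact exists_dense_seq Y

open Classical in
noncomputable def flip (x : C) : Y ≃ₜ Y where
  toFun y := fun z => if z = x then !y z else y z
  invFun y := fun z => if z = x then !y z else y z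
  left_inv y := by ext z; by_cases h : z = x <;> simp [h]
  right_inv y := by ext z; by_cases h : z = x <;> simp [h]
  continuous_toFun := continuous_pi fun z => by
    by_cases h : z = x <;> simp only [h, if_true, if_false]
    · exact (continuous_of_discreteTopology (f := fun b : Bool => !b)).comp (continuous_apply x)
    · exact continuous_apply z
  continuous_invFun := continuous_pi fun z => by
    by_cases h : z = x <;> simp only [h, if_true, if_false]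
    · exact (continuous_of_discreteTopology (f := fun b : Bool => !b)).comp (continuous_apply x)
    · exact continuous_apply z

instance (y : Y) : (𝓝[≠] y).NeBot := ⟨fun h => by
  obtain ⟨I, u, h1, h2⟩ := isOpen_pi_iff.1 ((isOpen_singleton_iff_punctured_nhds y).2 h) y rfl
  obtain ⟨x, hx⟩ := Infinite.exists_notMem_finset I
  have := congrFun (h2 (show flip x y ∈ _ from fun z hz => by
    have : z ≠ x := fun e => hx (e ▸ hz)
    simpa [flip, this] using (h1 z hz).2)) x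
  simp [flip] at this⟩

theorem bock {G H : Set Y} (hG : IsOpen G) (hH : IsOpen H) (h : Disjoint G H) :
    {x | ¬ Disjoint G (flip x ⁻¹' H)}.Countable := by
  obtain ⟨d, hd⟩ := exists_dense
  have h1 : ∀ n, ∃ I : Finset C, d n ∈ G → ∀ y, (∀ z ∈ I, y z = d n z) → y ∈ G := fun n => by
    by_cases hn : d n ∈ G
    · obtain ⟨I, u, h1, h2⟩ := isOpen_pi_iff.1 hG _ hn
      exact ⟨I, fun _ y hy => h2 fun z hz => hy z hz ▸ (h1 z hz).2⟩
    · exact ⟨∅, fun h => (hn h).elim⟩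
  choose I hI using h1
  refine (countable_iUnion fun n => (I n).countable_toSet).mono fun x hx => ?_
  obtain ⟨n, h2, h3⟩ := hd.exists_mem_open (hG.inter (hH.preimage (flip x).continuous))
    (not_disjoint_iff_nonempty_inter.1 hx)
  by_contra hn
  refine Set.disjoint_left.1 h (hI n h2 (flip x (d n)) fun z hz => ?_) h3
  have : z ≠ x := fun e => hn (mem_iUnion.2 ⟨n, e ▸ hz⟩)
  simp [flip, this]

theorem hom : ∃ G : Set ℕ → Set Y, (∀ B, IsOpen (G B)) ∧ (∀ B B', B ⊆ B' → G B ⊆ G B') ∧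
    (∀ B B', G B ∩ G B' ⊆ G (B ∩ B')) ∧ (∀ B, B.Finite → G B = ∅) ∧ (∀ B, Dense (G B ∪ G Bᶜ)) ∧
    ∀ O, IsOpen O → ∃ B, O ⊆ G B ∧ interior Oᶜ ⊆ G Bᶜ := by
  obtain ⟨d, hd⟩ := exists_dense
  obtain ⟨𝒜, -, ⟨h1, h2, h3⟩, hm⟩ := zorn_subset_nonempty
    {𝒜 : Set (Set ℕ) | (∀ A ∈ 𝒜, Dense (d '' A)) ∧ (∀ A ∈ 𝒜, ∀ B ∈ 𝒜, A ∩ B ∈ 𝒜) ∧ univ ∈ 𝒜}
    (fun c hc hch ⟨a, ha⟩ => ⟨⋃₀ c, ⟨fun A ⟨s, hs, h⟩ => (hc hs).1 A h,
      fun A ⟨s, hs, h⟩ B ⟨t, ht, h'⟩ => (hch.total hs ht).elim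
        (fun e => ⟨t, ht, (hc ht).2.1 A (e h) B h'⟩) fun e => ⟨s, hs, (hc hs).2.1 A h B (e h')⟩,
      a, ha, (hc ha).2.2⟩, fun s hs => subset_sUnion_of_mem hs⟩) {univ}
    ⟨by rintro _ rfl; rwa [image_univ], by simp, rfl⟩
  refine ⟨fun B => {y | ∃ O, IsOpen O ∧ y ∈ O ∧ ∃ A ∈ 𝒜, A ∩ d ⁻¹' O ⊆ B},
    fun B => isOpen_iff_forall_mem_open.2 fun y ⟨O, a, b, c⟩ => ⟨O, fun z hz => ⟨O, a, hz, c⟩, a, b⟩,
    fun B B' h y ⟨O, a, b, A, c, e⟩ => ⟨O, a, b, A, c, e.trans h⟩,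
    fun B B' y ⟨⟨O, a, b, A, c, e⟩, O', a', b', A', c', e'⟩ => ⟨O ∩ O', a.inter a', ⟨b, b'⟩, A ∩ A',
      h2 _ c _ c', fun n hn => ⟨e ⟨hn.1.1, hn.2.1⟩, e' ⟨hn.1.2, hn.2.2⟩⟩⟩,
    fun B hB => eq_empty_of_forall_notMem fun y ⟨O, a, b, A, c, e⟩ => ?_,
    fun B => dense_iff_inter_open.2 fun O hO ⟨y, hy⟩ => ?_,
    fun O hO => ⟨d ⁻¹' O, fun y hy => ⟨O, hO, hy, univ, h3, inter_subset_right⟩,
      fun y hy => ⟨_, isOpen_interior, hy, univ, h3, fun n hn => interior_subset (s := Oᶜ) hn.2⟩⟩⟩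
  · obtain ⟨_, ⟨h4, h5⟩, n, hn, rfl⟩ := (h1 A c).inter_open_nonempty (O ∩ (d '' B)ᶜ)
      (a.inter (hB.image d).isClosed.isOpen_compl)
      ((Dense.sdiff_finite dense_univ (hB.image d)).inter_open_nonempty O a ⟨y, b⟩ |>.mono
        fun z hz => ⟨hz.1, hz.2.2⟩)
    exact h5 ⟨n, e ⟨hn, h4⟩, rfl⟩
  · by_cases h : ∀ A ∈ 𝒜, Dense (d '' (A ∩ (B ∪ (d ⁻¹' O)ᶜ)))
    · have h4 := hm (y := 𝒜 ∪ (· ∩ (B ∪ (d ⁻¹' O)ᶜ)) '' 𝒜) ⟨?_, ?_, Or.inl h3⟩ subset_union_left
        (Or.inr ⟨univ, h3, rfl⟩)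
      · exact ⟨y, hy, Or.inl ⟨O, hO, hy, _, h4, fun n hn => hn.1.2.resolve_right fun h => h hn.2⟩⟩
      · rintro _ (hA | ⟨A, hA, rfl⟩)
        exacts [h1 _ hA, h _ hA]
      · rintro A (hA | ⟨A, hA, rfl⟩) A' (hA' | ⟨A', hA', rfl⟩)
        · exact Or.inl (h2 _ hA _ hA')
        · exact Or.inr ⟨_, h2 _ hA _ hA', inter_assoc _ _ _⟩
        · exact Or.inr ⟨_, h2 _ hA _ hA', inter_right_comm _ _ _⟩
        · exact Or.inr ⟨_, h2 _ hA _ hA', inter_inter_distrib_right _ _ _⟩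
    · simp only [dense_iff_inter_open, not_forall, exists_prop] at h
      obtain ⟨A, hA, O', h4, h5, h6⟩ := h
      obtain ⟨_, h7, n, hn, rfl⟩ := (h1 A hA).inter_open_nonempty O' h4 h5
      refine ⟨d n, ?_, Or.inr ⟨O', h4, h7, A, hA, fun m hm hB => h6 ⟨_, hm.2, m, ⟨hm.1, Or.inl hB⟩, rfl⟩⟩⟩
      by_contra h8
      exact h6 ⟨_, h7, n, ⟨hn, Or.inr h8⟩, rfl⟩

/-- An uncountable family of free ultrafilters on `ℕ` converging to `p` along co-countable sets. -/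
theorem conv : ∃ (p : Ultrafilter ℕ) (q : C → Ultrafilter ℕ), Function.Injective q ∧
    (∀ x, q x ≠ p) ∧ (p : Filter ℕ) ≤ cofinite ∧ (∀ x, (q x : Filter ℕ) ≤ cofinite) ∧
    ∀ B ∈ p, {x | B ∉ q x}.Countable := by
  obtain ⟨G, h1, h2, h3, h4, h5, h6⟩ := hom
  have hd : ∀ B, Disjoint (G B) (G Bᶜ) := fun B => Set.disjoint_left.2 fun y a b => by
    have := h3 _ _ ⟨a, b⟩
    rw [inter_compl_self, h4 _ finite_empty] at this
    exact this
  have h7 : ∀ v : Ultrafilter Y, (∀ O, IsOpen O → Dense O → O ∈ v) →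
      ∃ p : Ultrafilter ℕ, ∀ B, B ∈ p ↔ G B ∈ v := fun v hv => by
    have h8 : ∀ B, G Bᶜ ∉ v ↔ G B ∈ v := fun B => ⟨fun h => (Ultrafilter.union_mem_iff.1
      (hv _ ((h1 _).union (h1 _)) (h5 B))).resolve_right h, fun a b =>
        v.neBot.ne (empty_mem_iff_bot.1 ((hd B).inter_eq ▸ inter_mem a b))⟩
    refine ⟨Ultrafilter.ofComplNotMemIff ⟨{B | G B ∈ v}, ?_, fun a b => mem_of_superset a (h2 _ _ b),
      fun a b => mem_of_superset (inter_mem a b) (h3 _ _)⟩ h8, fun B => Iff.rfl⟩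
    refine (h8 univ).1 ?_
    rw [compl_univ, h4 _ finite_empty]
    exact v.empty_notMem
  have : (𝓝 (fun _ => false : Y) ⊓ residual Y).NeBot := inf_neBot_iff.2 fun s hs t ht =>
    (dense_of_mem_residual ht).inter_nhds_nonempty hs |>.mono fun _ h => ⟨h.2, h.1⟩
  obtain ⟨v, hv⟩ := Ultrafilter.exists_le (𝓝 (fun _ => false : Y) ⊓ residual Y)
  have hv1 : ∀ O, IsOpen O → Dense O → O ∈ v := fun O a b =>
    (hv.trans inf_le_right) (residual_of_dense_open a b)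
  obtain ⟨p, hp⟩ := h7 v hv1
  choose q hq using fun x => h7 (v.map (flip x)) fun O a b =>
    hv1 _ (a.preimage (flip x).continuous) (b.preimage (flip x).isOpenMap)
  have ho : ∀ x b, IsOpen {y : Y | y x = b} := fun x b =>
    (isOpen_discrete {b}).preimage (f := fun y : Y => y x) (continuous_apply x)
  choose B h8 h9 using fun x => h6 _ (ho x true)
  have h10 : ∀ x, {y : Y | y x = false} ⊆ G (B x)ᶜ := fun x =>
    (interior_maximal (fun y hy => by simpa using hy) (ho x false)).trans (h9 x)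
  have h11 : ∀ x, {y : Y | y x = false} ∈ v := fun x => (hv.trans inf_le_left) ((ho x _).mem_nhds rfl)
  have h12 : ∀ x, B x ∈ q x := fun x => (hq x _).2 (show flip x ⁻¹' _ ∈ v from
    mem_of_superset (h11 x) fun y hy => h8 x (by simpa [flip] using hy))
  refine ⟨p, q, fun x z e => ?_, fun x e => ?_, fun A hA => ?_, fun x A hA => ?_, fun A hA => ?_⟩
  · by_contra hn
    refine Ultrafilter.compl_mem_iff_notMem.1 ((hq z _).2 (show flip z ⁻¹' _ ∈ v from
      mem_of_superset (h11 x) fun y hy => h10 x ?_)) (e ▸ h12 x)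
    simpa [flip, hn] using hy
  · exact Ultrafilter.compl_mem_iff_notMem.1 ((hp _).2 (mem_of_superset (h11 x) (h10 x))) (e ▸ h12 x)
  · refine Ultrafilter.compl_notMem_iff.1 fun h => ?_
    rw [hp, h4 _ hA] at h
    exact v.empty_notMem h
  · refine Ultrafilter.compl_notMem_iff.1 fun h => ?_
    rw [hq, h4 _ hA] at h
    exact Ultrafilter.empty_notMem h
  · refine (bock (h1 _) (h1 _) (hd A)).mono ?_
    intro x hx h
    exact v.neBot.ne (empty_mem_iff_bot.1 (h.inter_eq ▸ inter_mem ((hp A).1 hA)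
      ((hq x _).1 (Ultrafilter.compl_mem_iff_notMem.2 hx))))

theorem gam {X α : Type} [Nonempty X] [Inhabited α] (bad : α → Set X) (hb : ∀ a, (bad a).Countable)
    (P : ℕ → Finset X → α → Prop) (h : ∀ n F, ∃ a, P n F a) : ∃ (s : ℕ → α) (F : ℕ → Finset X),
      (∀ n, P n (F n) (s n)) ∧ ∀ i, ∀ x ∈ bad (s i), ∀ᶠ n in atTop, x ∈ F n := by
  classical
  choose e he using fun a => countable_iff_exists_subset_range.1 (hb a)
  choose c hc using h
  obtain ⟨s, hs⟩ := W1.rec_seq (fun s n => c n ((Finset.range n).biUnion fun i =>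
    (Finset.range n).image (e (s i)))) fun f g n h => by
      rw [Finset.biUnion_congr rfl fun i hi => by rw [h i (Finset.mem_range.1 hi)]]
  refine ⟨s, _, fun n => hs n ▸ hc n _, fun i x hx => ?_⟩
  obtain ⟨k, rfl⟩ := he _ hx
  filter_upwards [eventually_gt_atTop i, eventually_gt_atTop k] with n h1 h2
  exact Finset.mem_biUnion.2 ⟨i, Finset.mem_range.2 h1,
    Finset.mem_image_of_mem _ (Finset.mem_range.2 h2)⟩

def Psi {M Z : Type} (_φ : Z → Filter M) : Type := M ⊕ Z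

variable {M Z : Type} {φ : Z → Filter M}

instance : TopologicalSpace (Psi φ) where
  IsOpen U := ∀ z, Sum.inr z ∈ U → {m | Sum.inl m ∈ U} ∈ φ z
  isOpen_univ := fun _ _ => univ_mem
  isOpen_inter := fun _ _ a b z h => inter_mem (a z h.1) (b z h.2)
  isOpen_sUnion := fun _ h z ⟨U, a, b⟩ => mem_of_superset (h U a z b) fun _ hm => ⟨U, a, hm⟩

theorem op_inl (A : Set M) : IsOpen (show Set (Psi φ) from Sum.inl '' A) := fun z h => by
  obtain ⟨_, -, h⟩ := h
  cases h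

theorem op_nb {z : Z} {A : Set M} (h : A ∈ φ z) :
    IsOpen (show Set (Psi φ) from insert (Sum.inr z) (Sum.inl '' A)) := fun z' h' => by
  obtain h' | ⟨_, -, h'⟩ := h' <;> cases h'
  exact mem_of_superset h fun m hm => Or.inr ⟨m, hm, rfl⟩

theorem t2 (h1 : ∀ z, φ z ≤ cofinite) (h2 : ∀ z z', z ≠ z' → Disjoint (φ z) (φ z')) :
    T2Space (Psi φ) := by
  have key : ∀ (m : M) (z : Z), ∃ u v : Set (Psi φ), IsOpen u ∧ IsOpen v ∧ Sum.inl m ∈ u ∧
      Sum.inr z ∈ v ∧ Disjoint u v := fun m z =>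
    ⟨_, _, op_inl {m}, op_nb (h1 z (finite_singleton m).compl_mem_cofinite), ⟨m, rfl, rfl⟩,
      Or.inl rfl, Set.disjoint_left.2 (by
        rintro _ ⟨_, rfl, rfl⟩ (h | ⟨_, h, h'⟩)
        · cases h
        · cases h'; exact h rfl)⟩
  refine ⟨?_⟩
  rintro (m | z) (m' | z') hne
  · exact ⟨_, _, op_inl {m}, op_inl {m'}, ⟨m, rfl, rfl⟩, ⟨m', rfl, rfl⟩, Set.disjoint_left.2 (by
      rintro _ ⟨_, rfl, rfl⟩ ⟨_, rfl, h⟩; exact hne h.symm)⟩
  · exact key m z'
  · obtain ⟨u, v, a, b, c, d, e⟩ := key m' z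
    exact ⟨v, u, b, a, d, c, e.symm⟩
  · obtain ⟨A, hA, B, hB, h⟩ := Filter.disjoint_iff.1 (h2 z z' fun e => hne (e ▸ rfl))
    refine ⟨_, _, op_nb hA, op_nb hB, Or.inl rfl, Or.inl rfl, Set.disjoint_left.2 ?_⟩
    rintro _ (rfl | ⟨m, hm, rfl⟩) (h' | ⟨m', hm', h'⟩)
    · exact hne h'
    · cases h'
    · cases h'
    · cases h'
      exact Set.disjoint_left.1 h hm hm'

theorem hit [∀ z, (φ z).NeBot] {W : Set (Psi φ)} (hW : IsOpen W) (h : W.Nonempty) :
    ∃ m, Sum.inl m ∈ W := by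
  obtain ⟨m | z, h⟩ := h
  exacts [⟨m, h⟩, Filter.nonempty_of_mem (hW z h)]

end Pool.Agent.H17.UConv
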