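import Mathlib

set_option autoImplicit false
open Set Topology Filter
open scoped NNReal

namespace Pool.Agent.H17.Ub

variable {N : ℕ}

/-- at most `k` coordinates exceed `ε` in absolute value -/
def Sm (k : ℕ) (ε : ℝ) (x : Fin N → ℝ) : Prop :=
  (Finset.univ.filter fun p => ε < |x p|).card ≤ k

theorem Sm.mono {k k' : ℕ} {ε : ℝ} {x : Fin N → ℝ} (h : Sm k ε x) (hk : k ≤ k') : Sm k' ε x :=
  le_trans h hk

theorem Sm.of_sub {k : ℕ} {ε ε' : ℝ} {x y : Fin N → ℝ} (h : Sm k ε x)
    (hk : ∀ p, ε' < |y p| → ε < |x p|) : Sm k ε' y :=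
  le_trans (Finset.card_le_card fun p hp => by
    simp only [Finset.mem_filter, Finset.mem_univ, true_and] at hp ⊢
    exact hk p hp) h

theorem Sm.sub {k k' : ℕ} {x y : Fin N → ℝ} (h : Sm k 0 x) (h' : Sm k' 0 y) :
    Sm (k + k') 0 (x - y) := by
  classical
  refine le_trans (Finset.card_le_card (t := (Finset.univ.filter fun p => 0 < |x p|) ∪
    (Finset.univ.filter fun p => 0 < |y p|)) fun p hp => ?_)
    ((Finset.card_union_le _ _).trans (add_le_add h h'))
  simp only [Finset.mem_filter, Finset.mem_univ, true_and, Finset.mem_union, abs_pos,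
    Pi.sub_apply] at hp ⊢
  by_contra hc
  push Not at hc
  exact hp (by rw [hc.1, hc.2, sub_zero])

def Lip {α β : Type} [PseudoEMetricSpace α] [PseudoEMetricSpace β] (f : α → β) : Prop :=
  ∃ L : ℝ≥0, LipschitzWith L f

theorem Lip.comp {α β γ : Type} [PseudoEMetricSpace α] [PseudoEMetricSpace β]
    [PseudoEMetricSpace γ] {f : β → γ} {g : α → β} (hf : Lip f) (hg : Lip g) :
    Lip fun x => f (g x) := by
  obtain ⟨L, h⟩ := hf
  obtain ⟨L', h'⟩ := hg
  exact ⟨_, h.comp h'⟩

theorem lip_pi {α : Type} [PseudoMetricSpace α] {f : α → Fin N → ℝ}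
    (h : ∀ j, Lip fun x => f x j) : Lip f := by
  choose L hL using h
  refine ⟨Finset.univ.sup L, LipschitzWith.of_dist_le_mul fun x y => ?_⟩
  refine (dist_pi_le_iff (by positivity)).2 fun j => ((hL j).dist_le_mul x y).trans ?_
  have : L j ≤ Finset.univ.sup L := Finset.le_sup (Finset.mem_univ j)
  gcongr

theorem Lip.eval {α : Type} [PseudoMetricSpace α] {f : α → Fin N → ℝ} (h : Lip f) (j : Fin N) :
    Lip fun x => f x j :=
  Lip.comp (f := fun z : Fin N → ℝ => z j) ⟨1, LipschitzWith.eval j⟩ h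

theorem lip_lin (T : (Fin N → ℝ) →ₗ[ℝ] (Fin N → ℝ)) : Lip T :=
  ⟨_, (LinearMap.toContinuousLinearMap T).lipschitz⟩

/-- the Vandermonde operator -/
noncomputable def A : (Fin N → ℝ) →ₗ[ℝ] (Fin N → ℝ) where
  toFun x j := ∑ p : Fin N, ((p : ℕ) : ℝ) ^ (j : ℕ) * x p
  map_add' x y := by
    funext j; simp only [Pi.add_apply, mul_add, Finset.sum_add_distrib]
  map_smul' r x := by
    funext j
    simp only [Pi.smul_apply, smul_eq_mul, RingHom.id_apply, Finset.mul_sum]
    exact Finset.sum_congr rfl fun p _ => by ring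

theorem vand {d : ℕ} {x : Fin N → ℝ} (hx : Sm d 0 x)
    (h : ∀ j : Fin N, (j : ℕ) < d → A x j = 0) : x = 0 := by
  classical
  funext p
  by_contra hp
  set S := Finset.univ.filter fun p => 0 < |x p| with hS
  have hpS : p ∈ S := by simpa [hS] using hp
  set q : Polynomial ℝ := ∏ s ∈ S.erase p, (Polynomial.X - Polynomial.C ((s : ℕ) : ℝ)) with hq
  have hdeg : q.natDegree = (S.erase p).card := by
    rw [hq, Polynomial.natDegree_finsetProd_X_sub_C_eq_card]
  have hc : (S.erase p).card < S.card := Finset.card_erase_lt_of_mem hpS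
  have hN : S.card ≤ N := by simpa using Finset.card_le_univ S
  have hd : S.card ≤ d := hx
  have e1 : ∑ r : Fin N, q.eval ((r : ℕ) : ℝ) * x r = 0 := by
    simp only [Polynomial.eval_eq_sum_range, Finset.sum_mul]
    rw [Finset.sum_comm]
    refine Finset.sum_eq_zero fun j hj => ?_
    have hj' : j < S.card := by have := Finset.mem_range.1 hj; omega
    have := h ⟨j, by omega⟩ (by simp only; omega)
    have e : ∑ r : Fin N, q.coeff j * ((r : ℕ) : ℝ) ^ j * x r
        = q.coeff j * A x ⟨j, by omega⟩ := by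
      simp only [A, LinearMap.coe_mk, AddHom.coe_mk, Finset.mul_sum]
      exact Finset.sum_congr rfl fun r _ => by ring
    rw [e, this, mul_zero]
  rw [Finset.sum_eq_single p] at e1
  · rcases mul_eq_zero.1 e1 with e | e
    · rw [hq, Polynomial.eval_prod, Finset.prod_eq_zero_iff] at e
      obtain ⟨s, hs, e⟩ := e
      simp only [Polynomial.eval_sub, Polynomial.eval_X, Polynomial.eval_C, sub_eq_zero,
        Nat.cast_inj] at e
      exact (Finset.mem_erase.1 hs).1 (Fin.ext e.symm)
    · exact hp e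
  · intro r _ hr
    by_cases hrS : r ∈ S
    · rw [hq, Polynomial.eval_prod,
        Finset.prod_eq_zero (Finset.mem_erase.2 ⟨hr, hrS⟩) (by simp), zero_mul]
    · have : x r = 0 := by simpa [hS] using hrS
      rw [this, mul_zero]
  · simp

/-- projection onto the first `d` coordinates -/
def P (d : ℕ) : (Fin N → ℝ) →ₗ[ℝ] (Fin N → ℝ) where
  toFun y j := if (j : ℕ) < d then y j else 0
  map_add' x y := by funext j; simp only [Pi.add_apply]; split_ifs <;> simp
  map_smul' r x := by
    funext j; simp only [Pi.smul_apply, smul_eq_mul, RingHom.id_apply]; split_ifs <;> simp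

theorem P_apply (d : ℕ) (y : Fin N → ℝ) (j : Fin N) :
    P d y j = if (j : ℕ) < d then y j else 0 := rfl

theorem antilip (d : ℕ) : ∃ K : ℝ≥0, ∀ x : Fin N → ℝ, Sm d 0 x → ‖x‖ ≤ K * ‖P d (A x)‖ := by
  classical
  have h : ∀ S : Finset (Fin N), ∃ K : ℝ≥0, S.card ≤ d → ∀ x : Fin N → ℝ,
      (∀ p ∉ S, x p = 0) → ‖x‖ ≤ K * ‖P d (A x)‖ := by
    intro S
    by_cases hS : S.card ≤ d
    swap
    · exact ⟨0, fun h => absurd h hS⟩
    let Q : (Fin N → ℝ) →ₗ[ℝ] (Fin N → ℝ) :=
      LinearMap.pi fun p => if p ∈ S then 0 else LinearMap.proj p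
    have hQ : ∀ x p, Q x p = if p ∈ S then 0 else x p := by
      intro x p; simp only [Q, LinearMap.pi_apply]; split_ifs <;> rfl
    have hk : LinearMap.ker (((P d).comp A).prod Q) = ⊥ := by
      rw [LinearMap.ker_eq_bot']
      intro x hx
      have h1 : P d (A x) = 0 := congrArg Prod.fst hx
      have h2 : Q x = 0 := congrArg Prod.snd hx
      refine vand (d := d) (le_trans (Finset.card_le_card fun p hp => ?_) hS) fun j hj => ?_
      · by_contra hc
        have := congrFun h2 p
        rw [hQ, if_neg hc] at this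
        simp [show x p = 0 from this] at hp
      · have := congrFun h1 j
        rwa [P_apply, if_pos hj] at this
    obtain ⟨K, -, hK⟩ := LinearMap.exists_antilipschitzWith _ hk
    refine ⟨K, fun _ x hx => ?_⟩
    have h2 : Q x = 0 := by
      funext p; rw [hQ]; split_ifs with hp
      · rfl
      · exact hx p hp
    have := hK.le_mul_dist x 0
    rw [map_zero, dist_zero_right, dist_zero_right] at this
    refine this.trans (le_of_eq ?_)
    congr 1
    show ‖(P d (A x), Q x)‖ = _
    rw [h2, Prod.norm_def, norm_zero]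
    exact max_eq_left (norm_nonneg _)
  choose K hK using h
  refine ⟨Finset.univ.sup K, fun x hx => (hK _ hx x fun p hp => by simpa using hp).trans ?_⟩
  have : K (Finset.univ.filter fun p => 0 < |x p|) ≤ Finset.univ.sup K :=
    Finset.le_sup (Finset.mem_univ _)
  gcongr

theorem retr (k : ℕ) : ∃ σ : (Fin N → ℝ) → (Fin N → ℝ), Lip σ ∧ (∀ x, Sm k 0 (σ x)) ∧
    ∀ x, Sm k 0 x → σ x = x := by
  classical
  let U : Set (Fin N → ℝ) := {x | Sm k 0 x}
  have hU : U.Nonempty := ⟨0, by simp [U, Sm]⟩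
  let δ : (Fin N → ℝ) → ℝ := fun x => Metric.infDist x U
  have hδ : LipschitzWith 1 δ := Metric.lipschitz_infDist_pt U
  refine ⟨fun x p => x p - max (-δ x) (min (x p) (δ x)), lip_pi fun p => ?_, fun x => ?_,
    fun x hx => ?_⟩
  · exact ⟨_, (LipschitzWith.eval p).sub (hδ.neg.max ((LipschitzWith.eval p).min hδ))⟩
  · have h0 : 0 ≤ δ x := Metric.infDist_nonneg
    suffices h : Sm k (δ x) x by
      refine h.of_sub fun p hp => ?_
      by_contra hc
      obtain ⟨h1, h2⟩ := abs_le.1 (not_lt.1 hc)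
      simp only [min_eq_left h2, max_eq_right h1] at hp
      simp at hp
    rcases (Finset.univ.filter fun p => δ x < |x p|).eq_empty_or_nonempty with h | h
    · simp [Sm, h]
    · obtain ⟨m, hm, hmin⟩ := Finset.exists_min_image _ (fun p => |x p|) h
      obtain ⟨y, hy, hxy⟩ := (Metric.infDist_lt_iff hU).1 (Finset.mem_filter.1 hm).2
      refine Sm.of_sub (x := y) hy fun p hp => ?_
      by_contra hc
      have e : y p = 0 := by simpa using hc
      have h1 := hmin p (Finset.mem_filter.2 ⟨Finset.mem_univ _, hp⟩)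
      have h2 := dist_le_pi_dist x y p
      rw [e, dist_zero_right, Real.norm_eq_abs] at h2
      linarith
  · have : δ x = 0 := Metric.infDist_zero_of_mem hx
    funext p
    simp [this]

theorem sect (k : ℕ) : ∃ S : (Fin N → ℝ) → (Fin N → ℝ), Lip S ∧
    (∀ y y', (∀ j : Fin N, (j : ℕ) < 2 * k → y j = y' j) → S y = S y') ∧
    (∀ y (j : Fin N), (j : ℕ) < 2 * k → A (S y) j = y j) ∧ (∀ y, Sm (3 * k) 0 (S y)) ∧
    ∀ x, Sm k 0 x → S (A x) = x := by
  classical
  obtain ⟨K, hK⟩ := antilip (N := N) (2 * k)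
  obtain ⟨σ, hσ, hσ1, hσ2⟩ := retr (N := N) k
  let U : Set (Fin N → ℝ) := {x | Sm k 0 x}
  let φ : (Fin N → ℝ) → (Fin N → ℝ) := fun x => P (2 * k) (A x)
  have hφ : ∀ x ∈ U, ∀ y ∈ U, dist x y ≤ K * dist (φ x) (φ y) := by
    intro x hx y hy
    have := hK (x - y) ((Sm.sub hx hy).mono (by omega))
    rwa [map_sub, map_sub, ← dist_eq_norm, ← dist_eq_norm] at this
  have hinj : InjOn φ U := fun x hx y hy e => by
    have := hφ x hx y hy
    rw [e, dist_self, mul_zero] at this
    exact dist_le_zero.1 this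
  have hr : ∀ x ∈ U, Function.invFunOn φ U (φ x) = x := fun x hx => hinj.leftInvOn_invFunOn hx
  have hl : LipschitzOnWith K (Function.invFunOn φ U) (φ '' U) := by
    refine LipschitzOnWith.of_dist_le_mul ?_
    rintro _ ⟨x, hx, rfl⟩ _ ⟨y, hy, rfl⟩
    rw [hr x hx, hr y hy]
    exact hφ x hx y hy
  obtain ⟨g, hg, hge⟩ := hl.extend_pi
  let G : (Fin N → ℝ) →ₗ[ℝ] (Fin N → ℝ) := (P (2 * k)).comp A + (LinearMap.id - P (2 * k))
  have hG : ∀ x j, G x j = if (j : ℕ) < 2 * k then A x j else x j := by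
    intro x j
    simp only [G, LinearMap.add_apply, LinearMap.comp_apply, LinearMap.sub_apply,
      LinearMap.id_apply, Pi.add_apply, Pi.sub_apply, P_apply]
    split_ifs <;> simp
  have hlt : (Finset.univ.filter fun j : Fin N => (j : ℕ) < 2 * k).card ≤ 2 * k := by
    rw [Fin.card_filter_val_lt]; exact min_le_right _ _
  have hGi : Function.Injective G := by
    rw [← LinearMap.ker_eq_bot, LinearMap.ker_eq_bot']
    intro x hx
    refine vand (d := 2 * k) (le_trans (Finset.card_le_card fun p hp => ?_) hlt) fun j hj => ?_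
    · by_contra hc
      have := congrFun hx p
      rw [hG, if_neg (by simpa using hc)] at this
      simp [show x p = 0 from this] at hp
    · have := congrFun hx j
      rwa [hG, if_pos hj] at this
  let E := LinearEquiv.ofInjectiveEndo G hGi
  have hE : ∀ z, G (E.symm z) = z := fun z => E.apply_symm_apply z
  let w : (Fin N → ℝ) → (Fin N → ℝ) := fun y j =>
    if (j : ℕ) < 2 * k then y j else σ (g (P (2 * k) y)) j
  refine ⟨fun y => E.symm (w y), (lip_lin E.symm.toLinearMap).comp (lip_pi fun j => ?_),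
    fun y y' h => ?_, fun y j hj => ?_, fun y => ?_, fun x hx => ?_⟩
  · by_cases hj : (j : ℕ) < 2 * k
    · simp only [w, if_pos hj]; exact ⟨1, LipschitzWith.eval j⟩
    · simp only [w, if_neg hj]
      exact (hσ.comp (Lip.comp ⟨_, hg⟩ (lip_lin (P (2 * k))))).eval j
  · have e : P (2 * k) y = P (2 * k) y' := by
      funext j; simp only [P_apply]; split_ifs with hj
      · exact h j hj
      · rfl
    show E.symm (w y) = E.symm (w y')
    congr 1
    funext j
    simp only [w, e]; split_ifs with hj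
    · exact h j hj
    · rfl
  · have := congrFun (hE (w y)) j
    rw [hG, if_pos hj] at this
    simpa only [w, if_pos hj] using this
  · refine le_trans (Finset.card_le_card
      (t := (Finset.univ.filter fun j : Fin N => (j : ℕ) < 2 * k) ∪
      (Finset.univ.filter fun p => 0 < |σ (g (P (2 * k) y)) p|)) fun p hp => ?_)
      ((Finset.card_union_le _ _).trans ((add_le_add hlt (hσ1 _)).trans (by omega)))
    simp only [Finset.mem_filter, Finset.mem_univ, true_and, Finset.mem_union] at hp ⊢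
    by_cases hj : (p : ℕ) < 2 * k
    · exact Or.inl hj
    · have := congrFun (hE (w y)) p
      rw [hG, if_neg hj] at this
      rw [this] at hp
      simp only [w, if_neg hj] at hp
      exact Or.inr hp
  · apply hGi
    rw [hE]
    funext j
    rw [hG]
    simp only [w]
    split_ifs with hj
    · rfl
    · have : g (φ x) = x := by rw [← hge ⟨x, hx, rfl⟩, hr x hx]
      rw [show g (P (2 * k) (A x)) = x from this, hσ2 x hx]

theorem triang {t : (Fin N → ℝ) → (Fin N → ℝ)} (ht : Lip t)
    (hd : ∀ y y' (j : Fin N), (∀ i : Fin N, i < j → y i = y' i) → t y j = t y' j) :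
    ∃ τ : (Fin N → ℝ) ≃ (Fin N → ℝ), (∀ y, τ y = y - t y) ∧ Lip τ ∧ Lip τ.symm := by
  obtain ⟨L, hL⟩ := ht
  have key : ∀ y y' (m : ℕ), dist (P m y) (P m y') ≤
      (1 + L) ^ m * dist (y - t y) (y' - t y') := by
    intro y y' m
    have hD : 0 ≤ dist (y - t y) (y' - t y') := dist_nonneg
    induction m with
    | zero =>
      have e : ∀ z : Fin N → ℝ, P 0 z = 0 := fun z => by funext j; simp [P_apply]
      rw [e, e, dist_self]; positivity
    | succ m ih =>
      have h1 : (1 : ℝ) ≤ (1 + L) ^ m := one_le_pow₀ (by simp)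
      have hL0 : (0 : ℝ) ≤ L := L.2
      refine (dist_pi_le_iff (by positivity)).2 fun j => ?_
      simp only [P_apply]
      split_ifs with hj
      · have e : ∀ z, t z j = t (P m z) j := fun z => hd _ _ _ fun i hi => by
          rw [P_apply, if_pos (by have : (i : ℕ) < j := hi; omega)]
        have h2 := dist_le_pi_dist (y - t y) (y' - t y') j
        have h3 := (dist_le_pi_dist (t (P m y)) (t (P m y')) j).trans (hL.dist_le_mul _ _)
        rw [← e, ← e] at h3
        have h4 := mul_le_mul_of_nonneg_left ih hL0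
        have h5 := mul_le_mul_of_nonneg_right h1 hD
        simp only [Real.dist_eq, Pi.sub_apply] at h2 h3 ⊢
        have h6 : |y j - y' j| ≤ |y j - t y j - (y' j - t y' j)| + |t y j - t y' j| := by
          have := abs_add_le (y j - t y j - (y' j - t y' j)) (t y j - t y' j)
          rwa [show y j - t y j - (y' j - t y' j) + (t y j - t y' j) = y j - y' j by ring] at this
        rw [pow_succ]
        nlinarith
      · rw [dist_self]; positivity
  have hPN : ∀ z : Fin N → ℝ, P N z = z := fun z => by funext j; simp [P_apply]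
  have hanti : AntilipschitzWith ((1 + L) ^ N) fun y => y - t y :=
    AntilipschitzWith.of_le_mul_dist fun y y' => by
      have := key y y' N
      rw [hPN, hPN] at this
      simpa using this
  have hsurj : Function.Surjective fun y => y - t y := by
    intro z
    let u : ℕ → Fin N → ℝ := fun m => (fun y => z + t y)^[m] 0
    have hu : ∀ m, u (m + 1) = z + t (u m) := fun m => Function.iterate_succ_apply' _ _ _
    have h : ∀ (m : ℕ) (j : Fin N), (j : ℕ) < m → u (m + 1) j = u m j := by
      intro m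
      induction m with
      | zero => intro j hj; omega
      | succ m ih =>
        intro j hj
        rw [hu (m + 1), hu m, Pi.add_apply, Pi.add_apply, ← hu m,
          hd _ _ j fun i hi => ih i (by have : (i : ℕ) < j := hi; omega)]
    refine ⟨u N, ?_⟩
    funext j
    have := h N j j.2
    rw [hu, Pi.add_apply] at this
    simp only [Pi.sub_apply]
    linarith
  refine ⟨Equiv.ofBijective _ ⟨hanti.injective, hsurj⟩, fun _ => rfl,
    ⟨_, LipschitzWith.id.sub hL⟩, ⟨_, hanti.to_rightInverse ?_⟩⟩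
  exact (Equiv.ofBijective _ ⟨hanti.injective, hsurj⟩).apply_symm_apply

theorem block0 (k : ℕ → ℕ) (h3 : ∀ i, 3 * k (i + 1) ≤ k i) (h0 : ∃ i, k (i + 1) = 0) :
    ∃ θ : (Fin N → ℝ) ≃ (Fin N → ℝ), Lip θ ∧ Lip θ.symm ∧ ∀ i x,
      (Sm (k (i + 1)) 0 x → ∀ j : Fin N, 2 * k (i + 1) ≤ j → θ x j = 0) ∧
      ((∀ j : Fin N, 2 * k (i + 1) ≤ j → θ x j = 0) → Sm (k i) 0 x) := by
  classical
  choose S hS hS1 hS2 hS3 hS4 using fun i => sect (N := N) (k (i + 1))
  have hk : Antitone k := antitone_nat_of_succ_le fun i => by have := h3 i; omega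
  have hex : ∀ j : Fin N, ∃ i, 2 * k (i + 1) ≤ j := fun j => by
    obtain ⟨i, hi⟩ := h0; exact ⟨i, by omega⟩
  let lev : Fin N → ℕ := fun j => Nat.find (hex j)
  have hl1 : ∀ j, 2 * k (lev j + 1) ≤ j := fun j => Nat.find_spec (hex j)
  have hl2 : ∀ i (j : Fin N), 2 * k (i + 1) ≤ j → lev j ≤ i := fun i j h => Nat.find_min' _ h
  let t : (Fin N → ℝ) → (Fin N → ℝ) := fun y j => A (S (lev j) y) j
  have hd : ∀ y y' (j : Fin N), (∀ i : Fin N, i < j → y i = y' i) → t y j = t y' j := by
    intro y y' j h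
    simp only [t]
    rw [hS1 (lev j) y y' fun i hi => h i (by have := hl1 j; show (i : ℕ) < j; omega)]
  obtain ⟨τ, hτ, hτ1, hτ2⟩ := triang (t := t)
    (lip_pi fun j => ((lip_lin A).comp (hS (lev j))).eval j) hd
  have hAi : Function.Injective (A (N := N)) := by
    rw [← LinearMap.ker_eq_bot, LinearMap.ker_eq_bot']
    intro x hx
    exact vand (d := N) (le_trans (Finset.card_le_univ _) (by simp)) fun j _ => congrFun hx j
  let E := LinearEquiv.ofInjectiveEndo A hAi
  refine ⟨E.toEquiv.trans τ, hτ1.comp (lip_lin A), (lip_lin E.symm.toLinearMap).comp hτ2,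
    fun i x => ⟨fun hx j hj => ?_, fun hx => ?_⟩⟩
  · show τ (A x) j = 0
    rw [hτ, Pi.sub_apply]
    simp only [t]
    rw [hS4 _ x (hx.mono (hk (by have := hl2 i j hj; omega))), sub_self]
  · have hag : ∀ j : Fin N, (j : ℕ) < 2 * k (i + 1) → A (S i (A x)) j = A x j := hS2 i _
    have hsm : Sm (k i) 0 (S i (A x)) := (hS3 i _).mono (h3 i)
    have e : τ (A (S i (A x))) = τ (A x) := by
      funext j
      by_cases hj : (j : ℕ) < 2 * k (i + 1)
      · rw [hτ, hτ, Pi.sub_apply, Pi.sub_apply, hag j hj,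
          hd _ _ j fun i' hi' => hag i' (lt_trans hi' hj)]
      · rw [show τ (A x) j = 0 from hx j (not_lt.1 hj), hτ, Pi.sub_apply]
        simp only [t]
        rcases (hl2 i j (not_lt.1 hj)).eq_or_lt with h | h
        · rw [h, hS1 i _ _ hag, sub_self]
        · rw [hS4 _ _ (hsm.mono (hk h)), sub_self]
    rw [← hAi (τ.injective e)]
    exact hsm

theorem block1 (k : ℕ → ℕ) (h3 : ∀ i, 3 * k (i + 1) ≤ k i) (h0 : ∃ i, k (i + 1) = 0) :
    ∃ θ : (Fin N → ℝ) ≃ (Fin N → ℝ), Lip θ ∧ Lip θ.symm ∧ ∃ L : ℝ, ∀ i x ε, 0 ≤ ε →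
      (Sm (k (i + 1)) ε x → ∀ j : Fin N, 2 * k (i + 1) ≤ j → |θ x j| ≤ L * ε) ∧
      ((∀ j : Fin N, 2 * k (i + 1) ≤ j → |θ x j| ≤ ε) → Sm (k i) (L * ε) x) := by
  classical
  obtain ⟨θ, ⟨L, hL⟩, ⟨L', hL'⟩, h⟩ := block0 (N := N) k h3 h0
  refine ⟨θ, ⟨L, hL⟩, ⟨L', hL'⟩, L + L', fun i x ε hε => ⟨fun hx j hj => ?_, fun hx => ?_⟩⟩
  · let x' : Fin N → ℝ := fun p => if ε < |x p| then x p else 0
    have h1 : Sm (k (i + 1)) 0 x' := hx.of_sub fun p hp => by
      by_contra hc; simp [x', hc] at hp
    have h2 : dist x x' ≤ ε := (dist_pi_le_iff hε).2 fun p => by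
      simp only [x']; split_ifs with hp
      · simpa using hε
      · simpa using hp
    have h3 := (dist_le_pi_dist (θ x) (θ x') j).trans (hL.dist_le_mul _ _)
    rw [(h i x').1 h1 j hj, dist_zero_right, Real.norm_eq_abs] at h3
    have := mul_le_mul_of_nonneg_left h2 L.2
    have := mul_nonneg L'.2 hε
    simp only [NNReal.val_eq_coe] at *
    nlinarith
  · let x' := θ.symm (P (2 * k (i + 1)) (θ x))
    have h1 : Sm (k i) 0 x' := (h i x').2 fun j hj => by
      simp only [x', Equiv.apply_symm_apply, P_apply, if_neg (not_lt.2 hj)]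
    have h2 : dist (θ x) (P (2 * k (i + 1)) (θ x)) ≤ ε := (dist_pi_le_iff hε).2 fun p => by
      simp only [P_apply]; split_ifs with hp
      · simpa using hε
      · simpa using hx p (not_lt.1 hp)
    have h3 := hL'.dist_le_mul (θ x) (P (2 * k (i + 1)) (θ x))
    rw [Equiv.symm_apply_apply] at h3
    refine h1.of_sub fun p hp => ?_
    by_contra hc
    have e : x' p = 0 := by simpa using hc
    have h4 := (dist_le_pi_dist x x' p).trans h3
    rw [e, dist_zero_right, Real.norm_eq_abs] at h4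
    have := mul_le_mul_of_nonneg_left h2 L'.2
    have := mul_nonneg L.2 hε
    simp only [NNReal.val_eq_coe] at *
    nlinarith

end Pool.Agent.H17.Ub
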