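import Mathlib
import Pool.Agent.H17.Ub1

set_option autoImplicit false
open Set Topology Filter
open scoped NNReal

namespace Pool.Agent.H17.Ub

theorem uc_of_id {f : ℝ → ℝ} (hf : Continuous f) (h : ∀ t, 1 ≤ |t| → f t = t) :
    UniformContinuous f := by
  have h1 : HasCompactSupport fun t => f t - t :=
    HasCompactSupport.intro (isCompact_Icc (a := -1) (b := 1)) fun t ht => by
      rw [h t, sub_self]
      by_contra hc
      exact ht ⟨(abs_lt.1 (not_le.1 hc)).1.le, (abs_lt.1 (not_le.1 hc)).2.le⟩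
  have h2 := (h1.uniformContinuous_of_continuous (hf.sub continuous_id)).add uniformContinuous_id
  simpa using h2

theorem lam (L : ℝ) : ∃ l : ℝ ≃ᵤ ℝ, StrictMono l ∧ (∀ t, |l t| = l |t|) ∧
    ∀ ε, 0 ≤ ε → ε ≤ 1 / 2 → L * l ε ≤ l (2 * ε) := by
  obtain ⟨p, hp⟩ := pow_unbounded_of_one_lt L (one_lt_two (α := ℝ))
  let f : ℝ → ℝ := fun t => t * (min |t| 1) ^ p
  have hc : Continuous f := by fun_prop
  have hid : ∀ t, 1 ≤ |t| → f t = t := fun t ht => by simp [f, min_eq_right ht]
  have hm : StrictMono f := by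
    refine strictMono_of_odd_strictMonoOn_nonneg (fun x => by simp [f]) fun a ha b hb hab => ?_
    have ha' : 0 ≤ a := ha
    have hb' : 0 < b := lt_of_le_of_lt ha hab
    simp only [f, abs_of_nonneg ha', abs_of_pos hb']
    have h1 : (min a 1) ^ p ≤ (min b 1) ^ p := by
      gcongr
    have h2 : 0 < (min b 1) ^ p := by positivity
    nlinarith
  have hs : Function.Surjective f := by
    refine hc.surjective (tendsto_id.congr' ?_) (tendsto_id.congr' ?_)
    · filter_upwards [eventually_ge_atTop 1] with t ht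
      exact (hid t (ht.trans (le_abs_self t))).symm
    · filter_upwards [eventually_le_atBot (-1)] with t ht
      exact (hid t (by rw [← abs_neg]; exact le_trans (by linarith) (le_abs_self _))).symm
  let e := hm.orderIsoOfSurjective f hs
  have he : ∀ t, e t = f t := fun _ => rfl
  refine ⟨⟨e.toEquiv, uc_of_id hc hid, uc_of_id e.symm.continuous fun t ht => ?_⟩, hm,
    fun t => ?_, fun ε h0 h1 => ?_⟩
  · apply e.injective
    show e (e.symm t) = e t
    rw [e.apply_symm_apply, he, hid t ht]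
  · show |f t| = f |t|
    simp only [f, abs_mul, abs_abs]
    rw [abs_of_nonneg (a := (min |t| 1) ^ p) (by positivity)]
  · show L * f ε ≤ f (2 * ε)
    simp only [f]
    rw [abs_of_nonneg h0, abs_of_nonneg (by linarith : 0 ≤ 2 * ε), min_eq_left (by linarith),
      min_eq_left (by linarith), mul_pow]
    have h2 : 0 ≤ ε * ε ^ p := by positivity
    have h3 : (0 : ℝ) < 2 ^ p := by positivity
    nlinarith

theorem block2 {N : ℕ} (k : ℕ → ℕ) (h3 : ∀ i, 3 * k (i + 1) ≤ k i) (h0 : ∃ i, k (i + 1) = 0) :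
    ∃ θ : (Fin N → ℝ) ≃ᵤ (Fin N → ℝ), ∀ i x ε, 0 ≤ ε → ε ≤ 1 / 2 →
      (Sm (k (i + 1)) ε x → ∀ j : Fin N, 2 * k (i + 1) ≤ j → |θ x j| ≤ 2 * ε) ∧
      ((∀ j : Fin N, 2 * k (i + 1) ≤ j → |θ x j| ≤ ε) → Sm (k i) (2 * ε) x) := by
  obtain ⟨θ, ⟨_, h1⟩, ⟨_, h2⟩, L, h⟩ := block1 (N := N) k h3 h0
  obtain ⟨l, hm, ha, hl⟩ := lam L
  have hl0 : ∀ ε, 0 ≤ ε → 0 ≤ l ε := fun ε hε => by
    have := ha ε
    rw [abs_of_nonneg hε] at this
    rw [← this]; exact abs_nonneg _
  let Λ : (Fin N → ℝ) ≃ᵤ (Fin N → ℝ) := UniformEquiv.piCongrRight fun _ => l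
  let θ' : (Fin N → ℝ) ≃ᵤ (Fin N → ℝ) := ⟨θ, h1.uniformContinuous, h2.uniformContinuous⟩
  have key : ∀ x j, l (((Λ.trans θ').trans Λ.symm) x j) = θ (fun p => l (x p)) j :=
    fun x j => l.apply_symm_apply _
  refine ⟨(Λ.trans θ').trans Λ.symm, fun i x ε hε hε' => ⟨fun hx j hj => ?_, fun hx => ?_⟩⟩
  · have := (h i (fun p => l (x p)) (l ε) (hl0 ε hε)).1 (hx.of_sub fun p hp => by
      rw [ha] at hp; exact hm.lt_iff_lt.1 hp) j hj
    rw [← key, ha] at this
    exact hm.le_iff_le.1 (this.trans (hl ε hε hε'))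
  · have := (h i (fun p => l (x p)) (l ε) (hl0 ε hε)).2 fun j hj => by
      rw [← key, ha]; exact hm.monotone (hx j hj)
    refine this.of_sub fun p hp => ?_
    rw [ha]
    exact (hl ε hε hε').trans_lt (hm hp)

/-- families tending to zero on every level -/
def W {T : Type} (lv : T → ℕ) : Set (T → ℝ) :=
  {u | ∀ i ε, 0 < ε → {t | lv t ≤ i ∧ ε < |u t|}.Finite}

section hotel
variable {T : Type} (lv en : T → ℕ)

noncomputable def pt (t : T) : ℝ := lv t + (1 / 2) ^ en t / 2

noncomputable def hat (t : T) (x : ℝ) : ℝ := max 0 (1 - 8 * |x - pt lv en t| / (1 / 2) ^ en t)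

theorem hat_supp {t : T} {x : ℝ} (h : hat lv en t x ≠ 0) :
    lv t + 3 / 8 * (1 / 2) ^ en t < x ∧ x < lv t + 5 / 8 * (1 / 2) ^ en t := by
  have hs : (0 : ℝ) < (1 / 2) ^ en t := by positivity
  have h1 : 8 * |x - pt lv en t| / (1 / 2) ^ en t < 1 := by
    by_contra hc
    exact h (max_eq_left (by linarith))
  rw [div_lt_one hs] at h1
  have h2 := neg_abs_le (x - pt lv en t)
  have h3 := le_abs_self (x - pt lv en t)
  simp only [pt] at *
  constructor <;> linarith

theorem hat_supp' {t : T} {x : ℝ} (h : hat lv en t x ≠ 0) : lv t < x ∧ x < lv t + 1 := by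
  have hs : (0 : ℝ) < (1 / 2) ^ en t := by positivity
  have hs' : ((1 : ℝ) / 2) ^ en t ≤ 1 := pow_le_one₀ (by norm_num) (by norm_num)
  obtain ⟨h1, h2⟩ := hat_supp lv en h
  constructor <;> linarith

theorem hat_uniq (he : Function.Injective en) {t t' : T} {x : ℝ} (h : hat lv en t x ≠ 0)
    (h' : hat lv en t' x ≠ 0) : t = t' := by
  have e : lv t = lv t' := by
    obtain ⟨h1, h2⟩ := hat_supp' lv en h
    obtain ⟨h3, h4⟩ := hat_supp' lv en h'
    have a : lv t < lv t' + 1 := by exact_mod_cast h1.trans h4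
    have b : lv t' < lv t + 1 := by exact_mod_cast h3.trans h2
    omega
  obtain ⟨h1, h2⟩ := hat_supp lv en h
  obtain ⟨h3, h4⟩ := hat_supp lv en h'
  rw [← e] at h3 h4
  have key : ∀ a b : ℕ, a < b → ((1 : ℝ) / 2) ^ b ≤ (1 / 2) ^ a / 2 := fun a b hab => by
    have := pow_le_pow_of_le_one (a := (1 : ℝ) / 2) (by norm_num) (by norm_num)
      (Nat.succ_le_of_lt hab)
    rw [pow_succ] at this
    linarith
  have hs : (0 : ℝ) < (1 / 2) ^ en t := by positivity
  have hs' : (0 : ℝ) < (1 / 2) ^ en t' := by positivity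
  apply he
  rcases lt_trichotomy (en t) (en t') with c | c | c
  · have := key _ _ c; linarith
  · exact c
  · have := key _ _ c; linarith

theorem hat_le (t : T) (x : ℝ) : |hat lv en t x| ≤ 1 := by
  rw [abs_of_nonneg (le_max_left _ _)]
  refine max_le zero_le_one (sub_le_self _ ?_)
  positivity

theorem exJK [Nonempty T] (he : Function.Injective en) :
    ∃ (J : (T → ℝ) → ℝ → ℝ) (K : (ℝ → ℝ) → T → ℝ), UniformContinuous J ∧ UniformContinuous K ∧
      (∀ w ∈ W lv, Continuous (J w)) ∧ (∀ f, Continuous f → K f ∈ W lv) ∧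
      (∀ w, K (J w) = w) ∧ ∀ f g h, K (f - g + h) = K f - K g + K h := by
  classical
  let c : ℝ → T := fun x => Classical.epsilon fun t => hat lv en t x ≠ 0
  have hc : ∀ x t, hat lv en t x ≠ 0 → c x = t := fun x t h =>
    hat_uniq lv en he (Classical.epsilon_spec (p := fun t => hat lv en t x ≠ 0) ⟨t, h⟩) h
  refine ⟨fun w x => hat lv en (c x) x * w (c x), fun f t => f (pt lv en t) - f (lv t),
    uniformContinuous_pi.2 fun x => ?_, uniformContinuous_pi.2 fun t => ?_, fun w hw => ?_,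
    fun f hf i ε hε => ?_, fun w => ?_, fun f g h => ?_⟩
  · exact Real.uniformContinuous_const_mul.comp (Pi.uniformContinuous_proj _ _)
  · exact (Pi.uniformContinuous_proj _ _).sub (Pi.uniformContinuous_proj _ _)
  · refine continuous_of_locally_uniform_approx_of_continuousAt fun x u hu => ?_
    obtain ⟨ε, hε, hu⟩ := Metric.mem_uniformity_dist.1 hu
    obtain ⟨i, hi⟩ := exists_nat_gt x
    have hF := hw i (ε / 2) (half_pos hε)
    refine ⟨Iio i, Iio_mem_nhds hi, fun y => ∑ t ∈ hF.toFinset, hat lv en t y * w t, ?_,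
      fun y hy => hu ?_⟩
    · refine Continuous.continuousAt (continuous_finsetSum _ fun t _ => ?_)
      unfold hat
      fun_prop
    · have hz : ∀ t, t ≠ c y → hat lv en t y * w t = 0 := fun t ht => by
        by_cases h : hat lv en t y = 0
        · rw [h, zero_mul]
        · exact absurd (hc y t h).symm ht
      beta_reduce
      by_cases hm : c y ∈ hF.toFinset
      · rw [Finset.sum_eq_single_of_mem _ hm fun t _ ht => hz t ht, dist_self]; exact hε
      · rw [Finset.sum_eq_zero fun t ht => hz t fun e => hm (e ▸ ht), dist_zero_right,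
          Real.norm_eq_abs]
        by_cases h : hat lv en (c y) y = 0
        · rw [h, zero_mul, abs_zero]; exact hε
        · have h1 : lv (c y) ≤ i := by
            have : (lv (c y) : ℝ) < i := (hat_supp' lv en h).1.trans hy
            exact_mod_cast this.le
          have h2 : |w (c y)| ≤ ε / 2 := by
            by_contra hn
            exact hm (hF.mem_toFinset.2 ⟨h1, not_le.1 hn⟩)
          rw [abs_mul]
          have := mul_le_mul (hat_le lv en (c y) y) h2 (abs_nonneg _) zero_le_one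
          linarith
  · obtain ⟨δ, hδ, h⟩ := Metric.uniformContinuousOn_iff.1
      ((isCompact_Icc (a := (0 : ℝ)) (b := i + 1)).uniformContinuousOn_of_continuous
        hf.continuousOn) ε hε
    obtain ⟨M, hM⟩ := exists_pow_lt_of_lt_one hδ (by norm_num : (1 : ℝ) / 2 < 1)
    refine ((finite_lt_nat M).preimage he.injOn).subset fun t ht => ?_
    by_contra hn
    have h1 : ((1 : ℝ) / 2) ^ en t ≤ (1 / 2) ^ M :=
      pow_le_pow_of_le_one (by norm_num) (by norm_num) (not_lt.1 hn)
    have hs : (0 : ℝ) < (1 / 2) ^ en t := by positivity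
    have hs' : ((1 : ℝ) / 2) ^ en t ≤ 1 := pow_le_one₀ (by norm_num) (by norm_num)
    have h2 : (lv t : ℝ) ≤ i := by exact_mod_cast ht.1
    have h3 : (0 : ℝ) ≤ lv t := Nat.cast_nonneg _
    have := h (pt lv en t) ⟨by simp only [pt]; linarith, by simp only [pt]; linarith⟩ (lv t)
      ⟨h3, by linarith⟩ (by
        rw [Real.dist_eq, pt, add_sub_cancel_left, abs_of_pos (half_pos hs)]; linarith)
    rw [Real.dist_eq] at this
    exact absurd ht.2 (not_lt.2 this.le)
  · funext t
    have h1 : hat lv en t (pt lv en t) = 1 := by simp [hat]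
    have h2 : hat lv en (c (lv t)) (lv t) = 0 := by
      by_contra h
      obtain ⟨a, b⟩ := hat_supp' lv en h
      have a' : lv (c (lv t)) < lv t := by exact_mod_cast a
      have b' : lv t < lv (c (lv t)) + 1 := by exact_mod_cast b
      omega
    simp only [hc _ t (by rw [h1]; exact one_ne_zero), h1, h2]
    ring
  · funext t
    simp only [Pi.add_apply, Pi.sub_apply]
    ring

theorem hotel [Nonempty T] (he : Function.Injective en) :
    Nonempty ({f : ℝ → ℝ // Continuous f} × W lv ≃ᵤ {f : ℝ → ℝ // Continuous f}) := by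
  let Lv : ℕ × T → ℕ := fun p => p.1 + lv p.2
  obtain ⟨J, K, hJ, hK, hJ1, hK1, hKJ, hKa⟩ := exJK Lv (fun p => Nat.pair p.1 (en p.2))
    fun p q h => Prod.ext (Nat.pair_eq_pair.1 h).1 (he (Nat.pair_eq_pair.1 h).2)
  have hW : ∀ w : ℕ × T → ℝ, w ∈ W Lv ↔ ∀ n, (fun t => w (n, t)) ∈ W lv := by
    intro w
    constructor
    · intro h n i ε hε
      refine ((h (n + i) ε hε).preimage (f := fun t => (n, t))
        (Prod.mk_right_injective n).injOn).subset fun t ht => ⟨?_, ht.2⟩
      have := ht.1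
      simp only [Lv]; omega
    · intro h i ε hε
      refine ((finite_le_nat i).biUnion fun n _ =>
        (h n i ε hε).image fun t => (n, t)).subset fun p hp => ?_
      have h1 : p.1 + lv p.2 ≤ i := hp.1
      exact mem_biUnion (show p.1 ∈ {n | n ≤ i} from le_trans (Nat.le_add_right _ _) h1)
        ⟨p.2, ⟨le_trans (Nat.le_add_left _ _) h1, hp.2⟩, rfl⟩
  let cons : (T → ℝ) → (ℕ × T → ℝ) → ℕ × T → ℝ := fun u w p =>
    Nat.casesOn (motive := fun _ => ℝ) p.1 (u p.2) fun n => w (n, p.2)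
  let tl : (ℕ × T → ℝ) → ℕ × T → ℝ := fun w p => w (p.1 + 1, p.2)
  let hd : (ℕ × T → ℝ) → T → ℝ := fun w t => w (0, t)
  have e1 : ∀ w, cons (hd w) (tl w) = w := fun w => by
    funext ⟨n, t⟩; cases n <;> rfl
  have c1 : ∀ u ∈ W lv, ∀ w ∈ W Lv, cons u w ∈ W Lv := fun u hu w hw => (hW _).2 fun n => by
    cases n with
    | zero => exact hu
    | succ n => exact (hW w).1 hw n
  have c2 : ∀ w ∈ W Lv, tl w ∈ W Lv := fun w hw => (hW _).2 fun n => (hW w).1 hw (n + 1)
  have uv : UniformContinuous fun f : {f : ℝ → ℝ // Continuous f} => f.1 :=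
    uniformContinuous_subtype_val
  refine ⟨⟨⟨fun p => ⟨p.1.1 - J (K p.1.1) + J (cons p.2.1 (K p.1.1)),
      (p.1.2.sub (hJ1 _ (hK1 _ p.1.2))).add (hJ1 _ (c1 _ p.2.2 _ (hK1 _ p.1.2)))⟩,
    fun g => (⟨g.1 - J (K g.1) + J (tl (K g.1)),
      (g.2.sub (hJ1 _ (hK1 _ g.2))).add (hJ1 _ (c2 _ (hK1 _ g.2)))⟩,
      ⟨hd (K g.1), (hW _).1 (hK1 _ g.2) 0⟩), fun p => ?_, fun g => ?_⟩, ?_, ?_⟩⟩
  · have e : K (p.1.1 - J (K p.1.1) + J (cons p.2.1 (K p.1.1))) = cons p.2.1 (K p.1.1) := by
      rw [hKa, hKJ, hKJ, sub_self, zero_add]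
    refine Prod.ext (Subtype.ext ?_) (Subtype.ext ?_)
    · simp only [e]
      rw [show tl (cons p.2.1 (K p.1.1)) = K p.1.1 from rfl]
      abel
    · simp only [e]
      rfl
  · have e : K (g.1 - J (K g.1) + J (tl (K g.1))) = tl (K g.1) := by
      rw [hKa, hKJ, hKJ, sub_self, zero_add]
    refine Subtype.ext ?_
    simp only [e, e1]
    abel
  · have u1 := uv.comp (uniformContinuous_fst (β := W lv))
    refine UniformContinuous.subtype_mk ((u1.sub (hJ.comp (hK.comp u1))).add (hJ.comp ?_)) _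
    refine uniformContinuous_pi.2 fun ⟨n, t⟩ => ?_
    cases n with
    | zero =>
      exact (Pi.uniformContinuous_proj _ t).comp
        (uniformContinuous_subtype_val.comp uniformContinuous_snd)
    | succ n => exact (Pi.uniformContinuous_proj _ (n, t)).comp (hK.comp u1)
  · refine UniformContinuous.prodMk (UniformContinuous.subtype_mk
      ((uv.sub (hJ.comp (hK.comp uv))).add (hJ.comp ?_)) _) (UniformContinuous.subtype_mk ?_ _)
    · exact uniformContinuous_pi.2 fun p =>
        (Pi.uniformContinuous_proj _ (p.1 + 1, p.2)).comp (hK.comp uv)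
    · exact uniformContinuous_pi.2 fun t => (Pi.uniformContinuous_proj _ (0, t)).comp (hK.comp uv)

end hotel

end Pool.Agent.H17.Ub
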