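import Mathlib
import Pool.Agent.H17.Ub2
import Pool.Agent.H17.CCa

set_option autoImplicit false
open Set Topology Filter
open scoped NNReal

namespace Pool.Agent.H17.Ub
open Pool.Agent.H17.CC (Sp em em_surj em_tendsto em_cont co)

def kk (n i : ℕ) : ℕ := 3 ^ n / 3 ^ i

theorem kk3 (n i : ℕ) : 3 * kk n (i + 1) ≤ kk n i := by
  simp only [kk, pow_succ, ← Nat.div_div_eq_div_mul]
  exact Nat.mul_div_le _ _

theorem kk0 (n : ℕ) : kk n (n + 1) = 0 :=
  Nat.div_eq_of_lt (Nat.pow_lt_pow_right (by norm_num) (by omega))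

theorem kk1 {n i : ℕ} (h : i ≤ n) : 1 ≤ kk n i :=
  Nat.div_pos (Nat.pow_le_pow_right (by norm_num) h) (by positivity)

abbrev I := Σ n : ℕ, Fin (3 ^ n + 1)

open Classical in
/-- the filter of sets whose complement is sparse in almost every block -/
def G : Filter I where
  sets := {B | ∀ i, ∀ᶠ n in atTop,
    (Finset.univ.filter fun j : Fin (3 ^ n + 1) => (⟨n, j⟩ : I) ∉ B).card ≤ kk n i}
  univ_sets := fun i => Eventually.of_forall fun n => by simp
  sets_of_superset := fun {B C} hB h i => (hB i).mono fun n hn =>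
    le_trans (Finset.card_le_card fun j hj => by
      simp only [Finset.mem_filter, Finset.mem_univ, true_and] at hj ⊢
      exact fun c => hj (h c)) hn
  inter_sets := fun {B C} hB hC i => ((hB (i + 1)).and (hC (i + 1))).mono fun n hn => by
    have h := kk3 n i
    refine le_trans (Finset.card_le_card fun j hj => ?_)
      ((Finset.card_union_le _ _).trans ((add_le_add hn.1 hn.2).trans (by omega)))
    simp only [Finset.mem_filter, Finset.mem_univ, true_and, Finset.mem_union,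
      mem_inter_iff] at hj ⊢
    tauto

open Classical in
theorem mem_G {B : Set I} : B ∈ G ↔ ∀ i, ∀ᶠ n in atTop,
    (Finset.univ.filter fun j : Fin (3 ^ n + 1) => (⟨n, j⟩ : I) ∉ B).card ≤ kk n i := Iff.rfl

theorem G_neBot : G.NeBot := by
  refine ⟨fun h => ?_⟩
  obtain ⟨n, hn⟩ := (mem_G.1 (empty_mem_iff_bot.2 h) 0).exists
  simp [kk] at hn

theorem tendsto_G {u : I → ℝ} : Tendsto u G (𝓝 0) ↔
    ∀ i ε, 0 < ε → ∀ᶠ n in atTop, Sm (kk n i) ε fun j => u ⟨n, j⟩ := by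
  rw [Metric.tendsto_nhds]
  constructor
  · intro h i ε hε
    refine (mem_G.1 (h ε hε) i).mono fun n hn => le_trans (Finset.card_le_card fun j hj => ?_) hn
    simp only [Finset.mem_filter, Finset.mem_univ, true_and, mem_ofPred_eq, dist_zero_right,
      Real.norm_eq_abs] at hj ⊢
    exact not_lt.2 hj.le
  · intro h ε hε
    refine mem_G.2 fun i => (h i (ε / 2) (half_pos hε)).mono fun n hn =>
      le_trans (Finset.card_le_card fun j hj => ?_) hn
    simp only [Finset.mem_filter, Finset.mem_univ, true_and, mem_ofPred_eq, dist_zero_right,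
      Real.norm_eq_abs] at hj ⊢
    linarith [not_lt.1 hj]

theorem exlv (t : I) : ∃ i, 2 * kk t.1 (i + 1) ≤ t.2 := ⟨t.1, by rw [kk0]; omega⟩

noncomputable def lv (t : I) : ℕ := Nat.find (exlv t)

theorem lv_le {t : I} {i : ℕ} : lv t ≤ i ↔ 2 * kk t.1 (i + 1) ≤ t.2 := by
  refine ⟨fun h => le_trans ?_ (Nat.find_spec (exlv t)), fun h => Nat.find_min' _ h⟩
  have hk : Antitone (kk t.1) := antitone_nat_of_succ_le fun i => by have := kk3 t.1 i; omega
  have := hk (show lv t + 1 ≤ i + 1 by omega)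
  exact Nat.mul_le_mul_left 2 this

theorem fin_blocks (M : ℕ) : {t : I | t.1 < M}.Finite := by
  refine ((finite_lt_nat M).biUnion fun n _ =>
    finite_range fun j : Fin (3 ^ n + 1) => (⟨n, j⟩ : I)).subset fun t ht => ?_
  exact mem_biUnion (show t.1 ∈ {n | n < M} from ht) ⟨t.2, rfl⟩

theorem mem_W {v : I → ℝ} : v ∈ W lv ↔ ∀ i ε, 0 < ε → ∀ᶠ n in atTop,
    ∀ j : Fin (3 ^ n + 1), 2 * kk n (i + 1) ≤ j → |v ⟨n, j⟩| ≤ ε := by
  constructor
  · intro h i ε hε
    obtain ⟨M, hM⟩ := ((h i ε hε).image Sigma.fst).bddAbove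
    filter_upwards [eventually_gt_atTop M] with n hn j hj
    by_contra hc
    exact absurd (hM ⟨⟨n, j⟩, ⟨lv_le.2 hj, not_le.1 hc⟩, rfl⟩) (not_le.2 hn)
  · intro h i ε hε
    obtain ⟨M, hM⟩ := eventually_atTop.1 (h i ε hε)
    refine (fin_blocks M).subset fun t ht => ?_
    by_contra hc
    exact absurd ht.2 (not_lt.2 (hM t.1 (not_lt.1 hc) t.2 (lv_le.1 ht.1)))

theorem glob : ∃ Θ : (I → ℝ) ≃ᵤ (I → ℝ), ∀ u, Tendsto u G (𝓝 0) ↔ Θ u ∈ W lv := by
  choose θ hθ using fun n => block2 (N := 3 ^ n + 1) (kk n) (kk3 n) ⟨n, kk0 n⟩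
  have uc : ∀ n, UniformContinuous fun (u : I → ℝ) (j : Fin (3 ^ n + 1)) => u ⟨n, j⟩ :=
    fun n => uniformContinuous_pi.2 fun j => Pi.uniformContinuous_proj _ _
  refine ⟨⟨⟨fun u t => θ t.1 (fun j => u ⟨t.1, j⟩) t.2,
    fun u t => (θ t.1).symm (fun j => u ⟨t.1, j⟩) t.2, fun u => ?_, fun u => ?_⟩,
    uniformContinuous_pi.2 fun t => ?_, uniformContinuous_pi.2 fun t => ?_⟩, fun u => ?_⟩
  · funext t
    exact congrFun ((θ t.1).symm_apply_apply fun j => u ⟨t.1, j⟩) t.2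
  · funext t
    exact congrFun ((θ t.1).apply_symm_apply fun j => u ⟨t.1, j⟩) t.2
  · exact (Pi.uniformContinuous_proj _ t.2).comp ((θ t.1).uniformContinuous.comp (uc t.1))
  · exact (Pi.uniformContinuous_proj _ t.2).comp ((θ t.1).symm.uniformContinuous.comp (uc t.1))
  · rw [tendsto_G, mem_W]
    have hm : ∀ ε : ℝ, 0 < ε → ∃ δ, 0 < δ ∧ δ ≤ 1 / 2 ∧ 2 * δ ≤ ε := fun ε hε =>
      ⟨min (1 / 2) (ε / 2), by positivity, min_le_left _ _, by
        linarith [min_le_right (1 / 2) (ε / 2)]⟩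
    constructor
    · intro h i ε hε
      obtain ⟨δ, h0, h1, h2⟩ := hm ε hε
      filter_upwards [h (i + 1) δ h0] with n hn j hj
      exact ((hθ n i _ δ h0.le h1).1 hn j hj).trans h2
    · intro h i ε hε
      obtain ⟨δ, h0, h1, h2⟩ := hm ε hε
      filter_upwards [h i δ h0] with n hn
      exact ((hθ n i _ δ h0.le h1).2 hn).of_sub fun p hp => h2.trans_lt hp

def Fm : Set (ℝ ⊕ I → ℝ) :=
  {f | Continuous (fun a => f (.inl a)) ∧ Tendsto (fun t => f (.inr t)) G (𝓝 (f (.inl 0)))}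

theorem Fm_mem {f : Sp Fm → ℝ} (hf : Continuous f) : (fun z => f (em _ z)) ∈ Fm :=
  ⟨hf.comp (em_cont fun _ hg => hg.1), (hf.tendsto _).comp
    (em_tendsto (F := Fm) (u := Sum.inr) (z := Sum.inl 0) fun _ hg => hg.2)⟩

theorem split : Nonempty ({f : Sp Fm → ℝ // Continuous f} ≃ᵤ
    {f : ℝ → ℝ // Continuous f} × {u : I → ℝ // Tendsto u G (𝓝 0)}) := by
  let j : {f : ℝ → ℝ // Continuous f} × {u : I → ℝ // Tendsto u G (𝓝 0)} → ℝ ⊕ I → ℝ :=
    fun p => Sum.elim p.1.1 fun t => p.2.1 t + p.1.1 0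
  have hj : ∀ p, j p ∈ Fm := fun p => ⟨p.1.2, by simpa [j] using p.2.2.add_const (p.1.1 0)⟩
  have uv : ∀ s, UniformContinuous fun f : {f : Sp Fm → ℝ // Continuous f} => f.1 s :=
    fun s => (Pi.uniformContinuous_proj _ s).comp uniformContinuous_subtype_val
  have u1 : ∀ a, UniformContinuous fun p : {f : ℝ → ℝ // Continuous f} ×
      {u : I → ℝ // Tendsto u G (𝓝 0)} => p.1.1 a := fun a =>
    (Pi.uniformContinuous_proj _ a).comp (uniformContinuous_subtype_val.comp uniformContinuous_fst)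
  have u2 : ∀ a, UniformContinuous fun p : {f : ℝ → ℝ // Continuous f} ×
      {u : I → ℝ // Tendsto u G (𝓝 0)} => p.2.1 a := fun a =>
    (Pi.uniformContinuous_proj _ a).comp (uniformContinuous_subtype_val.comp uniformContinuous_snd)
  refine ⟨⟨⟨fun f => (⟨fun a => f.1 (em _ (.inl a)), (Fm_mem f.2).1⟩,
    ⟨fun t => f.1 (em _ (.inr t)) - f.1 (em _ (.inl 0)),
      tendsto_sub_nhds_zero_iff.2 (Fm_mem f.2).2⟩),
    fun p => ⟨co (j p) (hj p), (co (j p) (hj p)).continuous⟩, fun f => ?_, fun p => ?_⟩, ?_, ?_⟩⟩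
  · refine Subtype.ext (funext fun s => ?_)
    obtain ⟨z, rfl⟩ := em_surj s
    rcases z with a | t
    · rfl
    · exact sub_add_cancel _ _
  · exact Prod.ext rfl (Subtype.ext (funext fun t => add_sub_cancel_right _ _))
  · exact UniformContinuous.prodMk
      (UniformContinuous.subtype_mk (uniformContinuous_pi.2 fun a => uv _) _)
      (UniformContinuous.subtype_mk (uniformContinuous_pi.2 fun a => (uv _).sub (uv _)) _)
  · refine UniformContinuous.subtype_mk (uniformContinuous_pi.2 fun s => ?_) _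
    obtain ⟨z, rfl⟩ := em_surj s
    rcases z with a | t
    · exact u1 a
    · exact (u2 t).add (u1 0)

theorem ueq : Nonempty ({f : Sp Fm → ℝ // Continuous f} ≃ᵤ {f : ℝ → ℝ // Continuous f}) := by
  obtain ⟨e1⟩ := split
  obtain ⟨Θ, hΘ⟩ := glob
  obtain ⟨en, he⟩ := exists_injective_nat I
  have : Nonempty I := ⟨⟨0, 0⟩⟩
  obtain ⟨e2⟩ := hotel lv en he
  exact ⟨(e1.trans ((UniformEquiv.refl _).prodCongr (Θ.subtype hΘ))).trans e2⟩

theorem thin (s : ∀ n, Fin (3 ^ n + 1)) (v : ℕ → ℝ) :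
    (Sum.elim (fun _ : ℝ => (0 : ℝ)) fun t : I => if t.2 = s t.1 then v t.1 else 0) ∈ Fm := by
  refine ⟨continuous_const, tendsto_G.2 fun i ε hε => ?_⟩
  filter_upwards [eventually_ge_atTop i] with n hn
  refine le_trans (Finset.card_le_card (t := {s n}) fun j hj => ?_) (by simpa using kk1 hn)
  by_contra hc
  have : j ≠ s n := by simpa using hc
  simp [this] at hj
  linarith

def B : Set (Sp Fm) := range fun t : I => em Fm (.inr t)

theorem B_fin {K : Set (Sp Fm)} (hK : IsCompact K) : (B ∩ K).Finite := by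
  have h : ∀ n, ∃ s : Fin (3 ^ n + 1), (∃ j, em Fm (.inr ⟨n, j⟩) ∈ K) →
      em Fm (.inr ⟨n, s⟩) ∈ K := fun n => by
    by_cases h : ∃ j, em Fm (.inr ⟨n, j⟩) ∈ K
    · exact ⟨h.choose, fun _ => h.choose_spec⟩
    · exact ⟨0, fun c => absurd c h⟩
  choose s hs using h
  obtain ⟨M, hM⟩ := hK.bddAbove_image (co _ (thin s fun n => n)).continuous.continuousOn
  obtain ⟨m, hm⟩ := exists_nat_gt M
  refine ((fin_blocks m).image fun t => em Fm (.inr t)).subset ?_
  rintro _ ⟨⟨t, rfl⟩, ht⟩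
  refine ⟨t, ?_, rfl⟩
  have h1 : (if s t.1 = s t.1 then (t.1 : ℝ) else 0) ≤ M := hM ⟨_, hs t.1 ⟨t.2, ht⟩, rfl⟩
  rw [if_pos rfl] at h1
  exact_mod_cast h1.trans_lt hm

theorem B_not : ¬ IsClosed B := by
  classical
  intro h
  have := G_neBot
  obtain ⟨t, ht⟩ := h.mem_of_tendsto (em_tendsto (F := Fm) (u := Sum.inr) (z := Sum.inl 0)
    fun _ hg => hg.2) (Eventually.of_forall fun t => ⟨t, rfl⟩)
  have h1 := congrArg (co _ (thin (Function.update (fun _ => 0) t.1 t.2) fun _ => 1)) ht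
  have h2 : (if t.2 = Function.update (fun n => (0 : Fin (3 ^ n + 1))) t.1 t.2 t.1 then (1 : ℝ)
    else 0) = 0 := h1
  simp at h2

end Pool.Agent.H17.Ub
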