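import Mathlib
import Pool.Agent.H17.Ub3

set_option autoImplicit false
open Set Topology Filter
open scoped NNReal

namespace Pool.Agent.H17.Ub
open Pool.Agent.H17.CC (Sp em em_surj em_tendsto em_cont co)

section gen
variable {Z : Type}

def Fo (H : Filter Z) : Set (Option Z → ℝ) :=
  {f | Tendsto (fun t => f (some t)) H (𝓝 (f none))}

theorem Fo_lim (H : Filter Z) : Tendsto (fun t => em (Fo H) (some t)) H (𝓝 (em _ none)) :=
  em_tendsto (F := Fo H) (u := some) (z := none) fun _ hg => hg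

theorem Fo_mem {H : Filter Z} {f : Sp (Fo H) → ℝ} (hf : Continuous f) :
    (fun z => f (em _ z)) ∈ Fo H := (hf.tendsto _).comp (Fo_lim H)

theorem split' (H : Filter Z) : Nonempty ({f : Sp (Fo H) → ℝ // Continuous f} ≃ᵤ
    ℝ × {u : Z → ℝ // Tendsto u H (𝓝 0)}) := by
  let j : ℝ × {u : Z → ℝ // Tendsto u H (𝓝 0)} → Option Z → ℝ :=
    fun p z => z.elim p.1 fun t => p.2.1 t + p.1
  have hj : ∀ p, j p ∈ Fo H := fun p => by simpa [j, Fo] using p.2.2.add_const p.1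
  have uv : ∀ s, UniformContinuous fun f : {f : Sp (Fo H) → ℝ // Continuous f} => f.1 s :=
    fun s => (Pi.uniformContinuous_proj _ s).comp uniformContinuous_subtype_val
  have u2 : ∀ a, UniformContinuous fun p : ℝ × {u : Z → ℝ // Tendsto u H (𝓝 0)} => p.2.1 a :=
    fun a => (Pi.uniformContinuous_proj _ a).comp
      (uniformContinuous_subtype_val.comp uniformContinuous_snd)
  refine ⟨⟨⟨fun f => (f.1 (em _ none), ⟨fun t => f.1 (em _ (some t)) - f.1 (em _ none),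
      tendsto_sub_nhds_zero_iff.2 (Fo_mem f.2)⟩),
    fun p => ⟨co (j p) (hj p), (co (j p) (hj p)).continuous⟩, fun f => ?_, fun p => ?_⟩, ?_, ?_⟩⟩
  · refine Subtype.ext (funext fun s => ?_)
    obtain ⟨z, rfl⟩ := em_surj s
    rcases z with _ | t
    · rfl
    · exact sub_add_cancel _ _
  · exact Prod.ext rfl (Subtype.ext (funext fun t => add_sub_cancel_right _ _))
  · exact UniformContinuous.prodMk (uv _)
      (UniformContinuous.subtype_mk (uniformContinuous_pi.2 fun a => (uv _).sub (uv _)) _)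
  · refine UniformContinuous.subtype_mk (uniformContinuous_pi.2 fun s => ?_) _
    obtain ⟨z, rfl⟩ := em_surj s
    rcases z with _ | t
    · exact uniformContinuous_fst
    · exact (u2 t).add uniformContinuous_fst

end gen

abbrev T := ℕ × Finset ℕ
abbrev J := Σ s : T, Fin (3 ^ s.1 + 1)

open Classical in
noncomputable def node (x : Set ℕ) (n : ℕ) : T := (n, (Finset.range n).filter (· ∈ x))

def FF : Filter T := (⨅ x : Set ℕ, 𝓟 (range (node x))ᶜ) ⊓ comap Prod.fst atTop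

theorem FF_big (m : ℕ) : ∀ᶠ s in FF, m ≤ s.1 :=
  mem_inf_of_right (preimage_mem_comap (mem_atTop m))

theorem FF_br (x : Set ℕ) : ∀ᶠ s in FF, s ∉ range (node x) :=
  mem_inf_of_left (mem_iInf_of_mem x (mem_principal_self _))

noncomputable def comb (x : Set ℕ) (n : ℕ) : T := node {i | i ∈ x ↔ i ≠ n} (n + 1)

theorem comb_mem {x y : Set ℕ} {n : ℕ} : comb x n ∈ range (node y) ↔
    (∀ i < n, (i ∈ x ↔ i ∈ y)) ∧ ¬(n ∈ x ↔ n ∈ y) := by
  constructor
  · rintro ⟨m, h⟩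
    obtain rfl : m = n + 1 := congrArg Prod.fst h
    have h2 := Finset.ext_iff.1 (congrArg Prod.snd h)
    simp only [node, comb, Finset.mem_filter, Finset.mem_range, mem_ofPred_eq] at h2
    refine ⟨fun i hi => ?_, ?_⟩
    · have := h2 i
      have a : i < n + 1 := by omega
      have b : i ≠ n := by omega
      tauto
    · have := h2 n
      have a : n < n + 1 := by omega
      tauto
  · rintro ⟨h1, h2⟩
    refine ⟨n + 1, Prod.ext rfl (Finset.ext fun i => ?_)⟩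
    simp only [node, comb, Finset.mem_filter, Finset.mem_range, mem_ofPred_eq]
    refine and_congr_right fun hi => ?_
    rcases (Nat.lt_succ_iff.1 hi).eq_or_lt with rfl | c
    · tauto
    · have := h1 i c
      have b : i ≠ n := by omega
      tauto

theorem comb_lim (x : Set ℕ) : Tendsto (comb x) atTop FF := by
  refine tendsto_inf.2 ⟨tendsto_iInf.2 fun y => tendsto_principal.2 ?_,
    tendsto_comap_iff.2 (tendsto_add_atTop_nat 1)⟩
  by_cases h : ∃ m, comb x m ∈ range (node y)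
  · obtain ⟨m, hm⟩ := h
    filter_upwards [eventually_gt_atTop m] with n hn hc
    exact (comb_mem.1 hm).2 ((comb_mem.1 hc).1 m hn)
  · exact Eventually.of_forall fun n hc => h ⟨n, hc⟩

open Classical in
def G1 : Filter J where
  sets := {B | ∃ c, ∀ᶠ s in FF,
    (Finset.univ.filter fun j : Fin (3 ^ s.1 + 1) => (⟨s, j⟩ : J) ∉ B).card ≤ c}
  univ_sets := ⟨0, Eventually.of_forall fun n => by simp⟩
  sets_of_superset := fun {B C} ⟨c, hB⟩ h => ⟨c, hB.mono fun n hn =>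
    le_trans (Finset.card_le_card fun j hj => by
      simp only [Finset.mem_filter, Finset.mem_univ, true_and] at hj ⊢
      exact fun c => hj (h c)) hn⟩
  inter_sets := fun {B C} ⟨c, hB⟩ ⟨d, hC⟩ => ⟨c + d, (hB.and hC).mono fun n hn => by
    refine le_trans (Finset.card_le_card fun j hj => ?_)
      ((Finset.card_union_le _ _).trans (add_le_add hn.1 hn.2))
    simp only [Finset.mem_filter, Finset.mem_univ, true_and, Finset.mem_union,
      mem_inter_iff] at hj ⊢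
    tauto⟩

open Classical in
theorem mem_G1 {B : Set J} : B ∈ G1 ↔ ∃ c, ∀ᶠ s in FF,
    (Finset.univ.filter fun j : Fin (3 ^ s.1 + 1) => (⟨s, j⟩ : J) ∉ B).card ≤ c := Iff.rfl

theorem tendsto_G1 {u : J → ℝ} : Tendsto u G1 (𝓝 0) ↔
    ∀ ε, 0 < ε → ∃ c, ∀ᶠ s in FF, Sm c ε fun j => u ⟨s, j⟩ := by
  rw [Metric.tendsto_nhds]
  constructor
  · intro h ε hε
    obtain ⟨c, hc⟩ := mem_G1.1 (h ε hε)
    refine ⟨c, hc.mono fun n hn => le_trans (Finset.card_le_card fun j hj => ?_) hn⟩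
    simp only [Finset.mem_filter, Finset.mem_univ, true_and, mem_ofPred_eq, dist_zero_right,
      Real.norm_eq_abs] at hj ⊢
    exact not_lt.2 hj.le
  · intro h ε hε
    obtain ⟨c, hc⟩ := h (ε / 2) (half_pos hε)
    refine mem_G1.2 ⟨c, hc.mono fun n hn => le_trans (Finset.card_le_card fun j hj => ?_) hn⟩
    simp only [Finset.mem_filter, Finset.mem_univ, true_and, mem_ofPred_eq, dist_zero_right,
      Real.norm_eq_abs] at hj ⊢
    linarith [not_lt.1 hj]

def G2 : Filter J where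
  sets := {B | ∃ c : ℕ, ∀ᶠ s : T in FF, ∀ j : Fin (3 ^ s.1 + 1), c ≤ (j : ℕ) → (⟨s, j⟩ : J) ∈ B}
  univ_sets := ⟨0, Eventually.of_forall fun _ _ _ => trivial⟩
  sets_of_superset := fun ⟨c, hB⟩ h => ⟨c, hB.mono fun _ hn j hj => h (hn j hj)⟩
  inter_sets := fun ⟨c, hB⟩ ⟨d, hC⟩ => ⟨c + d, (hB.and hC).mono fun _ hn j hj =>
    ⟨hn.1 j (le_trans (Nat.le_add_right _ _) hj), hn.2 j (le_trans (Nat.le_add_left _ _) hj)⟩⟩

theorem mem_G2 {B : Set J} : B ∈ G2 ↔
    ∃ c : ℕ, ∀ᶠ s in FF, ∀ j : Fin (3 ^ s.1 + 1), c ≤ j → (⟨s, j⟩ : J) ∈ B := Iff.rfl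

theorem tendsto_G2 {u : J → ℝ} : Tendsto u G2 (𝓝 0) ↔ ∀ ε, 0 < ε →
    ∃ c : ℕ, ∀ᶠ s in FF, ∀ j : Fin (3 ^ s.1 + 1), c ≤ j → |u ⟨s, j⟩| ≤ ε := by
  rw [Metric.nhds_basis_closedBall.tendsto_right_iff]
  refine forall₂_congr fun ε _ => ?_
  rw [Filter.Eventually, mem_G2]
  simp

theorem kk_eq {n i m : ℕ} (h : n = i + m) : kk n i = 3 ^ m := by
  rw [kk, h, pow_add]; exact Nat.mul_div_cancel_left _ (by positivity)

theorem glob2 : ∃ Θ : (J → ℝ) ≃ᵤ (J → ℝ), ∀ u, Tendsto u G1 (𝓝 0) ↔ Tendsto (Θ u) G2 (𝓝 0) := by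
  choose θ hθ using fun n => block2 (N := 3 ^ n + 1) (kk n) (kk3 n) ⟨n, kk0 n⟩
  have uc : ∀ s : T, UniformContinuous fun (u : J → ℝ) (j : Fin (3 ^ s.1 + 1)) => u ⟨s, j⟩ :=
    fun n => uniformContinuous_pi.2 fun j => Pi.uniformContinuous_proj _ _
  refine ⟨⟨⟨fun u t => θ t.1.1 (fun j => u ⟨t.1, j⟩) t.2,
    fun u t => (θ t.1.1).symm (fun j => u ⟨t.1, j⟩) t.2, fun u => ?_, fun u => ?_⟩,
    uniformContinuous_pi.2 fun t => ?_, uniformContinuous_pi.2 fun t => ?_⟩, fun u => ?_⟩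
  · funext t
    exact congrFun ((θ t.1.1).symm_apply_apply fun j => u ⟨t.1, j⟩) t.2
  · funext t
    exact congrFun ((θ t.1.1).apply_symm_apply fun j => u ⟨t.1, j⟩) t.2
  · exact (Pi.uniformContinuous_proj _ t.2).comp ((θ t.1.1).uniformContinuous.comp (uc t.1))
  · exact (Pi.uniformContinuous_proj _ t.2).comp ((θ t.1.1).symm.uniformContinuous.comp (uc t.1))
  · rw [tendsto_G1, tendsto_G2]
    have hm : ∀ ε : ℝ, 0 < ε → ∃ δ, 0 < δ ∧ δ ≤ 1 / 2 ∧ 2 * δ ≤ ε := fun ε hε =>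
      ⟨min (1 / 2) (ε / 2), by positivity, min_le_left _ _, by
        linarith [min_le_right (1 / 2) (ε / 2)]⟩
    have hk : ∀ c n : ℕ, c + 1 ≤ n → kk n (n - c - 1 + 1) = 3 ^ c ∧
        kk n (n - c - 1) = 3 ^ (c + 1) := fun c n h => ⟨kk_eq (by omega), kk_eq (by omega)⟩
    have hc : ∀ c : ℕ, c ≤ 3 ^ c := fun c => (Nat.lt_pow_self (by norm_num)).le
    constructor
    · intro h ε hε
      obtain ⟨δ, h0, h1, h2⟩ := hm ε hε
      obtain ⟨c, h⟩ := h δ h0
      refine ⟨2 * 3 ^ c, ?_⟩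
      filter_upwards [h, FF_big (c + 1)] with s hs hn j hj
      have := (hθ s.1 (s.1 - c - 1) (fun j => u ⟨s, j⟩) δ h0.le h1).1
      rw [(hk c _ hn).1] at this
      exact (this (hs.mono (hc c)) j hj).trans h2
    · intro h ε hε
      obtain ⟨δ, h0, h1, h2⟩ := hm ε hε
      obtain ⟨c, h⟩ := h δ h0
      refine ⟨3 ^ (c + 1), ?_⟩
      filter_upwards [h, FF_big (c + 1)] with s hs hn
      have := (hθ s.1 (s.1 - c - 1) (fun j => u ⟨s, j⟩) δ h0.le h1).2
      rw [(hk c _ hn).1, (hk c _ hn).2] at this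
      exact (this fun j hj => hs j (by have := hc c; omega)).of_sub fun p hp => h2.trans_lt hp

theorem ueq2 : Nonempty ({f : Sp (Fo G1) → ℝ // Continuous f} ≃ᵤ
    {f : Sp (Fo G2) → ℝ // Continuous f}) := by
  obtain ⟨e1⟩ := split' G1
  obtain ⟨e2⟩ := split' G2
  obtain ⟨Θ, hΘ⟩ := glob2
  exact ⟨(e1.trans ((UniformEquiv.refl _).prodCongr (Θ.subtype hΘ))).trans e2.symm⟩

theorem fin1 {K : Set (Sp (Fo G1))} (hK : IsCompact K) : K.Finite := by
  have h : ∀ n : T, ∃ s : Fin (3 ^ n.1 + 1), (∃ j, em (Fo G1) (some ⟨n, j⟩) ∈ K) →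
      em (Fo G1) (some ⟨n, s⟩) ∈ K := fun n => by
    by_cases h : ∃ j, em (Fo G1) (some ⟨n, j⟩) ∈ K
    · exact ⟨h.choose, fun _ => h.choose_spec⟩
    · exact ⟨0, fun c => absurd c h⟩
  choose s hs using h
  obtain ⟨en, he⟩ := exists_injective_nat T
  have hf : (fun z : Option J => z.elim (0 : ℝ) fun t => if t.2 = s t.1 then en t.1 else 0)
      ∈ Fo G1 := by
    refine tendsto_G1.2 fun ε hε => ⟨1, Eventually.of_forall fun n => ?_⟩
    refine le_trans (Finset.card_le_card (t := {s n}) fun j hj => ?_) (by simp)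
    by_contra hc
    have : j ≠ s n := by simpa using hc
    simp [this] at hj
    linarith
  obtain ⟨M, hM⟩ := hK.bddAbove_image (co _ hf).continuous.continuousOn
  obtain ⟨m, hm⟩ := exists_nat_gt M
  refine ((((finite_lt_nat m).preimage he.injOn).biUnion fun n _ => finite_range
    fun j : Fin (3 ^ n.1 + 1) => em (Fo G1) (some ⟨n, j⟩)).insert (em _ none)).subset
    fun z hz => ?_
  obtain ⟨z, rfl⟩ := em_surj z
  rcases z with _ | t
  · exact Or.inl rfl
  · have h1 : (if s t.1 = s t.1 then (en t.1 : ℝ) else 0) ≤ M := hM ⟨_, hs t.1 ⟨t.2, hz⟩, rfl⟩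
    rw [if_pos rfl] at h1
    have h2 : en t.1 < m := by exact_mod_cast h1.trans_lt hm
    exact Or.inr (mem_biUnion (show t.1 ∈ en ⁻¹' {i | i < m} from h2) ⟨t.2, rfl⟩)

theorem aleph1 : ∃ N : Set (Set (Sp (Fo G1))), N.Countable ∧
    ∀ K U : Set (Sp (Fo G1)), IsCompact K → IsOpen U → K ⊆ U →
      ∃ F : Finset (Set (Sp (Fo G1))), (↑F : Set (Set _)) ⊆ N ∧
        K ⊆ ⋃₀ (↑F : Set (Set _)) ∧ ⋃₀ (↑F : Set (Set _)) ⊆ U := by
  refine ⟨range fun z => {em _ z}, countable_range _, fun K U hK _ h => ?_⟩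
  refine ⟨((fin1 hK).image fun z => {z}).toFinset, ?_, ?_, ?_⟩
  · rw [Finite.coe_toFinset]
    rintro _ ⟨z, -, rfl⟩
    obtain ⟨z, rfl⟩ := em_surj z
    exact ⟨z, rfl⟩
  · rw [Finite.coe_toFinset]
    exact fun z hz => ⟨{z}, ⟨z, hz, rfl⟩, rfl⟩
  · rw [Finite.coe_toFinset]
    rintro _ ⟨_, ⟨z, hz, rfl⟩, rfl⟩
    exact h hz

theorem aleph2 : ¬ ∃ N : Set (Set (Sp (Fo G2))), N.Countable ∧
    ∀ K U : Set (Sp (Fo G2)), IsCompact K → IsOpen U → K ⊆ U →
      ∃ F : Finset (Set (Sp (Fo G2))), (↑F : Set (Set _)) ⊆ N ∧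
        K ⊆ ⋃₀ (↑F : Set (Set _)) ∧ ⋃₀ (↑F : Set (Set _)) ⊆ U := by
  classical
  rintro ⟨N, hN, h⟩
  let top : T → J := fun s => ⟨s, Fin.last _⟩
  have ht : Tendsto top FF G2 := fun B hB => by
    obtain ⟨c, hc⟩ := mem_G2.1 hB
    rw [mem_map]
    filter_upwards [hc, FF_big c] with s hs hn
    refine hs _ ?_
    rw [Fin.val_last]
    exact hn.trans (Nat.lt_pow_self (by norm_num)).le
  let f : Set ℕ → Option J → ℝ := fun x z => z.elim 0 fun t =>
    if t.1 ∈ range (node x) then 1 else 0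
  have hf : ∀ x, f x ∈ Fo G2 := fun x => tendsto_G2.2 fun ε hε =>
    ⟨0, (FF_br x).mono fun s hs j _ => by
      show |if s ∈ range (node x) then (1 : ℝ) else 0| ≤ ε
      rw [if_neg hs, abs_zero]; exact hε.le⟩
  choose F hF1 hF2 hF3 using fun x : Set ℕ =>
    h _ {z | co _ (hf x) z < 1} (((Fo_lim G2).comp (ht.comp (comb_lim x))).isCompact_insert_range)
      (isOpen_lt (co _ (hf x)).continuous continuous_const) (by
        rintro _ (rfl | ⟨n, rfl⟩)
        · exact zero_lt_one' ℝ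
        · show (if comb x n ∈ range (node x) then (1 : ℝ) else 0) < 1
          rw [if_neg fun c => (comb_mem.1 c).2 Iff.rfl]
          exact zero_lt_one)
  have hinj : Function.Injective fun x => (F x : Set (Set (Sp (Fo G2)))) := by
    intro x y e
    by_contra hne
    have hex : ∃ n, ¬(n ∈ x ↔ n ∈ y) := by
      by_contra hc
      push Not at hc
      exact hne (Set.ext hc)
    have h1 : comb x (Nat.find hex) ∈ range (node y) :=
      comb_mem.2 ⟨fun i hi => not_not.1 (Nat.find_min hex hi), Nat.find_spec hex⟩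
    have h2 := hF2 x (Or.inr ⟨Nat.find hex, rfl⟩)
    rw [show (F x : Set (Set (Sp (Fo G2)))) = F y from e] at h2
    have h3 : (if comb x (Nat.find hex) ∈ range (node y) then (1 : ℝ) else 0) < 1 := hF3 y h2
    rw [if_pos h1] at h3
    exact lt_irrefl _ h3
  have hc : (univ : Set (Set ℕ)).Countable :=
    MapsTo.countable_of_injOn (t := {t | t.Finite ∧ t ⊆ N})
      (fun x _ => ⟨(F x).finite_toSet, hF1 x⟩) hinj.injOn (countable_ofPred_finite_subset hN)
  have := countable_univ_iff.1 hc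
  obtain ⟨g, hg⟩ := exists_surjective_nat (Set ℕ)
  exact Function.cantor_surjective g hg

end Pool.Agent.H17.Ub
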