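import Mathlib
import Pool.Agent.H17.Vald2

set_option autoImplicit false

namespace Pool.Agent.H17.Vald

open Set Cardinal Filter Topology

theorem fix_pt {L Γ : Type} [TopologicalSpace L] [CompactSpace L] (e : L → Γ → ℝ)
    (he : IsEmbedding e) (hD : Dense {x | {γ | e x γ ≠ 0}.Countable}) (h : L → L)
    (hh : Continuous h) (hi : ∀ x, {γ | e x γ ≠ 0}.Countable → {γ | e (h x) γ ≠ 0}.Countable)
    {x : L} (hx : h x = x) (u : Finset Γ) :
    ∃ y, h y = y ∧ {γ | e y γ ≠ 0}.Countable ∧ ∀ γ ∈ u, e y γ = e x γ := by
  let e2 : L → Γ ⊕ Γ → ℝ := fun y => Sum.elim (e y) (e (h y))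
  have he2 : Continuous e2 := continuous_pi fun γ => match γ with
    | Sum.inl γ => (continuous_apply γ).comp he.continuous
    | Sum.inr γ => (continuous_apply γ).comp (he.continuous.comp hh)
  classical
  obtain ⟨g, g1, g2⟩ := approx e2 he2 {x | {γ | e x γ ≠ 0}.Countable}
  obtain ⟨cl, _, b, c, d⟩ := exists_cl
    (fun F : Finset Γ => ⋃ G ∈ {G : Finset (Γ ⊕ Γ) | G ⊆ F.disjSum F},
      ⋃ p ∈ g G, ({γ | e p γ ≠ 0} ∪ {γ | e (h p) γ ≠ 0}))
    fun F => Countable.biUnion ((F.disjSum F).powerset.countable_toSet.mono fun G hG =>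
      Finset.mem_coe.2 (Finset.mem_powerset.2 hG)) fun G _ =>
        (g1 G).1.biUnion fun p hp => Countable.union ((g1 G).2 hp) (hi p ((g1 G).2 hp))
  obtain ⟨y, _, hy⟩ := lim_pt e2 he2 g x (Sum.elim id id ⁻¹' cl u) (by
    intro G hG p hp γ hγ
    refine d u (G.image (Sum.elim id id)) ?_ (mem_iUnion₂.2 ⟨G, ?_, mem_iUnion₂.2 ⟨p, hp, ?_⟩⟩)
    · intro z hz
      obtain ⟨w, hw, rfl⟩ := Finset.mem_image.1 hz
      exact hG hw
    · intro z hz
      cases z with
      | inl z => exact Finset.inl_mem_disjSum.2 (Finset.mem_image.2 ⟨_, hz, rfl⟩)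
      | inr z => exact Finset.inr_mem_disjSum.2 (Finset.mem_image.2 ⟨_, hz, rfl⟩)
    · cases γ with
      | inl γ => exact Or.inl hγ
      | inr γ => exact Or.inr hγ) (g2 x (hD x))
  have e1 : ∀ γ, e y γ = (cl u).indicator (e x) γ := fun γ => congrFun hy (Sum.inl γ)
  have e3 : ∀ γ, e (h y) γ = (cl u).indicator (e (h x)) γ := fun γ => congrFun hy (Sum.inr γ)
  refine ⟨y, he.injective (funext fun γ => by rw [e1, e3, hx]),
    (c u u.countable_toSet).mono fun γ hγ => ?_, fun γ hγ => ?_⟩
  · by_contra a
    exact hγ (by rw [e1, indicator_of_notMem a])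
  · rw [e1, indicator_of_mem (b u (Finset.mem_coe.2 hγ))]

theorem fix_dense {L Γ : Type} [TopologicalSpace L] [CompactSpace L] (e : L → Γ → ℝ)
    (he : IsEmbedding e) (hD : Dense {x | {γ | e x γ ≠ 0}.Countable}) (h : L → L)
    (hh : Continuous h) (hi : ∀ x, {γ | e x γ ≠ 0}.Countable → {γ | e (h x) γ ≠ 0}.Countable) :
    Dense {x : {x // h x = x} | {γ | e x.1 γ ≠ 0}.Countable} := by
  intro x
  choose y y1 y2 y3 using fix_pt e he hD h hh hi x.2
  have ht : Tendsto (fun u => (⟨y u, y1 u⟩ : {x // h x = x})) atTop (𝓝 x) := by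
    rw [tendsto_subtype_rng, he.tendsto_nhds_iff, tendsto_pi_nhds]
    intro γ
    refine tendsto_const_nhds.congr' ?_
    filter_upwards [eventually_ge_atTop ({γ} : Finset Γ)] with u hu
    exact (y3 u γ (hu (Finset.mem_singleton_self γ))).symm
  exact mem_closure_of_tendsto ht (Eventually.of_forall y2)

abbrev XX : Type := (Cardinal.aleph.{0} 2).ord.ToType

abbrev KK : Type := XX ⊕ XX × XX → Bool

noncomputable def inv (x : KK) : KK := fun i => match i with
  | Sum.inl a => x (Sum.inl a)
  | Sum.inr q => xor (x (Sum.inr q)) (decide (q.1 < q.2) && x (Sum.inl q.1) && !x (Sum.inl q.2))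

theorem inv_inv (x : KK) : inv (inv x) = x := by
  funext i
  cases i with
  | inl a => rfl
  | inr q => simp [inv]

theorem inv_cont : Continuous inv := by
  refine continuous_pi fun i => ?_
  cases i with
  | inl a => exact continuous_apply _
  | inr q =>
    exact (continuous_of_discreteTopology (f := fun t : Bool × Bool × Bool =>
      xor t.1 (decide (q.1 < q.2) && t.2.1 && !t.2.2))).comp
      (f := fun x : KK => (x (Sum.inr q), x (Sum.inl q.1), x (Sum.inl q.2)))
      ((continuous_apply _).prodMk ((continuous_apply _).prodMk (continuous_apply _)))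

theorem KK_vald : ∃ φ : KK → (XX ⊕ XX × XX) → ℝ, IsEmbedding φ ∧
    Dense {x | {γ | φ x γ ≠ 0}.Countable} := by
  classical
  let b : Bool → ℝ := fun t => if t then 1 else 0
  have hb : Function.Injective b := by
    intro s t h; cases s <;> cases t <;> simp_all [b]
  refine ⟨fun x i => b (x i), ?_, ?_⟩
  · refine (Continuous.isClosedEmbedding (continuous_pi fun i =>
      (continuous_of_discreteTopology (f := b)).comp (f := fun x : KK => x i)
        (continuous_apply i)) ?_).isEmbedding
    intro x y h
    exact funext fun i => hb (congrFun h i)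
  · intro x
    have ht : Tendsto (fun u : Finset (XX ⊕ XX × XX) => fun i => if i ∈ u then x i else false)
        atTop (𝓝 x) := by
      rw [tendsto_pi_nhds]
      intro γ
      refine tendsto_const_nhds.congr' ?_
      filter_upwards [eventually_ge_atTop ({γ} : Finset _)] with u hu
      exact (if_pos (hu (Finset.mem_singleton_self γ))).symm
    refine mem_closure_of_tendsto ht (Eventually.of_forall fun u =>
      u.countable_toSet.mono fun γ hγ => ?_)
    by_contra c
    apply hγ
    simp only [if_neg (show γ ∉ u from c), b]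
    rfl

theorem KK_no {Γ : Type} (e : KK → Γ → ℝ) (he : IsEmbedding e)
    (hD : Dense {x | {γ | e x γ ≠ 0}.Countable})
    (hi : ∀ x, {γ | e x γ ≠ 0}.Countable → {γ | e (inv x) γ ≠ 0}.Countable) : False := by
  classical
  have : CompactSpace {x : KK // inv x = x} :=
    isCompact_iff_compactSpace.1 (isClosed_eq inv_cont continuous_id).isCompact
  refine no_chain (fun x : {x : KK // inv x = x} => e x.1) (he.comp IsEmbedding.subtypeVal)
    (fix_dense e he hD inv inv_cont hi) (X := XX) (S := univ) ?_
    (fun a => {x | x.1 (Sum.inl a) = true}) (fun a _ => ?_) ?_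
  · rw [mk_univ, mk_ord_toType]
    exact aleph_lt_aleph.2 one_lt_two
  · exact (isClopen_discrete {true}).preimage ((continuous_apply _).comp continuous_subtype_val)
  · intro a _ b _ hab
    constructor
    · intro x hx
      have := congrFun x.2 (Sum.inr (a, b))
      simp only [inv, hab, decide_true, show x.1 (Sum.inl a) = true from hx] at this
      show x.1 (Sum.inl b) = true
      revert this
      cases x.1 (Sum.inl b) <;> cases x.1 (Sum.inr (a, b)) <;> simp
    · intro c
      have := c (show (⟨fun i => match i with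
        | Sum.inl t => decide (b ≤ t)
        | Sum.inr _ => false, by
          funext i
          cases i with
          | inl t => rfl
          | inr q =>
            simp only [inv, Bool.false_xor, Bool.and_eq_false_imp, Bool.and_eq_true,
              decide_eq_true_eq, Bool.not_eq_eq_eq_not, Bool.not_false]
            exact fun h => h.2.trans h.1.le⟩ : {x : KK // inv x = x}) ∈
          {x : {x : KK // inv x = x} | x.1 (Sum.inl b) = true} by simp)
      simp only [mem_ofPred_eq, decide_eq_true_eq] at this
      exact absurd hab (not_lt.2 this)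

end Pool.Agent.H17.Vald
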