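import Mathlib

set_option autoImplicit false

namespace Pool.Agent.H17.Why
open Set Topology Filter

abbrev C : Type := {f : (ℕ → ℝ) → ℝ // Continuous f}

noncomputable def lo (i : ℕ) : ℝ := ((Denumerable.ofNat (ℚ × ℕ) i).1 : ℚ)
noncomputable def hi (i : ℕ) : ℝ := lo i + 1 / (((Denumerable.ofNat (ℚ × ℕ) i).2 : ℝ) + 1)

theorem lo_lt (i : ℕ) : lo i < hi i := lt_add_of_pos_right _ Nat.one_div_pos_of_nat

theorem inside {a b : ℝ} (h : a < b) : ∃ i, a < lo i ∧ hi i < b := by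
  obtain ⟨q, h1, h2⟩ := exists_rat_btwn h
  obtain ⟨n, hn⟩ := exists_nat_one_div_lt (sub_pos.2 h2)
  obtain ⟨i, hi'⟩ := (Denumerable.eqv (ℚ × ℕ)).symm.surjective (q, n)
  have : Denumerable.ofNat (ℚ × ℕ) i = (q, n) := hi'
  refine ⟨i, ?_, ?_⟩ <;> simp only [lo, hi, this] <;> linarith

noncomputable def c (i : ℕ) (t : ℕ → ℝ) : ℝ := max (lo i) (min (hi i) (t (2 * i)))

noncomputable def g (q : ℚ) (i : ℕ) (t : ℕ → ℝ) : ℝ :=
  max 0 (min 1 (t (2 * i + 1) * |q - c i t| - 1))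

noncomputable def F (q : ℚ) : C :=
  ⟨fun t => q + ∏ i ∈ Finset.range (Encodable.encode q + 1), g q i t, by
    unfold g c
    fun_prop⟩

theorem F_zero {q : ℚ} {t : ℕ → ℝ} {i : ℕ} (hi : i ≤ Encodable.encode q)
    (h : t (2 * i + 1) * |q - c i t| ≤ 1) : (F q).1 t = q := by
  have : g q i t = 0 := max_eq_left (min_le_of_right_le (by linarith))
  simp only [F]
  rw [Finset.prod_eq_zero (Finset.mem_range.2 (Nat.lt_succ_of_le hi)) this, add_zero]

def Nwd (S : Set ℚ) : Prop := ∀ i, ∃ y ∈ Icc (lo i) (hi i), ∃ r > 0, ∀ q ∈ S, r ≤ |(q : ℝ) - y|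

theorem fin (k : ℕ) : {q : ℚ | Encodable.encode q < k}.Finite :=
  (finite_lt_nat k).preimage Encodable.encode_injective.injOn

theorem claim1 {S : Set ℚ} (h : Nwd S) : closure (F '' S) ⊆ range F := by
  choose y hy r hr h using h
  let t : ℕ → ℝ := fun n => if n % 2 = 0 then y (n / 2) else 2 / r (n / 2)
  have t0 : ∀ i, t (2 * i) = y i := fun i => by simp [t]
  have t1 : ∀ i, t (2 * i + 1) = 2 / r i := fun i => by
    have : (2 * i + 1) / 2 = i := by omega
    simp [t, this]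
  have h1 : ∀ q ∈ S, (F q).1 t = q + 1 := fun q hq => by
    simp only [F]
    rw [Finset.prod_eq_one fun i _ => ?_]
    have h2 : c i t = y i := by rw [c, t0, min_eq_right (hy i).2, max_eq_right (hy i).1]
    have h3 : 2 ≤ 2 / r i * |q - y i| := by
      rw [div_mul_eq_mul_div, le_div_iff₀ (hr i)]
      linarith [h i q hq]
    rw [g, h2, t1, min_eq_left (by linarith), max_eq_right zero_le_one]
  let s : ℕ → ℕ → ℝ := fun k n => if n < 2 * k then t n else 0
  have hs : Tendsto s atTop (𝓝 t) := tendsto_pi_nhds.2 fun n => tendsto_const_nhds.congr'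
    ((eventually_gt_atTop n).mono fun k hk => by simp [s, show n < 2 * k by omega])
  intro x hx
  by_contra hn
  have h2 : ∀ k, x.1 t - x.1 (s k) = 1 := fun k => by
    have hc : IsClosed (F '' {q | Encodable.encode q < k} ∪ {x : C | x.1 t - x.1 (s k) = 1}) :=
      ((fin k).image F).isClosed.union (isClosed_eq
        (((continuous_apply t).comp continuous_subtype_val).sub
          ((continuous_apply (s k)).comp continuous_subtype_val)) continuous_const)
    refine (closure_minimal ?_ hc hx).resolve_left fun h => hn (image_subset_range _ _ h)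
    rintro _ ⟨q, hq, rfl⟩
    rcases lt_or_ge (Encodable.encode q) k with h3 | h3
    · exact Or.inl ⟨q, h3, rfl⟩
    · refine Or.inr ?_
      show (F q).1 t - (F q).1 (s k) = 1
      rw [h1 q hq, F_zero h3 (by simp [s])]
      ring
  have h3 := ((x.2.tendsto t).comp hs).const_sub (x.1 t)
  rw [show (fun k => x.1 t - (x.1 ∘ s) k) = fun _ => (1 : ℝ) from funext h2, sub_self] at h3
  exact one_ne_zero (tendsto_const_nhds_iff.1 h3)

theorem dns (t : ℕ → ℝ) : ∃ O : Set ℝ, IsOpen O ∧ Dense O ∧ ∀ q : ℚ, (q : ℝ) ∈ O → (F q).1 t = q := by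
  have ho : ∀ i, IsOpen {y : ℝ | t (2 * i + 1) * |y - c i t| < 1} := fun i =>
    isOpen_lt (by fun_prop) continuous_const
  refine ⟨⋃ i, {y : ℝ | t (2 * i + 1) * |y - c i t| < 1} ∩
    ((↑) '' {q : ℚ | Encodable.encode q < i})ᶜ, isOpen_iUnion fun i => (ho i).inter
      ((fin i).image _).isClosed.isOpen_compl, dense_iff_exists_between.2 fun a b hab => ?_,
      fun q hq => ?_⟩
  · obtain ⟨i, h1, h2⟩ := inside hab
    obtain ⟨y, ⟨h3, h4⟩, h5⟩ := (((fin i).image ((↑) : ℚ → ℝ)).countable.dense_compl ℝ).inter_open_nonempty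
      _ ((ho i).inter isOpen_Ioo) ⟨c i t, by simp, show c i t ∈ Ioo a b from
        ⟨h1.trans_le (le_max_left _ _), (max_le (lo_lt i).le (min_le_left _ _)).trans_lt h2⟩⟩
    exact ⟨y, mem_iUnion.2 ⟨i, h3, h5⟩, h4⟩
  · obtain ⟨i, h1, h2⟩ := mem_iUnion.1 hq
    exact F_zero (not_lt.1 fun h => h2 ⟨q, h, rfl⟩) (le_of_lt h1)

theorem claim2 {S : Set ℚ} {i : ℕ} (h : ∀ y ∈ Icc (lo i) (hi i), ∀ r > 0, ∃ q ∈ S, |(q : ℝ) - y| < r)
    {p : ℝ} (hp : p ∈ Ioo (lo i) (hi i)) : (⟨fun _ => p, continuous_const⟩ : C) ∈ closure (F '' S) := by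
  refine mem_closure_iff.2 fun U hU hx => ?_
  obtain ⟨V, hV, rfl⟩ := isOpen_induced_iff.1 hU
  obtain ⟨I, u, h1, h2⟩ := isOpen_pi_iff.1 hV _ hx
  choose O h3 h4 h5 using dns
  have h6 : IsOpen (Ioo (lo i) (hi i) ∩ ⋂ t ∈ I, u t) :=
    isOpen_Ioo.inter (isOpen_biInter_finset fun t ht => (h1 t ht).1)
  obtain ⟨y, hy⟩ := (dense_biInter_of_isOpen (fun t _ => h3 t) I.countable_toSet
    fun t _ => h4 t).inter_open_nonempty _ h6 ⟨p, hp, mem_iInter₂.2 fun t ht => (h1 t ht).2⟩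
  obtain ⟨r, hr, h7⟩ := Metric.isOpen_iff.1 (h6.inter (isOpen_biInter_finset fun t _ => h3 t)) y hy
  obtain ⟨q, hq, h8⟩ := h y (Ioo_subset_Icc_self hy.1.1) r hr
  have h9 := h7 (show (q : ℝ) ∈ Metric.ball y r from h8)
  refine ⟨F q, h2 fun t ht => ?_, q, hq, rfl⟩
  rw [h5 t q (mem_iInter₂.1 h9.2 t ht)]
  exact mem_iInter₂.1 h9.1.2 t ht

theorem irr {p : ℝ} (hp : Irrational p) : (⟨fun _ => p, continuous_const⟩ : C) ∉ range F := by
  rintro ⟨q, hq⟩
  have := congrFun (congrArg Subtype.val hq) 0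
  rw [F_zero (Nat.zero_le _) (by simp)] at this
  exact hp ⟨q, this⟩

theorem not_closed : ¬ IsClosed (range F) := fun h => by
  obtain ⟨p, hp, h1⟩ := exists_irrational_btwn (lo_lt 0)
  refine irr hp (h.closure_subset (image_univ (f := F) ▸ claim2 (fun y _ r hr => ?_) h1))
  obtain ⟨q, hq⟩ := exists_rat_near y hr
  exact ⟨q, trivial, abs_sub_comm y q ▸ hq⟩

theorem main (B : Set C) (hB : B ⊆ range F) (x : C) (hx : x ∉ range F) :
    closure B ≠ insert x B := fun h => by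
  rw [← image_preimage_eq_of_subset hB] at h
  by_cases hn : Nwd (F ⁻¹' B)
  · exact hx (claim1 hn (h.ge (mem_insert _ _)))
  · simp only [Nwd, not_forall, not_exists, not_and, not_le, exists_prop] at hn
    obtain ⟨i, hi⟩ := hn
    obtain ⟨p, hp, h1⟩ := exists_irrational_btwn (lo_lt i)
    obtain ⟨p', hp', h2⟩ := exists_irrational_btwn h1.1
    have h3 := (h.le (claim2 hi h1)).resolve_right fun h => irr hp (image_subset_range _ _ h)
    have h4 := (h.le (claim2 hi ⟨h2.1, h2.2.trans h1.2⟩)).resolve_right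
      fun h => irr hp' (image_subset_range _ _ h)
    exact h2.2.ne (congrFun (congrArg Subtype.val (h4.trans h3.symm)) 0)

end Pool.Agent.H17.Why
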